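import Mathlib

namespace Pool.Agent.H33.AinfD

/-- `A^∞(G)`: an element is recorded as the sequence `F 0, F 1, …` of the continuous extensions to
`closure G` of the derivatives `f, f', f'', …` of a function `f` holomorphic on `G`. The topology
is that of uniform convergence of each `F j` on the compact subsets of `closure G`. -/
def Ainf (G : Set ℂ) (hG : IsOpen G) : Submodule ℂ (ℕ → C(closure G, ℂ)) where
  carrier := {F | ∃ f : ℂ → ℂ, DifferentiableOn ℂ f G ∧
    ∀ j (z : closure G), z.1 ∈ G → F j z = iteratedDeriv j f z}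
  zero_mem' := ⟨0, differentiableOn_const 0, fun j z _ => by simp⟩
  add_mem' := fun ⟨f, hf, h⟩ ⟨g, hg, h'⟩ => ⟨f + g, hf.add hg, fun j z hz => by
    rw [iteratedDeriv_add (hf.analyticAt (hG.mem_nhds hz)).contDiffAt
      (hg.analyticAt (hG.mem_nhds hz)).contDiffAt, ← h j z hz, ← h' j z hz]
    rfl⟩
  smul_mem' := fun c _ ⟨f, hf, h⟩ => ⟨c • f, hf.const_smul c, fun j z hz => by
    rw [iteratedDeriv_const_smul_field, ← h j z hz]
    rfl⟩

/-- The space `A^∞(G)` as a type, with the induced vector space structure and topology. -/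
def A (G : Set ℂ) (hG : IsOpen G) : Type := Ainf G hG

noncomputable instance acg (G : Set ℂ) (hG : IsOpen G) : AddCommGroup (A G hG) :=
  Submodule.addCommGroup (Ainf G hG)

noncomputable instance mdl (G : Set ℂ) (hG : IsOpen G) : Module ℂ (A G hG) :=
  Submodule.module (Ainf G hG)

noncomputable instance top (G : Set ℂ) (hG : IsOpen G) : TopologicalSpace (A G hG) :=
  instTopologicalSpaceSubtype

/-- The function `F 0` on `G` has no holomorphic extension to a domain strictly containing `G`. -/
def NonExt (G : Set ℂ) (F : ℕ → C(closure G, ℂ)) : Prop :=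
  ¬ ∃ (Ω : Set ℂ) (g : ℂ → ℂ), IsOpen Ω ∧ IsConnected Ω ∧ G ⊂ Ω ∧ DifferentiableOn ℂ g Ω ∧
    ∀ z : closure G, z.1 ∈ G → g z = F 0 z

end Pool.Agent.H33.AinfD
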