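import Mathlib

namespace Pool.Agent.H33.Arc

def arc (p q : ℝ) : Set ℝ := {x | ∃ k : ℤ, p ≤ x + k ∧ x + k ≤ q}

lemma arc_shift (p q : ℝ) (k : ℤ) : arc (p - k) (q - k) = arc p q := by
  ext x
  constructor
  · rintro ⟨j, h1, h2⟩
    exact ⟨j + k, by push_cast; linarith, by push_cast; linarith⟩
  · rintro ⟨j, h1, h2⟩
    exact ⟨j - k, by push_cast; linarith, by push_cast; linarith⟩

lemma int_eq {j k : ℤ} (h1 : (j : ℝ) - k < 1) (h2 : (k : ℝ) - j < 1) : j = k := by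
  have a : j - k < 1 := by exact_mod_cast h1
  have b : k - j < 1 := by exact_mod_cast h2
  omega

lemma arc_inter {p q p' q' x : ℝ} (h1 : p ≤ x) (h2 : x ≤ q) (h3 : p' ≤ x) (h4 : x ≤ q')
    (l1 : q - p < 1 / 2) (l2 : q' - p' < 1 / 2) :
    arc p q ∩ arc p' q' = arc (max p p') (min q q') := by
  ext y
  constructor
  · rintro ⟨⟨j, a1, a2⟩, ⟨k, b1, b2⟩⟩
    have : j = k := int_eq (by linarith) (by linarith)
    subst this
    exact ⟨j, max_le a1 b1, le_min a2 b2⟩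
  · rintro ⟨j, a1, a2⟩
    exact ⟨⟨j, (le_max_left _ _).trans a1, a2.trans (min_le_left _ _)⟩,
      ⟨j, (le_max_right _ _).trans a1, a2.trans (min_le_right _ _)⟩⟩

def Good (L : ℝ) (A : Set ℝ) : Prop := A = ∅ ∨ ∃ p q, q - p ≤ L ∧ A = arc p q

lemma Good.lift {L : ℝ} {A : Set ℝ} (h : Good L A) {x : ℝ} (hx : x ∈ A) :
    ∃ p q, q - p ≤ L ∧ p ≤ x ∧ x ≤ q ∧ A = arc p q := by
  rcases h with rfl | ⟨p, q, h, rfl⟩
  · exact absurd hx (Set.notMem_empty _)
  · obtain ⟨k, h1, h2⟩ := hx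
    exact ⟨p - k, q - k, by linarith, by linarith, by linarith, (arc_shift _ _ _).symm⟩

lemma Good.inter {L : ℝ} (hL : L < 1 / 2) {A B : Set ℝ} (hA : Good L A) (hB : Good L B) :
    Good L (A ∩ B) := by
  rcases (A ∩ B).eq_empty_or_nonempty with h | ⟨x, hx, hy⟩
  · exact Or.inl h
  · obtain ⟨p, q, l1, a1, a2, rfl⟩ := hA.lift hx
    obtain ⟨p', q', l2, b1, b2, rfl⟩ := hB.lift hy
    refine Or.inr ⟨_, _, ?_, arc_inter a1 a2 b1 b2 (by linarith) (by linarith)⟩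
    linarith [le_max_left p p', min_le_left q q']

lemma caseA {L : ℝ} (hL : L < 1 / 2) {A B C : Set ℝ} (hA : Good L A) (hB : Good L B) (hC : Good L C)
    (h : (A ∩ B ∩ C).Nonempty) : A ∩ B ⊆ C ∨ B ∩ C ⊆ A ∨ C ∩ A ⊆ B := by
  obtain ⟨x, ⟨hx, hy⟩, hz⟩ := h
  obtain ⟨p, q, l1, a1, a2, rfl⟩ := hA.lift hx
  obtain ⟨p', q', l2, b1, b2, rfl⟩ := hB.lift hy
  obtain ⟨p'', q'', l3, c1, c2, rfl⟩ := hC.lift hz
  rw [arc_inter a1 a2 b1 b2 (by linarith) (by linarith),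
    arc_inter b1 b2 c1 c2 (by linarith) (by linarith),
    arc_inter c1 c2 a1 a2 (by linarith) (by linarith)]
  have mono : ∀ {a b c d : ℝ}, c ≤ a → b ≤ d → arc a b ⊆ arc c d :=
    fun h1 h2 y ⟨k, k1, k2⟩ => ⟨k, h1.trans k1, k2.trans h2⟩
  by_cases h1 : p'' ≤ max p p' ∧ min q q' ≤ q''
  · exact Or.inl (mono h1.1 h1.2)
  by_cases h2 : p ≤ max p' p'' ∧ min q' q'' ≤ q
  · exact Or.inr (Or.inl (mono h2.1 h2.2))
  refine Or.inr (Or.inr (mono ?_ ?_))
  all_goals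
    simp only [not_and_or, not_le, le_max_iff, min_le_iff, not_or] at h1 h2 ⊢
    by_contra hc
    simp only [not_or, not_le] at hc
    rcases h1 with h1 | h1 <;> rcases h2 with h2 | h2 <;> linarith [h1.1, h1.2, h2.1, h2.2, hc.1, hc.2]

lemma caseB {L : ℝ} (hL : L < 1 / 2) (ψ : ℚ → Set ℝ) (hg : ∀ t, Good L (ψ t))
    (hper : ∀ t, ψ (t + 1) = ψ t)
    (h : ∀ a b c : ℚ, a ≤ b → b ≤ c → c < a + 1 / 2 → (ψ a ∩ ψ b ∩ ψ c).Nonempty) :
    (ψ 0 ∩ ψ (1 / 3) ∩ ψ (2 / 3)).Nonempty := by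
  classical
  have e1 : ∀ A : Set ℝ, ∃ pq : ℝ × ℝ, Good L A → A.Nonempty → pq.2 - pq.1 ≤ L ∧ A = arc pq.1 pq.2 := by
    intro A
    by_cases hA : Good L A ∧ A.Nonempty
    · obtain ⟨x, hx⟩ := hA.2
      obtain ⟨p, q, l, -, -, e⟩ := hA.1.lift hx
      exact ⟨(p, q), fun _ _ => ⟨l, e⟩⟩
    · exact ⟨(0, 0), fun a b => absurd ⟨a, b⟩ hA⟩
  choose pq hpq using e1
  have hne : ∀ t, (ψ t).Nonempty := fun t =>
    (h t t t le_rfl le_rfl (by linarith)).mono Set.inter_subset_right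
  have hl : ∀ t, (pq (ψ t)).2 - (pq (ψ t)).1 ≤ L := fun t => (hpq _ (hg t) (hne t)).1
  have ha : ∀ t x, x ∈ ψ t → ∃ k : ℤ, (pq (ψ t)).1 ≤ x + k ∧ x + k ≤ (pq (ψ t)).2 := fun t x hx => by
    have := (hpq _ (hg t) (hne t)).2
    rw [this] at hx; exact hx
  let ov : Set ℝ → Set ℝ → ℤ → Prop := fun A B k =>
    (pq A).1 ≤ (pq B).2 + k ∧ (pq B).1 + k ≤ (pq A).2
  let κ : Set ℝ → Set ℝ → ℤ := fun A B => if h : ∃ k, ov A B k then h.choose else 0
  have hκ : ∀ s t k, ov (ψ s) (ψ t) k → κ (ψ s) (ψ t) = k := by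
    intro s t k hk
    have hex : ∃ k, ov (ψ s) (ψ t) k := ⟨k, hk⟩
    have h1 := hex.choose_spec
    simp only [κ, dif_pos hex]
    have := hl s
    have := hl t
    exact int_eq (by linarith [h1.1, h1.2, hk.1, hk.2]) (by linarith [h1.1, h1.2, hk.1, hk.2])
  have tri : ∀ a b c : ℚ, a ≤ b → b ≤ c → c < a + 1 / 2 →
      κ (ψ a) (ψ b) + κ (ψ b) (ψ c) = κ (ψ a) (ψ c) ∧ ov (ψ a) (ψ c) (κ (ψ a) (ψ c)) := by
    intro a b c h1 h2 h3
    obtain ⟨x, ⟨hx, hy⟩, hz⟩ := h a b c h1 h2 h3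
    obtain ⟨i, i1, i2⟩ := ha _ _ hx
    obtain ⟨j, j1, j2⟩ := ha _ _ hy
    obtain ⟨k, k1, k2⟩ := ha _ _ hz
    have o3 : ov (ψ a) (ψ c) (i - k) := ⟨by push_cast; linarith, by push_cast; linarith⟩
    rw [hκ a b (i - j) ⟨by push_cast; linarith, by push_cast; linarith⟩,
      hκ b c (j - k) ⟨by push_cast; linarith, by push_cast; linarith⟩, hκ a c _ o3]
    exact ⟨by ring, o3⟩
  obtain ⟨w, hw⟩ := exists_nat_gt (1 / (1 - 2 * L))
  rw [div_lt_iff₀ (by linarith)] at hw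
  set N : ℕ := 3 * (2 * w + 1) with hN
  have N0 : (0 : ℚ) < N := by rw [hN]; positivity
  let A : ℕ → Set ℝ := fun i => ψ (i / N)
  let G : ℕ → ℤ := fun i => ∑ j ∈ Finset.range i, κ (A j) (A (j + 1))
  have triA : ∀ i s t : ℕ, s ≤ t → 2 * t < N → κ (A i) (A (i + s)) + κ (A (i + s)) (A (i + t)) =
      κ (A i) (A (i + t)) ∧ ov (A i) (A (i + t)) (κ (A i) (A (i + t))) := by
    intro i s t h1 h2
    have h1' : (s : ℚ) ≤ t := by exact_mod_cast h1
    have h2' : 2 * (t : ℚ) < N := by exact_mod_cast h2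
    have s0 : (0 : ℚ) ≤ s := by positivity
    refine tri _ _ _ ?_ ?_ ?_
    · push_cast; gcongr; linarith
    · push_cast; gcongr
    · push_cast
      rw [add_div, add_lt_add_iff_left, div_lt_iff₀ N0]; linarith
  have hG : ∀ i s : ℕ, 2 * s < N → G (i + s) = G i + κ (A i) (A (i + s)) := by
    intro i s
    induction s with
    | zero =>
      intro h
      have := (triA i 0 0 le_rfl h).1
      simp only [add_zero] at this ⊢
      omega
    | succ s ih =>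
      intro h
      have := (triA i s (s + 1) (by omega) h).1
      rw [← this, ← add_assoc, ← add_assoc, ← ih (by omega)]
      exact Finset.sum_range_succ _ _
  have Aper : ∀ i, A (i + N) = A i := fun i => by
    simp only [A]
    push_cast
    rw [add_div, div_self N0.ne', hper]
  have Gper : ∀ i, G (i + N) = G i + G N := by
    intro i
    induction i with
    | zero => simp [G]
    | succ i ih =>
      have a1 : G (i + 1 + N) = G (i + N) + κ (A (i + N)) (A (i + N + 1)) := by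
        rw [show i + 1 + N = i + N + 1 by ring]; exact Finset.sum_range_succ _ _
      have a2 : G (i + 1) = G i + κ (A i) (A (i + 1)) := Finset.sum_range_succ _ _
      rw [a1, a2, ih, Aper, show i + N + 1 = i + 1 + N by ring, Aper]; ring
  have Gm : ∀ m : ℕ, G (m * N) = m * G N ∧ A (m * N) = A 0 := by
    intro m
    induction m with
    | zero => simp [G]
    | succ m ih =>
      rw [Nat.succ_mul, Gper, Aper, ih.1, ih.2]; push_cast; exact ⟨by ring, rfl⟩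
  have step : ∀ m : ℕ, |(pq (A (m * (3 * w)))).1 + G (m * (3 * w)) - (pq (A 0)).1| ≤ m * L := by
    intro m
    induction m with
    | zero => simp [G]
    | succ m ih =>
      have h1 := hG (m * (3 * w)) (3 * w) (by omega)
      have h2 := (triA (m * (3 * w)) 0 (3 * w) (by omega) (by omega)).2
      rw [Nat.succ_mul, h1]
      have l1 : (pq (A (m * (3 * w)))).2 - (pq (A (m * (3 * w)))).1 ≤ L := hl _
      have l2 : (pq (A (m * (3 * w) + 3 * w))).2 - (pq (A (m * (3 * w) + 3 * w))).1 ≤ L := hl _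
      rw [abs_le] at ih ⊢
      push_cast
      constructor <;> linarith [h2.1, h2.2, ih.1, ih.2]
  have G0 : G N = 0 := by
    have h1 := step (2 * w + 1)
    rw [show (2 * w + 1) * (3 * w) = w * N by rw [hN]; ring, (Gm w).1, (Gm w).2] at h1
    push_cast at h1
    rw [add_sub_cancel_left, abs_mul, Nat.abs_cast] at h1
    by_contra hne
    have h2 : (1 : ℝ) ≤ |(G N : ℝ)| := by exact_mod_cast Int.one_le_abs hne
    have : (0 : ℝ) ≤ w := by positivity
    nlinarith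
  have g1 := hG 0 (2 * w + 1) (by omega)
  have g2 := hG (2 * w + 1) (2 * w + 1) (by omega)
  have g3 := hG (2 * w + 1 + (2 * w + 1)) (2 * w + 1) (by omega)
  have o1 := (triA 0 0 (2 * w + 1) (by omega) (by omega)).2
  have o2 := (triA (2 * w + 1) 0 (2 * w + 1) (by omega) (by omega)).2
  have o3 := (triA (2 * w + 1 + (2 * w + 1)) 0 (2 * w + 1) (by omega) (by omega)).2
  have eN : 2 * w + 1 + (2 * w + 1) + (2 * w + 1) = 0 + N := by omega
  rw [eN, Aper] at g3 o3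
  rw [zero_add] at g1 g3 o1
  have w0 : (2 * (w : ℚ) + 1) ≠ 0 := by positivity
  have A0 : A 0 = ψ 0 := by simp [A]
  have A1 : A (2 * w + 1) = ψ (1 / 3) := by
    simp only [A, hN]; congr 1; push_cast; field_simp
  have A2 : A (2 * w + 1 + (2 * w + 1)) = ψ (2 / 3) := by
    simp only [A, hN]; congr 1; push_cast; field_simp; ring
  have z0 : G 0 = 0 := rfl
  rw [A0, A1] at g1 o1
  rw [A1, A2] at g2 o2
  rw [A0, A2] at g3 o3
  set k1 := κ (ψ 0) (ψ (1 / 3))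
  set k2 := κ (ψ (1 / 3)) (ψ (2 / 3))
  set k3 := κ (ψ (2 / 3)) (ψ 0)
  have ks : (k1 : ℝ) + k2 + k3 = 0 := by
    have : k1 + k2 + k3 = 0 := by omega
    exact_mod_cast this
  have le : ∀ t, (pq (ψ t)).1 ≤ (pq (ψ t)).2 := fun t => by
    obtain ⟨x, hx⟩ := hne t
    obtain ⟨k, a, b⟩ := ha t x hx
    exact a.trans b
  have back : ∀ t x, (∃ k : ℤ, (pq (ψ t)).1 ≤ x + k ∧ x + k ≤ (pq (ψ t)).2) → x ∈ ψ t :=
    fun t x hx => by
      have := (hpq _ (hg t) (hne t)).2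
      rw [this]; exact hx
  have l0 := le 0
  have l1 := le (1 / 3)
  have l2 := le (2 / 3)
  set x := max (max (pq (ψ 0)).1 ((pq (ψ (1 / 3))).1 + k1)) ((pq (ψ (2 / 3))).1 + k1 + k2) with hx
  have x0 : (pq (ψ 0)).1 ≤ x := (le_max_left _ _).trans (le_max_left _ _)
  have x1 : (pq (ψ (1 / 3))).1 + k1 ≤ x := (le_max_right _ _).trans (le_max_left _ _)
  have x2 : (pq (ψ (2 / 3))).1 + k1 + k2 ≤ x := le_max_right _ _
  have y0 : x ≤ (pq (ψ 0)).2 := max_le (max_le l0 o1.2) (by linarith [o3.1])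
  have y1 : x ≤ (pq (ψ (1 / 3))).2 + k1 := max_le (max_le o1.1 (by linarith)) (by linarith [o2.2])
  have y2 : x ≤ (pq (ψ (2 / 3))).2 + k1 + k2 :=
    max_le (max_le (by linarith [o3.2]) (by linarith [o2.1])) (by linarith)
  exact ⟨x, ⟨back _ _ ⟨0, by simpa using x0, by simpa using y0⟩,
    back _ _ ⟨-k1, by push_cast; linarith, by push_cast; linarith⟩⟩,
    back _ _ ⟨-k1 - k2, by push_cast; linarith, by push_cast; linarith⟩⟩

end Pool.Agent.H33.Arc
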