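import Mathlib

namespace Pool.Agent.H33.Ban
open Classical Pointwise

variable {G : Type} [Group G]

/-- `K` is a nonempty `(H, ε)`-invariant finite set. -/
def Invar (H : Finset G) (ε : ℝ) (K : Finset G) : Prop :=
  K.Nonempty ∧ ∀ h ∈ H, ((symmDiff (K.image fun k => h * k) K).card : ℝ) < ε * K.card

def Amenable (G : Type) [Group G] : Prop :=
  ∀ (H : Finset G) (ε : ℝ), 0 < ε → ∃ K, Invar H ε K

/-- Upper Banach density. -/
noncomputable def dens (A : Set G) : ℝ :=
  sSup {α | ∀ (H : Finset G) (ε : ℝ), 0 < ε →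
    ∃ K, Invar H ε K ∧ α * K.card ≤ (K.filter fun k => k ∈ A).card}

def Thick (A : Set G) : Prop := ∀ H : Finset G, ∃ x, ∀ h ∈ H, h * x ∈ A

/-- Piecewise `k`-syndetic. -/
def PwSyndetic (k : ℕ) (A : Set G) : Prop :=
  ∃ F : Finset G, F.card ≤ k ∧ Thick ((F : Set G) * A)

end Pool.Agent.H33.Ban
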