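import Mathlib

namespace Pool.Agent.H33.Bc

variable {V : Type} (G : SimpleGraph V)

/-- A broadcast: `f v` is at most the eccentricity of `v`. -/
def IsBroadcast (f : V → ℕ) : Prop := ∀ v, ∃ u, f v ≤ G.dist v u

def Dominating (f : V → ℕ) : Prop := ∀ u, ∃ v, 1 ≤ f v ∧ G.dist u v ≤ f v

def MinDomBroadcast (f : V → ℕ) : Prop :=
  IsBroadcast G f ∧ Dominating G f ∧ ∀ g, IsBroadcast G g → g < f → ¬ Dominating G g

def DomSet (D : Finset V) : Prop := ∀ u, u ∈ D ∨ ∃ v ∈ D, G.Adj u v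

def MinDomSet (D : Finset V) : Prop := DomSet G D ∧ ∀ D', D' ⊂ D → ¬ DomSet G D'

/-- Upper broadcast domination number. -/
noncomputable def Gb [Fintype V] : ℕ := sSup {c | ∃ f, MinDomBroadcast G f ∧ c = ∑ v, f v}

/-- Upper domination number. -/
noncomputable def Gam : ℕ := sSup {c | ∃ D, MinDomSet G D ∧ c = D.card}

end Pool.Agent.H33.Bc
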