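import Mathlib

namespace Pool.Agent.H33.Bowl
open MeasureTheory

/-- Departure times with unlimited buffers; `dep T i j` is `D_{i,j}` (1-based), `T i j` is the
service time of job `i+1` at station `j+1`. -/
noncomputable def dep (T : ℕ → ℕ → ℝ) : ℕ → ℕ → ℝ
  | 0, _ => 0
  | _ + 1, 0 => 0
  | i + 1, j + 1 => max (dep T (i + 1) j) (dep T i (j + 1)) + T i j

/-- Makespan for works `x` and speeds `s`. -/
noncomputable def makespan {n m : ℕ} (x : Fin n × Fin m → ℝ) (s : Fin m → ℝ) : ℝ :=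
  dep (fun i j => if h : i < n ∧ j < m then x (⟨i, h.1⟩, ⟨j, h.2⟩) / s ⟨j, h.2⟩ else 0) n m

/-- Expected makespan for i.i.d. works of law `μ`. -/
noncomputable def F (n m : ℕ) (μ : Measure ℝ) (s : Fin m → ℝ) : ℝ :=
  ∫ x, makespan x s ∂(Measure.pi fun _ : Fin n × Fin m => μ)

def Alloc {m : ℕ} (s : Fin m → ℝ) : Prop := (∀ j, 0 < s j) ∧ ∑ j, s j = 1

def BowlShaped {m : ℕ} (s : Fin m → ℝ) : Prop :=
  (∀ j, s j = s j.rev) ∧ ∀ j k : Fin m, j ≤ k → 2 * k.val < m → s j ≤ s k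

end Pool.Agent.H33.Bowl
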