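import Pool.Agent.H33.BtoDefs

namespace Pool.Agent.H33.Bto

open MeasureTheory AddCircle Filter Topology

variable {V : Type} [NormedAddCommGroup V] [InnerProductSpace ℂ V] [CompleteSpace V]

noncomputable def Fac (p : ℂ × Mat V) (z : ℂ) : Mat V := blaschke p.1 z • p.2 + (1 - p.2)

lemma norm_four (k : ℤ) (t : UnitAddCircle) : ‖fourier k t‖ = 1 := Circle.norm_coe _

lemma den_ne {α z : ℂ} (hα : ‖α‖ < 1) (hz : ‖z‖ ≤ 1) : 1 - (starRingEnd ℂ) α * z ≠ 0 := by
  intro h
  have h1 : (starRingEnd ℂ) α * z = 1 := by linear_combination -h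
  have h2 := congrArg norm h1
  rw [norm_mul, Complex.norm_conj, norm_one] at h2
  nlinarith [norm_nonneg α, norm_nonneg z]

lemma cont_Fac (p : ℂ × Mat V) (hα : ‖p.1‖ < 1) :
    Continuous (fun t : UnitAddCircle => Fac p (fourier 1 t)) := by
  unfold Fac blaschke
  have h : Continuous fun t : UnitAddCircle =>
      (fourier 1 t - p.1) / (1 - (starRingEnd ℂ) p.1 * fourier 1 t) :=
    Continuous.div (by fun_prop) (by fun_prop) fun t => den_ne hα (norm_four 1 t).le
  exact (h.smul continuous_const).add continuous_const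

lemma memLp_cont {G : UnitAddCircle → Mat V} (h : Continuous G) : MemLp G ⊤ haarAddCircle :=
  h.memLp_top_of_hasCompactSupport (HasCompactSupport.of_compactSpace _) _

lemma int_four {G : UnitAddCircle → Mat V} (h : MemLp G ⊤ haarAddCircle) (k : ℤ) :
    Integrable (fun t => fourier k t • G t) haarAddCircle := by
  have h1 := h.integrable le_top
  refine h1.norm.mono' ((fourier k).continuous.aestronglyMeasurable.smul h1.1)
    (Eventually.of_forall fun t => ?_)
  rw [norm_smul, norm_four, one_mul]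

lemma coeff_bdd {G : UnitAddCircle → Mat V} (k : ℤ) :
    ‖fourierCoeff G k‖ ≤ ∫ t, ‖G t‖ ∂haarAddCircle := by
  refine (norm_integral_le_integral_norm _).trans (le_of_eq ?_)
  simp only [norm_smul, norm_four, one_mul]

lemma coeff_mul {G : UnitAddCircle → Mat V} (h : MemLp G ⊤ haarAddCircle) (A : Mat V) (k : ℤ) :
    fourierCoeff (fun t => A * G t) k = A * fourierCoeff G k := by
  unfold fourierCoeff
  rw [← integral_const_mul_of_integrable (int_four h _)]
  simp only [mul_smul_comm]

lemma coeff_sub {G G' : UnitAddCircle → Mat V} (h : MemLp G ⊤ haarAddCircle)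
    (h' : MemLp G' ⊤ haarAddCircle) (k : ℤ) :
    fourierCoeff (fun t => G t - G' t) k = fourierCoeff G k - fourierCoeff G' k := by
  unfold fourierCoeff
  rw [← integral_sub (int_four h _) (int_four h' _)]
  simp only [smul_sub]

lemma coeff_star (G : UnitAddCircle → Mat V) (k : ℤ) :
    fourierCoeff (fun t => star (G t)) k = star (fourierCoeff G (-k)) := by
  unfold fourierCoeff
  have := (starL' ℝ : Mat V ≃L[ℝ] Mat V).integral_comp_comm (μ := haarAddCircle)
    (fun t : UnitAddCircle => fourier (- -k) t • G t)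
  simp only [starL'_apply] at this
  rw [← this]
  congr 1
  ext1 t
  rw [star_smul, neg_neg, fourier_neg]
  rfl

lemma coeff_one (k : ℤ) (hk : k < 0) :
    fourierCoeff (fun _ : UnitAddCircle => (1 : Mat V)) k = 0 := by
  unfold fourierCoeff
  rw [integral_smul_const]
  have : ∫ t : UnitAddCircle, fourier (-k) t ∂haarAddCircle = 0 :=
    integral_eq_zero_of_add_right_eq_neg (μ := haarAddCircle)
      (fourier_add_half_inv_index (by omega) one_pos)
  rw [this, zero_smul]

lemma coeff_rec {G : UnitAddCircle → Mat V} (h : MemLp G ⊤ haarAddCircle) (p : ℂ × Mat V)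
    (hα : ‖p.1‖ < 1) (k : ℤ) :
    fourierCoeff (fun t => Fac p (fourier 1 t) * G t) k -
      (starRingEnd ℂ) p.1 • fourierCoeff (fun t => Fac p (fourier 1 t) * G t) (k - 1) =
    p.2 * (fourierCoeff G (k - 1) - p.1 • fourierCoeff G k) +
      (1 - p.2) * (fourierCoeff G k - (starRingEnd ℂ) p.1 • fourierCoeff G (k - 1)) := by
  have h' : MemLp (fun t => Fac p (fourier 1 t) * G t) ⊤ haarAddCircle :=
    h.mul' (memLp_cont (cont_Fac p hα))
  unfold fourierCoeff
  have i1 : Integrable (fun t => fourier (-(k - 1)) t • G t - p.1 • fourier (-k) t • G t)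
      haarAddCircle := (int_four h _).sub ((int_four h _).smul p.1)
  have i2 : Integrable (fun t => fourier (-k) t • G t -
      (starRingEnd ℂ) p.1 • fourier (-(k - 1)) t • G t) haarAddCircle :=
    (int_four h _).sub ((int_four h _).smul ((starRingEnd ℂ) p.1))
  have sm : ∀ {G : UnitAddCircle → Mat V} (_ : MemLp G ⊤ haarAddCircle) (k : ℤ) (c : ℂ),
      Integrable (fun t => c • fourier k t • G t) haarAddCircle :=
    fun h k c => (int_four h k).smul c
  beta_reduce
  rw [← integral_smul, ← integral_smul, ← integral_smul,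
    ← integral_sub (int_four h' _) (sm h' _ _),
    ← integral_sub (int_four h _) (sm h _ _),
    ← integral_sub (int_four h _) (sm h _ _),
    ← integral_const_mul_of_integrable i1, ← integral_const_mul_of_integrable i2,
    ← integral_add (i1.const_mul _) (i2.const_mul _)]
  congr 1
  ext1 t
  have e : fourier (-(k - 1)) t = fourier (-k) t * fourier 1 t := by
    rw [← fourier_add]; congr 2; ring
  have hd := den_ne hα (norm_four 1 t).le
  have hb : (1 - (starRingEnd ℂ) p.1 * fourier 1 t) * blaschke p.1 (fourier 1 t) =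
      fourier 1 t - p.1 := by
    unfold blaschke
    field_simp
  rw [e]
  simp only [Fac, add_mul, smul_mul_assoc, mul_sub, mul_smul_comm]
  generalize p.2 * G t = u
  generalize (1 - p.2) * G t = v
  generalize blaschke p.1 (fourier 1 t) = b at hb
  generalize fourier (-k) t = φ
  generalize fourier 1 t = z at hb
  match_scalars
  · linear_combination φ * hb
  · ring

lemma bdd_zero {V : Type*} [NormedAddCommGroup V] [NormedSpace ℂ V] (w : ℕ → V) (a : ℂ)
    (ha : ‖a‖ < 1) (C : ℝ) (hC : ∀ m, ‖w m‖ ≤ C) (h : ∀ m, w m = a • w (m + 1)) (m : ℕ) :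
    w m = 0 := by
  have h1 : ∀ k m, ‖w m‖ ≤ ‖a‖ ^ k * C := by
    intro k
    induction k with
    | zero => simpa using hC
    | succ k ih =>
      intro m
      rw [h m, norm_smul, pow_succ', mul_assoc]
      exact mul_le_mul_of_nonneg_left (ih _) (norm_nonneg _)
  have h2 : Tendsto (fun k => ‖a‖ ^ k * C) atTop (𝓝 (0 * C)) :=
    (tendsto_pow_atTop_nhds_zero_of_lt_one (norm_nonneg _) ha).mul_const C
  rw [zero_mul] at h2
  exact norm_le_zero_iff.mp (ge_of_tendsto' h2 fun k => h1 k m)

lemma step {G : UnitAddCircle → Mat V} (h : MemLp G ⊤ haarAddCircle) (p : ℂ × Mat V)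
    (hα : ‖p.1‖ < 1) (u u' : ℕ → Mat V) (hu : ∀ m : ℕ, u m = fourierCoeff G (-(m : ℤ) - 1))
    (C : ℝ) (hC : ∀ m, ‖u' m‖ ≤ C)
    (hrec : ∀ m, u' m - (starRingEnd ℂ) p.1 • u' (m + 1) = p.2 * (u (m + 1) - p.1 • u m) +
      (1 - p.2) * (u m - (starRingEnd ℂ) p.1 • u (m + 1))) (m : ℕ) :
    u' m = fourierCoeff (fun t => Fac p (fourier 1 t) * G t) (-(m : ℤ) - 1) := by
  rw [← sub_eq_zero]
  refine bdd_zero (fun m : ℕ => u' m - fourierCoeff (fun t => Fac p (fourier 1 t) * G t)
    (-(m : ℤ) - 1)) ((starRingEnd ℂ) p.1) (by simpa using hα)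
    (C + ∫ t, ‖Fac p (fourier 1 t) * G t‖ ∂haarAddCircle)
    (fun m => (norm_sub_le _ _).trans (add_le_add (hC m) (coeff_bdd _))) (fun m => ?_) m
  have h1 := coeff_rec h p hα (-(m : ℤ) - 1)
  have e : -((m + 1 : ℕ) : ℤ) - 1 = -(m : ℤ) - 1 - 1 := by push_cast; ring
  rw [← e, ← hu, ← hu, ← hrec] at h1
  rw [smul_sub]
  rw [sub_eq_sub_iff_sub_eq_sub]
  exact h1.symm

lemma cont_prod (l : List (ℂ × Mat V)) (hl : ∀ p ∈ l, ‖p.1‖ < 1) :
    Continuous (fun t : UnitAddCircle => (l.map fun p => Fac p (fourier 1 t)).prod) := by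
  induction l with
  | nil => simpa using continuous_const
  | cons p l ih =>
    simp only [List.map_cons, List.prod_cons]
    exact (cont_Fac p (hl p (by simp))).mul (ih fun q hq => hl q (by simp [hq]))

lemma prod_neg (l : List (ℂ × Mat V)) (hl : ∀ p ∈ l, ‖p.1‖ < 1) (m : ℕ) :
    fourierCoeff (fun t : UnitAddCircle => (l.map fun p => Fac p (fourier 1 t)).prod)
      (-(m : ℤ) - 1) = 0 := by
  induction l generalizing m with
  | nil => simpa using coeff_one _ (by omega)
  | cons p l ih =>
    simp only [List.map_cons, List.prod_cons]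
    have hl' : ∀ q ∈ l, ‖q.1‖ < 1 := fun q hq => hl q (by simp [hq])
    exact (step (memLp_cont (cont_prod l hl')) p (hl p (by simp)) (fun _ => 0) (fun _ => 0)
      (fun m => (ih hl' m).symm) 0 (by simp) (by simp) m).symm

lemma BP_eq (ν : Mat V) (l : List (ℂ × Mat V)) (z : ℂ) :
    BP ν l z = ν * (l.map fun p => Fac p z).prod := rfl

lemma Fac_unitary (p : ℂ × Mat V) (hα : ‖p.1‖ < 1) (hP : IsStarProjection p.2) (z : ℂ)
    (hz : ‖z‖ = 1) : Fac p z ∈ unitary (Mat V) := by
  have hd := den_ne hα hz.le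
  have hb : (starRingEnd ℂ) (blaschke p.1 z) * blaschke p.1 z = 1 := by
    have hz' : z * (starRingEnd ℂ) z = 1 := by
      rw [Complex.mul_conj, Complex.normSq_eq_norm_sq, hz]; simp
    have hd' : 1 - p.1 * (starRingEnd ℂ) z ≠ 0 := by
      have := (map_ne_zero (starRingEnd ℂ)).mpr hd
      simpa using this
    unfold blaschke
    simp only [map_div₀, map_sub, map_one, map_mul, Complex.conj_conj]
    rw [div_mul_div_comm, div_eq_one_iff_eq (mul_ne_zero hd' hd)]
    linear_combination (1 - p.1 * (starRingEnd ℂ) p.1) * hz'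
  have hs : star (Fac p z) = (starRingEnd ℂ) (blaschke p.1 z) • p.2 + (1 - p.2) := by
    simp only [Fac, star_add, star_smul, star_sub, star_one, hP.isSelfAdjoint.star_eq]
    rfl
  have hi : p.2 * p.2 = p.2 := hP.isIdempotentElem
  constructor
  · rw [hs]
    simp only [Fac, add_mul, mul_add, smul_mul_assoc, mul_smul_comm, mul_sub, sub_mul, mul_one,
      one_mul, hi, sub_self, add_zero, smul_smul]
    rw [mul_comm, hb]
    simp
  · rw [hs]
    simp only [Fac, add_mul, mul_add, smul_mul_assoc, mul_smul_comm, mul_sub, sub_mul, mul_one,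
      one_mul, hi, sub_self, add_zero, smul_smul]
    rw [hb]
    simp

lemma BP_norm (ν : Mat V) (l : List (ℂ × Mat V)) (h : IsBP ν l) (z : ℂ) (hz : ‖z‖ = 1) :
    ‖BP ν l z‖ ≤ 1 := by
  have hu : BP ν l z ∈ unitary (Mat V) := by
    refine mul_mem h.1 (list_prod_mem fun A hA => ?_)
    obtain ⟨p, hp, rfl⟩ := List.mem_map.mp hA
    exact Fac_unitary p (h.2 p hp).1 (h.2 p hp).2.2 z hz
  have := CStarRing.norm_mem_unitary_mul (1 : Mat V) hu
  rw [mul_one] at this
  rw [this]
  exact ContinuousLinearMap.norm_id_le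

lemma BP_cont (ν : Mat V) (l : List (ℂ × Mat V)) (h : IsBP ν l) :
    Continuous (fun t : UnitAddCircle => BP ν l (fourier 1 t)) :=
  continuous_const.mul (cont_prod l fun p hp => (h.2 p hp).1)

lemma BP_HInf (ν : Mat V) (l : List (ℂ × Mat V)) (h : IsBP ν l) :
    HInf (fun t : UnitAddCircle => BP ν l (fourier 1 t)) := by
  refine ⟨memLp_cont (BP_cont ν l h), fun m hm => ?_⟩
  have hl : ∀ p ∈ l, ‖p.1‖ < 1 := fun p hp => (h.2 p hp).1
  simp only [BP_eq]
  rw [coeff_mul (memLp_cont (cont_prod l hl))]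
  obtain ⟨k, rfl⟩ : ∃ k : ℕ, m = -(k : ℤ) - 1 := ⟨(-m - 1).toNat, by omega⟩
  rw [prod_neg l hl, mul_zero]

lemma det_mul' (A B : Mat V) : (A * B).det = A.det * B.det := by
  simp only [ContinuousLinearMap.det]
  rw [← map_mul]
  rfl

lemma det_Fac [FiniteDimensional ℂ V] (α : ℂ) (v : V) (hv : ‖v‖ = 1) (z : ℂ) :
    (Fac (α, InnerProductSpace.rankOne ℂ v v) z).det = blaschke α z := by
  have : (Fac (α, InnerProductSpace.rankOne ℂ v v) z : V →ₗ[ℂ] V) =
      LinearMap.transvection ((blaschke α z - 1) • (innerSL ℂ v : V →L[ℂ] ℂ).toLinearMap) v := by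
    ext1 x
    simp only [Fac, LinearMap.transvection.apply]
    simp [smul_smul, sub_mul, sub_smul]
    abel
  rw [ContinuousLinearMap.det, this, LinearMap.transvection.det]
  simp [hv]

lemma det_BP [FiniteDimensional ℂ V] (ν : Mat V) (l : List (ℂ × Mat V))
    (hl : ∀ p ∈ l, ∃ v, ‖v‖ = 1 ∧ p.2 = InnerProductSpace.rankOne ℂ v v) (z : ℂ) :
    (BP ν l z).det = ν.det * (l.map fun p => blaschke p.1 z).prod := by
  rw [BP_eq, det_mul']
  congr 1
  induction l with
  | nil => simp [ContinuousLinearMap.det]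
  | cons p l ih =>
    simp only [List.map_cons, List.prod_cons, det_mul']
    rw [ih fun q hq => hl q (by simp [hq])]
    obtain ⟨v, hv, h⟩ := hl p (by simp)
    obtain ⟨α, P⟩ := p
    simp only at h
    rw [h, det_Fac α v hv]

lemma an_bl (α z : ℂ) (hα : ‖α‖ < 1) (hz : ‖z‖ < 1) : AnalyticAt ℂ (blaschke α) z := by
  unfold blaschke
  exact AnalyticAt.div (by fun_prop) (by fun_prop) (den_ne hα hz.le)

open Classical in
lemma ord_bl (α z : ℂ) (hα : ‖α‖ < 1) (hz : ‖z‖ < 1) :
    analyticOrderAt (blaschke α) z = if α = z then 1 else 0 := by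
  have hd := den_ne hα hz.le
  have e : blaschke α = (· - α) * fun w => (1 - (starRingEnd ℂ) α * w)⁻¹ := by
    ext w
    simp [blaschke, div_eq_mul_inv]
  have ha : AnalyticAt ℂ (fun w => (1 - (starRingEnd ℂ) α * w)⁻¹) z :=
    AnalyticAt.inv (by fun_prop) hd
  rw [e, analyticOrderAt_mul (by fun_prop) ha, ha.analyticOrderAt_eq_zero.mpr (inv_ne_zero hd),
    add_zero]
  split_ifs with h
  · rw [← h]; exact analyticOrderAt_id_sub_const_self
  · exact analyticOrderAt_id_sub_const_of_ne (Ne.symm h)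

open Classical in
lemma ord_prod (c : ℂ) (hc : c ≠ 0) (l : List ℂ) (hl : ∀ α ∈ l, ‖α‖ < 1) (z : ℂ) (hz : ‖z‖ < 1) :
    AnalyticAt ℂ (fun w => c * (l.map fun α => blaschke α w).prod) z ∧
    analyticOrderAt (fun w => c * (l.map fun α => blaschke α w).prod) z = l.count z := by
  induction l with
  | nil => exact ⟨by simpa using analyticAt_const, by simp [analyticOrderAt_eq_zero, hc]⟩
  | cons α l ih =>
    obtain ⟨h1, h2⟩ := ih fun q hq => hl q (by simp [hq])
    have e : (fun w => c * ((α :: l).map fun α => blaschke α w).prod) =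
        blaschke α * fun w => c * (l.map fun α => blaschke α w).prod := by
      ext w
      simp only [List.map_cons, List.prod_cons, Pi.mul_apply]
      ring
    have hα := hl α (by simp)
    rw [e]
    refine ⟨(an_bl α z hα hz).mul h1, ?_⟩
    rw [analyticOrderAt_mul (an_bl α z hα hz) h1, h2, ord_bl α z hα hz, List.count_cons]
    by_cases h : α = z <;> simp [h, add_comm]

lemma degDet_BP [FiniteDimensional ℂ V] (ν : Mat V) (l : List (ℂ × Mat V)) (h : IsBP ν l)
    (hl : ∀ p ∈ l, ∃ v, ‖v‖ = 1 ∧ p.2 = InnerProductSpace.rankOne ℂ v v) :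
    degDet (BP ν l) = l.length := by
  classical
  have hν : ν.det ≠ 0 := by
    have h1 := congrArg ContinuousLinearMap.det h.1.1
    rw [det_mul'] at h1
    intro h0
    rw [h0, mul_zero] at h1
    simp [ContinuousLinearMap.det] at h1
  have hα : ∀ α ∈ l.map Prod.fst, ‖α‖ < 1 := by
    intro α hα
    obtain ⟨p, hp, rfl⟩ := List.mem_map.mp hα
    exact (h.2 p hp).1
  have e : ∀ z ∈ Metric.ball (0 : ℂ) 1,
      analyticOrderNatAt (fun w => (BP ν l w).det) z = (l.map Prod.fst).count z := by
    intro z hz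
    have := (ord_prod _ hν _ hα z (by simpa using hz)).2
    simp only [List.map_map] at this
    simp only [det_BP ν l hl, analyticOrderNatAt]
    erw [this]
    simp
  rw [degDet, finsum_mem_congr rfl e,
    finsum_mem_eq_sum_of_inter_support_eq (t := (l.map Prod.fst).toFinset),
    List.sum_toFinset_count_eq_length, List.length_map]
  ext z
  simp only [Set.mem_inter_iff, Function.mem_support, List.coe_toFinset, Set.mem_ofPred_eq,
    ne_eq, List.count_eq_zero, not_not, mem_ball_zero_iff, and_self]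
  exact ⟨fun h => h.2, fun h => ⟨hα z h, h⟩⟩

end Pool.Agent.H33.Bto
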