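import Pool.Agent.H33.Bto1

namespace Pool.Agent.H33.Bto

open MeasureTheory AddCircle Filter Topology Module InnerProductSpace

lemma exists_unitary {H Z : Type*} [AddCommGroup H] [Module ℂ H] [NormedAddCommGroup Z]
    [InnerProductSpace ℂ Z] [FiniteDimensional ℂ Z] (a b : H →ₗ[ℂ] Z)
    (h : ∀ f, ‖a f‖ = ‖b f‖) : ∃ U : Z ≃ₗᵢ[ℂ] Z, ∀ f, U (a f) = b f := by
  have hk : LinearMap.ker a ≤ LinearMap.ker b := by
    intro f hf
    rw [LinearMap.mem_ker] at hf ⊢
    rw [← norm_eq_zero, ← h, hf, norm_zero]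
  let c : LinearMap.range a →ₗ[ℂ] Z :=
    ((LinearMap.ker a).liftQ b hk).comp a.quotKerEquivRange.symm.toLinearMap
  have hc : ∀ f, c ⟨a f, LinearMap.mem_range_self a f⟩ = b f := by
    intro f
    simp only [c, LinearMap.comp_apply, LinearEquiv.coe_coe]
    rw [LinearMap.quotKerEquivRange_symm_apply_image]
    rfl
  let c' : LinearMap.range a →ₗᵢ[ℂ] Z := ⟨c, by
    rintro ⟨_, f, rfl⟩
    rw [hc, ← h]
    rfl⟩
  refine ⟨c'.extend.toLinearIsometryEquiv rfl, fun f => ?_⟩
  have := c'.extend_apply ⟨a f, LinearMap.mem_range_self a f⟩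
  exact this.trans (hc f)

noncomputable abbrev H2 (V : Type) [NormedAddCommGroup V] := lp (fun _ : ℕ => V) 2

variable {V : Type} [NormedAddCommGroup V] [InnerProductSpace ℂ V]

def IsToeplitz (Φ : UnitAddCircle → Mat V) (T : H2 V →L[ℂ] H2 V) : Prop :=
  ∀ (i j : ℕ) (x : V), T (lp.single 2 j x) i = fourierCoeff Φ ((i : ℤ) - j) x

lemma hasSum_sq (f : H2 V) : HasSum (fun i => ‖f i‖ ^ 2) (‖f‖ ^ 2) := by
  have := lp.hasSum_norm (p := 2) (by simp) f
  simpa using this

lemma norm_split (f g : H2 V) (h : ∀ i, g (i + 1) = f i) : ‖g‖ ^ 2 = ‖g 0‖ ^ 2 + ‖f‖ ^ 2 := by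
  have h1 := (hasSum_nat_add_iff' 1).mpr (hasSum_sq g)
  simp only [h, Finset.sum_range_one] at h1
  have := h1.unique (hasSum_sq f)
  linarith

def sh (f : ℕ → V) : ℕ → V
  | 0 => 0
  | i + 1 => f i

noncomputable def Sl : H2 V →ₗ[ℂ] H2 V where
  toFun f := ⟨sh f, memℓp_gen (by
    rw [← summable_nat_add_iff 1]
    simpa [sh] using (hasSum_sq f).summable)⟩
  map_add' f g := by
    ext i
    cases i <;> simp [sh]
  map_smul' c f := by
    ext i
    cases i <;> simp [sh]

lemma norm_Sl (f : H2 V) : ‖Sl f‖ = ‖f‖ := by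
  have := norm_split f (Sl f) (fun i => rfl)
  have h0 : (Sl f : H2 V) 0 = 0 := rfl
  rw [h0, norm_zero] at this
  exact (pow_left_inj₀ (norm_nonneg _) (norm_nonneg _) two_ne_zero).mp (by simpa using this)

noncomputable def S : H2 V →L[ℂ] H2 V := Sl.mkContinuous 1 fun f => by simp [norm_Sl]

lemma S_single (j : ℕ) (x : V) : S (lp.single 2 j x : H2 V) = lp.single 2 (j + 1) x := by
  ext i
  cases i with
  | zero => rw [lp.single_apply_ne _ _ _ (by omega)]; rfl
  | succ i =>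
    change (lp.single 2 j x : H2 V) i = _
    by_cases h : i = j
    · rw [h, lp.single_apply_self, lp.single_apply_self]
    · rw [lp.single_apply_ne _ _ _ h, lp.single_apply_ne _ _ _ (by omega)]

noncomputable def io (m : ℕ) : V →L[ℂ] H2 V := lp.singleContinuousLinearMap ℂ (fun _ => V) 2 m

lemma io_apply (m : ℕ) (x : V) : io m x = (lp.single 2 m x : H2 V) := rfl

lemma S_io (m : ℕ) (x : V) : S (io m x) = io (m + 1) x := S_single m x

lemma norm_io (m : ℕ) : ‖(io m : V →L[ℂ] H2 V)‖ ≤ 1 :=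
  ContinuousLinearMap.opNorm_le_bound _ zero_le_one fun x => by
    rw [io_apply, lp.norm_single (by simp), one_mul]

variable [CompleteSpace V]

lemma pure_S (φ : H2 V →L[ℂ] ℂ) (h : ∀ f, ‖φ (S f)‖ = ‖φ f‖) : φ = 0 := by
  refine lp.ext_continuousLinearMap (by simp) fun j => ?_
  ext x
  change φ (io j x) = 0
  obtain ⟨g, rfl⟩ := (toDual ℂ (H2 V)).surjective φ
  have h1 : ∀ k, ‖toDual ℂ (H2 V) g (io j x)‖ ≤ ‖g (k + j)‖ * ‖x‖ := by
    intro k
    have : ‖toDual ℂ (H2 V) g (io j x)‖ = ‖toDual ℂ (H2 V) g (io (k + j) x)‖ := by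
      induction k with
      | zero => simp
      | succ k ih => rw [ih, ← h, S_io]; congr 4; omega
    rw [this, toDual_apply_apply, io_apply, lp.inner_single_right]
    exact norm_inner_le_norm _ _
  have h2 : Tendsto (fun k => ‖g k‖) atTop (𝓝 0) := by
    have := (hasSum_sq g).summable.tendsto_atTop_zero.sqrt
    simpa using this
  have h3 := (h2.comp (tendsto_add_atTop_nat j)).mul_const ‖x‖
  rw [zero_mul] at h3
  exact norm_le_zero_iff.mp (ge_of_tendsto' h3 h1)

lemma toep_shift {Φ : UnitAddCircle → Mat V} {T : H2 V →L[ℂ] H2 V} (hT : IsToeplitz Φ T)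
    (f : H2 V) (i : ℕ) : T (S f) (i + 1) = T f i := by
  have : (lp.evalCLM ℂ (fun _ : ℕ => V) 2 (i + 1)) ∘L T ∘L S =
      (lp.evalCLM ℂ (fun _ : ℕ => V) 2 i) ∘L T := by
    refine lp.ext_continuousLinearMap (by simp) fun j => ?_
    ext x
    change T (S (lp.single 2 j x)) (i + 1) = T (lp.single 2 j x) i
    rw [S_single, hT, hT]
    congr 2
    push_cast
    ring
  exact DFunLike.congr_fun this f

lemma toep_adj {Φ : UnitAddCircle → Mat V} {T : H2 V →L[ℂ] H2 V} (hT : IsToeplitz Φ T) :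
    IsToeplitz (fun t => star (Φ t)) (star T) := by
  intro i j x
  refine ext_inner_left ℂ fun (y : V) => ?_
  have h1 := lp.inner_single_left (𝕜 := ℂ) (G := fun _ : ℕ => V) i y (star T (lp.single 2 j x))
  have h2 := lp.inner_single_right (𝕜 := ℂ) (G := fun _ : ℕ => V) j x (T (lp.single 2 i y))
  refine h1.symm.trans ?_
  rw [ContinuousLinearMap.star_eq_adjoint, ContinuousLinearMap.adjoint_inner_right]
  refine h2.trans ?_
  rw [hT, coeff_star, ContinuousLinearMap.star_eq_adjoint,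
    ContinuousLinearMap.adjoint_inner_right, neg_sub]

def Rep (E : H2 V →L[ℂ] V) (G : UnitAddCircle → Mat V) : Prop :=
  ∀ m : ℕ, E ∘L io m = fourierCoeff G (-(m : ℤ) - 1)

noncomputable def Nop (T : H2 V →L[ℂ] H2 V) : H2 V →L[ℂ] V :=
  (lp.evalCLM ℂ (fun _ : ℕ => V) 2 0) ∘L T ∘L S

lemma rep_Nop {Φ : UnitAddCircle → Mat V} {T : H2 V →L[ℂ] H2 V} (hT : IsToeplitz Φ T) :
    Rep (Nop T) Φ := by
  intro m
  ext x
  change T (S (lp.single 2 m x)) 0 = _
  rw [S_single, hT]
  congr 2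
  push_cast
  ring

lemma norm_TS {Φ : UnitAddCircle → Mat V} {T : H2 V →L[ℂ] H2 V} (hT : IsToeplitz Φ T)
    (f : H2 V) : ‖T (S f)‖ ^ 2 = ‖Nop T f‖ ^ 2 + ‖T f‖ ^ 2 :=
  norm_split _ _ (toep_shift hT f)

lemma norm_repl {W : Type*} [NormedAddCommGroup W] [InnerProductSpace ℂ W] (v y : W)
    (hv : ‖v‖ = 1) (c : ℂ) :
    ‖y + (c - inner ℂ v y) • v‖ ^ 2 = ‖y‖ ^ 2 - ‖inner ℂ v y‖ ^ 2 + ‖c‖ ^ 2 := by
  rw [@norm_add_sq ℂ, norm_smul, hv, mul_one, inner_smul_right, ← inner_conj_symm y v]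
  generalize inner ℂ v y = e
  simp only [← Complex.normSq_eq_norm_sq, Complex.normSq_apply, RCLike.re_to_complex,
    Complex.mul_re, Complex.sub_re, Complex.sub_im, Complex.conj_re, Complex.conj_im]
  ring

lemma two_by_two (a s e : ℂ) (ρ : ℝ) (h : ‖a‖ ^ 2 + ρ ^ 2 = 1) :
    ‖(starRingEnd ℂ) a * s + ρ * e‖ ^ 2 + ‖ρ * s - a * e‖ ^ 2 = ‖s‖ ^ 2 + ‖e‖ ^ 2 := by
  simp only [← Complex.normSq_eq_norm_sq, Complex.normSq_apply, Complex.mul_re, Complex.mul_im,
    Complex.sub_re, Complex.sub_im, Complex.add_re, Complex.add_im, Complex.conj_re,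
    Complex.conj_im, Complex.ofReal_re, Complex.ofReal_im] at h ⊢
  linear_combination (s.re ^ 2 + s.im ^ 2 + e.re ^ 2 + e.im ^ 2) * h

variable [FiniteDimensional ℂ V]

theorem realize (N : H2 V →L[ℂ] V) (d : ℕ) :
    ∀ (X : Type) [NormedAddCommGroup X] [InnerProductSpace ℂ X] [FiniteDimensional ℂ X]
      (L : H2 V →L[ℂ] X) (E : H2 V →L[ℂ] V) (G : UnitAddCircle → Mat V),
      finrank ℂ X = d → Function.Surjective L → MemLp G ⊤ haarAddCircle → Rep E G →
      (∀ f, ‖L (S f)‖ ^ 2 + ‖E f‖ ^ 2 = ‖L f‖ ^ 2 + ‖N f‖ ^ 2) →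
      ∃ ν l, IsBP ν l ∧ (∀ p ∈ l, ∃ v, ‖v‖ = 1 ∧ p.2 = rankOne ℂ v v) ∧ l.length = d ∧
        Rep N (fun t => BP ν l (fourier 1 t) * G t) := by
  induction d with
  | zero =>
    intro X _ _ _ L E G hd _ hG hE h
    have : Subsingleton X := finrank_zero_iff.mp hd
    obtain ⟨U, hU⟩ := exists_unitary E.toLinearMap N.toLinearMap fun f => by
      have := h f
      rw [Subsingleton.elim (L (S f)) (L f), add_right_inj] at this
      exact (pow_left_inj₀ (norm_nonneg _) (norm_nonneg _) two_ne_zero).mp this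
    refine ⟨(U : V →L[ℂ] V), [], ⟨?_, by simp⟩, by simp, rfl, fun m => ?_⟩
    · exact (Unitary.linearIsometryEquiv.symm U).2
    · simp only [BP, List.map_nil, List.prod_nil, mul_one]
      rw [coeff_mul hG, ← hE]
      ext x
      exact (hU _).symm
  | succ d ih =>
    intro X _ _ _ L E G hd hL hG hE h
    have : Nontrivial X := nontrivial_of_finrank_eq_succ hd
    obtain ⟨U, hU⟩ := exists_unitary (Z := WithLp 2 (X × V))
      ((WithLp.linearEquiv 2 ℂ (X × V)).symm.toLinearMap ∘ₗ (L.toLinearMap.prod N.toLinearMap))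
      ((WithLp.linearEquiv 2 ℂ (X × V)).symm.toLinearMap ∘ₗ
        ((L ∘L S).toLinearMap.prod E.toLinearMap)) fun f => by
      refine (pow_left_inj₀ (norm_nonneg _) (norm_nonneg _) two_ne_zero).mp ?_
      rw [WithLp.prod_norm_sq_eq_of_L2, WithLp.prod_norm_sq_eq_of_L2]
      exact (h f).symm
    let A : X →ₗ[ℂ] X := LinearMap.fst ℂ X V ∘ₗ (WithLp.linearEquiv 2 ℂ (X × V)).toLinearMap ∘ₗ
      U.toLinearEquiv.toLinearMap ∘ₗ (WithLp.linearEquiv 2 ℂ (X × V)).symm.toLinearMap ∘ₗ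
      LinearMap.inl ℂ X V
    obtain ⟨a, ha⟩ := Module.End.exists_eigenvalue A
    obtain ⟨ξ0, hξ0⟩ := ha.exists_hasEigenvector
    obtain ⟨ξ, hξ, hAξ⟩ : ∃ ξ : X, ‖ξ‖ = 1 ∧ A ξ = a • ξ :=
      ⟨((‖ξ0‖⁻¹ : ℝ) : ℂ) • ξ0, by
        simp [norm_smul, norm_ne_zero_iff.mpr hξ0.2], by
        rw [map_smul, hξ0.apply_eq_smul, smul_comm]⟩
    set w : V := (U (WithLp.toLp 2 (ξ, 0))).snd with hw
    have hfst : (U (WithLp.toLp 2 (ξ, (0 : V)))).fst = a • ξ := hAξ
    have hn : ‖a‖ ^ 2 + ‖w‖ ^ 2 = 1 := by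
      have h1 := WithLp.prod_norm_sq_eq_of_L2 (U (WithLp.toLp 2 (ξ, (0 : V))))
      rw [U.norm_map, WithLp.prod_norm_sq_eq_of_L2, hfst, norm_smul] at h1
      simpa [hξ] using h1.symm
    have hs : ∀ f, inner ℂ ξ (L f) =
        (starRingEnd ℂ) a * inner ℂ ξ (L (S f)) + inner ℂ w (E f) := by
      intro f
      have h1 := U.inner_map_map (WithLp.toLp 2 (ξ, (0 : V))) (WithLp.toLp 2 (L f, N f))
      have h2 : U (WithLp.toLp 2 (L f, N f)) = WithLp.toLp 2 (L (S f), E f) := hU f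
      rw [h2, WithLp.prod_inner_apply, WithLp.prod_inner_apply] at h1
      simp only [inner_zero_left, add_zero] at h1
      rw [← h1]
      have h3 : (U (WithLp.toLp 2 (ξ, (0 : V)))).ofLp.1 = a • ξ := hAξ
      rw [h3, inner_smul_left]
      rfl
    have hw0 : w ≠ 0 := by
      intro h0
      rw [h0, norm_zero] at hn
      have ha1 : ‖a‖ = 1 :=
        (pow_left_inj₀ (norm_nonneg _) zero_le_one two_ne_zero).mp (by simpa using hn)
      have := pure_S (innerSL ℂ ξ ∘L L) fun f => by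
        simp only [ContinuousLinearMap.comp_apply, innerSL_apply_apply]
        rw [hs f, h0, inner_zero_left, add_zero, norm_mul, Complex.norm_conj, ha1, one_mul]
      obtain ⟨f, hf⟩ := hL ξ
      have h1 := DFunLike.congr_fun this f
      simp only [ContinuousLinearMap.comp_apply, innerSL_apply_apply, hf,
        ContinuousLinearMap.zero_apply, inner_self_eq_zero] at h1
      rw [h1, norm_zero] at hξ
      exact zero_ne_one hξ
    set ρ : ℝ := ‖w‖ with hρ
    have hρ0 : 0 < ρ := norm_pos_iff.mpr hw0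
    have ha1 : ‖a‖ < 1 := by nlinarith [norm_nonneg a]
    obtain ⟨v, hv, hwv⟩ : ∃ v : V, ‖v‖ = 1 ∧ w = (ρ : ℂ) • v :=
      ⟨((ρ⁻¹ : ℝ) : ℂ) • w, by simp [norm_smul, ← hρ, hρ0.ne', abs_of_pos hρ0], by
        rw [smul_smul, ← Complex.ofReal_mul, mul_inv_cancel₀ hρ0.ne']; simp⟩
    have hs' : ∀ f, inner ℂ ξ (L f) =
        (starRingEnd ℂ) a * inner ℂ ξ (L (S f)) + ρ * inner ℂ v (E f) := by
      intro f
      rw [hs, hwv, inner_smul_left, Complex.conj_ofReal]
    let e' : H2 V →L[ℂ] ℂ := (ρ : ℂ) • (innerSL ℂ ξ ∘L L ∘L S) - a • (innerSL ℂ v ∘L E)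
    have he' : ∀ f, e' f = ρ * inner ℂ ξ (L (S f)) - a * inner ℂ v (E f) := fun f => rfl
    let E' : H2 V →L[ℂ] V := E + (e' - innerSL ℂ v ∘L E).smulRight v
    have hE' : ∀ f, E' f = E f + (e' f - inner ℂ v (E f)) • v := fun f => rfl
    let L0 : H2 V →L[ℂ] X := L - (innerSL ℂ ξ ∘L L).smulRight ξ
    have hL0 : ∀ f, L0 f = L f + (0 - inner ℂ ξ (L f)) • ξ := fun f => by
      simp [L0, sub_eq_add_neg]
    let L' : H2 V →L[ℂ] (ℂ ∙ ξ)ᗮ := L0.codRestrict _ fun f => by
      rw [Submodule.mem_orthogonal_singleton_iff_inner_right, hL0]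
      simp [inner_add_right, inner_smul_right, hξ]
    have hL' : ∀ f, ‖L' f‖ ^ 2 = ‖L f‖ ^ 2 - ‖inner ℂ ξ (L f)‖ ^ 2 := by
      intro f
      have := norm_repl ξ (L f) hξ 0
      rw [← hL0] at this
      change ‖L0 f‖ ^ 2 = _
      simpa using this
    let p : ℂ × Mat V := (a, rankOne ℂ v v)
    have hG' : MemLp (fun t => Fac p (fourier 1 t) * G t) ⊤ haarAddCircle :=
      hG.mul' (memLp_cont (cont_Fac p ha1))
    have : Fact (finrank ℂ X = d + 1) := ⟨hd⟩
    obtain ⟨ν, l, h1, h2, h3, h4⟩ := ih (ℂ ∙ ξ)ᗮ L' E' (fun t => Fac p (fourier 1 t) * G t)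
      (Submodule.finrank_orthogonal_span_singleton (by rintro rfl; simp at hξ))
      (by
        rintro ⟨y, hy⟩
        obtain ⟨f, rfl⟩ := hL y
        refine ⟨f, Subtype.ext ?_⟩
        rw [Submodule.mem_orthogonal_singleton_iff_inner_right] at hy
        change L0 f = L f
        rw [hL0, hy]
        simp)
      hG'
      (step hG p ha1 (fun m => E ∘L io m) (fun m => E' ∘L io m) hE ‖E'‖
        (fun m => (ContinuousLinearMap.opNorm_comp_le _ _).trans
          (mul_le_of_le_one_right (norm_nonneg _) (norm_io m)))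
        (fun m => by
          ext x
          have k1 := hs' (io (m + 1) x)
          have hn' : a * (starRingEnd ℂ) a + (ρ : ℂ) ^ 2 = 1 := by
            rw [Complex.mul_conj, Complex.normSq_eq_norm_sq]
            exact_mod_cast hn
          simp only [p, ContinuousLinearMap.sub_apply, ContinuousLinearMap.smul_apply,
            ContinuousLinearMap.comp_apply, ContinuousLinearMap.add_apply,
            ContinuousLinearMap.mul_apply, ContinuousLinearMap.one_apply, rankOne_apply, hE', he',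
            S_io, inner_sub_right, inner_smul_right] at k1 ⊢
          rw [k1]
          match_scalars
          · ring
          · linear_combination (inner ℂ v (E (io (m + 1) x))) * hn'
          · ring))
      (fun f => by
        have k1 := two_by_two a (inner ℂ ξ (L (S f))) (inner ℂ v (E f)) ρ hn
        rw [← hs', ← he'] at k1
        rw [hL', hL', hE', norm_repl v _ hv]
        linarith [h f])
    refine ⟨ν, l ++ [p], ⟨h1.1, fun q hq => ?_⟩, fun q hq => ?_, by simp [h3], fun m => ?_⟩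
    · rcases List.mem_append.mp hq with hq | hq
      · exact h1.2 q hq
      · rw [List.mem_singleton.mp hq]
        refine ⟨ha1, fun h0 => ?_, isStarProjection_rankOne_self hv⟩
        have := congrArg norm h0
        simp [p, hv] at this
    · rcases List.mem_append.mp hq with hq | hq
      · exact h2 q hq
      · rw [List.mem_singleton.mp hq]
        exact ⟨v, hv, rfl⟩
    · rw [h4 m]
      simp only [BP_eq, List.map_append, List.prod_append, List.map_singleton,
        List.prod_singleton, mul_assoc]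

lemma exists_sqrt {H : Type*} [NormedAddCommGroup H] [InnerProductSpace ℂ H] [CompleteSpace H]
    (C : H →L[ℂ] H) (h : C.IsPositive) : ∃ R : H →L[ℂ] H, R * R = C ∧ IsSelfAdjoint R :=
  ⟨CFC.sqrt C, CFC.sqrt_mul_sqrt_self C ((ContinuousLinearMap.nonneg_iff_isPositive C).mpr h),
    (CFC.sqrt_nonneg C).isSelfAdjoint⟩

theorem main (Φ : UnitAddCircle → Mat V) (hΦ : MemLp Φ ⊤ haarAddCircle)
    (T : H2 V →L[ℂ] H2 V) (hT : IsToeplitz Φ T) (hpos : (star T * T - T * star T).IsPositive)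
    (hfin : FiniteDimensional ℂ (LinearMap.range (star T * T - T * star T).toLinearMap)) :
    ∃ ν l, IsBP ν l ∧ InE Φ (fun t => BP ν l (fourier 1 t)) ∧
      finrank ℂ (LinearMap.range (star T * T - T * star T).toLinearMap) = degDet (BP ν l) := by
  set C := star T * T - T * star T with hC
  obtain ⟨R, hRR, hR⟩ := exists_sqrt C hpos
  have hRn : ∀ f, ‖R f‖ ^ 2 = RCLike.re (inner ℂ f (C f)) := by
    intro f
    rw [← hRR, ContinuousLinearMap.mul_apply, ← ContinuousLinearMap.adjoint_inner_left,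
      ← ContinuousLinearMap.star_eq_adjoint, hR.star_eq, inner_self_eq_norm_sq]
  have hRT : ∀ f, ‖R f‖ ^ 2 = ‖T f‖ ^ 2 - ‖star T f‖ ^ 2 := by
    intro f
    rw [hRn, hC, ContinuousLinearMap.sub_apply, inner_sub_right, map_sub,
      ContinuousLinearMap.mul_apply, ContinuousLinearMap.mul_apply,
      ContinuousLinearMap.star_eq_adjoint, ContinuousLinearMap.adjoint_inner_right,
      ← ContinuousLinearMap.adjoint_inner_left T (ContinuousLinearMap.adjoint T f),
      inner_self_eq_norm_sq, inner_self_eq_norm_sq]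
  have hker : LinearMap.ker R.toLinearMap = LinearMap.ker C.toLinearMap := by
    ext f
    simp only [LinearMap.mem_ker, ContinuousLinearMap.coe_coe]
    constructor
    · intro h
      rw [← hRR, ContinuousLinearMap.mul_apply, h, map_zero]
    · intro h
      have := hRn f
      rw [h, inner_zero_right, map_zero] at this
      simpa using this
  let e : LinearMap.range C.toLinearMap ≃ₗ[ℂ] LinearMap.range R.toLinearMap :=
    C.toLinearMap.quotKerEquivRange.symm.trans
      ((Submodule.quotEquivOfEq _ _ hker.symm).trans R.toLinearMap.quotKerEquivRange)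
  have : FiniteDimensional ℂ (LinearMap.range R.toLinearMap) := e.finiteDimensional
  have hΦ' : MemLp (fun t => star (Φ t)) ⊤ haarAddCircle := hΦ.star
  obtain ⟨ν, l, h1, h2, h3, h4⟩ := realize (Nop T) _ (LinearMap.range R.toLinearMap)
    R.rangeRestrict (Nop (star T)) (fun t => star (Φ t)) rfl
    (by rintro ⟨_, f, rfl⟩; exact ⟨f, rfl⟩) hΦ' (rep_Nop (toep_adj hT)) (fun f => by
      change ‖R (S f)‖ ^ 2 + _ = ‖R f‖ ^ 2 + _
      rw [hRT, hRT, norm_TS hT, norm_TS (toep_adj hT)]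
      ring)
  have hB : MemLp (fun t => BP ν l (fourier 1 t) * star (Φ t)) ⊤ haarAddCircle :=
    hΦ'.mul' (BP_HInf ν l h1).1
  refine ⟨ν, l, h1, ⟨BP_HInf ν l h1,
    Eventually.of_forall fun t => BP_norm ν l h1 _ (norm_four 1 t), hΦ.sub hB, fun m hm => ?_⟩, ?_⟩
  · obtain ⟨k, rfl⟩ : ∃ k : ℕ, m = -(k : ℤ) - 1 := ⟨(-m - 1).toNat, by omega⟩
    rw [coeff_sub hΦ hB, ← h4, ← rep_Nop hT, sub_self]
  · rw [degDet_BP ν l h1 h2, h3, e.finrank_eq]

end Pool.Agent.H33.Bto
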