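import Mathlib

namespace Pool.Agent.H33.Bto

open MeasureTheory AddCircle

/-- Operators on the coefficient space (operator norm, `star` is the adjoint). -/
abbrev Mat (V : Type) [NormedAddCommGroup V] [InnerProductSpace ℂ V] := V →L[ℂ] V

/-- The Hardy space `H²(V)`, as the space `ℓ²(ℕ, V)` of sequences of Fourier coefficients. -/
def Hardy (V : Type) [NormedAddCommGroup V] : Type := lp (fun _ : ℕ => V) 2

noncomputable instance hardyGroup (V : Type) [NormedAddCommGroup V] :
    NormedAddCommGroup (Hardy V) :=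
  lp.normedAddCommGroup (E := fun _ : ℕ => V) (p := 2)

noncomputable instance hardyInner (V : Type) [NormedAddCommGroup V] [InnerProductSpace ℂ V] :
    InnerProductSpace ℂ (Hardy V) :=
  lp.instInnerProductSpace (G := fun _ : ℕ => V)

instance hardyComplete (V : Type) [NormedAddCommGroup V] [CompleteSpace V] :
    CompleteSpace (Hardy V) :=
  lp.completeSpace (E := fun _ : ℕ => V) (p := 2)

variable {V : Type} [NormedAddCommGroup V] [InnerProductSpace ℂ V] [CompleteSpace V]

/-- The `i`-th Fourier coefficient of an element of `H²(V)`. -/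
def coef (f : Hardy V) (i : ℕ) : V := (show lp (fun _ : ℕ => V) 2 from f) i

/-- The element `z^j x` of `H²(V)`. -/
noncomputable def mono (j : ℕ) (x : V) : Hardy V := (lp.single 2 j x : lp (fun _ : ℕ => V) 2)

/-- `T` is the block Toeplitz operator with symbol `Φ`: its block matrix is `(Φ^(i - j))`. -/
def IsToep (Φ : UnitAddCircle → Mat V) (T : Mat (Hardy V)) : Prop :=
  ∀ (i j : ℕ) (x : V), coef (T (mono j x)) i = fourierCoeff Φ ((i : ℤ) - j) x

/-- Essentially bounded with vanishing negative Fourier coefficients. -/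
def HInf (K : UnitAddCircle → Mat V) : Prop :=
  MemLp K ⊤ haarAddCircle ∧ ∀ m : ℤ, m < 0 → fourierCoeff K m = 0

/-- `K ∈ 𝓔(Φ)`. -/
def InE (Φ K : UnitAddCircle → Mat V) : Prop :=
  HInf K ∧ (∀ᵐ t ∂haarAddCircle, ‖K t‖ ≤ 1) ∧ HInf (fun t => Φ t - K t * star (Φ t))

/-- The scalar Blaschke factor. -/
noncomputable def blaschke (α z : ℂ) : ℂ := (z - α) / (1 - (starRingEnd ℂ) α * z)

/-- The product `ν ∏ (b_m(z) P_m + (1 - P_m))` over the list of pairs `(α_m, P_m)`. -/
noncomputable def BP (ν : Mat V) (l : List (ℂ × Mat V)) (z : ℂ) : Mat V :=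
  ν * (l.map fun p => blaschke p.1 z • p.2 + (1 - p.2)).prod

/-- Admissible data of a finite Blaschke–Potapov product. -/
def IsBP (ν : Mat V) (l : List (ℂ × Mat V)) : Prop :=
  ν ∈ unitary (Mat V) ∧ ∀ p ∈ l, ‖p.1‖ < 1 ∧ p.2 ≠ 0 ∧ IsStarProjection p.2

/-- Number of zeros of `det B` in the open unit disc, counted with multiplicity. -/
noncomputable def degDet (B : ℂ → Mat V) : ℕ :=
  ∑ᶠ z ∈ Metric.ball (0 : ℂ) 1, analyticOrderNatAt (fun w => (B w).det) z

/-- The self-commutator `[T*, T] = T*T - TT*`. -/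
noncomputable def selfComm (T : Mat V) : Mat V := star T * T - T * star T

/-- The range of an operator. -/
def ran (C : Mat V) : Submodule ℂ V := LinearMap.range C.toLinearMap

/-- `T` is hyponormal with self-commutator of finite rank `r`. -/
def HypoRank (T : Mat V) (r : ℕ) : Prop :=
  (selfComm T).IsPositive ∧ FiniteDimensional ℂ (ran (selfComm T)) ∧
    Module.finrank ℂ (ran (selfComm T)) = r

end Pool.Agent.H33.Bto
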