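import Mathlib

namespace Pool.Agent.H33.Car

open Finset

variable {n : ℕ}

abbrev W (n : ℕ) := Finset (Fin n) → ℝ

noncomputable def sg (v : Fin n) (t : Finset (Fin n)) : ℝ := (-1) ^ (t.filter (· < v)).card

noncomputable def a (v : Fin n) (x : W n) : W n := fun t =>
  if v ∈ t then 0 else sg v t * x (insert v t)

noncomputable def b (v : Fin n) (x : W n) : W n := fun t =>
  if v ∈ t then sg v t * x (t.erase v) else 0

noncomputable def d (x : W n) : W n := fun t => ∑ v, a v x t

noncomputable def e (x : W n) : W n := fun t => ∑ v, b v x t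

lemma sg_sq (v : Fin n) (t : Finset (Fin n)) : sg v t * sg v t = 1 := by
  rw [sg, ← pow_add, ← two_mul, pow_mul]
  simp

lemma sg_ins (u : Fin n) {v : Fin n} {t : Finset (Fin n)} (h : v ∉ t) :
    sg u (insert v t) = (if v < u then -1 else 1) * sg u t := by
  unfold sg
  rw [filter_insert]
  split_ifs
  · rw [card_insert_of_notMem (by simp [h]), pow_succ]
    ring
  · simp

lemma sg_era (u : Fin n) {v : Fin n} {t : Finset (Fin n)} (h : v ∈ t) :
    sg u (t.erase v) = (if v < u then -1 else 1) * sg u t := by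
  conv_rhs => rw [← insert_erase h, sg_ins u (notMem_erase v t)]
  split_ifs <;> ring

lemma car1 (u v : Fin n) (x : W n) (t : Finset (Fin n)) :
    b u (a v x) t + a v (b u x) t = if u = v then x t else 0 := by
  by_cases h : u = v
  · subst h
    by_cases hu : u ∈ t
    · simp [a, b, hu, sg_era u hu, ← mul_assoc, sg_sq]
    · simp [a, b, hu, sg_ins u hu, ← mul_assoc, sg_sq]
  · by_cases hu : u ∈ t <;> by_cases hv : v ∈ t <;> simp [a, b, hu, hv, h, Ne.symm h]
    rw [sg_era v hu, sg_ins u hv, erase_insert_of_ne (Ne.symm h)]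
    rcases lt_or_gt_of_ne h with h | h <;> simp [h, h.asymm] <;> ring

lemma car2 (u v : Fin n) (x : W n) (t : Finset (Fin n)) :
    a u (a v x) t + a v (a u x) t = 0 := by
  by_cases h : u = v
  · subst h
    simp [a]
  · by_cases hu : u ∈ t <;> by_cases hv : v ∈ t <;> simp [a, hu, hv, h, Ne.symm h]
    rw [sg_ins v hu, sg_ins u hv, insert_comm]
    rcases lt_or_gt_of_ne h with h | h <;> simp [h, h.asymm] <;> ring

lemma tog (v : Fin n) (f : W n) :
    ∑ t, f t = ∑ t, f (if v ∈ t then t.erase v else insert v t) := by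
  have : Function.Involutive fun t : Finset (Fin n) => if v ∈ t then t.erase v else insert v t :=
    fun t => by by_cases h : v ∈ t <;> simp [h]
  exact (Equiv.sum_comp this.toPerm f).symm

lemma adj (x y : W n) : ∑ t, d x t * y t = ∑ t, x t * e y t := by
  simp only [d, e, sum_mul, mul_sum]
  rw [sum_comm, sum_comm (γ := Finset (Fin n))]
  refine sum_congr rfl fun v _ => ?_
  rw [tog v]
  refine sum_congr rfl fun t _ => ?_
  by_cases h : v ∈ t <;> simp [a, b, h, sg_era v]
  ring

lemma cnt (Q : Finset (Fin n) → Prop) [DecidablePred Q] (y : W n) :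
    ∑ v, ∑ t, (if Q t then a v y t else 0) ^ 2 =
      ∑ s, ((s.filter fun v => Q (s.erase v)).card : ℝ) * y s ^ 2 := by
  simp only [card_filter, Nat.cast_sum, sum_mul]
  have : ∀ s : Finset (Fin n), ∑ v ∈ s, ((if Q (s.erase v) then 1 else 0 : ℕ) : ℝ) * y s ^ 2 =
      ∑ v, if v ∈ s then ((if Q (s.erase v) then 1 else 0 : ℕ) : ℝ) * y s ^ 2 else 0 := by
    simp
  simp only [this]
  rw [sum_comm (γ := Finset (Fin n))]
  refine sum_congr rfl fun v _ => ?_
  rw [tog v]
  refine sum_congr rfl fun t _ => ?_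
  by_cases h : v ∈ t <;> simp [a, h]
  split_ifs
  · rw [mul_pow, sq (sg _ _), sg_sq, one_mul]
  · rfl

lemma ea (v : Fin n) (x : W n) (t : Finset (Fin n)) : e (a v x) t = x t - a v (e x) t := by
  have : a v (e x) t = ∑ u, a v (b u x) t := by
    by_cases h : v ∈ t <;> simp [a, e, h, mul_sum]
  rw [this, e, eq_sub_iff_add_eq, ← sum_add_distrib]
  simp [car1]

lemma dd (x : W n) (t : Finset (Fin n)) : d (d x) t = 0 := by
  have : d (d x) t = ∑ u, ∑ v, a u (a v x) t := sum_congr rfl fun u _ => by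
    by_cases h : u ∈ t <;> simp [a, d, h, mul_sum]
  have h2 : d (d x) t + d (d x) t = 0 := by
    rw [this]
    nth_rewrite 2 [sum_comm]
    simp only [← sum_add_distrib, car2, sum_const_zero]
  linarith

lemma de (x : W n) (h : ∀ t, d x t = 0) (t : Finset (Fin n)) : d (e x) t = n * x t := by
  have : ∑ v, e (a v x) t = 0 := by
    simp only [e]
    rw [sum_comm]
    refine sum_eq_zero fun u _ => ?_
    have := h (t.erase u)
    by_cases hu : u ∈ t <;> simp_all [b, d, ← mul_sum]
  simp only [ea, sum_sub_distrib] at this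
  simp only [sum_const, card_univ, Fintype.card_fin, nsmul_eq_mul] at this
  rw [d]
  linarith

lemma cs {c : ℝ} (hc : 0 ≤ c) (f g : W n) {A : ℝ} (h1 : A = ∑ t, f t * g t)
    (h2 : ∑ t, f t ^ 2 ≤ c * A) : A ≤ c * ∑ t, g t ^ 2 := by
  have h3 := sum_mul_sq_le_sq_mul_sq univ f g
  have h4 : 0 ≤ ∑ t, g t ^ 2 := by positivity
  rw [← h1] at h3
  by_contra h
  have : 0 < A := (mul_nonneg hc h4).trans_lt (not_le.1 h)
  nlinarith [mul_le_mul_of_nonneg_right h2 h4]

lemma main (Q R : Finset (Fin n) → Prop) [DecidablePred Q] [DecidablePred R] (k : ℕ)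
    (hQ : ∀ t, Q t → t.card = k + 1) (hR : ∀ s, R s → s.card = k + 2 ∧ ∀ v ∈ s, Q (s.erase v))
    {c : ℝ} (hc : 0 ≤ c) (h : ∀ y : W n, (∀ t, ¬Q t → y t = 0) →
      ∑ t, d y t ^ 2 ≤ c * ∑ t, y t ^ 2) (z : W n) (hz : ∀ t, ¬R t → z t = 0) :
    ∑ t, d z t ^ 2 ≤ c * ∑ t, z t ^ 2 := by
  have H1 : ∀ y : W n, ∑ t, (if Q t then e y t else 0) ^ 2 ≤ c * ∑ t, y t ^ 2 := fun y =>
    cs hc _ y (by rw [adj]; exact sum_congr rfl fun t _ => by split_ifs <;> ring)
      (h _ fun t ht => if_neg ht)
  set x := d z with hx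
  have x1 : ∀ t, ¬Q t → x t = 0 := fun t ht => sum_eq_zero fun v _ => by
    by_cases hv : v ∈ t
    · simp [a, hv]
    · rw [a, if_neg hv, hz _ fun r => ht (by simpa [hv] using (hR _ r).2 v (by simp)), mul_zero]
  have H2 : ∑ v, ∑ t, a v x t ^ 2 = (k + 1) * ∑ t, x t ^ 2 := by
    have := cnt (fun _ => True) x
    simp only [if_true, filter_true] at this
    rw [this, mul_sum]
    refine sum_congr rfl fun t _ => ?_
    by_cases ht : Q t
    · simp [hQ t ht]
    · simp [x1 t ht]
  have w1 : ∑ t, d (e x) t * x t = ∑ t, e x t ^ 2 := by simp only [adj, sq]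
  have H4 : ∑ v, ∑ t, (if Q t then e (a v x) t else 0) ^ 2 =
      ∑ s, (((s.filter fun v => Q (s.erase v)).card : ℝ) - 1) * e x s ^ 2 := by
    have : ∀ v t, (if Q t then e (a v x) t else 0) ^ 2 = x t * x t - 2 * (a v (e x) t * x t) +
        (if Q t then a v (e x) t else 0) ^ 2 := fun v t => by
      split_ifs with ht
      · rw [ea]
        ring
      · simp [x1 t ht]
    have w2 : ∑ v, ∑ t, a v (e x) t * x t = ∑ t, e x t ^ 2 := by
      rw [← w1, sum_comm]
      simp only [d, sum_mul]
    have w3 : ∑ _v : Fin n, ∑ t, x t * x t = ∑ t, e x t ^ 2 := by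
      rw [← w1]
      simp [de x (dd z), mul_sum, mul_assoc]
    simp only [this, sum_add_distrib, sum_sub_distrib, ← mul_sum, cnt, w2, w3, sub_mul, one_mul]
    ring
  have H5 : (k + 1) * ∑ s, (if R s then e x s else 0) ^ 2 ≤
      ∑ s, (((s.filter fun v => Q (s.erase v)).card : ℝ) - 1) * e x s ^ 2 := by
    rw [mul_sum]
    refine sum_le_sum fun s _ => ?_
    split_ifs with hs
    · rw [filter_true_of_mem (hR s hs).2, (hR s hs).1]
      push_cast
      linarith
    rcases (s.filter fun v => Q (s.erase v)).eq_empty_or_nonempty with h0 | h0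
    · have : e x s = 0 := sum_eq_zero fun v _ => by
        by_cases hv : v ∈ s
        · rw [b, if_pos hv, x1 _ (filter_eq_empty_iff.1 h0 hv), mul_zero]
        · simp [b, hv]
      simp [this]
    · have : (1 : ℝ) ≤ (s.filter fun v => Q (s.erase v)).card := by exact_mod_cast h0.card_pos
      rw [zero_pow two_ne_zero, mul_zero]
      exact mul_nonneg (by linarith) (sq_nonneg _)
  have H6 := sum_le_sum fun v (_ : v ∈ univ) => H1 (a v x)
  rw [H4, ← mul_sum, H2, mul_left_comm] at H6
  refine cs hc (fun s => if R s then e x s else 0) z ?_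
    (le_of_mul_le_mul_left (H5.trans H6) (by positivity))
  simp only [sq]
  rw [hx, adj]
  refine sum_congr rfl fun t _ => ?_
  split_ifs with ht
  · ring
  · simp [hz t ht]

end Pool.Agent.H33.Car
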