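import Mathlib

namespace Pool.Agent.H33.Corner

open Matrix ComplexOrder MatrixOrder

variable {n : ℕ}

abbrev Mat (n : ℕ) := Matrix (Fin n) (Fin n) ℂ

noncomputable def ip (A B : Mat n) : ℝ := (A * B).trace.re

theorem ip_comm (A B : Mat n) : ip A B = ip B A := by unfold ip; rw [trace_mul_comm]
theorem ip_add (A B Y : Mat n) : ip (A + B) Y = ip A Y + ip B Y := by simp [ip, add_mul]
theorem ip_sub (A B Y : Mat n) : ip (A - B) Y = ip A Y - ip B Y := by simp [ip, sub_mul]
theorem ip_smul (c : ℝ) (A Y : Mat n) : ip (c • A) Y = c * ip A Y := by simp [ip]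
theorem ip_add' (A B Y : Mat n) : ip Y (A + B) = ip Y A + ip Y B := by simp [ip, mul_add]
theorem ip_sub' (A B Y : Mat n) : ip Y (A - B) = ip Y A - ip Y B := by simp [ip, mul_sub]
theorem ip_smul' (c : ℝ) (A Y : Mat n) : ip Y (c • A) = c * ip Y A := by simp [ip]

theorem pinv (X : Mat n) (hX : X.IsHermitian) :
    ∃ G : Mat n, G.IsHermitian ∧ X * G = G * X ∧ X * G * X = X := by
  have hs : IsSelfAdjoint X := hX
  have hc : ∀ f : ℝ → ℝ, ContinuousOn f (spectrum ℝ X) :=
    fun f => (Matrix.finite_real_spectrum).continuousOn f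
  have e : cfc (fun t : ℝ => t) X = X := cfc_id' ℝ X
  refine ⟨cfc (fun t : ℝ => t⁻¹) X, cfc_predicate (fun t : ℝ => t⁻¹) X, ?_, ?_⟩
  · have := (cfc_commute_cfc (fun t : ℝ => t) (fun t : ℝ => t⁻¹) X).eq
    rwa [e] at this
  · have h1 := cfc_mul (fun t : ℝ => t) (fun t : ℝ => t⁻¹) X (hc _) (hc _)
    have h2 := cfc_mul (fun t : ℝ => t * t⁻¹) (fun t : ℝ => t) X (hc _) (hc _)
    rw [h1, e] at h2
    rw [← h2]
    conv_rhs => rw [← e]
    congr 1
    funext t
    by_cases h : t = 0 <;> simp [h]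

theorem bound (T : Mat n) (hT : T.IsHermitian) :
    ∃ c : ℝ, 0 ≤ c ∧ (c • (1 : Mat n) - T).PosSemidef := by
  obtain ⟨c, hc⟩ := (Matrix.finite_real_spectrum (A := T)).bddAbove
  refine ⟨max c 0, le_max_right _ _, ?_⟩
  have hH : (algebraMap ℝ (Mat n) (max c 0) - T).IsHermitian := by
    rw [Algebra.algebraMap_eq_smul_one]
    exact (isHermitian_one.smul (IsSelfAdjoint.all _)).sub hT
  rw [← Algebra.algebraMap_eq_smul_one, hH.posSemidef_iff_eigenvalues_nonneg]
  intro i
  have h1 := hH.eigenvalues_mem_spectrum_real i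
  rw [← spectrum.singleton_sub_eq] at h1
  obtain ⟨a, ha, b, hb, hab⟩ := h1
  rw [Set.mem_singleton_iff] at ha
  have := hc hb
  simp only at hab
  rw [Pi.zero_apply, ← hab, ha]
  linarith [le_max_left c 0]

theorem bound2 (X T : Mat n) (hX : X.PosSemidef) (hT : T.IsHermitian) :
    ∃ c : ℝ, 0 ≤ c ∧ (c • X - X * T * X).PosSemidef := by
  obtain ⟨B, hB⟩ := CStarAlgebra.nonneg_iff_eq_star_mul_self.1 hX.nonneg
  rw [star_eq_conjTranspose] at hB
  obtain ⟨c, h0, hc⟩ := bound (B * T * Bᴴ) (isHermitian_mul_mul_conjTranspose B hT)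
  refine ⟨c, h0, ?_⟩
  have := hc.conjTranspose_mul_mul_same B
  convert this using 1
  rw [hB]
  simp only [mul_sub, sub_mul, mul_smul_comm, smul_mul_assoc, mul_one, mul_assoc]

structure Hyp (C : Set (Mat n)) (X : Mat n) : Prop where
  mem : X ∈ C
  psd : ∀ A ∈ C, A.PosSemidef
  conv : ∀ A ∈ C, ∀ ε : ℝ, 0 ≤ ε → ε ≤ 1 → (1 - ε) • X + ε • A ∈ C
  her : ∀ A ∈ C, ∀ B : Mat n, B.PosSemidef → (A - B).PosSemidef → B ∈ C

def Nor (C : Set (Mat n)) (X Y : Mat n) : Prop := Y.IsHermitian ∧ ∀ A ∈ C, ip A Y ≤ ip X Y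

theorem Nor.add {C : Set (Mat n)} {X Y Z : Mat n} (h : Nor C X Y) (h' : Nor C X Z) :
    Nor C X (Y + Z) :=
  ⟨h.1.add h'.1, fun A hA => by rw [ip_add', ip_add']; linarith [h.2 A hA, h'.2 A hA]⟩

theorem Hyp.xyx {C : Set (Mat n)} {X Y : Mat n} (h : Hyp C X) (hY : Nor C X Y) :
    (X * Y * X).PosSemidef := by
  have hX := h.psd X h.mem
  have hH : (X * Y * X).IsHermitian := by
    have := isHermitian_mul_mul_conjTranspose X hY.1
    rwa [hX.1.eq] at this
  refine PosSemidef.of_dotProduct_mulVec_nonneg hH fun v => ?_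
  have hT := posSemidef_vecMulVec_self_star v
  obtain ⟨c, h0, hc⟩ := bound2 X _ hX hT.1
  have hP : (X * vecMulVec v (star v) * X).PosSemidef := by
    have := hT.mul_mul_conjTranspose_same X
    rwa [hX.1.eq] at this
  have hpos : 0 < 1 / (c + 1) := by positivity
  have hB : X - (1 / (c + 1)) • (X * vecMulVec v (star v) * X) ∈ C := by
    refine h.her X h.mem _ ?_ (by simpa using hP.smul hpos.le)
    convert (hc.add hX).smul hpos.le using 1
    have : (1 / (c + 1)) * (c + 1) = 1 := by field_simp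
    rw [show c • X - X * vecMulVec v (star v) * X + X =
      (c + 1) • X - X * vecMulVec v (star v) * X by module, smul_sub, smul_smul, this, one_smul]
  have := hY.2 _ hB
  rw [ip_sub, ip_smul] at this
  have h2 : 0 ≤ ip (X * vecMulVec v (star v) * X) Y := by
    by_contra hn
    push Not at hn
    nlinarith [mul_pos hpos (neg_pos.2 hn)]
  have h3 : (X * vecMulVec v (star v) * X * Y).trace = star v ⬝ᵥ (X * Y * X) *ᵥ v := by
    rw [mul_assoc, mul_assoc, trace_mul_comm, mul_assoc, trace_mul_comm, mul_vecMulVec,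
      trace_vecMulVec, dotProduct_comm]
  unfold ip at h2
  rw [h3] at h2
  exact Complex.nonneg_iff.2 ⟨h2, (hH.im_star_dotProduct_mulVec_self v).symm⟩

theorem Hyp.shrink {C : Set (Mat n)} {X Y : Mat n} (h : Hyp C X) (hY : Nor C X Y) (G : Mat n)
    {A : Mat n} (hA : A ∈ C) :
    ip A Y - ip ((1 - X * G) * A * (1 - X * G)ᴴ) Y ≤ ip X Y := by
  have hX := h.psd X h.mem
  have hAp := h.psd A hA
  set T := (1 - X * G) * A * (1 - X * G)ᴴ with hT
  have hTp : T.PosSemidef := hAp.mul_mul_conjTranspose_same _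
  obtain ⟨c, h0, hc⟩ := bound2 X (G * A * Gᴴ) hX (hAp.mul_mul_conjTranspose_same G).1
  have key : ∀ θ : ℝ, 0 < θ → ip A Y - (1 / (1 + θ)) * ip T Y ≤ ip X Y := by
    intro θ hθ
    set ε : ℝ := θ / (θ + c) with hε
    have e0 : 0 < ε := by positivity
    have e1 : ε ≤ 1 := by rw [hε, div_le_one (by positivity)]; linarith
    have hB : (1 - ε) • X + ε • A - (ε / (1 + θ)) • T ∈ C := by
      refine h.her _ (h.conv A hA ε e0.le e1) _ ?_ (by simpa using hTp.smul (by positivity))
      have p1 := (hAp.mul_mul_conjTranspose_same (θ • (1 : Mat n) + X * G)).smul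
        (a := ε / (θ * (1 + θ))) (by positivity)
      have p2 := hc.smul (a := ε / θ) (by positivity)
      convert p1.add p2 using 1
      rw [hT]
      simp only [conjTranspose_sub, conjTranspose_add, conjTranspose_one, conjTranspose_mul,
        conjTranspose_smul, hX.1.eq, star_trivial, mul_sub, sub_mul, mul_add, add_mul, mul_one,
        one_mul, mul_smul_comm, smul_mul_assoc, mul_assoc]
      match_scalars
      all_goals (rw [hε]; field_simp; try ring)
    have := hY.2 _ hB
    rw [ip_sub, ip_add, ip_smul, ip_smul, ip_smul] at this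
    have h2 : ε * (ip A Y - (1 / (1 + θ)) * ip T Y) ≤ ε * ip X Y := by
      have e : ε / (1 + θ) = ε * (1 / (1 + θ)) := by ring
      rw [e] at this
      linarith
    exact le_of_mul_le_mul_left h2 e0
  have hlim : Filter.Tendsto (fun θ : ℝ => ip A Y - (1 / (1 + θ)) * ip T Y)
      (nhdsWithin 0 (Set.Ioi 0)) (nhds (ip A Y - (1 / (1 + 0)) * ip T Y)) := by
    refine Filter.Tendsto.mono_left (ContinuousAt.tendsto ?_) nhdsWithin_le_nhds
    fun_prop (disch := norm_num)
  have := le_of_tendsto hlim (eventually_nhdsWithin_of_forall key)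
  simpa using this

theorem tilde {C : Set (Mat n)} {X G Y : Mat n} (h : Hyp C X) (hG : G.IsHermitian)
    (hc : X * G = G * X) (hx : X * G * X = X) (hY : Nor C X Y)
    (hp : (X * G * Y * (X * G) - X * G).PosSemidef) :
    ∃ R : Mat n, R = (X * G * Y * (X * G) + (1 - X * G))⁻¹ ∧ R.PosDef ∧
      R * (X * G) = X * G * R ∧
      (Y * (X * G * R) * Y).PosSemidef ∧ Nor C X (Y * (X * G * R) * Y) ∧
      ∃ T : Mat n, Y - Y * (X * G * R) * Y = (1 - X * G) * T * (1 - X * G) := by
  have hX := h.psd X h.mem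
  have hP : (X * G)ᴴ = X * G := by rw [conjTranspose_mul, hG.eq, hX.1.eq, hc]
  have hPP : X * G * (X * G) = X * G := by rw [← mul_assoc, hx]
  have hXP : X * (X * G) = X := by rw [hc, ← mul_assoc, hx]
  generalize hPd : X * G = P at *
  have hM : (P * Y * P + (1 - P)).PosDef := by
    have := PosDef.posSemidef_add hp (PosDef.one (n := Fin n) (R := ℂ))
    convert this using 1
    abel
  set M := P * Y * P + (1 - P) with hMd
  have hu := (Matrix.isUnit_iff_isUnit_det M).1 hM.isUnit
  have RM : M⁻¹ * M = 1 := nonsing_inv_mul M hu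
  have MR : M * M⁻¹ = 1 := mul_nonsing_inv M hu
  set R := M⁻¹ with hR
  have hRp : R.PosDef := hM.inv
  have MP : M * P = P * Y * P := by
    rw [hMd, add_mul, sub_mul, mul_assoc _ P P, hPP]; simp
  have PM : P * M = P * Y * P := by
    rw [hMd, mul_add, mul_sub, ← mul_assoc, ← mul_assoc, hPP]; simp
  have RP : R * P = P * R := by
    calc R * P = R * P * (M * R) := by rw [MR, mul_one]
      _ = R * (P * M) * R := by simp only [mul_assoc]
      _ = R * (M * P) * R := by rw [PM, MP]
      _ = (R * M) * P * R := by simp only [mul_assoc]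
      _ = P * R := by rw [RM, one_mul]
  have PRP : P * R * P = P * R := by rw [mul_assoc, RP, ← mul_assoc, hPP]
  have hpsd : (Y * (P * R) * Y).PosSemidef := by
    have := hRp.posSemidef.conjTranspose_mul_mul_same (P * Y)
    rw [conjTranspose_mul, hP, hY.1.eq] at this
    convert this using 1
    rw [← PRP]; simp only [mul_assoc]
  have hK : (1 - P * R * Y)ᴴ = 1 - Y * (P * R) := by
    rw [conjTranspose_sub, conjTranspose_one, conjTranspose_mul, conjTranspose_mul, hY.1.eq,
      hRp.1.eq, hP, RP]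
  have e1 : P * R * Y * P = P := by
    calc P * R * Y * P = R * (P * Y * P) := by rw [← RP]; simp only [mul_assoc]
      _ = P := by rw [← MP, ← mul_assoc, RM, one_mul]
  have e2 : P * R * Y * (P * R) = P * R := by rw [← mul_assoc, e1]
  have hKYK : (1 - Y * (P * R)) * Y * (1 - P * R * Y) = Y - Y * (P * R) * Y := by
    have : Y * (P * R) * Y * (P * R * Y) = Y * (P * R) * Y := by
      calc Y * (P * R) * Y * (P * R * Y) = Y * (P * R * Y * (P * R)) * Y := by
            simp only [mul_assoc]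
        _ = Y * (P * R) * Y := by rw [e2]
    rw [sub_mul, one_mul, mul_sub, mul_one, sub_mul, this, ← mul_assoc Y (P * R) Y]
    simp
  have hXt : ip X (Y * (P * R) * Y) = ip X Y := by
    have e3 : P * Y * (P * R) = P := by
      rw [← mul_assoc, ← MP, mul_assoc, ← RP, ← mul_assoc, MR, one_mul]
    unfold ip
    congr 2
    calc X * (Y * (P * R) * Y) = X * P * (Y * (P * R) * Y) := by rw [hXP]
      _ = X * (P * Y * (P * R)) * Y := by simp only [mul_assoc]
      _ = X * Y := by rw [e3, hXP]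
  refine ⟨R, rfl, hRp, RP, hpsd, ⟨hpsd.1, fun A hA => ?_⟩, (1 - Y * (P * R)) * Y * (1 - P * R * Y), ?_⟩
  · have := h.shrink hY (G * R * Y) hA
    rw [← mul_assoc, ← mul_assoc, hPd, hK] at this
    have e4 : ip ((1 - P * R * Y) * A * (1 - Y * (P * R))) Y = ip A (Y - Y * (P * R) * Y) := by
      unfold ip
      rw [← hKYK, mul_assoc, mul_assoc, trace_mul_comm]
      simp only [mul_assoc]
    rw [e4, ip_sub'] at this
    linarith
  · have k1 : (1 - P * R * Y) * (1 - P) = 1 - P * R * Y := by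
      rw [mul_sub, mul_one, sub_mul, one_mul, e1]; simp
    have k2 : (1 - P) * (1 - Y * (P * R)) = 1 - Y * (P * R) := by
      have := congrArg conjTranspose k1
      rwa [conjTranspose_mul, hK, conjTranspose_sub, conjTranspose_one, hP] at this
    rw [← hKYK]
    conv_lhs => rw [← k1, ← k2]
    simp only [mul_assoc]

theorem core {C : Set (Mat n)} {X W : Mat n} (h : Hyp C X) (hX0 : X ≠ 0)
    (hspan : ∀ H : Mat n, H.IsHermitian → ∃ a b, Nor C X a ∧ Nor C X b ∧ H = a - b)
    (hW : W.IsHermitian) (hz : ∀ Z, Z.PosSemidef → Nor C X Z → ip W Z = 0) :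
    ∀ Y, Nor C X Y → ip W Y = 0 := by
  have hX := h.psd X h.mem
  obtain ⟨G, hG, hc, hx⟩ := pinv X hX.1
  have hP : (X * G)ᴴ = X * G := by rw [conjTranspose_mul, hG.eq, hX.1.eq, hc]
  have hPP : X * G * (X * G) = X * G := by rw [← mul_assoc, hx]
  have pyp : ∀ Y, Nor C X Y → (X * G * Y * (X * G)).PosSemidef := by
    intro Y hY
    have := (h.xyx hY).conjTranspose_mul_mul_same G
    rw [hG.eq] at this
    convert this using 1
    nth_rewrite 1 [hc]
    simp only [mul_assoc]
  obtain ⟨Y1, Y2, n1, n2, e12⟩ := hspan 1 isHermitian_one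
  have plus : ∀ Y, Nor C X Y → (X * G * (Y1 + Y) * (X * G) - X * G).PosSemidef := by
    intro Y hY
    have : Y1 = 1 + Y2 := by rw [e12]; simp
    convert (pyp _ n2).add (pyp _ hY) using 1
    rw [this]
    simp only [mul_add, add_mul, mul_one, hPP]
    abel
  have til := fun Y (hY : Nor C X Y) => tilde h hG hc hx (n1.add hY) (plus Y hY)
  have hP0 : X * G ≠ 0 := fun e => hX0 (by rw [← hx, e, zero_mul])
  generalize X * G = P at *
  have hW2 : ((1 - P) * W * (1 - P)).IsHermitian := by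
    have := isHermitian_mul_mul_conjTranspose (1 - P) hW
    rwa [conjTranspose_sub, conjTranspose_one, hP] at this
  obtain ⟨v, hv⟩ : ∃ v, P *ᵥ v ≠ 0 := by
    by_contra hn
    push Not at hn
    exact hP0 (Matrix.ext_of_mulVec_single fun i => by rw [hn, zero_mulVec])
  have q0 : ∀ u, star u ⬝ᵥ ((1 - P) * W * (1 - P)) *ᵥ u = 0 := by
    intro u
    set E := (1 - P) * vecMulVec u (star v) * P with hE
    have hEs : Eᴴ = P * vecMulVec v (star u) * (1 - P) := by
      rw [hE, conjTranspose_mul, conjTranspose_mul, hP, conjTranspose_sub, conjTranspose_one, hP,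
        conjTranspose_vecMulVec, star_star, mul_assoc]
    have PE : P * E = 0 := by rw [hE, ← mul_assoc, ← mul_assoc, mul_sub, hPP]; simp
    have EP : Eᴴ * P = 0 := by rw [hEs, mul_assoc, sub_mul, hPP]; simp
    obtain ⟨a, b, na, nb, eab⟩ := hspan (E + Eᴴ) (isHermitian_add_transpose_self E)
    obtain ⟨R, r0, rp, rc, p0, m0, -⟩ := til _ (na.add nb)
    obtain ⟨R1, r1, -, -, p1, m1, -⟩ := til _ (na.add na)
    obtain ⟨R2, r2, -, -, p2, m2, -⟩ := til _ (nb.add nb)
    have f1 : Y1 + (a + a) = Y1 + (a + b) + (E + Eᴴ) := by rw [eab]; abel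
    have f2 : Y1 + (b + b) = Y1 + (a + b) - (E + Eᴴ) := by rw [eab]; abel
    have PHP : P * (E + Eᴴ) * P = 0 := by
      rw [mul_add, PE, zero_add, mul_assoc, EP, mul_zero]
    have g1 : R1 = R := by rw [r1, r0, f1, mul_add P _ (E + Eᴴ), add_mul, PHP, add_zero]
    have g2 : R2 = R := by rw [r2, r0, f2, mul_sub P _ (E + Eᴴ), sub_mul, PHP, sub_zero]
    have z0 := hz _ p0 m0
    have z1 := hz _ p1 m1
    have z2 := hz _ p2 m2
    rw [g1, f1] at z1
    rw [g2, f2] at z2
    generalize Y1 + (a + b) = Y at z0 z1 z2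
    have z3 : ip W ((E + Eᴴ) * (P * R) * (E + Eᴴ)) = 0 := by
      have : (Y + (E + Eᴴ)) * (P * R) * (Y + (E + Eᴴ)) + (Y - (E + Eᴴ)) * (P * R) * (Y - (E + Eᴴ))
          = (2 : ℝ) • (Y * (P * R) * Y) + (2 : ℝ) • ((E + Eᴴ) * (P * R) * (E + Eᴴ)) := by
        generalize E + Eᴴ = H
        simp only [mul_add, add_mul, mul_sub, sub_mul, two_smul]
        abel
      have t := congrArg (ip W) this
      rw [ip_add', ip_add', ip_smul', ip_smul', z0, z1, z2] at t
      linarith
    have z4 : (E + Eᴴ) * (P * R) * (E + Eᴴ) = E * R * Eᴴ := by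
      have : E * P = E := by rw [hE, mul_assoc, hPP]
      have t1 : (E + Eᴴ) * (P * R) = E * R := by
        rw [← mul_assoc, add_mul, EP, add_zero, this]
      have t2 : E * R * E = 0 := by
        calc E * R * E = E * P * R * E := by rw [this]
          _ = E * (P * R) * E := by simp only [mul_assoc]
          _ = E * R * (P * E) := by rw [← rc]; simp only [mul_assoc]
          _ = 0 := by rw [PE, mul_zero]
      rw [t1, mul_add, t2, zero_add]
    have z5 : (W * (E * R * Eᴴ)).trace =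
        (star (P *ᵥ v) ⬝ᵥ R *ᵥ (P *ᵥ v)) * (star u ⬝ᵥ ((1 - P) * W * (1 - P)) *ᵥ u) := by
      have : W * (E * R * Eᴴ) = (W * (1 - P) * (vecMulVec u (star v) * (P * R * P) *
          vecMulVec v (star u))) * (1 - P) := by
        rw [hEs, hE]; simp only [mul_assoc]
      rw [this, trace_mul_comm, vecMulVec_mul, vecMulVec_mul_vecMulVec, ← mul_assoc,
        mul_vecMulVec, trace_vecMulVec, dotProduct_smul, smul_eq_mul, dotProduct_comm _ (star u),
        star_mulVec, hP, ← dotProduct_mulVec, ← dotProduct_mulVec, mulVec_mulVec, mulVec_mulVec,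
        ← mul_assoc]
    have hpos := Complex.pos_iff.1 (rp.dotProduct_mulVec_pos hv)
    have him : (star u ⬝ᵥ ((1 - P) * W * (1 - P)) *ᵥ u).im = 0 :=
      hW2.im_star_dotProduct_mulVec_self u
    rw [z4, ip, z5, Complex.mul_re, him, mul_zero, sub_zero] at z3
    exact Complex.ext ((mul_eq_zero.1 z3).resolve_left hpos.1.ne') him
  have W0 : (1 - P) * W * (1 - P) = 0 := by
    have hp := PosSemidef.of_dotProduct_mulVec_nonneg hW2 (fun u => (q0 u).ge)
    refine Matrix.ext_of_mulVec_single fun i => ?_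
    rw [zero_mulVec]
    exact (hp.dotProduct_mulVec_zero_iff _).1 (q0 _)
  have fin : ∀ Y, Nor C X Y → ip W (Y1 + Y) = 0 := by
    intro Y hY
    obtain ⟨R, -, -, -, p0, m0, T, hT⟩ := til Y hY
    have t := congrArg (ip W) hT
    rw [ip_sub', hz _ p0 m0, sub_zero] at t
    rw [t, ip, ← mul_assoc, trace_mul_comm, ← mul_assoc, ← mul_assoc, W0]
    simp
  intro Y hY
  have a1 := fin Y hY
  have a2 := fin 0 ⟨isHermitian_zero, fun A _ => by simp [ip]⟩
  rw [ip_add'] at a1
  rw [add_zero] at a2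
  linarith

end Pool.Agent.H33.Corner
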