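import Mathlib

set_option autoImplicit false

namespace Pool.Agent.H33.Cp

/-- C_p(X): continuous real functions with the topology of pointwise convergence. -/
abbrev Cp (X : Type) [TopologicalSpace X] : Type := {f : X → ℝ // Continuous f}

/-- cozero sets -/
def IsCozero {Z : Type} [TopologicalSpace Z] (U : Set Z) : Prop :=
  ∃ g : Z → ℝ, Continuous g ∧ U = (g ⁻¹' {0})ᶜ

/-- T_0-separating families -/
def T0Separating {Z : Type} (F : Set (Set Z)) : Prop :=
  ∀ z w : Z, z ≠ w → ∃ U ∈ F, (U ∩ {z, w}).ncard = 1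

/-- weakly σ-point-finite families -/
def WeaklySigmaPointFinite {Z : Type} (F : Set (Set Z)) : Prop :=
  ∃ G : ℕ → Set (Set Z), (∀ n, G n ⊆ F) ∧
    ∀ z : Z, F = ⋃ n ∈ {n | {U | U ∈ G n ∧ z ∈ U}.Finite}, G n

end Pool.Agent.H33.Cp
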