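import Mathlib

set_option autoImplicit false

namespace Pool.Agent.H33.Cross

/-- F and G are cross-(t,s) families of subsets of an n-set. -/
def IsCross (n t s : ℕ) (F G : Finset (Finset (Fin n))) : Prop :=
  ∀ A ∈ F, ∀ B ∈ G, t ≤ (A ∩ B).card ∧ (A ∪ B).card ≤ n - s

/-- m(n,t,s): the largest size of a t-intersecting and s-union family. -/
noncomputable def mm (n t s : ℕ) : ℕ :=
  sSup {k | ∃ F : Finset (Finset (Fin n)), IsCross n t s F F ∧ F.card = k}

end Pool.Agent.H33.Cross
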