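import Mathlib

namespace Pool.Agent.H33.Cusp
open Polynomial

abbrev P := ℤ[X][X]
abbrev k := ZMod 2

lemma ind (h : P → Prop) (hadd : ∀ a b, h a → h b → h (a + b)) (hmul : ∀ a b, h a → h b → h (a * b))
    (hC : ∀ c : ℤ, h (C (C c))) (hU : h (C X)) (hY : h X) (f : P) : h f := by
  have h1 : h 1 := by simpa using hC 1
  have hpow : ∀ a, h a → ∀ n : ℕ, h (a ^ n) := by
    intro a ha n
    induction n with
    | zero => simpa using h1
    | succ n ih => rw [pow_succ]; exact hmul _ _ ih ha
  have hC' : ∀ a : ℤ[X], h (C a) := by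
    intro a
    induction a using Polynomial.induction_on' with
    | add p q hp hq => rw [map_add]; exact hadd _ _ hp hq
    | monomial n c =>
      rw [← C_mul_X_pow_eq_monomial, map_mul, map_pow]
      exact hmul _ _ (hC c) (hpow _ hU n)
  induction f using Polynomial.induction_on' with
  | add p q hp hq => exact hadd _ _ hp hq
  | monomial n c =>
    rw [← C_mul_X_pow_eq_monomial]
    exact hmul _ _ (hC' c) (hpow _ hY n)

noncomputable def sg : P →+* P := mapRingHom (expand ℤ 2).toRingHom
noncomputable def ps : P →+* k[X] := eval₂RingHom (mapRingHom (Int.castRingHom k)) (X ^ 3)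

@[simp] lemma sg_CC (c : ℤ) : sg (C (C c)) = C (C c) := by simp [sg]
@[simp] lemma sg_U : sg (C X) = C X ^ 2 := by simp [sg]
@[simp] lemma sg_Y : sg X = X := by simp [sg]
@[simp] lemma ps_C (a : ℤ[X]) : ps (C a) = a.map (Int.castRingHom k) := by simp [ps]
@[simp] lemma ps_Y : ps X = X ^ 3 := by simp [ps]

lemma sg_inj : Function.Injective sg :=
  Polynomial.map_injective _ (expand_injective (by norm_num))

lemma ps_surj : Function.Surjective ps := by
  intro p
  obtain ⟨a, ha⟩ := Polynomial.map_surjective (Int.castRingHom k) (ZMod.ringHom_surjective _) p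
  exact ⟨C a, by simpa using ha⟩

lemma decomp (f : P) : ∃ a b, f = sg a + C X * sg b := by
  induction f using ind with
  | hadd p q hp hq =>
    obtain ⟨a, b, rfl⟩ := hp
    obtain ⟨c, d, rfl⟩ := hq
    exact ⟨a + c, b + d, by simp only [map_add]; ring⟩
  | hmul p q hp hq =>
    obtain ⟨a, b, rfl⟩ := hp
    obtain ⟨c, d, rfl⟩ := hq
    exact ⟨a * c + C X * (b * d), a * d + b * c, by simp only [map_add, map_mul, sg_U]; ring⟩
  | hC c => exact ⟨C (C c), 0, by simp only [sg_CC, map_zero, mul_zero, add_zero]⟩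
  | hU => exact ⟨0, 1, by simp⟩
  | hY => exact ⟨X, 0, by simp⟩

lemma coeff_one (f : P) : (ps (sg f)).coeff 1 = 0 := by
  induction f using ind with
  | hadd p q hp hq => simp only [map_add, coeff_add, hp, hq, add_zero]
  | hmul p q hp hq =>
    simp only [map_mul, coeff_mul, Finset.Nat.antidiagonal_succ, Finset.Nat.antidiagonal_zero]
    simp [hp, hq]
  | hC c => rw [sg_CC, ps_C, Polynomial.map_C, coeff_C]; simp
  | hU => simp [coeff_X_pow]
  | hY => simp [coeff_X_pow]

lemma coeff_zero (f : P) : (ps (sg f)).coeff 0 = (ps f).coeff 0 := by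
  induction f using ind with
  | hadd p q hp hq => simp only [map_add, coeff_add, hp, hq]
  | hmul p q hp hq => simp only [map_mul, mul_coeff_zero, hp, hq]
  | hC c => rw [sg_CC]
  | hU => simp
  | hY => simp

noncomputable def nn : Ideal k[X] := RingHom.ker (constantCoeff : k[X] →+* k)
instance : nn.IsPrime := RingHom.ker_isPrime _
noncomputable def mm : Ideal P := nn.comap ps
instance : mm.IsPrime := Ideal.comap_isPrime _ _

lemma mem_nn (p : k[X]) : p ∈ nn ↔ p.coeff 0 = 0 := by
  rw [nn, RingHom.mem_ker, constantCoeff_apply]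
lemma mem_mm (f : P) : f ∈ mm ↔ (ps f).coeff 0 = 0 := by simp [mm, mem_nn]

lemma mm_comap : mm = mm.comap sg := by
  ext f; simp only [Ideal.mem_comap, mem_mm, coeff_zero]

def L : Type := Localization.AtPrime mm
noncomputable instance : CommRing L := (inferInstance : CommRing (Localization.AtPrime mm))
noncomputable instance : Algebra P L := (inferInstance : Algebra P (Localization.AtPrime mm))
instance : IsLocalization mm.primeCompl L :=
  (inferInstance : IsLocalization mm.primeCompl (Localization.AtPrime mm))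
instance : IsRegularLocalRing L := (inferInstance : IsRegularLocalRing (Localization.AtPrime mm))
instance : IsDomain L := (inferInstance : IsDomain (Localization.AtPrime mm))
abbrev D := Localization.AtPrime nn

noncomputable def io : L →+* L := Localization.localRingHom mm mm sg mm_comap
noncomputable def psi : L →+* D := Localization.localRingHom mm nn ps rfl

lemma io_alg (f : P) : io (algebraMap P L f) = algebraMap P L (sg f) :=
  Localization.localRingHom_to_map mm mm sg mm_comap f
lemma psi_alg (f : P) : psi (algebraMap P L f) = algebraMap k[X] D (ps f) :=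
  Localization.localRingHom_to_map mm nn ps rfl f

lemma algL_inj : Function.Injective (algebraMap P L) :=
  IsLocalization.injective L mm.primeCompl_le_nonZeroDivisors
lemma algD_inj : Function.Injective (algebraMap k[X] D) :=
  IsLocalization.injective D nn.primeCompl_le_nonZeroDivisors

lemma unitL {s : P} (hs : s ∉ mm) : IsUnit (algebraMap P L s) :=
  IsLocalization.map_units L (⟨s, hs⟩ : mm.primeCompl)

lemma rep (z : L) : ∃ a s : P, s ∉ mm ∧ z * algebraMap P L s = algebraMap P L a := by
  obtain ⟨⟨a, s⟩, h⟩ := IsLocalization.surj mm.primeCompl z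
  exact ⟨a, s, s.2, h⟩

instance : CharZero L := charZero_of_injective_algebraMap algL_inj

lemma io_inj : Function.Injective io := by
  rw [injective_iff_map_eq_zero]
  intro z hz
  obtain ⟨a, s, hs, h⟩ := rep z
  have h2 := congrArg io h
  rw [map_mul, hz, zero_mul, io_alg] at h2
  have : sg a = 0 := algL_inj (by rw [← h2, map_zero])
  have ha : a = 0 := sg_inj (by rw [this, map_zero])
  rw [ha, map_zero] at h
  exact ((unitL hs).mul_left_eq_zero).1 h

lemma decompL (z : L) : ∃ a b, z = io a + algebraMap P L (C X) * io b := by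
  obtain ⟨a, s, hs, h⟩ := rep z
  obtain ⟨s0, s1, hs'⟩ := decomp s
  have hN : s0 ^ 2 - C X * s1 ^ 2 ∉ mm := by
    intro hN
    apply hs
    rw [mem_mm] at hN ⊢
    rw [hs']
    simp only [map_sub, map_mul, map_add, ps_C, Polynomial.map_X, coeff_sub, coeff_add,
      mul_coeff_zero, coeff_X_zero, zero_mul, sub_zero, add_zero, coeff_zero, sq] at hN ⊢
    exact mul_self_eq_zero.1 hN
  obtain ⟨w, hw⟩ := (unitL hN).exists_right_inv
  obtain ⟨c0, c1, hc⟩ := decomp (a * (sg s0 - C X * sg s1))
  refine ⟨algebraMap P L c0 * w, algebraMap P L c1 * w, ?_⟩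
  have h1 := congrArg io hw
  rw [map_mul, map_one, io_alg] at h1
  have h2 : sg (s0 ^ 2 - C X * s1 ^ 2) = s * (sg s0 - C X * sg s1) := by
    rw [hs']; simp only [map_sub, map_mul, map_pow, sg_U]; ring
  have h3 := congrArg (algebraMap P L) hc
  rw [h2] at h1
  simp only [map_mul, map_add, io_alg] at h1 h3 ⊢
  linear_combination (-z) * h1 + (io w * algebraMap P L (sg s0 - C X * sg s1)) * h + io w * h3

lemma fin_of {A B : Type} [CommRing A] [CommRing B] (f : A →+* B) (u : B)
    (h : ∀ z, ∃ a b, z = f a + u * f b) : f.Finite := by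
  classical
  let _ : Algebra A B := f.toAlgebra
  refine ⟨⟨{1, u}, ?_⟩⟩
  rw [eq_top_iff]
  intro z _
  obtain ⟨a, b, rfl⟩ := h z
  refine Submodule.add_mem _ ?_ ?_
  · have := Submodule.smul_mem (Submodule.span A (({1, u} : Finset B) : Set B)) a
      (Submodule.subset_span (show (1 : B) ∈ _ by simp))
    have e : a • (1 : B) = f a := mul_one _
    rwa [e] at this
  · have := Submodule.smul_mem (Submodule.span A (({1, u} : Finset B) : Set B)) b
      (Submodule.subset_span (show u ∈ _ by simp))
    have e : b • u = u * f b := mul_comm _ _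
    rwa [e] at this

lemma io_finite : io.Finite := fin_of io _ decompL

lemma psi_surj : Function.Surjective psi := by
  intro z
  obtain ⟨⟨a, s⟩, h⟩ := IsLocalization.surj nn.primeCompl z
  obtain ⟨a', ha⟩ := ps_surj a
  obtain ⟨s', hs⟩ := ps_surj s
  have hs' : s' ∉ mm := by
    intro h'
    rw [mm, Ideal.mem_comap, hs] at h'
    exact s.2 h'
  obtain ⟨w, hw⟩ := (unitL hs').exists_right_inv
  refine ⟨algebraMap P L a' * w, ?_⟩
  have h1 := congrArg psi hw
  rw [map_mul, map_one, psi_alg, hs] at h1
  rw [map_mul, psi_alg, ha]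
  simp only at h
  linear_combination z * h1 - psi w * h

noncomputable def pp : Ideal L := RingHom.ker (psi.comp io)
instance : pp.IsPrime := RingHom.ker_isPrime _

lemma two_D : (2 : D) = 0 := by
  have : (2 : k[X]) = 0 := by exact_mod_cast CharP.cast_eq_zero k[X] 2
  rw [← map_ofNat (algebraMap k[X] D) 2, this, map_zero]

lemma rad_eq : (pp.map io).radical = RingHom.ker psi := by
  apply le_antisymm
  · refine (RingHom.ker_isPrime psi).radical_le_iff.2 ?_
    rw [Ideal.map_le_iff_le_comap]
    intro z hz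
    exact hz
  · intro z hz
    obtain ⟨a, s, hs, h⟩ := rep z
    obtain ⟨w, hw⟩ := (unitL hs).exists_right_inv
    have h1 := congrArg psi h
    rw [map_mul, (RingHom.mem_ker.1 hz), zero_mul, psi_alg] at h1
    have h2 : ps a = 0 := algD_inj (by rw [← h1, map_zero])
    obtain ⟨c, hc⟩ : (X - C (X ^ 3 : ℤ[X])) ∣ a - C (a.eval (X ^ 3)) := X_sub_C_dvd_sub_C_eval
    have h3 : (a.eval (X ^ 3)).map (Int.castRingHom k) = 0 := by
      have := congrArg ps hc
      simp only [map_sub, map_mul, ps_C, ps_Y, h2, Polynomial.map_pow, Polynomial.map_X, sub_self,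
        zero_mul, zero_sub, neg_eq_zero] at this
      exact this
    obtain ⟨r, hr⟩ : C (2 : ℤ) ∣ a.eval (X ^ 3) := by
      rw [C_dvd_iff_dvd_coeff]
      intro i
      have := congrArg (fun p => coeff p i) h3
      simp only [coeff_map, eq_intCast] at this
      exact (ZMod.intCast_zmod_eq_zero_iff_dvd _ 2).1 this
    have t2 : (2 : L) ∈ pp.map io := by
      have : (2 : L) ∈ pp := by
        rw [pp, RingHom.mem_ker, map_ofNat, two_D]
      simpa only [map_ofNat] using Ideal.mem_map_of_mem io this
    have t3 : algebraMap P L (X ^ 2 - C X ^ 6) ∈ pp.map io := by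
      have : algebraMap P L (X ^ 2 - C X ^ 3) ∈ pp := by
        rw [pp, RingHom.mem_ker, RingHom.comp_apply, io_alg, psi_alg]
        simp only [map_sub, map_pow, sg_Y, sg_U, ps_Y, ps_C, Polynomial.map_X]
        ring
      have h5 := Ideal.mem_map_of_mem io this
      rw [io_alg] at h5
      simp only [map_sub, map_pow, sg_Y, sg_U] at h5 ⊢
      convert h5 using 2
      ring
    have t4 : algebraMap P L (X - C X ^ 3) ∈ (pp.map io).radical := by
      refine ⟨2, ?_⟩
      have : algebraMap P L (X - C X ^ 3) ^ 2 = algebraMap P L (X ^ 2 - C X ^ 6) +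
          2 * algebraMap P L (C X ^ 6 - X * C X ^ 3) := by
        simp only [map_sub, map_pow, map_mul]; ring
      rw [this]
      exact Ideal.add_mem _ t3 (Ideal.mul_mem_right _ _ t2)
    have e : a = (X - C X ^ 3) * c + 2 * C r := by
      rw [hr, map_mul, map_pow] at hc
      have : (C (C (2 : ℤ)) : P) = 2 := rfl
      rw [this] at hc
      linear_combination hc
    have e2 : z = (algebraMap P L (X - C X ^ 3) * algebraMap P L c + 2 * algebraMap P L (C r)) * w := by
      have := congrArg (algebraMap P L) e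
      rw [map_add, map_mul, map_mul, map_ofNat] at this
      linear_combination (-z) * hw + w * h + w * this
    rw [e2]
    exact Ideal.mul_mem_right _ _ (Ideal.add_mem _ (Ideal.mul_mem_right _ _ t4)
      (Ideal.mul_mem_right _ _ (Ideal.le_radical t2)))

lemma reg_quot : IsRegularLocalRing (L ⧸ (pp.map io).radical) := by
  rw [rad_eq]
  exact IsRegularLocalRing.of_ringEquiv (RingHom.quotientKerEquivOfSurjective psi_surj).symm

lemma dim_le {A B : Type} [CommRing A] [CommRing B] [IsDomain A] [IsDomain B] [Ring.KrullDimLE 1 B]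
    (f : A →+* B) (hi : Function.Injective f) (hf : f.IsIntegral) : Ring.KrullDimLE 1 A := by
  let _ : Algebra A B := f.toAlgebra
  have : Algebra.IsIntegral A B := ⟨hf⟩
  replace hi : Function.Injective (algebraMap A B) := hi
  rw [Ring.krullDimLE_one_iff_of_noZeroDivisors]
  intro I hI hp
  obtain ⟨J, -, hJ, hJI⟩ := Ideal.exists_ideal_over_prime_of_isIntegral I (⊥ : Ideal B) (by
    rw [Ideal.comap_bot_of_injective _ hi]; exact bot_le)
  have hJ0 : J ≠ ⊥ := by
    rintro rfl
    exact hI (by rw [← hJI, Ideal.comap_bot_of_injective _ hi])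
  have := hJ.isMaximal_of_ne_bot hJ0
  rw [← hJI]
  exact Ideal.isMaximal_comap_of_isIntegral_of_isMaximal J

noncomputable def chi : L ⧸ pp →+* D := RingHom.kerLift (psi.comp io)

lemma chi_mk (z : L) : chi (Ideal.Quotient.mk pp z) = psi (io z) := rfl

lemma repQ (z : L ⧸ pp) : ∃ p s : k[X], p.coeff 1 = 0 ∧ s.coeff 1 = 0 ∧ s.coeff 0 ≠ 0 ∧
    chi z * algebraMap k[X] D s = algebraMap k[X] D p ∧ (p.coeff 0 ≠ 0 → IsUnit z) := by
  obtain ⟨y, rfl⟩ := Ideal.Quotient.mk_surjective z
  obtain ⟨a, s, hs, h⟩ := rep y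
  refine ⟨ps (sg a), ps (sg s), coeff_one _, coeff_one _, ?_, ?_, ?_⟩
  · rw [coeff_zero]; rwa [mem_mm] at hs
  · rw [chi_mk, ← psi_alg, ← psi_alg, ← io_alg, ← io_alg, ← h, map_mul, map_mul]
  · intro ha
    rw [coeff_zero, Ne, ← mem_mm] at ha
    have := unitL ha
    rw [← h] at this
    exact (isUnit_of_mul_isUnit_left this).map _

lemma not_reg : ¬ IsRegularLocalRing (L ⧸ pp) := by
  intro hreg
  have hinj : Function.Injective chi := RingHom.kerLift_injective _
  have hint : chi.IsIntegral := by
    have h1 : (psi.comp io).IsIntegral :=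
      (RingHom.Finite.comp (RingHom.Finite.of_surjective _ psi_surj) io_finite).to_isIntegral
    have h2 : psi.comp io = chi.comp (Ideal.Quotient.mk pp) := rfl
    rw [h2] at h1
    exact RingHom.IsIntegral.tower_top _ _ h1
  have hD : Ring.KrullDimLE 1 D := inferInstance
  have hdim := dim_le chi hinj hint
  have h1 := hreg.spanFinrank_maximalIdeal
  have h2 : ringKrullDim (L ⧸ pp) ≤ 1 := Ring.krullDimLE_iff.1 hdim
  rw [← h1] at h2
  have h3 : (IsLocalRing.maximalIdeal (L ⧸ pp)).spanFinrank ≤ 1 := by exact_mod_cast h2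
  have h4 : (IsLocalRing.maximalIdeal (L ⧸ pp)).IsPrincipal := by
    rcases Nat.le_one_iff_eq_zero_or_eq_one.1 h3 with h | h
    · have := (Submodule.spanFinrank_eq_zero_iff_eq_bot (IsNoetherian.noetherian _)).1 h
      rw [this]; infer_instance
    · exact ((Submodule.spanFinrank_eq_one_iff _).1 h).1
  obtain ⟨g, hg⟩ := h4
  have nu : ∀ f : P, f ∈ mm → Ideal.Quotient.mk pp (algebraMap P L f) ∈ IsLocalRing.maximalIdeal (L ⧸ pp) := by
    intro f hf hu
    have := hu.map chi
    rw [chi_mk, io_alg, psi_alg] at this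
    have h5 := (IsLocalization.AtPrime.isUnit_to_map_iff D nn _).1 this
    exact h5 (by rw [SetLike.mem_coe, mem_nn, coeff_zero]; rwa [mem_mm] at hf)
  have hx := nu (C X) (by simp [mem_mm])
  have hy := nu X (by simp [mem_mm])
  have hgm : g ∈ IsLocalRing.maximalIdeal (L ⧸ pp) := by
    rw [hg]; exact Submodule.mem_span_singleton_self g
  rw [hg, Submodule.mem_span_singleton] at hx hy
  obtain ⟨a, ha⟩ := hx
  obtain ⟨b, hb⟩ := hy
  have ha' := congrArg chi ha
  have hb' := congrArg chi hb
  rw [smul_eq_mul, map_mul, chi_mk, io_alg, psi_alg] at ha' hb'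
  simp only [sg_U, sg_Y, map_pow, ps_C, ps_Y, Polynomial.map_X] at ha' hb'
  obtain ⟨pa, sa, a1, a2, a3, a4, -⟩ := repQ a
  obtain ⟨pb, sb, b1, b2, b3, b4, -⟩ := repQ b
  obtain ⟨pg, sg', g1, g2, g3, g4, g5⟩ := repQ g
  have g0 : pg.coeff 0 = 0 := by
    by_contra h
    exact hgm (g5 h)
  have e1 : X ^ 2 * (sa * sg') = pa * pg := algD_inj (by
    simp only [map_mul, map_pow]
    rw [← ha', ← a4, ← g4]; ring)
  have a0 : pa.coeff 0 ≠ 0 := by
    intro h
    have := congrArg (fun p => coeff p 2) e1
    simp only [coeff_X_pow_mul', coeff_mul pa pg, Finset.Nat.antidiagonal_succ,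
      Finset.Nat.antidiagonal_zero] at this
    simp [h, g0, a1, a3, g3] at this
  have hX : algebraMap k[X] D X ≠ 0 := fun h => X_ne_zero (algD_inj (h.trans (map_zero _).symm))
  have hg0 : chi g ≠ 0 := by
    intro h
    rw [h, mul_zero] at ha'
    exact pow_ne_zero 2 hX ha'.symm
  have e2 : algebraMap k[X] D X * chi a = chi b := by
    apply mul_right_cancel₀ hg0
    rw [mul_assoc, ha', hb']; ring
  have e3 : X * (pa * sb) = pb * sa := algD_inj (by
    simp only [map_mul]
    rw [← a4, ← b4, ← e2]; ring)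
  have := congrArg (fun p => coeff p 1) e3
  simp only [coeff_X_mul, coeff_mul pb sa, Finset.Nat.antidiagonal_succ,
    Finset.Nat.antidiagonal_zero] at this
  simp [b1, a2, a0, b3] at this

end Pool.Agent.H33.Cusp
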