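import Mathlib

set_option autoImplicit false

namespace Pool.Agent.H33.DSep

open Filter Topology

/-- X has a dense subspace that is a countable union of discrete subspaces. -/
def LowerDSeparable (X : Type) [TopologicalSpace X] : Prop :=
  ∃ F : ℕ → Set X, (∀ n, DiscreteTopology (F n)) ∧ Dense (⋃ n, F n)

/-- From every sequence of dense sets one can select discrete subsets with dense union. -/
def UpperDSeparable (X : Type) [TopologicalSpace X] : Prop :=
  ∀ D : ℕ → Set X, (∀ n, Dense (D n)) →
    ∃ F : ℕ → Set X, (∀ n, F n ⊆ D n ∧ DiscreteTopology (F n)) ∧ Dense (⋃ n, F n)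

/-- Every non-closed set contains a sequence converging to a point of its closure outside it. -/
def Sequential (X : Type) [TopologicalSpace X] : Prop :=
  ∀ A : Set X, ¬ IsClosed A →
    ∃ p ∈ closure A \ A, ∃ u : ℕ → X, (∀ n, u n ∈ A) ∧ Tendsto u atTop (𝓝 p)

end Pool.Agent.H33.DSep
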