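import Mathlib

namespace Pool.Agent.H33.Defect

variable {A : Type}

/-- The block of length `n` of `u` starting at position `i`. -/
def blk (u : ℕ → A) (i n : ℕ) : List A := (List.range n).map fun j => u (i + j)

/-- `w` is a factor of `u`. -/
def IsFactor (u : ℕ → A) (w : List A) : Prop := ∃ i, w = blk u i w.length

/-- Every factor occurs at arbitrarily late positions. -/
def Recurrent (u : ℕ → A) : Prop :=
  ∀ w, IsFactor u w → ∀ N, ∃ i, N ≤ i ∧ w = blk u i w.length

def ClosedRev (u : ℕ → A) : Prop := ∀ w, IsFactor u w → IsFactor u w.reverse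

/-- Factor complexity. -/
noncomputable def C (u : ℕ → A) (n : ℕ) : ℕ := {w | IsFactor u w ∧ w.length = n}.ncard

/-- Palindromic complexity. -/
noncomputable def P (u : ℕ → A) (n : ℕ) : ℕ :=
  {w | IsFactor u w ∧ w.length = n ∧ w.reverse = w}.ncard

noncomputable def T (u : ℕ → A) (n : ℕ) : ℤ :=
  (C u (n + 1) : ℤ) - C u n + 2 - P u (n + 1) - P u n

/-- Defect of a finite word. -/
noncomputable def D (w : List A) : ℤ :=
  (w.length : ℤ) + 1 - ({v : List A | v <:+: w ∧ v.reverse = v}.ncard : ℕ)

/-- Defect of an infinite word: the supremum over its initial blocks. -/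
noncomputable def defect (u : ℕ → A) : EReal := ⨆ n, ((D (blk u 0 n) : ℝ) : EReal)

end Pool.Agent.H33.Defect
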