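import Mathlib

set_option autoImplicit false

namespace Pool.Agent.H33.Degen

/-- The subgraph of G induced on S is d-degenerate: every non-empty T ⊆ S has a vertex with at
most d neighbours in T. -/
def Degen {n : ℕ} (G : SimpleGraph (Fin n)) (d : ℕ) (S : Finset (Fin n)) : Prop :=
  ∀ T ⊆ S, T.Nonempty → ∃ v ∈ T, {w | w ∈ T ∧ G.Adj v w}.ncard ≤ d

end Pool.Agent.H33.Degen
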