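import Mathlib

set_option autoImplicit false

namespace Pool.Agent.H33.Diag

open MvPowerSeries

abbrev S2 := MvPowerSeries (Fin 2) ℚ

noncomputable def dg (n : ℕ) : Fin 2 →₀ ℕ := Finsupp.single 0 n + Finsupp.single 1 n

lemma dg0 (n : ℕ) : dg n 0 = n := by simp [dg]
lemma dg1 (n : ℕ) : dg n 1 = n := by simp [dg]

lemma ext2 (a b : Fin 2 →₀ ℕ) (h0 : a 0 = b 0) (h1 : a 1 = b 1) : a = b := by
  ext i; fin_cases i
  · exact h0
  · exact h1

lemma hs : PowerSeries.HasSubst (X 0 * X 1 : S2) :=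
  PowerSeries.HasSubst.of_constantCoeff_zero (by simp)

noncomputable def phi : PowerSeries ℚ →ₐ[ℚ] S2 := PowerSeries.substAlgHom hs

lemma phi_X : phi PowerSeries.X = X 0 * X 1 := PowerSeries.substAlgHom_X hs

lemma xy_pow (d : ℕ) : (X 0 * X 1 : S2) ^ d = monomial (dg d) 1 := by
  rw [mul_pow, X_pow_eq, X_pow_eq, monomial_mul_monomial, one_mul]; rfl

lemma coeff_phi (A : PowerSeries ℚ) (m : Fin 2 →₀ ℕ) :
    coeff m (phi A) = if m 0 = m 1 then PowerSeries.coeff (m 0) A else 0 := by
  classical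
  unfold phi
  rw [PowerSeries.coe_substAlgHom, PowerSeries.coeff_subst hs]
  simp only [xy_pow, coeff_monomial]
  split_ifs with h
  · rw [finsum_eq_single _ (m 0)]
    · rw [if_pos (ext2 _ _ (dg0 _).symm (by rw [dg1, h]))]; simp
    · intro d hd
      rw [if_neg]
      · simp
      · intro h2; apply hd; rw [h2, dg0]
  · refine finsum_eq_zero_of_forall_eq_zero fun d => ?_
    rw [if_neg]
    · simp
    · intro h2; apply h; rw [h2, dg0, dg1]

lemma coeff_dg_phi (A : PowerSeries ℚ) (n : ℕ) :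
    coeff (dg n) (phi A) = PowerSeries.coeff n A := by
  rw [coeff_phi, dg0, dg1, if_pos rfl]

lemma const_phi (A : PowerSeries ℚ) :
    constantCoeff (phi A) = PowerSeries.constantCoeff A := by
  rw [← coeff_zero_eq_constantCoeff_apply, coeff_phi]; simp

/-- series supported on exponents with m j ≤ m i -/
def W (i j : Fin 2) : Subring S2 where
  carrier := {Z | ∀ m : Fin 2 →₀ ℕ, m i < m j → coeff m Z = 0}
  mul_mem' := by
    classical
    intro a b ha hb m hm
    rw [coeff_mul]
    refine Finset.sum_eq_zero fun p hp => ?_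
    have h := Finset.HasAntidiagonal.mem_antidiagonal.1 hp
    have h1 : p.1 i + p.2 i = m i := by rw [← h]; rfl
    have h2 : p.1 j + p.2 j = m j := by rw [← h]; rfl
    by_cases h3 : p.1 i < p.1 j
    · rw [ha _ h3, zero_mul]
    · rw [hb _ (by omega), mul_zero]
  one_mem' := by
    classical
    intro m hm
    rw [coeff_one, if_neg]
    rintro rfl
    simp at hm
  add_mem' := by
    intro a b ha hb m hm
    rw [map_add, ha m hm, hb m hm, add_zero]
  zero_mem' := by intro m _; simp
  neg_mem' := by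
    intro a ha m hm
    rw [map_neg, ha m hm, neg_zero]

lemma phi_W10 (A : PowerSeries ℚ) : phi A ∈ W 1 0 := by
  intro m hm
  rw [coeff_phi, if_neg hm.ne']

lemma phi_W01 (A : PowerSeries ℚ) : phi A ∈ W 0 1 := by
  intro m hm
  rw [coeff_phi, if_neg hm.ne]

lemma X_W (i j : Fin 2) (h : i ≠ j) : X i ∈ W i j := by
  classical
  intro m hm
  rw [coeff_X, if_neg]
  rintro rfl
  simp [h.symm] at hm

lemma deg_eq (m : Fin 2 →₀ ℕ) (h : m 0 + m 1 = 0) : m = 0 :=
  ext2 _ _ (by simp; omega) (by simp; omega)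

lemma inv_W (i j : Fin 2) (h R : S2) (hh : h ∈ W i j) (e : R * h = 1) : R ∈ W i j := by
  classical
  have h0 : coeff 0 h ≠ 0 := by
    intro h0
    have := congrArg constantCoeff e
    rw [map_mul, map_one, ← coeff_zero_eq_constantCoeff_apply h, h0, mul_zero] at this
    exact zero_ne_one this
  have key : ∀ n : ℕ, ∀ m : Fin 2 →₀ ℕ, m 0 + m 1 = n → m i < m j → coeff m R = 0 := by
    intro n
    induction n using Nat.strong_induction_on with
    | _ n ih =>
      intro m hn hm
      have h1 : coeff m (R * h) = 0 := by rw [e]; exact (W i j).one_mem m hm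
      rw [coeff_mul, Finset.sum_eq_single (m, 0)] at h1
      · exact (mul_eq_zero.1 h1).resolve_right h0
      · intro p hp hne
        have hp' := Finset.HasAntidiagonal.mem_antidiagonal.1 hp
        have h1 : ∀ k, p.1 k + p.2 k = m k := fun k => by rw [← hp']; rfl
        by_cases h3 : p.2 i < p.2 j
        · rw [hh _ h3, mul_zero]
        · have h4 : p.2 0 + p.2 1 ≠ 0 := by
            intro h4
            apply hne
            have h5 := deg_eq _ h4
            rw [h5, add_zero] at hp'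
            exact Prod.ext hp' h5
          have a0 := h1 0
          have a1 := h1 1
          have ai := h1 i
          have aj := h1 j
          rw [ih _ (by omega) p.1 rfl (by omega), zero_mul]
      · intro h; exact absurd (Finset.HasAntidiagonal.mem_antidiagonal.2 (add_zero m)) h
  intro m hm
  exact key _ m rfl hm

lemma diag_X_mul (i j : Fin 2) (hij : i ≠ j) (Z : S2) (hZ : Z ∈ W i j) (m : Fin 2 →₀ ℕ)
    (hm : m i = m j) : coeff m (X i * Z) = 0 := by
  classical
  rw [X_def, coeff_monomial_mul]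
  split_ifs with h
  · rw [hZ, mul_zero]
    have := h i
    simp only [Finsupp.single_eq_same] at this
    simp only [Finsupp.coe_tsub, Pi.sub_apply, Finsupp.single_eq_same,
      Finsupp.single_eq_of_ne hij.symm]
    omega
  · rfl

/-- polynomials -/
noncomputable def Pol : Subring S2 := (MvPolynomial.coeToMvPowerSeries.ringHom (σ := Fin 2) (R := ℚ)).range

lemma X_Pol (i : Fin 2) : X i ∈ Pol := ⟨MvPolynomial.X i, by simp⟩

lemma C_Pol (a : ℚ) : C a ∈ Pol := ⟨MvPolynomial.C a, by simp⟩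

lemma phi_C (a : ℚ) : phi (PowerSeries.C a) = C a := phi.commutes a

lemma phi_Pol (a : Polynomial ℚ) : phi a ∈ Pol := by
  induction a using Polynomial.induction_on with
  | C a => rw [Polynomial.coe_C, phi_C]; exact C_Pol a
  | add p q hp hq => rw [Polynomial.coe_add, map_add]; exact add_mem hp hq
  | monomial n a h =>
    rw [pow_succ, ← mul_assoc, Polynomial.coe_mul, map_mul, Polynomial.coe_X, phi_X]
    exact mul_mem h (mul_mem (X_Pol 0) (X_Pol 1))

def Rat (R : S2) : Prop := ∃ P ∈ Pol, ∃ Q ∈ Pol, constantCoeff Q ≠ 0 ∧ R * Q = P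

lemma Rat.add {R R' : S2} (h : Rat R) (h' : Rat R') : Rat (R + R') := by
  obtain ⟨P, hP, Q, hQ, h1, h2⟩ := h
  obtain ⟨P', hP', Q', hQ', h1', h2'⟩ := h'
  refine ⟨P * Q' + P' * Q, add_mem (mul_mem hP hQ') (mul_mem hP' hQ), Q * Q', mul_mem hQ hQ',
    by rw [map_mul]; exact mul_ne_zero h1 h1', ?_⟩
  rw [← h2, ← h2']; ring

lemma Rat.mul {R A : S2} (hA : A ∈ Pol) (h : Rat R) : Rat (A * R) := by
  obtain ⟨P, hP, Q, hQ, h1, h2⟩ := h
  exact ⟨A * P, mul_mem hA hP, Q, hQ, h1, by rw [← h2]; ring⟩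

lemma Rat.pol {A : S2} (hA : A ∈ Pol) : Rat A :=
  ⟨A, hA, 1, one_mem _, by simp, mul_one A⟩

lemma Rat.bound {R : S2} (h : Rat R) :
    ∃ K : ℚ, 1 ≤ K ∧ ∀ m : Fin 2 →₀ ℕ, |coeff m R| ≤ K ^ (m 0 + m 1 + 1) := by
  classical
  obtain ⟨_, ⟨P, rfl⟩, _, ⟨Q, rfl⟩, h1, h2⟩ := h
  simp only [MvPolynomial.coeToMvPowerSeries.ringHom_apply] at h1 h2
  rw [← coeff_zero_eq_constantCoeff_apply, MvPolynomial.coeff_coe] at h1
  let SP : ℚ := ∑ b ∈ P.support, |P.coeff b|
  let SQ : ℚ := ∑ b ∈ Q.support, |Q.coeff b|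
  have hSP : ∀ m, |P.coeff m| ≤ SP := by
    intro m
    by_cases hm : m ∈ P.support
    · exact Finset.single_le_sum (f := fun b => |P.coeff b|) (fun _ _ => abs_nonneg _) hm
    · rw [MvPolynomial.notMem_support_iff.1 hm, abs_zero]
      exact Finset.sum_nonneg fun _ _ => abs_nonneg _
  have hSQ : ∀ s : Finset (Fin 2 →₀ ℕ), ∑ b ∈ s, |Q.coeff b| ≤ SQ := by
    intro s
    rw [← Finset.sum_filter_ne_zero]
    refine Finset.sum_le_sum_of_subset_of_nonneg (fun x hx => ?_) (fun _ _ _ => abs_nonneg _)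
    rw [MvPolynomial.mem_support_iff]
    exact abs_ne_zero.1 (Finset.mem_filter.1 hx).2
  have hSP0 : 0 ≤ SP := Finset.sum_nonneg fun _ _ => abs_nonneg _
  have hSQ0 : 0 ≤ SQ := Finset.sum_nonneg fun _ _ => abs_nonneg _
  have hq0 : 0 < |Q.coeff 0| := abs_pos.2 h1
  let K : ℚ := (SP + SQ) / |Q.coeff 0| + 1
  have hK1 : 1 ≤ K := by
    have : 0 ≤ (SP + SQ) / |Q.coeff 0| := by positivity
    simp only [K]; linarith
  have hK2 : SP + SQ ≤ K * |Q.coeff 0| := by
    simp only [K]
    rw [add_mul, div_mul_cancel₀ _ hq0.ne']; linarith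
  refine ⟨K, hK1, ?_⟩
  have key : ∀ n : ℕ, ∀ m : Fin 2 →₀ ℕ, m 0 + m 1 = n → |coeff m R| ≤ K ^ (n + 1) := by
    intro n
    induction n using Nat.strong_induction_on with
    | _ n ih =>
      intro m hn
      have h3 := congrArg (coeff m) h2
      rw [coeff_mul, MvPolynomial.coeff_coe, ← Finset.add_sum_erase _ _
        (Finset.HasAntidiagonal.mem_antidiagonal.2 (add_zero m) : (m, 0) ∈ Finset.HasAntidiagonal.antidiagonal m)] at h3
      simp only [MvPolynomial.coeff_coe] at h3
      have h4 : |∑ x ∈ (Finset.HasAntidiagonal.antidiagonal m).erase (m, 0), coeff x.1 R * Q.coeff x.2| ≤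
          K ^ n * SQ := by
        refine (Finset.abs_sum_le_sum_abs _ _).trans ?_
        have h5 : ∀ x ∈ (Finset.HasAntidiagonal.antidiagonal m).erase (m, 0),
            |coeff x.1 R * Q.coeff x.2| ≤ K ^ n * |Q.coeff x.2| := by
          intro p hp
          obtain ⟨hne, hp⟩ := Finset.mem_erase.1 hp
          have hp' := Finset.HasAntidiagonal.mem_antidiagonal.1 hp
          have h1 : ∀ k, p.1 k + p.2 k = m k := fun k => by rw [← hp']; rfl
          have h4 : p.2 0 + p.2 1 ≠ 0 := by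
            intro h4
            apply hne
            have h5 := deg_eq _ h4
            rw [h5, add_zero] at hp'
            exact Prod.ext hp' h5
          have a0 := h1 0
          have a1 := h1 1
          rw [abs_mul]
          refine mul_le_mul_of_nonneg_right ?_ (abs_nonneg _)
          exact (ih _ (by omega) p.1 rfl).trans (pow_le_pow_right₀ hK1 (by omega))
        refine (Finset.sum_le_sum h5).trans ?_
        rw [← Finset.mul_sum]
        refine mul_le_mul_of_nonneg_left ?_ (by positivity)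
        rw [← Finset.sum_image (s := (Finset.HasAntidiagonal.antidiagonal m).erase (m, 0)) (g := Prod.snd)
          (f := fun b => |Q.coeff b|)]
        · exact hSQ _
        · intro a ha b hb hab
          have ha' := Finset.HasAntidiagonal.mem_antidiagonal.1 (Finset.mem_of_mem_erase ha)
          have hb' := Finset.HasAntidiagonal.mem_antidiagonal.1 (Finset.mem_of_mem_erase hb)
          refine Prod.ext ?_ hab
          rw [← hb', hab] at ha'
          exact add_right_cancel ha'
      have h6 : |coeff m R| * |Q.coeff 0| ≤ SP + K ^ n * SQ := by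
        rw [← abs_mul, eq_sub_of_add_eq h3]
        exact (abs_sub _ _).trans (add_le_add (hSP m) h4)
      have h7 : 1 ≤ K ^ n := one_le_pow₀ hK1
      have h8 : |coeff m R| * |Q.coeff 0| ≤ K ^ (n + 1) * |Q.coeff 0| := by
        rw [pow_succ, mul_assoc]
        nlinarith
      exact le_of_mul_le_mul_right h8 hq0
  intro m
  exact key _ m rfl

noncomputable def M2 (K : ℚ) : S2 := fun m => K ^ (m 0 + m 1)
noncomputable def M1 (K : ℚ) : S2 := fun m => if m 0 = 0 then K ^ (m 1) else 0

lemma coeff_M2 (K : ℚ) (m : Fin 2 →₀ ℕ) : coeff m (M2 K) = K ^ (m 0 + m 1) := rfl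
lemma coeff_M1 (K : ℚ) (m : Fin 2 →₀ ℕ) : coeff m (M1 K) = if m 0 = 0 then K ^ (m 1) else 0 := rfl

lemma CX (K : ℚ) (i : Fin 2) : (C K * X i : S2) = monomial (Finsupp.single i 1) K := by
  rw [X_def, ← monomial_zero_eq_C_apply, monomial_mul_monomial]; simp

lemma M2_mul (K : ℚ) : M2 K * (1 - C K * X 0) = M1 K := by
  ext m
  rw [mul_sub, mul_one, map_sub, CX, coeff_mul_monomial, coeff_M2, coeff_M2, coeff_M1]
  simp only [Finsupp.single_le_iff]
  by_cases h : m 0 = 0
  · simp [h]
  · rw [if_pos (by omega), if_neg h, ← pow_succ]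
    have : (m - Finsupp.single 0 1 : Fin 2 →₀ ℕ) 0 + (m - Finsupp.single 0 1 : Fin 2 →₀ ℕ) 1 + 1
      = m 0 + m 1 := by
      simp; omega
    rw [this, sub_self]

lemma M1_mul (K : ℚ) : M1 K * (1 - C K * X 1) = 1 := by
  classical
  ext m
  rw [mul_sub, mul_one, map_sub, CX, coeff_mul_monomial, coeff_M1, coeff_M1, coeff_one]
  simp only [Finsupp.single_le_iff]
  have e0 : (m - Finsupp.single 1 1 : Fin 2 →₀ ℕ) 0 = m 0 := by simp
  have e1 : (m - Finsupp.single 1 1 : Fin 2 →₀ ℕ) 1 = m 1 - 1 := by simp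
  rw [e0, e1]
  by_cases h : m 0 = 0
  · by_cases h1 : m 1 = 0
    · rw [deg_eq m (by omega)]; simp
    · rw [if_pos h, if_pos (by omega), if_pos h, ← pow_succ, if_neg, show m 1 - 1 + 1 = m 1 by omega,
        sub_self]
      rintro rfl
      simp at h1
  · rw [if_neg h, if_neg h, if_neg (c := m = 0)]
    · simp
    · rintro rfl
      simp at h

lemma M2_rat (K : ℚ) : Rat (M2 K) := by
  refine ⟨1, one_mem _, (1 - C K * X 0) * (1 - C K * X 1), mul_mem
    (sub_mem (one_mem _) (mul_mem (C_Pol K) (X_Pol 0)))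
    (sub_mem (one_mem _) (mul_mem (C_Pol K) (X_Pol 1))), by simp, ?_⟩
  rw [← mul_assoc, M2_mul, M1_mul]

lemma M3_rat (K : ℚ) : Rat (phi (PowerSeries.mk fun n => K ^ n)) := by
  refine ⟨1, one_mem _, 1 - C K * (X 0 * X 1),
    sub_mem (one_mem _) (mul_mem (C_Pol K) (mul_mem (X_Pol 0) (X_Pol 1))), by simp, ?_⟩
  have h := congrArg (PowerSeries.rescale K) (PowerSeries.mk_one_mul_one_sub_eq_one (S := ℚ))
  rw [map_mul, map_sub, map_one, PowerSeries.rescale_X, PowerSeries.rescale_mk] at h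
  have h2 := congrArg phi h
  rw [map_mul, map_sub, map_one, map_mul, phi_C, phi_X] at h2
  simpa using h2

theorem positivize (F : PowerSeries ℚ) (hF : ∀ n, 0 ≤ PowerSeries.coeff n F) (R : S2) (hR : Rat R)
    (hd : ∀ n, coeff (dg n) R = PowerSeries.coeff n F) :
    ∃ R' : S2, Rat R' ∧ (∀ m, 0 ≤ coeff m R') ∧ ∀ n, coeff (dg n) R' = PowerSeries.coeff n F := by
  obtain ⟨K, hK, hb⟩ := hR.bound
  let R' : S2 := R + (C K * M2 K + C (-K) * phi (PowerSeries.mk fun n => (K ^ 2) ^ n))
  have hdg : ∀ n, coeff (dg n) R' = PowerSeries.coeff n F := by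
    intro n
    simp only [R', map_add, coeff_C_mul, coeff_dg_phi, coeff_M2, dg0, dg1, hd,
      PowerSeries.coeff_mk]
    ring
  refine ⟨R', hR.add ((Rat.mul (C_Pol _) (M2_rat K)).add (Rat.mul (C_Pol _) (M3_rat _))), ?_, hdg⟩
  intro m
  by_cases h : m 0 = m 1
  · rw [ext2 m (dg (m 0)) (dg0 _).symm (by rw [dg1, h]), hdg]; exact hF _
  · simp only [R', map_add, coeff_C_mul, coeff_phi, coeff_M2, if_neg h]
    have := (abs_le.1 (hb m)).1
    rw [pow_succ] at this
    linarith

end Pool.Agent.H33.Diag
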