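import Pool.Agent.H33.Diag1

set_option autoImplicit false

namespace Pool.Agent.H33.Diag

open MvPowerSeries

noncomputable abbrev co : Polynomial ℚ →+* PowerSeries ℚ := Polynomial.coeToPowerSeries.ringHom

noncomputable def Psi : Polynomial (PowerSeries ℚ) →+* S2 :=
  Polynomial.eval₂RingHom phi.toRingHom (X 1)

lemma Psi_C (A : PowerSeries ℚ) : Psi (Polynomial.C A) = phi A := by simp [Psi]
lemma Psi_X : Psi Polynomial.X = X 1 := by simp [Psi]

lemma Psi_W (p : Polynomial (PowerSeries ℚ)) : Psi p ∈ W 1 0 := by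
  induction p using Polynomial.induction_on with
  | C a => rw [Psi_C]; exact phi_W10 a
  | add p q hp hq => rw [map_add]; exact add_mem hp hq
  | monomial n a h =>
    rw [pow_succ, ← mul_assoc, map_mul, Psi_X]
    exact mul_mem h (X_W 1 0 (by decide))

lemma Psi_Pol (p : Polynomial (Polynomial ℚ)) : Psi (p.map co) ∈ Pol := by
  induction p using Polynomial.induction_on with
  | C a => rw [Polynomial.map_C, Psi_C]; exact phi_Pol a
  | add p q hp hq => rw [Polynomial.map_add, map_add]; exact add_mem hp hq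
  | monomial n a h =>
    rw [pow_succ, ← mul_assoc, Polynomial.map_mul, map_mul, Polynomial.map_X, Psi_X]
    exact mul_mem h (X_Pol 1)

def Good (F : PowerSeries ℚ) : Prop :=
  ∃ Z0 ∈ W 0 1, ∃ Z1 ∈ W 1 0, Rat (phi F + X 1 * Z1 + X 0 * Z0)

theorem etale (G1 : PowerSeries ℚ) (c e : Polynomial ℚ) (r : Polynomial (Polynomial ℚ))
    (he : e.coeff 0 ≠ 0)
    (hq : ((Polynomial.C (Polynomial.X * c) + Polynomial.C e * Polynomial.X +
      Polynomial.X ^ 2 * r).map co).eval (PowerSeries.X * G1) = 0) :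
    Good (PowerSeries.X * G1) := by
  set q := Polynomial.C (Polynomial.X * c) + Polynomial.C e * Polynomial.X +
      Polynomial.X ^ 2 * r with hqdef
  obtain ⟨h, hh⟩ := Polynomial.dvd_iff_isRoot.2 hq
  let D : S2 := X 0 * phi c + phi e + X 1 * Psi (r.map co)
  have hD : D ∈ Pol := add_mem (add_mem (mul_mem (X_Pol 0) (phi_Pol c)) (phi_Pol e))
    (mul_mem (X_Pol 1) (Psi_Pol r))
  have hD0 : constantCoeff D ≠ 0 := by
    simp only [D, map_add, map_mul, constantCoeff_X, zero_mul, zero_add, add_zero, const_phi]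
    rwa [Polynomial.constantCoeff_coe]
  let g : S2 := X 0 * phi G1
  have hg : g ∈ W 0 1 := mul_mem (X_W 0 1 (by decide)) (phi_W01 _)
  have e1 : Psi (q.map co) = X 1 * D := by
    simp only [hqdef, Polynomial.map_add, Polynomial.map_mul, Polynomial.map_C, Polynomial.map_X,
      Polynomial.map_pow, map_add, map_mul, map_pow, Psi_C, Psi_X, D,
      Polynomial.coeToPowerSeries.ringHom_apply, Polynomial.coe_X, phi_X]
    ring
  have e0 : Psi (Polynomial.X - Polynomial.C (PowerSeries.X * G1)) = X 1 * (1 - g) := by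
    rw [map_sub, Psi_X, Psi_C, map_mul, phi_X]
    simp only [g]; ring
  have e2 : D = (1 - g) * Psi h := by
    have hX : (X 1 : S2) ≠ 0 := by
      intro h0
      have := congrArg (coeff (Finsupp.single 1 1)) h0
      simp at this
    apply mul_left_cancel₀ hX
    rw [← e1, hh, map_mul, e0]; ring
  have hg0 : constantCoeff (1 - g) = 1 := by simp [g]
  have hh0 : constantCoeff (Psi h) ≠ 0 := by
    intro h0
    apply hD0
    rw [e2, map_mul, h0, mul_zero]
  let A : S2 := (1 - g)⁻¹
  let B : S2 := (Psi h)⁻¹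
  have hA : A * (1 - g) = 1 := MvPowerSeries.inv_mul_cancel _ (by rw [hg0]; exact one_ne_zero)
  have hB : B * Psi h = 1 := MvPowerSeries.inv_mul_cancel _ hh0
  have hAW : A ∈ W 0 1 := inv_W 0 1 _ _ (sub_mem (one_mem _) hg) hA
  have hBW : B ∈ W 1 0 := inv_W 1 0 _ _ (Psi_W h) hB
  have e3 : Psi (q.derivative.map co) = Psi h + X 1 * (1 - g) * Psi h.derivative := by
    rw [← Polynomial.derivative_map, hh, Polynomial.derivative_mul, map_add, map_mul Psi, map_mul Psi, e0]
    simp
  refine ⟨phi (PowerSeries.X * G1) * phi G1 * A,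
    mul_mem (mul_mem (phi_W01 _) (phi_W01 _)) hAW,
    1 + X 1 * Psi h.derivative * B,
    add_mem (one_mem _) (mul_mem (mul_mem (X_W 1 0 (by decide)) (Psi_W _)) hBW),
    X 1 * Psi (q.derivative.map co), mul_mem (X_Pol 1) (Psi_Pol _), D, hD, hD0, ?_⟩
  have e4 : phi (PowerSeries.X * G1) = X 1 * g := by
    rw [map_mul, phi_X]; simp only [g]; ring
  have e5 : X 0 * (X 1 * g * phi G1 * A) = X 1 * g * g * A := by simp only [g]; ring
  rw [e3, e2, e4, e5]
  linear_combination (X 1 * g * g * Psi h) * hA +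
    (X 1 * X 1 * Psi h.derivative * (1 - g)) * hB

lemma Good.shift (G : PowerSeries ℚ) (u v : Polynomial ℚ) (h : Good G) :
    Good ((u : PowerSeries ℚ) + (v : PowerSeries ℚ) * G) := by
  obtain ⟨Z0, h0, Z1, h1, hR⟩ := h
  refine ⟨phi v * Z0, mul_mem (phi_W01 _) h0, phi v * Z1, mul_mem (phi_W10 _) h1, ?_⟩
  have := (Rat.pol (phi_Pol u)).add (Rat.mul (phi_Pol v) hR)
  convert this using 1
  rw [map_add, map_mul]; ring

lemma sep (F : PowerSeries ℚ) (h : ∃ p : Polynomial (Polynomial ℚ), p ≠ 0 ∧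
    Polynomial.eval₂ co F p = 0) : ∃ p : Polynomial (Polynomial ℚ),
    Polynomial.eval₂ co F p = 0 ∧ Polynomial.eval₂ co F p.derivative ≠ 0 := by
  obtain ⟨p, hp0, hp⟩ := h
  induction hn : p.natDegree using Nat.strong_induction_on generalizing p with
  | _ n ih =>
    by_cases h1 : Polynomial.eval₂ co F p.derivative = 0
    · have h2 : p.natDegree ≠ 0 := by
        intro h2
        rw [Polynomial.eq_C_of_natDegree_eq_zero h2, Polynomial.eval₂_C] at hp
        apply hp0
        rw [Polynomial.eq_C_of_natDegree_eq_zero h2]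
        have : p.coeff 0 = 0 := Polynomial.coe_injective ℚ (by simpa using hp)
        rw [this, map_zero]
      refine ih _ (hn ▸ Polynomial.natDegree_derivative_lt h2) p.derivative ?_ h1 rfl
      intro h3
      exact h2 (Polynomial.derivative_eq_zero.1 h3)
    · exact ⟨p, hp, h1⟩

lemma dvd_coe (n : ℕ) (a : Polynomial ℚ) (h : PowerSeries.X ^ n ∣ (a : PowerSeries ℚ)) :
    Polynomial.X ^ n ∣ a := by
  rw [Polynomial.X_pow_dvd_iff]
  rw [PowerSeries.X_pow_dvd_iff] at h
  intro d hd
  rw [← Polynomial.coeff_coe]; exact h d hd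

theorem good_of_alg (F : PowerSeries ℚ) (h : ∃ p : Polynomial (Polynomial ℚ), p ≠ 0 ∧
    Polynomial.eval₂ co F p = 0) : Good F := by
  obtain ⟨p, hp, hp'⟩ := sep F h
  set E := Polynomial.eval₂ co F p.derivative with hE
  set k := E.order.toNat with hk
  have hE1 : PowerSeries.X ^ k * E.divXPowOrder = E := PowerSeries.X_pow_order_mul_divXPowOrder
  have hE2 : PowerSeries.constantCoeff E.divXPowOrder ≠ 0 := fun h0 =>
    hp' (PowerSeries.constantCoeff_divXPowOrder_eq_zero_iff.1 h0)
  let u : Polynomial ℚ := PowerSeries.trunc (k + 1) F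
  obtain ⟨G1, hG1⟩ : PowerSeries.X ^ (k + 1) ∣ F - (u : PowerSeries ℚ) := by
    rw [PowerSeries.X_pow_dvd_iff]
    intro m hm
    rw [map_sub, Polynomial.coeff_coe, PowerSeries.coeff_trunc, if_pos hm, sub_self]
  have hF : F = (u : PowerSeries ℚ) + PowerSeries.X ^ k * (PowerSeries.X * G1) := by
    rw [← mul_assoc, ← pow_succ, ← hG1]; ring
  have hev : ∀ f : Polynomial (Polynomial ℚ),
      ((f.eval u : Polynomial ℚ) : PowerSeries ℚ) = (f.map co).eval (u : PowerSeries ℚ) := by
    intro f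
    rw [Polynomial.eval_map]
    exact (Polynomial.eval₂_at_apply co u).symm
  obtain ⟨w, hw⟩ := Polynomial.sub_dvd_eval_sub F (u : PowerSeries ℚ) (p.derivative.map co)
  rw [Polynomial.eval_map, ← hE, ← hev, hG1] at hw
  have hw2 : ((p.derivative.eval u : Polynomial ℚ) : PowerSeries ℚ) =
      PowerSeries.X ^ k * (E.divXPowOrder - PowerSeries.X * (G1 * w)) := by
    rw [mul_sub, hE1]
    linear_combination -hw
  obtain ⟨e, he⟩ := dvd_coe k _ ⟨_, hw2⟩
  have hXk : (PowerSeries.X ^ k : PowerSeries ℚ) ≠ 0 := pow_ne_zero _ PowerSeries.X_ne_zero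
  have he2 : (e : PowerSeries ℚ) = E.divXPowOrder - PowerSeries.X * (G1 * w) := by
    apply mul_left_cancel₀ hXk
    rw [← hw2, he]; simp
  have he0 : e.coeff 0 ≠ 0 := by
    rw [← Polynomial.constantCoeff_coe, he2]
    simpa using hE2
  obtain ⟨r, hr⟩ := Polynomial.binomExpansion (p.map Polynomial.C) (Polynomial.C u)
    (Polynomial.C (Polynomial.X ^ k) * Polynomial.X)
  let ev : Polynomial (Polynomial ℚ) →+* PowerSeries ℚ :=
    Polynomial.eval₂RingHom co (PowerSeries.X * G1)
  have evC : ∀ a, ev (Polynomial.C a) = (a : PowerSeries ℚ) := fun a => by simp [ev]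
  have evX : ev Polynomial.X = PowerSeries.X * G1 := by simp [ev]
  have h1 : ev ((p.map Polynomial.C).eval
      (Polynomial.C u + Polynomial.C (Polynomial.X ^ k) * Polynomial.X)) = 0 := by
    rw [Polynomial.eval_map, Polynomial.hom_eval₂, map_add, map_mul, evC, evC, evX]
    have : ev.comp Polynomial.C = co := RingHom.ext evC
    rw [this, Polynomial.coe_pow, Polynomial.coe_X, ← hF, hp]
  rw [hr, Polynomial.derivative_map, Polynomial.eval_map, Polynomial.eval_map,
    Polynomial.eval₂_at_apply, Polynomial.eval₂_at_apply, he] at h1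
  simp only [map_add, map_mul, map_pow, evC, evX, Polynomial.coe_X] at h1
  have h2 : ((p.eval u : Polynomial ℚ) : PowerSeries ℚ) = PowerSeries.X ^ (2 * k + 1) *
      (-((e : PowerSeries ℚ) * G1 + ev r * PowerSeries.X * G1 ^ 2)) := by
    linear_combination h1
  obtain ⟨c, hc⟩ := dvd_coe _ _ ⟨_, h2⟩
  have hc2 : (c : PowerSeries ℚ) = -((e : PowerSeries ℚ) * G1 + ev r * PowerSeries.X * G1 ^ 2) := by
    apply mul_left_cancel₀ (show (PowerSeries.X ^ (2 * k + 1) : PowerSeries ℚ) ≠ 0 from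
      pow_ne_zero _ PowerSeries.X_ne_zero)
    rw [← h2, hc]; simp
  have hG : Good (PowerSeries.X * G1) := by
    refine etale G1 c e r he0 ?_
    rw [Polynomial.eval_map]
    change ev _ = 0
    simp only [map_add, map_mul, map_pow, evC, evX, Polynomial.coe_X, hc2]
    ring
  have := Good.shift _ u (Polynomial.X ^ k) hG
  rwa [Polynomial.coe_pow, Polynomial.coe_X, ← hF] at this

theorem main (F : PowerSeries ℚ) (hF : ∀ n, 0 ≤ PowerSeries.coeff n F)
    (h : ∃ p : Polynomial (Polynomial ℚ), p ≠ 0 ∧ Polynomial.eval₂ co F p = 0) :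
    ∃ R' : S2, Rat R' ∧ (∀ m, 0 ≤ coeff m R') ∧ ∀ n, coeff (dg n) R' = PowerSeries.coeff n F := by
  obtain ⟨Z0, h0, Z1, h1, hR⟩ := good_of_alg F h
  refine positivize F hF _ hR fun n => ?_
  rw [map_add, map_add, coeff_dg_phi, diag_X_mul 1 0 (by decide) Z1 h1 _ (by rw [dg0, dg1]),
    diag_X_mul 0 1 (by decide) Z0 h0 _ (by rw [dg0, dg1]), add_zero, add_zero]

end Pool.Agent.H33.Diag
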