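import Mathlib

namespace Pool.Agent.H33.Egb

open Multiset

abbrev Y0 := {p : ℕ × ℕ // p.1 ≠ p.2}

def tails (s : Multiset Y0) : Multiset ℕ := s.map fun g => g.1.1
def heads (s : Multiset Y0) : Multiset ℕ := s.map fun g => g.1.2
def tok (s : Multiset Y0) : Multiset ℕ := tails s + tails s + heads s

theorem tok_cons (g : Y0) (s : Multiset Y0) : tok (g ::ₘ s) = g.1.1 ::ₘ g.1.1 ::ₘ g.1.2 ::ₘ tok s := by
  simp only [tok, tails, heads, map_cons]
  simp only [← singleton_add]
  abel

theorem tok_add (s t : Multiset Y0) : tok (s + t) = tok s + tok t := by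
  simp only [tok, tails, heads, Multiset.map_add]; abel

theorem card_tok (s : Multiset Y0) : card (tok s) = 3 * card s := by
  simp [tok, tails, heads]; ring

def O (w : Multiset ℕ) : Finset ℕ := w.toFinset.filter fun v => count v w % 2 = 1

theorem mem_O {w : Multiset ℕ} {v : ℕ} : v ∈ O w ↔ count v w % 2 = 1 := by
  simp only [O, Finset.mem_filter, mem_toFinset, and_iff_right_iff_imp]
  intro h
  rw [← count_pos]; omega

theorem card_O_le (w L : Multiset ℕ) (h : ∀ v, count v w % 2 = count v L % 2) :
    (O w).card ≤ card L := by
  refine le_trans (Finset.card_le_card (t := L.toFinset) fun v hv => ?_) (toFinset_card_le L)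
  rw [mem_O, h] at hv
  rw [mem_toFinset, ← count_pos]; omega

theorem count_tok (s : Multiset Y0) (v : ℕ) :
    count v (tok s) = 2 * count v (tails s) + count v (heads s) := by
  simp only [tok, count_add]; ring

def ew (v : ℕ) (g : Y0) : ℕ := (if v = g.1.1 then 2 else 0) + (if v = g.1.2 then 1 else 0)

theorem ew_le (v : ℕ) (g : Y0) : ew v g ≤ 2 := by
  have := g.2
  unfold ew; split_ifs <;> omega

theorem count_tok' (s : Multiset Y0) (v : ℕ) : count v (tok s) = (s.map (ew v)).sum := by
  induction s using Multiset.induction_on with
  | empty => simp [tok, tails, heads]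
  | cons g s ih =>
    rw [tok_cons, map_cons, sum_cons, ← ih]
    simp only [count_cons, ew]
    split_ifs <;> omega

theorem count_tok'' (s : Multiset Y0) (v : ℕ) :
    (s.map fun g => 2 - ew v g).sum + count v (tok s) = 2 * card s := by
  rw [count_tok']
  induction s using Multiset.induction_on with
  | empty => simp
  | cons g s ih =>
    have := ew_le v g
    simp only [map_cons, sum_cons, card_cons]
    omega

theorem realize : ∀ (k : ℕ) (w : Multiset ℕ), card w = 3 * k → (O w).card ≤ k →
    (∀ v, count v w ≤ 2 * k) → ∃ s, tok s = w := by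
  intro k
  induction k with
  | zero =>
    intro w hw _ _
    exact ⟨0, by rw [card_eq_zero.mp hw]; rfl⟩
  | succ k ih =>
    intro w hw hO hc
    have hne : w.toFinset.Nonempty := by
      rw [toFinset_nonempty, ← card_pos]; omega
    obtain ⟨x, hx, hmax⟩ := w.toFinset.exists_max_image (fun v => count v w) hne
    have hmax' : ∀ v, count v w ≤ count x w := fun v => by
      by_cases hv : v ∈ w
      · exact hmax v (mem_toFinset.mpr hv)
      · rw [count_eq_zero_of_notMem hv]; omega
    have hx2 : 2 ≤ count x w := by
      by_contra h
      have hnd : w.Nodup := nodup_iff_count_le_one.mpr fun v => by have := hmax' v; omega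
      have : w.toFinset ⊆ O w := fun v hv => by
        rw [mem_O, count_eq_one_of_mem hnd (mem_toFinset.mp hv)]
      have h1 := Finset.card_le_card this
      rw [toFinset_card_of_nodup hnd] at h1
      omega
    have three : ∀ u v z : ℕ, u ≠ v → u ≠ z → v ≠ z → count u w + count v w + count z w ≤ card w := by
      intro u v z h1 h2 h3
      have : replicate (count u w) u + replicate (count v w) v + replicate (count z w) z ≤ w := by
        rw [le_iff_count]
        intro a
        simp only [count_add, count_replicate]
        split_ifs <;> subst_vars <;> first | omega | simp_all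
      simpa using card_le_card this
    have hy : ∃ y, y ≠ x ∧ 1 ≤ count y w ∧ (count y w % 2 = 1 ∨ O w ⊆ {x}) := by
      by_cases h : O w ⊆ {x}
      · by_contra hh
        push Not at hh
        have : w = replicate (count x w) x := by
          ext v
          rw [count_replicate]
          split_ifs with hv
          · rw [hv]
          · by_contra h0
            exact (hh v (fun e => hv e.symm) (by omega)).2 h
        have h2 := congrArg card this
        rw [card_replicate] at h2
        have := hc x
        omega
      · obtain ⟨y, hy1, hy2⟩ := Finset.not_subset.mp h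
        rw [mem_O] at hy1
        exact ⟨y, by simpa using hy2, by omega, Or.inl hy1⟩
    obtain ⟨y, hyx, hy1, hy2⟩ := hy
    have hle : x ::ₘ x ::ₘ y ::ₘ 0 ≤ w := by
      rw [le_iff_count]
      intro a
      simp only [count_cons, count_zero]
      split_ifs <;> subst_vars <;> first | omega | simp_all
    obtain ⟨w', hw'⟩ := Multiset.le_iff_exists_add.mp hle
    have hcnt : ∀ v, count v w = count v w' + (if v = x then 2 else 0) + (if v = y then 1 else 0) := by
      intro v
      rw [hw']
      simp only [count_add, count_cons, count_zero]
      split_ifs <;> omega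
    have hcard : card w' = 3 * k := by
      have := congrArg card hw'
      simp at this; omega
    have hpar : (O w').card % 2 = card w' % 2 := by
      rw [← toFinset_sum_count_eq w', Finset.sum_nat_mod, O, Finset.card_filter]
      congr 1
      refine Finset.sum_congr rfl fun v _ => ?_
      split_ifs <;> omega
    obtain ⟨s, hs⟩ := ih w' hcard (by
      rcases hy2 with h | h
      · have h1 : O w' ⊆ (O w).erase y := fun v hv => by
          rw [mem_O] at hv
          rw [Finset.mem_erase, mem_O]
          have := hcnt v
          split_ifs at this <;> subst_vars <;> first | omega | exact ⟨by assumption, by omega⟩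
        have h2 := Finset.card_le_card h1
        rw [Finset.card_erase_of_mem (mem_O.mpr h)] at h2
        omega
      · have h1 : O w' ⊆ {x, y} := fun v hv => by
          rw [mem_O] at hv
          by_contra hh
          simp only [Finset.mem_insert, Finset.mem_singleton, not_or] at hh
          have h3 := hcnt v
          rw [if_neg hh.1, if_neg hh.2] at h3
          exact hh.1 (Finset.mem_singleton.mp (h (mem_O.mpr (by omega))))
        have h2 := (Finset.card_le_card h1).trans Finset.card_le_two
        have h3 := (Finset.card_le_card (Finset.filter_subset _ _) : (O w').card ≤ _).trans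
          (toFinset_card_le w')
        omega) (by
      intro v
      have h1 := hcnt v
      have h2 := hc v
      have h3 := hmax' v
      split_ifs at h1 with ha hb hb
      · omega
      · omega
      · have := three x v (x + v + 1) (Ne.symm ha) (by omega) (by omega)
        omega
      · have := three x y v hyx.symm (Ne.symm ha) (Ne.symm hb)
        omega)
    refine ⟨⟨(x, y), hyx.symm⟩ ::ₘ s, ?_⟩
    rw [tok_cons, hs, hw']
    simp

theorem witness (φ : Y0 → ℕ) (s : Multiset Y0) : ∀ m, m ≤ (s.map φ).sum →
    ∃ t ≤ s, card t ≤ m ∧ m ≤ (t.map φ).sum := by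
  induction s using Multiset.induction_on with
  | empty => intro m hm; exact ⟨0, le_rfl, by simp, hm⟩
  | cons g s ih =>
    intro m hm
    rw [map_cons, sum_cons] at hm
    by_cases h : φ g = 0 ∨ m = 0
    · obtain ⟨t, h1, h2, h3⟩ := ih m (by omega)
      exact ⟨t, h1.trans (le_cons_self _ _), h2, h3⟩
    · obtain ⟨t, h1, h2, h3⟩ := ih (m - φ g) (by omega)
      refine ⟨g ::ₘ t, cons_le_cons _ h1, by rw [card_cons]; omega, ?_⟩
      rw [map_cons, sum_cons]; omega

theorem sum_mono (φ : Y0 → ℕ) {s t : Multiset Y0} (h : s ≤ t) : (s.map φ).sum ≤ (t.map φ).sum := by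
  obtain ⟨u, rfl⟩ := Multiset.le_iff_exists_add.mp h
  simp

theorem count_heads (s : Multiset Y0) (v : ℕ) :
    count v (heads s) = (s.map fun g => if v = g.1.2 then 1 else 0).sum := by
  induction s using Multiset.induction_on with
  | empty => simp [heads]
  | cons g s ih =>
    rw [map_cons, sum_cons, ← ih]
    simp only [heads, map_cons, count_cons]
    omega

theorem card_union_le' (s t : Multiset Y0) : card (s ∪ t) ≤ card s + card t := by
  rw [← card_add]; exact card_le_card (union_le_add s t)

theorem localMove (a b : Multiset Y0) (e : Y0) (h : tok a = tok (e ::ₘ b)) :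
    ∃ a0 ≤ a, card a0 ≤ 10 ∧ ∃ c, tok a0 = tok (e ::ₘ c) := by
  obtain ⟨⟨x, y⟩, hxy⟩ := e
  simp only at hxy
  have hk : card a = card b + 1 := by
    have := congrArg card h
    rw [card_tok, card_tok, card_cons] at this
    omega
  rw [tok_cons] at h
  simp only at h
  have hcnt : ∀ v, count v (tok a) =
      count v (tok b) + (if v = x then 2 else 0) + (if v = y then 1 else 0) := by
    intro v
    rw [h]
    simp only [count_cons]
    split_ifs <;> omega
  obtain ⟨t1, l1, c1, w1⟩ := witness (ew x) a 2 (by
    rw [← count_tok', hcnt, if_pos rfl]; omega)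
  obtain ⟨t2, l2, c2, w2⟩ := witness (ew y) a 1 (by
    rw [← count_tok', hcnt, if_pos rfl]; omega)
  obtain ⟨g, hg⟩ := card_pos_iff_exists_mem.mp (show 0 < card a by omega)
  have hw : ∀ v, ∃ t ≤ a, card t ≤ 2 ∧ 2 ≤ (t.map fun g => 2 - ew v g).sum +
      (if v = x then 2 else 0) + (if v = y then 1 else 0) := by
    intro v
    have h1 := count_tok'' a v
    have h2 := count_tok'' b v
    have h3 := hcnt v
    obtain ⟨t, l, c, w⟩ := witness (fun g => 2 - ew v g) a
      (2 - ((if v = x then 2 else 0) + (if v = y then 1 else 0))) (by omega)
    exact ⟨t, l, by omega, by omega⟩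
  obtain ⟨t3, l3, c3, w3⟩ := hw g.1.1
  obtain ⟨t4, l4, c4, w4⟩ := hw g.1.2
  have hdup : ∃ v, 2 ≤ count v (heads a) + (if v = y then 1 else 0) := by
    by_contra hh
    push Not at hh
    have hnd : (y ::ₘ heads a).Nodup := nodup_iff_count_le_one.mpr fun v => by
      have := hh v
      rw [count_cons]; omega
    have h1 : (y ::ₘ heads a).toFinset ⊆ O (tok b) := fun v hv => by
      have h2 := count_eq_one_of_mem hnd (mem_toFinset.mp hv)
      rw [count_cons] at h2
      have h3 := hcnt v
      rw [count_tok] at h3
      rw [mem_O]
      split_ifs at h2 h3 <;> omega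
    have h2 := Finset.card_le_card h1
    rw [toFinset_card_of_nodup hnd, card_cons] at h2
    have h3 := card_O_le (tok b) (heads b) fun v => by rw [count_tok]; omega
    simp only [heads, card_map] at h2 h3
    omega
  obtain ⟨v, hv⟩ := hdup
  obtain ⟨t5, l5, c5, w5⟩ := witness (fun g => if v = g.1.2 then 1 else 0) a
    (2 - (if v = y then 1 else 0)) (by rw [← count_heads]; omega)
  set a0 := t1 ∪ (t2 ∪ ({g} ∪ (t3 ∪ (t4 ∪ t5)))) with ha0
  have m1 : t1 ≤ a0 := le_union_left
  have m2 : t2 ≤ a0 := le_union_left.trans le_union_right
  have mg : {g} ≤ a0 := le_union_left.trans (le_union_right.trans le_union_right)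
  have m3 : t3 ≤ a0 := le_union_left.trans (le_union_right.trans (le_union_right.trans le_union_right))
  have m4 : t4 ≤ a0 := le_union_left.trans
    (le_union_right.trans (le_union_right.trans (le_union_right.trans le_union_right)))
  have m5 : t5 ≤ a0 := le_union_right.trans
    (le_union_right.trans (le_union_right.trans (le_union_right.trans le_union_right)))
  have hle : a0 ≤ a := union_le l1 (union_le l2 (union_le (singleton_le.mpr hg)
    (union_le l3 (union_le l4 l5))))
  have hc : card a0 ≤ 10 := by
    have e1 := card_union_le' t1 (t2 ∪ ({g} ∪ (t3 ∪ (t4 ∪ t5))))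
    have e2 := card_union_le' t2 ({g} ∪ (t3 ∪ (t4 ∪ t5)))
    have e3 := card_union_le' {g} (t3 ∪ (t4 ∪ t5))
    have e4 := card_union_le' t3 (t4 ∪ t5)
    have e5 := card_union_le' t4 t5
    rw [card_singleton] at e3
    rw [ha0]
    omega
  refine ⟨a0, hle, hc, ?_⟩
  have n1 := w1.trans (sum_mono (ew x) m1)
  have n2 := w2.trans (sum_mono (ew y) m2)
  rw [← count_tok'] at n1 n2
  have hle2 : x ::ₘ x ::ₘ y ::ₘ 0 ≤ tok a0 := by
    rw [le_iff_count]
    intro a
    simp only [count_cons, count_zero]
    split_ifs <;> subst_vars <;> first | omega | simp_all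
  obtain ⟨w', hw'⟩ := Multiset.le_iff_exists_add.mp hle2
  have hcnt' : ∀ v, count v (tok a0) =
      count v w' + (if v = x then 2 else 0) + (if v = y then 1 else 0) := by
    intro v
    rw [hw']
    simp only [count_add, count_cons, count_zero]
    split_ifs <;> omega
  have hpos : 1 ≤ card a0 := by simpa using card_le_card mg
  obtain ⟨c, hc⟩ := realize (card a0 - 1) w' (by
      have := congrArg card hw'
      rw [card_tok] at this
      simp at this; omega) (by
      have n5 := w5.trans (sum_mono _ m5)
      rw [← count_heads] at n5
      have hl : v ::ₘ v ::ₘ 0 ≤ y ::ₘ heads a0 := by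
        rw [le_iff_count]
        intro a
        simp only [count_cons, count_zero]
        split_ifs at n5 ⊢ <;> subst_vars <;> first | omega | simp_all
      obtain ⟨L, hL⟩ := Multiset.le_iff_exists_add.mp hl
      have h1 := card_O_le w' L fun u => by
        have h2 := congrArg (count u) hL
        have h3 := hcnt' u
        rw [count_tok] at h3
        simp only [count_add, count_cons, count_zero] at h2
        split_ifs at h2 h3 <;> omega
      have h2 := congrArg card hL
      simp [heads] at h2
      omega) (by
      intro u
      have h1 := count_tok'' a0 u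
      have h2 := hcnt' u
      have n3 := sum_mono (fun g => 2 - ew u g) m3
      have n4 := sum_mono (fun g => 2 - ew u g) m4
      have ng := sum_mono (fun g => 2 - ew u g) mg
      by_cases hu : u = g.1.1
      · subst hu; omega
      by_cases hu' : u = g.1.2
      · subst hu'; omega
      simp only [map_singleton, sum_singleton, ew, if_neg hu, if_neg hu'] at ng
      simp only [ew] at h1
      omega)
  refine ⟨c, ?_⟩
  rw [tok_cons, hc, hw']
  simp

end Pool.Agent.H33.Egb
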