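import Mathlib

open MvPolynomial

namespace Pool.Agent.H33.Egb

/-- index set of the variables `y i j`, `i ≠ j` -/
abbrev Y : Type := {p : ℕ × ℕ // p.1 ≠ p.2}

/-- the map `y i j ↦ f (x i, x j)` -/
noncomputable def phi (f : MvPolynomial (Fin 2) ℂ) : MvPolynomial Y ℂ →ₐ[ℂ] MvPolynomial ℕ ℂ :=
  aeval fun p : Y => aeval ![X p.1.1, X p.1.2] f

/-- action of an injective map on the variable indices -/
def act (ρ : ℕ → ℕ) (h : Function.Injective ρ) (p : Y) : Y :=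
  ⟨(ρ p.1.1, ρ p.1.2), fun e => p.2 (h e)⟩

/-- `I` is generated by the orbits of a finite set under finitary permutations -/
def FinGenSym (I : Ideal (MvPolynomial Y ℂ)) : Prop :=
  ∃ F : Finset (MvPolynomial Y ℂ), I = Ideal.span
    {q | ∃ σ : Equiv.Perm ℕ, {n | σ n ≠ n}.Finite ∧ ∃ g ∈ F, q = rename (act σ σ.injective) g}

/-- `lt` is the strict part of a monomial order respecting increasing maps -/
def IsIncOrder (lt : (Y →₀ ℕ) → (Y →₀ ℕ) → Prop) : Prop :=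
  IsWellOrder (Y →₀ ℕ) lt ∧ (∀ a b c, lt a b → lt (a + c) (b + c)) ∧
    ∀ (ρ : ℕ → ℕ) (h : StrictMono ρ) (a b : Y →₀ ℕ), lt a b →
      lt (a.mapDomain (act ρ h.injective)) (b.mapDomain (act ρ h.injective))

/-- the ideal generated by the leading monomials of the elements of `S` -/
noncomputable def leadIdeal (lt : (Y →₀ ℕ) → (Y →₀ ℕ) → Prop) (S : Set (MvPolynomial Y ℂ)) :
    Ideal (MvPolynomial Y ℂ) :=
  Ideal.span {q | ∃ g ∈ S, ∃ a ∈ g.support, (∀ b ∈ g.support, b ≠ a → lt b a) ∧ q = monomial a 1}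

/-- `G` is an equivariant Groebner basis of `I` -/
def IsEGB (lt : (Y →₀ ℕ) → (Y →₀ ℕ) → Prop) (I : Ideal (MvPolynomial Y ℂ))
    (G : Set (MvPolynomial Y ℂ)) : Prop :=
  G ⊆ I ∧ leadIdeal lt {q | ∃ (ρ : ℕ → ℕ) (h : StrictMono ρ), ∃ g ∈ G,
    q = rename (act ρ h.injective) g} = leadIdeal lt I

end Pool.Agent.H33.Egb
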