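import Mathlib
import Pool.Agent.H33.EgbDefs
import Pool.Agent.H33.Egb1

open MvPolynomial

namespace Pool.Agent.H33.Egb

noncomputable def f0 : MvPolynomial (Fin 2) ℂ := X 0 ^ 2 * X 1

noncomputable def outd (a : Y →₀ ℕ) : ℕ →₀ ℕ := a.mapDomain fun p => p.1.1
noncomputable def ind (a : Y →₀ ℕ) : ℕ →₀ ℕ := a.mapDomain fun p => p.1.2
noncomputable def wt (a : Y →₀ ℕ) : ℕ →₀ ℕ := outd a + outd a + ind a

theorem wt_add (a b : Y →₀ ℕ) : wt (a + b) = wt a + wt b := by
  simp only [wt, outd, ind, Finsupp.mapDomain_add]; abel

theorem phi_mono (a : Y →₀ ℕ) (c : ℂ) : phi f0 (monomial a c) = monomial (wt a) c := by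
  induction a using Finsupp.induction_linear generalizing c with
  | zero => simp [wt, outd, ind, phi]
  | add a b ha hb =>
    rw [← mul_one c, ← monomial_mul, map_mul, ha, hb, monomial_mul, wt_add]
  | single p n =>
    rw [← C_mul_X_pow_eq_monomial, map_mul, map_pow]
    simp only [phi, f0, aeval_X, map_mul, map_pow, aeval_C, Matrix.cons_val_zero,
      Matrix.cons_val_one, wt, outd, ind, Finsupp.mapDomain_single, algebraMap_eq]
    rw [← mul_one c, ← mul_one (c * 1), ← monomial_mul, ← monomial_mul, ← C_mul_X_pow_eq_monomial,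
      ← X_pow_eq_monomial, ← X_pow_eq_monomial]
    simp only [mul_one]
    ring

theorem phi_act (ρ : ℕ → ℕ) (h : Function.Injective ρ) (g : MvPolynomial Y ℂ) :
    phi f0 (rename (act ρ h) g) = rename ρ (phi f0 g) := by
  have : (phi f0).comp (rename (act ρ h)) = (rename ρ).comp (phi f0) := by
    apply algHom_ext
    intro p
    simp [phi, f0, act]
  exact DFunLike.congr_fun this g

theorem wt_act (ρ : ℕ → ℕ) (h : Function.Injective ρ) (a : Y →₀ ℕ) :
    wt (a.mapDomain (act ρ h)) = (wt a).mapDomain ρ := by
  simp only [wt, outd, ind, Finsupp.mapDomain_add, ← Finsupp.mapDomain_comp]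
  rfl

theorem other (g : MvPolynomial Y ℂ) (hg : phi f0 g = 0) (a : Y →₀ ℕ) (ha : a ∈ g.support) :
    ∃ b ∈ g.support, b ≠ a ∧ wt b = wt a := by
  classical
  by_contra h
  push Not at h
  have h1 := congrArg (coeff (wt a)) hg
  rw [g.as_sum, map_sum, coeff_sum, Finset.sum_eq_single a] at h1
  · rw [phi_mono, coeff_monomial, if_pos rfl] at h1
    exact mem_support_iff.mp ha h1
  · intro b hb hba
    rw [phi_mono, coeff_monomial, if_neg (h b hb hba)]
  · intro h'; exact absurd ha h'

theorem ker_le (J : Ideal (MvPolynomial Y ℂ))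
    (hJ : ∀ a b, wt a = wt b → monomial a (1 : ℂ) - monomial b 1 ∈ J) (g : MvPolynomial Y ℂ)
    (hg : phi f0 g = 0) : g ∈ J := by
  classical
  let rep : (ℕ →₀ ℕ) → (Y →₀ ℕ) := fun w => if h : ∃ a, wt a = w then h.choose else 0
  have hrep : ∀ a, wt (rep (wt a)) = wt a := fun a => by
    have h : ∃ a', wt a' = wt a := ⟨a, rfl⟩
    simp only [rep, dif_pos h]; exact h.choose_spec
  let ψ : MvPolynomial ℕ ℂ →ₗ[ℂ] MvPolynomial Y ℂ :=
    (basisMonomials ℕ ℂ).constr ℂ fun w => monomial (rep w) 1
  have hψ : ∀ w c, ψ (monomial w c) = monomial (rep w) c := fun w c => by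
    have : (monomial w c : MvPolynomial ℕ ℂ) = c • basisMonomials ℕ ℂ w := by
      simp [smul_monomial]
    rw [this, map_smul, Module.Basis.constr_basis, smul_monomial, smul_eq_mul, mul_one]
  have key : ∀ g : MvPolynomial Y ℂ, g - ψ (phi f0 g) ∈ J := by
    intro g
    induction g using MvPolynomial.induction_on' with
    | monomial a c =>
      rw [phi_mono, hψ]
      have := J.mul_mem_left (C c) (hJ a (rep (wt a)) (hrep a).symm)
      simpa [mul_sub, C_mul_monomial] using this
    | add p q hp hq =>
      have := J.add_mem hp hq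
      rw [map_add, map_add]
      convert this using 1
      ring
  have := key g
  rwa [hg, map_zero, sub_zero] at this

noncomputable def mono (s : Multiset Y) : MvPolynomial Y ℂ := monomial (Multiset.toFinsupp s) 1

theorem mono_add (s t : Multiset Y) : mono (s + t) = mono s * mono t := by
  simp [mono, monomial_mul]

theorem toM_wt (a : Y →₀ ℕ) : Finsupp.toMultiset (wt a) = tok (Finsupp.toMultiset a) := by
  simp only [wt, outd, ind, tok, tails, heads, map_add, Finsupp.toMultiset_map]

theorem binom_mem (J : Ideal (MvPolynomial Y ℂ))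
    (hJ : ∀ a b : Multiset Y, a.card ≤ 10 → tok a = tok b → mono a - mono b ∈ J) :
    ∀ (k : ℕ) (a b : Multiset Y), b.card = k → tok a = tok b → mono a - mono b ∈ J := by
  intro k
  induction k with
  | zero =>
    intro a b hb h
    have := congrArg Multiset.card h
    rw [card_tok, card_tok] at this
    exact hJ a b (by omega) h
  | succ k ih =>
    intro a b hb h
    obtain ⟨e, he⟩ := Multiset.card_pos_iff_exists_mem.mp (show 0 < b.card by omega)
    obtain ⟨b', rfl⟩ := Multiset.exists_cons_of_mem he
    obtain ⟨a0, hle, hc, c, hc2⟩ := localMove a b' e h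
    obtain ⟨r, rfl⟩ := Multiset.le_iff_exists_add.mp hle
    have h1 := J.mul_mem_right (mono r) (hJ a0 _ hc hc2)
    have h2 : tok (c + r) = tok b' := by
      rw [tok_add, hc2, tok_cons, tok_cons] at h
      rw [tok_add]
      simpa using h
    have h3 := J.mul_mem_left (mono {e}) (ih (c + r) b' (by simpa using hb) h2)
    have := J.add_mem h1 h3
    rw [← Multiset.singleton_add e b', mono_add, mono_add]
    rw [← Multiset.singleton_add e c, mono_add, mono_add] at this
    convert this using 1
    ring

theorem exists_perm (N : ℕ) (S : Finset ℕ) (hS : S.card ≤ N) :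
    ∃ τ : Equiv.Perm ℕ, {n | τ n ≠ n}.Finite ∧ ∀ s ∈ S, τ s < N := by
  classical
  induction S using Finset.induction_on with
  | empty => exact ⟨1, by simp, by simp⟩
  | insert v S hv ih =>
    rw [Finset.card_insert_of_notMem hv] at hS
    obtain ⟨τ, h1, h2⟩ := ih (by omega)
    obtain ⟨u, hu1, hu2⟩ := Finset.exists_mem_notMem_of_card_lt_card
      (s := S.image τ) (t := Finset.range N)
      (by rw [Finset.card_range]; exact Finset.card_image_le.trans_lt (by omega))
    refine ⟨Equiv.swap (τ v) u * τ, ?_, ?_⟩
    · refine ((h1.insert (τ v)).insert u).subset fun n hn => ?_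
      by_contra hh
      simp only [Set.mem_insert_iff, Set.mem_ofPred_eq, not_or, not_not] at hh
      apply hn
      rw [Equiv.Perm.mul_apply, hh.2.2, Equiv.swap_apply_of_ne_of_ne hh.2.1 hh.1]
    · intro s hs
      rw [Equiv.Perm.mul_apply]
      rcases Finset.mem_insert.mp hs with rfl | hs
      · rw [Equiv.swap_apply_left]; exact Finset.mem_range.mp hu1
      · rw [Equiv.swap_apply_of_ne_of_ne]
        · exact h2 s hs
        · intro e; exact hv (τ.injective e ▸ hs)
        · intro e; exact hu2 (Finset.mem_image.mpr ⟨s, hs, e⟩)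

theorem tok_act (ρ : ℕ → ℕ) (h : Function.Injective ρ) (s : Multiset Y) :
    tok (s.map (act ρ h)) = (tok s).map ρ := by
  simp only [tok, tails, heads, Multiset.map_add, Multiset.map_map]
  rfl

theorem mono_act (ρ : ℕ → ℕ) (h : Function.Injective ρ) (s : Multiset Y) :
    rename (act ρ h) (mono s) = mono (s.map (act ρ h)) := by
  have : (Multiset.toFinsupp s).mapDomain (act ρ h) = Multiset.toFinsupp (s.map (act ρ h)) := by
    apply (Multiset.toFinsupp (α := _)).symm.injective; simp only [Multiset.toFinsupp_symm_apply]
    rw [← Finsupp.toMultiset_map]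
    simp
  simp only [mono, rename_monomial, this]

theorem finGen : FinGenSym (RingHom.ker (phi f0)) := by
  classical
  let E : Finset Y := (Finset.range 30 ×ˢ Finset.range 30).subtype _
  let M : Multiset Y := 10 • E.val
  have hfin : ((fun p : Multiset Y × Multiset Y => mono p.1 - mono p.2) ''
      {p ∈ Set.Iic M ×ˢ Set.Iic M | tok p.1 = tok p.2}).Finite :=
    (((Set.finite_Iic M).prod (Set.finite_Iic M)).subset fun _ h => h.1).image _
  have hker : ∀ a b : Multiset Y, tok a = tok b → phi f0 (mono a - mono b) = 0 := by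
    intro a b h
    have : wt (Multiset.toFinsupp a) = wt (Multiset.toFinsupp b) := by
      apply (Multiset.toFinsupp (α := _)).symm.injective; simp only [Multiset.toFinsupp_symm_apply]
      rw [toM_wt, toM_wt]; simpa using h
    rw [map_sub, mono, mono, phi_mono, phi_mono, this, sub_self]
  refine ⟨hfin.toFinset, le_antisymm ?_ ?_⟩
  · intro g hg
    refine ker_le _ (fun a b hab => ?_) g hg
    have := binom_mem (Ideal.span {q | ∃ σ : Equiv.Perm ℕ, {n | σ n ≠ n}.Finite ∧
        ∃ g ∈ hfin.toFinset, q = rename (act σ σ.injective) g}) (fun a b hc hab => by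
      have hcb : b.card ≤ 10 := by
        have := congrArg Multiset.card hab
        rw [card_tok, card_tok] at this
        omega
      obtain ⟨τ, h1, h2⟩ := exists_perm 30 (tok a).toFinset
        ((Multiset.toFinset_card_le _).trans (by rw [card_tok]; omega))
      have hM : ∀ s : Multiset Y, s.card ≤ 10 → tok s = tok a → s.map (act τ τ.injective) ≤ M := by
        intro s hs hsa
        rw [Multiset.le_iff_count]
        intro p
        by_cases hp : p ∈ s.map (act τ τ.injective)
        · obtain ⟨p', hp', rfl⟩ := Multiset.mem_map.mp hp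
          have hE : act τ τ.injective p' ∈ E := by
            simp only [E, Finset.mem_subtype, Finset.mem_product, Finset.mem_range, act]
            constructor
            · apply h2
              rw [← hsa, Multiset.mem_toFinset]
              simp only [tok, tails, Multiset.mem_add, Multiset.mem_map]
              exact Or.inl (Or.inl ⟨p', hp', rfl⟩)
            · apply h2
              rw [← hsa, Multiset.mem_toFinset]
              simp only [tok, heads, Multiset.mem_add, Multiset.mem_map]
              exact Or.inr ⟨p', hp', rfl⟩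
          rw [Multiset.count_nsmul, Multiset.count_eq_one_of_mem E.nodup hE]
          exact (Multiset.count_le_card _ _).trans (by simpa using hs)
        · rw [Multiset.count_eq_zero_of_notMem hp]; exact Nat.zero_le _
      refine Ideal.subset_span ⟨τ⁻¹, ?_, mono (a.map (act τ τ.injective)) -
        mono (b.map (act τ τ.injective)), ?_, ?_⟩
      · refine h1.subset fun n hn => ?_
        intro e
        apply hn
        rw [Equiv.Perm.inv_eq_iff_eq, e]
      · rw [Set.Finite.mem_toFinset]
        exact ⟨(a.map (act τ τ.injective), b.map (act τ τ.injective)),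
          ⟨⟨hM a hc rfl, hM b hcb hab.symm⟩, by simp only [tok_act, hab]⟩, rfl⟩
      · have : ∀ s : Multiset Y, (s.map (act τ τ.injective)).map (act (τ⁻¹ : Equiv.Perm ℕ) (τ⁻¹).injective) = s := by
          intro s
          rw [Multiset.map_map]
          conv_rhs => rw [← Multiset.map_id s]
          refine Multiset.map_congr rfl fun p _ => ?_
          simp [act]
        rw [map_sub, mono_act, mono_act, this, this])
      _ (Finsupp.toMultiset a) (Finsupp.toMultiset b) rfl (by rw [← toM_wt, ← toM_wt, hab])
    simpa [mono] using this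
  · rw [Ideal.span_le]
    rintro _ ⟨σ, -, g, hg, rfl⟩
    rw [Set.Finite.mem_toFinset] at hg
    obtain ⟨p, hp, rfl⟩ := hg
    change phi f0 _ = 0
    rw [phi_act, hker _ _ hp.2, map_zero]

end Pool.Agent.H33.Egb
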