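import Mathlib

set_option autoImplicit false

namespace Pool.Agent.H33.Incl

/-- An identical inclusion: a word u and a set V of words over the alphabet ℕ. -/
abbrev Inc := FreeSemigroup ℕ × Set (FreeSemigroup ℕ)

/-- S satisfies the inclusion: under every assignment, u takes the value of some v in V. -/
def Sat (S : Semigrp.{0}) (c : Inc) : Prop :=
  ∀ φ : ℕ → S, ∃ v ∈ c.2, FreeSemigroup.lift φ c.1 = FreeSemigroup.lift φ v

/-- the inclusive variety defined by a set of inclusions -/
def Models (T : Set Inc) : Set Semigrp.{0} := {S | ∀ c ∈ T, Sat S c}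

/-- the inclusive variety generated by S -/
def Gen (S : Semigrp.{0}) : Set Semigrp.{0} := Models {c | Sat S c}

end Pool.Agent.H33.Incl
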