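import Mathlib
import Pool.Agent.H33.InclDefs

namespace Pool.Agent.H33.Incl

inductive MulSym : ℕ → Type
  | mul : MulSym 2

/-- The first-order language with one binary operation. -/
def Lm : FirstOrder.Language.{0, 0} := { Functions := MulSym, Relations := fun _ => Empty }

/-- A semigroup as a structure for `Lm`. -/
@[reducible] def strOf (S : Semigrp.{0}) : Lm.Structure S where
  funMap := fun {n} (f : MulSym n) x => match n, f, x with
    | _, MulSym.mul, x => x 0 * x 1
  RelMap := fun r _ => Empty.elim r

/-- A class of semigroups is elementary if it consists of the semigroups that are models of some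
set of first-order sentences. -/
def Elementary (K : Set Semigrp.{0}) : Prop :=
  ∃ T : Lm.Theory, ∀ S : Semigrp.{0}, S ∈ K ↔ @FirstOrder.Language.Theory.Model Lm S (strOf S) T

end Pool.Agent.H33.Incl
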