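import Mathlib

set_option autoImplicit false

namespace Pool.Agent.H33.EllOne

/-- causal matrix sequences -/
abbrev Seq (p q : ℕ) : Type := ℕ → Matrix (Fin p) (Fin q) ℝ

/-- entrywise absolutely summable -/
def IsL1 {p q : ℕ} (X : Seq p q) : Prop := ∀ i j, Summable fun k => |X k i j|

/-- convolution product -/
def conv {p q r : ℕ} (X : Seq p q) (Y : Seq q r) : Seq p r :=
  fun k => ∑ t ∈ Finset.range (k + 1), X t * Y (k - t)

/-- the induced norm: maximal row sum of the entrywise l1 norms -/
noncomputable def nrm {p q : ℕ} (X : Seq p q) : ℝ := ⨆ i, ∑ j, ∑' k, |X k i j|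

/-- every entry of the transform is a quotient of two real polynomials -/
def IsRat {p q : ℕ} (X : Seq p q) : Prop :=
  ∀ i j, ∃ P D : Polynomial ℝ, D ≠ 0 ∧
    (D : PowerSeries ℝ) * PowerSeries.mk (fun k => X k i j) = (P : PowerSeries ℝ)

/-- normal rank: rank of the transform over the fraction field -/
noncomputable def nrank {p q : ℕ} (X : Seq p q) : ℕ :=
  Matrix.rank (Matrix.of fun i j =>
    algebraMap (PowerSeries ℝ) (FractionRing (PowerSeries ℝ)) (PowerSeries.mk fun k => X k i j))

/-- Q attains the infimum of the norm of H - U Q V over l1 -/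
def IsOptimal {nz nw nu ny : ℕ} (H : Seq nz nw) (U : Seq nz nu) (V : Seq ny nw) (Q : Seq nu ny) :
    Prop :=
  IsL1 Q ∧ ∀ Q' : Seq nu ny, IsL1 Q' →
    nrm (H - conv (conv U Q) V) ≤ nrm (H - conv (conv U Q') V)

end Pool.Agent.H33.EllOne
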