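import Mathlib

namespace Pool.Agent.H33

/-- Additive energy of the first `N` terms `a 0, …, a (N-1)`. -/
def energyN (a : ℕ → ℕ) (N : ℕ) : ℕ :=
  ((Finset.range N ×ˢ Finset.range N ×ˢ Finset.range N ×ˢ Finset.range N).filter
    (fun q => a q.1 + a q.2.1 = a q.2.2.1 + a q.2.2.2)).card

end Pool.Agent.H33
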