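import Mathlib

namespace Pool.Agent.H33.Evil

/-- Short partizan games: finite trees with finitely many Left options and Right options. -/
inductive Game : Type
  | mk (m n : ℕ) (L : Fin m → Game) (R : Fin n → Game) : Game

namespace Game

/-- Options of a player (`true` is Left, `false` is Right). -/
def opts : Bool → Game → List Game
  | true, mk _ _ L _ => List.ofFn L
  | false, mk _ _ _ R => List.ofFn R

/-- Number of nodes of the game tree (used only for termination). -/
def size : Game → ℕ
  | mk _ _ L R => 1 + ∑ i, size (L i) + ∑ j, size (R j)

theorem size_L {m n : ℕ} (L : Fin m → Game) (R : Fin n → Game) (i : Fin m) :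
    size (L i) < size (mk m n L R) := by
  have := Finset.single_le_sum (f := fun i => size (L i)) (fun _ _ => Nat.zero_le _)
    (Finset.mem_univ i)
  simp only [size]; omega

theorem size_R {m n : ℕ} (L : Fin m → Game) (R : Fin n → Game) (j : Fin n) :
    size (R j) < size (mk m n L R) := by
  have := Finset.single_le_sum (f := fun j => size (R j)) (fun _ _ => Nat.zero_le _)
    (Finset.mem_univ j)
  simp only [size]; omega

theorem size_lt {p : Bool} {x G : Game} (h : x ∈ opts p G) : size x < size G := by
  cases G with
  | mk m n L R =>
    cases p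
    · obtain ⟨j, rfl⟩ := List.mem_ofFn.1 h
      exact size_R L R j
    · obtain ⟨i, rfl⟩ := List.mem_ofFn.1 h
      exact size_L L R i

/-- Disjunctive sum. -/
def add : Game → Game → Game
  | mk m n L R, mk m' n' L' R' =>
    mk (m + m') (n + n')
      (Fin.append (fun i => add (L i) (mk m' n' L' R')) (fun i => add (mk m n L R) (L' i)))
      (Fin.append (fun j => add (R j) (mk m' n' L' R')) (fun j => add (mk m n L R) (R' j)))
termination_by G H => size G + size H
decreasing_by
  · have := size_L L R i; omega
  · have := size_L L' R' i; omega
  · have := size_R L R j; omega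
  · have := size_R L' R' j; omega

def zero : Game := mk 0 0 Fin.elim0 Fin.elim0
def star : Game := mk 1 1 (fun _ => zero) (fun _ => zero)

/-- Player `p`, moving first in `G`, wins; `mis = true` is misere play (a player unable to move
wins), `mis = false` is normal play. -/
def Wins (mis : Bool) (p : Bool) (G : Game) : Prop :=
  (opts p G = [] ∧ mis = true) ∨ ∃ x, ∃ _h : x ∈ opts p G, ¬ Wins mis (!p) x
termination_by size G
decreasing_by exact size_lt _h

inductive Outcome : Type
  | L | R | N | P

open Classical in
noncomputable def outcome (mis : Bool) (G : Game) : Outcome :=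
  if Wins mis true G then (if Wins mis false G then Outcome.N else Outcome.L)
  else (if Wins mis false G then Outcome.R else Outcome.P)

/-- Normal-play outcome. -/
noncomputable def oPlus (G : Game) : Outcome := outcome false G
/-- Misere-play outcome. -/
noncomputable def oMinus (G : Game) : Outcome := outcome true G

/-- `Sub H G`: `H` is a subposition of `G`. -/
inductive Sub : Game → Game → Prop
  | refl (G : Game) : Sub G G
  | step {p : Bool} {x H G : Game} : x ∈ opts p H → Sub H G → Sub x G

def Dicotic (G : Game) : Prop := ∀ H, Sub H G → (opts true H = [] ↔ opts false H = [])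

def Closed (A : Set Game) : Prop :=
  (∀ G ∈ A, ∀ H ∈ A, add G H ∈ A) ∧ ∀ G ∈ A, ∀ H, Sub H G → H ∈ A

open Classical in
noncomputable def twin (K : Set Game) (G : Game) : Game := if G ∈ K then G else add G star

def EvilKernel (A K : Set Game) : Prop :=
  K ⊆ A ∧ ∀ G ∈ A, oPlus G = oMinus (twin K G) ∧ oMinus G = oPlus (twin K G)

def EvillyNormal (A K : Set Game) : Prop :=
  ∀ X ∈ A, ∀ Y ∈ A, (add X Y ∉ K ↔ X ∉ K ∧ Y ∉ K)

end Game

end Pool.Agent.H33.Evil
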