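import Mathlib

set_option autoImplicit false

namespace Pool.Agent.H33.FRec

open Filter Topology

/-- the set of frequently recurrent vectors -/
def FR {X : Type} [NormedAddCommGroup X] [NormedSpace ℝ X] (T : X →L[ℝ] X) : Set X :=
  {x : X | ∀ U ∈ nhds x, ∃ δ : ℝ, 0 < δ ∧ ∃ N : ℕ, ∀ n : ℕ, N ≤ n →
          δ * (n : ℝ) ≤ ((Set.ncard {k : ℕ | k < n ∧ (T ^ k) x ∈ U} : ℕ) : ℝ)}

lemma pow_mul_fix {X : Type} [NormedAddCommGroup X] [NormedSpace ℝ X] (T : X →L[ℝ] X)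
    (P : ℕ) (z : X) (h : (T ^ P) z = z) (q : ℕ) : (T ^ (P * q)) z = z := by
  induction q with
  | zero => simp
  | succ q ih => rw [Nat.mul_succ, pow_add, ContinuousLinearMap.mul_apply, h, ih]

theorem residual_FR {X : Type} [NormedAddCommGroup X] [NormedSpace ℝ X] (T : X →L[ℝ] X)
    (C : ℝ) (hC0 : 0 < C)
    (hC : ∀ (N : ℕ) (x : X), ∑ n ∈ Finset.range N, ‖(T ^ n) x‖ ≤ C * N * ‖x‖)
    (hd : Dense {z : X | ∃ P : ℕ, 0 < P ∧ (T ^ P) z = z}) : FR T ∈ residual X := by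
  classical
  let G : ℕ → Set X := fun m => {x | ∃ z : X, ∃ P : ℕ, 0 < P ∧ (T ^ P) z = z ∧
    (P : ℝ) * ‖x - z‖ < 1 / ((m : ℝ) + 1)}
  have hGo : ∀ m, IsOpen (G m) := by
    intro m
    have : G m = ⋃ z : X, ⋃ P : ℕ, ⋃ _ : (0 < P ∧ (T ^ P) z = z),
        {x | (P : ℝ) * ‖x - z‖ < 1 / ((m : ℝ) + 1)} := by
      ext x; simp only [G, Set.mem_setOf_eq, Set.mem_iUnion]
      constructor
      · rintro ⟨z, P, h1, h2, h3⟩; exact ⟨z, P, ⟨h1, h2⟩, h3⟩
      · rintro ⟨z, P, ⟨h1, h2⟩, h3⟩; exact ⟨z, P, h1, h2, h3⟩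
    rw [this]
    refine isOpen_iUnion fun z => isOpen_iUnion fun P => isOpen_iUnion fun _ => ?_
    exact isOpen_lt (by fun_prop) continuous_const
  have hGd : ∀ m, Dense (G m) := by
    intro m
    refine hd.mono ?_
    rintro z ⟨P, h1, h2⟩
    refine ⟨z, P, h1, h2, ?_⟩
    simp only [sub_self, norm_zero, mul_zero]
    positivity
  have hres : (⋂ m, G m) ∈ residual X :=
    countable_iInter_mem.2 fun m => residual_of_dense_open (hGo m) (hGd m)
  refine mem_of_superset hres ?_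
  intro x hx U hU
  obtain ⟨ε, hε, hball⟩ := Metric.mem_nhds_iff.1 hU
  obtain ⟨m, hm⟩ := exists_nat_one_div_lt (show 0 < ε / (8 * (C + 1)) by positivity)
  obtain ⟨z, P, hP, hz, hr⟩ := Set.mem_iInter.1 hx m
  set r := x - z with hrdef
  have hP1 : (1 : ℝ) ≤ P := by exact_mod_cast hP
  have hr1 : (P : ℝ) * ‖r‖ < ε / (8 * (C + 1)) := hr.trans hm
  have hr2 : (P : ℝ) * ‖r‖ * (8 * (C + 1)) < ε := by
    rwa [lt_div_iff₀ (by positivity)] at hr1
  have hrn : 0 ≤ ‖r‖ := norm_nonneg r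
  have hr3 : ‖r‖ < ε / 2 := by
    have : ‖r‖ * 1 * 2 ≤ (P : ℝ) * ‖r‖ * (8 * (C + 1)) := by
      have h1 : ‖r‖ * 1 ≤ (P : ℝ) * ‖r‖ := by nlinarith
      have h2 : (2 : ℝ) ≤ 8 * (C + 1) := by linarith
      exact mul_le_mul h1 h2 (by norm_num) (by positivity)
    linarith
  refine ⟨1 / (2 * P), by positivity, 4 * P, fun n hn => ?_⟩
  let M : Finset ℕ := (Finset.range (n / P)).image (fun q => P * q)
  let B : Finset ℕ := (Finset.range n).filter (fun k => ε / 2 ≤ ‖(T ^ k) r‖)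
  have hM : M.card = n / P := by
    rw [Finset.card_image_of_injective _ (fun a b h => Nat.eq_of_mul_eq_mul_left hP h)]
    simp
  have hB : (B.card : ℝ) * (ε / 2) ≤ C * n * ‖r‖ := by
    calc (B.card : ℝ) * (ε / 2) = ∑ k ∈ B, ε / 2 := by simp
      _ ≤ ∑ k ∈ B, ‖(T ^ k) r‖ := Finset.sum_le_sum fun k hk => (Finset.mem_filter.1 hk).2
      _ ≤ ∑ k ∈ Finset.range n, ‖(T ^ k) r‖ :=
        Finset.sum_le_sum_of_subset_of_nonneg (Finset.filter_subset _ _) (fun _ _ _ => norm_nonneg _)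
      _ ≤ _ := hC n r
  have hsub : ((M \ B : Finset ℕ) : Set ℕ) ⊆ {k : ℕ | k < n ∧ (T ^ k) x ∈ U} := by
    intro k hk
    rw [Finset.mem_coe, Finset.mem_sdiff] at hk
    obtain ⟨hk1, hk2⟩ := hk
    obtain ⟨q, hq, rfl⟩ := Finset.mem_image.1 hk1
    have hq' : q < n / P := Finset.mem_range.1 hq
    have hlt : P * q < n := by
      have h1 : P * (n / P) ≤ n := Nat.mul_div_le n P
      have h2 : P * q < P * (n / P) := Nat.mul_lt_mul_of_pos_left hq' hP
      omega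
    refine ⟨hlt, hball ?_⟩
    have hk3 : ‖(T ^ (P * q)) r‖ < ε / 2 := by
      by_contra hcon
      exact hk2 (Finset.mem_filter.2 ⟨Finset.mem_range.2 hlt, not_lt.1 hcon⟩)
    rw [Metric.mem_ball, dist_eq_norm]
    have hx' : x = z + r := by rw [hrdef]; abel
    have : (T ^ (P * q)) x - x = (T ^ (P * q)) r - r := by
      conv_lhs => rw [hx']
      rw [map_add, pow_mul_fix T P z hz q]; abel
    rw [this]
    calc _ ≤ ‖(T ^ (P * q)) r‖ + ‖r‖ := norm_sub_le _ _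
      _ < ε := by linarith
  have hfin : {k : ℕ | k < n ∧ (T ^ k) x ∈ U}.Finite :=
    (Set.finite_lt_nat n).subset fun k hk => hk.1
  have h1 : (M \ B).card ≤ Set.ncard {k : ℕ | k < n ∧ (T ^ k) x ∈ U} := by
    rw [← Set.ncard_coe_finset]; exact Set.ncard_le_ncard hsub hfin
  have h2 : M.card ≤ (M \ B).card + B.card := Finset.card_le_card_sdiff_add_card
  have h3 : (n : ℝ) < P * ((n / P : ℕ) + 1) := by
    have := Nat.lt_mul_div_succ n hP
    exact_mod_cast this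
  have h1' : ((M \ B).card : ℝ) ≤ (Set.ncard {k : ℕ | k < n ∧ (T ^ k) x ∈ U} : ℕ) := by
    exact_mod_cast h1
  have h2' : ((n / P : ℕ) : ℝ) ≤ (M \ B).card + B.card := by
    rw [← hM]; exact_mod_cast h2
  have hn' : (4 * P : ℝ) ≤ n := by exact_mod_cast hn
  have hn0 : (0 : ℝ) ≤ n := by positivity
  have h4 : (B.card : ℝ) * P * 4 ≤ n := by
    have e1 : (B.card : ℝ) * (ε / 2) * (P * 8) ≤ C * n * ‖r‖ * (P * 8) :=
      mul_le_mul_of_nonneg_right hB (by positivity)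
    have e2 : C * n * ‖r‖ * (P * 8) ≤ n * ε := by
      have : C * n * ‖r‖ * (P * 8) ≤ n * ((P : ℝ) * ‖r‖ * (8 * (C + 1))) := by
        have : 0 ≤ (n : ℝ) * (P * ‖r‖) := by positivity
        nlinarith
      have h5 : n * ((P : ℝ) * ‖r‖ * (8 * (C + 1))) ≤ n * ε :=
        mul_le_mul_of_nonneg_left hr2.le hn0
      linarith
    have e3 : ((B.card : ℝ) * P * 4) * ε ≤ n * ε := by nlinarith
    exact le_of_mul_le_mul_right e3 hε
  refine le_trans ?_ h1'
  rw [div_mul_eq_mul_div, one_mul, div_le_iff₀ (by positivity)]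
  have hPpos : (0 : ℝ) < P := by linarith
  have h6 : (P : ℝ) * ((n / P : ℕ) : ℝ) ≤ P * ((M \ B).card + B.card) :=
    mul_le_mul_of_nonneg_left h2' hPpos.le
  nlinarith

end Pool.Agent.H33.FRec
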