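import Pool.Agent.H33.FRec

set_option autoImplicit false

namespace Pool.Agent.H33.FRec

open Filter Topology

abbrev L1 (ι : Type) := lp (fun _ : ι => ℝ) 1

lemma hasSum_L1 {ι : Type} (a : L1 ι) : HasSum (fun i => |a i|) ‖a‖ := by
  have := lp.hasSum_norm (p := 1) (by simp) a
  simpa using this

lemma mem_L1 {ι : Type} (f : ι → ℝ) (h : Summable fun i => |f i|) :
    Memℓp (E := fun _ : ι => ℝ) f 1 := by
  apply memℓp_gen
  simpa using h

section gen
variable {ι : Type} (σ : Equiv.Perm ι) (ν : ι → ℝ) (hν : ∀ i, 0 < ν i) (K : ℝ)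
  (hK : ∀ i, ν i ≤ K * ν (σ i))

include hν hK in
lemma wbound (a : L1 ι) (i : ι) : |ν i / ν (σ i) * a (σ i)| ≤ K * |a (σ i)| := by
  rw [abs_mul, abs_of_pos (div_pos (hν _) (hν _))]
  refine mul_le_mul_of_nonneg_right ?_ (abs_nonneg _)
  rw [div_le_iff₀ (hν _)]; exact hK i

include hν hK in
lemma wsum (a : L1 ι) : Summable fun i => |ν i / ν (σ i) * a (σ i)| := by
  refine Summable.of_nonneg_of_le (fun _ => abs_nonneg _) (wbound σ ν hν K hK a) ?_
  refine Summable.mul_left K ?_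
  exact (σ.summable_iff (f := fun i => |a i|)).2 (hasSum_L1 a).summable

noncomputable def Tlin : L1 ι →ₗ[ℝ] L1 ι where
  toFun a := ⟨fun i => ν i / ν (σ i) * a (σ i), mem_L1 _ (wsum σ ν hν K hK a)⟩
  map_add' a b := by
    ext i
    simp only [lp.coeFn_add, Pi.add_apply]
    ring
  map_smul' c a := by
    ext i
    simp only [lp.coeFn_smul, Pi.smul_apply, smul_eq_mul, RingHom.id_apply]
    ring

noncomputable def Top : L1 ι →L[ℝ] L1 ι :=
  (Tlin σ ν hν K hK).mkContinuous K (by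
    intro a
    have h1 := hasSum_L1 (Tlin σ ν hν K hK a)
    have h2 : HasSum (fun i => K * |a (σ i)|) (K * ‖a‖) :=
      HasSum.mul_left K ((σ.hasSum_iff (f := fun i => |a i|)).2 (hasSum_L1 a))
    exact hasSum_le (wbound σ ν hν K hK a) h1 h2)

lemma Top_apply (a : L1 ι) (i : ι) : Top σ ν hν K hK a i = ν i / ν (σ i) * a (σ i) := rfl

lemma Top_pow (n : ℕ) (a : L1 ι) (i : ι) :
    ((Top σ ν hν K hK) ^ n) a i = ν i / ν ((σ ^ n) i) * a ((σ ^ n) i) := by
  induction n generalizing i with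
  | zero => simp [div_self (hν i).ne']
  | succ n ih =>
    rw [pow_succ', ContinuousLinearMap.mul_apply, Top_apply, ih, pow_succ, Equiv.Perm.mul_apply]
    have := (hν (σ i)).ne'
    field_simp

lemma Top_cesaro (C : ℝ)
    (hC : ∀ (N : ℕ) (i : ι), ∑ n ∈ Finset.range N, ν ((σ ^ n).symm i) ≤ C * N * ν i)
    (N : ℕ) (a : L1 ι) :
    ∑ n ∈ Finset.range N, ‖((Top σ ν hν K hK) ^ n) a‖ ≤ C * N * ‖a‖ := by
  have h1 : ∀ n : ℕ, HasSum (fun i => ν ((σ ^ n).symm i) / ν i * |a i|)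
      ‖((Top σ ν hν K hK) ^ n) a‖ := by
    intro n
    have := hasSum_L1 (((Top σ ν hν K hK) ^ n) a)
    rw [← (σ ^ n).hasSum_iff]
    have e : (fun i => |((Top σ ν hν K hK) ^ n) a i|) =
        (fun i => ν ((σ ^ n).symm i) / ν i * |a i|) ∘ (σ ^ n) := by
      funext i
      simp only [Function.comp, Equiv.symm_apply_apply]
      rw [Top_pow, abs_mul, abs_of_pos (div_pos (hν _) (hν _))]
    rwa [e] at this
  have h2 := hasSum_sum (s := Finset.range N) (fun n _ => h1 n)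
  refine hasSum_le ?_ h2 ((hasSum_L1 a).mul_left (C * N))
  intro i
  rw [← Finset.sum_mul, ← Finset.sum_div]
  refine mul_le_mul_of_nonneg_right ?_ (abs_nonneg _)
  rw [div_le_iff₀ (hν _)]
  exact hC N i

lemma Top_dense [DecidableEq ι] (hper : ∀ i, ∃ P : ℕ, 0 < P ∧ (σ ^ P) i = i) :
    Dense {z : L1 ι | ∃ P : ℕ, 0 < P ∧ ((Top σ ν hν K hK) ^ P) z = z} := by
  intro x
  have hs := lp.hasSum_single (p := 1) (by simp) x
  refine mem_closure_of_tendsto hs (Eventually.of_forall fun s => ?_)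
  induction s using Finset.induction_on with
  | empty => exact ⟨1, one_pos, by simp⟩
  | insert i s hi ih =>
    obtain ⟨P, hP, h⟩ := ih
    obtain ⟨Q, hQ, hq⟩ := hper i
    refine ⟨P * Q, Nat.mul_pos hP hQ, ?_⟩
    rw [Finset.sum_insert hi, map_add, pow_mul_fix _ P _ h Q, mul_comm P Q, pow_mul_fix _ Q]
    ext k
    rw [Top_pow]
    by_cases hk : k = i
    · subst hk
      rw [hq, div_self (hν _).ne', one_mul]
    · have : (σ ^ Q) k ≠ i := by
        intro h'
        exact hk ((σ ^ Q).injective (h'.trans hq.symm))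
      rw [lp.single_apply_ne _ _ _ hk, lp.single_apply_ne _ _ _ this, mul_zero]

end gen

abbrev Idx := Σ j : ℕ, ZMod (2 ^ (j + 1))

def sig : Equiv.Perm Idx := Equiv.sigmaCongrRight (fun j => Equiv.addRight (1 : ZMod (2 ^ (j + 1))))

lemma sig_pow (n j : ℕ) (s : ZMod (2 ^ (j + 1))) : (sig ^ n) ⟨j, s⟩ = ⟨j, s + n⟩ := by
  induction n with
  | zero => simp
  | succ n ih =>
    rw [pow_succ', Equiv.Perm.mul_apply, ih]
    simp [sig, add_assoc]

lemma sig_pow_symm (n j : ℕ) (s : ZMod (2 ^ (j + 1))) : (sig ^ n).symm ⟨j, s⟩ = ⟨j, s - n⟩ := by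
  rw [Equiv.symm_apply_eq, sig_pow]; simp

noncomputable def nu (i : Idx) : ℝ := 1 / √((i.2.val : ℝ) + 1)

lemma nu_pos (i : Idx) : 0 < nu i := by
  unfold nu
  have : (0 : ℝ) < √((i.2.val : ℝ) + 1) := Real.sqrt_pos.2 (by positivity)
  positivity

lemma val_pred {p : ℕ} [NeZero p] (s : ZMod p) :
    (s.val = 0 ∧ (s - 1).val + 1 = p) ∨ (s - 1).val + 1 = s.val := by
  have h1 : ((s - 1) + 1 : ZMod p) = s := by ring
  have h2 : ((s - 1).val + 1) % p = s.val := by
    conv_rhs => rw [← h1]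
    rw [ZMod.val_add, ZMod.val_one_eq_one_mod]
    simp
  have h3 := ZMod.val_lt (s - 1)
  rcases Nat.lt_or_ge ((s - 1).val + 1) p with h | h
  · right; rwa [Nat.mod_eq_of_lt h] at h2
  · left
    have : (s - 1).val + 1 = p := by omega
    rw [this, Nat.mod_self] at h2
    exact ⟨h2.symm, this⟩

lemma nu_step (i : Idx) : nu i ≤ 2 * nu (sig i) := by
  obtain ⟨j, s⟩ := i
  have h := sig_pow 1 j s
  rw [pow_one] at h
  rw [h]
  unfold nu
  simp only [Nat.cast_one]
  have h2 := val_pred (s + 1)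
  rw [add_sub_cancel_right] at h2
  have h3 : (((s + 1).val : ℝ) + 1) ≤ 4 * ((s.val : ℝ) + 1) := by
    have : (s + 1).val + 1 ≤ 4 * (s.val + 1) := by omega
    exact_mod_cast this
  have h4 : √(((s + 1).val : ℝ) + 1) ≤ 2 * √((s.val : ℝ) + 1) := by
    have := Real.sqrt_le_sqrt h3
    rw [Real.sqrt_mul (by norm_num), show √(4 : ℝ) = 2 by
      rw [show (4 : ℝ) = 2 ^ 2 by norm_num, Real.sqrt_sq (by norm_num)]] at this
    exact this
  have p1 : (0 : ℝ) < √((s.val : ℝ) + 1) := Real.sqrt_pos.2 (by positivity)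
  have p2 : (0 : ℝ) < √(((s + 1).val : ℝ) + 1) := Real.sqrt_pos.2 (by positivity)
  rw [mul_one_div, div_le_div_iff₀ p1 p2]
  linarith

lemma inv_sqrt_le (a : ℝ) (ha : 0 ≤ a) : 1 / √(a + 1) ≤ 2 * (√(a + 1) - √a) := by
  have p1 : (0 : ℝ) < √(a + 1) := Real.sqrt_pos.2 (by positivity)
  have e1 : √(a + 1) ^ 2 = a + 1 := Real.sq_sqrt (by positivity)
  have e2 : √a ^ 2 = a := Real.sq_sqrt ha
  rw [div_le_iff₀ p1]
  nlinarith [sq_nonneg (√(a + 1) - √a)]

lemma ces_aux {p : ℕ} [NeZero p] (s : ZMod p) (N : ℕ) :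
    ∑ n ∈ Finset.range N, 1 / √(((s - n).val : ℝ) + 1) ≤
      2 * (√((s.val : ℝ) + 1) - √(((s - N).val : ℝ) + 1)) +
        2 * ((N : ℝ) - s.val + (s - N).val) / √(p : ℝ) ∧
    ((s - N).val + N = s.val ∨ s.val + 1 ≤ N) := by
  have hp : (0 : ℝ) < p := by exact_mod_cast Nat.pos_of_ne_zero (NeZero.ne p)
  have hsp : (0 : ℝ) < √(p : ℝ) := Real.sqrt_pos.2 hp
  induction N with
  | zero => simp
  | succ N ih =>
    obtain ⟨ih1, ih2⟩ := ih
    rw [Finset.sum_range_succ]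
    have e : s - ((N + 1 : ℕ) : ZMod p) = (s - (N : ZMod p)) - 1 := by push_cast; ring
    rw [e]
    rcases val_pred (s - (N : ZMod p)) with ⟨h0, h1⟩ | h1
    · refine ⟨?_, by omega⟩
      have h1' : (((s - N - 1).val : ℝ) + 1) = p := by exact_mod_cast h1
      have h2 : ((s - N - 1).val : ℝ) = p - 1 := by linarith
      rw [h0] at ih1 ⊢
      rw [h1', h2]
      simp only [Nat.cast_zero, zero_add, Real.sqrt_one, add_zero] at ih1 ⊢
      have e3 : 2 * (((N + 1 : ℕ) : ℝ) - s.val + (p - 1)) / √(p : ℝ) =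
          2 * ((N : ℝ) - s.val) / √(p : ℝ) + 2 * √(p : ℝ) := by
        have e1 : √(p : ℝ) ^ 2 = p := Real.sq_sqrt hp.le
        field_simp
        push_cast
        nlinarith
      rw [e3]
      linarith
    · refine ⟨?_, by omega⟩
      have h1' : (((s - N - 1).val : ℝ) + 1) = (s - N).val := by exact_mod_cast h1
      have h2 : ((s - N - 1).val : ℝ) = (s - N).val - 1 := by linarith
      rw [h1', h2]
      have e3 : (((N + 1 : ℕ) : ℝ) - s.val + (((s - N).val : ℝ) - 1)) =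
          (N : ℝ) - s.val + (s - N).val := by push_cast; ring
      rw [e3]
      have := inv_sqrt_le ((s - N).val : ℝ) (by positivity)
      linarith

lemma ces_aux2 {p : ℕ} [NeZero p] (s : ZMod p) (N : ℕ) :
    ∑ n ∈ Finset.range N, 1 / √(((s - n).val : ℝ) + 1) ≤ 4 * N * (1 / √((s.val : ℝ) + 1)) := by
  obtain ⟨h1, h2⟩ := ces_aux s N
  refine h1.trans ?_
  have hp : (0 : ℝ) < p := by exact_mod_cast Nat.pos_of_ne_zero (NeZero.ne p)
  have hsp : (0 : ℝ) < √(p : ℝ) := Real.sqrt_pos.2 hp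
  have b1 : (s.val : ℝ) + 1 ≤ p := by exact_mod_cast ZMod.val_lt s
  have b2 : ((s - N).val : ℝ) + 1 ≤ p := by exact_mod_cast ZMod.val_lt (s - (N : ZMod p))
  set t : ℝ := (s.val : ℝ) + 1 with ht
  set u : ℝ := ((s - N).val : ℝ) + 1 with hu
  have ht0 : 0 < t := by positivity
  have hu0 : 0 < u := by positivity
  have p1 : 0 < √t := Real.sqrt_pos.2 ht0
  have p2 : 0 < √u := Real.sqrt_pos.2 hu0
  have e1 : √t ^ 2 = t := Real.sq_sqrt ht0.le
  have e2 : √u ^ 2 = u := Real.sq_sqrt hu0.le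
  have e3 : √(p : ℝ) ^ 2 = p := Real.sq_sqrt hp.le
  have c1 : √t ≤ √(p : ℝ) := Real.sqrt_le_sqrt b1
  have c2 : √u ≤ √(p : ℝ) := Real.sqrt_le_sqrt b2
  have e4 : (N : ℝ) - s.val + (s - N).val = N - t + u := by rw [ht, hu]; ring
  have hN : (0 : ℝ) ≤ N := by positivity
  rw [e4, mul_one_div, le_div_iff₀ p1]
  rcases h2 with h2 | h2
  · have h2' : u + N = t := by
      have : ((s - N).val : ℝ) + N = s.val := by exact_mod_cast h2
      rw [ht, hu]; linarith
    have : (N : ℝ) - t + u = 0 := by linarith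
    rw [this]
    simp only [mul_zero, zero_div, add_zero]
    have c3 : √u ≤ √t := Real.sqrt_le_sqrt (by linarith)
    nlinarith
  · have h2' : t ≤ N := by rw [ht]; exact_mod_cast h2
    have d1 : 2 * ((N : ℝ) - t + u) / √(p : ℝ) ≤ 2 * N / √t + 2 * √u := by
      have f1 : 2 * ((N : ℝ) - t + u) / √(p : ℝ) ≤ 2 * N / √(p : ℝ) + 2 * u / √(p : ℝ) := by
        rw [← add_div]
        exact div_le_div_of_nonneg_right (by linarith) hsp.le
      have f2 : 2 * (N : ℝ) / √(p : ℝ) ≤ 2 * N / √t :=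
        div_le_div_of_nonneg_left (by positivity) p1 c1
      have f3 : 2 * u / √(p : ℝ) ≤ 2 * √u := by
        rw [div_le_iff₀ hsp]; nlinarith
      linarith
    have d2 : (2 * (√t - √u) + 2 * ((N : ℝ) - t + u) / √(p : ℝ)) * √t ≤
        (2 * √t + 2 * N / √t) * √t := mul_le_mul_of_nonneg_right (by linarith) p1.le
    have d3 : (2 * √t + 2 * N / √t) * √t = 2 * t + 2 * N := by
      field_simp
      nlinarith
    linarith

lemma nu_ces (N : ℕ) (i : Idx) :
    ∑ n ∈ Finset.range N, nu ((sig ^ n).symm i) ≤ 4 * N * nu i := by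
  obtain ⟨j, s⟩ := i
  simp only [sig_pow_symm]
  simp only [nu]
  exact ces_aux2 s N

lemma sig_per (i : Idx) : ∃ P : ℕ, 0 < P ∧ (sig ^ P) i = i := by
  obtain ⟨j, s⟩ := i
  refine ⟨2 ^ (j + 1), by positivity, ?_⟩
  rw [sig_pow, ZMod.natCast_self, add_zero]

noncomputable def TT : L1 Idx →L[ℝ] L1 Idx := Top sig nu nu_pos 2 nu_step

theorem TT_residual : FR TT ∈ residual (L1 Idx) := by
  classical
  exact residual_FR TT 4 (by norm_num) (Top_cesaro sig nu nu_pos 2 nu_step 4 nu_ces)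
    (Top_dense sig nu nu_pos 2 nu_step sig_per)

noncomputable def yf (i : Idx) : ℝ := if i.2.val = 2 ^ i.1 then nu i else 0

lemma val_half (j : ℕ) : ((2 ^ j : ℕ) : ZMod (2 ^ (j + 1))).val = 2 ^ j := by
  rw [ZMod.val_natCast, Nat.mod_eq_of_lt]
  exact Nat.pow_lt_pow_right (by norm_num) (Nat.lt_succ_self j)

lemma yf_sum : Summable fun i => |yf i| := by
  let e : ℕ → Idx := fun j => ⟨j, ((2 ^ j : ℕ) : ZMod (2 ^ (j + 1)))⟩
  have he : Function.Injective e := fun a b h => congrArg Sigma.fst h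
  rw [← he.summable_iff]
  · have hs : Summable fun j : ℕ => (1 / √(2 : ℝ)) ^ j := by
      apply summable_geometric_of_lt_one (by positivity)
      rw [div_lt_one (by positivity)]
      exact Real.one_lt_sqrt_two
    refine Summable.of_nonneg_of_le (fun _ => abs_nonneg _) ?_ hs
    intro j
    simp only [Function.comp, yf, e, val_half, if_true]
    rw [abs_of_pos (nu_pos _)]
    simp only [nu, val_half]
    rw [one_div_pow]
    refine one_div_le_one_div_of_le (by positivity) ?_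
    apply Real.le_sqrt_of_sq_le
    rw [← pow_mul, mul_comm, pow_mul, Real.sq_sqrt (by norm_num)]
    push_cast
    linarith
  · rintro ⟨j, s⟩ hi
    have : s.val ≠ 2 ^ j := by
      intro h
      apply hi
      refine ⟨j, ?_⟩
      simp only [e]
      rw [← h, ZMod.natCast_zmod_val]
    simp [yf, this]

noncomputable def yv : L1 Idx := ⟨yf, mem_L1 _ yf_sum⟩

lemma yv_far (n : ℕ) (hn : 0 < n) : 1 ≤ ‖(TT ^ n) yv - yv‖ := by
  obtain ⟨a, m, hm, rfl⟩ := Nat.exists_eq_two_pow_mul_odd hn.ne'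
  refine le_trans ?_ (lp.norm_apply_le_norm one_ne_zero _ (⟨a, 0⟩ : Idx))
  have hc : ((2 ^ a * m : ℕ) : ZMod (2 ^ (a + 1))) = ((2 ^ a : ℕ) : ZMod (2 ^ (a + 1))) := by
    obtain ⟨k, rfl⟩ := hm
    have : 2 ^ a * (2 * k + 1) = 2 ^ (a + 1) * k + 2 ^ a := by ring
    rw [this, Nat.cast_add, Nat.cast_mul, ZMod.natCast_self, zero_mul, zero_add]
  have h1 : (TT ^ (2 ^ a * m)) yv ⟨a, 0⟩ = 1 := by
    unfold TT
    rw [Top_pow, sig_pow, zero_add, hc]
    change _ * yf _ = 1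
    simp only [yf, val_half, if_true]
    rw [div_mul_cancel₀ _ (nu_pos _).ne']
    simp [nu]
  have h2 : yv ⟨a, 0⟩ = 0 := by
    change yf _ = 0
    have : (0 : ℕ) ≠ 2 ^ a := by positivity
    simp [yf, this]
  rw [lp.coeFn_sub, Pi.sub_apply, h1, h2]
  simp

theorem yv_not : yv ∉ FR TT := by
  intro h
  obtain ⟨δ, hδ, N, hN⟩ := h (Metric.ball yv 1) (Metric.ball_mem_nhds _ one_pos)
  obtain ⟨n, hn⟩ := exists_nat_gt (1 / δ)
  have h1 := hN (N + n) (Nat.le_add_right _ _)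
  have h2 : {k : ℕ | k < N + n ∧ (TT ^ k) yv ∈ Metric.ball yv 1} ⊆ {0} := by
    rintro k ⟨-, hk⟩
    by_contra hk0
    have := yv_far k (Nat.pos_of_ne_zero hk0)
    rw [Metric.mem_ball, dist_eq_norm] at hk
    linarith
  have h3 := Set.ncard_le_ncard h2 (Set.finite_singleton 0)
  rw [Set.ncard_singleton] at h3
  have h4 : ((Set.ncard {k : ℕ | k < N + n ∧ (TT ^ k) yv ∈ Metric.ball yv 1} : ℕ) : ℝ) ≤ 1 := by
    exact_mod_cast h3
  rw [div_lt_iff₀ hδ] at hn
  have h5 := h1.trans h4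
  rw [Nat.cast_add] at h5
  have : (0 : ℝ) ≤ δ * N := by positivity
  nlinarith

theorem main : ¬ (FR TT = Set.univ ∨ IsMeagre (FR TT)) := by
  rintro (h | h)
  · exact yv_not (h ▸ Set.mem_univ _)
  · have h1 : FR TT ∩ (FR TT)ᶜ ∈ residual (L1 Idx) := inter_mem TT_residual h
    rw [Set.inter_compl_self] at h1
    have := (dense_of_mem_residual h1).nonempty
    exact Set.not_nonempty_empty this

end Pool.Agent.H33.FRec
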