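import Pool.Agent.H33.FlowDefs

set_option autoImplicit false

namespace Pool.Agent.H33.Flow

open SimpleGraph

def merge {V : Type} (l : V → ℕ) (a b : V) : V → ℕ := fun v => if l v = l b then l a else l v

def hh {V : Type} {R : Type} [CommRing R] (x y : R) : List (V × V) → (V → ℕ) → R
  | [], _ => 1
  | e :: L, l => if l e.1 = l e.2 then x * hh x y L l
      else y * (hh x y L (merge l e.1 e.2) - hh x y L l)

def Ker {V : Type} (B : Set (Sym2 V)) (l : V → ℕ) : Prop :=
  ∀ u v, l u = l v ↔ (fromEdgeSet B).Reachable u v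

lemma ker_empty {V : Type} (l : V → ℕ) (hl : Function.Injective l) : Ker ∅ l := by
  intro u v
  rw [fromEdgeSet_empty, reachable_bot]
  exact hl.eq_iff

lemma ker_insert {V : Type} (B : Set (Sym2 V)) (l : V → ℕ) (h : Ker B l) (a b : V) :
    Ker (insert s(a, b) B) (merge l a b) := by
  have mono : ∀ u v, l u = l v → (fromEdgeSet (insert s(a, b) B)).Reachable u v := fun u v e =>
    ((h u v).1 e).mono (fromEdgeSet_mono (Set.subset_insert _ _))
  have hab : (fromEdgeSet (insert s(a, b) B)).Reachable a b := by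
    by_cases e : a = b
    · rw [e]
    · exact Adj.reachable ((fromEdgeSet_adj _).2 ⟨Set.mem_insert _ _, e⟩)
  intro u v
  constructor
  · intro e
    unfold merge at e
    by_cases h1 : l u = l b <;> by_cases h2 : l v = l b
    · exact mono u v (h1.trans h2.symm)
    · rw [if_pos h1, if_neg h2] at e
      exact (mono u b h1).trans (hab.symm.trans (mono a v e))
    · rw [if_neg h1, if_pos h2] at e
      exact (mono u a e).trans (hab.trans (mono b v h2.symm))
    · rw [if_neg h1, if_neg h2] at e
      exact mono u v e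
  · rintro ⟨p⟩
    induction p with
    | nil => rfl
    | @cons x y z hxy _ ih =>
      refine Eq.trans ?_ ih
      obtain ⟨h1, h2⟩ := (fromEdgeSet_adj _).1 hxy
      have k : merge l a b a = merge l a b b := by simp [merge]
      rcases h1 with h1 | h1
      · rcases Sym2.eq_iff.1 h1 with ⟨rfl, rfl⟩ | ⟨rfl, rfl⟩
        · exact k
        · exact k.symm
      · have := (h x y).2 (Adj.reachable ((fromEdgeSet_adj _).2 ⟨h1, h2⟩))
        simp only [merge, this]

lemma card_comp {V : Type} [Fintype V] (B : Set (Sym2 V)) (l : V → ℕ) (h : Ker B l) :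
    Nat.card (fromEdgeSet B).ConnectedComponent = (Finset.univ.image l).card := by
  rw [← Nat.card_eq_finsetCard]
  refine Nat.card_congr (Equiv.ofBijective (Quot.lift
    (fun v => (⟨l v, Finset.mem_image_of_mem l (Finset.mem_univ v)⟩ : Finset.univ.image l))
    fun u v e => Subtype.ext ((h u v).2 e)) ⟨?_, ?_⟩)
  · rintro ⟨u⟩ ⟨v⟩ e
    exact Quot.sound ((h u v).1 (congrArg Subtype.val e))
  · rintro ⟨x, hx⟩
    obtain ⟨v, -, rfl⟩ := Finset.mem_image.1 hx
    exact ⟨Quot.mk _ v, rfl⟩

lemma image_merge {V : Type} [Fintype V] (l : V → ℕ) (a b : V) (h : l a ≠ l b) :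
    (Finset.univ.image (merge l a b)).card + 1 = (Finset.univ.image l).card := by
  have : Finset.univ.image (merge l a b) = (Finset.univ.image l).erase (l b) := by
    ext x
    simp only [Finset.mem_image, Finset.mem_univ, true_and, Finset.mem_erase, merge]
    constructor
    · rintro ⟨v, rfl⟩
      split_ifs with h1
      · exact ⟨h, a, rfl⟩
      · exact ⟨h1, v, rfl⟩
    · rintro ⟨h1, v, rfl⟩
      exact ⟨v, if_neg h1⟩
  rw [this, Finset.card_erase_add_one (Finset.mem_image_of_mem l (Finset.mem_univ b))]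

lemma merge_same {V : Type} (l : V → ℕ) (a b : V) (h : l a = l b) : merge l a b = l := by
  funext v
  unfold merge
  split_ifs with h1
  · rw [h, h1]
  · rfl

lemma sum_eq {V : Type} [Fintype V] [DecidableEq V] (q : ℝ) (L : List (V × V))
    (hL : (L.map fun e => s(e.1, e.2)).Nodup) (B : Set (Sym2 V)) (l : V → ℕ) (h : Ker B l) :
    ∑ A ∈ (L.map fun e => s(e.1, e.2)).toFinset.powerset, (-1 : ℝ) ^ (L.length - A.card) *
      q ^ (A.card + Nat.card (fromEdgeSet (B ∪ (A : Set (Sym2 V)))).ConnectedComponent) =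
    q ^ (Finset.univ.image l).card * hh (q - 1) 1 L l := by
  induction L generalizing B l with
  | nil =>
    rw [← card_comp B l h]
    simp [hh]
  | cons e L ih =>
    rw [List.map_cons, List.nodup_cons] at hL
    rw [List.map_cons, List.toFinset_cons,
      Finset.sum_powerset_insert (by rw [List.mem_toFinset]; exact hL.1)]
    have hc : ∀ A ∈ (L.map fun e => s(e.1, e.2)).toFinset.powerset, A.card ≤ L.length := by
      intro A hA
      refine (Finset.card_le_card (Finset.mem_powerset.1 hA)).trans ?_
      exact (List.toFinset_card_le _).trans (by simp)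
    have h1 := ih hL.2 B l h
    have h2 := ih hL.2 _ _ (ker_insert B l h e.1 e.2)
    have e1 : ∑ A ∈ (L.map fun e => s(e.1, e.2)).toFinset.powerset,
        (-1 : ℝ) ^ ((e :: L).length - A.card) *
        q ^ (A.card + Nat.card (fromEdgeSet (B ∪ (A : Set (Sym2 V)))).ConnectedComponent) =
        - (q ^ (Finset.univ.image l).card * hh (q - 1) 1 L l) := by
      rw [← h1, ← Finset.sum_neg_distrib]
      refine Finset.sum_congr rfl fun A hA => ?_
      rw [List.length_cons, show L.length + 1 - A.card = (L.length - A.card) + 1 by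
        have := hc A hA; omega, pow_succ]
      ring
    have e2 : ∑ A ∈ (L.map fun e => s(e.1, e.2)).toFinset.powerset,
        (-1 : ℝ) ^ ((e :: L).length - (insert s(e.1, e.2) A).card) *
        q ^ ((insert s(e.1, e.2) A).card + Nat.card (fromEdgeSet
          (B ∪ ((insert s(e.1, e.2) A : Finset (Sym2 V)) : Set (Sym2 V)))).ConnectedComponent) =
        q * (q ^ (Finset.univ.image (merge l e.1 e.2)).card *
          hh (q - 1) 1 L (merge l e.1 e.2)) := by
      rw [← h2, Finset.mul_sum]
      refine Finset.sum_congr rfl fun A hA => ?_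
      have hn : s(e.1, e.2) ∉ A := fun hm =>
        hL.1 (List.mem_toFinset.1 (Finset.mem_powerset.1 hA hm))
      rw [Finset.card_insert_of_notMem hn, List.length_cons, Nat.add_sub_add_right,
        Finset.coe_insert, Set.union_insert, Set.insert_union, Nat.add_right_comm, pow_succ]
      ring
    rw [e1, e2, hh]
    split_ifs with h3
    · rw [merge_same l _ _ h3]; ring
    · rw [← image_merge l _ _ h3]; ring

lemma hh_scale {V : Type} (x y : ℝ) (L : List (V × V)) (l : V → ℕ) :
    hh (y * x) y L l = y ^ L.length * hh x 1 L l := by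
  induction L generalizing l with
  | nil => simp [hh]
  | cons e L ih =>
    simp only [hh, ih, List.length_cons]
    split_ifs <;> ring

lemma hh_cast {V : Type} (x y : ℤ) (L : List (V × V)) (l : V → ℕ) :
    ((hh x y L l : ℤ) : ℝ) = hh (x : ℝ) (y : ℝ) L l := by
  induction L generalizing l with
  | nil => simp [hh]
  | cons e L ih =>
    simp only [hh]
    split_ifs <;> simp [ih]

lemma hh_cont {V : Type} (L : List (V × V)) (l : V → ℕ) :
    Continuous fun q : ℝ => hh (q - 1) 1 L l := by
  induction L generalizing l with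
  | nil => exact continuous_const
  | cons e L ih =>
    simp only [hh]
    split_ifs
    · exact (continuous_id.sub continuous_const).mul (ih l)
    · exact continuous_const.mul ((ih _).sub (ih l))

lemma hh_map {V W : Type} (f : V → W) (x y : ℤ) (L : List (V × V)) (l : W → ℕ) :
    hh x y (L.map fun e => (f e.1, f e.2)) l = hh x y L (l ∘ f) := by
  induction L generalizing l with
  | nil => rfl
  | cons e L ih =>
    simp only [List.map_cons, hh, ih]
    rfl

lemma hh_congr {V : Type} (x y : ℤ) (L : List (V × V)) (S : Set V)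
    (hS : ∀ e ∈ L, e.1 ∈ S ∧ e.2 ∈ S) (l l' : V → ℕ)
    (h : ∀ u ∈ S, ∀ v ∈ S, l u = l v ↔ l' u = l' v) : hh x y L l = hh x y L l' := by
  induction L generalizing l l' with
  | nil => rfl
  | cons e L ih =>
    obtain ⟨h1, h2⟩ := hS e List.mem_cons_self
    have hS' : ∀ e ∈ L, e.1 ∈ S ∧ e.2 ∈ S := fun e he => hS e (List.mem_cons_of_mem _ he)
    simp only [hh]
    rw [ih hS' l l' h, ih hS' (merge l e.1 e.2) (merge l' e.1 e.2)]
    · simp only [h _ h1 _ h2]
    · intro u hu v hv
      simp only [merge, h _ hu _ h2, h _ hv _ h2]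
      split_ifs
      · simp
      · exact h _ h1 _ hv
      · exact h _ hu _ h1
      · exact h _ hu _ hv

def verts (L : List (ℕ × ℕ)) : List ℕ := L.flatMap fun e => [e.1, e.2]

def canon (n : ℕ) (Vs : List ℕ) (f : ℕ → ℕ) : List ℕ :=
  (List.range n).map fun u => if Vs.contains u then (Vs.find? fun w => f w == f u).getD 0 else 0

def lab (c : List ℕ) : ℕ → ℕ := fun u => c.getD u 0

lemma canon_ker (n : ℕ) (Vs : List ℕ) (hV : ∀ v ∈ Vs, v < n) (f : ℕ → ℕ) (u : ℕ) (hu : u ∈ Vs)
    (v : ℕ) (hv : v ∈ Vs) : f u = f v ↔ lab (canon n Vs f) u = lab (canon n Vs f) v := by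
  have k : ∀ u ∈ Vs, ∃ w, f w = f u ∧ lab (canon n Vs f) u = w ∧
      (Vs.find? fun w => f w == f u) = some w := by
    intro u hu
    obtain ⟨w, hw⟩ : ∃ w, (Vs.find? fun w => f w == f u) = some w := by
      rw [← Option.isSome_iff_exists, List.find?_isSome]
      exact ⟨u, hu, by simp⟩
    refine ⟨w, by simpa using List.find?_some hw, ?_, hw⟩
    have := hV u hu
    simp [lab, canon, this, hu, hw]
  obtain ⟨w, h1, h2, h3⟩ := k u hu
  obtain ⟨w', h1', h2', h3'⟩ := k v hv
  rw [h2, h2']
  constructor
  · intro e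
    rw [e, h3'] at h3
    exact (Option.some.inj h3).symm
  · rintro rfl
    exact h1.symm.trans h1'

def ins (c : List ℕ) (w : ℤ) : List (List ℕ × ℤ) → List (List ℕ × ℤ)
  | [] => [(c, w)]
  | s :: T => if c == s.1 then (c, w + s.2) :: T else s :: ins c w T

def val (x y : ℤ) (L : List (ℕ × ℕ)) (T : List (List ℕ × ℤ)) : ℤ :=
  (T.map fun s => s.2 * hh x y L (lab s.1)).sum

lemma val_ins (x y : ℤ) (L : List (ℕ × ℕ)) (c : List ℕ) (w : ℤ) (T : List (List ℕ × ℤ)) :
    val x y L (ins c w T) = w * hh x y L (lab c) + val x y L T := by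
  induction T with
  | nil => simp [ins, val]
  | cons s T ih =>
    unfold ins
    split_ifs with h
    · have : c = s.1 := by simpa using h
      simp only [val, List.map_cons, List.sum_cons, this]; ring
    · simp only [val, List.map_cons, List.sum_cons] at ih ⊢
      rw [ih]; ring

def step (n : ℕ) (x y : ℤ) (e : ℕ × ℕ) (Vs : List ℕ) : List (List ℕ × ℤ) → List (List ℕ × ℤ)
  | [] => []
  | s :: T => if lab s.1 e.1 = lab s.1 e.2 then ins (canon n Vs (lab s.1)) (s.2 * x) (step n x y e Vs T)
      else ins (canon n Vs (lab s.1)) (-(s.2 * y))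
        (ins (canon n Vs (merge (lab s.1) e.1 e.2)) (s.2 * y) (step n x y e Vs T))

lemma val_step (n : ℕ) (x y : ℤ) (e : ℕ × ℕ) (L : List (ℕ × ℕ)) (Vs : List ℕ)
    (hV : ∀ v ∈ Vs, v < n) (hL : ∀ e ∈ L, e.1 ∈ Vs ∧ e.2 ∈ Vs) (T : List (List ℕ × ℤ)) :
    val x y L (step n x y e Vs T) = val x y (e :: L) T := by
  have k : ∀ f, hh x y L (lab (canon n Vs f)) = hh x y L f := fun f =>
    (hh_congr x y L {v | v ∈ Vs} hL _ _ (canon_ker n Vs hV f)).symm
  induction T with
  | nil => rfl
  | cons s T ih =>
    unfold step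
    split_ifs with h
    · rw [val_ins, ih, k]
      simp only [val, List.map_cons, List.sum_cons, hh, if_pos h]; ring
    · rw [val_ins, val_ins, ih, k, k]
      simp only [val, List.map_cons, List.sum_cons, hh, if_neg h]; ring

def run (n : ℕ) (x y : ℤ) : List (ℕ × ℕ) → List (List ℕ × ℤ) → ℤ
  | [], T => (T.map fun s => s.2).sum
  | e :: L, T => run n x y L (step n x y e ((List.range n).filter (verts L).contains) T)

lemma run_eq (n : ℕ) (x y : ℤ) (L : List (ℕ × ℕ)) (hL : ∀ e ∈ L, e.1 < n ∧ e.2 < n)
    (T : List (List ℕ × ℤ)) : run n x y L T = val x y L T := by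
  induction L generalizing T with
  | nil => simp [run, val, hh]
  | cons e L ih =>
    rw [run, ih fun e he => hL e (List.mem_cons_of_mem _ he), val_step]
    · intro v hv
      exact List.mem_range.1 (List.mem_filter.1 hv).1
    · intro d hd
      have := hL d (List.mem_cons_of_mem _ hd)
      simp only [List.mem_filter, List.mem_range, verts, List.contains_iff_mem, List.mem_flatMap]
      exact ⟨⟨this.1, d, hd, by simp⟩, ⟨this.2, d, hd, by simp⟩⟩

def grow {n : ℕ} (adj : Fin n → Fin n → Bool) (ok : Fin n → Bool) (R : List (Fin n)) :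
    List (Fin n) :=
  (List.finRange n).filter fun v => ok v && (R.contains v || R.any fun u => adj u v)

lemma grow_reach {n : ℕ} (G : SimpleGraph (Fin n)) (adj : Fin n → Fin n → Bool)
    (hadj : ∀ u v, adj u v = true → G.Adj u v) (S : Set (Fin n)) (ok : Fin n → Bool)
    (hok : ∀ v, ok v = true → v ∈ S) (r : S) (k : ℕ) :
    ∀ v ∈ (grow adj ok)^[k] [r.1], ∃ hv : v ∈ S, (G.induce S).Reachable r ⟨v, hv⟩ := by
  induction k with
  | zero =>
    intro v hv
    have : v = r.1 := by simpa using hv
    subst this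
    exact ⟨r.2, Reachable.refl _⟩
  | succ k ih =>
    intro v hv
    rw [Function.iterate_succ_apply', grow, List.mem_filter] at hv
    have h2 := hv.2
    simp only [Bool.and_eq_true, Bool.or_eq_true, List.contains_iff_mem, List.any_eq_true] at h2
    rcases h2.2 with h | ⟨u, hu, h⟩
    · exact ih v h
    · obtain ⟨hu', h3⟩ := ih u hu
      exact ⟨hok v h2.1, h3.trans (Adj.reachable (hadj u v h))⟩

end Pool.Agent.H33.Flow
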