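import Mathlib

set_option autoImplicit false

namespace Pool.Agent.H33.Flow

/-- The flow polynomial of a simple graph on n vertices, evaluated at the real number q. -/
noncomputable def flow {n : ℕ} (G : SimpleGraph (Fin n)) (q : ℝ) : ℝ :=
  ∑ A ∈ G.edgeSet.toFinite.toFinset.powerset, (-1 : ℝ) ^ (G.edgeSet.ncard - A.card) *
    q ^ ((A.card : ℤ) - (n : ℤ) +
      (Nat.card (SimpleGraph.fromEdgeSet (A : Set (Sym2 (Fin n)))).ConnectedComponent : ℤ))

/-- At least four vertices, and connected after deleting any set of at most two vertices. -/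
def ThreeConnected {n : ℕ} (G : SimpleGraph (Fin n)) : Prop :=
  4 ≤ n ∧ ∀ S : Finset (Fin n), S.card ≤ 2 → (G.induce ((S : Set (Fin n))ᶜ)).Connected

end Pool.Agent.H33.Flow
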