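import Mathlib

set_option autoImplicit false
open Finset

namespace Pool.Agent.H33.Stein

variable {ι : Type} [DecidableEq ι] {d : ℕ}

lemma vertex (v : ι → Fin d → ℝ) (A : Finset ι) :
    ∀ (N : ℕ) (μ : ι → ℝ), (A.filter (fun i => 0 < μ i ∧ μ i < 1)).card = N →
      (∀ i ∈ A, 0 ≤ μ i ∧ μ i ≤ 1) →
      ∃ ν : ι → ℝ, (∀ i ∈ A, 0 ≤ ν i ∧ ν i ≤ 1) ∧ ∑ i ∈ A, ν i = ∑ i ∈ A, μ i ∧
        (∀ j, ∑ i ∈ A, ν i * v i j = ∑ i ∈ A, μ i * v i j) ∧
        (A.filter (fun i => 0 < ν i ∧ ν i < 1)).card ≤ d + 1 := by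
  intro N
  induction N using Nat.strong_induction_on with
  | _ N ih =>
    intro μ hN hμ
    by_cases hc : N ≤ d + 1
    · exact ⟨μ, hμ, rfl, fun _ => rfl, by omega⟩
    set F := A.filter (fun i => 0 < μ i ∧ μ i < 1) with hF
    have hdep : ¬ LinearIndependent ℝ (fun i : F => ((1 : ℝ), v i)) := by
      intro h
      have := h.fintype_card_le_finrank
      simp only [Fintype.card_coe, Module.finrank_prod, Module.finrank_self,
        Module.finrank_fintype_fun_eq_card, Fintype.card_fin] at this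
      omega
    obtain ⟨g, hg, i1, hi1⟩ := Fintype.not_linearIndependent_iff.mp hdep
    let w : ι → ℝ := fun i => if h : i ∈ F then g ⟨i, h⟩ else 0
    have hw0 : ∀ i, i ∉ F → w i = 0 := fun i hi => by simp [w, hi]
    have hsum : ∀ f : ι → ℝ, ∑ i ∈ A, w i * f i = ∑ i : F, g i * f i := by
      intro f
      rw [← sum_subset (filter_subset (fun i => 0 < μ i ∧ μ i < 1) A)
        (fun i _ hi => by rw [hw0 i hi, zero_mul]), ← hF, ← sum_coe_sort]
      refine sum_congr rfl fun i _ => ?_
      simp [w]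
    have hw1 : ∑ i ∈ A, w i = 0 := by
      have := congrArg Prod.fst hg
      simp only [Prod.fst_sum, Prod.smul_fst, smul_eq_mul, Prod.fst_zero] at this
      have h2 := hsum (fun _ => 1)
      rw [this] at h2
      simpa using h2
    have hw2 : ∀ j, ∑ i ∈ A, w i * v i j = 0 := by
      intro j
      have := congrFun (congrArg Prod.snd hg) j
      simp only [Prod.snd_sum, Prod.smul_snd, Prod.snd_zero, Finset.sum_apply, Pi.smul_apply,
        smul_eq_mul, Pi.zero_apply] at this
      rw [hsum, this]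
    let r : ι → ℝ := fun i => if 0 < w i then (1 - μ i) / w i else μ i / (-w i)
    obtain ⟨i0, hi0, hmin⟩ := exists_min_image (F.filter (fun i => w i ≠ 0)) r
      ⟨i1, mem_filter.mpr ⟨i1.2, by simpa [w] using hi1⟩⟩
    obtain ⟨hi0F, hi0w⟩ := mem_filter.mp hi0
    obtain ⟨hi0A, hi0a, hi0b⟩ := mem_filter.mp hi0F
    have hr0 : 0 ≤ r i0 := by
      simp only [r]
      split_ifs with h
      · exact div_nonneg (by linarith) h.le
      · exact div_nonneg hi0a.le (by linarith)
    obtain ⟨ν, h1, h2, h3, h4⟩ := ih ((A.filter (fun i => 0 < μ i + r i0 * w i ∧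
      μ i + r i0 * w i < 1)).card) (by
        rw [← hN]
        refine card_lt_card ⟨fun i hi => ?_, fun hsub => ?_⟩
        · by_contra hiF
          rw [mem_filter, hw0 i hiF, mul_zero, add_zero] at hi
          exact hiF (mem_filter.mpr hi)
        · have := (mem_filter.mp (hsub hi0F)).2
          simp only [r] at this
          split_ifs at this with h
          · rw [div_mul_cancel₀ _ hi0w] at this; linarith [this.2]
          · rw [div_neg, neg_mul, div_mul_cancel₀ _ hi0w] at this; linarith [this.1])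
      (fun i => μ i + r i0 * w i) rfl (by
        intro i hi
        by_cases hw : w i = 0
        · simpa [hw] using hμ i hi
        · have hiF : i ∈ F := by by_contra h; exact hw (hw0 i h)
          have hm := hmin i (mem_filter.mpr ⟨hiF, hw⟩)
          obtain ⟨a, b⟩ := hμ i hi
          by_cases hp : 0 < w i
          · have : r i = (1 - μ i) / w i := if_pos hp
            rw [this, le_div_iff₀ hp] at hm
            constructor <;> nlinarith
          · have hn : 0 < -w i := by
              rcases lt_or_gt_of_ne hw with h | h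
              · linarith
              · exact absurd h hp
            have : r i = μ i / (-w i) := if_neg hp
            rw [this, le_div_iff₀ hn] at hm
            constructor <;> nlinarith)
    refine ⟨ν, h1, ?_, fun j => ?_, h4⟩
    · rw [h2, sum_add_distrib, ← mul_sum, hw1, mul_zero, add_zero]
    · rw [h3]
      simp only [add_mul, sum_add_distrib, mul_assoc, ← mul_sum, hw2, mul_zero, add_zero]

lemma drop (v : ι → Fin d → ℝ) (A : Finset ι) (k : ℕ) (hA : A.card = k + 1) (hk : d ≤ k)
    (l : ι → ℝ) (h1 : ∀ i ∈ A, 0 ≤ l i ∧ l i ≤ 1) (h2 : ∑ i ∈ A, l i = (k + 1 : ℝ) - d)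
    (h3 : ∀ j, ∑ i ∈ A, l i * v i j = 0) :
    ∃ i0 ∈ A, ∃ μ : ι → ℝ, (∀ i ∈ A.erase i0, 0 ≤ μ i ∧ μ i ≤ 1) ∧
      ∑ i ∈ A.erase i0, μ i = (k : ℝ) - d ∧ ∀ j, ∑ i ∈ A.erase i0, μ i * v i j = 0 := by
  have hk' : (d : ℝ) ≤ k := by exact_mod_cast hk
  have hpos : (0 : ℝ) < k + 1 - d := by linarith
  obtain ⟨ν, a1, a2, a3, a4⟩ := vertex v A _ (fun i => ((k - d) / (k + 1 - d)) * l i) rfl (by
    intro i hi
    obtain ⟨a, b⟩ := h1 i hi
    have c1 : (0 : ℝ) ≤ (k - d) / (k + 1 - d) := div_nonneg (by linarith) hpos.le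
    have c2 : ((k : ℝ) - d) / (k + 1 - d) ≤ 1 := (div_le_one hpos).mpr (by linarith)
    constructor <;> nlinarith)
  rw [← mul_sum, h2, div_mul_cancel₀ _ hpos.ne'] at a2
  simp only [mul_assoc, ← mul_sum, h3, mul_zero] at a3
  have hex : ∃ i0 ∈ A, ν i0 = 0 := by
    by_contra hc
    push Not at hc
    have hp : ∀ i ∈ A, 0 < ν i := fun i hi => lt_of_le_of_ne (a1 i hi).1 (hc i hi).symm
    have hs := sum_filter_add_sum_filter_not A (fun i => 0 < ν i ∧ ν i < 1) ν
    have hcard := card_filter_add_card_filter_not (s := A) (fun i => 0 < ν i ∧ ν i < 1)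
    have hn : ∑ i ∈ A.filter (fun i => ¬ (0 < ν i ∧ ν i < 1)), ν i =
        (A.filter (fun i => ¬ (0 < ν i ∧ ν i < 1))).card := by
      rw [card_eq_sum_ones]
      push_cast
      refine sum_congr rfl fun i hi => ?_
      obtain ⟨b1, b2⟩ := mem_filter.mp hi
      by_contra h
      exact b2 ⟨hp i b1, lt_of_le_of_ne (a1 i b1).2 h⟩
    rw [hn, a2] at hs
    rcases (A.filter (fun i => 0 < ν i ∧ ν i < 1)).eq_empty_or_nonempty with h | h
    · rw [h] at hs hcard
      rw [card_empty, zero_add, hA] at hcard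
      rw [hcard] at hs
      simp at hs
      linarith [(Nat.cast_nonneg d : (0 : ℝ) ≤ d)]
    · have := sum_pos (fun i hi => hp i (mem_filter.mp hi).1) h
      have c : k ≤ (A.filter (fun i => ¬ (0 < ν i ∧ ν i < 1))).card + d := by omega
      have c' : (k : ℝ) ≤ (A.filter (fun i => ¬ (0 < ν i ∧ ν i < 1))).card + d := by
        exact_mod_cast c
      linarith
  obtain ⟨i0, hi0, h0⟩ := hex
  refine ⟨i0, hi0, ν, fun i hi => a1 i (mem_of_mem_erase hi), ?_, fun j => ?_⟩
  · rw [sum_erase _ h0, a2]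
  · rw [sum_erase _ (by simp [h0]), a3]

lemma order [Nonempty ι] (v : ι → Fin d → ℝ) (K : ℝ) (hv : ∀ i j, |v i j| ≤ K) :
    ∀ (k : ℕ) (A : Finset ι), A.card = k →
      (k ≤ d ∨ ∃ l : ι → ℝ, (∀ i ∈ A, 0 ≤ l i ∧ l i ≤ 1) ∧ ∑ i ∈ A, l i = (k : ℝ) - d ∧
        ∀ j, ∑ i ∈ A, l i * v i j = 0) →
      ∃ π : ℕ → ι, (range k).image π = A ∧
        ∀ a ≤ k, ∀ j, |∑ b ∈ range a, v (π b) j| ≤ d * K := by
  intro k
  induction k with
  | zero =>
    intro A hA _
    refine ⟨fun _ => Classical.arbitrary ι, by simp [card_eq_zero.mp hA], fun a ha j => ?_⟩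
    have : a = 0 := by omega
    subst this
    have := (abs_nonneg _).trans (hv (Classical.arbitrary ι) j)
    simp only [range_zero, sum_empty, abs_zero]
    positivity
  | succ k ih =>
    intro A hA h
    have hK : ∀ j : Fin d, 0 ≤ K := fun j => (abs_nonneg _).trans (hv (Classical.arbitrary ι) j)
    have hfull : ∀ j, |∑ i ∈ A, v i j| ≤ d * K := by
      intro j
      rcases h with h | ⟨l, h1, h2, h3⟩
      · refine (abs_sum_le_sum_abs _ _).trans ((sum_le_card_nsmul _ _ K fun i _ => hv i j).trans ?_)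
        rw [hA, nsmul_eq_mul]
        exact mul_le_mul_of_nonneg_right (by exact_mod_cast h) (hK j)
      · have e1 : ∑ i ∈ A, v i j = ∑ i ∈ A, (1 - l i) * v i j := by
          simp only [sub_mul, one_mul, sum_sub_distrib, h3, sub_zero]
        have e2 : ∑ i ∈ A, (1 - l i) * K = d * K := by
          rw [← sum_mul, sum_sub_distrib, h2]
          simp [hA]
        rw [e1, ← e2]
        refine (abs_sum_le_sum_abs _ _).trans (sum_le_sum fun i hi => ?_)
        rw [abs_mul, abs_of_nonneg (by linarith [(h1 i hi).2])]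
        exact mul_le_mul_of_nonneg_left (hv i j) (by linarith [(h1 i hi).2])
    obtain ⟨i0, hi0, hrest⟩ : ∃ i0 ∈ A, (k ≤ d ∨ ∃ l : ι → ℝ,
        (∀ i ∈ A.erase i0, 0 ≤ l i ∧ l i ≤ 1) ∧ ∑ i ∈ A.erase i0, l i = (k : ℝ) - d ∧
        ∀ j, ∑ i ∈ A.erase i0, l i * v i j = 0) := by
      by_cases hc : k ≤ d
      · obtain ⟨i0, hi0⟩ := card_pos.mp (show 0 < A.card by omega)
        exact ⟨i0, hi0, Or.inl hc⟩
      · obtain ⟨l, h1, h2, h3⟩ := h.resolve_left (by omega)
        obtain ⟨i0, hi0, hμ⟩ := drop v A k hA (by omega) l h1 (by exact_mod_cast h2) h3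
        exact ⟨i0, hi0, Or.inr hμ⟩
    obtain ⟨π, p1, p2⟩ := ih (A.erase i0) (by rw [card_erase_of_mem hi0]; omega) hrest
    have hinj : Set.InjOn π (range k) := by
      rw [← card_image_iff, p1, card_erase_of_mem hi0, card_range]; omega
    have hup : ∀ b < k, Function.update π k i0 b = π b := fun b hb =>
      Function.update_of_ne hb.ne _ _
    refine ⟨Function.update π k i0, ?_, fun a ha j => ?_⟩
    · rw [range_add_one, image_insert, Function.update_self,
        image_congr (g := π) (fun b hb => hup b (by simpa using hb)), p1, insert_erase hi0]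
    · rcases Nat.eq_or_lt_of_le ha with h1 | h1
      · rw [h1, sum_range_succ, Function.update_self,
          sum_congr rfl (fun b hb => by rw [hup b (mem_range.mp hb)]),
          ← sum_image (f := fun i => v i j) hinj, p1, sum_erase_add _ _ hi0]
        exact hfull j
      · rw [sum_congr rfl (fun b hb => by rw [hup b (by have := mem_range.mp hb; omega)])]
        exact p2 a (by omega) j

/-- the Steinitz lemma (Grinberg and Sevastyanov constant) in the maximum norm -/
theorem steinitz (n : ℕ) (hn : 0 < n) (v : Fin n → Fin d → ℝ) (K : ℝ) (hv : ∀ i j, |v i j| ≤ K)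
    (h0 : ∀ j, ∑ i, v i j = 0) :
    ∃ π : Equiv.Perm (Fin n), ∀ a ≤ n, ∀ j,
      |∑ b ∈ range a, if h : b < n then v (π ⟨b, h⟩) j else 0| ≤ d * K := by
  have : Nonempty (Fin n) := ⟨⟨0, hn⟩⟩
  have hn' : (0 : ℝ) < n := by exact_mod_cast hn
  obtain ⟨π, p1, p2⟩ := order v K hv n univ (by simp) (by
    by_cases hc : n ≤ d
    · exact Or.inl hc
    · have hd : (d : ℝ) ≤ n := by exact_mod_cast (not_le.mp hc).le
      refine Or.inr ⟨fun _ => (n - d) / n, fun i _ => ⟨div_nonneg (by linarith) hn'.le,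
        (div_le_one hn').mpr (by linarith [(Nat.cast_nonneg d : (0 : ℝ) ≤ d)])⟩, ?_, fun j => ?_⟩
      · simp only [sum_const, card_univ, Fintype.card_fin, nsmul_eq_mul]
        field_simp
      · rw [← mul_sum, h0, mul_zero])
  have hinj : Set.InjOn π (range n) := by
    rw [← card_image_iff, p1]; simp
  have hb : Function.Bijective (fun a : Fin n => π a) :=
    Finite.injective_iff_bijective.mp fun a b h =>
      Fin.ext (hinj (by simp) (by simp) h)
  refine ⟨Equiv.ofBijective _ hb, fun a ha j => ?_⟩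
  rw [sum_congr rfl (g := fun b => v (π b) j) (fun b hb => by
    rw [dif_pos (by have := mem_range.mp hb; omega)]; rfl)]
  exact p2 a ha j

end Pool.Agent.H33.Stein
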