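import Pool.Agent.H33.FlowShopDefs
import Pool.Agent.H33.Stein

set_option autoImplicit false
open Finset MeasureTheory Filter Topology

namespace Pool.Agent.H33.FlowShop

lemma comp_zero_right (t : ℕ → ℕ → ℝ) (i : ℕ) : comp t i 0 = 0 := by cases i <;> simp [comp]

lemma comp_le (t t' u : ℕ → ℕ → ℝ) (hu : ∀ a b, 0 ≤ u a b) (h : ∀ a b, t a b ≤ t' a b + u a b) :
    ∀ i j, comp t i j ≤ comp t' i j + ∑ a ∈ range i, ∑ b ∈ range j, u a b := by
  intro i
  induction i with
  | zero => intro j; simp [comp]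
  | succ i ih =>
    intro j
    induction j with
    | zero => simp [comp]
    | succ j ihj =>
      have h1 := ih (j + 1)
      have h2 : ∑ a ∈ range i, ∑ b ∈ range (j + 1), u a b + u i j ≤
          ∑ a ∈ range (i + 1), ∑ b ∈ range (j + 1), u a b := by
        rw [sum_range_succ _ i, sum_range_succ _ j]
        linarith [sum_nonneg (s := range j) fun b _ => hu i b]
      have h3 : ∑ a ∈ range (i + 1), ∑ b ∈ range j, u a b + u i j ≤
          ∑ a ∈ range (i + 1), ∑ b ∈ range (j + 1), u a b := by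
        simp only [sum_range_succ _ j, sum_add_distrib]
        rw [sum_range_succ (fun a => u a j)]
        linarith [sum_nonneg (s := range i) fun a _ => hu a j]
      simp only [comp]
      have := h i j
      have m1 := le_max_left (comp t' i (j + 1)) (comp t' (i + 1) j)
      have m2 := le_max_right (comp t' i (j + 1)) (comp t' (i + 1) j)
      rcases max_cases (comp t i (j + 1)) (comp t (i + 1) j) with ⟨e, -⟩ | ⟨e, -⟩ <;> rw [e] <;>
        linarith

lemma comp_zero : ∀ i j, comp (fun _ _ => 0) i j = 0 := by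
  intro i
  induction i with
  | zero => intro j; simp [comp]
  | succ i ih =>
    intro j
    induction j with
    | zero => simp [comp]
    | succ j ihj => simp [comp, ih, ihj]

lemma comp_path (t S : ℕ → ℕ → ℝ) (n m : ℕ) (l D : ℝ) (hl : 0 ≤ l)
    (hS : ∀ a ≤ n, ∀ b < m, |S b a| ≤ D)
    (ht : ∀ a < n, ∀ b < m, t a b ≤ l + (S b (a + 1) - S b a)) :
    ∀ i ≤ n, ∀ j < m, comp t i (j + 1) ≤ (i + j) * l + S j i + (2 * j + 1) * D := by
  intro i
  induction i with
  | zero =>
    intro _ j hj
    have h1 := abs_le.mp (hS 0 (Nat.zero_le _) j hj)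
    have h2 : (0 : ℝ) ≤ j := Nat.cast_nonneg j
    simp only [comp]
    nlinarith [h1.1, h1.2]
  | succ i ih =>
    intro hi j
    induction j with
    | zero =>
      intro hj
      have h1 := ih (by omega) 0 hj
      have h2 := ht i (by omega) 0 hj
      have h3 := abs_le.mp (hS i (by omega) 0 hj)
      have h4 : (0 : ℝ) ≤ i := Nat.cast_nonneg i
      simp only [comp]
      push_cast at h1 ⊢
      rcases max_cases (comp t i (0 + 1)) 0 with ⟨e, -⟩ | ⟨e, -⟩ <;> rw [e] <;> nlinarith [h3.1]
    | succ j ihj =>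
      intro hj
      have h1 := ih (by omega) (j + 1) hj
      have h2 := ht i (by omega) (j + 1) hj
      have h3 := abs_le.mp (hS i (by omega) (j + 1) hj)
      have h4 := abs_le.mp (hS (i + 1) hi j (by omega))
      have h5 := ihj (by omega)
      rw [comp]
      push_cast at h1 h5 ⊢
      rcases max_cases (comp t i (j + 1 + 1)) (comp t (i + 1) (j + 1)) with ⟨e, -⟩ | ⟨e, -⟩ <;>
        rw [e] <;> nlinarith [h3.1, h4.2]

lemma sum_ext {n m : ℕ} (f : Fin n × Fin m → ℝ) (π : Equiv.Perm (Fin n)) :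
    ∑ a ∈ range n, ∑ b ∈ range m,
      (if h : a < n ∧ b < m then f (π ⟨a, h.1⟩, ⟨b, h.2⟩) else 0) = ∑ p, f p := by
  rw [Fintype.sum_prod_type, ← Equiv.sum_comp π, sum_range]
  refine sum_congr rfl fun a _ => ?_
  rw [sum_range]
  refine sum_congr rfl fun b _ => ?_
  simp

lemma makespan_le {n m : ℕ} (T T' U : Fin n × Fin m → ℝ) (hU : ∀ p, 0 ≤ U p)
    (h : ∀ p, T p ≤ T' p + U p) (π : Equiv.Perm (Fin n)) :
    makespan T π ≤ makespan T' π + ∑ p, U p := by
  rw [← sum_ext U π]
  refine comp_le _ _ _ (fun a b => ?_) (fun a b => ?_) n m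
  · split_ifs; exacts [hU _, le_rfl]
  · split_ifs; exacts [h _, by simp]

lemma makespan_zero {n m : ℕ} (π : Equiv.Perm (Fin n)) :
    makespan (fun _ : Fin n × Fin m => (0 : ℝ)) π = 0 := by
  simp [makespan, comp_zero]

lemma abs_opt {n m : ℕ} (T : Fin n × Fin m → ℝ) : |optMakespan T| ≤ ∑ p, |T p| := by
  obtain ⟨π, -, h⟩ := exists_mem_eq_inf' (univ_nonempty (α := Equiv.Perm (Fin n))) (makespan T)
  rw [optMakespan, h, abs_le]
  have h1 := makespan_le T (fun _ => 0) (fun p => |T p|) (fun p => abs_nonneg _)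
    (fun p => by simpa using le_abs_self _) π
  have h2 := makespan_le (fun _ => 0) T (fun p => |T p|) (fun p => abs_nonneg _)
    (fun p => by linarith [neg_abs_le (T p)]) π
  rw [makespan_zero] at h1 h2
  constructor <;> linarith

lemma meas_comp {X : Type} [MeasurableSpace X] (t : X → ℕ → ℕ → ℝ)
    (h : ∀ a b, Measurable fun x => t x a b) : ∀ i j, Measurable fun x => comp (t x) i j := by
  intro i
  induction i with
  | zero => intro j; simp [comp]
  | succ i ih =>
    intro j
    induction j with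
    | zero => simp [comp]
    | succ j ihj => simp only [comp]; exact ((ih _).max ihj).add (h i j)

lemma meas_opt (n m : ℕ) : Measurable (optMakespan : (Fin n × Fin m → ℝ) → ℝ) := by
  have h : ∀ π : Equiv.Perm (Fin n), Measurable fun T : Fin n × Fin m → ℝ => makespan T π := by
    intro π
    refine meas_comp _ (fun a b => ?_) n m
    split_ifs
    · exact measurable_pi_apply _
    · exact measurable_const
  have := Measurable.iInf h
  refine (congrArg Measurable ?_).mp this
  funext T
  exact (Finset.inf'_univ_eq_ciInf _).symm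

noncomputable def clamp (K t : ℝ) : ℝ := max 0 (min t K)

lemma opt_le {n m : ℕ} (hn : 0 < n) (hm : 0 < m) (T : Fin n × Fin m → ℝ) (K l : ℝ) (hK : 0 ≤ K)
    (hl : ∀ j, (∑ i, clamp K (T (i, j))) / n ≤ l) :
    optMakespan T ≤ (n + m - 1) * l + 2 * m * (m * K) + ∑ p, max (T p - K) 0 := by
  have hn' : (0 : ℝ) < n := by exact_mod_cast hn
  have c0 : ∀ t, 0 ≤ clamp K t := fun t => le_max_left _ _
  have c1 : ∀ t, clamp K t ≤ K := fun t => max_le hK (min_le_right _ _)
  have a0 : ∀ j, 0 ≤ (∑ i, clamp K (T (i, j))) / n := fun j =>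
    div_nonneg (sum_nonneg fun i _ => c0 _) hn'.le
  have a1 : ∀ j, (∑ i, clamp K (T (i, j))) / n ≤ K := fun j => by
    rw [div_le_iff₀ hn']
    refine (sum_le_card_nsmul _ _ K fun i _ => c1 _).trans ?_
    simp [mul_comm]
  obtain ⟨π, hπ⟩ := Stein.steinitz (d := m) n hn
    (fun i j => clamp K (T (i, j)) - (∑ i, clamp K (T (i, j))) / n) K
    (fun i j => by
      rw [abs_le]; constructor <;> linarith [c0 (T (i, j)), c1 (T (i, j)), a0 j, a1 j])
    (fun j => by
      rw [sum_sub_distrib, sum_const, card_univ, Fintype.card_fin, nsmul_eq_mul,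
        mul_div_cancel₀ _ hn'.ne', sub_self])
  have h1 := makespan_le T (fun p => clamp K (T p)) (fun p => max (T p - K) 0)
    (fun p => le_max_right _ _) (fun p => by
      unfold clamp
      rcases le_total (T p) K with h | h
      · rw [min_eq_left h]; linarith [le_max_right 0 (T p), le_max_right (T p - K) 0]
      · rw [min_eq_right h]; linarith [le_max_right 0 K, le_max_left (T p - K) 0]) π
  have h2 : optMakespan T ≤ makespan T π := inf'_le _ (mem_univ π)
  obtain ⟨m', rfl⟩ : ∃ m', m = m' + 1 := ⟨m - 1, by omega⟩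
  let S : ℕ → ℕ → ℝ := fun b a => if hb : b < m' + 1 then ∑ c ∈ range a, if h : c < n then
    clamp K (T (π ⟨c, h⟩, ⟨b, hb⟩)) - (∑ i, clamp K (T (i, ⟨b, hb⟩))) / n else 0 else 0
  have hS : ∀ a ≤ n, ∀ b < m' + 1, |S b a| ≤ (m' + 1 : ℕ) * K := by
    intro a ha b hb
    simp only [S, dif_pos hb]
    exact hπ a ha ⟨b, hb⟩
  have h3 := comp_path (fun a b => if h : a < n ∧ b < m' + 1 then
      clamp K (T (π ⟨a, h.1⟩, ⟨b, h.2⟩)) else 0) S n (m' + 1) l ((m' + 1 : ℕ) * K)
    ((a0 0).trans (hl 0)) hS (fun a ha b hb => by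
      simp only [S, dif_pos hb, sum_range_succ, dif_pos ha, dif_pos (And.intro ha hb)]
      linarith [hl ⟨b, hb⟩]) n le_rfl m' (by omega)
  have h4 := (abs_le.mp (hS n le_rfl m' (by omega))).2
  have h5 : makespan (fun p => clamp K (T p)) π ≤
      (n + m') * l + S m' n + (2 * m' + 1) * ((m' + 1 : ℕ) * K) := h3
  push_cast at h4 h5 ⊢
  nlinarith

lemma mgf (F : Measure ℝ) [IsProbabilityMeasure F] (hF0 : ∀ᵐ t ∂F, 0 ≤ t) (hF2 : MemLp id 2 F)
    (K s : ℝ) (hK : 0 ≤ K) (hs : 0 < s) (hKs : K ≤ s) :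
    ∫ t, Real.exp ((clamp K t - ∫ t, clamp K t ∂F) / s) ∂F ≤
      Real.exp ((2 * ∫ t, t ^ 2 ∂F + 2 * (∫ t, t ∂F) ^ 2) / s ^ 2) ∧
      0 ≤ ∫ t, clamp K t ∂F ∧ ∫ t, clamp K t ∂F ≤ ∫ t, t ∂F := by
  have c0 : ∀ t, 0 ≤ clamp K t := fun t => le_max_left _ _
  have c1 : ∀ t, clamp K t ≤ K := fun t => max_le hK (min_le_right _ _)
  have hcont : Continuous (clamp K) := by unfold clamp; fun_prop
  have i1 : Integrable (clamp K) F := Integrable.of_bound hcont.aestronglyMeasurable K
    (ae_of_all _ fun t => by rw [Real.norm_eq_abs, abs_of_nonneg (c0 t)]; exact c1 t)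
  have i2 : Integrable (fun t : ℝ => t) F := hF2.integrable (by norm_num)
  have i3 : Integrable (fun t : ℝ => t ^ 2) F := hF2.integrable_sq
  have hle : ∀ᵐ t ∂F, clamp K t ≤ t := hF0.mono fun t ht => max_le ht (min_le_left _ _)
  have m0 : 0 ≤ ∫ t, clamp K t ∂F := integral_nonneg c0
  have m1 : ∫ t, clamp K t ∂F ≤ ∫ t, t ∂F := integral_mono_ae i1 i2 hle
  have m2 : ∫ t, clamp K t ∂F ≤ K := by
    simpa using integral_mono i1 (integrable_const K) c1
  refine ⟨?_, m0, m1⟩
  set μ := ∫ t, clamp K t ∂F with hμ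
  set τ := ∫ t, t ∂F
  have hb : ∀ t, |(clamp K t - μ) / s| ≤ 1 := fun t => by
    rw [abs_div, abs_of_pos hs, div_le_one hs, abs_le]
    constructor <;> linarith [c0 t, c1 t]
  have i4 : Integrable (fun t => 1 + (clamp K t - μ) / s + (2 * t ^ 2 + 2 * τ ^ 2) / s ^ 2) F :=
    ((integrable_const _).add ((i1.sub (integrable_const _)).div_const _)).add
      (((i3.const_mul _).add (integrable_const _)).div_const _)
  have h1 := integral_mono_of_nonneg (f := fun t => Real.exp ((clamp K t - μ) / s))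
    (ae_of_all _ fun t => (Real.exp_pos _).le) i4 (hle.mono fun t ht => by
      have e1 := (abs_le.mp (Real.abs_exp_sub_one_sub_id_le (hb t))).2
      have e2 : ((clamp K t - μ) / s) ^ 2 ≤ (2 * t ^ 2 + 2 * τ ^ 2) / s ^ 2 := by
        rw [div_pow]
        apply div_le_div_of_nonneg_right _ (by positivity)
        nlinarith [c0 t, sq_nonneg (clamp K t + μ)]
      simp only
      linarith)
  refine h1.trans ?_
  have j1 : Integrable (fun t => (clamp K t - μ) / s) F :=
    (i1.sub (integrable_const _)).div_const _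
  have j2 : Integrable (fun t => 1 + (clamp K t - μ) / s) F := (integrable_const _).add j1
  have j3 : Integrable (fun t : ℝ => (2 * t ^ 2 + 2 * τ ^ 2) / s ^ 2) F :=
    ((i3.const_mul _).add (integrable_const _)).div_const _
  rw [integral_add j2 j3, integral_add (integrable_const _) j1,
    integral_div, integral_div, integral_sub i1 (integrable_const _),
    integral_add (i3.const_mul _) (integrable_const _), integral_const_mul]
  simp only [integral_const, probReal_univ, one_smul, ← hμ, sub_self, zero_div, add_zero]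
  linarith [Real.add_one_le_exp ((2 * ∫ t, t ^ 2 ∂F + 2 * τ ^ 2) / s ^ 2)]

lemma tail (F : Measure ℝ) [IsProbabilityMeasure F] (hF2 : MemLp id 2 F) (η : ℝ) (hη : 0 < η) :
    Tendsto (fun n : ℕ => √n * ∫ t, max (t - η * √n) 0 ∂F) atTop (𝓝 0) := by
  have i3 : Integrable (fun t : ℝ => t ^ 2) F := hF2.integrable_sq
  have := tendsto_integral_of_dominated_convergence (μ := F)
    (F := fun (n : ℕ) t => √n * max (t - η * √n) 0) (f := fun _ => 0) (fun t => t ^ 2 / η)
    (fun n => by fun_prop) (i3.div_const _) (fun n => ae_of_all _ fun t => by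
      have h0 := Real.sqrt_nonneg n
      rw [Real.norm_eq_abs, abs_of_nonneg (mul_nonneg h0 (le_max_right _ _)), le_div_iff₀ hη]
      rcases max_cases (t - η * √n) 0 with ⟨e, h⟩ | ⟨e, h⟩ <;> rw [e]
      · nlinarith [mul_nonneg hη.le h0]
      · nlinarith [sq_nonneg t])
    (ae_of_all _ fun t => by
      refine tendsto_const_nhds.congr' ?_
      have h1 : Tendsto (fun n : ℕ => η * √n) atTop atTop :=
        (Real.tendsto_sqrt_atTop.comp tendsto_natCast_atTop_atTop).const_mul_atTop hη
      filter_upwards [h1.eventually_ge_atTop t] with n hn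
      rw [max_eq_right (by linarith), mul_zero])
  simpa [integral_const_mul] using this

lemma expect_le (F : Measure ℝ) [IsProbabilityMeasure F] (hF0 : ∀ᵐ t ∂F, 0 ≤ t)
    (hF2 : MemLp id 2 F) (n m : ℕ) (hn : 0 < n) (hm : 0 < m) (K : ℝ) (hK : 0 ≤ K) (hKs : K ≤ √n) :
    Integrable (optMakespan : (Fin n × Fin m → ℝ) → ℝ) (Measure.pi fun _ => F) ∧
    ∫ T, (optMakespan T - (n + m - 1) * ∫ t, t ∂F) ∂(Measure.pi fun _ : Fin n × Fin m => F) ≤
      (n + m - 1) * ((Real.log m + Real.exp (2 * ∫ t, t ^ 2 ∂F + 2 * (∫ t, t ∂F) ^ 2)) / √n) +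
        2 * m * (m * K) + n * m * ∫ t, max (t - K) 0 ∂F := by
  have hn' : (0 : ℝ) < n := by exact_mod_cast hn
  have hm' : (0 : ℝ) < m := by exact_mod_cast hm
  have hs : 0 < √n := Real.sqrt_pos.mpr hn'
  have i2 : Integrable (fun t : ℝ => t) F := hF2.integrable (by norm_num)
  have I0 : Integrable (optMakespan : (Fin n × Fin m → ℝ) → ℝ) (Measure.pi fun _ => F) :=
    Integrable.mono' (integrable_finsetSum univ fun p _ =>
      integrable_comp_eval (μ := fun _ => F) (i := p) i2.abs) (meas_opt n m).aestronglyMeasurable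
      (ae_of_all _ abs_opt)
  refine ⟨I0, ?_⟩
  obtain ⟨g1, g2, g3⟩ := mgf F hF0 hF2 K √n hK hs hKs
  rw [Real.sq_sqrt hn'.le] at g1
  set μ := ∫ t, clamp K t ∂F with hμ
  set τ := ∫ t, t ∂F
  set B := 2 * ∫ t, t ^ 2 ∂F + 2 * τ ^ 2
  have hcont : Continuous (clamp K) := by unfold clamp; fun_prop
  have c0 : ∀ t, 0 ≤ clamp K t := fun t => le_max_left _ _
  have c1 : ∀ t, clamp K t ≤ K := fun t => max_le hK (min_le_right _ _)
  let f : Fin m → Fin n × Fin m → ℝ → ℝ := fun j p t =>
    if p.2 = j then Real.exp ((clamp K t - μ) / √n) else 1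
  have hf : ∀ j (T : Fin n × Fin m → ℝ), ∏ p, f j p (T p) =
      Real.exp ((∑ i, clamp K (T (i, j)) - n * μ) / √n) := by
    intro j T
    rw [Fintype.prod_prod_type]
    simp only [f, prod_ite_eq', mem_univ, if_true]
    rw [← Real.exp_sum, ← sum_div, sum_sub_distrib]
    simp
  have I1 : ∀ j, Integrable (fun T : Fin n × Fin m → ℝ => ∏ p, f j p (T p))
      (Measure.pi fun _ => F) := by
    intro j
    refine Integrable.fintype_prod fun p => ?_
    simp only [f]
    split_ifs
    · refine Integrable.of_bound (by fun_prop) (Real.exp (K / √n)) (ae_of_all _ fun t => ?_)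
      rw [Real.norm_eq_abs, abs_of_pos (Real.exp_pos _)]
      exact Real.exp_le_exp.mpr (div_le_div_of_nonneg_right (by linarith [c1 t]) hs.le)
    · exact integrable_const _
  have E1 : ∀ j, ∫ T : Fin n × Fin m → ℝ, ∏ p, f j p (T p) ∂(Measure.pi fun _ => F) ≤
      Real.exp B := by
    intro j
    rw [integral_fintype_prod_eq_prod, Fintype.prod_prod_type]
    have : ∀ (i : Fin n) (b : Fin m), ∫ t, f j (i, b) t ∂F =
        if b = j then ∫ t, Real.exp ((clamp K t - μ) / √n) ∂F else 1 := by
      intro i b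
      simp only [f]
      split_ifs <;> simp
    simp only [this, prod_ite_eq', mem_univ, if_true, prod_const, card_univ, Fintype.card_fin]
    refine (pow_le_pow_left₀ (integral_nonneg fun t => (Real.exp_pos _).le) g1 n).trans ?_
    rw [← Real.exp_nat_mul, mul_div_cancel₀ _ hn'.ne']
  have i5 : Integrable (fun t : ℝ => max (t - K) 0) F :=
    (i2.sub (integrable_const _)).sup (integrable_const _)
  have I2 : Integrable (fun T : Fin n × Fin m → ℝ => ∑ p, max (T p - K) 0)
      (Measure.pi fun _ => F) :=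
    integrable_finsetSum univ fun p _ => integrable_comp_eval (μ := fun _ => F) (i := p) i5
  have E2 : ∫ T : Fin n × Fin m → ℝ, ∑ p, max (T p - K) 0 ∂(Measure.pi fun _ => F) =
      n * m * ∫ t, max (t - K) 0 ∂F := by
    rw [integral_finsetSum univ fun p _ => integrable_comp_eval (μ := fun _ => F) (i := p) i5]
    rw [sum_congr rfl fun p _ => integral_comp_eval (μ := fun _ => F) (i := p)
      i5.aestronglyMeasurable]
    simp
  have I3 : Integrable (fun T : Fin n × Fin m → ℝ => ∑ j, ∏ p, f j p (T p))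
      (Measure.pi fun _ => F) := integrable_finsetSum univ fun j _ => I1 j
  have E3 : ∫ T : Fin n × Fin m → ℝ, ∑ j, ∏ p, f j p (T p) ∂(Measure.pi fun _ => F) ≤
      m * Real.exp B := by
    rw [integral_finsetSum univ fun j _ => I1 j]
    simpa using sum_le_card_nsmul univ _ _ fun j _ => E1 j
  have hc : (0 : ℝ) ≤ n + m - 1 := by
    have : (1 : ℝ) ≤ n := by exact_mod_cast hn
    linarith
  have key : ∀ T : Fin n × Fin m → ℝ, optMakespan T - (n + m - 1) * τ ≤
      ((n + m - 1) * (Real.log m / √n) + 2 * m * (m * K)) +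
      (((n + m - 1) / (m * √n)) * ∑ j, ∏ p, f j p (T p) + ∑ p, max (T p - K) 0) := by
    intro T
    have h1 := opt_le hn hm T K (τ + (Real.log m + (∑ j, ∏ p, f j p (T p)) / m) / √n) hK (by
      intro j
      have h2 : ∏ p, f j p (T p) ≤ ∑ j, ∏ p, f j p (T p) :=
        single_le_sum (f := fun j => ∏ p, f j p (T p))
          (fun j _ => by rw [hf]; exact (Real.exp_pos _).le) (mem_univ j)
      rw [hf] at h2
      have h3 := Real.add_one_le_exp ((∑ i, clamp K (T (i, j)) - n * μ) / √n - Real.log m)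
      rw [Real.exp_sub, Real.exp_log hm'] at h3
      have h4 := div_le_div_of_nonneg_right h2 hm'.le
      have h5 : (∑ i, clamp K (T (i, j)) - n * μ) / √n ≤
          Real.log m + (∑ j, ∏ p, f j p (T p)) / m := by linarith
      have h6 := div_le_div_of_nonneg_right h5 hs.le
      rw [div_div, Real.mul_self_sqrt hn'.le, sub_div, mul_div_cancel_left₀ _ hn'.ne'] at h6
      linarith)
    have e : (n + m - 1) * (τ + (Real.log m + (∑ j, ∏ p, f j p (T p)) / m) / √n) =
        (n + m - 1) * τ + (n + m - 1) * (Real.log m / √n) +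
          ((n + m - 1) / (m * √n)) * ∑ j, ∏ p, f j p (T p) := by
      field_simp
      ring
    linarith
  have J1 : Integrable (fun T : Fin n × Fin m → ℝ =>
      ((n + m - 1) / (m * √n)) * ∑ j, ∏ p, f j p (T p) + ∑ p, max (T p - K) 0)
      (Measure.pi fun _ => F) := (I3.const_mul _).add I2
  have J2 : Integrable (fun T : Fin n × Fin m → ℝ =>
      ((n + m - 1) * (Real.log m / √n) + 2 * m * (m * K)) +
      (((n + m - 1) / (m * √n)) * ∑ j, ∏ p, f j p (T p) + ∑ p, max (T p - K) 0))
      (Measure.pi fun _ => F) := (integrable_const _).add J1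
  refine (integral_mono (I0.sub (integrable_const _)) J2 key).trans ?_
  rw [integral_add (integrable_const _) J1,
    integral_add (I3.const_mul _) I2, integral_const_mul, E2]
  simp only [integral_const, probReal_univ, one_smul]
  have h7 := mul_le_mul_of_nonneg_left E3 (show (0 : ℝ) ≤ (n + m - 1) / (m * √n) by positivity)
  have e : (n + m - 1) / (m * √n) * (m * Real.exp B) = (n + m - 1) * (Real.exp B / √n) := by
    field_simp
  rw [add_div, mul_add]
  linarith

end Pool.Agent.H33.FlowShop
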