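import Mathlib

set_option autoImplicit false

namespace Pool.Agent.H33.FlowShop

/-- Completion times: `comp t i j` is `C_{i,j}`, where `t a b` is the time of the operation of the
task in position `a + 1` on machine `b + 1`. -/
noncomputable def comp (t : ℕ → ℕ → ℝ) : ℕ → ℕ → ℝ
  | 0, _ => 0
  | _ + 1, 0 => 0
  | i + 1, j + 1 => max (comp t i (j + 1)) (comp t (i + 1) j) + t i j

/-- The makespan `C_{n,m}` of the permutation schedule `π`; `T (i, j)` is the time of task `i` on
machine `j`. -/
noncomputable def makespan {n m : ℕ} (T : Fin n × Fin m → ℝ) (π : Equiv.Perm (Fin n)) : ℝ :=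
  comp (fun a b => if h : a < n ∧ b < m then T (π ⟨a, h.1⟩, ⟨b, h.2⟩) else 0) n m

/-- The optimal makespan: the minimum over all permutations. -/
noncomputable def optMakespan {n m : ℕ} (T : Fin n × Fin m → ℝ) : ℝ :=
  Finset.univ.inf' Finset.univ_nonempty (makespan T)

end Pool.Agent.H33.FlowShop
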