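import Pool.Agent.H33.FockDefs

namespace Pool.Agent.H33.Fock

open MeasureTheory Filter Topology InnerProductSpace AddCircle

section abstract
variable {H ι : Type} [NormedAddCommGroup H] [InnerProductSpace ℂ H] [CompleteSpace H]

lemma ext_basis (b : HilbertBasis ι ℂ H) {x y : H} (h : ∀ i, ⟪b i, x⟫_ℂ = ⟪b i, y⟫_ℂ) : x = y := by
  apply b.repr.injective
  ext i
  simp [b.repr_apply_apply, h]

lemma exists_diag (b : HilbertBasis ι ℂ H) (c : ι → ℂ) (C : ℝ) (hC : 0 ≤ C) (h : ∀ i, ‖c i‖ ≤ C) :
    ∃ M : H →L[ℂ] H, ‖M‖ ≤ C ∧ ∀ f i, ⟪b i, M f⟫_ℂ = c i * ⟪b i, f⟫_ℂ := by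
  have hb : ∀ (x : lp (fun _ : ι => ℂ) 2) i, ‖c i * x i‖ ≤ ‖((C : ℂ) • x) i‖ := by
    intro x i
    rw [lp.coeFn_smul, Pi.smul_apply, norm_mul, norm_smul, Complex.norm_real, Real.norm_of_nonneg hC]
    exact mul_le_mul_of_nonneg_right (h i) (norm_nonneg _)
  let L : lp (fun _ : ι => ℂ) 2 →ₗ[ℂ] lp (fun _ : ι => ℂ) 2 :=
    { toFun := fun x => ⟨fun i => c i * x i, (lp.memℓp ((C : ℂ) • x)).mono' (hb x)⟩
      map_add' := fun x y => by ext i; simp [mul_add]
      map_smul' := fun a x => by ext i; simp [mul_left_comm] }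
  have hL : ∀ x, ‖L x‖ ≤ C * ‖x‖ := fun x => by
    have := lp.norm_mono (x := L x) (y := (C : ℂ) • x) (by simp) (hb x)
    rwa [norm_smul, Complex.norm_real, Real.norm_of_nonneg hC] at this
  refine ⟨(b.repr.symm.toLinearEquiv.toLinearMap ∘ₗ L ∘ₗ b.repr.toLinearEquiv.toLinearMap).mkContinuous
    C fun f => by simpa using hL (b.repr f), LinearMap.mkContinuous_norm_le _ hC _, fun f i => ?_⟩
  rw [← b.repr_apply_apply, ← b.repr_apply_apply]
  simp [L]

lemma diag_compact (b : HilbertBasis ι ℂ H) (c : ι → ℂ) (hc : Tendsto c cofinite (𝓝 0))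
    (M : H →L[ℂ] H) (hM : ∀ f i, ⟪b i, M f⟫_ℂ = c i * ⟪b i, f⟫_ℂ) : IsCompactOperator M := by
  classical
  refine isCompactOperator_of_tendsto (l := atTop)
    (F := fun s : Finset ι => ∑ i ∈ s, c i • rankOne ℂ (b i) (b i)) ?_
    (Eventually.of_forall fun s => ?_)
  · rw [Metric.tendsto_nhds]
    intro ε hε
    have h1 := (Metric.tendsto_nhds.mp hc (ε / 2) (by positivity))
    rw [eventually_cofinite] at h1
    filter_upwards [eventually_ge_atTop h1.toFinset] with s hs
    obtain ⟨N, hN1, hN2⟩ := exists_diag b (fun i => if i ∈ s then 0 else c i) (ε / 2)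
      (by positivity) (fun i => by
        split_ifs with hi
        · simp; positivity
        · by_contra hcon
          exact hi (hs (by simpa using (not_le.mp hcon).le)))
    have : M - ∑ i ∈ s, c i • rankOne ℂ (b i) (b i) = N := by
      ext f
      refine ext_basis b fun j => ?_
      simp only [hN2, sub_apply, inner_sub_right, hM, ContinuousLinearMap.coe_sum',
        Finset.sum_apply, smul_apply, rankOne_apply, inner_sum, inner_smul_right,
        orthonormal_iff_ite.mp b.orthonormal, mul_ite, mul_one, mul_zero, Finset.sum_ite_eq]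
      split_ifs <;> simp
    rw [dist_comm, dist_eq_norm, this]
    linarith
  · induction s using Finset.induction_on with
    | empty => simpa using isCompactOperator_zero
    | insert i s hi ih =>
      rw [Finset.sum_insert hi]
      refine IsCompactOperator.add (IsCompactOperator.smul ?_ (c i)) ih
      rw [rankOne_def']
      have h1 : IsCompactOperator (innerSL ℂ (b i) : H →L[ℂ] ℂ) :=
        isCompactOperator_of_locallyCompactSpace_dom _
      exact h1.clm_comp (ContinuousLinearMap.toSpanSingleton ℂ (b i))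

lemma pos_case (b : HilbertBasis ι ℂ H) (l : ι → ℂ) (hl : ∀ i, 1 ≤ ‖l i‖)
    (hc : Tendsto (fun i => (l i)⁻¹) cofinite (𝓝 0)) (G : Set (H × H))
    (h0 : (0 : H × H) ∈ G) (hadd : ∀ p ∈ G, ∀ q ∈ G, p + q ∈ G) (hsm : ∀ (a : ℂ), ∀ p ∈ G, a • p ∈ G)
    (h1 : ∀ i, (b i, l i • b i) ∈ G) (h2 : ∀ p ∈ G, ∀ i, ⟪b i, p.2⟫_ℂ = l i * ⟪b i, p.1⟫_ℂ) :
    CompactResolvent (closure G) := by
  classical
  have hl0 : ∀ i, l i ≠ 0 := fun i h => by have := hl i; rw [h, norm_zero] at this; linarith
  obtain ⟨R, -, hR⟩ := exists_diag b (fun i => (l i)⁻¹) 1 zero_le_one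
    (fun i => by rw [norm_inv]; exact inv_le_one_of_one_le₀ (hl i))
  refine ⟨0, -R, (diag_compact b _ hc R hR).neg, fun x y h => ext_basis b fun i => ?_,
    fun f h => ?_⟩
  · have := congrArg (fun v => ⟪b i, v⟫_ℂ) h
    simpa [hR, hl0] using this
  simp only [zero_smul, zero_sub, neg_apply, map_neg, neg_neg]
  constructor
  · intro hp
    have hcl : IsClosed {p : H × H | R p.2 = p.1} := isClosed_eq (by fun_prop) (by fun_prop)
    refine closure_minimal (fun p hp => ext_basis b fun i => ?_) hcl hp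
    rw [hR, h2 p hp, inv_mul_cancel_left₀ (hl0 i)]
  · rintro rfl
    have t1 := b.hasSum_repr h
    have t2 := (R.continuous.tendsto h).comp t1
    refine mem_closure_of_tendsto (t2.prodMk_nhds t1) (Eventually.of_forall fun s => ?_)
    simp only [Function.comp]
    induction s using Finset.induction_on with
    | empty => rw [Finset.sum_empty, map_zero]; exact h0
    | insert i s hi ih =>
      rw [Finset.sum_insert hi, map_add]
      refine hadd (_, _) ?_ (_, _) ih
      convert hsm (b.repr h i * (l i)⁻¹) _ (h1 i) using 1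
      refine Prod.ext (ext_basis b fun j => ?_) ?_
      · simp only [hR, inner_smul_right, Prod.smul_fst, orthonormal_iff_ite.mp b.orthonormal]
        split_ifs with hj
        · rw [hj]; ring
        · simp
      · simp [smul_smul, hl0]

omit [CompleteSpace H] in
lemma neg_case (v : ℕ → H) (hv : Orthonormal ℂ v) (G : Set (H × H)) (h : ∀ a, (v a, 0) ∈ G) :
    ¬ CompactResolvent G := by
  rintro ⟨c, R, hR, -, hG⟩
  have h1 : ∀ a, v a ∈ closure (R '' Metric.closedBall 0 ‖c‖) := fun a =>
    subset_closure ⟨c • v a, by simp [norm_smul, hv.1 a], by simpa using (hG _ _).mp (h a)⟩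
  obtain ⟨x, -, φ, hφ, ht⟩ :=
    (hR.isCompact_closure_image_closedBall (f := R.toLinearMap) ‖c‖).tendsto_subseq h1
  have t1 := ht.inner (𝕜 := ℂ) (ht.comp (tendsto_add_atTop_nat 1))
  have t2 := ht.inner (𝕜 := ℂ) ht
  have e1 : ∀ n, ⟪(v ∘ φ) n, ((v ∘ φ) ∘ fun a => a + 1) n⟫_ℂ = 0 := fun n =>
    hv.2 (hφ (Nat.lt_succ_self n)).ne
  have e2 : ∀ n, ⟪(v ∘ φ) n, (v ∘ φ) n⟫_ℂ = 1 := fun n => by simp [hv.1]
  simp only [e1] at t1
  simp only [e2] at t2
  exact zero_ne_one ((tendsto_const_nhds_iff.mp t1).trans (tendsto_const_nhds_iff.mp t2).symm)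

end abstract

abbrev T := UnitAddCircle

lemma norm_four (k : ℤ) (t : T) : ‖fourier k t‖ = 1 := Circle.norm_coe _

lemma four_pow (n : ℕ) (t : T) : fourier 1 t ^ n = fourier n t := by
  induction n with
  | zero => simp
  | succ n ih => rw [pow_succ, ih, ← fourier_add]; simp

lemma int_four (k : ℤ) : ∫ t : T, fourier k t ∂haarAddCircle = if k = 0 then 1 else 0 := by
  have := congrFun (fourierCoeff_fourier (T := 1) k) 0
  simp only [fourierCoeff, neg_zero, fourier_zero, one_smul] at this
  rw [this, Pi.single_apply]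
  simp [eq_comm]

noncomputable def co (g : ℂ → ℂ) (z : ℂ) (k : ℤ) : ℂ :=
  ∫ t : T, fourier (-k) t * g (fourier 1 t * z) ∂haarAddCircle

lemma taylor (g : ℂ → ℂ) (hg : Differentiable ℂ g) : ∃ c : ℕ → ℂ,
    (∀ z, HasSum (fun n => c n * z ^ n) (g z)) ∧
      ∀ z (k : ℤ), co g z k = if 0 ≤ k then c k.toNat * z ^ k.toNat else 0 := by
  have hp := hg.hasFPowerSeriesOnBall 0 (R := 1) one_pos
  set p := cauchyPowerSeries g 0 ((1 : NNReal) : ℝ)
  have h1 : ∀ z, HasSum (fun n => p.coeff n * z ^ n) (g z) := by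
    intro z
    have := hp.hasSum (y := z) (by simp)
    simpa [mul_comm] using this
  refine ⟨p.coeff, h1, fun z k => ?_⟩
  have hs : Summable fun n => ‖p.coeff n * z ^ n‖ := (h1 z).summable.norm
  have h2 := hasSum_integral_of_summable_integral_norm (μ := haarAddCircle)
    (F := fun (n : ℕ) (t : T) => fourier (-k) t * (p.coeff n * (fourier 1 t * z) ^ n))
    (fun n => Continuous.integrable_of_hasCompactSupport (by fun_prop)
      (HasCompactSupport.of_compactSpace _))
    (by simpa [norm_four] using hs)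
  have e1 : ∀ t : T, ∑' n : ℕ, fourier (-k) t * (p.coeff n * (fourier 1 t * z) ^ n) =
      fourier (-k) t * g (fourier 1 t * z) := fun t => ((h1 _).mul_left _).tsum_eq
  simp only [e1] at h2
  have e2 : ∀ n : ℕ, ∫ t : T, fourier (-k) t * (p.coeff n * (fourier 1 t * z) ^ n) ∂haarAddCircle =
      if (n : ℤ) = k then p.coeff n * z ^ n else 0 := by
    intro n
    have : ∀ t : T, fourier (-k) t * (p.coeff n * (fourier 1 t * z) ^ n) =
        fourier (-k + n) t * (p.coeff n * z ^ n) := by
      intro t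
      rw [mul_pow, four_pow, fourier_add]
      ring
    simp only [this, integral_mul_const, int_four]
    by_cases h : (n : ℤ) = k
    · simp [h]
    · rw [if_neg h, if_neg (by omega), zero_mul]
  simp only [e2] at h2
  refine h2.unique ?_
  split_ifs with hk
  · lift k to ℕ using hk
    simpa using hasSum_ite_eq k (p.coeff k * z ^ k) |>.congr_fun fun n => by
      by_cases h : n = k <;> simp [h]
  · have : ∀ n : ℕ, ¬ (n : ℤ) = k := fun n => by omega
    simpa [this] using hasSum_zero

lemma co_scale (g : ℂ → ℂ) (hg : Differentiable ℂ g) (z : ℂ) (n : ℕ) :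
    co g z n = z ^ n * co g 1 n := by
  obtain ⟨c, -, h⟩ := taylor g hg
  simp [h, mul_comm]

lemma co_neg (g : ℂ → ℂ) (hg : Differentiable ℂ g) (k : ℤ) (hk : k < 0) : co g 1 k = 0 := by
  obtain ⟨c, -, h⟩ := taylor g hg
  rw [h, if_neg (by omega)]

lemma co_zero (g : ℂ → ℂ) (hg : Differentiable ℂ g) (h0 : ∀ n : ℕ, co g 1 n = 0) (z : ℂ) :
    g z = 0 := by
  obtain ⟨c, h1, h⟩ := taylor g hg
  have : ∀ n, c n = 0 := fun n => by simpa [h] using h0 n
  exact (h1 z).unique (by simpa [this] using hasSum_zero)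

noncomputable def A (G : ℂ × ℂ → ℂ) (z : ℂ × ℂ) (a b : ℤ) : ℂ :=
  ∫ p : T × T, fourier (-a) p.1 * fourier (-b) p.2 * G (fourier 1 p.1 * z.1, fourier 1 p.2 * z.2)
    ∂(haarAddCircle.prod haarAddCircle)

lemma A_int (G : ℂ × ℂ → ℂ) (hG : Continuous G) (z : ℂ × ℂ) (a b : ℤ) :
    Integrable (fun p : T × T => fourier (-a) p.1 * fourier (-b) p.2 *
      G (fourier 1 p.1 * z.1, fourier 1 p.2 * z.2)) (haarAddCircle.prod haarAddCircle) :=
  Continuous.integrable_of_hasCompactSupport (by fun_prop) (HasCompactSupport.of_compactSpace _)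

lemma A_right (G : ℂ × ℂ → ℂ) (hG : Continuous G) (z : ℂ × ℂ) (a b : ℤ) :
    A G z a b = ∫ s : T, fourier (-a) s * co (fun w => G (fourier 1 s * z.1, w)) z.2 b
      ∂haarAddCircle := by
  rw [A, integral_prod _ (A_int G hG z a b)]
  simp only [co, ← integral_const_mul, mul_assoc]

lemma A_left (G : ℂ × ℂ → ℂ) (hG : Continuous G) (z : ℂ × ℂ) (a b : ℤ) :
    A G z a b = ∫ t : T, fourier (-b) t * co (fun w => G (w, fourier 1 t * z.2)) z.1 a
      ∂haarAddCircle := by
  rw [A, integral_prod_symm _ (A_int G hG z a b)]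
  simp only [co, ← integral_const_mul, mul_assoc, mul_left_comm]

lemma A_scale (G : ℂ × ℂ → ℂ) (hG : Differentiable ℂ G) (z : ℂ × ℂ) (a b : ℕ) :
    A G z a b = z.1 ^ a * z.2 ^ b * A G 1 a b := by
  have h1 : A G z a b = z.2 ^ b * A G (z.1, 1) a b := by
    rw [A_right G hG.continuous, A_right G hG.continuous, ← integral_const_mul]
    congr 1
    ext s
    rw [co_scale _ (by fun_prop)]
    ring
  have h2 : A G (z.1, 1) a b = z.1 ^ a * A G 1 a b := by
    rw [A_left G hG.continuous, A_left G hG.continuous, ← integral_const_mul]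
    congr 1
    ext s
    rw [co_scale _ (by fun_prop)]
    simp only [Prod.snd_one, Prod.fst_one]
    ring
  rw [h1, h2]
  ring

lemma A_unique (G : ℂ × ℂ → ℂ) (hG : Differentiable ℂ G) (h : ∀ a b : ℕ, A G 1 a b = 0)
    (z : ℂ × ℂ) : G z = 0 := by
  have hc := hG.continuous
  have h1 : ∀ (b : ℕ) (s : T), co (fun w => G (fourier 1 s * 1, w)) 1 b = 0 := by
    intro b
    have hcont : Continuous fun s : T => co (fun w => G (fourier 1 s * 1, w)) 1 b := by
      have := continuous_parametric_integral_of_continuous (μ := haarAddCircle)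
        (f := fun (s : T) (t : T) => fourier (-(b : ℤ)) t * G (fourier 1 s * 1, fourier 1 t * 1))
        (by fun_prop) isCompact_univ
      simp only [Measure.restrict_univ] at this
      exact this
    let f : C(T, ℂ) := ⟨_, hcont⟩
    have hf : ∀ a : ℤ, fourierCoeff f a = 0 := by
      intro a
      have e : fourierCoeff f a = A G 1 a b := (A_right G hc 1 a b).symm
      rw [e]
      rcases le_or_gt 0 a with ha | ha
      · lift a to ℕ using ha
        exact h a b
      · rw [A_left G hc]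
        refine integral_eq_zero_of_ae (Eventually.of_forall fun t => ?_)
        simp only [Prod.fst_one, Pi.zero_apply]
        rw [co_neg _ (by fun_prop) a ha, mul_zero]
    have h2 := hasSum_fourier_series_of_summable (f := f)
      (by rw [show fourierCoeff f = 0 from funext hf]; exact summable_zero)
    have h4 : (fun i : ℤ => fourierCoeff f i • (fourier i : C(T, ℂ))) = fun _ => 0 := by
      ext i t
      simp [hf]
    have h3 : f = 0 := h2.unique (h4 ▸ hasSum_zero)
    intro s
    exact DFunLike.congr_fun h3 s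
  have h2 : ∀ (s : T) w, G (fourier 1 s * 1, w) = 0 := fun s w =>
    co_zero (fun w => G (fourier 1 s * 1, w)) (by fun_prop) (fun b => h1 b s) w
  exact co_zero (fun w => G (w, z.2)) (by fun_prop) (fun a => by simp only [co, h2]; simp) z.1

lemma A_mono (c d a b : ℕ) :
    A (fun z => z.1 ^ c * z.2 ^ d) 1 a b = if (a, b) = (c, d) then 1 else 0 := by
  have : ∀ p : T × T, fourier (-(a : ℤ)) p.1 * fourier (-(b : ℤ)) p.2 *
      ((fourier 1 p.1 * 1) ^ c * (fourier 1 p.2 * 1) ^ d) =
      fourier (-(a : ℤ) + c) p.1 * fourier (-(b : ℤ) + d) p.2 := by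
    intro p
    simp only [mul_one, four_pow, fourier_add]
    ring
  simp only [A, Prod.fst_one, Prod.snd_one, this]
  rw [integral_prod_mul (fun s : T => fourier (-(a : ℤ) + c) s) (fun s : T => fourier (-(b : ℤ) + d) s),
    int_four, int_four]
  by_cases h1 : a = c <;> by_cases h2 : b = d <;> simp [h1, h2] <;> omega

end Pool.Agent.H33.Fock
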