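import Pool.Agent.H33.Fock1

namespace Pool.Agent.H33.Fock

open MeasureTheory Filter Topology InnerProductSpace AddCircle
open scoped ComplexConjugate Real Nat

noncomputable def gam : Measure ℂ :=
  volume.withDensity (fun z => ENNReal.ofReal (Real.exp (-‖z‖ ^ 2)))

instance : SFinite gam := by unfold gam; infer_instance

lemma mu_eq : mu = gam.prod gam := by
  rw [gam, prod_withDensity (by fun_prop) (by fun_prop), mu]
  congr 1
  ext z
  rw [← ENNReal.ofReal_mul (by positivity), ← Real.exp_add, neg_add]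

instance : SFinite mu := by rw [mu_eq]; infer_instance

lemma gam_rot (u : ℂ) (hu : ‖u‖ = 1) : MeasurePreserving (fun z => u * z) gam gam := by
  have h1 : MeasurePreserving (fun z => u * z) (volume : Measure ℂ) volume :=
    (rotation ⟨u, by simpa [Submonoid.unitSphere] using hu⟩).measurePreserving
  refine ⟨by fun_prop, ?_⟩
  ext s hs
  rw [Measure.map_apply (by fun_prop) hs, gam, withDensity_apply _ hs,
    withDensity_apply _ (h1.measurable hs), ← h1.setLIntegral_comp_preimage hs (by fun_prop)]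
  simp [hu]

lemma gam_mom (a : ℕ) : ∫ z, ‖z‖ ^ (2 * a) ∂gam = π * a ! := by
  rw [gam, integral_withDensity_eq_integral_toReal_smul (by fun_prop) (by simp)]
  have := Complex.integral_rpow_mul_exp_neg_rpow (p := 2) (q := (2 * a : ℕ)) (by norm_num)
    (lt_of_lt_of_le (by norm_num) (Nat.cast_nonneg _))
  have e : (((2 * a : ℕ) : ℝ) + 2) / 2 = a + 1 := by push_cast; ring
  rw [e, Real.Gamma_nat_eq_factorial] at this
  simp only [Real.rpow_natCast, Real.rpow_two] at this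
  rw [show π * (a ! : ℝ) = 2 * π / 2 * (a ! : ℝ) by ring, ← this]
  congr 1
  ext z
  rw [ENNReal.toReal_ofReal (by positivity), smul_eq_mul, mul_comm]

lemma gam_int (a : ℕ) : Integrable (fun z => ‖z‖ ^ (2 * a)) gam :=
  .of_integral_ne_zero (by rw [gam_mom]; positivity)

lemma mu_mom (a b : ℕ) : ∫ z, ‖z.1‖ ^ (2 * a) * ‖z.2‖ ^ (2 * b) ∂mu = π ^ 2 * (a ! * b !) := by
  rw [mu_eq, integral_prod_mul (fun z : ℂ => ‖z‖ ^ (2 * a)) (fun z : ℂ => ‖z‖ ^ (2 * b)),
    gam_mom, gam_mom]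
  ring

lemma mu_int (a b : ℕ) : Integrable (fun z => ‖z.1‖ ^ (2 * a) * ‖z.2‖ ^ (2 * b)) mu := by
  rw [mu_eq]
  exact (gam_int a).mul_prod (gam_int b)

lemma avg (F : ℂ × ℂ → ℂ) (hF : Integrable F mu) :
    ∫ z, F z ∂mu = ∫ z, ∫ p : T × T, F (fourier 1 p.1 * z.1, fourier 1 p.2 * z.2)
      ∂(haarAddCircle.prod haarAddCircle) ∂mu := by
  have h1 : ∀ p : T × T, MeasurePreserving
      (fun z : ℂ × ℂ => (fourier 1 p.1 * z.1, fourier 1 p.2 * z.2)) mu mu := by
    intro p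
    rw [mu_eq]
    exact (gam_rot _ (norm_four 1 p.1)).prod (gam_rot _ (norm_four 1 p.2))
  have h2 := (MeasurePreserving.id (haarAddCircle.prod haarAddCircle)).skew_product
    (g := fun (p : T × T) (z : ℂ × ℂ) => (fourier 1 p.1 * z.1, fourier 1 p.2 * z.2))
    (μc := mu) (μd := mu) (Continuous.measurable (by fun_prop))
    (Eventually.of_forall fun p => (h1 p).map_eq)
  have h3 := (measurePreserving_snd (μ := (haarAddCircle.prod haarAddCircle : Measure (T × T)))
    (ν := mu)).comp h2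
  have h4 := h3.integrable_comp_of_integrable hF
  have h5 := integral_prod_symm _ h4
  rw [← h3.map_eq, integral_map h3.measurable.aemeasurable (by rw [h3.map_eq]; exact hF.1)]
  conv_rhs => rw [h3.map_eq]
  exact h5

noncomputable def wt (k l : ℕ) (z : ℂ × ℂ) : ℂ := ((‖z.1‖ ^ (2 * k) * ‖z.2‖ ^ (2 * l) : ℝ) : ℂ)

lemma key (G : ℂ × ℂ → ℂ) (hG : Differentiable ℂ G) (a b k l : ℕ)
    (hF : Integrable (fun z => conj (z.1 ^ a * z.2 ^ b) * wt k l z * G z) mu) :
    ∫ z, conj (z.1 ^ a * z.2 ^ b) * wt k l z * G z ∂mu =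
      A G 1 a b * (π ^ 2 * ((a + k)! * (b + l)!) : ℝ) := by
  rw [avg _ hF, ← mu_mom, ← integral_complex_ofReal, ← integral_const_mul]
  congr 1
  ext z
  have : ∀ p : T × T, conj ((fourier 1 p.1 * z.1) ^ a * (fourier 1 p.2 * z.2) ^ b) *
      wt k l (fourier 1 p.1 * z.1, fourier 1 p.2 * z.2) *
      G (fourier 1 p.1 * z.1, fourier 1 p.2 * z.2) =
      (conj (z.1 ^ a * z.2 ^ b) * wt k l z) * (fourier (-(a : ℤ)) p.1 * fourier (-(b : ℤ)) p.2 *
      G (fourier 1 p.1 * z.1, fourier 1 p.2 * z.2)) := by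
    intro p
    simp only [wt, norm_mul, norm_four, one_mul, mul_pow, four_pow, map_mul, fourier_neg]
    ring
  simp only [this]
  rw [integral_const_mul]
  change _ * A G z a b = _
  rw [A_scale G hG]
  have h1 := Complex.conj_mul' z.1
  have h2 := Complex.conj_mul' z.2
  simp only [wt, map_mul, map_pow, mul_add, pow_add, pow_mul]
  push_cast
  rw [← h1, ← h2]
  simp only [mul_pow]
  ring

noncomputable def kap (i : ℕ × ℕ) : ℝ := (π * √(i.1 ! * i.2 !))⁻¹

lemma kap_pos (i : ℕ × ℕ) : 0 < kap i := by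
  unfold kap
  have := Real.pi_pos
  positivity

lemma kap_sq (i : ℕ × ℕ) : kap i * kap i * (π ^ 2 * (i.1 ! * i.2 !)) = 1 := by
  unfold kap
  have := Real.pi_pos
  have h : √((i.1 ! : ℝ) * i.2 !) * √((i.1 ! : ℝ) * i.2 !) = i.1 ! * i.2 ! :=
    Real.mul_self_sqrt (by positivity)
  have h0 : (0 : ℝ) < i.1 ! * i.2 ! := by positivity
  rw [← mul_inv, mul_mul_mul_comm, h, ← sq, inv_mul_cancel₀ (by positivity)]

noncomputable def mon (i : ℕ × ℕ) (z : ℂ × ℂ) : ℂ := kap i * (z.1 ^ i.1 * z.2 ^ i.2)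

lemma mon_diff (i : ℕ × ℕ) : Differentiable ℂ (mon i) := by unfold mon; fun_prop

lemma wt_mon (k l : ℕ) (i : ℕ × ℕ) : MemLp (fun z => wt k l z * mon i z) 2 mu := by
  rw [memLp_two_iff_integrable_sq_norm (Continuous.aestronglyMeasurable (by
    unfold wt mon; fun_prop))]
  refine ((mu_int (2 * k + i.1) (2 * l + i.2)).const_mul (kap i ^ 2)).congr
    (Eventually.of_forall fun z => ?_)
  simp only [wt, mon, norm_mul, norm_pow, Complex.norm_real, Real.norm_eq_abs, abs_norm, mul_pow,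
    sq_abs]
  ring

lemma wt_zero (z : ℂ × ℂ) : wt 0 0 z = 1 := by simp [wt]

lemma mon_mem (i : ℕ × ℕ) : MemLp (mon i) 2 mu := by
  simpa [wt_zero] using wt_mon 0 0 i

noncomputable def v (i : ℕ × ℕ) : BS := ⟨(mon_mem i).toLp _, mon i, mon_diff i, MemLp.coeFn_toLp _⟩

lemma fn_v (i : ℕ × ℕ) : fn (v i) =ᵐ[mu] mon i := MemLp.coeFn_toLp (mon_mem i)

lemma inner_eq (f g : BS) : ⟪f, g⟫_ℂ = ∫ z, star (fn f z) * fn g z ∂mu := by
  rw [Submodule.coe_inner, L2.inner_def]
  simp [fn, mul_comm]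

lemma fn_mem (f : BS) : MemLp (fn f) 2 mu := Lp.memLp f.1

lemma int_mul {F G : ℂ × ℂ → ℂ} (hF : MemLp F 2 mu) (hG : MemLp G 2 mu) :
    Integrable (fun z => star (F z) * G z) mu := hF.star.integrable_mul hG

lemma key2 (f : BS) (G : ℂ × ℂ → ℂ) (hG : Differentiable ℂ G) (hf : fn f =ᵐ[mu] G) (i : ℕ × ℕ)
    (k l : ℕ) : ∫ z, star (fn (v i) z) * (wt k l z * fn f z) ∂mu =
      kap i * (A G 1 i.1 i.2 * (π ^ 2 * ((i.1 + k)! * (i.2 + l)!) : ℝ)) := by
  have h1 := int_mul (wt_mon k l i) (fn_mem f)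
  have hk : (kap i : ℂ) ≠ 0 := Complex.ofReal_ne_zero.mpr (kap_pos i).ne'
  rw [← key G hG, ← integral_const_mul]
  · refine integral_congr_ae ?_
    filter_upwards [fn_v i, hf] with z h2 h3
    simp only [h2, h3, mon, RCLike.star_def, map_mul, Complex.conj_ofReal]
    ring
  · refine (h1.const_mul (kap i : ℂ)⁻¹).congr ?_
    filter_upwards [hf] with z h3
    simp only [h3, mon, wt, RCLike.star_def, map_mul, Complex.conj_ofReal]
    field_simp

lemma inner_v (f : BS) (G : ℂ × ℂ → ℂ) (hG : Differentiable ℂ G) (hf : fn f =ᵐ[mu] G) (i : ℕ × ℕ) :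
    ⟪v i, f⟫_ℂ = kap i * (A G 1 i.1 i.2 * (π ^ 2 * (i.1 ! * i.2 !) : ℝ)) := by
  have := key2 f G hG hf i 0 0
  simp only [wt_zero, one_mul, add_zero] at this
  rw [inner_eq, this]

lemma key3 (f : BS) (i : ℕ × ℕ) (k l : ℕ) : ∫ z, star (fn (v i) z) * (wt k l z * fn f z) ∂mu =
    (((i.1 + k)! * (i.2 + l)! / (i.1 ! * i.2 !) : ℝ) : ℂ) * ⟪v i, f⟫_ℂ := by
  obtain ⟨G, hG, hf⟩ := f.2
  rw [key2 f G hG hf, inner_v f G hG hf]
  have h1 : ((i.1 ! : ℕ) : ℂ) ≠ 0 := by exact_mod_cast (Nat.factorial_pos _).ne'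
  have h2 : ((i.2 ! : ℕ) : ℂ) ≠ 0 := by exact_mod_cast (Nat.factorial_pos _).ne'
  push_cast
  field_simp

lemma A_smul (c : ℂ) (G : ℂ × ℂ → ℂ) (a b : ℤ) : A (fun z => c * G z) 1 a b = c * A G 1 a b := by
  simp only [A, ← integral_const_mul, mul_left_comm]

lemma v_on : Orthonormal ℂ v := by
  rw [orthonormal_iff_ite]
  intro i j
  rw [inner_v (v j) (mon j) (mon_diff j) (fn_v j)]
  have := A_smul (kap j) (fun z => z.1 ^ j.1 * z.2 ^ j.2) i.1 i.2
  rw [A_mono] at this
  erw [this]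
  split_ifs with h
  · obtain rfl : i = j := h
    have := congrArg Complex.ofReal (kap_sq i)
    push_cast at this ⊢
    linear_combination this
  · simp

lemma v_total (f : BS) (h : ∀ i, ⟪v i, f⟫_ℂ = 0) : f = 0 := by
  obtain ⟨G, hG, hf⟩ := f.2
  have h1 : ∀ a b : ℕ, A G 1 a b = 0 := by
    intro a b
    have := h (a, b)
    rw [inner_v f G hG hf] at this
    have hk : (kap (a, b) : ℂ) ≠ 0 := Complex.ofReal_ne_zero.mpr (kap_pos _).ne'
    have hp : ((π ^ 2 * (a ! * b !) : ℝ) : ℂ) ≠ 0 :=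
      Complex.ofReal_ne_zero.mpr (by have := Real.pi_pos; positivity)
    exact (mul_eq_zero.mp ((mul_eq_zero.mp this).resolve_left hk)).resolve_right hp
  refine Subtype.ext (Lp.ext (hf.trans (.trans ?_ (Lp.coeFn_zero _ _ _).symm)))
  exact Eventually.of_forall (A_unique G hG h1)

lemma sum1 (x : ℝ) (hx : 0 ≤ x) : Summable fun a : ℕ => x ^ a / √(a !) := by
  refine Summable.of_nonneg_of_le (fun a => by positivity) (fun a => ?_)
    (summable_geometric_two.mul_left (Real.exp (2 * x ^ 2)))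
  have h1 := Real.pow_div_factorial_le_exp (4 * x ^ 2) (by positivity) a
  have h2 : (0 : ℝ) < a ! := by positivity
  refine (pow_le_pow_iff_left₀ (by positivity) (by positivity) two_ne_zero).mp ?_
  rw [div_pow, Real.sq_sqrt h2.le, mul_pow, ← Real.exp_nat_mul]
  have e : (x ^ a) ^ 2 / a ! = (4 * x ^ 2) ^ a / a ! * ((1 / 2) ^ a) ^ 2 := by
    rw [mul_pow, ← pow_mul, ← pow_mul, ← pow_mul, mul_comm a 2, pow_mul (1 / 2 : ℝ),
      show ((1 / 2 : ℝ) ^ 2) = 4⁻¹ by norm_num, inv_pow]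
    field_simp
  rw [e]
  gcongr
  refine h1.trans (le_of_eq ?_)
  congr 1
  push_cast
  ring

lemma sum2 (x : ℝ) (hx : 0 ≤ x) : Summable fun i : ℕ × ℕ => kap i * x ^ (i.1 + i.2) := by
  have := ((sum1 x hx).mul_of_nonneg (sum1 x hx) (fun a => by positivity)
    (fun a => by positivity)).mul_left π⁻¹
  refine this.congr fun i => ?_
  rw [kap, Real.sqrt_mul (by positivity), pow_add]
  field_simp

lemma series (c : ℕ × ℕ → ℂ) (C : ℝ) (hc : ∀ i, ‖c i‖ ≤ C) :
    (∀ z, Summable fun i => c i * mon i z) ∧ Differentiable ℂ (fun z => ∑' i, c i * mon i z) := by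
  have hC : 0 ≤ C := (norm_nonneg _).trans (hc 0)
  have h1 : ∀ z, Summable fun i => c i * mon i z := by
    intro z
    refine Summable.of_norm_bounded ((sum2 ‖z‖ (norm_nonneg _)).mul_left C) fun i => ?_
    simp only [mon, norm_mul, norm_pow, Complex.norm_real, Real.norm_of_nonneg (kap_pos i).le,
      pow_add]
    have := (kap_pos i).le
    gcongr
    exacts [hc i, norm_fst_le z, norm_snd_le z]
  refine ⟨h1, fun z => ?_⟩
  set R := ‖z‖ + 1
  have hR : 1 ≤ R := by simp [R]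
  refine (hasFDerivAt_tsum_of_isPreconnected (s := Metric.ball 0 R) (x₀ := z)
    (f' := fun i x => c i • ((kap i : ℂ) • (x.1 ^ i.1 • (i.2 • x.2 ^ (i.2 - 1)) •
      ContinuousLinearMap.snd ℂ ℂ ℂ + x.2 ^ i.2 • (i.1 • x.1 ^ (i.1 - 1)) •
      ContinuousLinearMap.fst ℂ ℂ ℂ)))
    ((sum2 (2 * R) (by positivity)).mul_left C) Metric.isOpen_ball
    (convex_ball _ _).isPreconnected (fun i x _ => ?_) (fun i x hx => ?_) (by simp [R]) (h1 z)
    (by simp [R])).differentiableAt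
  · exact (((hasFDerivAt_fst.pow i.1).mul (hasFDerivAt_snd.pow i.2)).const_mul _).const_mul _
  · have hx' : ‖x‖ ≤ R := by simpa using (Metric.mem_ball.mp hx).le
    have a1 : ‖x.1‖ ≤ R := (norm_fst_le x).trans hx'
    have a2 : ‖x.2‖ ≤ R := (norm_snd_le x).trans hx'
    have := (kap_pos i).le
    rw [norm_smul, norm_smul, Complex.norm_real, Real.norm_of_nonneg this]
    gcongr
    · exact hc i
    refine (norm_add_le _ _).trans ?_
    have b1 : ‖x.1 ^ i.1 • (i.2 • x.2 ^ (i.2 - 1)) • ContinuousLinearMap.snd ℂ ℂ ℂ‖ ≤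
        R ^ i.1 * (i.2 * R ^ i.2 * 1) := by
      rw [norm_smul, norm_smul, norm_pow, nsmul_eq_mul, norm_mul, norm_pow, Complex.norm_natCast]
      gcongr
      · exact (pow_le_pow_left₀ (norm_nonneg _) a2 _).trans (pow_le_pow_right₀ hR (by omega))
      · exact ContinuousLinearMap.norm_snd_le ..
    have b2 : ‖x.2 ^ i.2 • (i.1 • x.1 ^ (i.1 - 1)) • ContinuousLinearMap.fst ℂ ℂ ℂ‖ ≤
        R ^ i.2 * (i.1 * R ^ i.1 * 1) := by
      rw [norm_smul, norm_smul, norm_pow, nsmul_eq_mul, norm_mul, norm_pow, Complex.norm_natCast]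
      gcongr
      · exact (pow_le_pow_left₀ (norm_nonneg _) a1 _).trans (pow_le_pow_right₀ hR (by omega))
      · exact ContinuousLinearMap.norm_fst_le ..
    have b3 : ((i.1 + i.2 : ℕ) : ℝ) ≤ 2 ^ (i.1 + i.2) := by
      exact_mod_cast (Nat.lt_two_pow_self).le
    calc _ ≤ ((i.1 + i.2 : ℕ) : ℝ) * R ^ (i.1 + i.2) := by
          rw [pow_add]; push_cast; linarith
      _ ≤ _ := by rw [mul_pow]; gcongr

lemma BS_closed : IsClosed (BS : Set (Lp ℂ 2 mu)) := by
  have hv : Orthonormal ℂ (fun i => (v i).1) := v_on.comp_linearIsometry BS.subtypeₗᵢ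
  let V := hv.orthogonalFamily.linearIsometry
  have hcl : IsClosed (LinearMap.range V.toLinearMap : Set (Lp ℂ 2 mu)) :=
    V.isometry.isClosedEmbedding.isClosed_range
  have h1 : LinearMap.range V.toLinearMap ≤ BS := by
    rintro _ ⟨c, rfl⟩
    obtain ⟨s1, s2⟩ := series c ‖c‖ fun i => lp.norm_apply_le_norm (by simp) c i
    refine ⟨_, s2, ?_⟩
    obtain ⟨ns, t1, t2⟩ := (tendstoInMeasure_of_tendsto_Lp
      (hv.orthogonalFamily.hasSum_linearIsometry c)).exists_seq_tendsto_ae'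
    have t3 : ∀ᵐ z ∂mu, ∀ s : Finset (ℕ × ℕ),
        (∑ i ∈ s, c i • (v i).1 : Lp ℂ 2 mu) z = ∑ i ∈ s, c i * mon i z := by
      rw [ae_all_iff]
      intro s
      have t4 : ∀ᵐ z ∂mu, ∀ i, (c i • (v i).1 : Lp ℂ 2 mu) z = c i * mon i z := by
        rw [ae_all_iff]
        intro i
        filter_upwards [Lp.coeFn_smul (c i) (v i).1, fn_v i] with z a1 a2
        rw [a1, Pi.smul_apply, ← a2]
        rfl
      filter_upwards [Lp.coeFn_finsetSum s (fun i => c i • (v i).1), t4] with z a1 a2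
      rw [a1, Finset.sum_apply]
      exact Finset.sum_congr rfl fun i _ => a2 i
    filter_upwards [t2, t3] with z a1 a2
    refine tendsto_nhds_unique a1 (((s1 z).hasSum.comp t1).congr fun n => (a2 _).symm)
  have : CompleteSpace (LinearMap.range V.toLinearMap) := hcl.completeSpace_coe
  have h2 : BS ≤ LinearMap.range V.toLinearMap := by
    intro f hf
    let K := LinearMap.range V.toLinearMap
    have a1 := K.starProjection_apply_mem f
    have a2 := K.sub_starProjection_mem_orthogonal f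
    have a3 := v_total ⟨f - K.starProjection f, BS.sub_mem hf (h1 a1)⟩ fun i => by
      refine a2 (v i).1 ⟨lp.single 2 i 1, ?_⟩
      simp [V]
    have a4 : f - K.starProjection f = 0 := congrArg Subtype.val a3
    rw [sub_eq_zero.mp a4]
    exact a1
  rw [← le_antisymm h1 h2]
  exact hcl

instance : CompleteSpace BS := BS_closed.completeSpace_coe

noncomputable def basis : HilbertBasis (ℕ × ℕ) ℂ BS :=
  HilbertBasis.mkOfOrthogonalEqBot v_on (by
    rw [Submodule.eq_bot_iff]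
    exact fun f hf => v_total f fun i => hf _ (Submodule.subset_span ⟨i, rfl⟩))

lemma basis_apply (i : ℕ × ℕ) : basis i = v i := by simp [basis]

end Pool.Agent.H33.Fock
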