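import Mathlib

namespace Pool.Agent.H33.FockD

open MeasureTheory

/-- The Gaussian measure `e^{-|z|²} dz` on `ℂ²`. -/
noncomputable def mu : Measure (ℂ × ℂ) :=
  volume.withDensity (fun z => ENNReal.ofReal (Real.exp (-(‖z.1‖ ^ 2 + ‖z.2‖ ^ 2))))

/-- The space `L²(μ)`. -/
def L2 : Type := Lp ℂ 2 mu

noncomputable instance nL2 : NormedAddCommGroup L2 := Lp.instNormedAddCommGroup

noncomputable instance sL2 : NormedSpace ℂ L2 := Lp.instNormedSpace

/-- A representative function of an element of `L²(μ)`. -/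
noncomputable def rep (f : L2) : ℂ × ℂ → ℂ := AEEqFun.cast f.1

/-- The elements of `L²(μ)` given by entire functions on `ℂ²`. -/
def Ent : Set L2 := {f | ∃ g : ℂ × ℂ → ℂ, Differentiable ℂ g ∧ rep f =ᵐ[mu] g}

lemma ent0 : (0 : L2) ∈ Ent := ⟨0, differentiable_const 0, Lp.coeFn_zero _ _ _⟩

lemma entA {a b : L2} (ha : a ∈ Ent) (hb : b ∈ Ent) : a + b ∈ Ent :=
  let ⟨g, hg, h⟩ := ha
  let ⟨g', hg', h'⟩ := hb
  ⟨g + g', hg.add hg', (Lp.coeFn_add a b).trans (h.add h')⟩

lemma entS (c : ℂ) {a : L2} (ha : a ∈ Ent) : c • a ∈ Ent :=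
  let ⟨g, hg, h⟩ := ha
  ⟨c • g, hg.const_smul c, (Lp.coeFn_smul c a).trans (h.const_smul c)⟩

/-- The subspace of `L²(μ)` of entire functions. -/
def sub : Submodule ℂ L2 where
  carrier := Ent
  zero_mem' := ent0
  add_mem' := entA
  smul_mem' := entS

/-- The Bargmann–Segal space `H²(μ)`, with the norm of `L²(μ)`. -/
def BS : Type := sub

noncomputable instance nBS : NormedAddCommGroup BS := Submodule.normedAddCommGroup sub

noncomputable instance sBS : NormedSpace ℂ BS := Submodule.normedSpace sub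

/-- The function underlying an element of the Bargmann–Segal space. -/
noncomputable def fn (f : BS) : ℂ × ℂ → ℂ := rep f.1

/-- The graph of the Toeplitz operator `T_φ f = P (φ f)` on `D(T_φ) = {f : φ f ∈ L²}`: the second
component is the element of the space with the same inner products as `φ f`. -/
def graphT (φ : ℂ × ℂ → ℂ) : Set (BS × BS) :=
  {p | MemLp (fun z => φ z * fn p.1 z) 2 mu ∧ ∀ g : BS,
    ∫ z, star (fn g z) * (φ z * fn p.1 z) ∂mu = ∫ z, star (fn g z) * fn p.2 z ∂mu}

/-- The operator with graph `G` has compact resolvent: for some `c`, `c - A` is a bijection from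
the domain onto the space whose inverse `R` is bounded and compact. -/
def CompactResolvent {H : Type} [NormedAddCommGroup H] [NormedSpace ℂ H] (G : Set (H × H)) : Prop :=
  ∃ (c : ℂ) (R : H →L[ℂ] H), IsCompactOperator R ∧ Function.Injective R ∧
    ∀ f h, (f, h) ∈ G ↔ R (c • f - h) = f

end Pool.Agent.H33.FockD
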