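import Mathlib

namespace Pool.Agent.H33.Fock

open MeasureTheory

/-- The Gaussian measure `e^{-|z|²} dz` on `ℂ²`. -/
noncomputable def mu : Measure (ℂ × ℂ) :=
  volume.withDensity (fun z => ENNReal.ofReal (Real.exp (-(‖z.1‖ ^ 2 + ‖z.2‖ ^ 2))))

/-- The Bargmann–Segal space: the elements of `L²(μ)` given by entire functions on `ℂ²`. -/
def BS : Submodule ℂ (Lp ℂ 2 mu) where
  carrier := {f | ∃ g : ℂ × ℂ → ℂ, Differentiable ℂ g ∧ f =ᵐ[mu] g}
  zero_mem' := ⟨0, differentiable_const 0, Lp.coeFn_zero _ _ _⟩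
  add_mem' := fun ⟨g, hg, h⟩ ⟨g', hg', h'⟩ => ⟨g + g', hg.add hg', (Lp.coeFn_add _ _).trans (h.add h')⟩
  smul_mem' := fun c _ ⟨g, hg, h⟩ =>
    ⟨c • g, hg.const_smul c, (Lp.coeFn_smul _ _).trans (h.const_smul c)⟩

/-- The function underlying an element of the Bargmann–Segal space. -/
noncomputable def fn (f : BS) : ℂ × ℂ → ℂ := f.1

/-- The graph of the Toeplitz operator `T_φ f = P (φ f)` on `D(T_φ) = {f : φ f ∈ L²}`: the second
component is the element of the space with the same inner products as `φ f`. -/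
def graphT (φ : ℂ × ℂ → ℂ) : Set (BS × BS) :=
  {p | MemLp (fun z => φ z * fn p.1 z) 2 mu ∧ ∀ g : BS,
    ∫ z, star (fn g z) * (φ z * fn p.1 z) ∂mu = ∫ z, star (fn g z) * fn p.2 z ∂mu}

/-- The operator with graph `G` has compact resolvent: for some `c`, `c - A` is a bijection from
the domain onto the space whose inverse `R` is bounded and compact. -/
def CompactResolvent {H : Type} [NormedAddCommGroup H] [NormedSpace ℂ H] (G : Set (H × H)) : Prop :=
  ∃ (c : ℂ) (R : H →L[ℂ] H), IsCompactOperator R ∧ Function.Injective R ∧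
    ∀ f h, (f, h) ∈ G ↔ R (c • f - h) = f

end Pool.Agent.H33.Fock
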