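import Mathlib

namespace Pool.Agent.H33.Gd
open MeasureTheory Filter Topology Metric

/-- Lebesgue measure on the parameter interval of the unit circle. -/
noncomputable def arcM : Measure ℝ := volume.restrict (Set.Ioc 0 (2 * Real.pi))

/-- `f` (only its values on the unit circle matter) is in `L^∞` of the circle. -/
def Linf (f : ℂ → ℂ) : Prop := MemLp (fun t => f (circleMap 0 1 t)) ⊤ arcM

/-- `F` is bounded and analytic on the disc with radial boundary values `f`. -/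
def BV (F f : ℂ → ℂ) : Prop :=
  DifferentiableOn ℂ F (ball 0 1) ∧ (∃ M, ∀ z ∈ ball (0 : ℂ) 1, ‖F z‖ ≤ M) ∧
    ∀ᵐ t ∂arcM, Tendsto (fun r : ℝ => F (r * circleMap 0 1 t)) (𝓝[<] 1) (𝓝 (f (circleMap 0 1 t)))

def Hinf (f : ℂ → ℂ) : Prop := ∃ F, BV F f

/-- Bounded outer function with boundary values `θ`. -/
def BddOuter (θ : ℂ → ℂ) : Prop :=
  ∃ F, BV F θ ∧ (∃ z ∈ ball (0 : ℂ) 1, F z ≠ 0) ∧ CircleIntegrable (fun ζ => Real.log ‖θ ζ‖) 0 1 ∧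
    ∃ c : ℂ, ‖c‖ = 1 ∧ ∀ z ∈ ball (0 : ℂ) 1, F z = c * Complex.exp
      (Real.circleAverage (fun ζ => (ζ + z) / (ζ - z) * (Real.log ‖θ ζ‖ : ℝ)) 0 1)

/-- Membership in `H^∞ + θ L^∞`. -/
def InX (θ f : ℂ → ℂ) : Prop :=
  ∃ h g, Hinf h ∧ Linf g ∧
    ∀ᵐ t ∂arcM, f (circleMap 0 1 t) = h (circleMap 0 1 t) + θ (circleMap 0 1 t) * g (circleMap 0 1 t)

end Pool.Agent.H33.Gd
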