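import Mathlib
import Pool.Agent.H33.GdDefs

namespace Pool.Agent.H33.Gd
open MeasureTheory Filter Topology Metric Real

lemma two_pi_nn : (0 : ℝ) ≤ 2 * π := by positivity

lemma ae_arc {p : ℝ → Prop} : (∀ᵐ t ∂arcM, p t) ↔ ∀ᵐ t ∂volume, t ∈ Set.uIoc 0 (2 * π) → p t := by
  rw [arcM, ae_restrict_iff' measurableSet_Ioc, Set.uIoc_of_le two_pi_nn]

lemma pk_nonneg {w : ℂ} (hw : w ∈ ball (0 : ℂ) 1) (t : ℝ) : 0 ≤ poissonKernel 0 w (circleMap 0 1 t) := by
  rw [mem_ball_zero_iff] at hw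
  simp only [poissonKernel_def, sub_zero, norm_circleMap_zero, abs_one]
  exact div_nonneg (by nlinarith [norm_nonneg w]) (by positivity)

lemma pk_cont {w : ℂ} (hw : w ∈ ball (0 : ℂ) 1) :
    Continuous fun t => poissonKernel 0 w (circleMap 0 1 t) := by
  rw [mem_ball_zero_iff] at hw
  simp only [poissonKernel_def, sub_zero]
  refine Continuous.div (by fun_prop) (by fun_prop) fun t => pow_ne_zero _ (norm_ne_zero_iff.2 ?_)
  intro h
  rw [← sub_eq_zero.1 h] at hw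
  simp at hw

lemma mul_mem {r : ℝ} (h0 : 0 < r) (h1 : r < 1) {z : ℂ} (hz : ‖z‖ ≤ 1) : (r : ℂ) * z ∈ ball (0 : ℂ) 1 := by
  rw [mem_ball_zero_iff, norm_mul, Complex.norm_real, Real.norm_of_nonneg h0.le]
  nlinarith [norm_nonneg z]

lemma poisson_lim {E : Type} [NormedAddCommGroup E] [NormedSpace ℝ E] [CompleteSpace E]
    (φ : ℂ →L[ℝ] E) (K : ℂ → ℂ) (hK : DifferentiableOn ℂ K (ball 0 1)) (k : ℝ → E) (b : ℝ → ℝ)
    (hb : IntervalIntegrable b volume 0 (2 * π))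
    (hbd : ∀ r : ℝ, 0 < r → r < 1 → ∀ᵐ t ∂arcM, ‖φ (K (r * circleMap 0 1 t))‖ ≤ b t)
    (hlim : ∀ᵐ t ∂arcM, Tendsto (fun r : ℝ => φ (K (r * circleMap 0 1 t))) (𝓝[<] 1) (𝓝 (k t)))
    {w : ℂ} (hw : w ∈ ball (0 : ℂ) 1) :
    φ (K w) = (2 * π)⁻¹ • ∫ t in 0..2 * π, poissonKernel 0 w (circleMap 0 1 t) • k t := by
  have hev : ∀ᶠ r : ℝ in 𝓝[<] 1, 0 < r ∧ r < 1 :=
    (Ioo_mem_nhdsLT (show (0 : ℝ) < 1 by norm_num))
  have hc : ∀ r : ℝ, 0 < r → r < 1 → Continuous fun t => K (r * circleMap 0 1 t) := fun r h0 h1 =>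
    hK.continuousOn.comp_continuous (by fun_prop) fun t => mul_mem h0 h1 (by simp)
  obtain ⟨M, hM⟩ := isCompact_Icc.exists_bound_of_continuousOn
    ((pk_cont hw).continuousOn (s := Set.Icc 0 (2 * π)))
  have h1 := intervalIntegral.tendsto_integral_filter_of_dominated_convergence
    (μ := volume) (a := 0) (b := 2 * π) (l := 𝓝[<] (1 : ℝ))
    (F := fun (r : ℝ) t => poissonKernel 0 w (circleMap 0 1 t) • φ (K (r * circleMap 0 1 t)))
    (f := fun t => poissonKernel 0 w (circleMap 0 1 t) • k t) (fun t => M * b t)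
    (hev.mono fun r hr => ((pk_cont hw).smul (φ.continuous.comp (hc r hr.1 hr.2))).aestronglyMeasurable)
    (hev.mono fun r hr => by
      filter_upwards [ae_arc.1 (hbd r hr.1 hr.2)] with t ht hm
      rw [norm_smul]
      rw [Set.uIoc_of_le two_pi_nn] at hm ht
      exact mul_le_mul (hM t (Set.Ioc_subset_Icc_self hm)) (ht hm) (norm_nonneg _)
        ((norm_nonneg _).trans (hM t (Set.Ioc_subset_Icc_self hm))))
    (hb.const_mul M)
    (by filter_upwards [ae_arc.1 hlim] with t ht hm using (ht hm).const_smul _)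
  have h2 : Tendsto (fun r : ℝ => φ (K (r * w))) (𝓝[<] 1) (𝓝 (φ (K w))) := by
    have : ContinuousAt (fun r : ℝ => φ (K (r * w))) 1 := by
      refine φ.continuous.continuousAt.comp (ContinuousAt.comp (f := fun r : ℝ => (r : ℂ) * w) ?_ (by fun_prop))
      simpa using hK.continuousOn.continuousAt (isOpen_ball.mem_nhds hw)
    simpa using this.tendsto.mono_left nhdsWithin_le_nhds
  refine tendsto_nhds_unique_of_eventuallyEq h2 (h1.const_smul _) (hev.mono fun r hr => ?_)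
  have hd : DiffContOnCl ℂ (fun z => K (r * z)) (ball 0 1) := by
    apply DifferentiableOn.diffContOnCl
    rw [closure_ball _ one_ne_zero]
    exact hK.comp (by fun_prop) fun z hz => mul_mem hr.1 hr.2 (mem_closedBall_zero_iff.1 hz)
  have h3 := hd.circleAverage_poissonKernel_smul hw
  simp only
  rw [← h3, circleAverage_def, map_smul, ← φ.intervalIntegral_comp_comm]
  · simp only [Pi.smul_apply', map_smul]
  · exact ((pk_cont hw).smul (hc r hr.1 hr.2)).intervalIntegrable _ _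

lemma pk_int {w : ℂ} (hw : w ∈ ball (0 : ℂ) 1) :
    (2 * π)⁻¹ * ∫ t in 0..2 * π, poissonKernel 0 w (circleMap 0 1 t) = 1 := by
  have := poisson_lim Complex.reCLM (fun _ => 1) (differentiableOn_const _) (fun _ => 1) (fun _ => 1)
    intervalIntegrable_const (fun _ _ _ => Eventually.of_forall fun _ => by simp)
    (Eventually.of_forall fun _ => by simp) hw
  simpa using this.symm

lemma bv_bound {K k : ℂ → ℂ} (h : BV K k) {w : ℂ} (hw : w ∈ ball (0 : ℂ) 1) (A B : ℝ)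
    (hb : ∀ᵐ t ∂arcM, poissonKernel 0 w (circleMap 0 1 t) * ‖k (circleMap 0 1 t)‖ ≤
      A * poissonKernel 0 w (circleMap 0 1 t) + B) : ‖K w‖ ≤ A + B := by
  obtain ⟨hd, ⟨M, hM⟩, hl⟩ := h
  have := poisson_lim (ContinuousLinearMap.id ℝ ℂ) K hd (fun t => k (circleMap 0 1 t)) (fun _ => M)
    intervalIntegrable_const
    (fun r h0 h1 => Eventually.of_forall fun t => hM _ (mul_mem h0 h1 (by simp))) hl hw
  simp only [ContinuousLinearMap.id_apply] at this
  have hi := (pk_cont hw).intervalIntegrable (μ := volume) 0 (2 * π)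
  have h2 := intervalIntegral.norm_integral_le_of_norm_le two_pi_nn
    (f := fun t => poissonKernel 0 w (circleMap 0 1 t) • k (circleMap 0 1 t))
    (g := fun t => A * poissonKernel 0 w (circleMap 0 1 t) + B) (μ := volume) (by
      have := ae_arc.1 hb
      rw [Set.uIoc_of_le two_pi_nn] at this
      filter_upwards [this] with t ht hm
      rw [norm_smul, Real.norm_of_nonneg (pk_nonneg hw t)]
      exact ht hm) ((hi.const_mul A).add intervalIntegrable_const)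
  rw [intervalIntegral.integral_add (hi.const_mul A) intervalIntegrable_const,
    intervalIntegral.integral_const_mul, intervalIntegral.integral_const] at h2
  rw [this, norm_smul, Real.norm_of_nonneg (by positivity)]
  have h3 := pk_int hw
  calc _ ≤ (2 * π)⁻¹ * (A * (∫ t in 0..2 * π, poissonKernel 0 w (circleMap 0 1 t)) + (2 * π - 0) • B) := by
        gcongr
    _ = A * ((2 * π)⁻¹ * ∫ t in 0..2 * π, poissonKernel 0 w (circleMap 0 1 t)) + B := by
        rw [smul_eq_mul]; field_simp; ring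
    _ = _ := by rw [h3, mul_one]

lemma BV.mul {F f G g : ℂ → ℂ} (h1 : BV F f) (h2 : BV G g) :
    BV (fun z => F z * G z) (fun z => f z * g z) := by
  obtain ⟨a1, ⟨M, a2⟩, a3⟩ := h1
  obtain ⟨b1, ⟨N, b2⟩, b3⟩ := h2
  refine ⟨a1.mul b1, ⟨M * N, fun z hz => ?_⟩, ?_⟩
  · rw [norm_mul]
    exact mul_le_mul (a2 z hz) (b2 z hz) (norm_nonneg _) ((norm_nonneg _).trans (a2 z hz))
  · filter_upwards [a3, b3] with t h1 h2 using h1.mul h2

lemma BV.sub {F f G g : ℂ → ℂ} (h1 : BV F f) (h2 : BV G g) :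
    BV (fun z => F z - G z) (fun z => f z - g z) := by
  obtain ⟨a1, ⟨M, a2⟩, a3⟩ := h1
  obtain ⟨b1, ⟨N, b2⟩, b3⟩ := h2
  refine ⟨a1.sub b1, ⟨M + N, fun z hz => (norm_sub_le _ _).trans (add_le_add (a2 z hz) (b2 z hz))⟩, ?_⟩
  filter_upwards [a3, b3] with t h1 h2 using h1.sub h2

lemma BV.const (c : ℂ) : BV (fun _ => c) (fun _ => c) :=
  ⟨differentiableOn_const _, ⟨‖c‖, fun _ _ => le_rfl⟩, Eventually.of_forall fun _ => tendsto_const_nhds⟩

lemma BV.ae_bdd {F f : ℂ → ℂ} (h : BV F f) : ∃ M, ∀ᵐ t ∂arcM, ‖f (circleMap 0 1 t)‖ ≤ M := by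
  obtain ⟨-, ⟨M, a2⟩, a3⟩ := h
  refine ⟨M, a3.mono fun t ht => le_of_tendsto ht.norm ?_⟩
  filter_upwards [Ioo_mem_nhdsLT (show (0 : ℝ) < 1 by norm_num)] with r hr
  exact a2 _ (mul_mem hr.1 hr.2 (by simp))

lemma ae_ne_one : ∀ᵐ t ∂arcM, circleMap 0 1 t ≠ 1 := by
  have h : (circleMap 0 1 ⁻¹' {1}).Countable := (Set.countable_singleton _).preimage_circleMap 0 one_ne_zero
  exact ae_restrict_of_ae (h.ae_notMem volume)

noncomputable def lw (z : ℂ) : ℂ := Complex.log (1 - z)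

lemma re_pos {z : ℂ} (hz : ‖z‖ ≤ 1) (h1 : z ≠ 1) : 0 < (1 - z).re := by
  have h := Complex.re_le_norm z
  simp only [Complex.sub_re, Complex.one_re]
  rcases lt_or_eq_of_le (h.trans hz) with h2 | h2
  · linarith
  · exfalso
    apply h1
    have h3 := Complex.sq_norm z
    rw [Complex.normSq_apply, h2] at h3
    have h4 : z.im = 0 := by nlinarith [norm_nonneg z]
    exact Complex.ext h2 h4

lemma lw_diff {z : ℂ} (hz : ‖z‖ ≤ 1) (h1 : z ≠ 1) : DifferentiableAt ℂ lw z :=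
  DifferentiableAt.clog (by fun_prop) (Or.inl (re_pos hz h1))

lemma lw_im {z : ℂ} (hz : ‖z‖ ≤ 1) (h1 : z ≠ 1) : |(lw z).im| < π / 2 := by
  rw [lw, Complex.log_im, Complex.abs_arg_lt_pi_div_two_iff]
  exact Or.inl (re_pos hz h1)

lemma lw_re (z : ℂ) : (lw z).re = Real.log ‖1 - z‖ := Complex.log_re _

lemma lw_re_le {z : ℂ} (hz : ‖z‖ ≤ 1) (h1 : z ≠ 1) : (lw z).re ≤ 1 := by
  rw [lw_re]
  have h2 : ‖1 - z‖ ≤ 2 := (norm_sub_le _ _).trans (by simp; linarith)
  have := Real.log_le_sub_one_of_pos (norm_pos_iff.2 (sub_ne_zero.2 h1.symm))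
  linarith

lemma exp_re {z : ℂ} (h1 : z ≠ 1) : Real.exp (lw z).re = ‖1 - z‖ := by
  rw [lw_re, Real.exp_log (norm_pos_iff.2 (sub_ne_zero.2 h1.symm))]

lemma circ_cos {z : ℂ} (hz : ‖z‖ = 1) (h1 : z ≠ 1) : ‖1 - z‖ = 2 * Real.cos (lw z).im := by
  have h0 : 1 - z ≠ 0 := sub_ne_zero.2 h1.symm
  rw [lw, Complex.log_im, Complex.cos_arg h0]
  have h2 : ‖1 - z‖ ^ 2 = 2 * (1 - z).re := by
    have h3 := Complex.sq_norm z
    rw [hz, Complex.normSq_apply] at h3
    rw [Complex.sq_norm, Complex.normSq_apply]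
    simp only [Complex.sub_re, Complex.one_re, Complex.sub_im, Complex.one_im]
    nlinarith
  have := norm_pos_iff.2 h0
  field_simp
  linarith

lemma bv_of (Φ : ℂ → ℂ) (hΦ : Differentiable ℂ Φ) (M : ℝ)
    (hM : ∀ z, ‖z‖ ≤ 1 → z ≠ 1 → ‖Φ (lw z)‖ ≤ M) : BV (fun z => Φ (lw z)) (fun z => Φ (lw z)) := by
  have ne : ∀ z ∈ ball (0 : ℂ) 1, z ≠ 1 := fun z hz h => by simp [h] at hz
  refine ⟨fun z hz => ((hΦ _).comp z (lw_diff (mem_ball_zero_iff.1 hz).le (ne z hz))).differentiableWithinAt,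
    ⟨M, fun z hz => hM z (mem_ball_zero_iff.1 hz).le (ne z hz)⟩, ae_ne_one.mono fun t ht => ?_⟩
  have : ContinuousAt (fun r : ℝ => Φ (lw (r * circleMap 0 1 t))) 1 := by
    have h2 : ContinuousAt (fun r : ℝ => lw (r * circleMap 0 1 t)) 1 := by
      refine ContinuousAt.comp (g := lw) (f := fun r : ℝ => (r : ℂ) * circleMap 0 1 t) ?_ (by fun_prop)
      simpa using (lw_diff (by simp) ht).continuousAt
    exact hΦ.continuous.continuousAt.comp h2
  simpa using this.tendsto.mono_left nhdsWithin_le_nhds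

end Pool.Agent.H33.Gd
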