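import Mathlib

open Set

namespace Pool.Agent.H33.Hot

/-- A compact metric graph: edge `e` is the interval `[0, len e]` from `src e` to `tgt e`. -/
structure MGraph (nV nE : ℕ) where
  src : Fin nE → Fin nV
  tgt : Fin nE → Fin nV
  len : Fin nE → ℝ
  len_pos : ∀ e, 0 < len e

variable {nV nE : ℕ} (Γ : MGraph nV nE)

def Connected : Prop :=
  0 < nV ∧ ∀ v w, Relation.EqvGen (fun a b => ∃ e, Γ.src e = a ∧ Γ.tgt e = b) v w

/-- points of the graph: vertices and interior points of edges -/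
def Pt : Type := Fin nV ⊕ (Σ e : Fin nE, Ioo (0 : ℝ) (Γ.len e))

/-- the function on the graph with vertex values `x` and edge restrictions `f` -/
def val (x : Fin nV → ℝ) (f : Fin nE → ℝ → ℝ) : Pt Γ → ℝ
  | Sum.inl v => x v
  | Sum.inr p => f p.1 p.2

/-- `ψ` is a nonzero eigenfunction with eigenvalue `μ` of the Laplacian with delta conditions
of strengths `α` (standard conditions: `α = 0`). -/
def IsEigenfun (α : Fin nV → ℝ) (μ : ℝ) (ψ : Pt Γ → ℝ) : Prop :=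
  ψ ≠ 0 ∧ ∃ (x : Fin nV → ℝ) (f g : Fin nE → ℝ → ℝ), ψ = val Γ x f ∧
    (∀ e, ∀ s ∈ Icc 0 (Γ.len e), HasDerivWithinAt (f e) (g e s) (Icc 0 (Γ.len e)) s ∧
      HasDerivWithinAt (g e) (-μ * f e s) (Icc 0 (Γ.len e)) s) ∧
    (∀ e, f e 0 = x (Γ.src e) ∧ f e (Γ.len e) = x (Γ.tgt e)) ∧
    ∀ v, (∑ e, if Γ.src e = v then g e 0 else 0) -
      (∑ e, if Γ.tgt e = v then g e (Γ.len e) else 0) = α v * x v

/-- the set of eigenvalues -/
def Spec (α : Fin nV → ℝ) : Set ℝ := {μ | ∃ ψ, IsEigenfun Γ α μ ψ}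

/-- the points where some eigenfunction for `μ` attains its global maximum or minimum -/
def HotSet (α : Fin nV → ℝ) (μ : ℝ) : Set (Pt Γ) :=
  {p | ∃ ψ, IsEigenfun Γ α μ ψ ∧ ((∀ q, ψ q ≤ ψ p) ∨ ∀ q, ψ p ≤ ψ q)}

end Pool.Agent.H33.Hot
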