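import Mathlib
import Pool.Agent.H33.HotDefs

open Set Real

namespace Pool.Agent.H33.Hot

structure CS (μ : ℝ) (C S : ℝ → ℝ) : Prop where
  dC : ∀ s, HasDerivAt C (-μ * S s) s
  dS : ∀ s, HasDerivAt S (C s) s
  C0 : C 0 = 1
  S0 : S 0 = 0
  sq : ∀ s, C s ^ 2 + μ * S s ^ 2 = 1

lemma cs_pos {k : ℝ} (hk : k ≠ 0) :
    CS (k ^ 2) (fun s => cos (k * s)) (fun s => sin (k * s) / k) where
  dC s := (((hasDerivAt_id s).const_mul k).cos).congr_deriv (by simp; field_simp)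
  dS s := ((((hasDerivAt_id s).const_mul k).sin).div_const k).congr_deriv (by simp; field_simp)
  C0 := by simp
  S0 := by simp
  sq s := by field_simp; simp

lemma cs_one : CS 1 cos sin := by simpa using cs_pos one_ne_zero

lemma cs_zero : CS 0 (fun _ => 1) (fun s => s) where
  dC s := (hasDerivAt_const s (1 : ℝ)).congr_deriv (by simp)
  dS s := hasDerivAt_id s
  C0 := rfl
  S0 := rfl
  sq s := by simp

lemma cs_neg {k : ℝ} (hk : k ≠ 0) :
    CS (-k ^ 2) (fun s => cosh (k * s)) (fun s => sinh (k * s) / k) where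
  dC s := (((hasDerivAt_id s).const_mul k).cosh).congr_deriv (by simp; field_simp)
  dS s := ((((hasDerivAt_id s).const_mul k).sinh).div_const k).congr_deriv (by simp; field_simp)
  C0 := by simp
  S0 := by simp
  sq s := by field_simp; linarith [cosh_sq (k * s)]

lemma ode {μ : ℝ} {C S f g : ℝ → ℝ} {l : ℝ} (H : CS μ C S)
    (h : ∀ s ∈ Icc 0 l, HasDerivWithinAt f (g s) (Icc 0 l) s ∧
      HasDerivWithinAt g (-μ * f s) (Icc 0 l) s) :
    ∀ s ∈ Icc 0 l, f s = f 0 * C s + g 0 * S s ∧ f s * C s - g s * S s = f 0 := by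
  have cst : ∀ u : ℝ → ℝ, (∀ s ∈ Icc 0 l, HasDerivWithinAt u 0 (Icc 0 l) s) →
      ∀ s ∈ Icc 0 l, u s = u 0 := fun u hu =>
    constant_of_has_deriv_right_zero (fun s hs => (hu s hs).continuousWithinAt) fun s hs =>
      (hu s (Ico_subset_Icc_self hs)).mono_of_mem_nhdsWithin (Icc_mem_nhdsGE_of_mem hs)
  have h1 := cst (fun s => f s * C s - g s * S s) fun s hs' => by
    exact (((h s hs').1.mul (H.dC s).hasDerivWithinAt).sub
      ((h s hs').2.mul (H.dS s).hasDerivWithinAt)).congr_deriv (by ring)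
  have h2 := cst (fun s => μ * f s * S s + g s * C s) fun s hs' => by
    exact ((((h s hs').1.const_mul μ).mul (H.dS s).hasDerivWithinAt).add
      ((h s hs').2.mul (H.dC s).hasDerivWithinAt)).congr_deriv (by ring)
  intro s hs'
  have a := h1 s hs'
  have b := h2 s hs'
  simp only [H.C0, H.S0, mul_zero, mul_one, sub_zero, zero_add] at a b
  exact ⟨by linear_combination C s * a + S s * b - f s * H.sq s, a⟩

variable {nV nE : ℕ} (Γ : MGraph nV nE)

/-- vertex equations -/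
def VE (α : Fin nV → ℝ) (C S : ℝ → ℝ) (x : Fin nV → ℝ) : Prop :=
  ∀ v, (∑ e, if Γ.src e = v then
      (x (Γ.tgt e) - C (Γ.len e) * x (Γ.src e)) / S (Γ.len e) else 0) -
    (∑ e, if Γ.tgt e = v then
      (C (Γ.len e) * x (Γ.tgt e) - x (Γ.src e)) / S (Γ.len e) else 0) = α v * x v

noncomputable def ps (C S : ℝ → ℝ) (x : Fin nV → ℝ) : Pt Γ → ℝ :=
  val Γ x fun e s => x (Γ.src e) * C s +
    (x (Γ.tgt e) - C (Γ.len e) * x (Γ.src e)) / S (Γ.len e) * S s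

lemma to_VE {α : Fin nV → ℝ} {μ : ℝ} {C S : ℝ → ℝ} (H : CS μ C S) (hS : ∀ e, S (Γ.len e) ≠ 0)
    {ψ : Pt Γ → ℝ} (h : IsEigenfun Γ α μ ψ) :
    (fun v => ψ (Sum.inl v)) ≠ 0 ∧ VE Γ α C S (fun v => ψ (Sum.inl v)) := by
  obtain ⟨h0, x, f, g, rfl, hd, hb, hK⟩ := h
  have o := fun e => ode H (hd e)
  have e1 : ∀ e, g e 0 = (x (Γ.tgt e) - C (Γ.len e) * x (Γ.src e)) / S (Γ.len e) ∧
      g e (Γ.len e) = (C (Γ.len e) * x (Γ.tgt e) - x (Γ.src e)) / S (Γ.len e) := by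
    intro e
    obtain ⟨a, b⟩ := o e (Γ.len e) ⟨(Γ.len_pos e).le, le_rfl⟩
    rw [(hb e).1, (hb e).2] at a b
    rw [eq_div_iff (hS e), eq_div_iff (hS e)]
    constructor <;> linarith
  refine ⟨fun hx => h0 ?_, fun v => ?_⟩
  · have xz : ∀ v, x v = 0 := fun v => congrFun hx v
    funext p
    rcases p with v | ⟨e, s⟩
    · exact xz v
    · have := (o e s (Ioo_subset_Icc_self s.2)).1
      change f e s = 0
      simpa [(hb e).1, xz, (e1 e).1] using this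
  · have := hK v
    simp only [(e1 _).1, (e1 _).2] at this
    exact this

lemma of_VE {α : Fin nV → ℝ} {μ : ℝ} {C S : ℝ → ℝ} (H : CS μ C S) (hS : ∀ e, S (Γ.len e) ≠ 0)
    {x : Fin nV → ℝ} (hx : x ≠ 0) (h : VE Γ α C S x) : IsEigenfun Γ α μ (ps Γ C S x) := by
  refine ⟨fun h0 => hx (funext fun v => congrFun h0 (Sum.inl v)), x, _,
    fun e s => x (Γ.src e) * (-μ * S s) +
      (x (Γ.tgt e) - C (Γ.len e) * x (Γ.src e)) / S (Γ.len e) * C s, rfl,
    fun e s _ => ⟨?_, ?_⟩, fun e => ⟨by simp [H.C0, H.S0], ?_⟩, fun v => ?_⟩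
  · exact (((H.dC s).const_mul _).add ((H.dS s).const_mul _)).hasDerivWithinAt
  · exact (((((H.dS s).const_mul (-μ)).const_mul _).add
      ((H.dC s).const_mul _)).hasDerivWithinAt).congr_deriv (by ring)
  · have := hS e; field_simp; ring
  · rw [← h v]
    congr 1 <;> refine Finset.sum_congr rfl fun e _ => ?_
    · simp [H.C0, H.S0]
    · split_ifs
      · have := hS e
        field_simp
        linear_combination (-x (Γ.src e)) * H.sq (Γ.len e)
      · rfl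

lemma ps_le (x : Fin nV → ℝ) (h1 : ∀ v, x v ≤ 1)
    (h2 : ∀ e, (Γ.len e = π / 2 ∧ x (Γ.src e) ^ 2 + x (Γ.tgt e) ^ 2 ≤ 1) ∨
      (x (Γ.src e) = 0 ∧ x (Γ.tgt e) = 0)) (q : Pt Γ) : ps Γ cos sin x q ≤ 1 := by
  rcases q with v | ⟨e, s⟩
  · exact h1 v
  · have b := sin_sq_add_cos_sq s.1
    change x (Γ.src e) * cos s +
      (x (Γ.tgt e) - cos (Γ.len e) * x (Γ.src e)) / sin (Γ.len e) * sin s ≤ 1
    rcases h2 e with ⟨h, h'⟩ | ⟨h, h'⟩
    · simp only [h, cos_pi_div_two, sin_pi_div_two, zero_mul, sub_zero, div_one]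
      nlinarith [sq_nonneg (x (Γ.src e) - cos s), sq_nonneg (x (Γ.tgt e) - sin s)]
    · simp [h, h']

lemma ps_top (x : Fin nV → ℝ) (e : Fin nE) (s : Ioo (0 : ℝ) (Γ.len e)) (h : Γ.len e = π / 2)
    (h1 : x (Γ.src e) = cos s) (h2 : x (Γ.tgt e) = sin s) :
    ps Γ cos sin x (Sum.inr ⟨e, s⟩) = 1 := by
  change x (Γ.src e) * cos s +
      (x (Γ.tgt e) - cos (Γ.len e) * x (Γ.src e)) / sin (Γ.len e) * sin s = 1
  simp only [h1, h2]
  have e1 : cos (Γ.len e) = 0 := by rw [h]; simp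
  have e2 : sin (Γ.len e) = 1 := by rw [h]; simp
  rw [e1, e2]
  nlinarith [sin_sq_add_cos_sq s.1]

lemma inf_of (M : Set (Pt Γ)) (e : Fin nE)
    (h : ∀ s : Ioo (0 : ℝ) (Γ.len e), (Sum.inr ⟨e, s⟩ : Pt Γ) ∈ M) : M.Infinite := by
  have := Ioo.infinite (Γ.len_pos e)
  refine infinite_of_injective_forall_mem
    (f := fun θ : Ioo (0 : ℝ) (Γ.len e) => (Sum.inr ⟨e, θ⟩ : Pt Γ)) (fun a b e => ?_) h
  exact eq_of_heq (Sigma.mk.inj (Sum.inr.inj e)).2

/-- trigonometric facts for `0 < k < 1` -/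
lemma trig {k : ℝ} (hk : 0 < k) (hk1 : k < 1) : 0 < cos (k * (π / 2)) ∧ cos (k * (π / 2)) < 1 ∧
    0 < sin (k * (π / 2)) := by
  have hpi : 0 < π / 2 := by positivity
  have hkp : k * (π / 2) < π / 2 := by nlinarith
  have hσ0 : 0 < sin (k * (π / 2)) := sin_pos_of_pos_of_lt_pi (by positivity) (by linarith)
  have hc0 : 0 < cos (k * (π / 2)) := cos_pos_of_mem_Ioo ⟨by linarith [mul_pos hk hpi], hkp⟩
  refine ⟨hc0, ?_, hσ0⟩
  nlinarith [sin_sq_add_cos_sq (k * (π / 2))]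

end Pool.Agent.H33.Hot
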