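import Mathlib
import Pool.Agent.H33.HotDefs

namespace Pool.Agent.H33.Hot

/-- Length-preserving isomorphism of metric graphs (orientations of edges are ignored). -/
def Iso {a b c d : ℕ} (Γ : MGraph a b) (Δ : MGraph c d) : Prop :=
  ∃ (φ : Fin a ≃ Fin c) (ψ : Fin b ≃ Fin d), ∀ e, Δ.len (ψ e) = Γ.len e ∧
    s(Δ.src (ψ e), Δ.tgt (ψ e)) = s(φ (Γ.src e), φ (Γ.tgt e))

/-- Insert a new vertex `0` of degree two on the edge `e0`, at distance `t` from its source. -/
def subdiv {a b : ℕ} (Γ : MGraph a b) (e0 : Fin b) (t : Set.Ioo (0 : ℝ) (Γ.len e0)) :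
    MGraph (a + 1) (b + 1) where
  src := Fin.cons 0 fun e => (Γ.src e).succ
  tgt := Fin.cons (Γ.tgt e0).succ fun e => if e = e0 then 0 else (Γ.tgt e).succ
  len := Fin.cons (Γ.len e0 - t) fun e => if e = e0 then t.1 else Γ.len e
  len_pos := Fin.cases (sub_pos.2 t.2.2) fun e => by
    simp only [Fin.cons_succ]; split_ifs; exacts [t.2.1, Γ.len_pos e]

/-- The same metric graph: related by isomorphisms and by inserting or removing vertices of
degree two. -/
def Same (X Y : Σ a b, MGraph a b) : Prop :=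
  Relation.EqvGen (fun X Y : Σ a b, MGraph a b => Iso X.2.2 Y.2.2 ∨
    ∃ e t, Y = ⟨_, _, subdiv X.2.2 e t⟩) X Y

def Equilateral {a b : ℕ} (Γ : MGraph a b) : Prop := ∀ e e', Γ.len e = Γ.len e'

/-- Two vertices joined by at least two parallel edges of equal length. -/
def IsPumpkin {a b : ℕ} (Γ : MGraph a b) : Prop :=
  Equilateral Γ ∧ a = 2 ∧ 2 ≤ b ∧ ∀ e, Γ.src e ≠ Γ.tgt e

/-- A complete graph with edges of equal length. -/
def IsComplete {a b : ℕ} (Γ : MGraph a b) : Prop :=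
  Equilateral Γ ∧ (∀ e, Γ.src e ≠ Γ.tgt e) ∧
    ∀ u v, u ≠ v → ∃! e, s(Γ.src e, Γ.tgt e) = s(u, v)

end Pool.Agent.H33.Hot
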