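import Mathlib

set_option autoImplicit false

namespace Pool.Agent.H33.Hub

open Finset

variable {V : Type} {G : SimpleGraph V}

inductive In (G : SimpleGraph V) (C : Set V) (u : V) : ℕ → V → Prop
  | refl (j : ℕ) (h : u ∈ C) : In G C u j u
  | step {j : ℕ} {x y : V} : In G C u j x → G.Adj x y → y ∈ C → In G C u (j + 1) y

lemma In.left {C : Set V} {u v : V} {j : ℕ} (h : In G C u j v) : u ∈ C := by
  induction h with
  | refl _ h => exact h
  | step _ _ _ ih => exact ih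

lemma In.right {C : Set V} {u v : V} {j : ℕ} (h : In G C u j v) : v ∈ C := by
  cases h <;> assumption

lemma In.mono {C : Set V} {u v : V} {j k : ℕ} (h : In G C u j v) (hk : j ≤ k) : In G C u k v := by
  induction h generalizing k with
  | refl _ h => exact .refl _ h
  | step _ h1 h2 ih =>
    obtain ⟨k, rfl⟩ : ∃ k', k = k' + 1 := ⟨k - 1, by omega⟩
    exact .step (ih (by omega)) h1 h2

lemma In.sub {C D : Set V} {u v : V} {j : ℕ} (h : In G C u j v) (hD : ∀ x, In G C u j x → x ∈ D) :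
    In G D u j v := by
  induction h with
  | refl _ h => exact .refl _ (hD _ (.refl _ h))
  | step h0 h1 h2 ih =>
    exact .step (ih fun x hx => hD x (hx.mono (Nat.le_succ _))) h1 (hD _ (.step h0 h1 h2))

lemma In.trans {C : Set V} {u v w : V} {j k : ℕ} (h : In G C u j v) (h' : In G C v k w) :
    In G C u (j + k) w := by
  induction h' with
  | refl _ _ => exact h.mono (Nat.le_add_right _ _)
  | step _ h1 h2 ih => exact .step ih h1 h2

lemma In.symm {C : Set V} {u v : V} {j : ℕ} (h : In G C u j v) : In G C v j u := by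
  induction h with
  | refl _ h => exact .refl _ h
  | step h0 h1 h2 ih =>
    rw [Nat.add_comm]
    exact (In.step (.refl 0 h2) h1.symm h0.right).trans ih

lemma in_walk {C : Set V} {u v w : V} (p : G.Walk u v) (hp : ∀ x ∈ p.support, x ∈ C)
    (hw : w ∈ p.support) : In G C u p.length w := by
  induction p with
  | nil => rw [SimpleGraph.Walk.support_nil, List.mem_singleton] at hw; subst hw; exact .refl _ (hp _ (by simp))
  | cons h p ih =>
    rw [SimpleGraph.Walk.support_cons, List.mem_cons] at hw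
    rcases hw with rfl | hw
    · exact .refl _ (hp _ (by simp))
    · rw [SimpleGraph.Walk.length_cons, Nat.add_comm]
      exact (In.step (.refl 0 (hp _ (by simp))) h (hp _ (by simp))).trans
        (ih (fun x hx => hp x (by simp [hx])) hw)

def Conn (G : SimpleGraph V) (S : Set V) : Prop := S.Nonempty ∧ ∀ x ∈ S, ∀ y ∈ S, ∃ k, In G S x k y

lemma Conn.connected {S : Set V} (h : Conn G S) : (G.induce S).Connected := by
  have := h.1.to_subtype
  refine ⟨fun x y => ?_⟩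
  obtain ⟨k, hk⟩ := h.2 _ x.2 _ y.2
  have : ∀ k z (hz : In G S x k z), (G.induce S).Reachable x ⟨z, hz.right⟩ := by
    intro k z hz
    induction hz with
    | refl _ _ => exact .refl _
    | step h0 h1 h2 ih => exact ih.trans (SimpleGraph.Adj.reachable h1)
  exact this k _ hk

def Ad (G : SimpleGraph V) (S T : Set V) : Prop := ∃ u ∈ S, ∃ v ∈ T, G.Adj u v

lemma Ad.symm {S T : Set V} (h : Ad G S T) : Ad G T S :=
  let ⟨u, h1, v, h2, h3⟩ := h; ⟨v, h2, u, h1, h3.symm⟩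

def Model (G : SimpleGraph V) (Q : Set (Set V)) : Prop :=
  (∀ q ∈ Q, Conn G q) ∧ ∀ q ∈ Q, ∀ q' ∈ Q, q ≠ q' → Disjoint q q' ∧ Ad G q q'

lemma Model.ins {Q : Set (Set V)} (h : Model G Q) {C : Set V} (h1 : Conn G C)
    (h2 : ∀ q ∈ Q, Disjoint C q ∧ Ad G C q) : Model G (insert C Q) := by
  refine ⟨fun q hq => hq.elim (fun e => e ▸ h1) (h.1 q), ?_⟩
  rintro q (rfl | hq) q' (rfl | hq') hne
  · exact absurd rfl hne
  · exact h2 _ hq'
  · exact ⟨(h2 _ hq).1.symm, (h2 _ hq).2.symm⟩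
  · exact h.2 _ hq _ hq' hne

lemma geo {C : Set V} {v : V} (δ : V → ℕ) (h1 : ∀ x k, In G C v k x → δ x ≤ k)
    (h2 : ∀ x k, In G C v k x → In G C v (δ x) x) (n : ℕ) : ∀ x, δ x = n → In G C v n x →
    ∃ S : Set V, x ∈ S ∧ S ⊆ C ∧ (∀ y ∈ S, ∃ k, In G S v k y) ∧ Set.InjOn δ S ∧ ∀ y ∈ S, δ y ≤ n := by
  induction n with
  | zero =>
    intro x _ h
    cases h with
    | refl _ h => exact ⟨{v}, rfl, by simpa, fun y hy => ⟨0, hy ▸ .refl 0 rfl⟩, by simp, by simpa⟩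
  | succ n ih =>
    intro x e h
    cases h with
    | refl _ h => have := h1 _ 0 (.refl 0 h); omega
    | @step _ y _ k0 k1 k2 =>
      have a1 := h1 _ _ k0
      have a2 := h1 _ _ (.step (h2 _ _ k0) k1 k2)
      obtain ⟨S, s1, s2, s3, s4, s5⟩ := ih y (by omega) k0
      have up : ∀ z ∈ S, ∃ k, In G (insert x S) v k z := fun z hz =>
        let ⟨k, hk⟩ := s3 z hz; ⟨k, hk.sub fun _ h => Or.inr h.right⟩
      refine ⟨insert x S, Or.inl rfl, Set.insert_subset k2 s2, ?_, ?_, ?_⟩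
      · rintro z (rfl | hz)
        · obtain ⟨k, hk⟩ := up y s1
          exact ⟨k + 1, .step hk k1 (Or.inl rfl)⟩
        · exact up z hz
      · rintro a (rfl | ha) b (rfl | hb) e'
        · rfl
        · have := s5 b hb; omega
        · have := s5 a ha; omega
        · exact s4 ha hb e'
      · rintro z (rfl | hz)
        · omega
        · exact (s5 z hz).trans (Nat.le_succ _)

def Hn (t : ℕ) (N : ℕ → ℕ) : ℕ → ℕ
  | 0 => 0
  | r + 1 => (t + 1) * Hn t N r + N r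

lemma Hn_lt {t : ℕ} {N : ℕ → ℕ} (h : ∀ j, N j ≤ t) (r : ℕ) : Hn t N r < (t + 1) ^ r := by
  induction r with
  | zero => simp [Hn]
  | succ r ih =>
    have := h r
    rw [Hn, pow_succ']
    nlinarith

lemma Hn_mono {t : ℕ} {N N' : ℕ → ℕ} (r : ℕ) (h : ∀ j < r, N j ≤ N' j) : Hn t N r ≤ Hn t N' r := by
  induction r with
  | zero => simp [Hn]
  | succ r ih =>
    exact Nat.add_le_add (Nat.mul_le_mul_left _ (ih fun j hj => h j (by omega))) (h r (by omega))

lemma Hn_strict {t : ℕ} {N N' : ℕ → ℕ} (h : ∀ j, N j ≤ t) (e : ℕ) (h1 : ∀ j < e, N j ≤ N' j)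
    (h2 : N e < N' e) (r : ℕ) (hr : e < r) : Hn t N r < Hn t N' r := by
  induction r with
  | zero => omega
  | succ r ih =>
    rcases (Nat.lt_succ_iff.1 hr).lt_or_eq with l | rfl
    · have := ih l
      have := h r
      rw [Hn, Hn]
      nlinarith
    · exact Nat.add_lt_add_of_le_of_lt (Nat.mul_le_mul_left _ (Hn_mono _ h1)) h2

def NN (G : SimpleGraph V) (C : Set V) (Q : Set (Set V)) (u : V) (j : ℕ) : Set (Set V) :=
  {q | q ∈ Q ∧ ∃ x, In G C u j x ∧ ∃ y ∈ q, G.Adj x y}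

lemma label [Finite V] (t r : ℕ) (hG : ∀ Q, Model G Q → Q.ncard ≤ t) (n : ℕ) :
    ∀ (C : Set V) (Q : Set (Set V)), C.ncard = n → Conn G C → Model G Q →
      (∀ q ∈ Q, Disjoint C q ∧ Ad G C q) → ∃ L : V → Set V,
      (∀ u ∈ C, (L u).ncard + (2 * r + 1) * (t + 1) * Hn t (fun j => (NN G C Q u j).ncard) r ≤
        (2 * r + 1) * (t + 1) * (t + 1) ^ r) ∧
      ∀ (u v : V) (p : G.Walk u v), p.length ≤ r → (∀ x ∈ p.support, x ∈ C) →
        ∃ w ∈ p.support, w ∈ L u ∧ w ∈ L v := by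
  classical
  induction n using Nat.strong_induction_on with
  | _ n ih =>
  intro C Q hn hC hQ hCQ
  obtain ⟨v0, hv0⟩ := hC.1
  let δ : V → ℕ := fun x => sInf {k | In G C v0 k x}
  have d1 : ∀ x k, In G C v0 k x → δ x ≤ k := fun x k h => Nat.sInf_le h
  have d2 : ∀ x k, In G C v0 k x → In G C v0 (δ x) x := fun x k h =>
    Nat.sInf_mem (s := {k | In G C v0 k x}) ⟨k, h⟩
  have : ∀ q : Set V, ∃ S : Set V, q ∈ Q → Ad G S q ∧ S ⊆ C ∧ (∀ y ∈ S, ∃ k, In G S v0 k y) ∧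
      Set.InjOn δ S := fun q => by
    by_cases hq : q ∈ Q
    · obtain ⟨x, h1, y, h2, h3⟩ := (hCQ q hq).2
      obtain ⟨k, hk⟩ := hC.2 _ hv0 _ h1
      obtain ⟨S, s1, s2, s3, s4, -⟩ := geo δ d1 d2 _ x rfl (d2 _ _ hk)
      exact ⟨S, fun _ => ⟨⟨x, s1, y, h2, h3⟩, s2, s3, s4⟩⟩
    · exact ⟨∅, fun h => absurd h hq⟩
  choose S hS using this
  obtain ⟨H, hH⟩ : ∃ H : Set V, H = insert v0 (⋃ q ∈ Q, S q) := ⟨_, rfl⟩
  have H0 : v0 ∈ H := hH ▸ Or.inl rfl
  have H1 : ∀ q ∈ Q, S q ⊆ H := fun q hq x hx => hH ▸ Or.inr (Set.mem_biUnion hq hx)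
  have H2 : ∀ x ∈ H, x = v0 ∨ ∃ q ∈ Q, x ∈ S q := fun x hx => by simpa [hH] using hx
  have HC : H ⊆ C := fun x hx => by
    rcases H2 x hx with rfl | ⟨q, h1, h2⟩
    · exact hv0
    · exact (hS q h1).2.1 h2
  have Hc : Conn G H := by
    have : ∀ x ∈ H, ∃ k, In G H v0 k x := fun x hx => by
      rcases H2 x hx with rfl | ⟨q, h1, h2⟩
      · exact ⟨0, .refl 0 hx⟩
      · obtain ⟨k, hk⟩ := (hS q h1).2.2.1 x h2
        exact ⟨k, hk.sub fun _ h => H1 q h1 h.right⟩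
    refine ⟨⟨v0, H0⟩, fun x hx y hy => ?_⟩
    obtain ⟨k, hk⟩ := this x hx
    obtain ⟨l, hl⟩ := this y hy
    exact ⟨_, hk.symm.trans hl⟩
  have hQH : Model G (insert H Q) := hQ.ins Hc fun q hq =>
    ⟨(hCQ q hq).1.mono_left HC, let ⟨x, h1, h2⟩ := (hS q hq).1; ⟨x, H1 q hq h1, h2⟩⟩
  have Qt := hG Q hQ
  have Nt : ∀ u j, (NN G C Q u j).ncard ≤ t := fun u j =>
    (Set.ncard_le_ncard (fun _ h => h.1) (Set.toFinite _)).trans Qt
  have ball : ∀ u ∈ C, {x | x ∈ H ∧ In G C u r x}.ncard ≤ (2 * r + 1) * (t + 1) := by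
    intro u hu
    obtain ⟨k, hk⟩ := hC.2 _ hv0 _ hu
    have b1 : ∀ T : Set V, Set.InjOn δ T → {x | x ∈ T ∧ In G C u r x}.ncard ≤ 2 * r + 1 := by
      intro T hT
      have := Set.ncard_le_ncard_of_injOn (s := {x | x ∈ T ∧ In G C u r x})
        (t := Set.Icc (δ u - r) (δ u + r)) δ (fun x hx => by
          have a1 := d1 _ _ ((d2 _ _ hk).trans hx.2)
          have a2 := d1 _ _ ((d2 _ _ ((d2 _ _ hk).trans hx.2)).trans hx.2.symm)
          constructor <;> omega) (hT.mono fun _ h => h.1) (Set.finite_Icc _ _)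
      rw [← coe_Icc, Set.ncard_coe_finset, Nat.card_Icc] at this
      omega
    have b2 : {x | x ∈ H ∧ In G C u r x} ⊆ insert v0
        ↑(Q.toFinite.toFinset.biUnion fun q => {x | x ∈ S q ∧ In G C u r x}.toFinite.toFinset) := by
      intro x hx
      rcases H2 x hx.1 with rfl | ⟨q, h1, h2⟩
      · exact Or.inl rfl
      · exact Or.inr (mem_coe.2 (mem_biUnion.2 ⟨q, (Set.Finite.mem_toFinset _).2 h1,
          (Set.Finite.mem_toFinset _).2 ⟨h2, hx.2⟩⟩))
    refine (Set.ncard_le_ncard b2 (Set.toFinite _)).trans ((Set.ncard_insert_le _ _).trans ?_)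
    rw [Set.ncard_coe_finset]
    have b3 := card_biUnion_le_card_mul Q.toFinite.toFinset
      (fun q => {x | x ∈ S q ∧ In G C u r x}.toFinite.toFinset) (2 * r + 1) fun q hq => by
        rw [← Set.ncard_eq_toFinset_card]
        exact b1 _ (hS q (by simpa using hq)).2.2.2
    rw [← Set.ncard_eq_toFinset_card] at b3
    nlinarith
  let comp : V → Set V := fun u => {y | ∃ k, In G (C \ H) u k y}
  have c1 : ∀ u, comp u ⊆ C \ H := fun u y ⟨k, hk⟩ => hk.right
  have c2 : ∀ u j x, In G (C \ H) u j x → In G (comp u) u j x := fun u j x h =>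
    h.sub fun y hy => ⟨j, hy⟩
  have c3 : ∀ u v, v ∈ comp u → comp v = comp u := fun u v ⟨k, hk⟩ =>
    Set.ext fun y => ⟨fun ⟨l, hl⟩ => ⟨_, hk.trans hl⟩, fun ⟨l, hl⟩ => ⟨_, hk.symm.trans hl⟩⟩
  let QQ : Set V → Set (Set V) := fun D => {q | q ∈ insert H Q ∧ Ad G D q}
  have : ∀ D : Set V, ∃ L : V → Set V, (∃ u ∈ C \ H, D = comp u) →
      (∀ u ∈ D, (L u).ncard + (2 * r + 1) * (t + 1) * Hn t (fun j => (NN G D (QQ D) u j).ncard) r ≤
        (2 * r + 1) * (t + 1) * (t + 1) ^ r) ∧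
      ∀ (u v : V) (p : G.Walk u v), p.length ≤ r → (∀ x ∈ p.support, x ∈ D) →
        ∃ w ∈ p.support, w ∈ L u ∧ w ∈ L v := fun D => by
    by_cases hD : ∃ u ∈ C \ H, D = comp u
    swap
    · exact ⟨fun _ => ∅, fun h => absurd h hD⟩
    obtain ⟨u, hu, rfl⟩ := hD
    obtain ⟨L, hL⟩ := ih _ (hn ▸ Set.ncard_lt_ncard ⟨fun x hx => (c1 u hx).1,
      fun h => (c1 u (h hv0)).2 H0⟩ (Set.toFinite _)) (comp u) (QQ (comp u)) rfl
      ⟨⟨u, 0, .refl 0 hu⟩, fun x ⟨k, hk⟩ y ⟨l, hl⟩ => ⟨_, (c2 _ _ _ hk).symm.trans (c2 _ _ _ hl)⟩⟩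
      ⟨fun q hq => hQH.1 q hq.1, fun q hq q' hq' => hQH.2 q hq.1 q' hq'.1⟩
      (fun q hq => ⟨by
        rcases hq.1 with rfl | h
        · exact Set.disjoint_left.2 fun x hx => (c1 u hx).2
        · exact (hCQ q h).1.mono_left fun x hx => (c1 u hx).1, hq.2⟩)
    exact ⟨L, fun _ => hL⟩
  choose L hL using this
  refine ⟨fun u => {x | x ∈ H ∧ In G C u r x} ∪ if u ∈ H then ∅ else L (comp u) u,
    fun u hu => ?_, fun u v p hp hs => ?_⟩
  · have b := ball u hu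
    by_cases h : u ∈ H
    · simp only [if_pos h, Set.union_empty]
      have := Hn_lt (Nt u) r
      nlinarith
    simp only [if_neg h]
    have l1 := (hL _ ⟨u, ⟨hu, h⟩, rfl⟩).1 u ⟨0, .refl 0 ⟨hu, h⟩⟩
    have sub : ∀ j, (∀ x ∈ H, ¬ In G C u j x) → NN G C Q u j ⊆ NN G (comp u) (QQ (comp u)) u j := by
      rintro j hj q ⟨h1, x, h2, h3⟩
      have h4 := c2 _ _ _ (h2.sub (D := C \ H) fun y hy => ⟨hy.right, fun a => hj y a hy⟩)
      exact ⟨⟨Or.inr h1, x, h4.right, h3⟩, x, h4, h3⟩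
    by_cases hb : ∃ x ∈ H, In G C u r x
    · have ex : ∃ j, ∃ x ∈ H, In G C u j x := ⟨r, hb⟩
      have e1 := Nat.find_spec ex
      have e2 : ∀ j < Nat.find ex, ∀ x ∈ H, ¬ In G C u j x := fun j hj x h1 h2 =>
        Nat.find_min ex hj ⟨x, h1, h2⟩
      have e3 : Nat.find ex ≤ r := Nat.find_min' ex hb
      generalize Nat.find ex = e at e1 e2 e3
      obtain ⟨x, x1, x2⟩ := e1
      cases x2 with
      | refl _ _ => exact absurd x1 h
      | @step e y _ k0 k1 k2 =>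
        have h4 := c2 _ _ _ (k0.sub (D := C \ H) fun z hz => ⟨hz.right, fun a => e2 e (by omega) z a hz⟩)
        have := Hn_strict (N' := fun j => (NN G (comp u) (QQ (comp u)) u j).ncard) (Nt u) e
          (fun j hj => Set.ncard_le_ncard (sub j (e2 j (by omega))) (Set.toFinite _))
          (Set.ncard_lt_ncard ⟨sub e (e2 e (by omega)), fun a => Set.disjoint_left.1
            (hCQ H (a ⟨⟨Or.inl rfl, y, h4.right, x, x1, k1⟩, y, h4, x, x1, k1⟩).1).1 hv0 H0⟩
            (Set.toFinite _)) r (by omega)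
        have := Set.ncard_union_le {x | x ∈ H ∧ In G C u r x} (L (comp u) u)
        nlinarith
    · have e : {x | x ∈ H ∧ In G C u r x} = ∅ := Set.eq_empty_iff_forall_notMem.2 fun x hx =>
        hb ⟨x, hx.1, hx.2⟩
      rw [e, Set.empty_union]
      refine le_trans (Nat.add_le_add_left (Nat.mul_le_mul_left _ (Hn_mono r fun j hj => ?_)) _) l1
      exact Set.ncard_le_ncard (sub j fun x h1 h2 => hb ⟨x, h1, h2.mono hj.le⟩) (Set.toFinite _)
  · by_cases h : ∃ w ∈ p.support, w ∈ H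
    · obtain ⟨w, h1, h2⟩ := h
      refine ⟨w, h1, Or.inl ⟨h2, (in_walk p hs h1).mono hp⟩, Or.inl ⟨h2, (in_walk p.reverse
        (by simpa using hs) (by simpa using h1)).mono (by simpa using hp)⟩⟩
    push Not at h
    have h1 : ∀ x ∈ p.support, x ∈ comp u := fun x hx =>
      ⟨_, in_walk p (fun y hy => ⟨hs y hy, h y hy⟩) hx⟩
    obtain ⟨w, h2, h3, h4⟩ := (hL _ ⟨u, c1 u (h1 u p.start_mem_support), rfl⟩).2 u v p hp h1
    refine ⟨w, h2, Or.inr ?_, Or.inr ?_⟩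
    · rwa [if_neg (h u p.start_mem_support)]
    · rwa [if_neg (h v p.end_mem_support), c3 u v (h1 v p.end_mem_support)]

theorem hub (t r : ℕ) : ∃ B, ∀ (V : Type) [Finite V] (G : SimpleGraph V), Conn G Set.univ →
    (¬ ∃ f : Fin t → Set V, (∀ i, (G.induce (f i)).Connected) ∧
      (∀ i j, i ≠ j → Disjoint (f i) (f j)) ∧ (∀ i j, i ≠ j → ∃ u ∈ f i, ∃ v ∈ f j, G.Adj u v)) →
    ∃ L : V → Finset V, (∀ u, (L u).card ≤ B) ∧ ∀ (u v : V) (p : G.Walk u v), p.length ≤ r →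
      ∃ w ∈ p.support, w ∈ L u ∧ w ∈ L v := by
  refine ⟨(2 * r + 1) * (t + 1) * (t + 1) ^ r, fun V _ G hc hm => ?_⟩
  obtain ⟨L, h1, h2⟩ := label (G := G) t r (fun Q hQ => by
    by_contra hn
    obtain ⟨Q', h1, h2⟩ := Set.exists_subset_card_eq (not_le.1 hn).le
    have e := (Finite.equivFinOfCardEq (α := Q') h2).symm
    have : ∀ i j, i ≠ j → (e i : Set V) ≠ e j := fun i j h a => h (e.injective (Subtype.ext a))
    exact hm ⟨fun i => e i, fun i => (hQ.1 _ (h1 (e i).2)).connected,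
      fun i j h => (hQ.2 _ (h1 (e i).2) _ (h1 (e j).2) (this i j h)).1,
      fun i j h => (hQ.2 _ (h1 (e i).2) _ (h1 (e j).2) (this i j h)).2⟩) _ Set.univ ∅ rfl hc
    ⟨by simp, by simp⟩ (by simp)
  refine ⟨fun u => (L u).toFinite.toFinset, fun u => ?_, fun u v p hp => ?_⟩
  · rw [← Set.ncard_eq_toFinset_card]
    exact (Nat.le_add_right _ _).trans (h1 u trivial)
  · simpa using h2 u v p hp fun _ _ => trivial

end Pool.Agent.H33.Hub
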