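import Mathlib

set_option autoImplicit false

namespace Pool.Agent.H33.Jmp
open List

/-- jumping step for a rule relation -/
def J {A : Type} (R : List A → List A → Prop) (x y : List A) : Prop :=
  ∃ l r u v u' v', R l r ∧ x = u ++ l ++ v ∧ y = u' ++ r ++ v' ∧ u ++ v = u' ++ v'

inductive QQ (I : Type) (K : ℕ) : Type
  | t (r : I) (a : Fin (K + 1)) : QQ I K
  | a (r r' : I) : QQ I K
  | b (r : I) (a : Fin (K + 1)) : QQ I K

inductive NN (X I : Type) (K : ℕ) : Type
  | bar (x : X) : NN X I K
  | hat (x : X) : NN X I K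
  | fil : NN X I K
  | ctl (r : I) : NN X I K
  | q (j : QQ I K) : NN X I K

theorem finQ (I : Type) [Finite I] (K : ℕ) : Finite (QQ I K) := by
  refine Finite.of_surjective
    (fun s : (I × Fin (K + 1)) ⊕ (I × I) ⊕ (I × Fin (K + 1)) =>
      s.elim (fun p => QQ.t p.1 p.2) (Sum.elim (fun p => QQ.a p.1 p.2) (fun p => QQ.b p.1 p.2))) ?_
  intro j
  cases j with
  | t r a => exact ⟨.inl (r, a), rfl⟩
  | a r r' => exact ⟨.inr (.inl (r, r')), rfl⟩
  | b r a => exact ⟨.inr (.inr (r, a)), rfl⟩

theorem finN (X I : Type) [Finite X] [Finite I] (K : ℕ) : Finite (NN X I K) := by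
  haveI := finQ I K
  refine Finite.of_surjective
    (fun s : X ⊕ X ⊕ Unit ⊕ I ⊕ QQ I K =>
      s.elim NN.bar (Sum.elim NN.hat (Sum.elim (fun _ => NN.fil) (Sum.elim NN.ctl NN.q)))) ?_
  intro j
  cases j with
  | bar x => exact ⟨.inl x, rfl⟩
  | hat x => exact ⟨.inr (.inl x), rfl⟩
  | fil => exact ⟨.inr (.inr (.inl ())), rfl⟩
  | ctl r => exact ⟨.inr (.inr (.inr (.inl r))), rfl⟩
  | q j => exact ⟨.inr (.inr (.inr (.inr j))), rfl⟩

variable {T N I : Type} {K : ℕ}

abbrev Sy (T N I : Type) (K : ℕ) : Type := Symbol T (NN (Symbol T N) I K)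

abbrev nt (s : NN (Symbol T N) I K) : Sy T N I K := Symbol.nonterminal s

def pl : Sy T N I K → Bool
  | .terminal _ => true
  | .nonterminal (.bar _) => true
  | .nonterminal .fil => true
  | _ => false

def isF : Sy T N I K → Bool
  | .nonterminal .fil => true
  | _ => false

def psi : Sy T N I K → Option (Symbol T N)
  | .terminal t => some (.terminal t)
  | .nonterminal (.bar x) => some x
  | .nonterminal (.hat x) => some x
  | _ => none

def e : Symbol T N × Bool → Sy T N I K
  | (.terminal t, true) => .terminal t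
  | (x, _) => nt (.bar x)

def Pl (w : List (Sy T N I K)) : Prop := ∀ s ∈ w, pl s = true
def cF (w : List (Sy T N I K)) : ℕ := w.countP isF
def phi (w : List (Sy T N I K)) : List (Symbol T N) := w.filterMap psi
def E (l : List (Symbol T N × Bool)) : List (Sy T N I K) := l.map e
def bars (l : List (Symbol T N)) : List (Sy T N I K) := l.map (fun x => nt (.bar x))
def FF (n : ℕ) : List (Sy T N I K) := replicate n (nt .fil)

@[simp] theorem Pl_append (a b : List (Sy T N I K)) : Pl (a ++ b) ↔ Pl a ∧ Pl b := by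
  simp only [Pl, mem_append]
  exact ⟨fun h => ⟨fun s hs => h s (.inl hs), fun s hs => h s (.inr hs)⟩,
    fun h s hs => hs.elim (h.1 s) (h.2 s)⟩
@[simp] theorem Pl_cons (s : Sy T N I K) (b : List (Sy T N I K)) :
    Pl (s :: b) ↔ pl s = true ∧ Pl b := by simp [Pl]
@[simp] theorem Pl_nil : Pl ([] : List (Sy T N I K)) := by simp [Pl]
@[simp] theorem cF_append (a b : List (Sy T N I K)) : cF (a ++ b) = cF a + cF b := by simp [cF]
@[simp] theorem cF_nil : cF ([] : List (Sy T N I K)) = 0 := rfl
@[simp] theorem phi_append (a b : List (Sy T N I K)) : phi (a ++ b) = phi a ++ phi b := by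
  simp [phi]
@[simp] theorem phi_nil : phi ([] : List (Sy T N I K)) = [] := rfl
theorem pl_e (p : Symbol T N × Bool) : pl (e p : Sy T N I K) = true := by
  rcases p with ⟨_ | _, _ | _⟩ <;> rfl
theorem isF_e (p : Symbol T N × Bool) : isF (e p : Sy T N I K) = false := by
  rcases p with ⟨_ | _, _ | _⟩ <;> rfl
theorem psi_e (p : Symbol T N × Bool) : psi (e p : Sy T N I K) = some p.1 := by
  rcases p with ⟨_ | _, _ | _⟩ <;> rfl
@[simp] theorem Pl_E (l : List (Symbol T N × Bool)) : Pl (E l : List (Sy T N I K)) := by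
  intro s hs; obtain ⟨p, -, rfl⟩ := mem_map.1 hs; exact pl_e p
@[simp] theorem cF_E (l : List (Symbol T N × Bool)) : cF (E l : List (Sy T N I K)) = 0 := by
  simp only [cF, E, countP_eq_zero]
  intro s hs; obtain ⟨p, -, rfl⟩ := mem_map.1 hs; simp [isF_e]
@[simp] theorem phi_E (l : List (Symbol T N × Bool)) :
    phi (E l : List (Sy T N I K)) = l.map Prod.fst := by
  induction l with
  | nil => rfl
  | cons p l ih =>
    simp only [phi, E, map_cons] at ih ⊢
    rw [filterMap_cons_some (psi_e p), ih]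
@[simp] theorem len_E (l : List (Symbol T N × Bool)) :
    (E l : List (Sy T N I K)).length = l.length := by simp [E]
theorem E_append (l l' : List (Symbol T N × Bool)) :
    (E (l ++ l') : List (Sy T N I K)) = E l ++ E l' := by simp [E]
theorem bars_eq (l : List (Symbol T N)) :
    (bars l : List (Sy T N I K)) = E (l.map (fun x => (x, false))) := by
  simp only [bars, E, map_map]
  congr 1; funext x; rcases x with _ | _ <;> rfl
@[simp] theorem Pl_bars (l : List (Symbol T N)) : Pl (bars l : List (Sy T N I K)) := by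
  simp [bars_eq]
@[simp] theorem cF_bars (l : List (Symbol T N)) : cF (bars l : List (Sy T N I K)) = 0 := by
  simp [bars_eq]
@[simp] theorem phi_bars (l : List (Symbol T N)) : phi (bars l : List (Sy T N I K)) = l := by
  simp [bars_eq, Function.comp_def]
@[simp] theorem len_bars (l : List (Symbol T N)) :
    (bars l : List (Sy T N I K)).length = l.length := by simp [bars]
@[simp] theorem Pl_FF (n : ℕ) : Pl (FF n : List (Sy T N I K)) := by
  intro s hs; rw [FF, mem_replicate] at hs; rw [hs.2]; rfl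
@[simp] theorem cF_FF (n : ℕ) : cF (FF n : List (Sy T N I K)) = n := by
  simp [cF, FF, countP_replicate, isF]
@[simp] theorem phi_FF (n : ℕ) : phi (FF n : List (Sy T N I K)) = [] := by
  simp [phi, FF, psi]
@[simp] theorem len_FF (n : ℕ) : (FF n : List (Sy T N I K)).length = n := by simp [FF]
theorem FF_add (m n : ℕ) : (FF (m + n) : List (Sy T N I K)) = FF m ++ FF n := by
  simp [FF]

variable (x y : I → List (Symbol T N))

def la : QQ I K → ℕ
  | .t _ a => a
  | .a _ _ => 0
  | .b _ a => a

def lb : QQ I K → ℕ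
  | .t r a => (x r).length - 1 - a
  | .a r r' => (y r).length - 1 + (x r').length
  | .b r a => (y r).length - 1 - a

inductive Act : List (Sy T N I K) → NN (Symbol T N) I K → List (Sy T N I K) →
    List (Sy T N I K) → Prop
  | jump (r : I) (j : ℕ) (h : j ≤ K) : Act [] (.ctl r) (FF j) [nt (.ctl r)]
  | sT (r : I) (a : Fin (K + 1)) (l : List (Symbol T N)) (s : Symbol T N) (p : List (Symbol T N))
      (h : x r = l ++ s :: p) (ha : l.length = a) :
      Act (bars l) (.hat s) (bars p) [nt (.q (.t r a))]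
  | eT (r : I) (a : Fin (K + 1)) (h : (a : ℕ) < (x r).length) :
      Act (FF a) (.q (.t r a)) (FF ((x r).length - 1 - a))
        (nt (.ctl r) :: FF ((y r).length - (x r).length))
  | sA (r r' : I) : Act [] (.ctl r) (FF ((y r).length - 1) ++ bars (x r')) [nt (.q (.a r r'))]
  | eA (r r' : I) (g : List (Symbol T N × Bool)) (h : g.map Prod.fst = y r) :
      Act [] (.q (.a r r')) (FF ((x r').length - 1) ++ E g)
        (nt (.ctl r') :: FF ((y r').length - (x r').length))
  | sB (r : I) (a : Fin (K + 1)) (h : (a : ℕ) < (y r).length) :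
      Act (FF a) (.ctl r) (FF ((y r).length - 1 - a)) [nt (.q (.b r a))]
  | eB (r : I) (a : Fin (K + 1)) (g g' : List (Symbol T N × Bool)) (s : Symbol T N)
      (h : g.map Prod.fst ++ s :: g'.map Prod.fst = y r) (ha : g.length = a) :
      Act (E g) (.q (.b r a)) (E g') [nt (.hat s)]
  | eC (r : I) (a : Fin (K + 1)) (g g' : List (Symbol T N × Bool)) (s : Symbol T N × Bool)
      (h : g.map Prod.fst ++ s.1 :: g'.map Prod.fst = y r) (ha : g.length = a) :
      Act (E g) (.q (.b r a)) (E g') [e s]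

def Blk (j : QQ I K) (w : List (Sy T N I K)) : Prop :=
  ∃ l p, w = l ++ nt (.q j) :: p ∧ l.length = la j ∧ p.length = lb x y j ∧ Pl l ∧ Pl p

def CS (L R : List (Sy T N I K)) : Prop :=
  ∃ (α β γ : List (Sy T N I K)) (A : NN (Symbol T N) I K), γ ≠ [] ∧
    L = α ++ [Symbol.nonterminal A] ++ β ∧ R = α ++ γ ++ β

def Rule (L R : List (Sy T N I K)) : Prop :=
  (∃ l s p γ, Act x y l s p γ ∧ L = l ++ nt s :: p ∧ R = l ++ γ ++ p) ∨
    (CS L R ∧ ∃ j, Blk x y j L ∧ Blk x y j R)

def R0 (L R : List (Symbol T N)) : Prop := ∃ r, L = x r ∧ R = y r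

variable (S : N)

def Der (w : List (Symbol T N)) : Prop :=
  Relation.ReflTransGen (J (R0 x y)) [Symbol.nonterminal S] w

def Pend (r : I) (z : List (Symbol T N)) : Prop :=
  ∃ z1 z2, z1 ++ z2 = z ∧ Der x y S (z1 ++ x r ++ z2)

def QS : QQ I K → List (Sy T N I K) → Prop
  | .t r _, z => cF z = 0 ∧ Pend x y S r (phi z)
  | .a r r', z => cF z = 0 ∧ ∃ s1 s2, s1 ++ s2 = phi z ∧ Pend x y S r (s1 ++ x r' ++ s2)
  | .b r _, z => cF z = 0 ∧ Pend x y S r (phi z)

def Sem : NN (Symbol T N) I K → List (Sy T N I K) → List (Sy T N I K) → Prop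
  | .hat s, α, β => cF (α ++ β) = 0 ∧ Der x y S (phi α ++ s :: phi β)
  | .ctl r, α, β => cF (α ++ β) = (y r).length - 1 ∧ Pend x y S r (phi (α ++ β))
  | .q j, α, β => ∃ u l p v, α = u ++ l ∧ β = p ++ v ∧ l.length = la j ∧ p.length = lb x y j ∧
      QS x y S j (u ++ v)
  | _, _, _ => False

def Inv (w : List (Sy T N I K)) : Prop :=
  (Pl w ∧ cF w = 0 ∧ Der x y S (phi w)) ∨
    ∃ α s β, w = α ++ nt s :: β ∧ Pl α ∧ Pl β ∧ Sem x y S s α β

variable {x y S}

theorem uniq {a b c d : List (Sy T N I K)} {s t : Sy T N I K} (h : a ++ s :: b = c ++ t :: d)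
    (ha : Pl a) (hb : Pl b) (ht : pl t = false) : a = c ∧ s = t ∧ b = d := by
  rcases append_eq_append_iff.1 h with ⟨a', h1, h2⟩ | ⟨c', h1, h2⟩
  · rcases a' with _ | ⟨z, a'⟩
    · simp only [nil_append, cons.injEq, append_nil] at h1 h2; exact ⟨h1.symm, h2.1, h2.2⟩
    · simp only [cons_append, cons.injEq] at h2
      have := hb t (by rw [h2.2]; simp); simp [ht] at this
  · rcases c' with _ | ⟨z, c'⟩
    · simp only [nil_append, cons.injEq, append_nil] at h1 h2
      exact ⟨h1, h2.1.symm, h2.2.symm⟩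
    · simp only [cons_append, cons.injEq] at h2
      have := ha t (by rw [h1, h2.1]; simp); simp [ht] at this

theorem inv_act {c d : List (Sy T N I K)} {s : NN (Symbol T N) I K}
    (h : Inv x y S (c ++ nt s :: d)) (hs : pl (nt s : Sy T N I K) = false) :
    Pl c ∧ Pl d ∧ Sem x y S s c d := by
  rcases h with ⟨h, -⟩ | ⟨α, s', β, h, ha, hb, hS⟩
  · simp [hs] at h
  · obtain ⟨rfl, h2, rfl⟩ := uniq h.symm ha hb hs
    cases h2
    exact ⟨ha, hb, hS⟩

theorem sem_q {j : QQ I K} {u l p v : List (Sy T N I K)}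
    (h : Sem x y S (.q j) (u ++ l) (p ++ v)) (hl : l.length = la j) (hp : p.length = lb x y j) :
    QS x y S j (u ++ v) := by
  obtain ⟨u', l', p', v', h1, h2, h3, h4, h5⟩ := h
  obtain ⟨rfl, -⟩ := append_inj' h1 (hl.trans h3.symm)
  obtain ⟨-, rfl⟩ := append_inj h2 (hp.trans h4.symm)
  exact h5

theorem Pend.der {r : I} {z : List (Symbol T N)} (h : Pend x y S r z) {s1 s2 : List (Symbol T N)}
    (hs : s1 ++ s2 = z) : Der x y S (s1 ++ y r ++ s2) := by
  obtain ⟨z1, z2, h1, h2⟩ := h
  exact h2.tail ⟨_, _, z1, z2, s1, s2, ⟨r, rfl, rfl⟩, rfl, rfl, h1.trans hs.symm⟩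

theorem Pend.next {r r' : I} {s1 s2 t1 t2 : List (Symbol T N)}
    (h : Pend x y S r (s1 ++ x r' ++ s2)) (ht : t1 ++ t2 = s1 ++ s2) :
    Pend x y S r' (t1 ++ y r ++ t2) := by
  rcases append_eq_append_iff.1 ht with ⟨a, rfl, rfl⟩ | ⟨a, rfl, rfl⟩
  · refine ⟨t1 ++ y r ++ a, s2, by simp, ?_⟩
    have := h.der (s1 := t1) (s2 := a ++ x r' ++ s2) (by simp)
    simpa using this
  · refine ⟨s1, a ++ y r ++ t2, by simp, ?_⟩
    have := h.der (s1 := s1 ++ x r' ++ a) (s2 := t2) (by simp)
    simpa using this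

theorem inv_step (hx : ∀ r, 0 < (x r).length ∧ (x r).length ≤ (y r).length)
    {w w' : List (Sy T N I K)} (h : Inv x y S w) (hs : J (Rule x y) w w') : Inv x y S w' := by
  obtain ⟨L, R, u, v, u', v', hR, rfl, rfl, huv⟩ := hs
  have hP : Pl u ∧ Pl v → Pl u' ∧ Pl v' := fun h => by
    rw [← Pl_append] at h ⊢; rwa [← huv]
  have hc : cF u + cF v = cF u' + cF v' := by rw [← cF_append, huv, cF_append]
  have hf : phi u ++ phi v = phi u' ++ phi v' := by rw [← phi_append, huv, phi_append]
  rcases hR with ⟨l, s, p, γ, hA, rfl, rfl⟩ | ⟨-, j, ⟨l, p, rfl, hl, hp, -, -⟩, l', p', rfl, hl', hp', hPl, hPp⟩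
  · have h' : Inv x y S ((u ++ l) ++ nt s :: (p ++ v)) := by simpa using h
    have hs : pl (nt s : Sy T N I K) = false := by cases hA <;> rfl
    obtain ⟨h1, h2, h3⟩ := inv_act h' hs
    simp only [Pl_append] at h1 h2
    obtain ⟨hu', hv'⟩ := hP ⟨h1.1, h2.2⟩
    cases hA with
    | jump r j hj =>
      refine .inr ⟨u', .ctl r, FF j ++ v', by simp, hu', by simp [hv'], ?_⟩
      simp only [Sem, cF_append, phi_append, cF_FF, phi_FF, append_nil, nil_append] at h3 ⊢
      exact ⟨by omega, hf ▸ h3.2⟩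
    | sT r a l s p hr ha =>
      refine .inr ⟨u' ++ bars l, .q (.t r a), bars p ++ v', by simp, by simp [hu'], by simp [hv'],
        u', _, _, v', rfl, rfl, by simp [la, ha], by simp [lb, hr, ha], ?_⟩
      simp only [Sem, QS, cF_append, phi_append, cF_bars, phi_bars] at h3 ⊢
      refine ⟨by omega, phi u, phi v, hf, ?_⟩
      simpa [hr] using h3.2
    | eT r a ha =>
      have h4 := sem_q h3 (by simp [la]) (by simp [lb])
      refine .inr ⟨u' ++ FF a, .ctl r, FF ((y r).length - (x r).length) ++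
        FF ((x r).length - 1 - a) ++ v', by simp, by simp [hu'], by simp [hv'], ?_⟩
      simp only [Sem, QS, cF_append, phi_append, cF_FF, phi_FF, append_nil, nil_append] at h4 ⊢
      have := hx r
      exact ⟨by omega, hf ▸ h4.2⟩
    | sA r r' =>
      refine .inr ⟨u', .q (.a r r'), (FF ((y r).length - 1) ++ bars (x r')) ++ v', by simp, hu',
        by simp [hv'], u', [], _, v', by simp, rfl, by simp [la], by simp [lb], ?_⟩
      simp only [Sem, QS, cF_append, phi_append, cF_FF, phi_FF, cF_bars, phi_bars, append_nil,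
        nil_append] at h3 ⊢
      exact ⟨by omega, phi u, phi v, hf, by simpa using h3.2⟩
    | eA r r' g hg =>
      have hl : g.length = (y r).length := by rw [← hg]; simp
      have h5 := hx r
      have h6 := hx r'
      have h4 := sem_q h3 (by simp [la]) (by simp [lb]; omega)
      refine .inr ⟨u', .ctl r', FF ((y r').length - (x r').length) ++
        (FF ((x r').length - 1) ++ E g) ++ v', by simp, hu', by simp [hv'], ?_⟩
      simp only [Sem, QS, cF_append, phi_append, cF_FF, phi_FF, cF_E, phi_E, nil_append] at h4 ⊢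
      obtain ⟨h7, s1, s2, h8, h9⟩ := h4
      refine ⟨by omega, ?_⟩
      have := h9.next (t1 := phi u') (t2 := phi v') (by rw [h8, hf])
      simpa [hg] using this
    | sB r a ha =>
      refine .inr ⟨u' ++ FF a, .q (.b r a), FF ((y r).length - 1 - a) ++ v', by simp,
        by simp [hu'], by simp [hv'], u', _, _, v', rfl, rfl, by simp [la], by simp [lb], ?_⟩
      simp only [Sem, QS, cF_append, phi_append, cF_FF, phi_FF, append_nil, nil_append] at h3 ⊢
      exact ⟨by omega, hf ▸ h3.2⟩
    | eB r a g g' s hg ha =>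
      have hl : g.length + (g'.length + 1) = (y r).length := by rw [← hg]; simp
      have h4 := sem_q h3 (by simp [la, ha]) (by simp [lb]; omega)
      refine .inr ⟨u' ++ E g, .hat s, E g' ++ v', by simp, by simp [hu'], by simp [hv'], ?_⟩
      simp only [Sem, QS, cF_append, phi_append, cF_E, phi_E] at h4 ⊢
      refine ⟨by omega, ?_⟩
      have := h4.2.der hf.symm
      rw [← hg] at this
      simpa using this
    | eC r a g g' s hg ha =>
      have hl : g.length + (g'.length + 1) = (y r).length := by rw [← hg]; simp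
      have h4 := sem_q h3 (by simp [la, ha]) (by simp [lb]; omega)
      have he : ([e s] : List (Sy T N I K)) = E [s] := rfl
      rw [he]
      refine .inl ⟨by simp [hu', hv'], ?_, ?_⟩
      · simp only [QS, cF_append, cF_E] at h4 ⊢; omega
      · simp only [QS, phi_append, phi_E] at h4 ⊢
        have := h4.2.der hf.symm
        rw [← hg] at this
        simpa using this
  · have h' : Inv x y S ((u ++ l) ++ nt (.q j) :: (p ++ v)) := by simpa using h
    obtain ⟨h1, h2, h3⟩ := inv_act h' rfl
    simp only [Pl_append] at h1 h2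
    obtain ⟨hu', hv'⟩ := hP ⟨h1.1, h2.2⟩
    refine .inr ⟨u' ++ l', .q j, p' ++ v', by simp, by simp [hu', hPl], by simp [hv', hPp],
      u', l', p', v', rfl, rfl, hl', hp', ?_⟩
    rw [← huv]; exact sem_q h3 hl hp

theorem sound (hx : ∀ r, 0 < (x r).length ∧ (x r).length ≤ (y r).length) {w : List T}
    (h : Relation.ReflTransGen (J (Rule (K := K) x y)) [nt (.hat (.nonterminal S))]
      (w.map Symbol.terminal)) : Der x y S (w.map Symbol.terminal) := by
  have key : ∀ w' : List (Sy T N I K), Relation.ReflTransGen (J (Rule (K := K) x y))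
      [nt (.hat (.nonterminal S))] w' → Inv x y S w' := by
    intro w' h
    induction h with
    | refl => exact .inr ⟨[], _, [], rfl, by simp, by simp, rfl, Relation.ReflTransGen.refl⟩
    | tail _ hs ih => exact inv_step hx ih hs
  rcases key _ h with ⟨-, -, h⟩ | ⟨α, s, β, h, -⟩
  · have : phi (w.map Symbol.terminal : List (Sy T N I K)) = w.map Symbol.terminal := by
      simp [phi, filterMap_map, Function.comp_def, psi]
    rwa [this] at h
  · have : nt s ∈ (w.map Symbol.terminal : List (Sy T N I K)) := by rw [h]; simp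
    simp at this

end Pool.Agent.H33.Jmp
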