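import Pool.Agent.H33.Jmp1

set_option autoImplicit false

namespace Pool.Agent.H33.Jmp
open List

variable {T N I : Type} {K : ℕ} {x y : I → List (Symbol T N)} {S : N}

abbrev RR (x y : I → List (Symbol T N)) (w w' : List (Sy T N I K)) : Prop :=
  Relation.ReflTransGen (J (Rule x y)) w w'

theorem act {l p γ : List (Sy T N I K)} {s : NN (Symbol T N) I K} (h : Act x y l s p γ)
    {w w' : List (Sy T N I K)} (u v u' v' : List (Sy T N I K)) (huv : u ++ v = u' ++ v')
    (hw : w = u ++ l ++ nt s :: p ++ v) (hw' : w' = u' ++ l ++ γ ++ p ++ v') : RR x y w w' :=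
  .single ⟨_, _, u, v, u', v', .inl ⟨l, s, p, γ, h, rfl, rfl⟩, by simp [hw], by simp [hw'], huv⟩

def Nt (w : List (Sy T N I K)) : Prop := ∀ s ∈ w, ∃ A, s = nt A

theorem Nt_bars (l : List (Symbol T N)) : Nt (bars l : List (Sy T N I K)) := by
  intro s hs; obtain ⟨p, -, rfl⟩ := mem_map.1 hs; exact ⟨_, rfl⟩
theorem Nt_FF (n : ℕ) : Nt (FF n : List (Sy T N I K)) := by
  intro s hs; rw [FF, mem_replicate] at hs; exact ⟨_, hs.2⟩
theorem Nt_append {a b : List (Sy T N I K)} (ha : Nt a) (hb : Nt b) : Nt (a ++ b) := by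
  intro s hs; exact (mem_append.1 hs).elim (ha s) (hb s)

theorem cells (j : QQ I K) (u v suf m : List (Sy T N I K)) : ∀ (pre m' : List (Sy T N I K)),
    (∀ k : List (Sy T N I K), k.length = m.length → Pl k → Blk x y j (pre ++ k ++ suf)) →
    m'.length = m.length → Pl m → Nt m → Pl m' →
    RR x y (u ++ (pre ++ m ++ suf) ++ v) (u ++ (pre ++ m' ++ suf) ++ v) := by
  induction m with
  | nil =>
    intro pre m' _ h _ _ _
    rw [length_eq_zero_iff.1 h]
  | cons A m ih =>
    intro pre m' H h hm hn hm'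
    rcases m' with _ | ⟨B, m'⟩
    · simp at h
    obtain ⟨A, rfl⟩ := hn A (by simp)
    simp only [Pl_cons, length_cons, Nat.add_right_cancel_iff] at hm hm' h
    have h1 := ih (pre ++ [B]) m' (fun k hk hp => by
      have := H (B :: k) (by simp [hk]) (by simp [hp, hm'.1])
      simpa using this) h hm.2 (fun s hs => hn s (by simp [hs])) hm'.2
    refine Relation.ReflTransGen.head (b := u ++ (pre ++ B :: m ++ suf) ++ v)
      ⟨_, _, u, v, u, v, .inr ⟨⟨pre, m ++ suf, [B], A, by simp, by simp, rfl⟩, j,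
        H _ rfl (by simp [hm]), ?_⟩, rfl, by simp, rfl⟩ (by simpa using h1)
    have := H (B :: m) (by simp) (by simp [hm.2, hm'.1])
    simpa using this

theorem conv (j : QQ I K) (u v : List (Sy T N I K)) {l p l' p' : List (Sy T N I K)}
    (hl : l.length = la j) (hp : p.length = lb x y j) (hl' : l'.length = la j)
    (hp' : p'.length = lb x y j) (h1 : Pl l) (h2 : Pl p) (h3 : Pl l') (h4 : Pl p')
    (h5 : Nt l) (h6 : Nt p) :
    RR x y (u ++ l ++ nt (.q j) :: p ++ v) (u ++ l' ++ nt (.q j) :: p' ++ v) := by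
  have a1 := cells (x := x) (y := y) j u v (nt (.q j) :: p) l [] l'
    (fun k hk hp0 => ⟨k, p, by simp, hk.trans hl, hp, hp0, h2⟩) (hl'.trans hl.symm) h1 h5 h3
  have a2 := cells (x := x) (y := y) j u v [] p (l' ++ [nt (.q j)]) p'
    (fun k hk hp0 => ⟨l', k, by simp, hl', hk.trans hp, h3, hp0⟩) (hp'.trans hp.symm) h2 h6 h4
  simp only [nil_append, append_nil, append_assoc, cons_append] at a1 a2 ⊢
  exact a1.trans a2

def Kb (y : I → List (Symbol T N)) (r : I) : List (Sy T N I K) :=
  nt (.ctl r) :: FF ((y r).length - 1)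

theorem mT (hx : ∀ r, 0 < (x r).length ∧ (x r).length ≤ (y r).length)
    (hK : ∀ r, (y r).length ≤ K) {r : I} {l p : List (Symbol T N)} {s : Symbol T N}
    (h : x r = l ++ s :: p) (u v : List (Sy T N I K)) :
    RR x y (u ++ bars l ++ nt (.hat s) :: bars p ++ v) (Kb y r ++ (u ++ v)) := by
  have h0 := hx r
  have h1 := hK r
  have h2 : (x r).length = l.length + (p.length + 1) := by simp [h]
  let a : Fin (K + 1) := ⟨l.length, by omega⟩
  have ha : (a : ℕ) = l.length := rfl
  refine (act (.sT r a l s p h rfl) u v u v rfl rfl rfl).trans ?_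
  have c := conv (x := x) (y := y) (.t r a) u v (l := bars l) (p := bars p) (l' := FF a)
    (p' := FF ((x r).length - 1 - a)) (by simp [la, ha]) (by simp [lb]; omega) (by simp [la])
    (by simp [lb]) (by simp) (by simp) (by simp) (by simp) (Nt_bars _) (Nt_bars _)
  refine Relation.ReflTransGen.trans (by simpa using c) ?_
  refine (act (.eT r a (by omega)) u v [] (u ++ v) rfl (by simp) rfl).trans ?_
  refine act (.jump r 0 (by omega)) (FF a) (FF ((y r).length - (x r).length) ++
    FF ((x r).length - 1 - a) ++ (u ++ v)) [] _ rfl (by simp [FF]) ?_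
  have : (y r).length - 1 = a + (((y r).length - (x r).length) + ((x r).length - 1 - a)) := by
    omega
  have h0 : (FF 0 : List (Sy T N I K)) = [] := rfl
  rw [Kb, this, FF_add, FF_add]; simp [h0]

theorem mA (hx : ∀ r, 0 < (x r).length ∧ (x r).length ≤ (y r).length)
    (hK : ∀ r, (y r).length ≤ K) (r r' : I) {g : List (Symbol T N × Bool)}
    (hg : g.map Prod.fst = y r) (g1 g2 t1 t2 : List (Sy T N I K)) (ht : g1 ++ g2 = t1 ++ t2) :
    RR x y (Kb y r ++ (g1 ++ bars (x r') ++ g2)) (Kb y r' ++ (t1 ++ E g ++ t2)) := by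
  have h0 := hx r
  have h1 := hK r
  have h0' := hx r'
  have h1' := hK r'
  have hl : g.length = (y r).length := by rw [← hg]; simp
  refine (act (.jump r ((y r).length - 1) (by omega)) [] (g1 ++ bars (x r') ++ g2) g1
    (bars (x r') ++ g2) (by simp) (by simp [Kb]) rfl).trans ?_
  refine (act (.sA r r') g1 g2 g1 g2 rfl (by simp) rfl).trans ?_
  have c := conv (x := x) (y := y) (.a r r') g1 g2 (l := []) (l' := [])
    (p := FF ((y r).length - 1) ++ bars (x r')) (p' := FF ((x r').length - 1) ++ E g)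
    rfl (by simp [lb]) rfl (by simp [lb]; omega) (by simp) (by simp) (by simp) (by simp)
    (fun s hs => by simp at hs) (Nt_append (Nt_FF _) (Nt_bars _))
  refine Relation.ReflTransGen.trans (by simpa using c) ?_
  refine (act (.eA r r' g hg) g1 g2 t1 t2 ht (by simp) rfl).trans ?_
  refine act (.jump r' ((y r').length - 1) (by omega)) t1 (E g ++ t2) [] (t1 ++ E g ++ t2)
    (by simp) ?_ (by simp [Kb])
  have : (y r').length - 1 = ((y r').length - (x r').length) + ((x r').length - 1) := by omega
  rw [this, FF_add]; simp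

theorem mB (hK : ∀ r, (y r).length ≤ K) (r : I) {g g' : List (Symbol T N × Bool)}
    {s : Symbol T N} (hg : g.map Prod.fst ++ s :: g'.map Prod.fst = y r)
    (z : List (Sy T N I K)) :
    ∃ a : Fin (K + 1), g.length = a ∧ RR x y (Kb y r ++ z) (E g ++ nt (.q (.b r a)) :: E g' ++ z) := by
  have h1 := hK r
  have hl : g.length + (g'.length + 1) = (y r).length := by rw [← hg]; simp
  let a : Fin (K + 1) := ⟨g.length, by omega⟩
  have ha : (a : ℕ) = g.length := rfl
  refine ⟨a, rfl, ?_⟩
  have e1 : (y r).length - 1 = a + ((y r).length - 1 - a) := by omega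
  refine (act (.jump r 0 (by omega)) [] (FF ((y r).length - 1) ++ z) (FF a)
    (FF ((y r).length - 1 - a) ++ z) (by rw [nil_append, ← append_assoc, ← FF_add, ← e1])
    (by simp [Kb, FF]) rfl).trans ?_
  refine (act (.sB r a (by omega)) [] z [] z rfl (by simp [FF]) rfl).trans ?_
  have c := conv (x := x) (y := y) (.b r a) [] z (l := FF a) (l' := E g)
    (p := FF ((y r).length - 1 - a)) (p' := E g')
    (by simp [la]) (by simp [lb]) (by simp [la, ha]) (by simp [lb]; omega) (by simp) (by simp)
    (by simp) (by simp) (Nt_FF _) (Nt_FF _)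
  simpa using c

theorem overlap {A : Type} {a b c d p q : List A} (h : a ++ p ++ b = c ++ q ++ d)
    (hp : p ≠ []) (hq : q ≠ []) :
    (∃ t, c = a ++ p ++ t ∧ b = t ++ q ++ d) ∨ (∃ t, a = c ++ q ++ t ∧ d = t ++ p ++ b) ∨
      ∃ p1 s p2 q1 q2, p = p1 ++ s :: p2 ∧ q = q1 ++ s :: q2 ∧ a ++ p1 = c ++ q1 ∧
        p2 ++ b = q2 ++ d := by
  have key : ∀ {a b c d p q : List A}, a ++ p ++ b = c ++ q ++ d → q ≠ [] → ∀ t, c = a ++ t →
      (∃ t, c = a ++ p ++ t ∧ b = t ++ q ++ d) ∨
      ∃ p1 s p2 q1 q2, p = p1 ++ s :: p2 ∧ q = q1 ++ s :: q2 ∧ a ++ p1 = c ++ q1 ∧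
        p2 ++ b = q2 ++ d := by
    intro a b c d p q h hq t ht
    subst ht
    simp only [append_assoc, append_cancel_left_eq] at h
    rcases append_eq_append_iff.1 h with ⟨w, rfl, rfl⟩ | ⟨w, rfl, h2⟩
    · exact .inl ⟨w, by simp, by simp⟩
    · rcases w with _ | ⟨s, w⟩
      · exact .inl ⟨[], by simp, by simpa using h2.symm⟩
      · rcases q with _ | ⟨s', q⟩
        · exact absurd rfl hq
        · simp only [cons_append, cons.injEq] at h2
          exact .inr ⟨t, s, w, [], q, rfl, by simp [h2.1], by simp, h2.2.symm⟩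
  have h' := h
  simp only [append_assoc] at h'
  rcases append_eq_append_iff.1 h' with ⟨t, ht, -⟩ | ⟨t, ht, -⟩
  · exact (key h hq t ht).elim .inl (fun h => .inr (.inr h))
  · rcases key h.symm hp t ht with h | ⟨q1, s, q2, p1, p2, h1, h2, h3, h4⟩
    · exact .inr (.inl h)
    · exact .inr (.inr ⟨p1, s, p2, q1, q2, h2, h1, h3.symm, h4.symm⟩)

theorem E_term (w : List T) : ∀ g : List (Symbol T N × Bool),
    g = w.map (fun t => (Symbol.terminal t, true)) →
      (E g : List (Sy T N I K)) = w.map Symbol.terminal ∧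
        g.map Prod.fst = w.map Symbol.terminal := by
  rintro g rfl
  exact ⟨by simp [E, Function.comp_def, e], by simp [Function.comp_def]⟩

theorem main (hx : ∀ r, 0 < (x r).length ∧ (x r).length ≤ (y r).length)
    (hK : ∀ r, (y r).length ≤ K) (w : List T) {f : List (Symbol T N)}
    (h : Relation.ReflTransGen (J (R0 x y)) f (w.map Symbol.terminal)) :
    ∀ r u v, f = u ++ y r ++ v → ∃ gu gv : List (Symbol T N × Bool), gu.map Prod.fst = u ∧
      gv.map Prod.fst = v ∧
      RR (K := K) x y (Kb y r ++ (E gu ++ E gv)) (w.map Symbol.terminal) := by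
  have hy : ∀ r, y r ≠ [] := fun r h => by have := hx r; simp [h] at this; simp [this.2] at this
  have hx0 : ∀ r, x r ≠ [] := fun r h => by have := hx r; simp [h] at this
  induction h using Relation.ReflTransGen.head_induction_on with
  | refl =>
    intro r u v hf
    obtain ⟨h1, h2⟩ := E_term (N := N) (I := I) (K := K) w _ rfl
    generalize w.map (fun t => ((Symbol.terminal t : Symbol T N), true)) = g at h1 h2
    rw [← h2] at hf
    obtain ⟨g1, gv, rfl, h3, rfl⟩ := map_eq_append_iff.1 hf
    obtain ⟨gu, gy, rfl, rfl, h4⟩ := map_eq_append_iff.1 h3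
    refine ⟨gu, gv, rfl, rfl, ?_⟩
    rcases gy with _ | ⟨s, gy⟩
    · exact absurd h4.symm (hy r)
    obtain ⟨a, ha, h5⟩ := mB (x := x) hK r (g := []) (g' := gy) (s := s.1) (by simpa using h4)
      (E gu ++ E gv : List (Sy T N I K))
    refine h5.trans (act (.eC r a [] gy s (by simpa using h4) ha) [] (E gu ++ E gv) (E gu) (E gv)
      rfl (by simp) ?_)
    rw [← h1]; simp [E]
  | head hs _ ih =>
    intro r u v hf
    obtain ⟨_, _, z1, z2, u', v', ⟨r', rfl, rfl⟩, rfl, rfl, hz⟩ := hs
    obtain ⟨gu, gv, rfl, rfl, h1⟩ := ih r' u' v' rfl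
    rw [← map_append] at hz
    obtain ⟨g1, g2, h2, rfl, rfl⟩ := map_eq_append_iff.1 hz.symm
    rw [← E_append, h2, E_append] at h1
    have hb : ((x r').map (fun s => (s, false))).map Prod.fst = x r' := by
      simp [Function.comp_def]
    have hf' : (g1 ++ (x r').map (fun s => (s, false)) ++ g2).map Prod.fst = u ++ y r ++ v := by
      rw [map_append, map_append, hb, hf]
    obtain ⟨g3, gv, h3, h4, rfl⟩ := map_eq_append_iff.1 hf'
    obtain ⟨gu, gy, rfl, rfl, h5⟩ := map_eq_append_iff.1 h4
    refine ⟨gu, gv, rfl, rfl, Relation.ReflTransGen.trans ?_ h1⟩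
    rcases overlap h3 (by simpa using hx0 r') (fun h => hy r (by rw [← h5, h]; rfl)) with
      ⟨t, rfl, rfl⟩ | ⟨t, rfl, rfl⟩ | ⟨p1, s, p2, q1, q2, h6, rfl, h7, h8⟩
    · have := mA (K := K) hx hK r r' h5 (E g1) (E t ++ E gv) (E g1 ++ E t) (E gv) (by simp)
      simpa [E_append, bars_eq] using this
    · have := mA (K := K) hx hK r r' h5 (E gu ++ E t) (E g2) (E gu) (E t ++ E g2) (by simp)
      simpa [E_append, bars_eq] using this
    · obtain ⟨l, p', h9, rfl, h10⟩ := map_eq_append_iff.1 h6
      obtain ⟨s', p, rfl, rfl, rfl⟩ := map_eq_cons_iff.1 h10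
      obtain ⟨a, ha, h11⟩ := mB (x := x) hK r (g := q1) (g' := q2) (s := s') (by simpa using h5)
        (E gu ++ E gv : List (Sy T N I K))
      refine h11.trans ((act (.eB r a q1 q2 s' (by simpa using h5) ha) [] (E gu ++ E gv) (E gu)
        (E gv) rfl (by simp) rfl).trans ?_)
      have := mT (K := K) hx hK h9 (E g1) (E g2)
      rw [bars_eq, bars_eq, ← E_append, h7, append_assoc, cons_append, ← E_append, h8] at this
      simpa [E_append] using this

theorem complete (hx : ∀ r, 0 < (x r).length ∧ (x r).length ≤ (y r).length)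
    (hK : ∀ r, (y r).length ≤ K) {w : List T} (h : Der x y S (w.map Symbol.terminal)) :
    RR (K := K) x y [nt (.hat (.nonterminal S))] (w.map Symbol.terminal) := by
  rcases Relation.ReflTransGen.cases_head h with h | ⟨f, ⟨_, _, z1, z2, u, v, ⟨r, rfl, rfl⟩, h1,
    rfl, h2⟩, h3⟩
  · have : (Symbol.nonterminal S : Symbol T N) ∈ w.map Symbol.terminal := by rw [← h]; simp
    simp at this
  · have h4 := congrArg length h1
    have h5 := hx r
    simp only [length_cons, length_nil, length_append] at h4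
    obtain rfl : z1 = [] := length_eq_zero_iff.1 (by omega)
    obtain rfl : z2 = [] := length_eq_zero_iff.1 (by omega)
    obtain ⟨rfl, rfl⟩ := append_eq_nil_iff.1 h2.symm
    obtain ⟨gu, gv, h6, h7, h8⟩ := main hx hK w h3 r [] [] rfl
    rw [map_eq_nil_iff] at h6 h7
    subst h6 h7
    have := mT (K := K) hx hK (r := r) (l := []) (p := []) (s := .nonterminal S)
      (by simpa using h1.symm) [] []
    exact Relation.ReflTransGen.trans (by simpa [bars] using this) (by simpa [E] using h8)

theorem rule_cs {L R : List (Sy T N I K)} (h : Rule x y L R) : CS L R := by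
  rcases h with ⟨l, s, p, γ, h, rfl, rfl⟩ | h
  · exact ⟨l, p, γ, s, by cases h <;> simp, by simp, rfl⟩
  · exact h.1

theorem rule_len (hx : ∀ r, 0 < (x r).length ∧ (x r).length ≤ (y r).length)
    (hK : ∀ r, (y r).length ≤ K) {L R : List (Sy T N I K)} (h : Rule x y L R) :
    L.length ≤ 4 * K + 1 ∧ R.length ≤ 4 * K + 1 := by
  have hb : ∀ j : QQ I K, la j ≤ K ∧ lb x y j ≤ 2 * K := by
    intro j
    cases j with
    | t r a => have := hx r; have := hK r; have := a.2; simp only [la, lb]; omega
    | a r r' => have := hx r'; have := hK r; have := hK r'; simp only [la, lb]; omega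
    | b r a => have := hK r; have := a.2; simp only [la, lb]; omega
  rcases h with ⟨l, s, p, γ, h, rfl, rfl⟩ | ⟨-, j, ⟨l, p, rfl, h1, h2, -⟩, l', p', rfl, h3, h4, -⟩
  · cases h with
    | jump r j h => simp; omega
    | sT r a l s p h ha =>
      have := hx r; have := hK r; have := congrArg length h; simp at this ⊢; omega
    | eT r a h => have := hx r; have := hK r; simp; omega
    | sA r r' => have := hx r'; have := hK r; have := hK r'; simp; omega
    | eA r r' g h =>
      have := hx r'; have := hK r; have := hK r'; have := congrArg length h; simp at this ⊢; omega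
    | sB r a h => have := hK r; simp; omega
    | eB r a g g' s h ha => have := hK r; have := congrArg length h; simp at this ⊢; omega
    | eC r a g g' s h ha => have := hK r; have := congrArg length h; simp at this ⊢; omega
  · have := hb j
    simp; omega

end Pool.Agent.H33.Jmp
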