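import Mathlib

namespace Pool.Agent.H33.Lat

open Matrix MvPolynomial

section
variable {R : Type} [CommRing R]

def Lp (a b c d : R) : Matrix (Fin 4) (Fin 4) R :=
  !![a, -b, -c, -d; b, a, -d, c; c, d, a, -b; d, -c, b, a]

def Rq (a b c d : R) : Matrix (Fin 4) (Fin 4) R :=
  !![a, -b, -c, -d; b, a, d, -c; c, -d, a, b; d, c, -b, a]

def K : Matrix (Fin 4) (Fin 4) R := !![0, 0, 0, 1; 0, 0, -1, 0; 0, -1, 0, 0; 1, 0, 0, 0]

lemma dL (a b c d : R) : (Lp a b c d).det = (a ^ 2 + b ^ 2 + c ^ 2 + d ^ 2) ^ 2 := by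
  simp [Lp, det_succ_row_zero, Fin.sum_univ_succ, Fin.succAbove]
  ring

lemma dR (a b c d : R) : (Rq a b c d).det = (a ^ 2 + b ^ 2 + c ^ 2 + d ^ 2) ^ 2 := by
  simp [Rq, det_succ_row_zero, Fin.sum_univ_succ, Fin.succAbove]
  ring

lemma dK (x y : R) : (x • (1 : Matrix (Fin 4) (Fin 4) R) - K * y • 1).det =
    (x + y) ^ 2 * (x - y) ^ 2 := by
  have : x • (1 : Matrix (Fin 4) (Fin 4) R) - K * y • 1 =
      !![x, 0, 0, -y; 0, x, y, 0; 0, y, x, 0; -y, 0, 0, x] := by
    ext i j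
    fin_cases i <;> fin_cases j <;> simp [K]
  rw [this]
  simp [det_succ_row_zero, Fin.sum_univ_succ, Fin.succAbove]
  ring

lemma dW [IsDomain R] (a b c d e f g h : R) (h1 : a ^ 2 + b ^ 2 + c ^ 2 + d ^ 2 ≠ 0)
    (h2 : e ^ 2 + f ^ 2 + g ^ 2 + h ^ 2 ≠ 0) :
    (fromBlocks (Lp a b c d) (Rq e f g h) (Rq e (-f) (-g) (-h) * K) (Lp a (-b) (-c) (-d))).det =
      (a ^ 2 + b ^ 2 + c ^ 2 + d ^ 2 + (e ^ 2 + f ^ 2 + g ^ 2 + h ^ 2)) ^ 2 *
        (a ^ 2 + b ^ 2 + c ^ 2 + d ^ 2 - (e ^ 2 + f ^ 2 + g ^ 2 + h ^ 2)) ^ 2 := by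
  have e1 : Rq e f g h * (Lp a b c d * Rq e (-f) (-g) (-h)) =
      Lp a b c d * (e ^ 2 + f ^ 2 + g ^ 2 + h ^ 2) • 1 := by
    ext i j
    fin_cases i <;> fin_cases j <;> simp [Lp, Rq, mul_apply, Fin.sum_univ_four] <;> ring
  have e2 : Lp a (-b) (-c) (-d) * (Lp a b c d * Rq e (-f) (-g) (-h)) =
      Rq e (-f) (-g) (-h) * (a ^ 2 + b ^ 2 + c ^ 2 + d ^ 2) • 1 := by
    ext i j
    fin_cases i <;> fin_cases j <;> simp [Lp, Rq, mul_apply, Fin.sum_univ_four] <;> ring
  have : fromBlocks (Lp a b c d) (Rq e f g h) (Rq e (-f) (-g) (-h) * K) (Lp a (-b) (-c) (-d)) *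
      fromBlocks 1 0 0 (Lp a b c d * Rq e (-f) (-g) (-h)) =
      fromBlocks (Lp a b c d) 0 0 (Rq e (-f) (-g) (-h)) * fromBlocks 1
        ((e ^ 2 + f ^ 2 + g ^ 2 + h ^ 2) • 1) K ((a ^ 2 + b ^ 2 + c ^ 2 + d ^ 2) • 1) := by
    simp only [fromBlocks_multiply, e1, e2, Matrix.mul_one, Matrix.mul_zero, Matrix.zero_mul,
      add_zero, zero_add]
  have := congrArg det this
  simp only [det_mul, det_fromBlocks_zero₂₁, det_one, one_mul, det_fromBlocks_one₁₁, dK, dL, dR,
    neg_sq] at this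
  rw [mul_comm] at this
  exact mul_left_cancel₀ (mul_ne_zero (pow_ne_zero _ h1) (pow_ne_zero _ h2)) this

lemma dAB (A B : Matrix (Fin 8) (Fin 8) R) :
    (fromBlocks A B B A).det = (A + B).det * (A - B).det := by
  have : fromBlocks 1 1 0 1 * fromBlocks A B B A =
      fromBlocks (A + B) 0 B (A - B) * fromBlocks 1 1 0 1 := by
    simp [fromBlocks_multiply, add_comm]
  have := congrArg det this
  simpa [det_fromBlocks_zero₂₁, det_fromBlocks_zero₁₂] using this

end

def ta : Fin 8 → Fin 8 → Fin 8 :=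
  ![![0, 1, 2, 3, 4, 5, 6, 7],
    ![1, 0, 3, 2, 5, 4, 7, 6],
    ![2, 3, 0, 1, 6, 7, 4, 5],
    ![3, 2, 1, 0, 7, 6, 5, 4],
    ![7, 6, 5, 4, 0, 1, 2, 3],
    ![6, 7, 4, 5, 1, 0, 3, 2],
    ![5, 4, 7, 6, 2, 3, 0, 1],
    ![4, 5, 6, 7, 3, 2, 1, 0]]

def te : Fin 8 → Fin 8 → Bool :=
  ![![false, true, true, true, false, true, true, true],
    ![false, false, true, false, false, false, false, true],
    ![false, false, false, true, false, true, false, false],
    ![false, true, false, false, false, false, true, false],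
    ![false, true, true, false, false, false, false, false],
    ![false, false, true, true, true, false, false, true],
    ![true, true, true, true, true, true, false, false],
    ![false, true, false, true, true, false, true, false]]

def tm : Fin 8 → Fin 8 → ℕ :=
  ![![0, 0, 0, 0, 0, 0, 0, 0],
    ![0, 0, 0, 0, 2, 2, 2, 2],
    ![0, 0, 2, 2, 1, 1, 3, 3],
    ![0, 0, 2, 2, 3, 3, 1, 1],
    ![0, 2, 0, 2, 1, 3, 1, 3],
    ![0, 2, 0, 2, 3, 1, 3, 1],
    ![0, 2, 2, 0, 0, 2, 2, 0],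
    ![0, 2, 2, 0, 2, 0, 0, 2]]

def md (i : Fin 16) : Fin 8 := ⟨i % 8, Nat.mod_lt _ (by norm_num)⟩

def L (i j : Fin 16) : Fin 16 :=
  (bif (te (md i) (md j) ^^ decide (i < 8) ^^ decide (j < 8)) then Fin.natAdd 8
    else Fin.castAdd 8) (ta (md i) (md j))

def F0 (k g : Fin 8) : GaussianInt := ⟨0, 1⟩ ^ tm k g

noncomputable def F (k g : Fin 8) : ℂ := GaussianInt.toComplex (F0 k g)

abbrev S := MvPolynomial (Fin 16) ℂ

noncomputable def ell (k : Fin 8) : S := ∑ g, C (F k (md g)) * X g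

noncomputable def v (g : Fin 8) : S := X (g.castAdd 8) - X (g.natAdd 8)

noncomputable def Q (s : ℂ) : S :=
  v 0 ^ 2 + v 1 ^ 2 + v 2 ^ 2 + v 3 ^ 2 + C s * (v 4 ^ 2 + v 5 ^ 2 + v 6 ^ 2 + v 7 ^ 2)

lemma dG : (of fun i j => (X ((ta i j).castAdd 8) + X ((ta i j).natAdd 8) : S)).det =
    ∏ k, ell k := by
  let T : Matrix (Fin 8) (Fin 8) S := of fun j k => C (F k j)
  have h1 : ∀ i j k, F0 k j = F0 k (ta i j) * F0 k i := by decide +kernel
  have h2 : ∀ i, (ta i).Bijective := by decide +kernel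
  have h3 : (of fun j k => F0 k j) * (of fun k j => star (F0 k j)) = diagonal fun _ => 8 := by
    decide +kernel
  have h4 : ∀ g : Fin 8, md (g.castAdd 8) = g ∧ md (g.natAdd 8) = g := by decide
  have hT : T.det ≠ 0 := by
    have : T = ((C : ℂ →+* S).comp GaussianInt.toComplex).mapMatrix (of fun j k => F0 k j) := rfl
    rw [this, ← RingHom.map_det, RingHom.comp_apply, Ne, C_eq_zero, GaussianInt.toComplex_eq_zero]
    intro h
    have := congrArg det h3
    rw [det_mul, h, zero_mul, det_diagonal] at this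
    revert this
    decide +kernel
  have : (of fun i j => (X ((ta i j).castAdd 8) + X ((ta i j).natAdd 8) : S)) * T =
      T * diagonal ell := by
    ext1 i k
    rw [mul_diagonal, mul_apply, ell, Fin.sum_univ_add (a := 8) (b := 8), ← Finset.sum_add_distrib]
    symm
    rw [← (Equiv.ofBijective _ (h2 i)).sum_comp, Finset.mul_sum]
    refine Finset.sum_congr rfl fun j _ => ?_
    simp only [of_apply, T, F, h1 i j k, map_mul, h4, Equiv.ofBijective_apply]
    ring
  have := congrArg det this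
  rw [det_mul, det_mul, det_diagonal, mul_comm] at this
  exact mul_left_cancel₀ hT this

lemma dM : (of fun i j => (X (L i j) : S)).det = (∏ k, ell k) * (Q 1 ^ 2 * Q (-1) ^ 2) := by
  have h : ∀ i j : Fin 8, L (i.natAdd 8) (j.castAdd 8) = L (i.castAdd 8) (j.natAdd 8) ∧
      L (i.natAdd 8) (j.natAdd 8) = L (i.castAdd 8) (j.castAdd 8) ∧
      L (i.castAdd 8) (j.castAdd 8) =
        (bif te i j then (ta i j).natAdd 8 else (ta i j).castAdd 8) ∧
      L (i.castAdd 8) (j.natAdd 8) =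
        (bif te i j then (ta i j).castAdd 8 else (ta i j).natAdd 8) := by decide +kernel
  let A : Matrix (Fin 8) (Fin 8) S := of fun i j => X (L (i.castAdd 8) (j.castAdd 8))
  let B : Matrix (Fin 8) (Fin 8) S := of fun i j => X (L (i.castAdd 8) (j.natAdd 8))
  have e1 : (of fun i j => (X (L i j) : S)).submatrix (finSumFinEquiv (m := 8) (n := 8))
      (finSumFinEquiv (m := 8) (n := 8)) = fromBlocks A B B A := by
    ext1 (i | i) (j | j)
    · rfl
    · rfl
    · exact congrArg X (h i j).1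
    · exact congrArg X (h i j).2.1
  have e2 : A + B = of fun i j => (X ((ta i j).castAdd 8) + X ((ta i j).natAdd 8) : S) := by
    ext1 i j
    simp only [A, B, Matrix.add_apply, of_apply, (h i j).2.2.1, (h i j).2.2.2]
    cases te i j <;> simp [add_comm]
  have e3 : A - B = of fun i j => bif te i j then -v (ta i j) else v (ta i j) := by
    ext1 i j
    simp only [A, B, Matrix.sub_apply, of_apply, (h i j).2.2.1, (h i j).2.2.2]
    cases te i j <;> simp [v]
  have e4 : (A - B).submatrix (finSumFinEquiv (m := 4) (n := 4)) (finSumFinEquiv (m := 4) (n := 4))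
      = fromBlocks (Lp (v 0) (v 1) (v 2) (v 3)) (Rq (v 4) (v 5) (v 6) (v 7))
        (Rq (v 4) (-v 5) (-v 6) (-v 7) * K) (Lp (v 0) (-v 1) (-v 2) (-v 3)) := by
    have : Rq (v 4) (-v 5) (-v 6) (-v 7) * K = !![v 7, -v 6, -v 5, v 4; v 6, v 7, -v 4, -v 5;
        -v 5, -v 4, -v 7, -v 6; v 4, -v 5, v 6, -v 7] := by
      ext1 i j
      fin_cases i <;> fin_cases j <;> simp [Rq, K, mul_apply, Fin.sum_univ_four]
    rw [e3, this]
    simp only [Lp, neg_neg]
    ext1 (i | i) (j | j) <;> fin_cases i <;> fin_cases j <;> rfl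
  rw [← det_submatrix_equiv_self (finSumFinEquiv (m := 8) (n := 8)), e1, dAB, e2, dG,
    ← det_submatrix_equiv_self (finSumFinEquiv (m := 4) (n := 4)), e4, dW]
  · simp [Q, sub_eq_add_neg]
  · intro h
    simpa [v] using congrArg (eval (Pi.single 0 1)) h
  · intro h
    simpa [v] using congrArg (eval (Pi.single 4 1)) h

lemma ren (p : MvPolynomial (Fin 15) ℂ) :
    finSuccEquiv ℂ 15 (rename Fin.succ p) = Polynomial.C p := by
  have : (finSuccEquiv ℂ 15 : S →ₐ[ℂ] _).comp (rename Fin.succ) = Polynomial.CAlgHom := by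
    ext1 i
    simp [finSuccEquiv_X_succ]
  exact DFunLike.congr_fun this p

lemma ell_eq (k : Fin 8) : ∃ r, finSuccEquiv ℂ 15 (ell k) = Polynomial.X + Polynomial.C r := by
  refine ⟨∑ i, C (F k (md i.succ)) * X i, ?_⟩
  have : ∀ k, F0 k (md 0) = 1 := by decide +kernel
  rw [← ren, ← finSuccEquiv_X_zero, ← map_add, ell, Fin.sum_univ_succ]
  simp [F, this]

noncomputable def tq (s : ℂ) : MvPolynomial (Fin 15) ℂ :=
  (X 0 - X 8) ^ 2 + (X 1 - X 9) ^ 2 + (X 2 - X 10) ^ 2 +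
    C s * ((X 3 - X 11) ^ 2 + (X 4 - X 12) ^ 2 + (X 5 - X 13) ^ 2 + (X 6 - X 14) ^ 2)

lemma Q_eq (s : ℂ) : finSuccEquiv ℂ 15 (Q s) =
    (Polynomial.X - Polynomial.C (X 7)) ^ 2 + Polynomial.C (tq s) := by
  rw [← ren, ← ren, ← finSuccEquiv_X_zero, ← map_sub, ← map_pow, ← map_add]
  simp [Q, v, tq, add_assoc]

lemma Q_mon (s : ℂ) : (finSuccEquiv ℂ 15 (Q s)).Monic ∧ (finSuccEquiv ℂ 15 (Q s)).natDegree = 2 := by
  rw [Q_eq]
  exact ⟨by monicity!, by compute_degree!⟩

lemma Q_irr (s : ℂ) : Irreducible (Q s) := by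
  rw [← MulEquiv.irreducible_iff (finSuccEquiv ℂ 15),
    (Q_mon s).1.irreducible_iff_roots_eq_zero_of_degree_le_three (Q_mon s).2.ge
      (by rw [(Q_mon s).2]; norm_num), Multiset.eq_zero_iff_forall_notMem]
  intro r hr
  have := (Polynomial.mem_roots'.mp hr).2
  rw [Q_eq, Polynomial.IsRoot] at this
  have := congrArg (aeval (R := ℂ) fun i : Fin 15 => if i = 0 then Polynomial.X + 1 else
    if i = 1 then Polynomial.C Complex.I * Polynomial.X else 0) this
  simp [tq, mul_pow, ← Polynomial.C_pow] at this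
  have h2 := congrArg Polynomial.natDegree (eq_neg_of_add_eq_zero_left this)
  have h3 : ((Polynomial.X + 1) ^ 2 + -Polynomial.X ^ 2 : Polynomial ℂ) =
      Polynomial.C 2 * Polynomial.X + Polynomial.C 1 := by
    simp only [map_ofNat, map_one]
    ring
  rw [Polynomial.natDegree_neg, h3, Polynomial.natDegree_linear two_ne_zero,
    Polynomial.natDegree_pow] at h2
  omega

lemma ell_irr (k : Fin 8) : Irreducible (ell k) := by
  obtain ⟨r, h⟩ := ell_eq k
  rw [← MulEquiv.irreducible_iff (finSuccEquiv ℂ 15), h]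
  exact (Polynomial.monic_X_add_C r).irreducible_of_degree_eq_one (Polynomial.degree_X_add_C r)

lemma ell_deg (k : Fin 8) : (ell k).totalDegree = 1 :=
  (IsHomogeneous.sum _ _ _ fun g _ => isHomogeneous_C_mul_X _ _).totalDegree (ell_irr k).ne_zero

lemma Q_deg (s : ℂ) : (Q s).totalDegree = 2 := by
  have : ∀ g, (v g ^ 2).IsHomogeneous 2 := fun g =>
    ((isHomogeneous_X _ _).sub (isHomogeneous_X _ _)).pow 2
  exact (((((this 0).add (this 1)).add (this 2)).add (this 3)).add (IsHomogeneous.C_mul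
    ((((this 4).add (this 5)).add (this 6)).add (this 7)) s)).totalDegree (Q_irr s).ne_zero

noncomputable def P : Fin 10 → S := Fin.cons (Q 1) (Fin.cons (Q (-1)) ell)

lemma P_inj : P.Injective := by
  have h1 : ell.Injective := fun k l h => by
    have h2 : ∀ k l, (∀ g, F0 k (md g) = F0 l (md g)) → k = l := by decide +kernel
    refine h2 k l fun g => GaussianInt.toComplex_injective ?_
    simpa [ell, Pi.single_apply, F] using congrArg (eval (Pi.single g 1)) h
  have h2 : ∀ s, Q s ∉ Set.range ell := fun s ⟨k, h⟩ => by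
    simpa [ell_deg, Q_deg] using congrArg totalDegree h
  refine Fin.cons_injective_iff.mpr ⟨?_, Fin.cons_injective_iff.mpr ⟨h2 _, h1⟩⟩
  rw [Fin.range_cons]
  rintro (h | h)
  · have := congrArg (eval (Pi.single 4 1)) h
    simp [Q, v] at this
    norm_num at this
  · exact h2 _ h

lemma P_all (j : Fin 10) : Irreducible (P j) ∧ (finSuccEquiv ℂ 15 (P j)).Monic := by
  refine Fin.cases ⟨Q_irr _, (Q_mon _).1⟩ (Fin.cases ⟨Q_irr _, (Q_mon _).1⟩ fun k =>
    ⟨ell_irr k, ?_⟩) j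
  obtain ⟨r, h⟩ := ell_eq k
  exact h ▸ Polynomial.monic_X_add_C r

lemma frob : (∀ j, Irreducible (P j)) ∧ (∀ i j, i ≠ j → ¬ Associated (P i) (P j)) ∧
    (of fun i j => (X (L i j) : S)).det = C 1 * ∏ j, P j ^ (P j).totalDegree := by
  refine ⟨fun j => (P_all j).1, fun i j hij h => hij (P_inj ((finSuccEquiv ℂ 15).injective
    (Polynomial.eq_of_monic_of_associated (P_all i).2 (P_all j).2 (h.map _)))), ?_⟩
  rw [dM, Fin.prod_univ_succ (n := 9), Fin.prod_univ_succ (n := 8)]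
  simp only [P, Fin.cons_zero, Fin.cons_succ, ell_deg, Q_deg, pow_one, map_one]
  ring

end Pool.Agent.H33.Lat
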