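import Mathlib

set_option autoImplicit false

namespace Pool.Agent.H33.Lib

open Filter Topology Set

noncomputable def bet (t : ℝ) : ℝ := max 0 (min 1 (min t (8 - t)))

lemma bet_cont : Continuous bet := by unfold bet; fun_prop

lemma bet_zero : bet 0 = 0 := by norm_num [bet]
lemma bet_eight : bet 8 = 0 := by norm_num [bet]
lemma bet_one {t : ℝ} (h1 : 1 ≤ t) (h2 : t ≤ 7) : bet t = 1 := by
  unfold bet
  rw [min_eq_left (le_min h1 (by linarith)), max_eq_right (by norm_num)]

noncomputable def glue (a : ℤ → ℝ → ℝ) (y : ℝ) : ℝ :=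
  bet (y - 8 * (⌊y / 8⌋ : ℝ)) * a ⌊y / 8⌋ (y - 8 * (⌊y / 8⌋ : ℝ))

lemma glue_eval (a : ℤ → ℝ → ℝ) (n : ℤ) (t : ℝ) (h1 : 0 ≤ t) (h2 : t < 8) :
    glue a (8 * n + t) = bet t * a n t := by
  have : ⌊(8 * (n : ℝ) + t) / 8⌋ = n := by
    rw [Int.floor_eq_iff]; constructor <;> linarith
  unfold glue
  rw [this]
  simp

lemma glue_mid (a : ℤ → ℝ → ℝ) (n : ℤ) (t : ℝ) (h1 : 1 ≤ t) (h2 : t ≤ 7) :
    glue a (8 * n + t) = a n t := by
  rw [glue_eval a n t (by linarith) (by linarith), bet_one h1 h2, one_mul]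

lemma decomp (y : ℝ) : ∃ (n : ℤ) (t : ℝ), 0 ≤ t ∧ t < 8 ∧ y = 8 * n + t := by
  refine ⟨⌊y / 8⌋, y - 8 * (⌊y / 8⌋ : ℝ), ?_, ?_, by ring⟩
  · have := Int.floor_le (y / 8); linarith
  · have := Int.lt_floor_add_one (y / 8); linarith

lemma glue_cont (a : ℤ → ℝ → ℝ) (ha : ∀ n, Continuous (a n)) : Continuous (glue a) := by
  refine LocallyFinite.continuous (f := fun n : ℤ => Icc (8 * (n : ℝ)) (8 * n + 8)) ?_ ?_
    (fun _ => isClosed_Icc) ?_
  · intro y
    refine ⟨Ioo (y - 1) (y + 1), Ioo_mem_nhds (by linarith) (by linarith), ?_⟩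
    refine (Set.finite_Icc (⌊y / 8⌋ - 2) (⌊y / 8⌋ + 2)).subset ?_
    rintro n ⟨z, ⟨h1, h2⟩, ⟨h3, h4⟩⟩
    have e1 := Int.floor_le (y / 8)
    have e2 := Int.lt_floor_add_one (y / 8)
    constructor
    · have : ((⌊y / 8⌋ : ℝ) - 2) ≤ n := by linarith
      exact_mod_cast this
    · have : (n : ℝ) ≤ ((⌊y / 8⌋ : ℝ) + 2) := by linarith
      exact_mod_cast this
  · ext y
    simp only [mem_iUnion, mem_univ, iff_true]
    obtain ⟨n, t, h1, h2, rfl⟩ := decomp y
    exact ⟨n, by linarith, by linarith⟩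
  · intro n
    have hc : Continuous fun y : ℝ => bet (y - 8 * n) * a n (y - 8 * n) :=
      (bet_cont.comp (by fun_prop)).mul ((ha n).comp (by fun_prop))
    refine hc.continuousOn.congr ?_
    rintro y ⟨h1, h2⟩
    rcases h2.lt_or_eq with h2 | h2
    · have := glue_eval a n (y - 8 * n) (by linarith) (by linarith)
      rwa [show 8 * (n : ℝ) + (y - 8 * n) = y by ring] at this
    · have := glue_eval a (n + 1) 0 le_rfl (by norm_num)
      rw [show 8 * ((n + 1 : ℤ) : ℝ) + 0 = y by push_cast; linarith, bet_zero, zero_mul] at this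
      show glue a y = bet (y - 8 * n) * a n (y - 8 * n)
      rw [this, show y - 8 * (n : ℝ) = 8 by linarith, bet_eight, zero_mul]

/-- minimum of |B| on the segment from q to x -/
noncomputable def dd (B : ℝ → ℝ) (q x : ℝ) : ℝ :=
  sInf ((fun t : ℝ => |B (q + t * (x - q))|) '' Icc 0 1)

noncomputable def FF (A B : ℝ → ℝ) (q x : ℝ) : ℝ := ∫ t in q..x, A t / B t

lemma seg_mem (q x t : ℝ) (ht : t ∈ Icc (0 : ℝ) 1) : q + t * (x - q) ∈ uIcc q x := by
  obtain ⟨h1, h2⟩ := ht
  rcases le_total q x with h | h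
  · rw [uIcc_of_le h]; constructor <;> nlinarith
  · rw [uIcc_of_ge h]; constructor <;> nlinarith

lemma seg_surj (q x y : ℝ) (hy : y ∈ uIcc q x) : ∃ t ∈ Icc (0 : ℝ) 1, q + t * (x - q) = y := by
  rw [← segment_eq_uIcc, segment_eq_image'] at hy
  obtain ⟨t, ht, rfl⟩ := hy
  exact ⟨t, ht, by simp⟩

lemma dd_cont (B : ℝ → ℝ) (hB : Continuous B) (q : ℝ) : Continuous (dd B q) := by
  unfold dd
  refine IsCompact.continuous_sInf (f := fun x t : ℝ => |B (q + t * (x - q))|) isCompact_Icc ?_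
  unfold Function.HasUncurry.uncurry Function.hasUncurryInduction
  simp only [Function.HasUncurry.uncurry, id]
  fun_prop

lemma dd_ne (B : ℝ → ℝ) (hB : Continuous B) (q x : ℝ) :
    dd B q x ≠ 0 ↔ ∀ y ∈ uIcc q x, B y ≠ 0 := by
  have hc : ContinuousOn (fun t : ℝ => |B (q + t * (x - q))|) (Icc 0 1) := by fun_prop
  obtain ⟨t, ht, h1, h2⟩ := isCompact_Icc.exists_sInf_image_eq_and_le
    (nonempty_Icc.2 zero_le_one) hc
  unfold dd
  rw [h1]
  constructor
  · intro h y hy hy0
    obtain ⟨s, hs, rfl⟩ := seg_surj q x y hy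
    have := h2 s hs
    simp only [hy0, abs_zero] at this
    exact h (le_antisymm this (abs_nonneg _))
  · intro h
    exact abs_ne_zero.2 (h _ (seg_mem q x t ht))

lemma FF_deriv (A B : ℝ → ℝ) (hA : Continuous A) (hB : Continuous B) (q x : ℝ)
    (h : ∀ y ∈ uIcc q x, B y ≠ 0) : HasDerivAt (FF A B q) (A x / B x) x := by
  unfold FF
  refine intervalIntegral.integral_hasDerivAt_right (f := fun t => A t / B t) ?_ ?_ ?_
  · exact (hA.continuousOn.div hB.continuousOn h).intervalIntegrable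
  · exact (hA.measurable.div hB.measurable).stronglyMeasurable.stronglyMeasurableAtFilter
  · exact hA.continuousAt.div hB.continuousAt (h x right_mem_uIcc)

lemma damp (d φ : ℝ → ℝ) (hd : Continuous d) (h1 : ∀ x, |φ x| ≤ 1)
    (h2 : ∀ x, d x ≠ 0 → ContinuousAt φ x) : Continuous fun x => d x * φ x := by
  rw [continuous_iff_continuousAt]
  intro x
  by_cases hx : d x = 0
  · show Tendsto (fun x => d x * φ x) (𝓝 x) (𝓝 (d x * φ x))
    rw [hx, zero_mul]
    have : Tendsto (fun y => |d y|) (𝓝 x) (𝓝 0) := by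
      have := (hd.abs.tendsto x)
      rwa [hx, abs_zero] at this
    refine squeeze_zero_norm (fun y => ?_) this
    rw [Real.norm_eq_abs, abs_mul]
    exact mul_le_of_le_one_right (abs_nonneg _) (h1 y)
  · exact hd.continuousAt.mul (h2 x hx)

noncomputable def uv (A B : ℝ → ℝ) (q : ℝ) (b : Bool) (x : ℝ) : ℝ :=
  dd B q x * ((if b then FF A B q x else 1) / (1 + |FF A B q x|))

lemma uv_cont (A B : ℝ → ℝ) (hA : Continuous A) (hB : Continuous B) (q : ℝ) (b : Bool) :
    Continuous (uv A B q b) := by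
  refine damp _ _ (dd_cont B hB q) ?_ ?_
  · intro x
    have : 0 < 1 + |FF A B q x| := by positivity
    rw [abs_div, abs_of_pos this, div_le_one this]
    cases b
    · simp
    · simp
  · intro x hx
    have hF := (FF_deriv A B hA hB q x ((dd_ne B hB q x).1 hx)).continuousAt
    have : 0 < 1 + |FF A B q x| := by positivity
    refine ContinuousAt.div ?_ (continuousAt_const.add hF.abs) this.ne'
    cases b
    · exact continuousAt_const
    · exact hF

lemma uv_congr (A B A' B' : ℝ → ℝ) (q x : ℝ) (b : Bool) (hA : ∀ y ∈ uIcc q x, A y = A' y)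
    (hB : ∀ y ∈ uIcc q x, B y = B' y) : uv A B q b x = uv A' B' q b x := by
  have h1 : dd B q x = dd B' q x := by
    unfold dd
    congr 1
    refine image_congr fun t ht => ?_
    rw [hB _ (seg_mem q x t ht)]
  have h2 : FF A B q x = FF A' B' q x := by
    unfold FF
    refine intervalIntegral.integral_congr fun y hy => ?_
    simp only [hA y hy, hB y hy]
  unfold uv
  rw [h1, h2]

theorem fixpoint (Φ : (ℝ → ℝ) → ℝ → ℝ) (hc : ∀ g, Continuous g → Continuous (Φ g))
    (hΦ : ∀ (r : ℕ) (g g' : ℝ → ℝ), (∀ x : ℝ, |x| < r → g x = g' x) →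
      ∀ x : ℝ, |x| < r + 1 → Φ g x = Φ g' x) :
    ∃ g, Continuous g ∧ Φ g = g := by
  let G : ℕ → ℝ → ℝ := fun n => Φ^[n] (fun _ => 0)
  have hG : ∀ n, G (n + 1) = Φ (G n) := fun n => Function.iterate_succ_apply' _ _ _
  have hGc : ∀ n, Continuous (G n) := by
    intro n
    induction n with
    | zero => exact continuous_const
    | succ n ih => rw [hG]; exact hc _ ih
  have hst : ∀ (r : ℕ) (k : ℕ) (x : ℝ), |x| < r → G (r + k) x = G r x := by
    intro r
    induction r with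
    | zero => intro k x hx; exact absurd hx (by simp)
    | succ r ih =>
      intro k x hx
      rw [show r + 1 + k = (r + k) + 1 by ring, hG, hG]
      exact hΦ r _ _ (ih k) x (by exact_mod_cast hx)
  let g : ℝ → ℝ := fun x => G (⌊|x|⌋₊ + 1) x
  have hg : ∀ (r : ℕ) (x : ℝ), |x| < r → g x = G r x := by
    intro r x hx
    have h1 : ⌊|x|⌋₊ + 1 ≤ r := (Nat.floor_lt (abs_nonneg x)).2 hx
    obtain ⟨k, rfl⟩ := Nat.exists_eq_add_of_le h1
    refine (hst _ k x ?_).symm
    push_cast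
    exact Nat.lt_floor_add_one _
  refine ⟨g, ?_, ?_⟩
  · rw [continuous_iff_continuousAt]
    intro x
    obtain ⟨r, hr⟩ := exists_nat_gt |x|
    refine (hGc r).continuousAt.congr ?_
    have : ∀ᶠ y : ℝ in 𝓝 x, |y| < r := (continuous_abs.tendsto x).eventually (gt_mem_nhds hr)
    exact this.mono fun y hy => (hg r y hy).symm
  · funext x
    obtain ⟨r, hr⟩ := exists_nat_gt |x|
    rw [hΦ r g (G r) (hg r) x (by linarith), ← hG, hg (r + 1) x (by push_cast; linarith)]

instance : Countable (MvPolynomial (Fin 6) ℤ) := by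
  rw [← Cardinal.mk_le_aleph0_iff]
  refine MvPolynomial.cardinalMk_le_max.trans ?_
  simp

abbrev Item := MvPolynomial (Fin 6) ℤ × MvPolynomial (Fin 6) ℤ × ℚ × Bool

noncomputable def item : ℕ → Item := (exists_surjective_nat Item).choose

lemma item_surj : Function.Surjective item := (exists_surjective_nat Item).choose_spec

abbrev Slot := Bool × ℤ × ℕ

noncomputable def NN (z : Slot) : ℤ :=
  (Nat.pair (z.2.1.natAbs + ⌈|((item z.2.2).2.2.1 : ℝ)|⌉₊ + 2) (Encodable.encode z) : ℕ)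

lemma NN_inj : Function.Injective NN := by
  intro a b h
  unfold NN at h
  have h1 := Nat.cast_injective (R := ℤ) h
  exact Encodable.encode_injective (Nat.pair_eq_pair.1 h1).2

lemma NN_ge (z : Slot) : |(z.2.1 : ℝ)| + |((item z.2.2).2.2.1 : ℝ)| + 2 ≤ NN z := by
  unfold NN
  have h1 := Nat.left_le_pair (z.2.1.natAbs + ⌈|((item z.2.2).2.2.1 : ℝ)|⌉₊ + 2) (Encodable.encode z)
  have h2 : ((z.2.1.natAbs + ⌈|((item z.2.2).2.2.1 : ℝ)|⌉₊ + 2 : ℕ) : ℝ) ≤
    (Nat.pair (z.2.1.natAbs + ⌈|((item z.2.2).2.2.1 : ℝ)|⌉₊ + 2) (Encodable.encode z) : ℕ) := by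
    exact_mod_cast h1
  have h3 := Nat.le_ceil |((item z.2.2).2.2.1 : ℝ)|
  have h4 : ((z.2.1.natAbs : ℕ) : ℝ) = |(z.2.1 : ℝ)| := by
    rw [Nat.cast_natAbs, Int.cast_abs]
  rw [Int.cast_natCast]
  rw [Nat.cast_add, Nat.cast_add, h4] at h2
  have h5 : ((2 : ℕ) : ℝ) = 2 := by norm_num
  linarith

def off (i : Bool) : ℝ := if i then 4 else 0

noncomputable def sh : ℝ → ℝ :=
  glue (Function.extend NN (fun z t => 8 * (NN (z.1, z.2.1, z.2.2 + 1) : ℝ) + t) (fun _ _ => 0))

noncomputable def chi (i : Bool) (x : ℝ) : ℝ :=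
  glue (fun _ t => max 0 (min (t - 1) (7 - t))) (x - off i)

noncomputable def hh (i : Bool) (x : ℝ) : ℝ :=
  glue (fun m t => 8 * (NN (i, m, 0) : ℝ) + t) (x - off i)

lemma ext_cont (a : Slot → ℝ → ℝ) (ha : ∀ z, Continuous (a z)) (n : ℤ) :
    Continuous (Function.extend NN a (fun _ _ => 0) n) := by
  by_cases h : ∃ z, NN z = n
  · obtain ⟨z, rfl⟩ := h
    rw [NN_inj.extend_apply]; exact ha z
  · rw [Function.extend_apply' _ _ _ h]; exact continuous_const

lemma sh_cont : Continuous sh := glue_cont _ (ext_cont _ fun _ => by fun_prop)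

lemma chi_cont (i : Bool) : Continuous (chi i) :=
  (glue_cont _ fun _ => by fun_prop).comp (by fun_prop)

lemma hh_cont (i : Bool) : Continuous (hh i) :=
  (glue_cont _ fun _ => by fun_prop).comp (by fun_prop)

noncomputable def ff (g : ℝ → ℝ) : Fin 6 → ℝ → ℝ := ![g, sh, chi false, chi true, hh false, hh true]

lemma ff_cont (g : ℝ → ℝ) (hg : Continuous g) (i : Fin 6) : Continuous (ff g i) := by
  fin_cases i
  · exact hg
  · exact sh_cont
  · exact chi_cont _
  · exact chi_cont _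
  · exact hh_cont _
  · exact hh_cont _

noncomputable def ev (g : ℝ → ℝ) (P : MvPolynomial (Fin 6) ℤ) (x : ℝ) : ℝ :=
  MvPolynomial.aeval (fun i => ff g i x) P

lemma ev_cont (g : ℝ → ℝ) (hg : Continuous g) (P : MvPolynomial (Fin 6) ℤ) :
    Continuous (ev g P) := by
  unfold ev
  induction P using MvPolynomial.induction_on with
  | C a => simpa using continuous_const
  | add p q hp hq => simp only [map_add]; exact hp.add hq
  | mul_X p i hp => simp only [map_mul, MvPolynomial.aeval_X]; exact hp.mul (ff_cont g hg i)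

lemma ev_congr (g g' : ℝ → ℝ) (P : MvPolynomial (Fin 6) ℤ) (x : ℝ) (h : g x = g' x) :
    ev g P x = ev g' P x := by
  unfold ev
  congr 2
  funext i
  fin_cases i
  · exact h
  all_goals rfl

noncomputable def stored (g : ℝ → ℝ) (e : ℕ) : ℝ → ℝ :=
  uv (ev g (item e).1) (ev g (item e).2.1) ((item e).2.2.1 : ℝ) (item e).2.2.2

noncomputable def Phi (g : ℝ → ℝ) : ℝ → ℝ :=
  glue (Function.extend NN (fun z t => stored g z.2.2 (8 * (z.2.1 : ℝ) + off z.1 + t)) (fun _ _ => 0))

lemma Phi_cont (g : ℝ → ℝ) (hg : Continuous g) : Continuous (Phi g) :=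
  glue_cont _ (ext_cont _ fun _ =>
    (uv_cont _ _ (ev_cont g hg _) (ev_cont g hg _) _ _).comp (by fun_prop))

lemma off_bd (i : Bool) : 0 ≤ off i ∧ off i ≤ 4 := by cases i <;> norm_num [off]

lemma Phi_causal (r : ℕ) (g g' : ℝ → ℝ) (h : ∀ x : ℝ, |x| < r → g x = g' x) (y : ℝ)
    (hy : |y| < r + 1) : Phi g y = Phi g' y := by
  obtain ⟨n, t, h1, h2, rfl⟩ := decomp y
  unfold Phi
  rw [glue_eval _ n t h1 h2, glue_eval _ n t h1 h2]
  congr 1
  by_cases hn : ∃ z, NN z = n
  · obtain ⟨z, rfl⟩ := hn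
    rw [NN_inj.extend_apply, NN_inj.extend_apply]
    have k1 := NN_ge z
    have k2 := off_bd z.1
    have k3 := le_abs_self (8 * (NN z : ℝ) + t)
    have k4 := abs_nonneg (z.2.1 : ℝ)
    have k5 := abs_nonneg ((item z.2.2).2.2.1 : ℝ)
    have key : ∀ w ∈ uIcc ((item z.2.2).2.2.1 : ℝ) (8 * (z.2.1 : ℝ) + off z.1 + t), g w = g' w := by
      intro w hw
      apply h
      have m1 := le_abs_self (z.2.1 : ℝ)
      have m2 := neg_abs_le (z.2.1 : ℝ)
      have m3 := le_abs_self ((item z.2.2).2.2.1 : ℝ)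
      have m4 := neg_abs_le ((item z.2.2).2.2.1 : ℝ)
      rw [abs_lt]
      rcases mem_uIcc.1 hw with ⟨a, b⟩ | ⟨a, b⟩ <;> constructor <;> linarith
    exact uv_congr _ _ _ _ _ _ _ (fun w hw => ev_congr _ _ _ _ (key w hw))
      (fun w hw => ev_congr _ _ _ _ (key w hw))
  · rw [Function.extend_apply' _ _ _ hn, Function.extend_apply' _ _ _ hn]

lemma chi_nonneg (i : Bool) (x : ℝ) : 0 ≤ chi i x := by
  unfold chi glue
  exact mul_nonneg (le_max_left _ _) (le_max_left _ _)

lemma chi_pos (i : Bool) (m : ℤ) (t : ℝ) (h1 : 1 < t) (h2 : t < 7) :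
    0 < chi i (8 * m + t + off i) := by
  unfold chi
  rw [add_sub_cancel_right, glue_mid _ m t h1.le h2.le]
  exact lt_max_of_lt_right (lt_min (by linarith) (by linarith))

lemma chi_sum (x : ℝ) : 0 < chi false x + chi true x := by
  obtain ⟨n, t, h1, h2, rfl⟩ := decomp x
  have a1 := chi_nonneg false (8 * n + t)
  have a2 := chi_nonneg true (8 * n + t)
  by_cases h3 : t ≤ 1
  · have := chi_pos true (n - 1) (t + 4) (by linarith) (by linarith)
    rw [show 8 * ((n - 1 : ℤ) : ℝ) + (t + 4) + off true = 8 * n + t by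
      simp only [off, if_true]; push_cast; ring] at this
    linarith
  · by_cases h4 : 7 ≤ t
    · have := chi_pos true n (t - 4) (by linarith) (by linarith)
      rw [show 8 * (n : ℝ) + (t - 4) + off true = 8 * n + t by
        simp only [off, if_true]; ring] at this
      linarith
    · have := chi_pos false n t (by linarith) (by linarith)
      rw [show 8 * (n : ℝ) + t + off false = 8 * n + t by simp [off]] at this
      linarith

lemma sh_iter (i : Bool) (m : ℤ) (t : ℝ) (h1 : 1 ≤ t) (h2 : t ≤ 7) (e : ℕ) :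
    sh^[e] (8 * (NN (i, m, 0) : ℝ) + t) = 8 * (NN (i, m, e) : ℝ) + t := by
  induction e with
  | zero => rfl
  | succ e ih =>
    rw [Function.iterate_succ_apply', ih]
    unfold sh
    rw [glue_mid _ _ t h1 h2, NN_inj.extend_apply]

lemma read (g : ℝ → ℝ) (hg : Phi g = g) (i : Bool) (e : ℕ) (x : ℝ) :
    chi i x * g (sh^[e] (hh i x)) = chi i x * stored g e x := by
  obtain ⟨m, t, h1, h2, hx⟩ := decomp (x - off i)
  by_cases h3 : 1 ≤ t ∧ t ≤ 7
  · congr 1
    unfold hh
    rw [hx, glue_mid _ m t h3.1 h3.2, sh_iter i m t h3.1 h3.2]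
    conv_lhs => rw [← hg]
    unfold Phi
    rw [glue_mid _ _ t h3.1 h3.2, NN_inj.extend_apply]
    congr 1
    simp only
    linarith
  · have : chi i x = 0 := by
      unfold chi
      rw [hx, glue_eval _ m t h1 h2, max_eq_left, mul_zero]
      rw [not_and_or, not_le, not_le] at h3
      rcases h3 with h3 | h3
      · exact min_le_of_left_le (by linarith)
      · exact min_le_of_right_le (by linarith)
    rw [this, zero_mul, zero_mul]

noncomputable def PP (e : ℕ) : MvPolynomial (Fin 6 × List (Fin 6)) ℤ :=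
  MvPolynomial.X (2, []) * MvPolynomial.X (0, List.replicate e 1 ++ [4]) +
  MvPolynomial.X (3, []) * MvPolynomial.X (0, List.replicate e 1 ++ [5])

lemma PP_const (e : ℕ) : MvPolynomial.constantCoeff (PP e) = 0 := by simp [PP]

lemma fold_rep (g : ℝ → ℝ) (e : ℕ) (j : Fin 6) (x : ℝ) :
    (List.replicate e (1 : Fin 6) ++ [j]).foldr (fun j y => ff g j y) x = sh^[e] (ff g j x) := by
  induction e with
  | zero => rfl
  | succ e ih =>
    rw [List.replicate_succ, List.cons_append, List.foldr_cons, ih, Function.iterate_succ_apply']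
    rfl

lemma PP_eval (g : ℝ → ℝ) (hg : Phi g = g) (e : ℕ) (x : ℝ) :
    MvPolynomial.aeval
      (fun v : Fin 6 × List (Fin 6) => ff g v.1 (v.2.foldr (fun j y => ff g j y) x)) (PP e) =
    (chi false x + chi true x) * stored g e x := by
  simp only [PP, map_add, map_mul, MvPolynomial.aeval_X, fold_rep, List.foldr_nil]
  rw [add_mul, ← read g hg false e x, ← read g hg true e x]
  rfl

theorem main (g : ℝ → ℝ) (hc : Continuous g) (I : Set ℝ) (hI : IsOpen I)
    (hI2 : I.OrdConnected) (hI3 : I.Nonempty) (P Q : MvPolynomial (Fin 6) ℤ)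
    (hQ : ∀ x ∈ I, ev g Q x ≠ 0) :
    ∃ F : ℝ → ℝ, (∀ x ∈ I, HasDerivAt F (ev g P x / ev g Q x) x) ∧ ∃ e e' : ℕ, ∀ x ∈ I,
      (chi false x + chi true x) * stored g e' x ≠ 0 ∧
      F x = (chi false x + chi true x) * stored g e x / ((chi false x + chi true x) * stored g e' x) := by
  obtain ⟨q, hq⟩ := Rat.denseRange_cast.exists_mem_open hI hI3
  obtain ⟨e, he⟩ := item_surj (P, Q, q, true)
  obtain ⟨e', he'⟩ := item_surj (P, Q, q, false)
  have hs : ∀ x ∈ I, ∀ y ∈ uIcc (q : ℝ) x, ev g Q y ≠ 0 := fun x hx y hy =>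
    hQ y (hI2.uIcc_subset hq hx hy)
  refine ⟨FF (ev g P) (ev g Q) q, fun x hx =>
    FF_deriv _ _ (ev_cont g hc P) (ev_cont g hc Q) q x (hs x hx), e, e', fun x hx => ?_⟩
  have h1 := (chi_sum x).ne'
  have h2 := (dd_ne _ (ev_cont g hc Q) q x).2 (hs x hx)
  have h3 : 1 + |FF (ev g P) (ev g Q) q x| ≠ 0 := by positivity
  simp only [stored, he, he', uv, if_true, Bool.false_eq_true, if_false]
  constructor
  · exact mul_ne_zero h1 (mul_ne_zero h2 (one_div_ne_zero h3))
  · field_simp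

end Pool.Agent.H33.Lib
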