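import Pool.Agent.H33.LiouDefs

set_option autoImplicit false

namespace Pool.Agent.H33.Liou

open Finset

abbrev W : Type := List (Fin 10)

def Vx : Type := W × ℤ

def layer : ℕ → Finset W
  | 0 => {[]}
  | n + 1 => (univ ×ˢ layer n).image fun p : Fin 10 × W => p.1 :: p.2

lemma mem_layer (n : ℕ) (l : W) : l ∈ layer n ↔ l.length = n := by
  induction n generalizing l with
  | zero => simp [layer]
  | succ n ih => cases l <;> simp [layer, ih]

lemma card_layer (n : ℕ) : (layer n).card = 10 ^ n := by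
  induction n with
  | zero => rfl
  | succ n ih =>
    rw [layer, card_image_of_injective _ (fun a b h => Prod.ext (List.cons.inj h).1 (List.cons.inj h).2),
      card_product, ih, card_univ, Fintype.card_fin, pow_succ']

def ee (n : ℕ) : ℤ := 2 * Denumerable.ofNat ℤ (Nat.unpair (n / 2)).1 + (n % 2 : ℕ)

lemma ee_par (n : ℕ) : ee n % 2 = (n % 2 : ℕ) := by unfold ee; omega

lemma ee_ne (n : ℕ) : ee (n + 1) ≠ ee n := by
  intro h
  have h1 := ee_par n
  have h2 := ee_par (n + 1)
  omega

lemma ee_one : ee 1 = ee 0 + 1 := by simp [ee]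

lemma ee_hit (z : ℤ) (n : ℕ) : ∃ N, n ≤ N ∧ ee N = z := by
  obtain ⟨a, ha⟩ : ∃ a, Denumerable.ofNat ℤ a = z / 2 := ⟨_, Denumerable.ofNat_encode _⟩
  refine ⟨2 * Nat.pair a n + (z % 2).toNat, ?_, ?_⟩
  · have := Nat.right_le_pair a n; omega
  · unfold ee
    rw [show (2 * Nat.pair a n + (z % 2).toNat) / 2 = Nat.pair a n by omega, Nat.unpair_pair, ha]
    omega

def Up (x y : Vx) : Prop := y.1.length = x.1.length + 1 ∧
  (x.2 + ee x.1.length = y.2 + ee y.1.length ∨ (y.1.tail = x.1 ∧ x.2 = y.2))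

def G : SimpleGraph Vx where
  Adj x y := Up x y ∨ Up y x
  symm := ⟨fun _ _ h => h.symm⟩
  loopless := ⟨fun x h => by rcases h with h | h <;> exact absurd h.1 (by omega)⟩

instance : DecidableEq Vx := inferInstanceAs (DecidableEq (W × ℤ))

def upS (l : W) (k : ℤ) : Finset Vx :=
  (layer (l.length + 1)).image (fun l' => ((l', k + ee l.length - ee (l.length + 1)) : Vx)) ∪
    univ.image fun a : Fin 10 => ((a :: l, k) : Vx)

def dnS : W → ℤ → Finset Vx
  | [], _ => ∅
  | _ :: m, k => insert (α := Vx) (m, k)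
      ((layer m.length).image fun l' => ((l', k + ee (m.length + 1) - ee m.length) : Vx))

lemma mem_upS (l : W) (k : ℤ) (y : Vx) : y ∈ upS l k ↔ Up (l, k) y := by
  obtain ⟨l', k'⟩ := y
  simp only [upS, mem_union, mem_image, mem_layer, mem_univ, true_and, Up]
  constructor
  · rintro (⟨a, h1, h2⟩ | ⟨a, h2⟩)
    · cases h2
      exact ⟨h1, Or.inl (by rw [h1]; ring)⟩
    · cases h2
      exact ⟨rfl, Or.inr ⟨rfl, rfl⟩⟩
  · rintro ⟨h1, h2 | ⟨h2, h3⟩⟩
    · refine Or.inl ⟨l', h1, ?_⟩
      rw [h2, h1, add_sub_cancel_right]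
    · cases l' with
      | nil => simp at h1
      | cons a m => exact Or.inr ⟨a, by rw [← h2, h3]; rfl⟩

lemma mem_dnS (l : W) (k : ℤ) (y : Vx) : y ∈ dnS l k ↔ Up y (l, k) := by
  obtain ⟨l', k'⟩ := y
  cases l with
  | nil => simp [dnS, Up]
  | cons c m =>
    simp only [dnS, mem_insert, mem_image, mem_layer, Up, List.length_cons, List.tail_cons]
    constructor
    · rintro (h | ⟨a, h1, h2⟩)
      · cases h
        exact ⟨rfl, Or.inr ⟨rfl, rfl⟩⟩
      · cases h2
        exact ⟨by rw [h1], Or.inl (by rw [h1]; ring)⟩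
    · rintro ⟨h1, h2 | ⟨h2, h3⟩⟩
      · have h3 : l'.length = m.length := by omega
        refine Or.inr ⟨l', h3, ?_⟩
        rw [← h2, h3, add_sub_cancel_right]
      · exact Or.inl (by rw [h2, h3])

def nb (x : Vx) : Finset Vx := upS x.1 x.2 ∪ dnS x.1 x.2

lemma nb_eq (x : Vx) : G.neighborSet x = ↑(nb x) := by
  ext y
  simp only [SimpleGraph.mem_neighborSet, nb, coe_union, Set.mem_union, mem_coe, mem_upS, mem_dnS]
  rfl

lemma sum_up (h : Vx → ℝ) (l : W) (k : ℤ) : ∑ y ∈ upS l k, h y =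
    ∑ l' ∈ layer (l.length + 1), h (l', k + ee l.length - ee (l.length + 1)) +
      ∑ a : Fin 10, h (a :: l, k) := by
  rw [upS, sum_union, sum_image, sum_image]
  · intro a _ b _ e
    exact (List.cons.inj (Prod.mk.inj e).1).1
  · intro a _ b _ e
    exact (Prod.mk.inj e).1
  · rw [disjoint_left]
    intro y h1 h2
    obtain ⟨a, -, rfl⟩ := mem_image.1 h1
    obtain ⟨b, -, e⟩ := mem_image.1 h2
    have := (Prod.mk.inj e).2
    have := ee_ne l.length
    omega

lemma sum_dn (h : Vx → ℝ) (c : Fin 10) (m : W) (k : ℤ) : ∑ y ∈ dnS (c :: m) k, h y =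
    h (m, k) + ∑ l' ∈ layer m.length, h (l', k + ee (m.length + 1) - ee m.length) := by
  rw [dnS, sum_insert, sum_image]
  · intro a _ b _ e
    exact (Prod.mk.inj e).1
  · intro h1
    obtain ⟨b, -, e⟩ := mem_image.1 h1
    have := (Prod.mk.inj e).2
    have := ee_ne m.length
    omega

lemma sum_nb (h : Vx → ℝ) (x : Vx) :
    ∑ y ∈ nb x, h y = ∑ y ∈ upS x.1 x.2, h y + ∑ y ∈ dnS x.1 x.2, h y := by
  rw [nb, sum_union]
  rw [disjoint_left]
  intro y h1 h2
  have a := ((mem_upS _ _ _).1 h1).1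
  have b := ((mem_dnS _ _ _).1 h2).1
  simp only at a b
  omega

noncomputable def avg (h : Vx → ℝ) (x : Vx) : ℝ := (∑ y ∈ nb x, h y) / (nb x).card

lemma harm_iff (h : Vx → ℝ) : Harm G h ↔ ∀ x, h x = avg h x := by
  simp only [Harm, nb_eq, finsum_mem_coe_finset, Set.ncard_coe_finset, avg]

lemma card_nil (k : ℤ) : ((nb ([], k)).card : ℝ) = 20 := by
  have := sum_nb (fun _ => 1) ([], k)
  rw [sum_up] at this
  simp only [sum_const, nsmul_eq_mul, mul_one, card_layer, dnS] at this
  rw [this]; norm_num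

lemma card_cons (c : Fin 10) (m : W) (k : ℤ) :
    ((nb (c :: m, k)).card : ℝ) = 101 * 10 ^ m.length + 11 := by
  have := sum_nb (fun _ => 1) (c :: m, k)
  rw [sum_up, sum_dn] at this
  simp only [sum_const, nsmul_eq_mul, mul_one, card_layer] at this
  rw [this]; simp; ring

lemma avg_nil (h : Vx → ℝ) (k : ℤ) : avg h ([], k) =
    (∑ l' ∈ layer 1, h (l', k + ee 0 - ee 1) + ∑ a : Fin 10, h ([a], k)) / 20 := by
  rw [avg, card_nil, sum_nb, sum_up]
  simp [dnS]

lemma avg_cons (h : Vx → ℝ) (c : Fin 10) (m : W) (k : ℤ) : avg h (c :: m, k) =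
    (∑ l' ∈ layer (m.length + 2), h (l', k + ee (m.length + 1) - ee (m.length + 2)) +
      ∑ a : Fin 10, h (a :: c :: m, k) +
      (h (m, k) + ∑ l' ∈ layer m.length, h (l', k + ee (m.length + 1) - ee m.length))) /
      (101 * 10 ^ m.length + 11) := by
  rw [avg, card_cons, sum_nb, sum_up, sum_dn]
  rfl

noncomputable def gg : ℕ → ℝ
  | 0 => 0
  | 1 => 1
  | n + 2 => ((101 * 10 ^ n + 11) * gg (n + 1) - (10 ^ n - 1) * gg n) / (100 * 10 ^ n - 10)

lemma gg_bd (n : ℕ) : 0 ≤ gg n ∧ gg n ≤ 2 - 2 * (1 / 2) ^ n ∧ 0 ≤ gg (n + 1) - gg n ∧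
    gg (n + 1) - gg n ≤ (1 / 2) ^ n := by
  induction n with
  | zero => norm_num [gg]
  | succ n ih =>
    obtain ⟨h1, h2, h3, h4⟩ := ih
    have t1 : (1 : ℝ) ≤ 10 ^ n := one_le_pow₀ (by norm_num)
    have t2 : (1 : ℝ) ≤ 10 ^ n * (1 / 2) ^ n := by
      rw [← mul_pow]; exact one_le_pow₀ (by norm_num)
    have t3 : (0 : ℝ) < (1 / 2) ^ n := by positivity
    have t4 : ((1 : ℝ) / 2) ^ n ≤ 1 := pow_le_one₀ (by norm_num) (by norm_num)
    have e : gg (n + 1 + 1) - gg (n + 1) =
        ((10 ^ n - 1) * (gg (n + 1) - gg n) + 22 * gg (n + 1)) / (100 * 10 ^ n - 10) := by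
      rw [gg]
      have : (100 * 10 ^ n - 10 : ℝ) ≠ 0 := by linarith
      rw [eq_div_iff this, sub_mul, div_mul_cancel₀ _ this]
      ring
    refine ⟨by linarith, by rw [pow_succ]; linarith, ?_, ?_⟩
    · rw [e]
      exact div_nonneg (by nlinarith) (by linarith)
    · rw [e, div_le_iff₀ (by linarith), pow_succ]
      nlinarith

noncomputable def hh (x : Vx) : ℝ := (-1) ^ (x.2 + ee x.1.length) * gg x.1.length

lemma sgn_flip (k : ℤ) (n : ℕ) : (-1 : ℝ) ^ (k + ee (n + 1)) = -(-1) ^ (k + ee n) := by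
  have h1 := ee_par n
  have h2 := ee_par (n + 1)
  obtain ⟨d, hd⟩ : ∃ d, k + ee (n + 1) = k + ee n + (2 * d + 1) :=
    ⟨(ee (n + 1) - ee n - 1) / 2, by omega⟩
  rw [hd, zpow_add₀ (by norm_num), Odd.neg_one_zpow ⟨d, rfl⟩]
  ring

lemma sum_layer (n : ℕ) (f : W → ℝ) (c : ℝ) (h : ∀ l : W, l.length = n → f l = c) :
    ∑ l ∈ layer n, f l = 10 ^ n * c := by
  rw [sum_congr rfl fun l hl => h l ((mem_layer _ _).1 hl)]
  simp [card_layer]

lemma hh_harm : Harm G hh := by
  rw [harm_iff]
  rintro ⟨l, k⟩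
  cases l with
  | nil =>
    rw [avg_nil, sum_layer 1 _ ((-1) ^ (k + ee 0) * gg 1) (fun l hl => by simp [hh, hl])]
    simp only [hh, List.length_nil, List.length_cons, sgn_flip, gg]
    simp
  | cons c m =>
    rw [avg_cons, sum_layer _ _ ((-1) ^ (k + ee (m.length + 1)) * gg (m.length + 2))
      (fun l hl => by simp [hh, hl]), sum_layer _ _ ((-1) ^ (k + ee (m.length + 1)) * gg m.length)
      (fun l hl => by simp [hh, hl])]
    simp only [hh, List.length_cons, sgn_flip, gg]
    have t1 : (1 : ℝ) ≤ 10 ^ m.length := one_le_pow₀ (by norm_num)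
    have : (100 * 10 ^ m.length - 10 : ℝ) ≠ 0 := by linarith
    simp only [sum_const, card_univ, Fintype.card_fin, nsmul_eq_mul]
    rw [eq_div_iff (by linarith), pow_add]
    have e := div_mul_cancel₀ ((101 * 10 ^ m.length + 11) * gg (m.length + 1) -
      (10 ^ m.length - 1) * gg m.length) this
    generalize ((101 * 10 ^ m.length + 11) * gg (m.length + 1) -
      (10 ^ m.length - 1) * gg m.length) / (100 * 10 ^ m.length - 10) = q at e ⊢
    push_cast
    linear_combination (-1) ^ (k + ee m.length) * e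

theorem not_liou : ¬ Liouville G := by
  intro h
  obtain ⟨c, hc⟩ := h hh hh_harm ⟨2, fun x => by
    obtain ⟨h1, h2, -⟩ := gg_bd x.1.length
    have : (0 : ℝ) < (1 / 2) ^ x.1.length := by positivity
    rw [hh, abs_mul, abs_zpow, abs_neg, abs_one, one_zpow, one_mul, abs_of_nonneg h1]
    linarith⟩
  have h1 := hc ([], 0)
  have h2 := hc ([0], 0)
  simp only [hh, List.length_nil, List.length_cons, gg, mul_zero, zero_add, mul_one] at h1 h2
  exact zpow_ne_zero _ (by norm_num) (h2.trans h1.symm)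

lemma inv_const (φ : W → ℝ) (h : Harm G fun x => φ x.1) (C : ℝ) (hC : ∀ l, |φ l| ≤ C) (l : W) :
    φ l = φ [] := by
  rw [harm_iff] at h
  have k1 : ∀ r : ℕ, ∀ l l' : W, l.length = l'.length → φ l - φ l' ≤ (1 / 2) ^ r * (2 * C) := by
    intro r
    induction r with
    | zero =>
      intro l l' _
      have := abs_le.1 (hC l)
      have := abs_le.1 (hC l')
      simp only [pow_zero]; linarith
    | succ r ih =>
      intro l l' e
      have hB := ih [] [] rfl
      cases l with
      | nil =>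
        rw [List.length_eq_zero_iff.1 e.symm, pow_succ]; linarith
      | cons c m =>
        cases l' with
        | nil => simp at e
        | cons c' m' =>
          have e' : m.length = m'.length := by simpa using e
          have h1 := h (c :: m, 0)
          have h2 := h (c' :: m', 0)
          rw [avg_cons] at h1 h2
          simp only at h1 h2
          have h3 : ∑ a : Fin 10, φ (a :: c :: m) - ∑ a : Fin 10, φ (a :: c' :: m') ≤
              10 * ((1 / 2) ^ r * (2 * C)) := by
            rw [← sum_sub_distrib]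
            refine (sum_le_card_nsmul _ _ _ fun a _ => ih _ _ (by simp [e'])).trans ?_
            simp
          have h4 := ih m m' e'
          have t1 : (1 : ℝ) ≤ 10 ^ m.length := one_le_pow₀ (by norm_num)
          rw [h1, h2, ← e', ← sub_div, div_le_iff₀ (by linarith), pow_succ]
          nlinarith
  have k2 : ∀ l l' : W, l.length = l'.length → φ l = φ l' := by
    have k3 : ∀ l l' : W, l.length = l'.length → φ l - φ l' ≤ 0 := by
      intro l l' e
      have : Filter.Tendsto (fun r : ℕ => ((1 : ℝ) / 2) ^ r * (2 * C)) Filter.atTop (nhds 0) := by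
        simpa using (tendsto_pow_atTop_nhds_zero_of_lt_one (r := (1 / 2 : ℝ)) (by norm_num)
          (by norm_num)).mul_const (2 * C)
      exact ge_of_tendsto' this fun r => k1 r l l' e
    intro l l' e
    linarith [k3 l l' e, k3 l' l e.symm]
  have k4 : ∀ l : W, φ l = φ [] ∧ φ (0 :: l) = φ [] := by
    intro l
    induction l with
    | nil =>
      refine ⟨rfl, ?_⟩
      have h1 := h ([], 0)
      rw [avg_nil, sum_layer 1 _ (φ [0]) (fun l hl => k2 _ _ hl),
        sum_congr rfl fun a _ => k2 [a] [0] rfl] at h1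
      simp only [sum_const, card_univ, Fintype.card_fin, nsmul_eq_mul] at h1
      push_cast at h1
      linarith
    | cons c m ih =>
      have a1 : φ (c :: m) = φ [] := (k2 (c :: m) (0 :: m) rfl).trans ih.2
      refine ⟨a1, ?_⟩
      have h1 := h (c :: m, 0)
      rw [avg_cons, sum_layer (m.length + 2) _ (φ (0 :: c :: m)) (fun l hl => k2 _ _ hl),
        sum_layer m.length _ (φ m) (fun l hl => k2 _ _ hl),
        sum_congr rfl fun a _ => k2 (a :: c :: m) (0 :: c :: m) rfl] at h1
      simp only [sum_const, card_univ, Fintype.card_fin, nsmul_eq_mul, a1, ih.1] at h1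
      have t1 : (1 : ℝ) ≤ 10 ^ m.length := one_le_pow₀ (by norm_num)
      rw [eq_div_iff (by linarith)] at h1
      push_cast at h1
      have : (100 * 10 ^ m.length + 10 : ℝ) * (φ (0 :: c :: m) - φ []) = 0 := by
        rw [pow_add] at h1; linarith
      rcases mul_eq_zero.1 this with h2 | h2 <;> linarith
  exact (k4 l).1

lemma sum_layer_le (n : ℕ) (f : W → ℝ) (c : ℝ) (h : ∀ l : W, l.length = n → f l ≤ c) :
    ∑ l ∈ layer n, f l ≤ 10 ^ n * c := by
  refine (sum_le_card_nsmul _ _ _ fun l hl => h l ((mem_layer _ _).1 hl)).trans ?_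
  simp [card_layer]

lemma contract (k0 : ℤ) (u : Vx → ℝ) (h1 : ∀ x, u x ≤ avg u x) (h0 : ∀ l, u (l, k0) ≤ 0)
    (M : ℝ) (hM0 : 0 ≤ M) (hM : ∀ x, u x ≤ M) (x : Vx) : u x ≤ 3 / 4 * M := by
  obtain ⟨l, k⟩ := x
  obtain ⟨N, hN, hN2⟩ := ee_hit (k + ee l.length - k0) l.length
  let J := k + ee l.length
  let z : W → ℝ := fun m => u (m, J - ee m.length) - 3 / 4 * M * (1 / 2) ^ m.length
  let S : Finset W := (range (N + 1)).biUnion layer
  have hS : ∀ m : W, m ∈ S ↔ m.length ≤ N := by
    intro m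
    simp [S, mem_layer]
  obtain ⟨m, hm, hmax⟩ := exists_max_image S z ⟨l, (hS l).2 hN⟩
  have hz : z m ≤ 0 := by
    by_contra hpos
    have hpos : 0 < z m := not_le.1 hpos
    have hlt : m.length < N := by
      rcases ((hS m).1 hm).lt_or_eq with h | h
      · exact h
      · exfalso
        have : J - ee m.length = k0 := by rw [h, hN2]; simp [J]
        have a := h0 m
        have b : 0 ≤ 3 / 4 * M * (1 / 2) ^ m.length := by positivity
        simp only [z, this] at hpos
        linarith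
    have b : ∀ n ≤ N, ∑ l' ∈ layer n, u (l', J - ee n) ≤ 10 ^ n * (z m + 3 / 4 * M * (1 / 2) ^ n) := by
      intro n hn
      refine sum_layer_le n _ _ fun l' hl' => ?_
      have := hmax l' ((hS l').2 (hl' ▸ hn))
      simp only [z, hl'] at this ⊢
      linarith
    have b2 : ∀ (m' : W) (k' : ℤ), ∑ a : Fin 10, u (a :: m', k') ≤ 10 * M := by
      intro m' k'
      refine (sum_le_card_nsmul _ _ _ fun a _ => hM _).trans ?_
      simp
    have c1 := h1 (m, J - ee m.length)
    have c2 : u (m, J - ee m.length) = z m + 3 / 4 * M * (1 / 2) ^ m.length := by simp [z]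
    cases m with
    | nil =>
      rw [avg_nil, c2] at c1
      simp only [List.length_nil, sub_add_cancel] at c1
      have d1 := b 1 hlt
      have d2 := b2 [] (J - ee 0)
      rw [le_div_iff₀ (by norm_num)] at c1
      norm_num at c1 d1
      linarith
    | cons c m =>
      rw [avg_cons, c2] at c1
      simp only [List.length_cons, sub_add_cancel] at c1 hlt
      have d1 := b (m.length + 2) hlt
      have d3 := b m.length (by omega)
      have d2 := b2 (c :: m) (J - ee (m.length + 1))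
      have d4 := hM (m, J - ee (m.length + 1))
      have t1 : (1 : ℝ) ≤ 10 ^ m.length := one_le_pow₀ (by norm_num)
      have t2 : (1 : ℝ) ≤ 10 ^ m.length * (1 / 2) ^ m.length := by
        rw [← mul_pow]; exact one_le_pow₀ (by norm_num)
      have t3 : (0 : ℝ) < (1 / 2) ^ m.length := by positivity
      rw [le_div_iff₀ (by linarith)] at c1
      rw [pow_add, pow_add] at d1
      rw [pow_succ] at c1
      have t4 : M ≤ M * (10 ^ m.length * (1 / 2) ^ m.length) := le_mul_of_one_le_right hM0 t2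
      have t5 : 0 ≤ M * (1 / 2) ^ m.length := by positivity
      nlinarith
  have := hmax l ((hS l).2 hN)
  have e : J - ee l.length = k := by simp [J]
  simp only [z, e] at this hz
  have t4 : ((1 : ℝ) / 2) ^ l.length ≤ 1 := pow_le_one₀ (by norm_num) (by norm_num)
  nlinarith

lemma sub_zero (k0 : ℤ) (u : Vx → ℝ) (h1 : ∀ x, u x ≤ avg u x) (h0 : ∀ l, u (l, k0) ≤ 0)
    (hM : ∀ x, u x ≤ 1) (x : Vx) : u x ≤ 0 := by
  have k : ∀ r : ℕ, ∀ x, u x ≤ (3 / 4) ^ r := by
    intro r
    induction r with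
    | zero => simpa using hM
    | succ r ih =>
      intro x
      rw [pow_succ']
      exact contract k0 u h1 h0 _ (by positivity) ih x
  exact ge_of_tendsto' (tendsto_pow_atTop_nhds_zero_of_lt_one (r := (3 / 4 : ℝ)) (by norm_num)
    (by norm_num)) fun r => k r x

end Pool.Agent.H33.Liou
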