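import Pool.Agent.H33.Liou1

set_option autoImplicit false

namespace Pool.Agent.H33.Liou

open Finset MeasureTheory ProbabilityTheory Filter

instance : MeasurableSpace Vx := ⊤

instance : MeasurableSingletonClass Vx := ⟨fun _ => trivial⟩

lemma ms (s : Set Vx) : MeasurableSet s := trivial

instance : Countable Vx := inferInstanceAs (Countable (W × ℤ))

lemma nb_pos (x : Vx) : (0 : ℝ) < (nb x).card := by
  obtain ⟨l, k⟩ := x
  cases l with
  | nil => rw [card_nil]; norm_num
  | cons c m => rw [card_cons]; positivity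

instance (p : ℕ × Vx) : IsProbabilityMeasure (uniformOn (G.neighborSet p.2)) := by
  rw [nb_eq]
  refine isProbabilityMeasure_uniformOn (finite_toSet _) ?_
  have := nb_pos p.2
  exact card_pos.1 (by exact_mod_cast this)

instance : IsProbabilityMeasure (stepLaw G) := by unfold stepLaw; infer_instance

noncomputable def uu (k0 : ℤ) : ℕ → Vx → ℝ
  | 0 => fun _ => 1
  | r + 1 => fun x => if x.2 = k0 then 0 else avg (uu k0 r) x

lemma avg_mono {f g : Vx → ℝ} (h : ∀ x, f x ≤ g x) (x : Vx) : avg f x ≤ avg g x :=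
  div_le_div_of_nonneg_right (sum_le_sum fun y _ => h y) (nb_pos x).le

lemma avg_const (c : ℝ) (x : Vx) : avg (fun _ => c) x = c := by
  have := nb_pos x
  simp only [avg, sum_const, nsmul_eq_mul]
  field_simp

lemma uu_nonneg (k0 : ℤ) (r : ℕ) (x : Vx) : 0 ≤ uu k0 r x := by
  induction r generalizing x with
  | zero => simp [uu]
  | succ r ih =>
    simp only [uu]
    split_ifs
    · exact le_rfl
    · exact (avg_const 0 x).symm.le.trans (avg_mono ih x)

lemma uu_anti (k0 : ℤ) (r : ℕ) (x : Vx) : uu k0 (r + 1) x ≤ uu k0 r x := by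
  induction r generalizing x with
  | zero =>
    simp only [uu]
    split_ifs
    · norm_num
    · exact (avg_const 1 x).le
  | succ r ih =>
    rw [uu, uu]
    simp only
    split_ifs
    · exact le_rfl
    · exact avg_mono ih x

lemma uu_lim (k0 : ℤ) (x : Vx) : Tendsto (fun r => uu k0 r x) atTop (nhds 0) := by
  have ha : ∀ x, Antitone fun r => uu k0 r x := fun x => antitone_nat_of_succ_le fun r => uu_anti k0 r x
  have hb : ∀ x, BddBelow (Set.range fun r => uu k0 r x) :=
    fun x => ⟨0, by rintro _ ⟨r, rfl⟩; exact uu_nonneg k0 r x⟩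
  have ht : ∀ x, Tendsto (fun r => uu k0 r x) atTop (nhds (⨅ r, uu k0 r x)) :=
    fun x => tendsto_atTop_ciInf (ha x) (hb x)
  have h0 : ∀ x, 0 ≤ ⨅ r, uu k0 r x := fun x => le_ciInf fun r => uu_nonneg k0 r x
  have h1 : ∀ x, ⨅ r, uu k0 r x ≤ 0 := by
    refine sub_zero k0 (fun x => ⨅ r, uu k0 r x) (fun x => ?_) (fun l => ?_) (fun x => ?_)
    · have t : Tendsto (fun r => avg (uu k0 r) x) atTop (nhds (avg (fun x => ⨅ r, uu k0 r x) x)) :=
        (tendsto_finsetSum _ fun y _ => ht y).div_const _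
      refine ge_of_tendsto' t fun r => (ciInf_le (hb x) (r + 1)).trans ?_
      simp only [uu]
      split_ifs
      · exact (avg_const 0 x).symm.le.trans (avg_mono (uu_nonneg k0 r) x)
      · exact le_rfl
    · exact (ciInf_le (hb _) 1).trans (by simp [uu])
    · exact (ciInf_le (hb _) 0).trans (by simp [uu])
  have := ht x
  rwa [le_antisymm (h1 x) (h0 x)] at this

def Av (k0 : ℤ) : ℕ → ℕ → Vx → Set (ℕ × Vx → Vx)
  | 0, _, _ => Set.univ
  | r + 1, n, x => {ω | x.2 ≠ k0 ∧ ω ∈ Av k0 r (n + 1) (ω (n, x))}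

def Cyl (s : Finset (ℕ × Vx)) (f : ℕ × Vx → Vx) : Set (ℕ × Vx → Vx) :=
  Set.pi s fun p => {f p}

lemma cyl_ins (s : Finset (ℕ × Vx)) (f : ℕ × Vx → Vx) (p : ℕ × Vx) (hp : p ∉ s) (y : Vx)
    (hy : y ∈ nb p.2) : stepLaw G (Cyl (insert p s) (Function.update f p y)) =
      stepLaw G (Cyl s f) * ENNReal.ofReal (1 / (nb p.2).card) := by
  unfold stepLaw Cyl
  rw [Measure.infinitePi_pi _ (fun _ _ => ms _), Measure.infinitePi_pi _ (fun _ _ => ms _),
    prod_insert hp, mul_comm]
  congr 1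
  · refine prod_congr rfl fun q hq => ?_
    have : q ≠ p := fun e => hp (e ▸ hq)
    rw [Function.update_of_ne this]
  · rw [Function.update_self, nb_eq, ← coe_singleton, uniformOn_apply_finset,
      inter_singleton_of_mem hy, ENNReal.ofReal_div_of_pos (nb_pos _)]
    simp

lemma null_out (p : ℕ × Vx) : stepLaw G {ω | ω p ∉ nb p.2} = 0 := by
  have : {ω : ℕ × Vx → Vx | ω p ∉ nb p.2} =
      Set.pi (({p} : Finset _) : Set (ℕ × Vx)) fun q => ((nb q.2 : Set Vx))ᶜ := by
    ext ω; simp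
  rw [this]
  unfold stepLaw
  rw [Measure.infinitePi_pi _ (fun _ _ => ms _), prod_singleton, nb_eq, uniformOn,
    cond_apply (ms _)]
  simp

lemma av_le (k0 : ℤ) (r n : ℕ) (x : Vx) (s : Finset (ℕ × Vx)) (f : ℕ × Vx → Vx)
    (hs : ∀ p ∈ s, p.1 < n) :
    stepLaw G (Cyl s f ∩ Av k0 r n x) ≤ stepLaw G (Cyl s f) * ENNReal.ofReal (uu k0 r x) := by
  induction r generalizing n x s f with
  | zero => simp [Av, uu]
  | succ r ih =>
    by_cases hx : x.2 = k0
    · simp [Av, hx]
    have hp : (n, x) ∉ s := fun h => lt_irrefl _ (hs _ h)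
    have sub : Cyl s f ∩ Av k0 (r + 1) n x ⊆ {ω | ω (n, x) ∉ nb (n, x).2} ∪
        ⋃ y ∈ nb x, Cyl (insert (n, x) s) (Function.update f (n, x) y) ∩ Av k0 r (n + 1) y := by
      rintro ω ⟨h1, -, h2⟩
      by_cases h3 : ω (n, x) ∈ nb x
      · refine Or.inr (Set.mem_biUnion h3 ⟨?_, h2⟩)
        intro q hq
        rcases mem_insert.1 hq with rfl | hq
        · simp
        · have : q ≠ (n, x) := fun e => hp (e ▸ hq)
          show ω q = Function.update f (n, x) (ω (n, x)) q
          rw [Function.update_of_ne this]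
          exact h1 q hq
      · exact Or.inl h3
    refine (measure_mono sub).trans ((measure_union_le _ _).trans ?_)
    rw [null_out, zero_add]
    refine (measure_biUnion_finset_le _ _).trans ?_
    simp only [uu, if_neg hx, avg]
    rw [sum_div, ENNReal.ofReal_sum_of_nonneg
      (fun y _ => div_nonneg (uu_nonneg _ _ _) (nb_pos x).le), mul_sum]
    refine sum_le_sum fun y hy => (ih (n + 1) y _ _ ?_).trans (le_of_eq ?_)
    · intro q hq
      rcases mem_insert.1 hq with rfl | hq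
      · exact Nat.lt_succ_self _
      · exact (hs q hq).trans (Nat.lt_succ_self _)
    · rw [cyl_ins s f (n, x) hp y hy, mul_assoc,
        ← ENNReal.ofReal_mul (div_nonneg zero_le_one (nb_pos x).le)]
      congr 2
      ring

lemma av_null (k0 : ℤ) (n : ℕ) (x : Vx) : stepLaw G (⋂ r, Av k0 r n x) = 0 := by
  have t : Tendsto (fun r => ENNReal.ofReal (uu k0 r x)) atTop (nhds 0) := by
    simpa using ENNReal.tendsto_ofReal (uu_lim k0 x)
  refine le_antisymm (ge_of_tendsto' t fun r => ?_) (by simp)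
  have := av_le k0 r n x ∅ (fun _ => x) (by simp)
  simp only [Cyl, coe_empty, Set.empty_pi, Set.univ_inter, measure_univ, one_mul] at this
  exact (measure_mono (Set.iInter_subset _ r)).trans this

theorem visits (x : Vx) : ∀ᵐ ω ∂stepLaw G, ∀ k : ℤ, ∃ᶠ t in atTop, (walk x ω t).2 = k := by
  have : ∀ᵐ ω ∂stepLaw G, ∀ k : ℤ, ∀ n : ℕ, ∀ y : Vx, ω ∉ ⋂ r, Av k r n y := by
    simp only [ae_all_iff]
    intro k n y
    exact measure_eq_zero_iff_ae_notMem.1 (av_null k n y)
  filter_upwards [this] with ω h k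
  by_contra hc
  rw [not_frequently, eventually_atTop] at hc
  obtain ⟨n, hn⟩ := hc
  refine h k n (walk x ω n) (Set.mem_iInter.2 fun r => ?_)
  have : ∀ m, n ≤ m → ω ∈ Av k r m (walk x ω m) := by
    induction r with
    | zero => intro m _; trivial
    | succ r ih => exact fun m hm => ⟨hn m hm, ih (m + 1) (by omega)⟩
  exact this n le_rfl

instance : AddAction ℤ Vx where
  vadd k x := (x.1, k + x.2)
  zero_vadd x := by show (x.1, 0 + x.2) = x; rw [zero_add]; rfl
  add_vadd a b x := by show (x.1, a + b + x.2) = (x.1, a + (b + x.2)); rw [add_assoc]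

lemma vadd_eq (k : ℤ) (x : Vx) : k +ᵥ x = (x.1, k + x.2) := rfl

lemma up_vadd (k : ℤ) (x y : Vx) : Up (k +ᵥ x) (k +ᵥ y) ↔ Up x y := by
  simp only [Up, vadd_eq, add_assoc, add_right_inj]

lemma tree_adj (c : Fin 10) (m : W) (k : ℤ) : G.Adj (m, k) (c :: m, k) :=
  Or.inl ⟨rfl, Or.inr ⟨rfl, rfl⟩⟩

lemma conn : G.Connected := by
  have h1 : ∀ (l : W) (k : ℤ), G.Reachable ([], k) (l, k) := by
    intro l k
    induction l with
    | nil => exact .refl _
    | cons c m ih => exact ih.trans (tree_adj c m k).reachable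
  have h2 : ∀ k : ℤ, G.Reachable ([], k) ([], k + 1) := by
    intro k
    have : G.Adj ([], k + 1) ([0], k) := Or.inl ⟨rfl, Or.inl (by simp [ee_one]; ring)⟩
    exact (h1 [0] k).trans this.reachable.symm
  have h3 : ∀ k : ℤ, G.Reachable ([], 0) ([], k) := by
    intro k
    induction k using Int.induction_on with
    | zero => exact .refl _
    | succ i ih => exact ih.trans (h2 i)
    | pred i ih =>
      have := h2 (-(i : ℤ) - 1)
      rw [sub_add_cancel] at this
      exact ih.trans this.symm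
  have : Nonempty Vx := ⟨([], 0)⟩
  exact ⟨fun x y => ((h3 x.2).trans (h1 x.1 x.2)).symm.trans ((h3 y.2).trans (h1 y.1 y.2))⟩

lemma conn_D : (G.induce {x : Vx | x.2 = (0 : ℤ)}).Connected := by
  have h1 : ∀ l : W, (G.induce {x : Vx | x.2 = (0 : ℤ)}).Reachable ⟨([], 0), rfl⟩ ⟨(l, 0), rfl⟩ := by
    intro l
    induction l with
    | nil => exact .refl _
    | cons c m ih =>
      exact ih.trans (SimpleGraph.Adj.reachable (show (G.induce {x : Vx | x.2 = (0 : ℤ)}).Adj ⟨(m, 0), rfl⟩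
        ⟨(c :: m, 0), rfl⟩ from tree_adj c m 0))
  have : Nonempty {x : Vx | x.2 = (0 : ℤ)} := ⟨⟨([], 0), rfl⟩⟩
  refine ⟨?_⟩
  rintro ⟨⟨l, k⟩, h⟩ ⟨⟨l', k'⟩, h'⟩
  obtain rfl : k = 0 := h
  obtain rfl : k' = 0 := h'
  exact (h1 l).symm.trans (h1 l')

lemma quot_liou : QuotLiouville G := by
  rintro f hf ⟨C, hC⟩
  have e : ∀ x : Vx, (Quotient.mk _ x : AddAction.orbitRel.Quotient ℤ Vx) =
      Quotient.mk _ ((x.1, 0) : Vx) := by
    intro x
    refine Quotient.sound ⟨x.2, ?_⟩
    show (x.1, x.2 + 0) = x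
    rw [add_zero]; rfl
  refine ⟨f (Quotient.mk _ (([], 0) : Vx)), fun q => ?_⟩
  obtain ⟨x, rfl⟩ := Quotient.exists_rep q
  rw [e]
  refine inv_const (fun l => f (Quotient.mk _ ((l, 0) : Vx))) ?_ C (fun l => hC _) x.1
  exact (funext fun x => congrArg f (e x)) ▸ hf

end Pool.Agent.H33.Liou
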