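import Mathlib

set_option autoImplicit false

namespace Pool.Agent.H33.Liou

open MeasureTheory ProbabilityTheory Filter

/-- h equals, at every vertex, its average over the neighbours. -/
def Harm {V : Type} (G : SimpleGraph V) (h : V → ℝ) : Prop :=
  ∀ x, h x = (∑ᶠ y ∈ G.neighborSet x, h y) / (G.neighborSet x).ncard

/-- Every bounded harmonic function on G is constant. -/
def Liouville {V : Type} (G : SimpleGraph V) : Prop :=
  ∀ h : V → ℝ, Harm G h → (∃ C, ∀ x, |h x| ≤ C) → ∃ c, ∀ x, h x = c

/-- Every bounded function on the orbit space that is harmonic for the projected chain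
(that is, whose lift to G is harmonic) is constant. -/
def QuotLiouville {V : Type} [AddAction ℤ V] (G : SimpleGraph V) : Prop :=
  ∀ f : AddAction.orbitRel.Quotient ℤ V → ℝ, Harm G (fun x => f (Quotient.mk _ x)) →
    (∃ C, ∀ x, |f x| ≤ C) → ∃ c, ∀ x, f x = c

/-- Independent uniform neighbour choices, one for each time and vertex. -/
noncomputable def stepLaw {V : Type} [MeasurableSpace V] (G : SimpleGraph V) :
    Measure (ℕ × V → V) :=
  Measure.infinitePi fun p : ℕ × V => uniformOn (G.neighborSet p.2)

/-- The simple random walk from x driven by the choices ω. -/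
def walk {V : Type} (x : V) (ω : ℕ × V → V) : ℕ → V
  | 0 => x
  | t + 1 => ω (t, walk x ω t)

end Pool.Agent.H33.Liou
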