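import Mathlib

open Module Matrix
open scoped Kronecker

namespace Pool.Agent.H33.Lsf

universe u

section core
variable {L : Type u} [Field L] {W : Type u} [AddCommGroup W] [Module L W] [FiniteDimensional L W]

/-- the space of `X` with `B X A = X` -/
def FixS {V : Type u} [AddCommGroup V] [Module L V] (A : V →ₗ[L] V) (B : W →ₗ[L] W) :
    Submodule L (V →ₗ[L] W) where
  carrier := {X | ∀ v, B (X (A v)) = X v}
  add_mem' := by intro X Y hX hY v; simp [hX v, hY v]
  zero_mem' := by intro v; simp
  smul_mem' := by intro c X hX v; simp [hX v]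

theorem step {V : Type u} [AddCommGroup V] [Module L V] [FiniteDimensional L V]
    (A : V →ₗ[L] V) (B : W →ₗ[L] W) (U : Submodule L V) (hU : U ≤ U.comap A) (v : V)
    (T : Submodule L W) (h1 : ∀ X ∈ FixS A B, X v ∈ T)
    (h2 : ∀ X ∈ FixS A B, X v = 0 → U ≤ LinearMap.ker X) :
    finrank L (FixS A B) ≤ finrank L T + finrank L (FixS (U.mapQ U A hU) B) := by
  let ev : FixS A B →ₗ[L] W := (LinearMap.applyₗ v).comp (FixS A B).subtype
  have e1 := ev.finrank_range_add_finrank_ker
  have e2 : finrank L (LinearMap.range ev) ≤ finrank L T := by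
    apply Submodule.finrank_mono
    rintro _ ⟨X, rfl⟩
    exact h1 X X.2
  let g : FixS (U.mapQ U A hU) B →ₗ[L] (V →ₗ[L] W) :=
    (LinearMap.lcomp L W U.mkQ).comp (FixS (U.mapQ U A hU) B).subtype
  have e3 : (LinearMap.ker ev).map (FixS A B).subtype ≤ LinearMap.range g := by
    rintro _ ⟨X, hX, rfl⟩
    have hX' : U ≤ LinearMap.ker X.1 := h2 X X.2 hX
    refine ⟨⟨U.liftQ X.1 hX', ?_⟩, ?_⟩
    · intro w
      obtain ⟨w, rfl⟩ := U.mkQ_surjective w
      simpa using X.2 w
    · ext w; simp [g]
  have e4 := (Submodule.finrank_mono e3).trans g.finrank_range_le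
  rw [Submodule.finrank_map_subtype_eq] at e4
  omega

theorem rank_quot {V : Type u} [AddCommGroup V] [Module L V] [FiniteDimensional L V]
    (A : V →ₗ[L] V) (U : Submodule L V) (hU : U ≤ U.comap A) :
    finrank L (LinearMap.range (A - 1)) ≤
      finrank L (LinearMap.range (U.mapQ U A hU - 1)) + finrank L U := by
  let g : LinearMap.range (A - 1) →ₗ[L] V ⧸ U := U.mkQ.comp (LinearMap.range (A - 1)).subtype
  have e1 := g.finrank_range_add_finrank_ker
  have e2 : finrank L (LinearMap.range g) ≤ finrank L (LinearMap.range (U.mapQ U A hU - 1)) := by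
    apply Submodule.finrank_mono
    rintro _ ⟨⟨_, w, rfl⟩, rfl⟩
    exact ⟨U.mkQ w, by simp [g]⟩
  have e3 : (LinearMap.ker g).map (LinearMap.range (A - 1)).subtype ≤ U := by
    rintro _ ⟨x, hx, rfl⟩
    simpa [g] using hx
  have e4 := Submodule.finrank_mono e3
  rw [Submodule.finrank_map_subtype_eq] at e4
  omega

theorem core [IsAlgClosed L] (B : W →ₗ[L] W) (hB : Function.Injective B) (e : ℕ)
    (he : ∀ c : L, 2 * finrank L (LinearMap.ker (c • B - 1)) ≤ finrank L W + e) :
    ∀ (n : ℕ) (V : Type u) [AddCommGroup V] [Module L V] [FiniteDimensional L V]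
      (A : V →ₗ[L] V), finrank L V = n →
      2 * finrank L (FixS A B) + 2 * n * finrank L (LinearMap.ker (B - 1)) +
        finrank L (LinearMap.range (A - 1)) * e ≤ 2 * n * (finrank L W + e) := by
  intro n
  induction n using Nat.strong_induction_on with
  | _ n ih =>
  intro V _ _ _ A hn
  have he1 := he 1
  rw [one_smul] at he1
  have eig : ∀ (v : V) (c : L), v ≠ 0 → A v = c • v → ∃ m r, n = m + 1 ∧
      finrank L (LinearMap.range (A - 1)) ≤ r + 1 ∧
      2 * finrank L (FixS A B) + 2 * m * finrank L (LinearMap.ker (B - 1)) + r * e ≤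
        2 * m * (finrank L W + e) + 2 * finrank L (LinearMap.ker (c • B - 1)) := by
    intro v c hv hc
    have hU : (L ∙ v) ≤ (L ∙ v).comap A := by
      rw [Submodule.span_singleton_le_iff_mem, Submodule.mem_comap, hc]
      exact Submodule.smul_mem _ _ (Submodule.mem_span_singleton_self v)
    have h1 := step A B _ hU v (LinearMap.ker (c • B - 1)) (fun X hX => by
      have := hX v
      rw [hc, map_smul, map_smul] at this
      simp [this]) (fun X _ h => by rwa [Submodule.span_singleton_le_iff_mem])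
    have h2 := rank_quot A _ hU
    have h3 := Submodule.finrank_quotient_add_finrank (L ∙ v)
    rw [finrank_span_singleton hv] at h2 h3
    have h4 := ih _ (by omega) _ ((L ∙ v).mapQ _ A hU) rfl
    exact ⟨finrank L (V ⧸ L ∙ v), _, by omega, h2, by omega⟩
  by_cases h0 : A - 1 = 0
  · rcases Nat.eq_zero_or_pos n with rfl | hpos
    · have : Subsingleton V := finrank_zero_iff.mp hn
      have : finrank L (FixS A B) = 0 := finrank_zero_of_subsingleton
      rw [h0, this]; simp
    · have : Nontrivial V := nontrivial_of_finrank_pos (R := L) (by omega)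
      obtain ⟨v, hv⟩ := exists_ne (0 : V)
      obtain ⟨m, r, rfl, -, h2⟩ := eig v 1 hv (by
        have := LinearMap.congr_fun h0 v
        simpa [sub_eq_zero] using this)
      rw [one_smul] at h2
      rw [h0, LinearMap.range_zero, finrank_bot]
      nlinarith [Nat.zero_le (r * e)]
  by_cases h1 : ∃ v, (A - 1) v ≠ 0 ∧ (A - 1) ((A - 1) v) = 0
  · obtain ⟨v, hv1, hv2⟩ := h1
    set w := (A - 1) v with hw
    have hAv : A v = v + w := by simp [hw]
    have hAw : A w = w := by simpa [sub_eq_zero] using hv2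
    let U := Submodule.span L {v, w}
    have hvU : v ∈ U := Submodule.subset_span (by simp)
    have hwU : w ∈ U := Submodule.subset_span (by simp)
    have hU : U ≤ U.comap A := by
      rw [Submodule.span_le]
      rintro x (rfl | rfl)
      · change A x ∈ U; rw [hAv]; exact U.add_mem hvU hwU
      · change A w ∈ U; rw [hAw]; exact hwU
    have hli : LinearIndependent L ![v, w] := by
      rw [LinearIndependent.pair_iff]
      intro s t hst
      have h3 := congrArg (A - 1 : V →ₗ[L] V) hst
      rw [map_add, map_smul, map_smul, hv2, smul_zero, add_zero, map_zero, ← hw] at h3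
      have hs : s = 0 := (smul_eq_zero.mp h3).resolve_right hv1
      rw [hs, zero_smul, zero_add] at hst
      exact ⟨hs, (smul_eq_zero.mp hst).resolve_right hv1⟩
    have hfin : finrank L U = 2 := by
      have := finrank_span_eq_card hli
      have e0 : Set.range ![v, w] = {v, w} := by
        rw [Matrix.range_cons, Matrix.range_cons, Matrix.range_empty, Set.union_empty]; rfl
      rw [e0] at this
      simpa [U] using this
    have h1 := step A B U hU v ⊤ (fun _ _ => trivial) (fun X hX h => by
      rw [Submodule.span_le]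
      rintro x (rfl | rfl)
      · exact h
      · have := hX v
        rw [hAv, map_add, h, zero_add] at this
        exact hB (this.trans (map_zero B).symm))
    have h2 := rank_quot A U hU
    have h3 := Submodule.finrank_quotient_add_finrank U
    rw [hfin] at h2 h3
    rw [finrank_top] at h1
    have h4 := ih _ (by omega) _ (U.mapQ _ A hU) rfl
    have h5 : n = finrank L (V ⧸ U) + 2 := by omega
    have h6 := Nat.mul_le_mul_right e h2
    rw [h5]
    nlinarith
  · push Not at h1
    let R := LinearMap.range (A - 1)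
    have hR : Nontrivial R := by
      rw [Submodule.nontrivial_iff_ne_bot]
      intro h; exact h0 (LinearMap.range_eq_bot.mp h)
    let N : Module.End L R := (A - 1).restrict (p := R) (q := R) fun x _ => ⟨x, rfl⟩
    obtain ⟨μ, hμ⟩ := Module.End.exists_eigenvalue N
    obtain ⟨x, hx⟩ := hμ.exists_hasEigenvector
    have hx0 : (x : V) ≠ 0 := fun h => hx.2 (Subtype.ext h)
    have hx1 : (A - 1) x = μ • (x : V) := congrArg Subtype.val hx.apply_eq_smul
    have hμ0 : μ ≠ 0 := by
      rintro rfl
      obtain ⟨y, hy⟩ := x.2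
      exact h1 y (hy ▸ hx0) (by rw [hy, hx1, zero_smul])
    obtain ⟨m, r, rfl, h2, h3⟩ := eig x (1 + μ) hx0 (by
      rw [add_smul, one_smul, ← hx1]; simp)
    have hd : Disjoint (LinearMap.ker ((1 + μ) • B - 1)) (LinearMap.ker (B - 1)) := by
      rw [Submodule.disjoint_def]
      intro y hy1 hy2
      simp only [LinearMap.mem_ker, LinearMap.sub_apply, LinearMap.smul_apply, Module.End.one_apply,
        sub_eq_zero] at hy1 hy2
      rw [hy2, add_smul, one_smul, add_eq_left] at hy1
      exact (smul_eq_zero.mp hy1).resolve_left hμ0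
    have h4 := Submodule.finrank_add_finrank_le_of_disjoint hd
    have h6 := Nat.mul_le_mul_right e h2
    nlinarith

end core

section mat
variable {K : Type u} [Field K] {ι κ : Type} [Fintype ι] [DecidableEq ι] [Fintype κ] [DecidableEq κ]

theorem diag_form (M : Matrix ι ι K) : ∃ (P Q : Matrix ι ι K) (D : ι → K),
    IsUnit P.det ∧ IsUnit Q.det ∧ M = P * diagonal D * Q := by
  obtain ⟨L, L', D, h⟩ := Matrix.Pivot.exists_list_transvec_mul_diagonal_mul_list_transvec M
  exact ⟨_, _, D, by simp [TransvectionStruct.det_toMatrix_prod],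
    by simp [TransvectionStruct.det_toMatrix_prod], h⟩

theorem rank_map {L : Type u} [Field L] (f : K →+* L) (M : Matrix ι ι K) :
    (M.map f).rank = M.rank := by
  classical
  obtain ⟨P, Q, D, hP, hQ, rfl⟩ := diag_form M
  have hP' : IsUnit (P.map f).det := by
    have := hP.map f; rwa [RingHom.map_det] at this
  have hQ' : IsUnit (Q.map f).det := by
    have := hQ.map f; rwa [RingHom.map_det] at this
  rw [Matrix.map_mul, Matrix.map_mul, diagonal_map (map_zero f), rank_mul_eq_left_of_isUnit_det _ _ hQ',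
    rank_mul_eq_right_of_isUnit_det _ _ hP', rank_mul_eq_left_of_isUnit_det _ _ hQ,
    rank_mul_eq_right_of_isUnit_det _ _ hP, rank_diagonal, rank_diagonal]
  simp

theorem unit_kron {A : Matrix ι ι K} {B : Matrix κ κ K} (hA : IsUnit A.det) (hB : IsUnit B.det) :
    IsUnit (A ⊗ₖ B).det := by
  rw [det_kronecker]; exact (hA.pow _).mul (hB.pow _)

theorem rank_kron (A : Matrix ι ι K) (B : Matrix κ κ K) : (A ⊗ₖ B).rank = A.rank * B.rank := by
  classical
  obtain ⟨P, Q, D, hP, hQ, rfl⟩ := diag_form A
  obtain ⟨P', Q', D', hP', hQ', rfl⟩ := diag_form B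
  rw [mul_kronecker_mul, mul_kronecker_mul, rank_mul_eq_left_of_isUnit_det _ _ (unit_kron hQ hQ'),
    rank_mul_eq_right_of_isUnit_det _ _ (unit_kron hP hP'), rank_mul_eq_left_of_isUnit_det _ _ hQ,
    rank_mul_eq_right_of_isUnit_det _ _ hP, rank_mul_eq_left_of_isUnit_det _ _ hQ',
    rank_mul_eq_right_of_isUnit_det _ _ hP', diagonal_kronecker_diagonal, rank_diagonal,
    rank_diagonal, rank_diagonal, ← Fintype.card_prod]
  exact Fintype.card_congr ((Equiv.subtypeEquivRight fun p => mul_ne_zero_iff).trans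
    (Equiv.subtypeProdEquivProd (p := fun i => D i ≠ 0) (q := fun i => D' i ≠ 0)))

theorem rank_blocks (A : Matrix ι ι K) (B : Matrix κ κ K) :
    (fromBlocks A 0 0 B).rank = A.rank + B.rank := by
  classical
  obtain ⟨P, Q, D, hP, hQ, rfl⟩ := diag_form A
  obtain ⟨P', Q', D', hP', hQ', rfl⟩ := diag_form B
  have : fromBlocks (P * diagonal D * Q) 0 0 (P' * diagonal D' * Q') =
      fromBlocks P 0 0 P' * diagonal (Sum.elim D D') * fromBlocks Q 0 0 Q' := by
    simp [← fromBlocks_diagonal, fromBlocks_multiply]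
  rw [this, rank_mul_eq_left_of_isUnit_det _ _ (by simpa using ⟨hQ.ne_zero, hQ'.ne_zero⟩),
    rank_mul_eq_right_of_isUnit_det _ _ (by simpa using ⟨hP.ne_zero, hP'.ne_zero⟩),
    rank_mul_eq_left_of_isUnit_det _ _ hQ,
    rank_mul_eq_right_of_isUnit_det _ _ hP, rank_mul_eq_left_of_isUnit_det _ _ hQ',
    rank_mul_eq_right_of_isUnit_det _ _ hP', rank_diagonal, rank_diagonal, rank_diagonal,
    ← Fintype.card_sum]
  exact Fintype.card_congr (Equiv.subtypeSum (p := fun i => Sum.elim D D' i ≠ 0))

omit [DecidableEq ι] in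
theorem rank_add_le' (A B : Matrix ι ι K) : (A + B).rank ≤ A.rank + B.rank := by
  unfold Matrix.rank
  rw [mulVecLin_add]
  refine le_trans (Submodule.finrank_mono ?_) (Submodule.finrank_add_le_finrank_add_finrank _ _)
  rintro _ ⟨x, rfl⟩
  exact Submodule.add_mem_sup ⟨x, rfl⟩ ⟨x, rfl⟩

omit [DecidableEq ι] in
theorem rank_ker (A : Matrix ι ι K) :
    A.rank + finrank K (LinearMap.ker A.mulVecLin) = Fintype.card ι := by
  have := A.mulVecLin.finrank_range_add_finrank_ker
  simpa [Matrix.rank] using this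

/-- one amplification step -/
def St (A : Matrix ι ι K) (B : Matrix κ κ K) : Matrix ((ι × κ) ⊕ (ι × κ)) ((ι × κ) ⊕ (ι × κ)) K :=
  fromBlocks (A ⊗ₖ B) 0 0 ((1 : Matrix ι ι K) ⊗ₖ B)

theorem St_bound [IsAlgClosed K] (A : Matrix ι ι K) (B : Matrix κ κ K) (hB : IsUnit B.det) (e : ℕ)
    (he : ∀ c : K, Fintype.card κ ≤ 2 * (c • B - 1).rank + e) (c : K) :
    2 * Fintype.card ι * Fintype.card κ + (A - 1).rank * e ≤
      2 * (c • St A B - 1).rank + 2 * Fintype.card ι * e := by
  have hA := (A - 1).rank_le_card_width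
  by_cases hc : c = 0
  · subst hc
    have : ((0 : K) • St A B - 1).rank = 2 * Fintype.card ι * Fintype.card κ := by
      rw [zero_smul, zero_sub, rank_of_isUnit (-1 : Matrix ((ι × κ) ⊕ (ι × κ)) _ K) isUnit_one.neg]
      simp; ring
    rw [this]
    nlinarith [Nat.mul_le_mul_right e hA]
  have e1 : c • St A B - 1 = fromBlocks (A ⊗ₖ (c • B) - 1) 0 0 ((1 : Matrix ι ι K) ⊗ₖ (c • B - 1)) := by
    ext (i | i) (j | j) <;> simp [St, one_apply, Prod.ext_iff, mul_left_comm, mul_sub] <;>
      split_ifs <;> simp_all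
  rw [e1, rank_blocks, rank_kron, rank_one]
  have hinj : Function.Injective (c • B).mulVecLin := by
    apply mulVec_injective_of_det_mem_nonZeroDivisors
    rw [det_smul]
    exact mem_nonZeroDivisors_of_ne_zero (mul_ne_zero (pow_ne_zero _ hc) hB.ne_zero)
  have hk : ∀ M : Matrix κ κ K, M.mulVecLin - 1 = (M - 1).mulVecLin := fun M => by
    ext x i; simp
  have h1 := core (c • B).mulVecLin hinj e (fun a => by
    have h2 := he (a * c)
    have h3 := rank_ker ((a * c) • B - 1)
    have h4 : a • (c • B).mulVecLin - 1 = ((a * c) • B - 1).mulVecLin := by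
      rw [← hk, ← smul_smul]; congr 1; ext x i; simp
    rw [h4]
    simp only [finrank_fintype_fun_eq_card]
    omega) _ (ι → K) Aᵀ.mulVecLin rfl
  have h2 : Aᵀ.mulVecLin - 1 = (A - 1)ᵀ.mulVecLin := by
    ext x i; simp [transpose_sub]
  rw [h2, hk] at h1
  have h3 : finrank K (LinearMap.range (A - 1)ᵀ.mulVecLin) = (A - 1).rank := rank_transpose _
  rw [h3] at h1
  simp only [finrank_fintype_fun_eq_card] at h1
  have h4 := rank_ker (c • B - 1)
  have h5 := rank_ker (A ⊗ₖ (c • B) - 1)
  let g : (ι × κ → K) →ₗ[K] ((ι → K) →ₗ[K] (κ → K)) :=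
    { toFun := fun x => (Matrix.of fun j i => x (i, j)).mulVecLin
      map_add' := fun x y => by rw [← mulVecLin_add]; rfl
      map_smul' := fun a x => by ext y j; simp }
  have hg : Function.Injective g := by
    intro x y h
    funext p
    have := congrFun (LinearMap.congr_fun h (Pi.single p.1 1)) p.2
    simpa [g] using this
  have h6 : (LinearMap.ker (A ⊗ₖ (c • B) - 1).mulVecLin).map g ≤ FixS Aᵀ.mulVecLin (c • B).mulVecLin := by
    rintro _ ⟨x, hx, rfl⟩ v
    have hx' : (A ⊗ₖ (c • B)) *ᵥ vec (Matrix.of fun j i => x (i, j)) = vec (Matrix.of fun j i => x (i, j)) := by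
      have : (A ⊗ₖ (c • B) - 1) *ᵥ x = 0 := hx
      rw [sub_mulVec, one_mulVec, sub_eq_zero] at this
      exact this
    rw [kronecker_mulVec_vec, vec_inj] at hx'
    simp only [g, LinearMap.coe_mk, AddHom.coe_mk, mulVecLin_apply, mulVec_mulVec]
    rw [← Matrix.mul_assoc, hx']
  have h7 := Submodule.finrank_mono h6
  rw [← (Submodule.equivMapOfInjective g hg _).finrank_eq] at h7
  rw [Fintype.card_prod] at h5
  have h8 : Fintype.card ι * _ = Fintype.card ι * _ := congrArg (Fintype.card ι * ·) h4
  nlinarith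

end mat

end Pool.Agent.H33.Lsf
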