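import Mathlib

namespace Pool.Agent.H33.Lsf

universe u

/-- normalised rank distance on `GL(n, K)` -/
noncomputable def dRank {K : Type u} [Field K] {n : ℕ} (A B : GL (Fin n) K) : ℝ :=
  (((A : Matrix (Fin n) (Fin n) K) - (B : Matrix (Fin n) (Fin n) K)).rank : ℝ) / n

/-- `G` is `ε`-approximable by general linear groups over `K` with the rank distance -/
def Approx (K : Type u) [Field K] (G : Type) [Group G] (ε : ℝ) : Prop :=
  ∀ (F : Finset G) (δ : ℝ), 0 < δ → ∃ (n : ℕ) (φ : G → GL (Fin n) K),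
    (∀ g ∈ F, ∀ h ∈ F, dRank (φ g * φ h) (φ (g * h)) < δ) ∧
    ∀ g ∈ F, ∀ h ∈ F, g ≠ h → ε - δ < dRank (φ g) (φ h)

end Pool.Agent.H33.Lsf
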