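import Mathlib
import Pool.Agent.H33.Lsf1
import Pool.Agent.H33.LsfDefs

open Module Matrix
open scoped Kronecker

namespace Pool.Agent.H33.Lsf

universe u
variable {K : Type u} [Field K]

theorem amp (n k : ℕ) : ∃ (κ : Type) (_ : Fintype κ) (_ : DecidableEq κ)
    (P : Matrix (Fin n) (Fin n) K →* Matrix κ κ K), Fintype.card κ = (2 * n) ^ k ∧
    (∀ A B : Matrix (Fin n) (Fin n) K, (P A - P B).rank * n ≤ k * (2 * n) ^ k * (A - B).rank) ∧
    ∀ A : Matrix (Fin n) (Fin n) K, IsUnit A → ∀ c : AlgebraicClosure K,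
      (2 * n) ^ k ≤ 2 * (c • (P A).map (algebraMap K (AlgebraicClosure K)) - 1).rank +
        (2 * n - (A - 1).rank) ^ k := by
  induction k with
  | zero =>
    refine ⟨Unit, inferInstance, inferInstance, 1, by simp, fun A B => by simp, fun A _ c => by simp⟩
  | succ k ih =>
    obtain ⟨κ, _, _, P, h1, h2, h3⟩ := ih
    let P' : Matrix (Fin n) (Fin n) K →* Matrix ((Fin n × κ) ⊕ (Fin n × κ)) _ K :=
      { toFun := fun A => St A (P A)
        map_one' := by simp [St]
        map_mul' := fun A B => by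
          simp [St, fromBlocks_multiply, ← mul_kronecker_mul] }
    refine ⟨_, inferInstance, inferInstance, P', by simp [h1]; ring, fun A B => ?_, fun A hA c => ?_⟩
    · have e1 : P' A - P' B = fromBlocks ((A - B) ⊗ₖ P A + B ⊗ₖ (P A - P B)) 0 0
          ((1 : Matrix (Fin n) (Fin n) K) ⊗ₖ (P A - P B)) := by
        ext (i | i) (j | j) <;> simp [P', St, mul_sub, sub_mul]
      have a1 := rank_add_le' ((A - B) ⊗ₖ P A) (B ⊗ₖ (P A - P B))
      rw [rank_kron, rank_kron] at a1
      have a2 := (P A).rank_le_card_width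
      have a3 := B.rank_le_card_width
      rw [h1] at a2
      rw [Fintype.card_fin] at a3
      rw [e1, rank_blocks, rank_kron, rank_one, Fintype.card_fin]
      have a4 := h2 A B
      have a5 := Nat.mul_le_mul_left (A - B).rank a2
      have a6 := Nat.mul_le_mul_right (P A - P B).rank a3
      have a7 : ((A - B) ⊗ₖ P A + B ⊗ₖ (P A - P B)).rank ≤
        (A - B).rank * (2 * n) ^ k + n * (P A - P B).rank := by omega
      have a8 := Nat.mul_le_mul_right n a7
      have a9 := Nat.mul_le_mul_left n a4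
      rw [pow_succ]
      nlinarith [Nat.zero_le ((A - B).rank * (2 * n) ^ k * n)]
    · set f := algebraMap K (AlgebraicClosure K)
      have hu : IsUnit ((P A).map f).det := by
        have := ((isUnit_iff_isUnit_det _).mp (hA.map P)).map f
        rwa [RingHom.map_det] at this
      have b1 := St_bound (A.map f) ((P A).map f) hu _ (fun c => by rw [h1]; exact h3 A hA c) c
      have e1 : (P' A).map f = St (A.map f) ((P A).map f) := by
        ext (i | i) (j | j) <;> simp [P', St, one_apply]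
        split_ifs <;> simp
      have e2 : (A.map f - 1).rank = (A - 1).rank := by
        rw [← rank_map f (A - 1), Matrix.map_sub _ (map_sub f), Matrix.map_one _ (map_zero f) (map_one f)]
      rw [e2, h1, Fintype.card_fin] at b1
      have a3 := (A - 1).rank_le_card_width
      rw [Fintype.card_fin] at a3
      rw [e1, pow_succ, pow_succ]
      obtain ⟨t, ht⟩ := Nat.exists_eq_add_of_le (show (A - 1).rank ≤ 2 * n by omega)
      have e3 : 2 * n - (A - 1).rank = t := by omega
      rw [e3] at b1 ⊢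
      have : 2 * n * t ^ k = (A - 1).rank * t ^ k + t * t ^ k := by rw [ht]; ring
      nlinarith

theorem approx_half {G : Type} [Group G] (h : Approx K G (1 / 4)) : Approx K G (1 / 2) := by
  intro F δ hδ
  obtain ⟨k, hk⟩ := exists_pow_lt_of_lt_one hδ (show (15 / 16 : ℝ) < 1 by norm_num)
  have hk' : (15 / 16 : ℝ) ^ (k + 1) < δ := by
    rw [pow_succ]; nlinarith [pow_pos (show (0 : ℝ) < 15 / 16 by norm_num) k]
  obtain ⟨n, φ, h1, h2⟩ := h F (min (1 / 8) (δ / (k + 1))) (by positivity)
  obtain ⟨κ, _, _, P, c1, c2, c3⟩ := amp (K := K) n (k + 1)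
  let e := Fintype.equivFinOfCardEq c1
  let Q : Matrix (Fin n) (Fin n) K →* Matrix (Fin ((2 * n) ^ (k + 1))) _ K :=
    (reindexAlgEquiv K K e).toMonoidHom.comp P
  have hQ : ∀ A B, (Q A - Q B).rank = (P A - P B).rank := fun A B => by
    rw [← rank_reindex e e (P A - P B)]; rfl
  refine ⟨(2 * n) ^ (k + 1), fun g => Units.map Q (φ g), fun g hg g' hg' => ?_,
    fun g hg g' hg' hne => ?_⟩
  · have a1 := (h1 g hg g' hg').trans_le (min_le_right _ _)
    rw [← map_mul]
    simp only [dRank, Units.coe_map, hQ] at a1 ⊢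
    rcases Nat.eq_zero_or_pos n with rfl | hn
    · simpa using hδ
    have a2 := c2 (φ g * φ g' : GL (Fin n) K) (φ (g * g'))
    have hn' : (0 : ℝ) < n := by exact_mod_cast hn
    have hm : (0 : ℝ) < (((2 * n) ^ (k + 1) : ℕ) : ℝ) := by positivity
    rw [div_lt_iff₀ hm]
    rw [div_lt_div_iff₀ hn' (by positivity)] at a1
    have a3 : ((P (φ g * φ g' : GL (Fin n) K) - P (φ (g * g'))).rank : ℝ) * n ≤
        (k + 1) * (((2 * n) ^ (k + 1) : ℕ) : ℝ) *
          (((φ g * φ g' : GL (Fin n) K) : Matrix (Fin n) (Fin n) K) - (φ (g * g') : GL (Fin n) K)).rank := by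
      exact_mod_cast a2
    have a4 := mul_lt_mul_of_pos_left a1 hm
    refine lt_of_mul_lt_mul_right ?_ hn'.le
    nlinarith
  · have a1 := h2 g hg g' hg' hne
    have a0 := min_le_left (1 / 8 : ℝ) (δ / (k + 1))
    simp only [dRank, Units.coe_map, hQ] at a1 ⊢
    rcases Nat.eq_zero_or_pos n with rfl | hn
    · simp at a1; norm_num at a1
    have hn' : (0 : ℝ) < n := by exact_mod_cast hn
    have hm : (0 : ℝ) < (((2 * n) ^ (k + 1) : ℕ) : ℝ) := by positivity
    set A : Matrix (Fin n) (Fin n) K := Units.val ((φ g')⁻¹ * φ g) with hA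
    have e1 : ((φ g : Matrix (Fin n) (Fin n) K) - φ g').rank = (A - 1).rank := by
      rw [← rank_mul_eq_right_of_isUnit_det (φ g' : Matrix (Fin n) (Fin n) K) (A - 1)
        ((isUnit_iff_isUnit_det _).mp (φ g').isUnit), hA, Matrix.mul_sub, ← Units.val_mul,
        mul_inv_cancel_left, Matrix.mul_one]
    have e2 : (P (φ g) - P (φ g')).rank = (P A - 1).rank := by
      rw [← rank_mul_eq_right_of_isUnit_det (P (φ g')) (P A - 1)
        ((isUnit_iff_isUnit_det _).mp ((φ g').isUnit.map P)), hA, Matrix.mul_sub, ← map_mul,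
        ← Units.val_mul, mul_inv_cancel_left, Matrix.mul_one]
    have a2 := c3 A (Units.isUnit _) 1
    set f := algebraMap K (AlgebraicClosure K)
    have e3 : ((P A).map f - 1).rank = (P A - 1).rank := by
      rw [← rank_map f (P A - 1), Matrix.map_sub _ (map_sub f), Matrix.map_one _ (map_zero f) (map_one f)]
    rw [one_smul, e3] at a2
    rw [e1] at a1
    rw [e2, lt_div_iff₀ hm]
    have a3 := (A - 1).rank_le_card_width
    rw [Fintype.card_fin] at a3
    have a4 : (((2 * n) ^ (k + 1) : ℕ) : ℝ) ≤ 2 * (P A - 1).rank +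
        (2 * n - (A - 1).rank : ℝ) ^ (k + 1) := by
      have : ((2 * n - (A - 1).rank : ℕ) : ℝ) = 2 * n - (A - 1).rank := by
        rw [Nat.cast_sub (by omega)]; push_cast; ring
      rw [← this]
      exact_mod_cast a2
    have a5 : (2 * n - (A - 1).rank : ℝ) ≤ 15 / 16 * (2 * n) := by
      rw [lt_div_iff₀ hn'] at a1
      nlinarith
    have a6 : (0 : ℝ) ≤ 2 * n - (A - 1).rank := by
      have : ((A - 1).rank : ℝ) ≤ n := by exact_mod_cast a3
      linarith
    have a7 := pow_le_pow_left₀ a6 a5 (k + 1)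
    rw [mul_pow] at a7
    have a8 : ((2 * n : ℝ)) ^ (k + 1) = (((2 * n) ^ (k + 1) : ℕ) : ℝ) := by push_cast; ring
    rw [a8] at a7
    nlinarith

theorem approx_mono {G : Type} [Group G] {a b : ℝ} (hab : a ≤ b) (h : Approx K G b) :
    Approx K G a := by
  intro F δ hδ
  obtain ⟨n, φ, h1, h2⟩ := h F δ hδ
  exact ⟨n, φ, h1, fun g hg g' hg' hne => lt_of_le_of_lt (by linarith) (h2 g hg g' hg' hne)⟩

end Pool.Agent.H33.Lsf
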