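import Pool.Agent.H33.MixDefs

set_option autoImplicit false

namespace Pool.Agent.H33.Mix

open MvPolynomial ComplexOrder

/-- The coefficient matrix. -/
def Gz : Matrix (Fin 7) (Fin 7) ℤ :=
  !![0, 11, 10, 11, 10, 9, 10; 11, 0, 10, 10, 9, 11, 11; 10, 10, 0, 11, 11, 10, 9; 11, 10, 11, 0, 9, 9, 10; 10, 9, 11, 9, 0, 9, 9; 9, 11, 10, 9, 9, 0, 9; 10, 11, 9, 10, 9, 9, 0]

/-- The bilinear form. -/
def B (x y : Fin 7 → ℝ) : ℝ := ∑ k, ∑ l, (Gz k l : ℝ) * x k * y l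

/-- The polynomial. -/
noncomputable def f : MvPolynomial (Fin 7) ℝ := ∑ k, ∑ l, C (Gz k l : ℝ) * X k * X l

lemma Gz_nonneg : ∀ k l, 0 ≤ Gz k l := by decide
lemma Gz_symm : ∀ k l, Gz k l = Gz l k := by decide
lemma Gz_diag : ∀ k, Gz k k = 0 := by decide

lemma B_le (w : Fin 7 → ℝ) : B w w ≤ 9 * (∑ k, w k) ^ 2 := by
  have e : B w w = 9 * (∑ k, w k) ^ 2 - (2 * (w 0 - w 1) ^ 2 + 1 * (w 0 - w 2) ^ 2 + 2 * (w 0 - w 3) ^ 2 + 1 * (w 0 - w 4) ^ 2 + 1 * (w 0 - w 6) ^ 2 + 1 * (w 1 - w 2) ^ 2 + 1 * (w 1 - w 3) ^ 2 + 2 * (w 1 - w 5) ^ 2 + 2 * (w 1 - w 6) ^ 2 + 2 * (w 2 - w 3) ^ 2 + 2 * (w 2 - w 4) ^ 2 + 1 * (w 2 - w 5) ^ 2 + 1 * (w 3 - w 6) ^ 2 + 2 * w 0 ^ 2 + 1 * w 1 ^ 2 + 2 * w 2 ^ 2 + 3 * w 3 ^ 2 + 6 * w 4 ^ 2 + 6 * w 5 ^ 2 + 5 * w 6 ^ 2) := by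
    simp [B, Fin.sum_univ_succ, Gz]
    ring
  rw [e]
  have : 0 ≤ 2 * (w 0 - w 1) ^ 2 + 1 * (w 0 - w 2) ^ 2 + 2 * (w 0 - w 3) ^ 2 + 1 * (w 0 - w 4) ^ 2 + 1 * (w 0 - w 6) ^ 2 + 1 * (w 1 - w 2) ^ 2 + 1 * (w 1 - w 3) ^ 2 + 2 * (w 1 - w 5) ^ 2 + 2 * (w 1 - w 6) ^ 2 + 2 * (w 2 - w 3) ^ 2 + 2 * (w 2 - w 4) ^ 2 + 1 * (w 2 - w 5) ^ 2 + 1 * (w 3 - w 6) ^ 2 + 2 * w 0 ^ 2 + 1 * w 1 ^ 2 + 2 * w 2 ^ 2 + 3 * w 3 ^ 2 + 6 * w 4 ^ 2 + 6 * w 5 ^ 2 + 5 * w 6 ^ 2 := by positivity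
  linarith

lemma B_pos (y : Fin 7 → ℝ) (hy : ∀ k, 0 < y k) : 0 < B y y := by
  refine Finset.sum_pos' (fun k _ => Finset.sum_nonneg fun l _ => ?_) ⟨0, Finset.mem_univ _,
    Finset.sum_pos' (fun l _ => ?_) ⟨1, Finset.mem_univ _, ?_⟩⟩
  · have : (0 : ℝ) ≤ Gz k l := by exact_mod_cast Gz_nonneg k l
    have := hy k; have := hy l; positivity
  · have : (0 : ℝ) ≤ Gz 0 l := by exact_mod_cast Gz_nonneg 0 l
    have := hy 0; have := hy l; positivity
  · have : (0 : ℝ) < Gz 0 1 := by exact_mod_cast (by decide : 0 < Gz 0 1)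
    have := hy 0; have := hy 1; positivity

lemma B_comb (x y : Fin 7 → ℝ) (s t : ℝ) :
    B (fun k => s * x k - t * y k) (fun k => s * x k - t * y k)
      = s ^ 2 * B x x - s * t * (B x y + B y x) + t ^ 2 * B y y := by
  simp only [B, Finset.mul_sum, mul_add, ← Finset.sum_add_distrib, ← Finset.sum_sub_distrib]
  refine Finset.sum_congr rfl fun k _ => Finset.sum_congr rfl fun l _ => by ring

lemma aeval_f (z : Fin 7 → ℂ) : aeval z f = ∑ k, ∑ l, (Gz k l : ℂ) * z k * z l := by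
  simp [f]

lemma stable : IsRealStable f := by
  have key : ∀ z : Fin 7 → ℂ, (∀ k, 0 < (z k).im) → aeval z f ≠ 0 := by
    intro z hz h
    rw [aeval_f] at h
    set x : Fin 7 → ℝ := fun k => (z k).re with hx
    set y : Fin 7 → ℝ := fun k => (z k).im with hy
    have hre : B x x - B y y = 0 := by
      have := congrArg Complex.re h
      simp only [Complex.re_sum, Complex.zero_re] at this
      rw [← this]
      simp only [B, ← Finset.sum_sub_distrib]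
      refine Finset.sum_congr rfl fun k _ => Finset.sum_congr rfl fun l _ => ?_
      simp [hx, hy]
    have him : B x y + B y x = 0 := by
      have := congrArg Complex.im h
      simp only [Complex.im_sum, Complex.zero_im] at this
      rw [← this]
      simp only [B, ← Finset.sum_add_distrib]
      refine Finset.sum_congr rfl fun k _ => Finset.sum_congr rfl fun l _ => ?_
      simp [hx, hy]
    have hp := B_pos y hz
    have hs : 0 < ∑ k, y k := Finset.sum_pos (fun k _ => hz k) Finset.univ_nonempty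
    have h1 := B_le (fun k => (∑ k, y k) * x k - (∑ k, x k) * y k)
    rw [B_comb, him, Finset.sum_sub_distrib, ← Finset.mul_sum, ← Finset.mul_sum] at h1
    have h2 : B x x = B y y := by linarith
    rw [h2] at h1
    nlinarith [sq_nonneg (∑ k, x k), mul_pos (pow_pos hs 2) hp,
      mul_nonneg (sq_nonneg (∑ k, x k)) hp.le]
  refine ⟨fun h => key (fun _ => Complex.I) (by simp) (by rw [h, map_zero]), key⟩

lemma homog : f.IsHomogeneous 2 := by
  refine IsHomogeneous.sum _ _ _ fun k _ => IsHomogeneous.sum _ _ _ fun l _ => ?_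
  exact ((isHomogeneous_C _ _).mul (isHomogeneous_X _ _)).mul (isHomogeneous_X _ _)

lemma coeff_nonneg (d : Fin 7 →₀ ℕ) : 0 ≤ coeff d f := by
  simp only [f, coeff_sum]
  refine Finset.sum_nonneg fun k _ => Finset.sum_nonneg fun l _ => ?_
  have : (0 : ℝ) ≤ Gz k l := by exact_mod_cast Gz_nonneg k l
  rw [X, X, C_mul_monomial, monomial_mul, coeff_monomial]
  split_ifs
  · simpa using this
  · exact le_rfl

lemma mixedDet_two {R : Type} [CommRing R] {m : ℕ} (L : Fin m → Matrix (Fin 2) (Fin 2) R) :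
    mixedDet L = (∑ p, L p 0 0) * (∑ q, L q 1 1) - ∑ p, L p 0 1 * L p 1 0 := by
  have key : ∀ φ : Fin 2 → Fin m, ∏ j : Fin m, ((L j).toSquareBlock φ j).det =
      L (φ 0) 0 0 * L (φ 1) 1 1 - if φ 0 = φ 1 then L (φ 0) 0 1 * L (φ 0) 1 0 else 0 := by
    intro φ
    let M : Matrix (Fin 2) (Fin 2) R := Matrix.of fun i i' => if φ i = φ i' then L (φ i) i i' else 0
    have hb : M.BlockTriangular φ := fun i i' h => by simp [M, h.ne']
    have h1 := hb.det_fintype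
    have h2 : ∀ j, M.toSquareBlock φ j = (L j).toSquareBlock φ j := by
      intro j
      ext ⟨a, ha⟩ ⟨b, hb⟩
      simp [M, Matrix.toSquareBlock_def, ha, hb]
    simp only [h2] at h1
    rw [← h1, Matrix.det_fin_two]
    by_cases e : φ 0 = φ 1
    · simp [M, e]
    · simp [M, e, Ne.symm e]
  unfold mixedDet
  simp only [key]
  rw [← (finTwoArrowEquiv (Fin m)).symm.sum_comp, Fintype.sum_prod_type]
  simp [Finset.sum_sub_distrib, Finset.sum_mul_sum]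

lemma minors3 : ∀ a b c d e g : Fin 7, a < b → b < c → d < e → e < g → a ≠ d → a ≠ e → a ≠ g →
    b ≠ d → b ≠ e → b ≠ g → c ≠ d → c ≠ e → c ≠ g →
    Gz a d * (Gz b e * Gz c g - Gz b g * Gz c e) - Gz a e * (Gz b d * Gz c g - Gz b g * Gz c d)
      + Gz a g * (Gz b d * Gz c e - Gz b e * Gz c d) ≠ 0 := by
  decide +kernel

lemma minors5 : ∀ a b : Fin 7, a < b → ∀ c, b < c → ∀ d, c < d → ∀ e, d < e →
    (Gz.submatrix ![a, b, c, d, e] ![a, b, c, d, e]).det ≠ 0 := by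
  decide +kernel

/-- Five points with one label. -/
def five (c : Fin 7 → ℕ) : Prop := ∃ a b : Fin 7, a < b ∧ c a = c b ∧ ∃ d, b < d ∧ c a = c d ∧
  ∃ e, d < e ∧ c a = c e ∧ ∃ g, e < g ∧ c a = c g

/-- Two triples with no common label. -/
def three (c : Fin 7 → ℕ) : Prop := ∃ a d : Fin 7, c a ≠ c d ∧ ∃ b, a < b ∧ c b ≠ c d ∧
  ∃ e, d < e ∧ c a ≠ c e ∧ c b ≠ c e ∧ ∃ h, b < h ∧ c h ≠ c d ∧ c h ≠ c e ∧
  ∃ g, e < g ∧ c a ≠ c g ∧ c b ≠ c g ∧ c h ≠ c g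

instance (c : Fin 7 → ℕ) : Decidable (five c) := by unfold five; infer_instance
instance (c : Fin 7 → ℕ) : Decidable (three c) := by unfold three; infer_instance

lemma comb : ∀ (c1 : Fin 2) (c2 : Fin 3) (c3 : Fin 4) (c4 : Fin 5) (c5 : Fin 6) (c6 : Fin 7),
    three ![0, c1.val, c2.val, c3.val, c4.val, c5.val, c6.val] ∨
      five ![0, c1.val, c2.val, c3.val, c4.val, c5.val, c6.val] := by
  decide +kernel

end Pool.Agent.H33.Mix
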