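import Pool.Agent.H33.Mix1

set_option autoImplicit false

namespace Pool.Agent.H33.Mix

open MvPolynomial ComplexOrder

lemma label {β : Type} (cls : Fin 7 → β) :
    ∃ c : Fin 7 → ℕ, (∀ k l, c k = c l ↔ cls k = cls l) ∧ (three c ∨ five c) := by
  classical
  have hex : ∀ k : Fin 7, ∃ n : ℕ, ∃ h : n < 7, cls ⟨n, h⟩ = cls k := fun k => ⟨k.val, k.2, rfl⟩
  refine ⟨fun k => Nat.find (hex k), fun k l => ⟨fun h => ?_, fun h => ?_⟩, ?_⟩
  · obtain ⟨h1, e1⟩ := Nat.find_spec (hex k)
    obtain ⟨h2, e2⟩ := Nat.find_spec (hex l)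
    rw [← e1, ← e2]
    congr 1
    exact Fin.ext h
  · simp only [h]
  · have hle : ∀ k : Fin 7, Nat.find (hex k) < k.val + 1 := fun k =>
      Nat.lt_succ_of_le (Nat.find_min' (hex k) ⟨k.2, rfl⟩)
    have := comb ⟨_, hle 1⟩ ⟨_, hle 2⟩ ⟨_, hle 3⟩ ⟨_, hle 4⟩ ⟨_, hle 5⟩ ⟨_, hle 6⟩
    have h0 : Nat.find (hex 0) = 0 := Nat.lt_one_iff.mp (hle 0)
    have e : (fun k => Nat.find (hex k)) = ![0, Nat.find (hex 1), Nat.find (hex 2),
        Nat.find (hex 3), Nat.find (hex 4), Nat.find (hex 5), Nat.find (hex 6)] := by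
      funext k
      fin_cases k
      · exact h0
      all_goals rfl
    rw [e]
    exact this

lemma real_core {β : Type} (cls : Fin 7 → β) (a b p q : Fin 7 → ℝ)
    (h1 : ∀ k l, cls k = cls l →
      2 * (Gz k l : ℝ) = a k * b l + a l * b k - 2 * (p k * p l + q k * q l))
    (h2 : ∀ k l, cls k ≠ cls l → 2 * (Gz k l : ℝ) = a k * b l + a l * b k) : False := by
  obtain ⟨c, hc, h | h⟩ := label cls
  · obtain ⟨i, d, n1, j, hij, n2, e, hde, n3, n4, k, hjk, n5, n6, g, heg, n7, n8, n9⟩ := h
    have ne : ∀ {u v : Fin 7}, c u ≠ c v → u ≠ v := fun h e => h (by rw [e])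
    have v : ∀ {u v : Fin 7}, c u ≠ c v → (Gz u v : ℝ) = (a u * b v + a v * b u) / 2 := fun h => by
      have := h2 _ _ (fun e => h ((hc _ _).mpr e))
      linarith
    apply minors3 i j k d e g hij hjk hde heg (ne n1) (ne n3) (ne n7) (ne n2) (ne n4) (ne n8)
      (ne n5) (ne n6) (ne n9)
    have : ((Gz i d * (Gz j e * Gz k g - Gz j g * Gz k e)
        - Gz i e * (Gz j d * Gz k g - Gz j g * Gz k d)
        + Gz i g * (Gz j d * Gz k e - Gz j e * Gz k d) : ℤ) : ℝ) = 0 := by
      push_cast
      rw [v n1, v n2, v n3, v n4, v n5, v n6, v n7, v n8, v n9]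
      ring
    exact_mod_cast this
  · obtain ⟨i, j, hij, e1, k, hjk, e2, l, hkl, e3, n, hln, e4⟩ := h
    apply minors5 i j hij k hjk l hkl n hln
    set s : Fin 5 → Fin 7 := ![i, j, k, l, n] with hs
    have hcl : ∀ u, cls (s u) = cls i := by
      intro u
      fin_cases u
      · rfl
      · exact ((hc _ _).mp e1).symm
      · exact ((hc _ _).mp e2).symm
      · exact ((hc _ _).mp e3).symm
      · exact ((hc _ _).mp e4).symm
    let U : Matrix (Fin 5) (Fin 5) ℝ := Matrix.of fun u => ![a (s u), b (s u), p (s u), q (s u), 0]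
    let V : Matrix (Fin 5) (Fin 5) ℝ :=
      Matrix.of fun w v => ![b (s v) / 2, a (s v) / 2, -p (s v), -q (s v), 0] w
    have hUV : (Int.castRingHom ℝ).mapMatrix (Gz.submatrix s s) = U * V := by
      ext u v
      have := h1 (s u) (s v) ((hcl u).trans (hcl v).symm)
      simp [U, V, Matrix.mul_apply, Fin.sum_univ_succ]
      linarith
    have hU : U.det = 0 := Matrix.det_eq_zero_of_column_eq_zero 4 fun u => rfl
    have h3 := (Int.castRingHom ℝ).map_det (Gz.submatrix s s)
    rw [hUV, Matrix.det_mul, hU, zero_mul, eq_intCast] at h3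
    exact_mod_cast h3

lemma not_rep (m : ℕ) (A : Fin m → Fin 7 → Matrix (Fin 2) (Fin 2) ℂ)
    (hA : ∀ j k, (A j k).PosSemidef) :
    map (algebraMap ℝ ℂ) f ≠ mixedDet (fun j => pencil (A j)) := by
  classical
  intro h
  rw [mixedDet_two] at h
  have hev : ∀ z : Fin 7 → ℂ, ∑ k, ∑ l, (Gz k l : ℂ) * z k * z l =
      (∑ j, ∑ k, A j k 0 0 * z k) * (∑ j, ∑ k, A j k 1 1 * z k)
        - ∑ j, (∑ k, A j k 0 1 * z k) * (∑ k, A j k 1 0 * z k) := by
    intro z
    have := congrArg (eval z) h
    rw [← aeval_f]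
    simpa [pencil, eval_map, aeval_def] using this
  have hconj : ∀ j k, A j k 1 0 = star (A j k 0 1) := fun j k =>
    ((hA j k).isHermitian.apply 1 0).symm
  have ha : ∀ j k, 0 ≤ A j k 0 0 := fun j k => (hA j k).diag_nonneg
  have hb : ∀ j k, 0 ≤ A j k 1 1 := fun j k => (hA j k).diag_nonneg
  set α : Fin m → Fin 7 → ℝ := fun j k => (A j k 0 0).re with hα
  set β : Fin m → Fin 7 → ℝ := fun j k => (A j k 1 1).re with hβ
  set P : Fin m → Fin 7 → ℝ := fun j k => (A j k 0 1).re with hP
  set Q : Fin m → Fin 7 → ℝ := fun j k => (A j k 0 1).im with hQ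
  have eα : ∀ j k, A j k 0 0 = (α j k : ℂ) := fun j k =>
    Complex.ext rfl (by simpa using (Complex.nonneg_iff.mp (ha j k)).2.symm)
  have eβ : ∀ j k, A j k 1 1 = (β j k : ℂ) := fun j k =>
    Complex.ext rfl (by simpa using (Complex.nonneg_iff.mp (hb j k)).2.symm)
  have α0 : ∀ j k, 0 ≤ α j k := fun j k => (Complex.nonneg_iff.mp (ha j k)).1
  have β0 : ∀ j k, 0 ≤ β j k := fun j k => (Complex.nonneg_iff.mp (hb j k)).1
  have hdet : ∀ j k, P j k ^ 2 + Q j k ^ 2 ≤ α j k * β j k := by
    intro j k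
    have := (Complex.nonneg_iff.mp (hA j k).det_nonneg).1
    rw [Matrix.det_fin_two, hconj, eα, eβ] at this
    simp at this
    simp only [hP, hQ]
    nlinarith
  have hpair : ∀ k l, 2 * (Gz k l : ℝ) = (∑ j, α j k) * (∑ j, β j l) + (∑ j, α j l) * (∑ j, β j k)
      - 2 * ∑ j, (P j k * P j l + Q j k * Q j l) := by
    intro k l
    have e1 := congrArg Complex.re (hev (Pi.single k 1 + Pi.single l 1))
    have e2 := congrArg Complex.re (hev (Pi.single k 1))
    have e3 := congrArg Complex.re (hev (Pi.single l 1))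
    simp only [Pi.add_apply, mul_add, add_mul, Finset.sum_add_distrib, Pi.single_apply, mul_ite,
      mul_one, mul_zero, ite_mul, zero_mul, Finset.sum_ite_eq', Finset.mem_univ, if_true, hconj,
      eα, eβ] at e1 e2 e3
    simp only [← Complex.ofReal_sum, ← Complex.ofReal_mul, Complex.add_re, Complex.sub_re,
      Complex.ofReal_re, Complex.re_sum, Complex.intCast_re, Complex.mul_re, Complex.star_def,
      Complex.conj_re, Complex.conj_im, mul_neg, sub_neg_eq_add] at e1 e2 e3
    have e4 : (Gz l k : ℝ) = Gz k l := by exact_mod_cast Gz_symm l k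
    have e5 : ∑ j, ((A j l 0 1).re * (A j k 0 1).re + (A j l 0 1).im * (A j k 0 1).im)
        = ∑ j, (P j k * P j l + Q j k * Q j l) :=
      Finset.sum_congr rfl fun j _ => by simp only [hP, hQ]; ring
    have e6 : ∑ j, ((A j k 0 1).re * (A j l 0 1).re + (A j k 0 1).im * (A j l 0 1).im)
        = ∑ j, (P j k * P j l + Q j k * Q j l) := rfl
    linarith
  have huniq : ∀ k i j, i ≠ j → P i k ^ 2 + Q i k ^ 2 ≠ 0 → P j k = 0 ∧ Q j k = 0 := by
    intro k i j hij hi
    have e := hpair k k
    rw [Gz_diag] at e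
    have h1 : ∑ j, (P j k * P j k + Q j k * Q j k) ≤ ∑ j, α j k * β j k :=
      Finset.sum_le_sum fun j _ => by have := hdet j k; nlinarith
    have h2 : (∑ j, α j k * β j k) + α i k * β j k ≤ (∑ j, α j k) * (∑ j, β j k) := by
      rw [Finset.sum_mul_sum]
      have h3 : ∀ u, α u k * β u k + (if u = i then α i k * β j k else 0) ≤ ∑ v, α u k * β v k := by
        intro u
        split_ifs with hu
        · subst hu
          rw [← Finset.sum_pair (f := fun v => α u k * β v k) hij]
          exact Finset.sum_le_sum_of_subset_of_nonneg (Finset.subset_univ _)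
            fun v _ _ => mul_nonneg (α0 _ _) (β0 _ _)
        · rw [add_zero]
          exact Finset.single_le_sum (f := fun v => α u k * β v k)
            (fun v _ => mul_nonneg (α0 _ _) (β0 _ _)) (Finset.mem_univ u)
      have h4 := Finset.sum_le_sum fun u (_ : u ∈ Finset.univ) => h3 u
      rw [Finset.sum_add_distrib, Finset.sum_ite_eq'] at h4
      simpa using h4
    have h5 : α i k * β j k ≤ 0 := by push_cast at e; linarith
    have h6 : 0 < α i k * β i k := lt_of_lt_of_le
      (lt_of_le_of_ne (by positivity) (Ne.symm hi)) (hdet i k)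
    have h7 : 0 < α i k := lt_of_le_of_ne (α0 i k) fun e' => by rw [← e'] at h6; simp at h6
    have h8 : β j k = 0 := le_antisymm (by
      by_contra hc
      push Not at hc
      have := mul_pos h7 hc
      linarith) (β0 j k)
    have h9 := hdet j k
    rw [h8, mul_zero] at h9
    constructor <;> nlinarith [sq_nonneg (P j k), sq_nonneg (Q j k)]
  have hcls : ∀ k, ∃ o : Option (Fin m), ∀ j, o ≠ some j → P j k = 0 ∧ Q j k = 0 := by
    intro k
    by_cases hk : ∃ i, P i k ^ 2 + Q i k ^ 2 ≠ 0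
    · obtain ⟨i, hi⟩ := hk
      exact ⟨some i, fun j hj => huniq k i j (fun e => hj (by rw [e])) hi⟩
    · push Not at hk
      refine ⟨none, fun j _ => ?_⟩
      have := hk j
      constructor <;> nlinarith [sq_nonneg (P j k), sq_nonneg (Q j k)]
  choose cls hcls using hcls
  refine real_core cls (fun k => ∑ j, α j k) (fun k => ∑ j, β j k) (fun k => ∑ j, P j k)
    (fun k => ∑ j, Q j k) (fun k l hkl => ?_) (fun k l hkl => ?_)
  · rw [hpair k l]
    congr 2
    rcases ho : cls k with _ | i
    · have z : ∀ j, P j k = 0 ∧ Q j k = 0 := fun j => hcls k j (by simp [ho])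
      simp [fun j => (z j).1, fun j => (z j).2]
    · have z : ∀ j, j ≠ i → P j k = 0 ∧ Q j k = 0 := fun j hj =>
        hcls k j (by simpa [ho] using hj.symm)
      have z' : ∀ j, j ≠ i → P j l = 0 ∧ Q j l = 0 := fun j hj =>
        hcls l j (by simpa [← hkl, ho] using hj.symm)
      rw [Finset.sum_eq_single i (fun j _ hj => by simp [(z j hj).1, (z j hj).2]) (by simp),
        Finset.sum_eq_single i (fun j _ hj => (z j hj).1) (by simp),
        Finset.sum_eq_single i (fun j _ hj => (z' j hj).1) (by simp),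
        Finset.sum_eq_single i (fun j _ hj => (z j hj).2) (by simp),
        Finset.sum_eq_single i (fun j _ hj => (z' j hj).2) (by simp)]
  · rw [hpair k l, Finset.sum_eq_zero (s := Finset.univ)
      (f := fun j => P j k * P j l + Q j k * Q j l)]
    · simp
    · intro j _
      by_cases e : cls k = some j
      · have := hcls l j (fun e' => hkl (e.trans e'.symm))
        simp [this.1, this.2]
      · have := hcls k j e
        simp [this.1, this.2]

end Pool.Agent.H33.Mix
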