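import Mathlib

set_option autoImplicit false

namespace Pool.Agent.H33.Mix

open MvPolynomial

/-- The mixed determinant: ordered partitions `(S_1, ..., S_m)` of the index set correspond to maps
`φ` with `S_j = {i | φ i = j}`, and `toSquareBlock φ j` is the principal submatrix on `S_j`. -/
noncomputable def mixedDet {R : Type} [CommRing R] {n m : ℕ}
    (L : Fin m → Matrix (Fin n) (Fin n) R) : R :=
  ∑ φ : Fin n → Fin m, ∏ j : Fin m, ((L j).toSquareBlock φ j).det

/-- The matrix polynomial `∑ k, A k * z k`. -/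
noncomputable def pencil {n l : ℕ} (A : Fin l → Matrix (Fin n) (Fin n) ℂ) :
    Matrix (Fin n) (Fin n) (MvPolynomial (Fin l) ℂ) :=
  Matrix.of fun i i' => ∑ k : Fin l, C (A k i i') * X k

/-- Real stability. -/
def IsRealStable {l : ℕ} (f : MvPolynomial (Fin l) ℝ) : Prop :=
  f ≠ 0 ∧ ∀ z : Fin l → ℂ, (∀ k, 0 < (z k).im) → aeval z f ≠ 0

end Pool.Agent.H33.Mix
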