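import Mathlib

namespace Pool.Agent.H33.Myc

open Set Submodule Cardinal Filter Topology TopologicalSpace

abbrev K := ℕ → Bool

def res (L : ℕ) (t : K) : Fin L → Bool := fun i => t i

def ex (L : ℕ) (s : Fin L → Bool) : K := fun i => if h : i < L then s ⟨i, h⟩ else false

lemma approx {X : Type} [MetricSpace X] (γ : C(K, X)) {ε : ℝ} (hε : 0 < ε) (L : ℕ) :
    ∃ M, L ≤ M ∧ ∀ v : (Fin M → Bool) → X, (∀ s, dist (v s) (γ (ex M s)) < ε / 4) →
      ∃ δ : C(K, X), dist γ δ < ε ∧ ∀ t, δ t = v (res M t) := by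
  have h : ∀ᶠ M in atTop, ∀ t ∈ (univ : Set K), dist (γ (ex M (res M t))) (γ t) < ε / 4 := by
    let m : MetricSpace K := PiNat.metricSpace (E := fun _ => Bool)
    obtain ⟨d, hd, h⟩ := Metric.uniformContinuous_iff.mp
      (@CompactSpace.uniformContinuous_of_continuous K X m.toUniformSpace _
        (inferInstanceAs (CompactSpace K)) γ γ.continuous) (ε / 4) (by positivity)
    filter_upwards [(tendsto_pow_atTop_nhds_zero_of_lt_one (r := (1 / 2 : ℝ)) (by norm_num)
      (by norm_num)).eventually (gt_mem_nhds hd)] with M hM t _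
    refine h (lt_of_le_of_lt ?_ hM)
    refine PiNat.mem_cylinder_iff_dist_le.mp (PiNat.mem_cylinder_iff.mpr fun i hi => ?_)
    simp [ex, res, hi]
  obtain ⟨M, h1, h2⟩ := ((eventually_ge_atTop L).and h).exists
  refine ⟨M, h1, fun v hv => ⟨⟨fun t => v (res M t), continuous_of_discreteTopology.comp
    (continuous_pi fun i => continuous_apply _)⟩, ?_, fun _ => rfl⟩⟩
  refine lt_of_le_of_lt ((ContinuousMap.dist_le (C := ε / 2) (by positivity)).mpr fun t => ?_)
    (by linarith)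
  have := dist_triangle_left (γ t) (v (res M t)) (γ (ex M (res M t)))
  have := h2 t trivial
  have := hv (res M t)
  rw [dist_comm] at this
  show dist (γ t) (v (res M t)) ≤ _
  linarith

lemma indep {V ι : Type} [AddCommGroup V] [Module ℂ V] [LinearOrder ι] (v : ι → V)
    (h : ∀ i, v i ∉ span ℂ (v '' Iio i)) : LinearIndependent ℂ v := by
  classical
  refine linearIndependent_iff'.2 fun s g hs i hi => by_contra fun h0 => ?_
  obtain ⟨m, hm, hm'⟩ := (s.filter (g · ≠ 0)).exists_max_image id ⟨i, by simp [hi, h0]⟩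
  rw [Finset.mem_filter] at hm
  rw [← Finset.add_sum_erase _ _ hm.1, add_eq_zero_iff_eq_neg] at hs
  refine h m ((smul_mem_iff _ hm.2).1 (hs ▸ neg_mem (sum_mem fun j hj => ?_)))
  rw [Finset.mem_erase] at hj
  by_cases h1 : g j = 0
  · simp [h1]
  · exact smul_mem _ _ (subset_span ⟨j, lt_of_le_of_ne (hm' j (by simp [hj.2, h1])) hj.1, rfl⟩)

lemma mq {X : Type} [AddCommGroup X] [Module ℂ X] (Y : Submodule ℂ X) (V : Set X) (x : X) :
    Y.mkQ x ∈ span ℂ (Y.mkQ '' V) ↔ x ∈ Y ⊔ span ℂ V := by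
  rw [← map_span, ← Submodule.mem_comap, comap_map_mkQ]

variable {X : Type} [MetricSpace X] [AddCommGroup X] [Module ℂ X] [ContinuousAdd X]
  [ContinuousSMul ℂ X]

lemma pick (Y : Submodule ℂ X) (hY : ∀ s : Set X, s.Finite → Y ⊔ span ℂ s ≠ ⊤) {ι : Type}
    [Finite ι] (U : ι → Set X) (hU : ∀ i, IsOpen (U i) ∧ (U i).Nonempty) :
    ∃ v : ι → X, (∀ i, v i ∈ U i) ∧ LinearIndependent ℂ (Y.mkQ ∘ v) := by
  classical
  have : ∀ s : Set ι, s.Finite → ∃ v : ι → X, (∀ i, v i ∈ U i) ∧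
      LinearIndepOn ℂ (Y.mkQ ∘ v) s := by
    intro s hs
    induction s, hs using Set.Finite.induction_on with
    | empty => exact ⟨fun i => (hU i).2.some, fun i => (hU i).2.some_mem, linearIndepOn_empty _ _⟩
    | @insert a s ha hs ih =>
      obtain ⟨v, h1, h2⟩ := ih
      obtain ⟨x, hx, hn⟩ : ∃ x ∈ U a, x ∉ Y ⊔ span ℂ (v '' s) := by
        by_contra hc
        push Not at hc
        exact hY _ (hs.image v) (eq_top_of_nonempty_interior' _
          ((hU a).2.mono (interior_maximal hc (hU a).1)))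
      have e : EqOn (Y.mkQ ∘ Function.update v a x) (Y.mkQ ∘ v) s := fun i hi => by
        simp only [Function.comp]
        rw [Function.update_of_ne (ne_of_mem_of_not_mem hi ha)]
      refine ⟨Function.update v a x, fun i => ?_, (linearIndepOn_insert ha).mpr
        ⟨h2.congr e.symm, ?_⟩⟩
      · rcases eq_or_ne i a with rfl | h
        · simpa
        · simpa [h] using h1 i
      · rw [image_congr e, image_comp, Function.comp, Function.update_self, mq]
        exact hn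
  obtain ⟨v, h1, h2⟩ := this univ finite_univ
  exact ⟨v, h1, linearIndepOn_univ_iff.mp h2⟩

variable [CompleteSpace X] {ι : Type} [Countable ι] (Y : ι → Submodule ℂ X)
  (hY : ∀ n, ∀ s : Set X, s.Finite → Y n ⊔ span ℂ s ≠ ⊤) (C : ι → ℕ → Set X)
  (hC : ∀ n m, IsClosed (C n m)) (hYC : ∀ n, (Y n : Set X) = ⋃ m, C n m)
include hY hC hYC

lemma myc (W : Set X) (hW : IsOpen W) (hW' : W.Nonempty) (O : ℕ → Set X)
    (hO : ∀ k, IsOpen (O k) ∧ Dense (O k)) :
    ∃ γ : K → X, (∀ t, γ t ∈ W ∩ ⋂ k, O k) ∧ ∀ n, LinearIndependent ℂ ((Y n).mkQ ∘ γ) := by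
  have op : ∀ U : Set X, IsOpen U → IsOpen {γ : C(K, X) | ∀ t, γ t ∈ U} := fun U hU => by
    simpa [MapsTo] using ContinuousMap.isOpen_setOf_mapsTo (X := K) isCompact_univ hU
  have d1 : ∀ k, Dense {γ : C(K, X) | ∀ t, γ t ∈ O k} := fun k => by
    refine Metric.dense_iff.mpr fun γ ε hε => ?_
    obtain ⟨M, -, h⟩ := approx γ hε 0
    choose v hv hv' using fun s => Metric.dense_iff.mp (hO k).2 (γ (ex M s)) (ε / 4)
      (by positivity)
    obtain ⟨δ, h1, h2⟩ := h v hv
    exact ⟨δ, Metric.mem_ball'.mpr h1, fun t => h2 t ▸ hv' _⟩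
  let S : ∀ d l : ℕ, Set ((Fin d → K) × (Fin d → ℂ)) := fun d l =>
    {t | ∀ i j, res l (t i) = res l (t j) → i = j} ×ˢ Metric.sphere 0 1
  have hS : ∀ d l, IsCompact (S d l) := fun d l => by
    refine IsCompact.prod (IsClosed.isCompact ?_) (isCompact_sphere _ _)
    exact (isClosed_discrete {u : Fin d → Fin l → Bool | ∀ i j, u i = u j → i = j}).preimage
      (f := fun (t : Fin d → K) i => res l (t i))
      (continuous_pi fun i => continuous_pi fun a => (continuous_apply _).comp (continuous_apply i))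
  let D : ι × ℕ × ℕ × ℕ → Set C(K, X) := fun j =>
    {γ | ∀ p ∈ S j.2.2.1 j.2.2.2, ∑ i, p.2 i • γ (p.1 i) ∉ C j.1 j.2.1}
  have o2 : ∀ j, IsOpen (D j) := fun j => by
    refine isOpen_iff_mem_nhds.mpr fun γ hγ =>
      (hS _ _).eventually_forall_of_forall_eventually fun p hp => ?_
    have : Continuous fun z : C(K, X) × (Fin j.2.2.1 → K) × (Fin j.2.2.1 → ℂ) =>
        ∑ i, z.2.2 i • z.1 (z.2.1 i) := by fun_prop
    exact ((hC _ _).isOpen_compl.preimage this).mem_nhds (hγ p hp)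
  have d2 : ∀ j, Dense (D j) := fun ⟨n, m, d, l⟩ => by
    refine Metric.dense_iff.mpr fun γ ε hε => ?_
    obtain ⟨M, hM, h⟩ := approx γ hε l
    obtain ⟨v, hv, hi⟩ := pick (Y n) (hY n) (fun s => Metric.ball (γ (ex M s)) (ε / 4))
      fun s => ⟨Metric.isOpen_ball, Metric.nonempty_ball.mpr (by positivity)⟩
    obtain ⟨δ, h1, h2⟩ := h v hv
    refine ⟨δ, Metric.mem_ball'.mpr h1, fun p hp hc => ?_⟩
    have hy : ∑ i, p.2 i • δ (p.1 i) ∈ Y n := by
      rw [← SetLike.mem_coe, hYC]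
      exact mem_iUnion.mpr ⟨m, hc⟩
    have := Fintype.linearIndependent_iff.mp (hi.comp (fun i => res M (p.1 i)) fun i j hij =>
      hp.1 i j (funext fun a => congrFun hij ⟨a, a.2.trans_le hM⟩)) p.2 (by
        rw [← (Quotient.mk_eq_zero _).mpr hy, ← mkQ_apply, map_sum]
        simp [h2])
    have h0 : p.2 = 0 := funext this
    simpa [h0] using hp.2
  obtain ⟨γ, h0, h1, h2⟩ := ((dense_iInter_of_isOpen (fun k => op _ (hO k).1) d1).inter_of_Gδ
    (.iInter_of_isOpen fun k => op _ (hO k).1) (.iInter_of_isOpen o2)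
    (dense_iInter_of_isOpen o2 d2)).inter_open_nonempty _ (op W hW)
    ⟨.const _ hW'.some, fun _ => hW'.some_mem⟩
  refine ⟨γ, fun t => ⟨h0 t, mem_iInter.mpr fun k => mem_iInter.mp h1 k t⟩, fun n => ?_⟩
  refine linearIndependent_iff_finset_linearIndependent.mpr fun s => ?_
  rw [← linearIndependent_equiv s.equivFin.symm, Fintype.linearIndependent_iff]
  intro g hg
  by_contra hne
  have g0 : g ≠ 0 := fun h => hne (congrFun h)
  set t : Fin s.card → K := fun i => s.equivFin.symm i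
  have ht : t.Injective := Subtype.val_injective.comp s.equivFin.symm.injective
  obtain ⟨l, hl⟩ : ∃ l, ∀ i j, res l (t i) = res l (t j) → i = j := by
    refine Eventually.exists (f := atTop) ?_
    simp only [eventually_all]
    intro i j
    by_cases h : i = j
    · simp [h]
    · obtain ⟨a, ha⟩ := Function.ne_iff.mp (ht.ne h)
      filter_upwards [eventually_gt_atTop a] with l hl h'
      exact absurd (congrFun h' ⟨a, hl⟩) ha
  have hy : ∑ i, ((‖g‖⁻¹ : ℂ) • g) i • γ (t i) ∈ Y n := by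
    simp only [Pi.smul_apply, smul_assoc, ← Finset.smul_sum]
    refine smul_mem _ _ ((Quotient.mk_eq_zero _).mp ?_)
    rw [← hg, ← mkQ_apply, map_sum]
    simp [t]
  rw [← SetLike.mem_coe, hYC] at hy
  obtain ⟨m, hm⟩ := mem_iUnion.mp hy
  exact mem_iInter.mp h2 (n, m, _, l) (t, (‖g‖⁻¹ : ℂ) • g)
    ⟨hl, mem_sphere_zero_iff_norm.mpr (norm_smul_inv_norm g0)⟩ hm

lemma avoid (W : Set X) (hW : IsOpen W) (hW' : W.Nonempty) (O : ℕ → Set X)
    (hO : ∀ k, IsOpen (O k) ∧ Dense (O k)) (V : Set X) (hV : #V < 𝔠) :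
    ∃ x ∈ W ∩ ⋂ k, O k, ∀ n, x ∉ Y n ⊔ span ℂ V := by
  obtain ⟨γ, h1, h2⟩ := myc Y hY C hC hYC W hW hW' O hO
  by_contra hc
  push Not at hc
  let T := fun n => {t | γ t ∈ Y n ⊔ span ℂ V}
  have hT : ∀ n, #(T n) ≤ #V := fun n => by
    have := ((h2 n).comp _ (Subtype.val_injective (p := (· ∈ T n)))).restrict_scalars
      (R := ℂ) (fun _ _ h => by simpa using h)
    have h3 : LinearIndependent ℂ (fun t : T n =>
        (⟨(Y n).mkQ (γ t), (mq _ _ _).mpr t.2⟩ : span ℂ ((Y n).mkQ '' V))) :=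
      LinearIndependent.of_comp (Submodule.subtype _) this
    exact (h3.cardinal_le_rank.trans (rank_span_le _)).trans mk_image_le
  have : (univ : Set K) ⊆ ⋃ n, T n := fun t _ => mem_iUnion.mpr (hc _ (h1 t))
  have h4 := (mk_le_mk_of_subset this).trans ((mk_iUnion_le T).trans
    (mul_le_mul' mk_le_aleph0 (ciSup_le' hT)))
  rw [mk_univ] at h4
  have h5 : #K = 𝔠 := by simp
  exact (mul_lt_of_lt aleph0_le_continuum aleph0_lt_continuum hV).not_ge (h5 ▸ h4)

theorem main [SecondCountableTopology X] : ∃ E : Submodule ℂ X, Dense (E : Set X) ∧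
    (∀ n, ∀ x ∈ E, x ∈ Y n → x = 0) ∧ BaireSpace E := by
  classical
  obtain ⟨B, hB⟩ := (countable_countableBasis X).exists_eq_range (by
    obtain ⟨s, hs, -⟩ := (isBasis_countableBasis X).exists_subset_of_mem_open
      (mem_univ (0 : X)) isOpen_univ
    exact ⟨s, hs⟩)
  let u : Set ℕ → Set X := fun A => ⋃ i ∈ A, B i
  have hu : ∀ A, IsOpen (u A) := fun A => isOpen_biUnion fun i _ =>
    isOpen_of_mem_countableBasis (hB ▸ mem_range_self i)
  have hs : ∀ U, IsOpen U → ∃ A, u A = U := fun U hU => by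
    refine ⟨{i | B i ⊆ U}, subset_antisymm (iUnion₂_subset fun i hi => hi) fun x hx => ?_⟩
    obtain ⟨s, hs, h1, h2⟩ := (isBasis_countableBasis X).exists_subset_of_mem_open hx hU
    rw [hB] at hs
    obtain ⟨i, rfl⟩ := hs
    exact mem_biUnion h2 h1
  obtain ⟨e, he⟩ : ∃ e : (𝔠 : Cardinal.{0}).ord.ToType → ℕ → Set ℕ, e.Surjective := by
    have : #(ℕ → Set ℕ) ≤ 𝔠 := by simp
    obtain ⟨f⟩ := (Cardinal.le_def _ _).1 (this.trans (mk_ord_toType 𝔠).ge)
    exact ⟨_, Function.invFun_surjective f.injective⟩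
  have h1 : ∀ i (y : Iio i → X), ∃ x, (∀ n, x ∉ Y n ⊔ span ℂ (range y)) ∧
      ((u (e i 0)).Nonempty → (∀ k, Dense (u (e i (k + 1)))) →
        x ∈ u (e i 0) ∩ ⋂ k, u (e i (k + 1))) := fun i y => by
    have hy : #(range y) < 𝔠 := mk_range_le.trans_lt (mk_Iio_toType_ord_lt i)
    by_cases h : (u (e i 0)).Nonempty ∧ ∀ k, Dense (u (e i (k + 1)))
    · obtain ⟨x, h1, h2⟩ := avoid Y hY C hC hYC _ (hu _) h.1 _ (fun k => ⟨hu _, h.2 k⟩) _ hy
      exact ⟨x, h2, fun _ _ => h1⟩
    · obtain ⟨x, -, h2⟩ := avoid Y hY C hC hYC _ isOpen_univ univ_nonempty _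
        (fun _ => ⟨isOpen_univ, dense_univ⟩) _ hy
      exact ⟨x, h2, fun a b => absurd ⟨a, b⟩ h⟩
  choose c hc hc' using h1
  let x : (𝔠 : Cardinal.{0}).ord.ToType → X := wellFounded_lt.fix fun i y => c i fun j => y j j.2
  have hx : ∀ i, x i = c i fun j => x j := fun i => wellFounded_lt.fix_eq _ i
  have key : ∀ (W : Set X) (O : ℕ → Set X), IsOpen W → W.Nonempty →
      (∀ k, IsOpen (O k) ∧ Dense (O k)) → ∃ i, x i ∈ W ∩ ⋂ k, O k := fun W O a b h => by
    obtain ⟨A, rfl⟩ := hs W a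
    choose A' hA using fun k => hs _ (h k).1
    obtain ⟨i, hi⟩ := he fun k => Nat.casesOn k A A'
    refine ⟨i, ?_⟩
    have := hc' i fun j => x j
    rw [← hx, hi] at this
    simp only [hA] at this
    exact this b fun k => (h k).2
  have hd : Dense (span ℂ (range x) : Set X) := dense_iff_inter_open.mpr fun W a b => by
    obtain ⟨i, hi⟩ := key W _ a b fun _ => ⟨isOpen_univ, dense_univ⟩
    exact ⟨x i, hi.1, subset_span (mem_range_self i)⟩
  refine ⟨span ℂ (range x), hd, fun n y hy hn => ?_, ⟨fun f ho hf => ?_⟩⟩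
  · obtain ⟨g, rfl⟩ := Finsupp.mem_span_range_iff_exists_finsupp.mp hy
    have := linearIndependent_iff.mp (indep ((Y n).mkQ ∘ x) fun i h => hc i (fun j => x j) n (by
      rw [image_comp, Function.comp, mq, image_eq_range] at h
      rwa [← hx])) g (by
        rw [← (Quotient.mk_eq_zero _).mpr hn, ← mkQ_apply, map_finsuppSum]
        simp [Finsupp.linearCombination_apply])
    simp [this]
  · choose O h1 h2 using fun k => isOpen_induced_iff.mp (ho k)
    refine dense_iff_inter_open.mpr fun W a ⟨b, hb⟩ => ?_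
    obtain ⟨W, a', rfl⟩ := isOpen_induced_iff.mp a
    obtain ⟨i, hi⟩ := key W O a' ⟨b, hb⟩ fun k => ⟨h1 k,
      ((hd.denseRange_val.dense_image continuous_subtype_val (hf k)).mono (by
        rw [← h2]
        exact image_preimage_subset _ _))⟩
    exact ⟨⟨x i, subset_span (mem_range_self i)⟩, hi.1, mem_iInter.mpr fun k =>
      h2 k ▸ mem_iInter.mp hi.2 k⟩

end Pool.Agent.H33.Myc
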