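import Mathlib

namespace Pool.Agent.H33.Nb
open Metric Set Filter Topology

lemma two_const (u : ℂ → ℂ) (w z : ℂ) (ρ C θ : ℝ) (hρ : 0 < ρ)
    (hd : DifferentiableOn ℂ u (closedBall w (3 * ρ)))
    (hC : ∀ x ∈ closedBall w (3 * ρ), ‖u x‖ ≤ C) (hθ : ∀ x ∈ ball w ρ, ‖u x‖ ≤ θ)
    (hz : ‖z - w‖ = 2 * ρ) (L : ℕ) : ‖u z‖ ≤ C * (2 / 3) ^ L + θ * 4 ^ L := by
  have hC0 : 0 ≤ C := (norm_nonneg _).trans (hC w (mem_closedBall_self (by positivity)))
  have hθ0 : 0 ≤ θ := (norm_nonneg _).trans (hθ w (mem_ball_self hρ))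
  let U := ball w (3 * ρ) ∩ (closedBall w (ρ / 2))ᶜ
  have hcl : closure U ⊆ closedBall w (3 * ρ) ∩ (ball w (ρ / 2))ᶜ :=
    closure_minimal (inter_subset_inter ball_subset_closedBall
      (compl_subset_compl.2 ball_subset_closedBall)) (isClosed_closedBall.inter isOpen_ball.isClosed_compl)
  have hv : DifferentiableOn ℂ (fun x => u x / (x - w) ^ L) (closure U) := by
    refine (hd.mono (hcl.trans inter_subset_left)).div (by fun_prop) fun x hx => pow_ne_zero _ ?_
    intro h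
    exact (hcl hx).2 (by rw [sub_eq_zero.1 h]; exact mem_ball_self (by positivity))
  have hzU : z ∈ closure U := subset_closure ⟨by rw [mem_ball, dist_eq_norm, hz]; linarith, by
    rw [mem_compl_iff, mem_closedBall, dist_eq_norm, hz]; linarith⟩
  have key := Complex.norm_le_of_forall_mem_frontier_norm_le (isBounded_ball.subset inter_subset_left)
    hv.diffContOnCl (C := C / (3 * ρ) ^ L + θ / (ρ / 2) ^ L) (fun x hx => by
      rw [norm_div, norm_pow]
      rcases frontier_inter_subset _ _ hx with h | h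
      · have h1 := frontier_ball_subset_sphere h.1
        have h2 := hC x (sphere_subset_closedBall h1)
        rw [mem_sphere, dist_eq_norm] at h1
        rw [h1]
        have : 0 ≤ θ / (ρ / 2) ^ L := by positivity
        have : ‖u x‖ / (3 * ρ) ^ L ≤ C / (3 * ρ) ^ L := by gcongr
        linarith
      · have h0 := h.2
        rw [frontier_compl] at h0
        have h1 := frontier_closedBall_subset_sphere h0
        rw [mem_sphere] at h1
        have h2 := hθ x (by rw [mem_ball, h1]; linarith)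
        rw [dist_eq_norm] at h1
        rw [h1]
        have : 0 ≤ C / (3 * ρ) ^ L := by positivity
        have : ‖u x‖ / (ρ / 2) ^ L ≤ θ / (ρ / 2) ^ L := by gcongr
        linarith) hzU
  rw [norm_div, norm_pow, hz, div_le_iff₀ (by positivity)] at key
  refine key.trans (le_of_eq ?_)
  have e1 : (2 / 3 : ℝ) ^ L = (2 * ρ) ^ L / (3 * ρ) ^ L := by
    rw [← div_pow]; congr 1; field_simp
  have e2 : (4 : ℝ) ^ L = (2 * ρ) ^ L / (ρ / 2) ^ L := by
    rw [← div_pow]; congr 1; field_simp; norm_num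
  rw [e1, e2]; ring

lemma step (j : ℕ) (θ : ℝ) : ∃ p : ℕ × ℝ, 0 < θ → 0 < p.2 ∧ p.2 ≤ θ ∧
    (j : ℝ) ≤ p.2 * (1 + 1 / (j + 1)) ^ p.1 ∧ p.2 * (p.1 + 1) ^ j ≤ (1 / 2) ^ j := by
  by_cases hθ : 0 < θ
  swap
  · exact ⟨(0, 0), fun h => absurd h hθ⟩
  have hr : (1 : ℝ) < 1 + 1 / (j + 1) := by
    have : (0 : ℝ) < 1 / (j + 1) := by positivity
    linarith
  set r : ℝ := 1 + 1 / (j + 1)
  have h1 := (tendsto_pow_const_div_const_pow_of_one_lt j hr).comp (tendsto_add_atTop_nat 1)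
  have h2 := (h1.const_mul ((j + 1) * r))
  rw [mul_zero] at h2
  obtain ⟨N, hN⟩ := (h2.eventually (ge_mem_nhds (lt_min hθ (show (0 : ℝ) < (1 / 2) ^ j by positivity)))).exists
  have e : ((j : ℝ) + 1) * r * (((N + 1 : ℕ) : ℝ) ^ j / r ^ (N + 1)) =
      (j + 1) / r ^ N * ((N : ℝ) + 1) ^ j := by
    push_cast; field_simp; ring
  simp only [Function.comp] at hN
  rw [e] at hN
  refine ⟨(N, (j + 1) / r ^ N), fun _ => ⟨by positivity, ?_, ?_, hN.trans (min_le_right _ _)⟩⟩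
  · refine le_trans ?_ (hN.trans (min_le_left _ _))
    exact le_mul_of_one_le_right (by positivity) (one_le_pow₀ (by linarith [Nat.cast_nonneg (α := ℝ) N]))
  · simp only
    rw [div_mul_cancel₀ _ (by positivity)]; linarith

lemma exL (x : ℝ) : ∃ L : ℕ, x * (2 / 3) ^ L ≤ 1 := by
  have := (tendsto_pow_atTop_nhds_zero_of_lt_one (r := (2 / 3 : ℝ)) (by norm_num) (by norm_num)).const_mul x
  rw [mul_zero] at this
  exact (this.eventually (ge_mem_nhds one_pos)).exists

lemma params : ∃ (N : ℕ → ℕ) (c : ℕ → ℝ) (L : ℕ → ℕ), (∀ j, 0 < c j) ∧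
    (∀ j : ℕ, (j : ℝ) ≤ c j * (1 + 1 / (j + 1)) ^ N j) ∧
    (∀ j, c j * (N j + 1) ^ j ≤ (1 / 2) ^ j) ∧
    (∀ j : ℕ, (j + ∑ i ∈ Finset.range j, c i * 3 ^ N i) * (2 / 3) ^ L j ≤ 1) ∧
    (∀ j i, c (i + j) * 4 ^ L j ≤ (1 / 2) ^ i) := by
  choose p hp using step
  choose Lf hL using exL
  let th : ℕ → ℝ × ℝ → ℝ := fun j s => min (s.2 / 2) (1 / 4 ^ Lf (j + s.1))
  let st : ℕ → ℝ × ℝ := fun j => Nat.rec (0, 1)
    (fun j s => (s.1 + (p j (th j s)).2 * 3 ^ (p j (th j s)).1, th j s)) j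
  have st1 : ∀ j, (st (j + 1)).1 = (st j).1 + (p j (th j (st j))).2 * 3 ^ (p j (th j (st j))).1 :=
    fun j => rfl
  have st2 : ∀ j, (st (j + 1)).2 = th j (st j) := fun j => rfl
  have pos : ∀ j, 0 < (st j).2 := by
    intro j
    induction j with
    | zero => exact one_pos
    | succ j ih => rw [st2]; exact lt_min (by positivity) (by positivity)
  have pos' : ∀ j, 0 < th j (st j) := fun j => pos (j + 1)
  have sum : ∀ j, (st j).1 = ∑ i ∈ Finset.range j, (p i (th i (st i))).2 * 3 ^ (p i (th i (st i))).1 := by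
    intro j
    induction j with
    | zero => rfl
    | succ j ih => rw [st1, Finset.sum_range_succ, ih]
  have dec : ∀ j i, th (i + j) (st (i + j)) ≤ (1 / 2) ^ i * th j (st j) := by
    intro j i
    induction i with
    | zero => simp
    | succ i ih =>
      have : th (i + 1 + j) (st (i + 1 + j)) ≤ (st (i + 1 + j)).2 / 2 := min_le_left _ _
      rw [show i + 1 + j = (i + j) + 1 by ring] at this ⊢
      rw [st2] at this
      rw [pow_succ]; linarith
  refine ⟨fun j => (p j (th j (st j))).1, fun j => (p j (th j (st j))).2, fun j => Lf (j + (st j).1),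
    fun j => (hp j _ (pos' j)).1, fun j => (hp j _ (pos' j)).2.2.1, fun j => (hp j _ (pos' j)).2.2.2,
    fun j => by rw [← sum]; exact hL _, fun j i => ?_⟩
  have h1 := (hp (i + j) _ (pos' _)).2.1.trans (dec j i)
  have h2 : th j (st j) ≤ 1 / 4 ^ Lf (j + (st j).1) := min_le_right _ _
  rw [le_div_iff₀ (by positivity)] at h2
  calc _ ≤ (1 / 2) ^ i * th j (st j) * 4 ^ Lf (j + (st j).1) := by gcongr
    _ = (1 / 2) ^ i * (th j (st j) * 4 ^ Lf (j + (st j).1)) := by ring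
    _ ≤ (1 / 2) ^ i * 1 := by gcongr
    _ = _ := mul_one _

section smooth
variable {E : Type} [NormedAddCommGroup E] [NormedSpace ℂ E]

lemma term_bound (l : E →L[ℂ] ℂ) (hl : ‖l‖ ≤ 1) (c : ℝ) (hc : 0 ≤ c) (N k : ℕ) (x : E) (hx : ‖x‖ ≤ 1) :
    ‖iteratedFDeriv ℂ k (fun z => (c : ℂ) * l z ^ N) x‖ ≤ c * (N + 1) ^ k := by
  have e : (fun z => (c : ℂ) * l z ^ N) = (fun w : ℂ => (c : ℂ) * w ^ N) ∘ l := rfl
  rw [e, l.iteratedFDeriv_comp_right (n := ⊤) (by fun_prop) x le_top]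
  refine (ContinuousMultilinearMap.norm_compContinuousLinearMap_le _ _).trans ?_
  rw [norm_iteratedFDeriv_eq_norm_iteratedDeriv, iteratedDeriv_const_mul_field, iteratedDeriv_pow]
  have h1 : ‖l x‖ ≤ 1 := (l.le_opNorm x).trans (mul_le_one₀ hl (norm_nonneg _) hx)
  have h2 : ∏ _i : Fin k, ‖l‖ ≤ 1 := Finset.prod_le_one (fun _ _ => norm_nonneg _) fun _ _ => hl
  have h3 : ‖l x‖ ^ (N - k) ≤ 1 := pow_le_one₀ (norm_nonneg _) h1
  have h4 : (N.descFactorial k : ℝ) ≤ (N + 1) ^ k := by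
    exact_mod_cast (Nat.descFactorial_le_pow N k).trans (Nat.pow_le_pow_left (Nat.le_succ N) k)
  simp only [norm_mul, norm_pow, Complex.norm_real, Complex.norm_natCast, Real.norm_eq_abs, abs_of_nonneg hc]
  calc _ ≤ c * ((N + 1) ^ k * 1) * 1 := by gcongr
    _ = _ := by ring

lemma iter_tsum (t : ℕ → E → ℂ) (ht : ∀ j, ContDiff ℂ ⊤ (t j)) (v : ℕ → ℕ → ℝ)
    (hv : ∀ k, Summable (v k)) (hb : ∀ k j x, ‖x‖ ≤ 1 → ‖iteratedFDeriv ℂ k (t j) x‖ ≤ v k j) (k : ℕ) :
    EqOn (fun x => ∑' j, iteratedFDeriv ℂ k (t j) x) (iteratedFDeriv ℂ k fun x => ∑' j, t j x)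
      (ball 0 1) := by
  induction k with
  | zero =>
    intro x _
    simp only [iteratedFDeriv_zero_eq_comp, Function.comp]
    exact ((continuousMultilinearCurryFin0 ℂ E ℂ).symm.toContinuousLinearEquiv.map_tsum).symm
  | succ k ih =>
    intro x hx
    have hd := hasFDerivAt_tsum_of_isPreconnected (𝕜 := ℂ) (hv (k + 1)) isOpen_ball
      (convex_ball (0 : E) 1).isPreconnected (f := fun j => iteratedFDeriv ℂ k (t j))
      (f' := fun j y => fderiv ℂ (iteratedFDeriv ℂ k (t j)) y)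
      (fun j y _ => ((ht j).differentiable_iteratedFDeriv (by simp) y).hasFDerivAt)
      (fun j y hy => by
        rw [norm_fderiv_iteratedFDeriv]; exact hb _ _ _ (mem_ball_zero_iff.1 hy).le)
      hx (Summable.of_norm_bounded (hv k) fun j => hb _ _ _ (mem_ball_zero_iff.1 hx).le) hx
    have he : (iteratedFDeriv ℂ k fun x => ∑' j, t j x) =ᶠ[𝓝 x]
        fun x => ∑' j, iteratedFDeriv ℂ k (t j) x :=
      (ih.symm.eventuallyEq_of_mem (isOpen_ball.mem_nhds hx))
    simp only [iteratedFDeriv_succ_eq_comp_left, Function.comp]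
    rw [he.fderiv_eq, hd.fderiv]
    exact ((continuousMultilinearCurryLeftEquiv ℂ (fun _ : Fin (k + 1) => E) ℂ).symm.toContinuousLinearEquiv.map_tsum).symm

end smooth

end Pool.Agent.H33.Nb
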