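import Mathlib

namespace Pool.Agent.H33.Nb
open Metric Set

abbrev Cn (n : ℕ) := EuclideanSpace ℂ (Fin n)

/-- The ball algebra. -/
def InA {n : ℕ} (f : Cn n → ℂ) : Prop :=
  DifferentiableOn ℂ f (ball 0 1) ∧ ContinuousOn f (closedBall 0 1)

/-- Holomorphic in the ball, all derivatives extend continuously to the closed ball. -/
def InAinf {n : ℕ} (f : Cn n → ℂ) : Prop :=
  DifferentiableOn ℂ f (ball 0 1) ∧ ∀ k : ℕ, ∃ g, ContinuousOn g (closedBall 0 1) ∧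
    EqOn g (iteratedFDeriv ℂ k f) (ball 0 1)

/-- The unit circle is the natural boundary of `g`. -/
def NatBdry (g : ℂ → ℂ) : Prop :=
  ∀ τ : ℂ, ‖τ‖ = 1 → ¬ ∃ (w : ℂ) (R : ℝ) (h : ℂ → ℂ), τ ∈ ball w R ∧
    DifferentiableOn ℂ h (ball w R) ∧ EqOn h g (ball w R ∩ ball 0 1)

def NB {n : ℕ} (f : Cn n → ℂ) : Prop :=
  ∀ a b : Cn n, b ≠ 0 → (∀ l : ℂ, ‖l‖ = 1 → ‖a + l • b‖ = 1) → NatBdry fun l => f (a + l • b)

end Pool.Agent.H33.Nb
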