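import Mathlib

namespace Pool.Agent.H33.Nec

def maj (a b c : Bool) : Bool := (a && b) || (a && c) || (b && c)

/-- One step of NEC-voting. -/
def step (y : ℤ × ℤ → Bool) (s : ℤ × ℤ) : Bool := maj (y s) (y (s + (1, 0))) (y (s + (0, 1)))

/-- The trajectory; index `n` is time `n - 1`. -/
def TR (y : ℤ × ℤ → Bool) (p : (ℤ × ℤ) × ℕ) : Bool := step^[p.2] y p.1

def Attractor (y : ℤ × ℤ → Bool) : Prop :=
  ∀ y' : ℤ × ℤ → Bool, {s | y' s ≠ y s}.Finite → {p | TR y' p ≠ TR y p}.Finite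

end Pool.Agent.H33.Nec
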