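import Pool.Agent.H33.NimDefs

set_option autoImplicit false

namespace Pool.Agent.H33.Nim

/-! ### Bit lemmas -/

lemma xor_split (i a b : ℕ) (hb : b < 2 ^ i) : (2 ^ i * a) ^^^ b = 2 ^ i * a + b := by
  apply Nat.eq_of_testBit_eq
  intro j
  rw [Nat.testBit_xor, Nat.testBit_two_pow_mul_add a hb, Nat.testBit_two_pow_mul]
  by_cases h : j < i
  · simp [h, Nat.not_le.mpr h]
  · have h1 : b < 2 ^ j := lt_of_lt_of_le hb (Nat.pow_le_pow_right (by norm_num) (by omega))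
    simp [h, Nat.not_lt.mp h, Nat.testBit_lt_two_pow h1]

lemma FF (j : ℕ) : 2 ^ 2 ^ (j + 1) = 2 ^ 2 ^ j * 2 ^ 2 ^ j := by
  rw [← pow_add, pow_succ, mul_two]

lemma lt_FF {j c d : ℕ} (hc : c < 2 ^ 2 ^ j) (hd : d < 2 ^ 2 ^ j) :
    2 ^ 2 ^ j * c + d < 2 ^ 2 ^ (j + 1) := by
  rw [FF]; nlinarith

lemma div_lt {j a : ℕ} (ha : a < 2 ^ 2 ^ (j + 1)) : a / 2 ^ 2 ^ j < 2 ^ 2 ^ j := by
  rw [Nat.div_lt_iff_lt_mul (by positivity), ← FF]; exact ha

lemma mod_lt (j a : ℕ) : a % 2 ^ 2 ^ j < 2 ^ 2 ^ j := Nat.mod_lt _ (by positivity)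

lemma F_mono {i j : ℕ} (h : i ≤ j) : 2 ^ 2 ^ i ≤ 2 ^ 2 ^ j :=
  Nat.pow_le_pow_right (by norm_num) (Nat.pow_le_pow_right (by norm_num) h)

lemma H_lt (j : ℕ) : 2 ^ (2 ^ j - 1) < 2 ^ 2 ^ j :=
  Nat.pow_lt_pow_right (by norm_num) (Nat.sub_lt (by positivity) one_pos)

lemma F_eq (j : ℕ) : 2 ^ 2 ^ j = 2 * 2 ^ (2 ^ j - 1) := by
  rw [← pow_succ', Nat.sub_add_cancel (Nat.one_le_two_pow)]

lemma H_succ (j : ℕ) : 2 ^ (2 ^ (j + 1) - 1) = 2 ^ 2 ^ j * 2 ^ (2 ^ j - 1) := by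
  rw [← pow_add]
  congr 1
  have : 1 ≤ 2 ^ j := Nat.one_le_two_pow
  rw [pow_succ]; omega

lemma three_half (j : ℕ) : 3 * 2 ^ 2 ^ j / 2 = 2 ^ 2 ^ j * 1 + 2 ^ (2 ^ j - 1) := by
  have := F_eq j
  omega

lemma lt_F (a : ℕ) : a < 2 ^ 2 ^ a :=
  lt_trans Nat.lt_two_pow_self Nat.lt_two_pow_self

/-! ### Existence -/

/-- A commutative ring with a distinguished element. -/
structure Lvl where
  /-- The carrier. -/
  R : Type
  /-- The ring structure. -/
  inst : CommRing R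
  /-- The distinguished element. -/
  h : R

instance (L : Lvl) : CommRing L.R := L.inst

/-- The tower of quadratic extensions. -/
def T : ℕ → Lvl
  | 0 => ⟨ZMod 2, inferInstance, 1⟩
  | k + 1 => ⟨QuadraticAlgebra (T k).R (T k).h 1, inferInstance, ⟨0, (T k).h⟩⟩

/-- Encoding. -/
def enc : (k : ℕ) → (T k).R → ℕ
  | 0, x => (show ZMod 2 from x).val
  | k + 1, x => 2 ^ 2 ^ k * enc k x.im + enc k x.re

/-- Decoding. -/
def dec : (k : ℕ) → ℕ → (T k).R
  | 0, n => (n : ZMod 2)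
  | k + 1, n => ⟨dec k (n % 2 ^ 2 ^ k), dec k (n / 2 ^ 2 ^ k)⟩

lemma enc_lt (k : ℕ) : ∀ x, enc k x < 2 ^ 2 ^ k := by
  induction k with
  | zero => intro x; exact ZMod.val_lt (n := 2) x
  | succ k ih => intro x; exact lt_FF (ih _) (ih _)

lemma dec_enc (k : ℕ) : ∀ x, dec k (enc k x) = x := by
  induction k with
  | zero => intro x; exact ZMod.natCast_zmod_val (n := 2) x
  | succ k ih =>
    intro x
    have h1 : (2 ^ 2 ^ k * enc k x.im + enc k x.re) % 2 ^ 2 ^ k = enc k x.re := by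
      rw [Nat.mul_add_mod, Nat.mod_eq_of_lt (enc_lt k _)]
    have h2 : (2 ^ 2 ^ k * enc k x.im + enc k x.re) / 2 ^ 2 ^ k = enc k x.im := by
      rw [Nat.mul_add_div (by positivity), Nat.div_eq_of_lt (enc_lt k _), add_zero]
    simp only [enc, dec, h1, h2, ih]
    rfl

lemma enc_dec (k : ℕ) : ∀ n, n < 2 ^ 2 ^ k → enc k (dec k n) = n := by
  induction k with
  | zero => intro n hn; exact ZMod.val_cast_of_lt (n := 2) hn
  | succ k ih =>
    intro n hn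
    simp only [enc, dec]
    rw [ih _ (div_lt hn), ih _ (mod_lt k n), Nat.div_add_mod]

lemma dec_xor (k : ℕ) : ∀ a b, dec k (a ^^^ b) = dec k a + dec k b := by
  induction k with
  | zero =>
    intro a b
    change ((a ^^^ b : ℕ) : ZMod 2) = (a : ZMod 2) + (b : ZMod 2)
    rw [← ZMod.natCast_mod (a ^^^ b), ← ZMod.natCast_mod a, ← ZMod.natCast_mod b]
    have := @Nat.xor_mod_two_pow a b 1
    rw [pow_one] at this
    rw [this]
    rcases Nat.mod_two_eq_zero_or_one a with h | h <;>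
      rcases Nat.mod_two_eq_zero_or_one b with h' | h' <;> rw [h, h'] <;> decide
  | succ k ih =>
    intro a b
    simp only [dec, Nat.xor_mod_two_pow, Nat.xor_div_two_pow, ih]
    rfl

lemma enc_add (k : ℕ) (x y : (T k).R) : enc k (x + y) = enc k x ^^^ enc k y := by
  rw [← enc_dec k _ (Nat.xor_lt_two_pow (enc_lt k x) (enc_lt k y)), dec_xor, dec_enc, dec_enc]

lemma dec_zero (k : ℕ) : dec k 0 = 0 := by
  induction k with
  | zero => rfl
  | succ k ih => simp only [dec, Nat.zero_mod, Nat.zero_div, ih]; rfl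

lemma one_lt_F (k : ℕ) : 1 < 2 ^ 2 ^ k := Nat.one_lt_two_pow (by positivity)

lemma dec_one (k : ℕ) : dec k 1 = 1 := by
  induction k with
  | zero => rfl
  | succ k ih =>
    simp only [dec, Nat.mod_eq_of_lt (one_lt_F k), Nat.div_eq_of_lt (one_lt_F k), ih, dec_zero]
    rfl

lemma enc_zero (k : ℕ) : enc k 0 = 0 := by
  rw [← dec_zero, enc_dec _ _ (by positivity)]

lemma enc_one (k : ℕ) : enc k 1 = 1 := by
  rw [← dec_one, enc_dec _ _ (one_lt_F k)]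

lemma enc_h (k : ℕ) : enc k (T k).h = 2 ^ (2 ^ k - 1) := by
  induction k with
  | zero => rfl
  | succ k ih =>
    change 2 ^ 2 ^ k * enc k (T k).h + enc k 0 = _
    rw [ih, enc_zero, add_zero, H_succ]

lemma dec_low (k n : ℕ) (hn : n < 2 ^ 2 ^ k) :
    dec (k + 1) n = (⟨dec k n, 0⟩ : QuadraticAlgebra (T k).R (T k).h 1) := by
  simp only [dec, Nat.mod_eq_of_lt hn, Nat.div_eq_of_lt hn, dec_zero]
  all_goals rfl

lemma dec_F (k : ℕ) :
    dec (k + 1) (2 ^ 2 ^ k) = (⟨0, 1⟩ : QuadraticAlgebra (T k).R (T k).h 1) := by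
  simp only [dec, Nat.mod_self, Nat.div_self (show 0 < 2 ^ 2 ^ k by positivity), dec_zero, dec_one]
  all_goals rfl

lemma enc_mul_mk (k : ℕ) (a b c d : (T k).R) :
    enc (k + 1) (((⟨a, b⟩ : QuadraticAlgebra (T k).R (T k).h 1) *
      (⟨c, d⟩ : QuadraticAlgebra (T k).R (T k).h 1) : QuadraticAlgebra (T k).R (T k).h 1)) =
      2 ^ 2 ^ k * enc k (a * d + b * c + 1 * b * d) + enc k (a * c + (T k).h * b * d) := rfl

/-- The product computed at level `k`. -/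
def mulk (k a b : ℕ) : ℕ := enc k (dec k a * dec k b)

lemma mulk_succ (k a b : ℕ) (ha : a < 2 ^ 2 ^ k) (hb : b < 2 ^ 2 ^ k) :
    mulk (k + 1) a b = mulk k a b := by
  unfold mulk
  rw [dec_low k a ha, dec_low k b hb]
  refine (enc_mul_mk k _ _ _ _).trans ?_
  simp [enc_zero]

lemma mulk_le {k l a b : ℕ} (h : k ≤ l) (ha : a < 2 ^ 2 ^ k) (hb : b < 2 ^ 2 ^ k) :
    mulk l a b = mulk k a b := by
  induction h with
  | refl => rfl
  | step h ih => rw [mulk_succ _ _ _ (ha.trans_le (F_mono h)) (hb.trans_le (F_mono h)), ih]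

/-- The nim product. -/
def nim (a b : ℕ) : ℕ := mulk (a + b) a b

lemma nim_eq {k a b : ℕ} (ha : a < 2 ^ 2 ^ k) (hb : b < 2 ^ 2 ^ k) : nim a b = mulk k a b := by
  have h1 : a < 2 ^ 2 ^ (a + b) := (lt_F a).trans_le (F_mono (by omega))
  have h2 : b < 2 ^ 2 ^ (a + b) := (lt_F b).trans_le (F_mono (by omega))
  rw [nim, ← mulk_le (le_max_left (a + b) k) h1 h2, mulk_le (le_max_right (a + b) k) ha hb]

lemma isNim_nim : IsNimProduct nim where
  fermat_mul a n hn := by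
    have h1 : 2 ^ 2 ^ a < 2 ^ 2 ^ (a + 1) := by
      simpa using lt_FF (one_lt_F a) (show 0 < 2 ^ 2 ^ a by positivity)
    rw [nim_eq h1 (hn.trans h1), mulk, dec_F, dec_low a n hn]
    refine (enc_mul_mk a _ _ _ _).trans ?_
    simp [enc_zero, enc_dec a n hn]
  fermat_sq a := by
    have h1 : 2 ^ 2 ^ a < 2 ^ 2 ^ (a + 1) := by
      simpa using lt_FF (one_lt_F a) (show 0 < 2 ^ 2 ^ a by positivity)
    rw [nim_eq h1 h1, mulk, dec_F, three_half]
    refine (enc_mul_mk a _ _ _ _).trans ?_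
    simp [enc_one, enc_h]
  assoc a b c := by
    have ha : a < 2 ^ 2 ^ (a + b + c) := (lt_F a).trans_le (F_mono (by omega))
    have hb : b < 2 ^ 2 ^ (a + b + c) := (lt_F b).trans_le (F_mono (by omega))
    have hc : c < 2 ^ 2 ^ (a + b + c) := (lt_F c).trans_le (F_mono (by omega))
    rw [nim_eq ha hb, nim_eq hb hc, mulk, mulk, nim_eq (enc_lt _ _) hc, nim_eq ha (enc_lt _ _)]
    simp only [mulk, dec_enc, mul_assoc]
  distrib a b c := by
    have ha : a < 2 ^ 2 ^ (a + b + c) := (lt_F a).trans_le (F_mono (by omega))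
    have hb : b < 2 ^ 2 ^ (a + b + c) := (lt_F b).trans_le (F_mono (by omega))
    have hc : c < 2 ^ 2 ^ (a + b + c) := (lt_F c).trans_le (F_mono (by omega))
    rw [nim_eq ha hb, nim_eq ha hc, nim_eq ha (Nat.xor_lt_two_pow hb hc)]
    simp only [mulk, dec_xor, mul_add, enc_add]
  comm a b := by rw [nim, nim, add_comm, mulk, mulk, mul_comm]
  one_mul a := by
    rw [nim_eq (one_lt_F a) (lt_F a), mulk, dec_one, one_mul, enc_dec a a (lt_F a)]

/-! ### Consequences of the rules -/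

variable {op : ℕ → ℕ → ℕ}

lemma IsNimProduct.mul_zero (h : IsNimProduct op) (a : ℕ) : op a 0 = 0 := by
  have := h.distrib a 0 0
  simpa using this

/-- The natural numbers with nim sum and nim product. -/
def N (_ : IsNimProduct op) : Type := ℕ

instance (h : IsNimProduct op) : CommRing (N h) :=
  letI : Add (N h) := ⟨fun a b => Nat.xor a b⟩
  letI : Zero (N h) := ⟨(0 : ℕ)⟩
  letI : Neg (N h) := ⟨id⟩
  { add_assoc := Nat.xor_assoc
    zero_add := Nat.zero_xor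
    add_zero := Nat.xor_zero
    add_comm := Nat.xor_comm
    nsmul := nsmulRec
    zsmul := zsmulRec
    neg_add_cancel := Nat.xor_self
    mul := op
    one := (1 : ℕ)
    mul_assoc := h.assoc
    one_mul := h.one_mul
    mul_one := fun a => (h.comm a 1).trans (h.one_mul a)
    zero_mul := fun a => (h.comm 0 a).trans (h.mul_zero a)
    mul_zero := h.mul_zero
    left_distrib := h.distrib
    right_distrib := fun a b c => (h.comm _ c).trans ((h.distrib c a b).trans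
      (congrArg₂ Nat.xor (h.comm c a) (h.comm c b)))
    mul_comm := h.comm }

/-- The identity map into the ring. -/
def IsNimProduct.c (h : IsNimProduct op) (a : ℕ) : N h := a

lemma IsNimProduct.c_op (h : IsNimProduct op) (a b : ℕ) : h.c (op a b) = h.c a * h.c b := rfl
lemma IsNimProduct.c_xor (h : IsNimProduct op) (a b : ℕ) : h.c (a ^^^ b) = h.c a + h.c b := rfl
lemma IsNimProduct.c_one (h : IsNimProduct op) : h.c 1 = 1 := rfl
lemma IsNimProduct.c_inj (h : IsNimProduct op) {a b : ℕ} (e : h.c a = h.c b) : a = b := e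
lemma IsNimProduct.two (h : IsNimProduct op) : (2 : N h) = 0 := by
  rw [← one_add_one_eq_two]; exact Nat.xor_self 1

lemma IsNimProduct.c_join (h : IsNimProduct op) {j a b : ℕ} (ha : a < 2 ^ 2 ^ j)
    (hb : b < 2 ^ 2 ^ j) : h.c (2 ^ 2 ^ j * a + b) = h.c (2 ^ 2 ^ j) * h.c a + h.c b := by
  rw [← xor_split _ _ _ hb, ← h.fermat_mul j a ha]; rfl

lemma IsNimProduct.c_sq (h : IsNimProduct op) (j : ℕ) :
    h.c (2 ^ 2 ^ j) * h.c (2 ^ 2 ^ j) = h.c (2 ^ 2 ^ j) + h.c (2 ^ (2 ^ j - 1)) := by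
  rw [← h.c_op, h.fermat_sq, three_half, h.c_join (one_lt_F j) (H_lt j), h.c_one, mul_one]

lemma IsNimProduct.formula (h : IsNimProduct op) {j : ℕ}
    (cl : ∀ a b, a < 2 ^ 2 ^ j → b < 2 ^ 2 ^ j → op a b < 2 ^ 2 ^ j) {a1 a0 b1 b0 : ℕ}
    (ha1 : a1 < 2 ^ 2 ^ j) (ha0 : a0 < 2 ^ 2 ^ j) (hb1 : b1 < 2 ^ 2 ^ j) (hb0 : b0 < 2 ^ 2 ^ j) :
    op (2 ^ 2 ^ j * a1 + a0) (2 ^ 2 ^ j * b1 + b0) =
      2 ^ 2 ^ j * (op a1 b1 ^^^ op a1 b0 ^^^ op a0 b1) +
        (op a0 b0 ^^^ op (2 ^ (2 ^ j - 1)) (op a1 b1)) := by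
  apply h.c_inj
  rw [h.c_op, h.c_join ha1 ha0, h.c_join hb1 hb0, h.c_join
    (Nat.xor_lt_two_pow (Nat.xor_lt_two_pow (cl _ _ ha1 hb1) (cl _ _ ha1 hb0)) (cl _ _ ha0 hb1))
    (Nat.xor_lt_two_pow (cl _ _ ha0 hb0) (cl _ _ (H_lt j) (cl _ _ ha1 hb1)))]
  simp only [h.c_op, h.c_xor]
  linear_combination (h.c a1 * h.c b1) * h.c_sq j

lemma IsNimProduct.closed (h : IsNimProduct op) (j : ℕ) :
    ∀ a b, a < 2 ^ 2 ^ j → b < 2 ^ 2 ^ j → op a b < 2 ^ 2 ^ j := by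
  induction j with
  | zero =>
    intro a b ha hb
    have : a = 0 ∨ a = 1 := by omega
    rcases this with rfl | rfl
    · rw [h.comm, h.mul_zero]; norm_num
    · rwa [h.one_mul]
  | succ j ih =>
    intro a b ha hb
    have a1 := div_lt ha
    have b1 := div_lt hb
    have a0 := mod_lt j a
    have b0 := mod_lt j b
    rw [← Nat.div_add_mod a (2 ^ 2 ^ j), ← Nat.div_add_mod b (2 ^ 2 ^ j),
      h.formula ih a1 a0 b1 b0]
    exact lt_FF
      (Nat.xor_lt_two_pow (Nat.xor_lt_two_pow (ih _ _ a1 b1) (ih _ _ a1 b0)) (ih _ _ a0 b1))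
      (Nat.xor_lt_two_pow (ih _ _ a0 b0) (ih _ _ (H_lt j) (ih _ _ a1 b1)))

lemma IsNimProduct.unique {op' : ℕ → ℕ → ℕ} (h : IsNimProduct op) (h' : IsNimProduct op') :
    op = op' := by
  have key : ∀ j a b, a < 2 ^ 2 ^ j → b < 2 ^ 2 ^ j → op a b = op' a b := by
    intro j
    induction j with
    | zero =>
      intro a b ha hb
      have : a = 0 ∨ a = 1 := by omega
      rcases this with rfl | rfl
      · rw [h.comm, h.mul_zero, h'.comm, h'.mul_zero]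
      · rw [h.one_mul, h'.one_mul]
    | succ j ih =>
      intro a b ha hb
      have a1 := div_lt ha
      have b1 := div_lt hb
      have a0 := mod_lt j a
      have b0 := mod_lt j b
      rw [← Nat.div_add_mod a (2 ^ 2 ^ j), ← Nat.div_add_mod b (2 ^ 2 ^ j),
        h.formula (h.closed j) a1 a0 b1 b0, h'.formula (h'.closed j) a1 a0 b1 b0,
        ih _ _ (H_lt j) (h.closed j _ _ a1 b1), ih _ _ a1 b1, ih _ _ a1 b0, ih _ _ a0 b1,
        ih _ _ a0 b0]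
  funext a b
  exact key (a + b) a b ((lt_F a).trans_le (F_mono (by omega)))
    ((lt_F b).trans_le (F_mono (by omega)))

lemma IsNimProduct.sq_formula (h : IsNimProduct op) {j a1 a0 : ℕ}
    (ha1 : a1 < 2 ^ 2 ^ j) (ha0 : a0 < 2 ^ 2 ^ j) :
    op (2 ^ 2 ^ j * a1 + a0) (2 ^ 2 ^ j * a1 + a0) =
      2 ^ 2 ^ j * op a1 a1 + (op a0 a0 ^^^ op (2 ^ (2 ^ j - 1)) (op a1 a1)) := by
  rw [h.formula (h.closed j) ha1 ha0 ha1 ha0, h.comm a0 a1, Nat.xor_assoc, Nat.xor_self,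
    Nat.xor_zero]

lemma IsNimProduct.sq_surj (h : IsNimProduct op) (j : ℕ) :
    ∀ x, x < 2 ^ 2 ^ j → ∃ a, a < 2 ^ 2 ^ j ∧ op a a = x := by
  induction j with
  | zero =>
    intro x hx
    have : x = 0 ∨ x = 1 := by omega
    rcases this with rfl | rfl
    · exact ⟨0, hx, h.mul_zero 0⟩
    · exact ⟨1, hx, h.one_mul 1⟩
  | succ j ih =>
    intro x hx
    obtain ⟨a, ha, ea⟩ := ih _ (div_lt hx)
    obtain ⟨b, hb, eb⟩ := ih _ (Nat.xor_lt_two_pow (mod_lt j x)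
      (h.closed j _ _ (H_lt j) (div_lt hx)))
    refine ⟨_, lt_FF ha hb, ?_⟩
    rw [h.sq_formula ha hb, ea, eb, Nat.xor_assoc, Nat.xor_self, Nat.xor_zero, Nat.div_add_mod]

lemma IsNimProduct.inv_H (h : IsNimProduct op) (j : ℕ) :
    ∃ u, u < 2 ^ 2 ^ j ∧ op (2 ^ (2 ^ j - 1)) u = 1 := by
  induction j with
  | zero => exact ⟨1, by norm_num, h.one_mul 1⟩
  | succ j ih =>
    obtain ⟨u, hu, e⟩ := ih
    have huu := h.closed j _ _ hu hu
    refine ⟨_, lt_FF huu huu, h.c_inj ?_⟩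
    have e' : h.c (2 ^ (2 ^ j - 1)) * h.c u = 1 := congrArg h.c e
    rw [h.c_op, h.c_join huu huu, H_succ, ← h.fermat_mul j _ (H_lt j), h.c_op, h.c_op, h.c_one]
    linear_combination (h.c (2 ^ (2 ^ j - 1)) * h.c u * h.c u) * h.c_sq j
      + (h.c (2 ^ (2 ^ j - 1)) * h.c u + 1) * e'
      + (h.c (2 ^ 2 ^ j) * h.c (2 ^ (2 ^ j - 1)) * h.c u * h.c u) * h.two

lemma IsNimProduct.odd (h : IsNimProduct op) (j : ℕ) :
    ∃ a, a < 2 ^ 2 ^ j ∧ op (2 ^ 2 ^ j * a) (2 ^ 2 ^ j * a) % 2 = 1 := by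
  obtain ⟨u, hu, e⟩ := h.inv_H j
  obtain ⟨a, ha, ea⟩ := h.sq_surj j u hu
  refine ⟨a, ha, ?_⟩
  have := h.sq_formula ha (show 0 < 2 ^ 2 ^ j by positivity)
  rw [add_zero, ea, e, h.mul_zero, Nat.zero_xor] at this
  rw [this, F_eq j, mul_assoc]
  omega

lemma IsNimProduct.even (h : IsNimProduct op) (j b : ℕ) (hb : b < 2 ^ 2 ^ j) :
    op (2 ^ 2 ^ (j + 1) * b) (2 ^ 2 ^ (j + 1) * b) % 2 = 0 := by
  have := h.sq_formula (hb.trans_le (F_mono (Nat.le_succ j)))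
    (show 0 < 2 ^ 2 ^ (j + 1) by positivity)
  rw [add_zero, h.mul_zero, Nat.zero_xor, H_succ, ← h.fermat_mul j _ (H_lt j), h.assoc,
    h.fermat_mul j _ (h.closed j _ _ (H_lt j) (h.closed j _ _ hb hb))] at this
  rw [this, F_eq j, F_eq (j + 1), mul_assoc, mul_assoc]
  omega

lemma IsNimProduct.not_periodic (h : IsNimProduct op) {e1 e2 : ℕ} (he : e1 < e2)
    (hp : ∀ n, op (2 ^ e1 * n) (2 ^ e1 * n) % 2 = op (2 ^ e2 * n) (2 ^ e2 * n) % 2) : False := by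
  obtain ⟨d, rfl⟩ := Nat.exists_eq_add_of_lt he
  have step : ∀ e, e1 ≤ e → ∀ t n, op (2 ^ e * n) (2 ^ e * n) % 2 =
      op (2 ^ (e + t * (d + 1)) * n) (2 ^ (e + t * (d + 1)) * n) % 2 := by
    intro e hle t n
    obtain ⟨c, rfl⟩ := Nat.exists_eq_add_of_le hle
    induction t with
    | zero => simp
    | succ t ih =>
      have h1 : 2 ^ (e1 + c + t * (d + 1)) * n = 2 ^ e1 * (2 ^ (c + t * (d + 1)) * n) := by ring
      have h2 : 2 ^ (e1 + c + (t + 1) * (d + 1)) * n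
          = 2 ^ (e1 + d + 1) * (2 ^ (c + t * (d + 1)) * n) := by ring
      rw [ih, h1, h2, hp]
  obtain ⟨a, ha, ho⟩ := h.odd e1
  have hle : e1 ≤ 2 ^ e1 := Nat.lt_two_pow_self.le
  have hA : 2 ^ e1 + d ≤ 2 ^ (e1 + d) := by
    have h1 : d + 1 ≤ 2 ^ d := Nat.lt_two_pow_self
    have h2 : 1 ≤ 2 ^ e1 := Nat.one_le_two_pow
    rw [pow_add]; nlinarith
  have hB : 2 ^ (e1 + d + 1) = 2 * 2 ^ (e1 + d) := by ring
  obtain ⟨t, i, hi, ht⟩ : ∃ t i, i ≤ d ∧ 2 ^ e1 + t * (d + 1) = 2 ^ (e1 + d + 1) + i := by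
    refine ⟨(2 ^ (e1 + d + 1) - 2 ^ e1 + d) / (d + 1),
      d - (2 ^ (e1 + d + 1) - 2 ^ e1 + d) % (d + 1), by omega, ?_⟩
    have h1 := Nat.div_add_mod (2 ^ (e1 + d + 1) - 2 ^ e1 + d) (d + 1)
    have h2 := Nat.mod_lt (2 ^ (e1 + d + 1) - 2 ^ e1 + d) (show d + 1 > 0 by omega)
    rw [mul_comm] at h1
    omega
  rw [step _ hle t a, ht, pow_add 2 (2 ^ (e1 + d + 1)), mul_assoc, h.even (e1 + d)] at ho
  · omega
  · calc 2 ^ i * a < 2 ^ i * 2 ^ 2 ^ e1 := by gcongr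
      _ = 2 ^ (i + 2 ^ e1) := by rw [pow_add]
      _ ≤ _ := Nat.pow_le_pow_right (by norm_num) (by omega)

lemma pigeon {ι : Type} (M : Submodule ℤ (ι → ℤ)) (hM : M.FG) (u : ℕ → ι → ℤ)
    (hu : ∀ e, u e ∈ M) : ∃ e1 e2, e1 < e2 ∧ ∀ i, u e1 i % 2 = u e2 i % 2 := by
  let φ : (ι → ℤ) →ₗ[ℤ] (ι → ZMod 2) :=
    { toFun := fun f i => (f i : ZMod 2)
      map_add' := fun f g => by funext i; simp
      map_smul' := fun c f => by funext i; simp }
  have : Module.Finite ℤ (M.map φ) := Module.Finite.iff_fg.mpr (hM.map φ)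
  have : Finite (M.map φ) := Module.finite_of_fg_torsion _ fun x => ⟨⟨2, by simp⟩, by
    apply Subtype.ext
    funext i
    change (2 : ℤ) • x.1 i = 0
    generalize x.1 i = y
    revert y
    decide⟩
  obtain ⟨a, b, hab, e⟩ := Finite.exists_ne_map_eq_of_infinite
    (fun e : ℕ => (⟨φ (u e), Submodule.mem_map_of_mem (hu e)⟩ : M.map φ))
  have e' : ∀ i, u a i % 2 = u b i % 2 := fun i =>
    (ZMod.intCast_eq_intCast_iff' _ _ 2).mp (congrFun (congrArg Subtype.val e) i)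
  rcases lt_or_gt_of_ne hab with h | h
  · exact ⟨a, b, h, e'⟩
  · exact ⟨b, a, h, fun i => (e' i).symm⟩

theorem exu : ∃! op : ℕ → ℕ → ℕ, IsNimProduct op :=
  ⟨nim, isNim_nim, fun _ h => h.unique isNim_nim⟩

theorem not_regular (h : IsNimProduct op) : ¬ IsTwoRegular (fun n => (op n n : ℤ)) := by
  intro hr
  obtain ⟨e1, e2, he, hp⟩ := pigeon _ hr (fun e n => (op (2 ^ e * n + 0) (2 ^ e * n + 0) : ℤ))
    fun e => Submodule.subset_span ⟨e, 0, by positivity, rfl⟩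
  refine h.not_periodic he fun n => ?_
  have := hp n
  simp only [add_zero] at this
  exact_mod_cast this

theorem not_regular_array (h : IsNimProduct op) :
    ¬ IsTwoRegularArray (fun p => (op p.1 p.2 : ℤ)) := by
  intro hr
  obtain ⟨e1, e2, he, hp⟩ := pigeon _ hr
    (fun e p => (op (2 ^ e * p.1 + 0) (2 ^ e * p.2 + 0) : ℤ))
    fun e => Submodule.subset_span ⟨e, 0, 0, by positivity, by positivity, rfl⟩
  refine h.not_periodic he fun n => ?_
  have := hp (n, n)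
  simp only [add_zero] at this
  exact_mod_cast this

end Pool.Agent.H33.Nim
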