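import Mathlib

set_option autoImplicit false

namespace Pool.Agent.H33.Nim

/-- The rules that fix the nim product `m ⊗ n = op m n`; the nim sum is `^^^` (exclusive or). -/
structure IsNimProduct (op : ℕ → ℕ → ℕ) : Prop where
  /-- Rule (a). -/
  fermat_mul : ∀ a n : ℕ, n < 2 ^ 2 ^ a → op (2 ^ 2 ^ a) n = 2 ^ 2 ^ a * n
  /-- Rule (b). -/
  fermat_sq : ∀ a : ℕ, op (2 ^ 2 ^ a) (2 ^ 2 ^ a) = 3 * 2 ^ 2 ^ a / 2
  /-- Associativity. -/
  assoc : ∀ a b c : ℕ, op (op a b) c = op a (op b c)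
  /-- Distributivity over the nim sum. -/
  distrib : ∀ a b c : ℕ, op a (b ^^^ c) = op a b ^^^ op a c
  /-- Commutativity. -/
  comm : ∀ a b : ℕ, op a b = op b a
  /-- The number `1` is the identity. -/
  one_mul : ∀ a : ℕ, op 1 a = a

/-- The 2-kernel of an integer sequence generates a finitely generated `ℤ`-module. -/
def IsTwoRegular (s : ℕ → ℤ) : Prop :=
  (Submodule.span ℤ
    {u : ℕ → ℤ | ∃ e r : ℕ, r < 2 ^ e ∧ u = fun n => s (2 ^ e * n + r)}).FG

/-- The 2-kernel of an integer array generates a finitely generated `ℤ`-module. -/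
def IsTwoRegularArray (t : ℕ × ℕ → ℤ) : Prop :=
  (Submodule.span ℤ
    {u : ℕ × ℕ → ℤ | ∃ e r r' : ℕ, r < 2 ^ e ∧ r' < 2 ^ e ∧
      u = fun p => t (2 ^ e * p.1 + r, 2 ^ e * p.2 + r')}).FG

end Pool.Agent.H33.Nim
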