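import Mathlib

namespace Pool.Agent.H33.Om

/-- Formal monomials in the variables `x_0, x_1, ...` for the signature `S` with arities `ar`. -/
inductive Mon (S : Type) (ar : S → ℕ) : Type
  | var : ℕ → Mon S ar
  | op (s : S) : (Fin (ar s) → Mon S ar) → Mon S ar

/-- An algebra structure of signature `(S, ar)` on the `k`-module `A`: one multilinear
operation for every symbol. -/
abbrev Ops (k : Type) [CommRing k] {S : Type} (ar : S → ℕ) (A : Type) [AddCommGroup A]
    [Module k A] : Type :=
  (s : S) → MultilinearMap k (fun _ : Fin (ar s) => A) A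

variable {k : Type} [CommRing k] {S : Type} {ar : S → ℕ}
  {A : Type} [AddCommGroup A] [Module k A] {B : Type} [AddCommGroup B] [Module k B]

/-- Value of a monomial under the substitution `x`. -/
def ev (w : Ops k ar A) (x : ℕ → A) : Mon S ar → A
  | .var i => x i
  | .op s m => w s (fun j => ev w x (m j))

/-- Value of an element of the free algebra (free `k`-module on monomials). -/
noncomputable def evF (w : Ops k ar A) (x : ℕ → A) (f : Mon S ar →₀ k) : A :=
  f.sum fun m c => c • ev w x m

/-- The identities of the algebra. -/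
def Ids (w : Ops k ar A) : Set (Mon S ar →₀ k) := {f | ∀ x, evF w x f = 0}

/-- `R` is a subalgebra. -/
def IsSub (w : Ops k ar A) (R : Submodule k A) : Prop :=
  ∀ s a, (∀ j, a j ∈ R) → w s a ∈ R

/-- `I` is an ideal of the subalgebra `R`. -/
def IsIdealIn (w : Ops k ar A) (R I : Submodule k A) : Prop :=
  I ≤ R ∧ ∀ s a, (∀ j, a j ∈ R) → (∃ j, a j ∈ I) → w s a ∈ I

/-- The identities of the section `R / I`: every substitution from `R` lands in `I`. -/
def SecIds (w : Ops k ar A) (R I : Submodule k A) : Set (Mon S ar →₀ k) :=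
  {f | ∀ x, (∀ i, x i ∈ R) → evF w x f ∈ I}

/-- Critical: the algebra fails some identity common to all of its proper sections. -/
def Critical (w : Ops k ar A) : Prop :=
  ¬ ∀ f, (∀ R I, IsSub w R → IsIdealIn w R I → ¬ (R = ⊤ ∧ I = ⊥) → f ∈ SecIds w R I) →
    f ∈ Ids w

/-- Isomorphism of algebras of the same signature. -/
def Iso (w : Ops k ar A) (v : Ops k ar B) : Prop :=
  ∃ g : A ≃ₗ[k] B, ∀ s a, g (w s a) = v s (fun j => g (a j))

/-- The reduct to the smaller signature `O`. -/
def reduct (w : Ops k ar A) (O : Set S) : Ops k (fun s : O => ar s.1) A := fun s => w s.1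

end Pool.Agent.H33.Om
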