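import Mathlib

namespace Pool.Agent.H33.Ori

open scoped Real

/-- The orientation cocycle of the circle: the sign of the oriented area of the triangle `a b c`. -/
noncomputable def Or (a b c : Circle) : ℝ :=
  SignType.sign (starRingEnd ℂ ((b : ℂ) - a) * ((c : ℂ) - a)).im

/-- The alternated product `Θ_n` of the orientation cocycles of the `n` coordinates. -/
noncomputable def Theta (n : ℕ) (θ : Fin (2 * n + 1) → Fin n → Circle) : ℝ :=
  π ^ n / (2 * n + 1).factorial * ∑ σ : Equiv.Perm (Fin (2 * n + 1)),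
    ((Equiv.Perm.sign σ : ℤ) : ℝ) * ∏ i : Fin n, Or (θ (σ ⟨2 * i, by omega⟩) i)
      (θ (σ ⟨2 * i + 1, by omega⟩) i) (θ (σ ⟨2 * i + 2, by omega⟩) i)

/-- The configuration `θ*`: the coordinate number `k + 1` of the point number `j` is
`ζ ^ ((k + 1) j)`, where `ζ = exp (2 π i / (2 n + 1))`. -/
noncomputable def conf (n : ℕ) (j : Fin (2 * n + 1)) (k : Fin n) : Circle :=
  Circle.exp (2 * π / (2 * n + 1)) ^ ((k + 1) * j : ℕ)

end Pool.Agent.H33.Ori
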