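import Mathlib

namespace Pool.Agent.H33.Owa

variable {n k : ℕ} {m : Fin k → ℕ}

/-- Approval ballots: issue `i` has the candidates `Fin (m i)`, ordered by tie-breaking
priority (smaller index preferred). -/
abbrev Ballots (n k : ℕ) (m : Fin k → ℕ) : Type := (i : Fin k) → Fin n → Finset (Fin (m i))

abbrev Outcome (k : ℕ) (m : Fin k → ℕ) : Type := (i : Fin k) → Fin (m i)

/-- Satisfaction of `v` counted over the issues with index below `j`. -/
def sat (A : Ballots n k m) (w : Outcome k m) (j : ℕ) (v : Fin n) : ℕ :=
  (Finset.univ.filter fun i : Fin k => i.1 < j ∧ w i ∈ A i v).card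

/-- The weights `a` applied to the increasingly sorted vector `x`. -/
def owa (a : Fin n → ℝ) (x : Fin n → ℕ) : ℝ := ∑ j, a j * (x (Tuple.sort x j) : ℝ)

/-- The value of choosing `c` on issue `i` after the earlier choices of `w`. -/
def score (a : Fin n → ℝ) (A : Ballots n k m) (w : Outcome k m) (i : Fin k) (c : Fin (m i)) : ℝ :=
  owa a (sat A (Function.update w i c) (i.1 + 1))

/-- `w` is the outcome of the sequential OWA rule: on each issue `w i` maximizes the score and
is the first maximizer in the tie-breaking order. -/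
def IsOutcome (a : Fin n → ℝ) (A : Ballots n k m) (w : Outcome k m) : Prop :=
  ∀ i c, score a A w i c < score a A w i (w i) ∨
    (score a A w i c = score a A w i (w i) ∧ w i ≤ c)

/-- An OWA rule: first weight positive, all weights nonnegative. -/
def IsRule (α : (n : ℕ) → Fin n → ℝ) : Prop :=
  (∀ n, 0 < α (n + 1) 0) ∧ ∀ n j, 0 ≤ α n j

/-- No free-riding lowers the true satisfaction of the free-rider. -/
def NeverHarmful (α : (n : ℕ) → Fin n → ℝ) : Prop :=
  ∀ (n k : ℕ) (m : Fin k → ℕ) (A B : Ballots n k m) (w w' : Outcome k m) (v : Fin n) (i : Fin k),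
    IsOutcome (α n) A w → IsOutcome (α n) B w' →
    (∀ j u, ¬ (j = i ∧ u = v) → B j u = A j u) →
    w i ∈ A i v → w i ∉ B i v → w' i = w i → sat A w k v ≤ sat A w' k v

end Pool.Agent.H33.Owa
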