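import Mathlib

set_option autoImplicit false

namespace Pool.Agent.H33.Popov

/-- The Hausdorff difference of `f` and `g` at `x`, on the interval `[-1, 1]`. -/
noncomputable def hdiff (f g : ℝ → ℝ) (x : ℝ) : ℝ :=
  max (⨅ ξ : Set.Icc (-1 : ℝ) 1, max |x - ξ| |f x - g ξ|)
    (⨅ ξ : Set.Icc (-1 : ℝ) 1, max |x - ξ| |f ξ - g x|)

/-- The Hausdorff distance of `f` and `g` on `[-1, 1]`. -/
noncomputable def hdist (f g : ℝ → ℝ) : ℝ := ⨆ x : Set.Icc (-1 : ℝ) 1, hdiff f g x

/-- The best Hausdorff approximation by real polynomials of degree at most `n`. -/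
noncomputable def best (n : ℕ) (f : ℝ → ℝ) : ℝ :=
  ⨅ p : {p : Polynomial ℝ // p.natDegree ≤ n}, hdist f (fun x => p.1.eval x)

end Pool.Agent.H33.Popov
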