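import Mathlib

namespace Pool.Agent.H33.Ppc

open Filter Topology Finset

abbrev C := UnitAddCircle

noncomputable def cnt (x : ℕ → C) (N : ℕ) (r : ℝ) : ℕ :=
  ((range N ×ˢ range N).filter (fun p => p.1 ≠ p.2 ∧ ‖x p.1 - x p.2‖ < r)).card

def CP (x : ℕ → C) : Prop :=
  ∀ s : ℝ, 0 < s → Tendsto (fun N : ℕ => (cnt x N (s / N) : ℝ) / N) atTop (𝓝 (2 * s))

lemma cnt_mono (x : ℕ → C) {N N' : ℕ} {r r' : ℝ} (hN : N ≤ N') (hr : r ≤ r') :
    cnt x N r ≤ cnt x N' r' := by
  unfold cnt
  apply card_le_card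
  intro p hp
  simp only [mem_filter, mem_product, mem_range] at hp ⊢
  exact ⟨⟨by omega, by omega⟩, hp.2.1, hp.2.2.trans_le hr⟩

/-- squeeze from approximate parameters -/
lemma tendsto_of_approx (F : ℕ → ℝ) (L : ℝ)
    (hup : ∀ ε > 0, ∀ᶠ N in atTop, F N ≤ L + ε) (hlo : ∀ ε > 0, ∀ᶠ N in atTop, L - ε ≤ F N) :
    Tendsto F atTop (𝓝 L) := by
  rw [Metric.tendsto_nhds]
  intro ε hε
  filter_upwards [hup (ε / 2) (by positivity), hlo (ε / 2) (by positivity)] with N h1 h2
  rw [Real.dist_eq, abs_lt]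
  constructor <;> linarith

def rt (N : ℕ) : ℕ := Nat.sqrt (Nat.sqrt N)

lemma rt_le (N : ℕ) : rt N ^ 4 ≤ N := by
  unfold rt
  have h1 := Nat.sqrt_le' N
  have h2 := Nat.sqrt_le' (Nat.sqrt N)
  calc _ = (Nat.sqrt (Nat.sqrt N) ^ 2) ^ 2 := by ring
    _ ≤ (Nat.sqrt N) ^ 2 := by gcongr
    _ ≤ N := h1

lemma lt_rt (N : ℕ) : N < (rt N + 1) ^ 4 := by
  unfold rt
  have h1 := Nat.lt_succ_sqrt' N
  have h2 := Nat.lt_succ_sqrt' (Nat.sqrt N)
  have h3 : Nat.sqrt N + 1 ≤ (Nat.sqrt (Nat.sqrt N) + 1) ^ 2 := h2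
  calc N < (Nat.sqrt N + 1) ^ 2 := h1
    _ ≤ ((Nat.sqrt (Nat.sqrt N) + 1) ^ 2) ^ 2 := by gcongr
    _ = _ := by ring

lemma tendsto_rt : Tendsto rt atTop atTop := by
  rw [tendsto_atTop_atTop]
  intro b
  refine ⟨b ^ 4, fun N hN => ?_⟩
  have := lt_rt N
  by_contra h
  push Not at h
  have : (rt N + 1) ^ 4 ≤ b ^ 4 := Nat.pow_le_pow_left h 4
  omega

lemma tendsto_ratio : Tendsto (fun m : ℕ => (((m + 1 : ℕ) : ℝ) ^ 4) / (m : ℝ) ^ 4) atTop (𝓝 1) := by
  have h : Tendsto (fun m : ℕ => (1 + ((m : ℝ))⁻¹) ^ 4) atTop (𝓝 ((1 + 0) ^ 4)) :=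
    (tendsto_const_nhds.add (tendsto_inv_atTop_zero.comp tendsto_natCast_atTop_atTop)).pow 4
  simp only [add_zero, one_pow] at h
  refine h.congr' ?_
  filter_upwards [eventually_gt_atTop 0] with m hm
  have : (m : ℝ) ≠ 0 := by positivity
  push_cast
  field_simp

/-- interpolation from fourth powers and rational parameters -/
lemma cp_of_sub (x : ℕ → C)
    (h : ∀ s : ℚ, 0 < s → Tendsto (fun m : ℕ => (cnt x (m ^ 4) (s / (m ^ 4 : ℕ)) : ℝ) / (m ^ 4 : ℕ))
      atTop (𝓝 (2 * s))) : CP x := by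
  intro s hs
  have hρ := tendsto_ratio.comp tendsto_rt
  apply tendsto_of_approx
  · intro ε hε
    obtain ⟨t, ht1, ht2⟩ := exists_rat_btwn (show s < s + ε / 4 by linarith)
    have ht0 : (0 : ℚ) < t := by exact_mod_cast hs.trans ht1
    have h1 := ((h t ht0).comp (tendsto_add_atTop_nat 1)).comp tendsto_rt
    have h2 := h1.mul hρ
    have h3 := hρ.const_mul s
    simp only [mul_one] at h2 h3
    filter_upwards [h2.eventually (gt_mem_nhds (show 2 * (t : ℝ) < 2 * s + ε by linarith)),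
      h3.eventually (gt_mem_nhds ht1), tendsto_rt.eventually (eventually_gt_atTop 0)]
      with N a1 a2 a3
    simp only [Function.comp] at a1 a2
    set m := rt N
    have b1 : ((m : ℝ)) ^ 4 ≤ N := by exact_mod_cast rt_le N
    have b2 : (N : ℝ) ≤ ((m + 1 : ℕ) : ℝ) ^ 4 := by exact_mod_cast (lt_rt N).le
    have hm : (0 : ℝ) < (m : ℝ) ^ 4 := by positivity
    have hm1 : (0 : ℝ) < ((m + 1 : ℕ) : ℝ) ^ 4 := by positivity
    have hN : (0 : ℝ) < N := hm.trans_le b1
    have c1 : cnt x N (s / N) ≤ cnt x ((m + 1) ^ 4) (t / ((m + 1) ^ 4 : ℕ)) := by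
      apply cnt_mono _ (lt_rt N).le
      rw [Nat.cast_pow, div_le_div_iff₀ hN hm1]
      rw [← mul_div_assoc, div_lt_iff₀ hm] at a2
      have : (0 : ℝ) < t := by exact_mod_cast ht0
      nlinarith
    have c2 : (cnt x N (s / N) : ℝ) ≤ cnt x ((m + 1) ^ 4) (t / ((m + 1) ^ 4 : ℕ)) := by
      exact_mod_cast c1
    refine le_trans ?_ a1.le
    rw [Nat.cast_pow (m + 1) 4] at *
    rw [div_mul_div_cancel₀ hm1.ne']
    exact div_le_div₀ (by positivity) c2 hm b1
  · intro ε hε
    by_cases hsε : 2 * s - ε ≤ 0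
    · exact Eventually.of_forall fun N => hsε.trans (by positivity)
    obtain ⟨t, ht1, ht2⟩ := exists_rat_btwn (show s - ε / 4 < s by linarith)
    have ht0' : (0 : ℝ) < t := by linarith
    have ht0 : (0 : ℚ) < t := by exact_mod_cast ht0'
    have h1 := (h t ht0).comp tendsto_rt
    have h2 := h1.div hρ one_ne_zero
    have h3 := hρ.const_mul (t : ℝ)
    simp only [mul_one, div_one] at h2 h3
    filter_upwards [h2.eventually (lt_mem_nhds (show 2 * s - ε < 2 * (t : ℝ) by linarith)),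
      h3.eventually (gt_mem_nhds ht2), tendsto_rt.eventually (eventually_gt_atTop 0)]
      with N a1 a2 a3
    simp only [Function.comp, Pi.div_apply] at a1 a2
    set m := rt N
    have b1 : ((m : ℝ)) ^ 4 ≤ N := by exact_mod_cast rt_le N
    have b2 : (N : ℝ) ≤ ((m + 1 : ℕ) : ℝ) ^ 4 := by exact_mod_cast (lt_rt N).le
    have hm : (0 : ℝ) < (m : ℝ) ^ 4 := by positivity
    have hm1 : (0 : ℝ) < ((m + 1 : ℕ) : ℝ) ^ 4 := by positivity
    have hN : (0 : ℝ) < N := hm.trans_le b1
    have c1 : cnt x (m ^ 4) (t / (m ^ 4 : ℕ)) ≤ cnt x N (s / N) := by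
      apply cnt_mono _ (rt_le N)
      rw [Nat.cast_pow, div_le_div_iff₀ hm hN]
      rw [← mul_div_assoc, div_lt_iff₀ hm] at a2
      nlinarith
    have c2 : (cnt x (m ^ 4) (t / (m ^ 4 : ℕ)) : ℝ) ≤ cnt x N (s / N) := by
      exact_mod_cast c1
    refine le_trans a1.le ?_
    rw [Nat.cast_pow m 4] at *
    rw [div_div_div_cancel_right₀ hm.ne']
    exact div_le_div₀ (by positivity) c2 hN b2

noncomputable def loc (x : ℕ → C) (N : ℕ) (z : C) (r : ℝ) : ℕ :=
  ((range N).filter (fun l => ‖z - x l‖ < r)).card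

lemma loc_sq (x : ℕ → C) (N : ℕ) (z : C) (r : ℝ) :
    loc x N z r ^ 2 ≤ N + cnt x N (2 * r) := by
  classical
  set S := (range N).filter (fun l => ‖z - x l‖ < r)
  have h1 : S.offDiag.card ≤ cnt x N (2 * r) := by
    apply card_le_card
    intro p hp
    simp only [S, mem_offDiag, mem_filter, mem_product, mem_range] at hp ⊢
    refine ⟨⟨hp.1.1, hp.2.1.1⟩, hp.2.2, ?_⟩
    have : x p.1 - x p.2 = (z - x p.2) - (z - x p.1) := by abel
    rw [this]
    have := norm_sub_le (z - x p.2) (z - x p.1)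
    linarith [hp.1.2, hp.2.1.2]
  have h2 : S.card ≤ N := by simpa using card_filter_le (range N) (fun l => ‖z - x l‖ < r)
  rw [offDiag_card] at h1
  have h3 : S.card ≤ S.card * S.card := Nat.le_mul_self _
  show S.card ^ 2 ≤ _
  rw [sq]
  omega

lemma loc_pert (x y : ℕ → C) (N K : ℕ) (z : C) (r η : ℝ)
    (h : ∀ k, K ≤ k → ‖x k - y k‖ ≤ η) : loc y N z r ≤ K + loc x N z (r + η) := by
  classical
  unfold loc
  calc _ ≤ (range K ∪ (range N).filter (fun l => ‖z - x l‖ < r + η)).card := by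
        apply card_le_card
        intro l hl
        simp only [mem_filter, mem_union, mem_range] at hl ⊢
        by_cases hK : l < K
        · exact Or.inl hK
        · right
          refine ⟨hl.1, ?_⟩
          have : z - x l = (z - y l) - (x l - y l) := by abel
          rw [this]
          have := norm_sub_le (z - y l) (x l - y l)
          linarith [h l (by omega), hl.2]
    _ ≤ _ := by simpa using card_union_le (range K) _

lemma cnt_pert (x y : ℕ → C) (N K m : ℕ) (r η : ℝ)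
    (h : ∀ k, K ≤ k → ‖x k - y k‖ ≤ η) (hm : ∀ z, loc y N z r ≤ m) :
    cnt y N r ≤ cnt x N (r + 2 * η) + 2 * (K * m) := by
  classical
  unfold cnt
  let A := (range K).biUnion (fun k => ((range N).filter (fun l => ‖y k - y l‖ < r)).image
    (fun l => (k, l)))
  let B := A.image Prod.swap
  have hA : A.card ≤ K * m := by
    refine card_biUnion_le.trans ?_
    refine (sum_le_card_nsmul _ _ m fun k _ => card_image_le.trans (hm (y k))).trans ?_
    simp
  have hB : B.card ≤ K * m := card_image_le.trans hA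
  calc _ ≤ (((range N ×ˢ range N).filter (fun p => p.1 ≠ p.2 ∧ ‖x p.1 - x p.2‖ < r + 2 * η))
          ∪ A ∪ B).card := by
        apply card_le_card
        rintro ⟨k, l⟩ hp
        simp only [mem_filter, mem_product, mem_range] at hp
        simp only [mem_union]
        by_cases hk : k < K
        · left; right
          simp only [A, mem_biUnion, mem_image, mem_filter, mem_range]
          exact ⟨k, hk, l, ⟨hp.1.2, hp.2.2⟩, rfl⟩
        by_cases hl : l < K
        · right
          simp only [B, A, mem_biUnion, mem_image, mem_filter, mem_range]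
          exact ⟨(l, k), ⟨l, hl, k, ⟨hp.1.1, by rw [norm_sub_rev]; exact hp.2.2⟩, rfl⟩, rfl⟩
        · left; left
          simp only [mem_filter, mem_product, mem_range]
          refine ⟨hp.1, hp.2.1, ?_⟩
          have : x k - x l = (y k - y l) + (x k - y k) - (x l - y l) := by abel
          rw [this]
          have h1 := norm_sub_le ((y k - y l) + (x k - y k)) (x l - y l)
          have h2 := norm_add_le (y k - y l) (x k - y k)
          linarith [h k (by omega), h l (by omega), hp.2.2]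
    _ ≤ _ := by
        refine (card_union_le _ _).trans ?_
        refine (Nat.add_le_add_right (card_union_le _ _) _).trans ?_
        omega

/-- one-sided perturbation estimate in asymptotic form -/
lemma pert_asym (x y : ℕ → C) (h : ∀ k, ‖x k - y k‖ ≤ 1 / ((k : ℝ) + 1) ^ 3)
    (r δ D ε : ℝ) (hr : 0 < r) (hδ : 0 < δ) (hD : 0 < D) (hε : 0 < ε)
    (hloc : ∀ᶠ N : ℕ in atTop, ∀ z, (∀ K : ℕ, (∀ k, K ≤ k → ‖x k - y k‖ ≤ δ / N) →
      (loc y N z (r / N) : ℝ) ≤ K + D * √N)) :
    ∀ᶠ N : ℕ in atTop, (cnt y N (r / N) : ℝ) / N ≤ (cnt x N ((r + 2 * δ) / N) : ℝ) / N + ε := by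
  obtain ⟨e, he0, he1, he2⟩ : ∃ e : ℝ, 0 < e ∧ e ≤ 1 ∧ 2 * e * (2 + D) ≤ ε := by
    refine ⟨min 1 (ε / (2 * (2 + D))), by positivity, min_le_left _ _, ?_⟩
    have h1 : min 1 (ε / (2 * (2 + D))) ≤ ε / (2 * (2 + D)) := min_le_right _ _
    rw [le_div_iff₀ (by positivity)] at h1
    linarith
  have hsq : Tendsto (fun N : ℕ => √(N : ℝ)) atTop atTop :=
    Real.tendsto_sqrt_atTop.comp tendsto_natCast_atTop_atTop
  filter_upwards [hloc, hsq.eventually_ge_atTop (1 / (e ^ 3 * δ)), eventually_ge_atTop 1]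
    with N h1 h2 h3
  have hN : (1 : ℝ) ≤ N := by exact_mod_cast h3
  set q := √(N : ℝ) with hq
  have hq2 : q * q = N := Real.mul_self_sqrt (by linarith)
  have hq1 : 1 ≤ q := by rw [hq]; exact Real.one_le_sqrt.mpr hN
  set K := ⌊e * q⌋₊
  have hK1 : (K : ℝ) ≤ e * q := Nat.floor_le (by positivity)
  have hK2 : e * q < K + 1 := Nat.lt_floor_add_one _
  have hk : ∀ k, K ≤ k → ‖x k - y k‖ ≤ δ / N := by
    intro k hk
    refine (h k).trans ?_
    have a1 : e * q ≤ (k : ℝ) + 1 := by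
      have : (K : ℝ) ≤ k := by exact_mod_cast hk
      linarith
    have a2 : (e * q) ^ 3 ≤ ((k : ℝ) + 1) ^ 3 := by gcongr
    rw [div_le_div_iff₀ (by positivity) (by positivity)]
    rw [div_le_iff₀ (by positivity)] at h2
    calc 1 * (N : ℝ) ≤ (q * (e ^ 3 * δ)) * N := by gcongr
      _ = δ * (e * q) ^ 3 := by rw [← hq2]; ring
      _ ≤ _ := by gcongr
  set m := ⌊(K : ℝ) + D * q⌋₊
  have hm : ∀ z, loc y N z (r / N) ≤ m := fun z => Nat.le_floor (h1 z K hk)
  have hm' : (m : ℝ) ≤ K + D * q := Nat.floor_le (by positivity)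
  have := cnt_pert x y N K m (r / N) (δ / N) hk hm
  have e1 : r / N + 2 * (δ / N) = (r + 2 * δ) / N := by ring
  rw [e1] at this
  have this' : (cnt y N (r / N) : ℝ) ≤ cnt x N ((r + 2 * δ) / N) + 2 * (K * m) := by
    exact_mod_cast this
  rw [div_add' _ _ _ (by positivity), div_le_div_iff_of_pos_right (by positivity)]
  have : (K : ℝ) * m ≤ (e * q) * (q + D * q) := by
    have : (K : ℝ) ≤ q := hK1.trans (by nlinarith)
    gcongr
    linarith
  have e2 : (e * q) * (q + D * q) = e * (1 + D) * N := by rw [← hq2]; ring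
  have : e * (1 + D) * N * 2 ≤ ε * N := by
    have : e * (1 + D) * 2 ≤ ε := by nlinarith
    nlinarith
  linarith

lemma loc_asym (x : ℕ → C) (hx : CP x) (r : ℝ) (hr : 0 < r) :
    ∀ᶠ N : ℕ in atTop, ∀ z, (loc x N z (r / N) : ℝ) ≤ (4 * r + 2) * √N := by
  have := (hx (2 * r) (by positivity)).eventually (gt_mem_nhds (show 2 * (2 * r) < 4 * r + 1 by
    linarith))
  filter_upwards [this, eventually_ge_atTop 1] with N h1 h3 z
  have hN : (1 : ℝ) ≤ N := by exact_mod_cast h3
  have h2 := loc_sq x N z (r / N)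
  have e : 2 * (r / N) = 2 * r / N := by ring
  rw [e] at h2
  have h2' : (loc x N z (r / N) : ℝ) ^ 2 ≤ N + cnt x N (2 * r / N) := by exact_mod_cast h2
  rw [div_lt_iff₀ (by positivity)] at h1
  have hq2 : √(N : ℝ) * √N = N := Real.mul_self_sqrt (by linarith)
  refine (pow_le_pow_iff_left₀ (by positivity) (by positivity) two_ne_zero).mp ?_
  have : ((4 * r + 2) * √(N : ℝ)) ^ 2 = (4 * r + 2) ^ 2 * N := by
    rw [mul_pow, sq √(N : ℝ), hq2]
  rw [this]
  have : (4 * r + 2) * N ≤ (4 * r + 2) ^ 2 * N := by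
    gcongr
    nlinarith
  linarith

theorem cp_pert (x y : ℕ → C) (hx : CP x) (h : ∀ k, ‖x k - y k‖ ≤ 1 / ((k : ℝ) + 1) ^ 3) :
    CP y := by
  intro s hs
  apply tendsto_of_approx
  · intro ε hε
    have h1 := pert_asym x y h s (ε / 16) (4 * (s + ε / 16) + 2) (ε / 2) hs (by positivity)
      (by positivity) (by positivity) ?_
    · have h2 := (hx (s + 2 * (ε / 16)) (by positivity)).eventually
        (gt_mem_nhds (show 2 * (s + 2 * (ε / 16)) < 2 * s + ε / 2 by linarith))
      filter_upwards [h1, h2] with N a1 a2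
      linarith
    · filter_upwards [loc_asym x hx (s + ε / 16) (by positivity)] with N a1 z K hK
      have b1 := loc_pert x y N K z (s / N) (ε / 16 / N) hK
      have e : s / N + ε / 16 / N = (s + ε / 16) / N := by ring
      rw [e] at b1
      have b2 : (loc y N z (s / N) : ℝ) ≤ K + loc x N z ((s + ε / 16) / N) := by exact_mod_cast b1
      linarith [a1 z]
  · intro ε hε
    by_cases hsε : 2 * s - ε ≤ 0
    · exact Eventually.of_forall fun N => hsε.trans (by positivity)
    have hr : 0 < s - ε / 8 := by linarith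
    have h1 := pert_asym y x (fun k => by rw [norm_sub_rev]; exact h k) (s - ε / 8) (ε / 16)
      (4 * (s - ε / 8) + 2) (ε / 2) hr (by positivity)
      (by positivity) (by positivity) ?_
    · have h2 := (hx (s - ε / 8) hr).eventually
        (lt_mem_nhds (show 2 * s - ε / 2 < 2 * (s - ε / 8) by linarith))
      filter_upwards [h1, h2] with N a1 a2
      have e : s - ε / 8 + 2 * (ε / 16) = s := by ring
      rw [e] at a1
      linarith
    · filter_upwards [loc_asym x hx (s - ε / 8) hr] with N a1 z K _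
      have : (0 : ℝ) ≤ K := by positivity
      linarith [a1 z]

end Pool.Agent.H33.Ppc
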