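import Pool.Agent.H33.Ppc1

namespace Pool.Agent.H33.Ppc

open Filter Topology Finset MeasureTheory

abbrev Om := ℕ → C

noncomputable def mu : Measure Om := Measure.addHaarMeasure ⊤

instance : (mu).IsAddHaarMeasure := by unfold mu; infer_instance

instance : IsProbabilityMeasure mu := ⟨by
  have := Measure.addHaarMeasure_self (G := Om) (K₀ := ⊤)
  simpa [mu] using this⟩

instance volProb : IsProbabilityMeasure (volume : Measure C) := ⟨UnitAddCircle.measure_univ⟩

lemma vol_ball (z : C) (r : ℝ) (hr : r ≤ 1 / 2) :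
    volume (Metric.ball z r) = ENNReal.ofReal (2 * r) := by
  rw [← measure_congr AddCircle.closedBall_ae_eq_ball, AddCircle.volume_closedBall,
    min_eq_right (by linarith)]

lemma indep (φ : Om → C) (hφ : Measurable φ) (G : ℕ) (E : Set Om) (hE : MeasurableSet E)
    (h1 : ∀ ω t, φ (ω + Pi.single G t) = φ ω + t)
    (h2 : ∀ ω t, ω + Pi.single G t ∈ E ↔ ω ∈ E) (A : Set C) (hA : MeasurableSet A) :
    mu (φ ⁻¹' A ∩ E) = volume A * mu E := by
  let W : Set (Om × C) := {p | φ p.1 + p.2 ∈ A ∧ p.1 ∈ E}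
  have hW : MeasurableSet W :=
    (((hφ.comp measurable_fst).add measurable_snd) hA).inter (measurable_fst hE)
  have e1 : (mu.prod (volume : Measure C)) W = volume A * mu E := by
    rw [Measure.prod_apply hW]
    have : ∀ ω, (volume : Measure C) (Prod.mk ω ⁻¹' W) = E.indicator (fun _ => volume A) ω := by
      intro ω
      by_cases hω : ω ∈ E
      · rw [Set.indicator_of_mem hω, ← measure_preimage_add volume (φ ω) A]
        congr 1
        ext t
        simp [W, hω]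
      · rw [Set.indicator_of_notMem hω]
        have : Prod.mk ω ⁻¹' W = ∅ := by
          ext t
          simp [W, hω]
        rw [this, measure_empty]
    simp_rw [this]
    rw [lintegral_indicator_const hE]
  have e2 : (mu.prod (volume : Measure C)) W = mu (φ ⁻¹' A ∩ E) := by
    rw [Measure.prod_apply_symm hW]
    have : ∀ t : C, mu ((fun ω => (ω, t)) ⁻¹' W) = mu (φ ⁻¹' A ∩ E) := by
      intro t
      rw [← measure_preimage_add_right mu (Pi.single G t) (φ ⁻¹' A ∩ E)]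
      congr 1
      ext ω
      simp [W, h1, h2]
    simp_rw [this]
    simp
  rw [← e2, e1]

variable (g : ℕ → ℕ) (c : ℕ → C)

def X (ω : Om) (n : ℕ) : C := ω (g n) + c n

def Ev (r : ℝ) (p : ℕ × ℕ) : Set Om := {ω | ‖X g c ω p.1 - X g c ω p.2‖ < r}

lemma meas_diff (k l : ℕ) : Measurable (fun ω => X g c ω k - X g c ω l) := by
  unfold X
  fun_prop

lemma Ev_eq (r : ℝ) (p : ℕ × ℕ) :
    Ev g c r p = (fun ω => X g c ω p.1 - X g c ω p.2) ⁻¹' Metric.ball 0 r := by
  ext ω
  simp [Ev]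

lemma Ev_swap (r : ℝ) (k l : ℕ) : Ev g c r (k, l) = Ev g c r (l, k) := by
  ext ω
  simp only [Ev, Set.mem_ofPred_eq]
  rw [norm_sub_rev]

lemma meas_Ev (r : ℝ) (p : ℕ × ℕ) : MeasurableSet (Ev g c r p) := by
  rw [Ev_eq]
  exact meas_diff g c _ _ Metric.isOpen_ball.measurableSet

lemma Ev_indep (r : ℝ) (hr : r ≤ 1 / 2) (k l : ℕ) (hkl : g k ≠ g l) (E : Set Om)
    (hE : MeasurableSet E) (h2 : ∀ ω t, ω + Pi.single (g k) t ∈ E ↔ ω ∈ E) :
    mu (Ev g c r (k, l) ∩ E) = ENNReal.ofReal (2 * r) * mu E := by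
  rw [Ev_eq, indep _ (meas_diff g c k l) (g k) E hE _ h2 _ Metric.isOpen_ball.measurableSet,
    vol_ball _ _ hr]
  intro ω t
  simp only [X, Pi.add_apply, Pi.single_eq_same, Pi.single_eq_of_ne hkl.symm]
  abel

lemma mu_Ev (r : ℝ) (hr0 : 0 ≤ r) (hr : r ≤ 1 / 2) (p : ℕ × ℕ) (hp : g p.1 ≠ g p.2) :
    mu.real (Ev g c r p) = 2 * r := by
  have := Ev_indep g c r hr p.1 p.2 hp Set.univ MeasurableSet.univ (by simp)
  simp only [Set.inter_univ, measure_univ, mul_one] at this
  rw [Measure.real, this, ENNReal.toReal_ofReal (by positivity)]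

def Rel (p q : ℕ × ℕ) : Prop :=
  (g p.1 = g q.1 ∧ g p.2 = g q.2) ∨ (g p.1 = g q.2 ∧ g p.2 = g q.1)

lemma Ev_inv (r : ℝ) (q : ℕ × ℕ) (G : ℕ) (h1 : G ≠ g q.1) (h2 : G ≠ g q.2) (ω : Om) (t : C) :
    ω + Pi.single G t ∈ Ev g c r q ↔ ω ∈ Ev g c r q := by
  simp [Ev, X, Pi.single_eq_of_ne h1.symm, Pi.single_eq_of_ne h2.symm]

lemma mu_Ev2 (r : ℝ) (hr0 : 0 ≤ r) (hr : r ≤ 1 / 2) (p q : ℕ × ℕ) (hp : g p.1 ≠ g p.2)
    (hq : g q.1 ≠ g q.2) (hpq : ¬ Rel g p q) :
    mu.real (Ev g c r p ∩ Ev g c r q) = (2 * r) ^ 2 := by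
  obtain ⟨k, l⟩ := p
  have hq' := mu_Ev g c r hr0 hr q hq
  have key : mu (Ev g c r (k, l) ∩ Ev g c r q) = ENNReal.ofReal (2 * r) * mu (Ev g c r q) := by
    by_cases h : g k ≠ g q.1 ∧ g k ≠ g q.2
    · exact Ev_indep g c r hr k l hp _ (meas_Ev g c r q) (Ev_inv g c r q _ h.1 h.2)
    · rw [Ev_swap]
      have h' : g l ≠ g q.1 ∧ g l ≠ g q.2 := by
        simp only [Rel] at hpq hp
        omega
      exact Ev_indep g c r hr l k (Ne.symm hp) _ (meas_Ev g c r q) (Ev_inv g c r q _ h'.1 h'.2)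
  rw [Measure.real, key, ENNReal.toReal_mul, ENNReal.toReal_ofReal (by positivity), sq]
  congr 1

def P (N : ℕ) : Finset (ℕ × ℕ) := (range N ×ˢ range N).filter (fun p => g p.1 ≠ g p.2)

noncomputable def I (r : ℝ) (p : ℕ × ℕ) (ω : Om) : ℝ := (Ev g c r p).indicator 1 ω

noncomputable def Z (N : ℕ) (r : ℝ) (ω : Om) : ℝ := ∑ p ∈ P g N, (I g c r p ω - 2 * r)

def grp (N G : ℕ) : Finset ℕ := (range N).filter (fun k => g k = G)

open Classical in
lemma cross_le (N : ℕ) (r : ℝ) (ω : Om)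
    (hsep : ∀ k < N, ∀ l < N, k ≠ l → g k = g l → 2 * r ≤ ‖c k - c l‖) (G H : ℕ) :
    ((P g N).filter (fun q => (g q.1 = G ∧ g q.2 = H) ∧ ω ∈ Ev g c r q)).card
      ≤ min (grp g N G).card (grp g N H).card := by
  have key : ∀ k < N, ∀ k' < N, ∀ l, g k = g k' → ‖X g c ω k - X g c ω l‖ < r →
      ‖X g c ω k' - X g c ω l‖ < r → k = k' := by
    intro k hk k' hk' l h1 h2 h3
    by_contra hne
    have h4 := hsep k hk k' hk' hne h1
    have : c k - c k' = (X g c ω k - X g c ω l) - (X g c ω k' - X g c ω l) := by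
      simp only [X, h1]; abel
    rw [this] at h4
    have := norm_sub_le (X g c ω k - X g c ω l) (X g c ω k' - X g c ω l)
    linarith
  refine le_min ?_ ?_
  · apply card_le_card_of_injOn Prod.fst
    · intro q hq
      simp only [P, grp, coe_filter, mem_filter, mem_product, mem_range, Set.mem_ofPred_eq] at hq ⊢
      exact ⟨hq.1.1.1, hq.2.1.1⟩
    · intro q hq q' hq' h
      simp only [P, Ev, coe_filter, mem_filter, mem_product, mem_range, Set.mem_ofPred_eq] at hq hq'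
      refine Prod.ext h (key _ hq.1.1.2 _ hq'.1.1.2 q.1 (hq.2.1.2.trans hq'.2.1.2.symm) ?_ ?_)
      · rw [norm_sub_rev]; exact hq.2.2
      · rw [norm_sub_rev, h]; exact hq'.2.2
  · apply card_le_card_of_injOn Prod.snd
    · intro q hq
      simp only [P, grp, coe_filter, mem_filter, mem_product, mem_range, Set.mem_ofPred_eq] at hq ⊢
      exact ⟨hq.1.1.2, hq.2.1.2⟩
    · intro q hq q' hq' h
      simp only [P, Ev, coe_filter, mem_filter, mem_product, mem_range, Set.mem_ofPred_eq] at hq hq'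
      refine Prod.ext (key _ hq.1.1.1 _ hq'.1.1.1 q.2 (hq.2.1.1.trans hq'.2.1.1.symm) hq.2.2 ?_) h
      rw [h]; exact hq'.2.2

open Classical in
lemma rel_sum_le (N : ℕ) (r M : ℝ) (ω : Om)
    (hsep : ∀ k < N, ∀ l < N, k ≠ l → g k = g l → 2 * r ≤ ‖c k - c l‖)
    (hM : ∀ G H, G ≠ H → ((min (grp g N G).card (grp g N H).card : ℕ) : ℝ) ≤ M)
    (p : ℕ × ℕ) (hp : g p.1 ≠ g p.2) :
    ∑ q ∈ (P g N).filter (fun q => Rel g p q), I g c r q ω ≤ 2 * M := by
  have e : ∑ q ∈ (P g N).filter (fun q => Rel g p q), I g c r q ω =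
      (((P g N).filter (fun q => Rel g p q)).filter (fun q => ω ∈ Ev g c r q)).card := by
    rw [card_filter]
    push_cast
    refine sum_congr rfl fun q _ => ?_
    simp [I, Set.indicator_apply]
  rw [e]
  have h1 := cross_le g c N r ω hsep (g p.1) (g p.2)
  have h2 := cross_le g c N r ω hsep (g p.2) (g p.1)
  have h3 : (((P g N).filter (fun q => Rel g p q)).filter (fun q => ω ∈ Ev g c r q)).card ≤
      ((P g N).filter (fun q => (g q.1 = g p.1 ∧ g q.2 = g p.2) ∧ ω ∈ Ev g c r q)).card +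
      ((P g N).filter (fun q => (g q.1 = g p.2 ∧ g q.2 = g p.1) ∧ ω ∈ Ev g c r q)).card := by
    refine le_trans (card_le_card ?_) (card_union_le _ _)
    intro q hq
    simp only [mem_filter, mem_union, Rel] at hq ⊢
    rcases hq.1.2 with h | h
    · exact Or.inl ⟨hq.1.1, ⟨h.1.symm, h.2.symm⟩, hq.2⟩
    · exact Or.inr ⟨hq.1.1, ⟨h.2.symm, h.1.symm⟩, hq.2⟩
  have h4 := hM _ _ hp
  have h5 := hM _ _ hp.symm
  have h6 := h3.trans (Nat.add_le_add h1 h2)
  have h7 := (Nat.cast_le (α := ℝ)).mpr h6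
  rw [Nat.cast_add] at h7
  linarith

lemma int_I (r : ℝ) (p : ℕ × ℕ) : Integrable (I g c r p) mu :=
  (integrable_const (1 : ℝ)).indicator (meas_Ev g c r p)

lemma I_mul (r : ℝ) (p q : ℕ × ℕ) (ω : Om) :
    I g c r p ω * I g c r q ω = (Ev g c r p ∩ Ev g c r q).indicator 1 ω := by
  simp only [I]
  rw [← Set.inter_indicator_mul]
  congr 1
  ext
  simp

lemma int_II (r : ℝ) (p q : ℕ × ℕ) : Integrable (fun ω => I g c r p ω * I g c r q ω) mu := by
  simp_rw [I_mul]
  exact (integrable_const (1 : ℝ)).indicator ((meas_Ev g c r p).inter (meas_Ev g c r q))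

lemma I_nonneg (r : ℝ) (p : ℕ × ℕ) (ω : Om) : 0 ≤ I g c r p ω :=
  Set.indicator_nonneg (fun _ _ => zero_le_one) _

lemma Z_sq (N : ℕ) (r : ℝ) (ω : Om) : Z g c N r ω ^ 2 = ∑ p ∈ P g N, ∑ q ∈ P g N,
    (I g c r p ω * I g c r q ω - 2 * r * I g c r p ω - 2 * r * I g c r q ω + (2 * r) ^ 2) := by
  rw [Z, sq, sum_mul_sum]
  refine sum_congr rfl fun p _ => sum_congr rfl fun q _ => ?_
  ring

lemma int_term (r : ℝ) (p q : ℕ × ℕ) : Integrable (fun ω =>
    I g c r p ω * I g c r q ω - 2 * r * I g c r p ω - 2 * r * I g c r q ω + (2 * r) ^ 2) mu :=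
  (((int_II g c r p q).sub ((int_I g c r p).const_mul _)).sub
    ((int_I g c r q).const_mul _)).add (integrable_const _)

lemma int_Z_sq (N : ℕ) (r : ℝ) : Integrable (fun ω => Z g c N r ω ^ 2) mu := by
  simp_rw [Z_sq]
  exact integrable_finsetSum _ fun p _ => integrable_finsetSum _ fun q _ => int_term g c r p q

lemma integral_I (r : ℝ) (hr0 : 0 ≤ r) (hr : r ≤ 1 / 2) (p : ℕ × ℕ) (hp : g p.1 ≠ g p.2) :
    ∫ ω, I g c r p ω ∂mu = 2 * r := by
  rw [← mu_Ev g c r hr0 hr p hp]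
  exact integral_indicator_one (meas_Ev g c r p)

open Classical in
lemma var_le (N : ℕ) (r M : ℝ) (hr0 : 0 ≤ r) (hr : r ≤ 1 / 2) (hM0 : 0 ≤ M)
    (hsep : ∀ k < N, ∀ l < N, k ≠ l → g k = g l → 2 * r ≤ ‖c k - c l‖)
    (hM : ∀ G H, G ≠ H → ((min (grp g N G).card (grp g N H).card : ℕ) : ℝ) ≤ M) :
    ∫ ω, Z g c N r ω ^ 2 ∂mu ≤ (N : ℝ) ^ 2 * (2 * M * (2 * r)) := by
  simp_rw [Z_sq]
  rw [integral_finsetSum _ fun p _ => integrable_finsetSum _ fun q _ => int_term g c r p q]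
  have hP : ((P g N).card : ℝ) ≤ (N : ℝ) ^ 2 := by
    have : (P g N).card ≤ N ^ 2 := (card_filter_le _ _).trans (by simp [sq])
    exact_mod_cast this
  refine (sum_le_card_nsmul _ _ (2 * M * (2 * r)) fun p hp => ?_).trans ?_
  swap
  · rw [nsmul_eq_mul]
    gcongr
  have hp' : g p.1 ≠ g p.2 := (mem_filter.mp hp).2
  rw [integral_finsetSum _ fun q _ => int_term g c r p q]
  have h1 : ∀ q ∈ P g N, ∫ ω, (I g c r p ω * I g c r q ω - 2 * r * I g c r p ω
      - 2 * r * I g c r q ω + (2 * r) ^ 2) ∂mu ≤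
      if Rel g p q then ∫ ω, I g c r p ω * I g c r q ω ∂mu else 0 := by
    intro q hq
    have hq' : g q.1 ≠ g q.2 := (mem_filter.mp hq).2
    have i1 : Integrable (fun ω => I g c r p ω * I g c r q ω - 2 * r * I g c r p ω) mu :=
      (int_II g c r p q).sub ((int_I g c r p).const_mul _)
    have i2 : Integrable (fun ω => I g c r p ω * I g c r q ω - 2 * r * I g c r p ω
        - 2 * r * I g c r q ω) mu := i1.sub ((int_I g c r q).const_mul _)
    rw [integral_add i2 (integrable_const _), integral_sub i1 ((int_I g c r q).const_mul _),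
      integral_sub (int_II g c r p q) ((int_I g c r p).const_mul _), integral_const_mul,
      integral_const_mul, integral_I g c r hr0 hr p hp', integral_I g c r hr0 hr q hq']
    simp only [integral_const, probReal_univ, smul_eq_mul, one_mul]
    split_ifs with h
    · nlinarith
    · simp_rw [I_mul]
      rw [integral_indicator_one ((meas_Ev g c r p).inter (meas_Ev g c r q)),
        mu_Ev2 g c r hr0 hr p q hp' hq' h]
      nlinarith
  refine (sum_le_sum h1).trans ?_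
  rw [← sum_filter, ← integral_finsetSum _ fun q _ => int_II g c r p q,
    ← integral_I g c r hr0 hr p hp', ← integral_const_mul]
  refine integral_mono (integrable_finsetSum _ fun q _ => int_II g c r p q)
    ((int_I g c r p).const_mul _) fun ω => ?_
  simp only
  rw [← mul_sum, mul_comm]
  exact mul_le_mul_of_nonneg_right (rel_sum_le g c N r M ω hsep hM p hp') (I_nonneg g c r p ω)

lemma cnt_eq (N : ℕ) (r : ℝ) (ω : Om) (hr0 : 0 ≤ r)
    (hsep : ∀ k < N, ∀ l < N, k ≠ l → g k = g l → 2 * r ≤ ‖c k - c l‖) :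
    (cnt (X g c ω) N r : ℝ) = Z g c N r ω + (P g N).card * (2 * r) := by
  classical
  have e : cnt (X g c ω) N r = ((P g N).filter (fun q => ω ∈ Ev g c r q)).card := by
    unfold cnt
    congr 1
    ext p
    simp only [P, Ev, mem_filter, mem_product, mem_range, Set.mem_ofPred_eq]
    constructor
    · rintro ⟨h1, h2, h3⟩
      refine ⟨⟨h1, fun h => ?_⟩, h3⟩
      have h4 := hsep _ h1.1 _ h1.2 h2 h
      have : X g c ω p.1 - X g c ω p.2 = c p.1 - c p.2 := by simp only [X, h]; abel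
      rw [this] at h3
      linarith
    · rintro ⟨⟨h1, h2⟩, h3⟩
      exact ⟨h1, fun h => h2 (by rw [h]), h3⟩
  rw [e, card_filter, Z, sum_sub_distrib]
  push_cast
  simp [I, Set.indicator_apply]

lemma P_card (N : ℕ) (B : ℝ) (hB : ∀ G, ((grp g N G).card : ℝ) ≤ B) :
    (N : ℝ) ^ 2 - N * B ≤ (P g N).card := by
  classical
  have h1 := card_filter_add_card_filter_not (s := range N ×ˢ range N) (fun p => g p.1 ≠ g p.2)
  have h2 : (((range N ×ˢ range N).filter (fun p => ¬ g p.1 ≠ g p.2)).card : ℝ) ≤ N * B := by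
    have : (range N ×ˢ range N).filter (fun p => ¬ g p.1 ≠ g p.2) ⊆
        (range N).biUnion (fun k => (grp g N (g k)).image (fun l => (k, l))) := by
      rintro ⟨k, l⟩ hp
      simp only [mem_filter, mem_product, mem_range, not_not, mem_biUnion, mem_image, grp] at hp ⊢
      exact ⟨k, hp.1.1, l, ⟨hp.1.2, hp.2.symm⟩, rfl⟩
    have h3 := (card_le_card this).trans card_biUnion_le
    have h4 := (Nat.cast_le (α := ℝ)).mpr h3
    refine h4.trans ?_
    push_cast
    refine (sum_le_card_nsmul _ _ B fun k _ => le_trans ?_ (hB (g k))).trans (by simp)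
    exact_mod_cast card_image_le
  have h5 : ((P g N).card : ℝ) + ((range N ×ˢ range N).filter (fun p => ¬ g p.1 ≠ g p.2)).card
      = (N : ℝ) ^ 2 := by
    rw [card_product, card_range] at h1
    rw [sq]
    exact_mod_cast h1
  linarith

theorem ae_cp
    (H1 : ∀ s : ℝ, 0 < s → ∀ᶠ N : ℕ in atTop,
      ∀ k < N, ∀ l < N, k ≠ l → g k = g l → s / N ≤ ‖c k - c l‖)
    (H2 : ∀ ε : ℝ, 0 < ε → ∀ᶠ N : ℕ in atTop, ∀ G, ((grp g N G).card : ℝ) ≤ ε * N)
    (H3 : ∀ N, 1 ≤ N → ∀ G H, G ≠ H → (min (grp g N G).card (grp g N H).card) ^ 2 ≤ N) :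
    ∀ᵐ ω ∂mu, CP (X g c ω) := by
  have hpow : Tendsto (fun m : ℕ => m ^ 4) atTop atTop := tendsto_pow_atTop (by norm_num)
  have hP : Tendsto (fun N : ℕ => ((P g N).card : ℝ) / (N : ℝ) ^ 2) atTop (𝓝 1) := by
    apply tendsto_of_approx
    · intro ε hε
      filter_upwards [eventually_ge_atTop 1] with N hN
      have : (P g N).card ≤ N ^ 2 := (card_filter_le _ _).trans (by simp [sq])
      have h' : ((P g N).card : ℝ) ≤ (N : ℝ) ^ 2 := by exact_mod_cast this
      have : ((P g N).card : ℝ) / (N : ℝ) ^ 2 ≤ 1 := div_le_one_of_le₀ h' (by positivity)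
      linarith
    · intro ε hε
      filter_upwards [eventually_ge_atTop 1, H2 ε hε] with N hN h
      have := P_card g N _ h
      rw [le_div_iff₀ (by positivity)]
      nlinarith
  have main : ∀ s : ℚ, ∀ᵐ ω ∂mu, 0 < s → Tendsto (fun m : ℕ =>
      (cnt (X g c ω) (m ^ 4) (s / (m ^ 4 : ℕ)) : ℝ) / (m ^ 4 : ℕ)) atTop (𝓝 (2 * s)) := by
    intro s
    by_cases hs : 0 < s
    swap
    · exact Eventually.of_forall fun _ h => absurd h hs
    have hs' : (0 : ℝ) < s := by exact_mod_cast hs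
    have ev : ∀ᶠ m : ℕ in atTop, (∀ k < m ^ 4, ∀ l < m ^ 4, k ≠ l → g k = g l →
        2 * ((s : ℝ) / (m ^ 4 : ℕ)) ≤ ‖c k - c l‖) ∧ (s : ℝ) / (m ^ 4 : ℕ) ≤ 1 / 2 ∧ 1 ≤ m := by
      have a1 := hpow.eventually (H1 (2 * s) (by positivity))
      have a2 := (tendsto_natCast_atTop_atTop (R := ℝ).comp hpow).eventually_ge_atTop (2 * s)
      filter_upwards [a1, a2, eventually_ge_atTop 1] with m b1 b2 b3
      refine ⟨fun k hk l hl h1 h2 => ?_, ?_, b3⟩
      · rw [← mul_div_assoc]; exact b1 k hk l hl h1 h2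
      · simp only [Function.comp] at b2
        rw [div_le_div_iff₀ (by positivity) (by positivity)]
        linarith
    obtain ⟨m0, hm0⟩ := eventually_atTop.mp ev
    have bc : ∀ j : ℕ, ∀ᵐ ω ∂mu, ∀ᶠ m : ℕ in atTop,
        ω ∉ {ω | (((m + m0 : ℕ) : ℝ) ^ 4 / ((j : ℝ) + 1)) ^ 2 ≤
          Z g c ((m + m0) ^ 4) (s / ((m + m0) ^ 4 : ℕ)) ω ^ 2} := by
      intro j
      apply ae_eventually_notMem
      have hsum : Summable (fun m : ℕ => (4 * s * ((j : ℝ) + 1) ^ 2) * (1 / ((m + m0 : ℕ) : ℝ) ^ 2)) :=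
        ((summable_nat_add_iff (f := fun m : ℕ => 1 / (m : ℝ) ^ 2) m0).mpr
          (Real.summable_one_div_nat_pow.mpr (by norm_num))).mul_left _
      refine ne_top_of_le_ne_top hsum.tsum_ofReal_ne_top (ENNReal.tsum_le_tsum fun m => ?_)
      obtain ⟨b1, b2, b3⟩ := hm0 (m + m0) (by omega)
      set n := m + m0
      have hn : (1 : ℝ) ≤ n := by exact_mod_cast b3
      have v := var_le g c (n ^ 4) (s / (n ^ 4 : ℕ)) ((n : ℝ) ^ 2) (by positivity) b2
        (by positivity) b1 (fun G H hGH => by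
          have := H3 (n ^ 4) (Nat.one_le_pow _ _ b3) G H hGH
          have h' : min (grp g (n ^ 4) G).card (grp g (n ^ 4) H).card ≤ n ^ 2 := by
            refine (Nat.pow_le_pow_iff_left two_ne_zero).mp (this.trans (le_of_eq (by ring)))
          exact_mod_cast h')
      have ch := mul_meas_ge_le_integral_of_nonneg (μ := mu)
        (Eventually.of_forall fun ω => sq_nonneg (Z g c (n ^ 4) (s / (n ^ 4 : ℕ)) ω))
        (int_Z_sq g c _ _) (((n : ℝ) ^ 4 / ((j : ℝ) + 1)) ^ 2)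
      rw [← ENNReal.ofReal_toReal (measure_ne_top mu _)]
      apply ENNReal.ofReal_le_ofReal
      have := ch.trans v
      rw [← le_div_iff₀' (by positivity)] at this
      refine this.trans (le_of_eq ?_)
      push_cast
      field_simp
      ring
    filter_upwards [ae_all_iff.mpr bc] with ω hω _
    have t1 : Tendsto (fun m : ℕ => Z g c (m ^ 4) (s / (m ^ 4 : ℕ)) ω / (m ^ 4 : ℕ)) atTop (𝓝 0) := by
      rw [← tendsto_add_atTop_iff_nat m0, Metric.tendsto_nhds]
      intro ε hε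
      obtain ⟨j, hj⟩ := exists_nat_one_div_lt hε
      filter_upwards [hω j] with m hm
      obtain ⟨-, -, b3⟩ := hm0 (m + m0) (by omega)
      simp only [not_le] at hm
      have hn : (1 : ℝ) ≤ (m + m0 : ℕ) := by exact_mod_cast b3
      have := abs_lt_of_sq_lt_sq hm (by positivity)
      rw [Real.dist_eq, sub_zero, abs_div,
        abs_of_pos (show (0 : ℝ) < (((m + m0) ^ 4 : ℕ) : ℝ) by have := b3; positivity),
        div_lt_iff₀ (by have := b3; positivity)]
      refine this.trans_le ?_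
      rw [div_eq_mul_one_div, mul_comm, Nat.cast_pow]
      gcongr
    have t2 := t1.add ((hP.comp hpow).mul_const (2 * (s : ℝ)))
    simp only [zero_add, one_mul] at t2
    refine t2.congr' ?_
    filter_upwards [ev] with m hm
    rw [cnt_eq g c _ _ ω (by positivity) hm.1]
    have : (0 : ℝ) < ((m ^ 4 : ℕ) : ℝ) := by have := hm.2.2; positivity
    simp only [Function.comp]
    field_simp
  filter_upwards [ae_all_iff.mpr main] with ω hω
  exact cp_of_sub _ hω

end Pool.Agent.H33.Ppc
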