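import Pool.Agent.H33.Ppc2

namespace Pool.Agent.H33.Ppc

open Filter Topology Finset MeasureTheory

lemma exists_rec {α : Type*} [Inhabited α] (Q : ℕ → (ℕ → α) → α → Prop)
    (h : ∀ j f, ∃ a, Q j f a) :
    ∃ d : ℕ → α, ∀ j, Q j (fun i => if i < j then d i else default) (d j) := by
  choose G hG using h
  let d : ℕ → α := WellFounded.fix (C := fun _ => α) Nat.lt_wfRel.wf
    (fun j rec => G j (fun i => if h : i < j then rec i h else default))
  have hd : ∀ j, d j = G j (fun i => if i < j then d i else default) := by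
    intro j
    have := WellFounded.fix_eq (C := fun _ => α) Nat.lt_wfRel.wf
      (fun j rec => G j (fun i => if h : i < j then rec i h else default)) j
    refine this.trans ?_
    congr 1
  exact ⟨d, fun j => by rw [hd j]; exact hG _ _⟩

lemma trans_cont (E : Set C) (hE : MeasurableSet E) (η : ENNReal) (hη : 0 < η) :
    ∃ δ > 0, ∀ u : C, ‖u‖ < δ → volume (symmDiff ((fun y => y + u) ⁻¹' E) E) ≤ η := by
  let F : C(C × C, C) := ⟨fun p => p.2 + p.1, by fun_prop⟩
  have h1 : Tendsto (fun u => F.curry u) (𝓝 0) (𝓝 (F.curry 0)) := F.curry.continuous.tendsto 0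
  have h2 := tendsto_measure_symmDiff_preimage_nhds_zero (μ := volume) (ν := volume) h1
    (Eventually.of_forall fun u => measurePreserving_add_right volume u)
    (measurePreserving_add_right volume 0) hE.nullMeasurableSet (measure_ne_top _ _)
  have h3 := (ENNReal.tendsto_nhds_zero.mp h2) η hη
  obtain ⟨δ, hδ, h4⟩ := Metric.eventually_nhds_iff.mp h3
  refine ⟨δ, hδ, fun u hu => ?_⟩
  have := h4 (y := u) (by simpa using hu)
  have e : (F.curry 0) ⁻¹' E = E := by
    ext y
    simp [F]
  rw [e] at this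
  exact this

lemma mixing (E A : Set C) (hE : MeasurableSet E) (hA : MeasurableSet A) (η : ENNReal)
    (hη : 0 < η) : ∀ᶠ d : ℕ in atTop,
      volume (E ∩ (fun y => d • y) ⁻¹' A) ≤ volume E * volume A + η := by
  obtain ⟨δ, hδ, h⟩ := trans_cont E hE η hη
  filter_upwards [(tendsto_one_div_atTop_nhds_zero_nat (𝕜 := ℝ)).eventually (gt_mem_nhds hδ),
    eventually_ge_atTop 1] with d hd hd1
  have hd0 : (0 : ℝ) < d := by exact_mod_cast hd1
  let W : Set (C × C) := {p | p.1 ∈ E ∧ d • p.1 + p.2 ∈ A}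
  have hW : MeasurableSet W :=
    (measurable_fst hE).inter ((((continuous_nsmul d).measurable.comp measurable_fst).add measurable_snd) hA)
  have e1 : ((volume : Measure C).prod (volume : Measure C)) W = volume E * volume A := by
    rw [Measure.prod_apply hW]
    have : ∀ y, (volume : Measure C) (Prod.mk y ⁻¹' W) = E.indicator (fun _ => volume A) y := by
      intro y
      by_cases hy : y ∈ E
      · rw [Set.indicator_of_mem hy, ← measure_preimage_add volume (d • y) A]
        congr 1
        ext t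
        simp [W, hy]
      · rw [Set.indicator_of_notMem hy]
        have : Prod.mk y ⁻¹' W = ∅ := by
          ext t
          simp [W, hy]
        rw [this, measure_empty]
    simp_rw [this]
    rw [lintegral_indicator_const hE, mul_comm]
  have e2 : ∀ t : C, volume (E ∩ (fun y => d • y) ⁻¹' A) ≤
      volume ((fun y => (y, t)) ⁻¹' W) + η := by
    intro t
    obtain ⟨⟨r, hr⟩, hrt⟩ := (AddCircle.equivIco 1 0).symm.surjective t
    have hrt' : (r : C) = t := hrt
    let u : C := ((r / d : ℝ) : C)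
    have hu : d • u = t := by
      rw [← hrt', ← AddCircle.coe_nsmul]
      congr 1
      rw [nsmul_eq_mul]
      field_simp
    have hn : ‖u‖ < δ := by
      refine lt_of_le_of_lt (QuotientAddGroup.norm_mk_le_norm) (lt_of_le_of_lt ?_ hd)
      rw [Real.norm_eq_abs, abs_of_nonneg (by have := hr.1; positivity)]
      have := hr.2
      gcongr
      linarith
    rw [← measure_preimage_add_right volume u (E ∩ _)]
    refine le_trans (measure_mono ?_) ((measure_union_le _ _).trans (add_le_add le_rfl (h u hn)))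
    intro y hy
    simp only [Set.mem_preimage, Set.mem_inter_iff, smul_add, hu] at hy
    by_cases hyE : y ∈ E
    · exact Or.inl ⟨hyE, hy.2⟩
    · exact Or.inr (Or.inl ⟨hy.1, hyE⟩)
  have e3 := lintegral_mono (μ := (volume : Measure C)) e2
  rw [lintegral_const, lintegral_add_right _ measurable_const, lintegral_const,
    ← Measure.prod_apply_symm hW, e1] at e3
  simpa using e3

theorem exists_dil (A : ℕ → Set C) (hA : ∀ j, MeasurableSet (A j)) (c : ℕ → ℝ)
    (hc : ∀ j, c j ≤ volume.real (A j)) (hc0 : ∀ j, 0 ≤ c j) (hs : ¬ Summable c)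
    (good : ℕ → ℕ → Prop) (hgood : ∀ j, ∃ᶠ d in atTop, good j d) :
    ∃ d : ℕ → ℕ, (∀ j, good j (d j)) ∧ ∀ᵐ y : C, ∃ᶠ j in atTop, d j • y ∈ A j := by
  let E : (ℕ → ℕ) → ℕ → ℕ → Set C := fun f J j => ⋂ i ∈ Ico J j, (fun y => f i • y) ⁻¹' (A i)ᶜ
  have hE : ∀ f J j, MeasurableSet (E f J j) := fun f J j =>
    Finset.measurableSet_biInter _ fun i _ => (continuous_nsmul (f i)).measurable (hA i).compl
  obtain ⟨d, hd⟩ := exists_rec (fun j f a => good j a ∧ ∀ J ∈ range (j + 1),
      volume (E f J j ∩ (fun y => a • y) ⁻¹' (A j)ᶜ) ≤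
        volume (E f J j) * volume (A j)ᶜ + ENNReal.ofReal ((1 / 2) ^ j)) (by
    intro j f
    have := (Finset.eventually_all (range (j + 1))).mpr fun J _ =>
      mixing (E f J j) (A j)ᶜ (hE f J j) (hA j).compl (ENNReal.ofReal ((1 / 2) ^ j))
        (by simp)
    exact ((hgood j).and_eventually this).exists)
  refine ⟨d, fun j => (hd j).1, ?_⟩
  have hEq : ∀ J j, E (fun i => if i < j then d i else default) J j = E d J j := by
    intro J j
    refine Set.iInter₂_congr fun i hi => ?_
    simp [(mem_Ico.mp hi).2]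
  have hstep : ∀ J j, J ≤ j → volume.real (E d J (j + 1)) ≤
      volume.real (E d J j) * (1 - c j) + (1 / 2) ^ j := by
    intro J j hJ
    have h1 := (hd j).2 J (by simp; omega)
    rw [hEq] at h1
    have e : E d J (j + 1) = E d J j ∩ (fun y => d j • y) ⁻¹' (A j)ᶜ := by
      simp only [E]
      rw [← Finset.insert_Ico_right_eq_Ico_add_one hJ, Finset.set_biInter_insert, Set.inter_comm]
    rw [e]
    have h2 := ENNReal.toReal_mono (by finiteness) h1
    rw [ENNReal.toReal_add (by finiteness) (by finiteness), ENNReal.toReal_mul,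
      ENNReal.toReal_ofReal (by positivity)] at h2
    refine h2.trans (add_le_add ?_ le_rfl)
    have h3 : (volume (A j)ᶜ).toReal = 1 - volume.real (A j) := by
      have := probReal_compl_eq_one_sub (μ := (volume : Measure C)) (hA j)
      exact this
    rw [h3]
    exact mul_le_mul_of_nonneg_left (by linarith [hc j]) ENNReal.toReal_nonneg
  have hzero : ∀ J, volume {y : C | ∀ j, J ≤ j → d j • y ∉ A j} = 0 := by
    intro J
    set S := {y : C | ∀ j, J ≤ j → d j • y ∉ A j}
    have hm : ∀ j, volume.real S ≤ volume.real (E d J j) := by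
      intro j
      refine measureReal_mono fun y hy => ?_
      simp only [E, Set.mem_iInter, Set.mem_preimage, Set.mem_compl_iff]
      exact fun i hi => hy i (mem_Ico.mp hi).1
    by_contra hne
    have hpos : 0 < volume.real S := ENNReal.toReal_pos hne (measure_ne_top _ _)
    have hind : ∀ n, volume.real (E d J (J + n)) + volume.real S * ∑ i ∈ range n, c (i + J) ≤
        1 + ∑ i ∈ range n, (1 / 2 : ℝ) ^ i := by
      intro n
      induction n with
      | zero => simpa using measureReal_le_one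
      | succ n ih =>
        rw [sum_range_succ, sum_range_succ, ← add_assoc]
        have h1 := hstep J (J + n) (by omega)
        have h2 := mul_le_mul_of_nonneg_right (hm (J + n)) (hc0 (J + n))
        have h3 : (1 / 2 : ℝ) ^ (J + n) ≤ (1 / 2) ^ n :=
          pow_le_pow_of_le_one (by norm_num) (by norm_num) (by omega)
        rw [add_comm n J]
        nlinarith
    apply hs
    rw [← summable_nat_add_iff J]
    refine summable_of_sum_range_le (c := 3 / volume.real S) (fun n => hc0 _) fun n => ?_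
    rw [le_div_iff₀ hpos]
    have h1 := hind n
    have h2 := sum_geometric_two_le n
    have h3 : 0 ≤ volume.real (E d J (J + n)) := measureReal_nonneg
    linarith
  have : ∀ᵐ y : C, ∀ J, y ∉ {y : C | ∀ j, J ≤ j → d j • y ∉ A j} :=
    ae_all_iff.mpr fun J => measure_eq_zero_iff_ae_notMem.mp (hzero J)
  filter_upwards [this] with y hy
  rw [frequently_atTop]
  intro J
  have := hy J
  simp only [not_forall, not_not] at this
  obtain ⟨j, h1, h2⟩ := this
  exact ⟨j, h1, h2⟩

lemma totient_sum (Q : ℕ) : Q ^ 2 ≤ 16 * ∑ q ∈ Ioc 0 Q, q.totient := by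
  have h1 : ∑ n ∈ Ioc 0 Q, n = ∑ d ∈ Ioc 0 Q, d.totient * (Q / d) := by
    calc ∑ n ∈ Ioc 0 Q, n = ∑ n ∈ Ioc 0 Q, ∑ d ∈ Ioc 0 Q, if d ∣ n then d.totient else 0 := by
          refine sum_congr rfl fun n hn => ?_
          rw [← sum_filter]
          conv_lhs => rw [← Nat.sum_totient n]
          congr 1
          ext d
          simp only [mem_Ioc] at hn
          simp only [Nat.mem_divisors, mem_filter, mem_Ioc]
          constructor
          · rintro ⟨h, -⟩
            exact ⟨⟨Nat.pos_of_dvd_of_pos h hn.1, (Nat.le_of_dvd hn.1 h).trans hn.2⟩, h⟩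
          · rintro ⟨-, h⟩
            exact ⟨h, hn.1.ne'⟩
      _ = _ := by
          rw [sum_comm]
          refine sum_congr rfl fun d _ => ?_
          rw [← sum_filter, sum_const, Nat.Ioc_filter_dvd_card_eq_div, smul_eq_mul, mul_comm]
  have h2 : ∀ d ∈ Ioc 0 Q, d.totient * (Q / d) ≤ (if d ≤ Q / 4 then Q else 0) + 4 * d.totient := by
    intro d hd
    have hd0 := (mem_Ioc.mp hd).1
    split_ifs with h
    · have := Nat.mul_le_mul_right (Q / d) (Nat.totient_le d)
      have := Nat.mul_div_le Q d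
      omega
    · have : Q / d ≤ 4 := by
        apply Nat.div_le_of_le_mul
        omega
      nlinarith
  have h3 := sum_le_sum h2
  rw [← h1, sum_add_distrib, ← mul_sum, ← sum_filter, sum_const, smul_eq_mul] at h3
  have h4 : ((Ioc 0 Q).filter (fun d => d ≤ Q / 4)).card ≤ Q / 4 := by
    refine (card_le_card (t := Ioc 0 (Q / 4)) fun d hd => ?_).trans (by simp)
    simp only [mem_filter, mem_Ioc] at hd ⊢
    exact ⟨hd.1.1, hd.2⟩
  have h5 : 2 * ∑ n ∈ Ioc 0 Q, n = Q * (Q + 1) := by
    clear h1 h2 h3 h4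
    induction Q with
    | zero => simp
    | succ n ih => rw [sum_Ioc_succ_top (Nat.zero_le n)]; nlinarith
  have h6 := Nat.mul_le_mul_right Q h4
  have h7 : 4 * (Q / 4) ≤ Q := Nat.mul_div_le Q 4
  have h8 := Nat.mul_le_mul_right Q h7
  nlinarith

def Farey (Q : ℕ) (ρ : ℝ) : Set C := {β | ∃ u : C, ∃ q ∈ Ioc 0 Q, q • u = 0 ∧ ‖β - u‖ < ρ}

lemma isOpen_Farey (Q : ℕ) (ρ : ℝ) : IsOpen (Farey Q ρ) := by
  have : Farey Q ρ = ⋃ u : C, ⋃ q ∈ Ioc 0 Q, ⋃ _ : q • u = 0, Metric.ball u ρ := by
    ext β
    simp [Farey, dist_eq_norm]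
    tauto
  rw [this]
  exact isOpen_iUnion fun _ => isOpen_biUnion fun _ _ => isOpen_iUnion fun _ => Metric.isOpen_ball

lemma vol_Farey (Q : ℕ) (ρ : ℝ) (hρ : 0 ≤ ρ) (hQ : 1 ≤ Q) (h : 2 * ρ * (Q : ℝ) ^ 2 ≤ 1) :
    (Q : ℝ) ^ 2 / 8 * ρ ≤ volume.real (Farey Q ρ) := by
  classical
  have hfin : ∀ q ∈ Ioc 0 Q, {u : C | addOrderOf u = q}.Finite := fun q hq =>
    AddCircle.finite_setOfPred_addOrderOf_eq 1 (mem_Ioc.mp hq).1
  let T : ℕ → Finset C := fun q => if h : q ∈ Ioc 0 Q then (hfin q h).toFinset else ∅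
  have hT : ∀ q ∈ Ioc 0 Q, ∀ u, u ∈ T q ↔ addOrderOf u = q := by
    intro q hq u
    simp only [T, dif_pos hq, Set.Finite.mem_toFinset, Set.mem_ofPred_eq]
  let S := (Ioc 0 Q).biUnion T
  have hS : S.card = ∑ q ∈ Ioc 0 Q, q.totient := by
    rw [card_biUnion]
    · refine sum_congr rfl fun q hq => ?_
      rw [← AddCircle.card_addOrderOf_eq_totient (p := (1 : ℝ)), ← Nat.card_eq_finsetCard]
      exact Nat.card_congr (Equiv.subtypeEquivRight (hT q hq))
    · intro q hq q' hq' hne
      rw [Function.onFun, disjoint_left]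
      intro u h1 h2
      exact hne (((hT q hq u).mp h1).symm.trans ((hT q' hq' u).mp h2))
  have hmem : ∀ u ∈ S, addOrderOf u ∈ Ioc 0 Q := by
    intro u hu
    obtain ⟨q, hq, h1⟩ := mem_biUnion.mp hu
    rw [(hT q hq u).mp h1]; exact hq
  have hQ' : (1 : ℝ) ≤ Q := by exact_mod_cast hQ
  have hdis : (S : Set C).PairwiseDisjoint (fun u => Metric.ball u ρ) := by
    intro u hu v hv hne
    apply Metric.ball_disjoint_ball
    have h1 := mem_Ioc.mp (hmem u hu)
    have h2 := mem_Ioc.mp (hmem v hv)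
    have h3 : (addOrderOf u * addOrderOf v) • (u - v) = 0 := by
      rw [smul_sub, mul_smul _ _ v, addOrderOf_nsmul_eq_zero, mul_comm, mul_smul,
        addOrderOf_nsmul_eq_zero]
      simp
    have h4 : IsOfFinAddOrder (u - v) :=
      isOfFinAddOrder_iff_nsmul_eq_zero.mpr ⟨_, Nat.mul_pos h1.1 h2.1, h3⟩
    have h5 := AddCircle.le_add_order_smul_norm_of_isOfFinAddOrder h4 (sub_ne_zero.mpr hne)
    have h6 : addOrderOf (u - v) ≤ Q ^ 2 :=
      (addOrderOf_le_of_nsmul_eq_zero (Nat.mul_pos h1.1 h2.1) h3).trans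
        (by rw [sq]; exact Nat.mul_le_mul h1.2 h2.2)
    have h7 : (addOrderOf (u - v) : ℝ) ≤ (Q : ℝ) ^ 2 := by exact_mod_cast h6
    rw [nsmul_eq_mul] at h5
    rw [dist_eq_norm]
    have h8 : 1 ≤ (Q : ℝ) ^ 2 * ‖u - v‖ := h5.trans (by gcongr)
    have h9 : (0 : ℝ) < (Q : ℝ) ^ 2 := by positivity
    nlinarith
  have hρ2 : ρ ≤ 1 / 2 := by
    have : (1 : ℝ) ≤ (Q : ℝ) ^ 2 := one_le_pow₀ hQ'
    nlinarith
  have h1 : volume (⋃ u ∈ S, Metric.ball u ρ) = S.card * ENNReal.ofReal (2 * ρ) := by
    rw [measure_biUnion_finset hdis fun _ _ => Metric.isOpen_ball.measurableSet]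
    simp [vol_ball _ _ hρ2]
  have h2 : (⋃ u ∈ S, Metric.ball u ρ) ⊆ Farey Q ρ := by
    intro β hβ
    simp only [Set.mem_iUnion, Metric.mem_ball, dist_eq_norm] at hβ
    obtain ⟨u, hu, h⟩ := hβ
    exact ⟨u, _, hmem u hu, addOrderOf_nsmul_eq_zero u, h⟩
  refine le_trans ?_ (measureReal_mono h2)
  rw [Measure.real, h1, ENNReal.toReal_mul, ENNReal.toReal_ofReal (by positivity)]
  have h3 := totient_sum Q
  rw [← hS] at h3
  have h4 : (Q : ℝ) ^ 2 ≤ 16 * S.card := by exact_mod_cast h3
  simp only [ENNReal.toReal_natCast]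
  nlinarith

lemma cnt_big (x : ℕ → C) (S L N Q T : ℕ) (w β : C) (r ρ : ℝ) (hL : L = T * Q) (hN : S + L ≤ N)
    (hx : ∀ i < L, x (S + i) = w + i • β) (hβ : β ∈ Farey Q ρ) (hr : L * ρ ≤ r) :
    L * (T - 1) ≤ cnt x N r := by
  classical
  obtain ⟨u, q, hq, hu, hβu⟩ := hβ
  have hq' := mem_Ioc.mp hq
  let F : ℕ → Finset ℕ := fun i => ((range T).image (fun t => i % q + t * q)).erase i
  have hF : ∀ i, T - 1 ≤ (F i).card := by
    intro i
    refine le_trans ?_ pred_card_le_card_erase
    rw [card_image_of_injective, card_range]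
    intro t t' h
    exact Nat.eq_of_mul_eq_mul_right hq'.1 (Nat.add_left_cancel h)
  calc L * (T - 1) ≤ ((range L).sigma F).card := by
        rw [card_sigma]
        simpa using card_nsmul_le_sum (range L) (fun i => (F i).card) (T - 1) fun i _ => hF i
    _ ≤ _ := by
        apply card_le_card_of_injOn (fun p => (S + p.1, S + p.2))
        · rintro ⟨i, i'⟩ hp
          simp only [F, coe_sigma, Set.mem_sigma_iff, mem_coe, mem_range, mem_erase,
            mem_image] at hp
          obtain ⟨hi, hne, t, ht, rfl⟩ := hp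
          have hlt : i % q + t * q < L := by
            have := Nat.mod_lt i hq'.1
            have : (t + 1) * q ≤ T * Q := Nat.mul_le_mul ht hq'.2
            nlinarith
          simp only [coe_filter, mem_product, mem_range, Set.mem_ofPred_eq]
          refine ⟨⟨by omega, by omega⟩, by omega, ?_⟩
          rw [hx _ hi, hx _ hlt]
          have e1 : i • u = (i % q + t * q) • u := by
            conv_lhs => rw [← Nat.mod_add_div' i q]
            simp only [add_smul, mul_smul, hu, smul_zero]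
          have e2 : w + i • β - (w + (i % q + t * q) • β) =
              ((i : ℤ) - (i % q + t * q : ℕ)) • (β - u) := by
            rw [sub_smul, natCast_zsmul, natCast_zsmul, smul_sub, smul_sub, e1]
            abel
          rw [e2]
          refine (norm_zsmul_le _ _).trans_lt (lt_of_lt_of_le ?_ hr)
          have h1 : ‖(i : ℤ) - (i % q + t * q : ℕ)‖ ≤ L := by
            rw [Int.norm_eq_abs, ← Int.cast_natCast (R := ℝ) L]
            have : |(i : ℤ) - (i % q + t * q : ℕ)| ≤ L := by
              rw [abs_le]; constructor <;> omega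
            exact_mod_cast this
          have hL0 : (0 : ℝ) < L := by exact_mod_cast (by omega : 0 < L)
          calc _ ≤ L * ‖β - u‖ := by gcongr
            _ < _ := by gcongr
        · rintro ⟨i, i'⟩ _ ⟨j, j'⟩ _ h
          simp only [Prod.mk.injEq, add_right_inj] at h
          obtain ⟨rfl, rfl⟩ := h
          rfl

lemma freq_approx (α : ℝ) (hα : Irrational α) (z : C) (η : ℝ) (hη : 0 < η) :
    ∃ᶠ n : ℕ in atTop, ‖n • (α : C) - z‖ < η := by
  have h1 : DenseRange (· • (α : C) : ℤ → C) :=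
    AddCircle.denseRange_zsmul_coe_iff.mpr (by simpa using hα)
  have h2 : MapClusterPt z atTop (fun n : ℕ => n • (α : C)) :=
    ((mapClusterPt_atTop_nsmul_tfae z (α : C)).out 0 3).mpr (h1 z)
  have := h2.frequently (Metric.ball_mem_nhds z hη)
  simpa [dist_eq_norm] using this

lemma ae_real (p : C → Prop) (h : ∀ᵐ y : C, p y) : ∀ᵐ α : ℝ, p α := by
  have h1 : ∀ n : ℤ, ∀ᵐ α : ℝ ∂(volume.restrict (Set.Ioc (n : ℝ) (n + 1))), p α := fun n =>
    (UnitAddCircle.measurePreserving_mk n).quasiMeasurePreserving.ae h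
  rw [← Measure.restrict_univ (μ := (volume : Measure ℝ)), ← iUnion_Ioc_intCast ℝ,
    ae_restrict_iUnion_iff]
  exact h1

end Pool.Agent.H33.Ppc
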