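import Pool.Agent.H33.PpcDefs
import Pool.Agent.H33.Ppc3

namespace Pool.Agent.H33.Ppc4

open Filter Topology Finset MeasureTheory Pool.Agent.H33 Pool.Agent.H33.Ppc

def K (j : ℕ) : ℕ := rt j + 2
def T (j : ℕ) : ℕ := 3 * K j + 2

class Gr where
  g : ℕ → ℕ

variable [Gr]

def Q : ℕ → ℕ
  | 0 => 1
  | j + 1 => K j * (T j * Q j) + (T j * Q j) ^ 2 + Gr.g (j + 1)
def L (j : ℕ) : ℕ := T j * Q j
def S (j : ℕ) : ℕ := (rt j + 1) * L j

lemma Q_pos (j : ℕ) : 1 ≤ Q j := by
  induction j with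
  | zero => exact le_rfl
  | succ j ih =>
    have : 1 ≤ (T j * Q j) ^ 2 := Nat.one_le_pow _ _ (Nat.mul_pos (by simp [T]) ih)
    simp only [Q]
    omega

lemma Q_le_L (j : ℕ) : Q j ≤ L j := Nat.le_mul_of_pos_left _ (by simp [T])
lemma L_pos (j : ℕ) : 1 ≤ L j := (Q_pos j).trans (Q_le_L j)
lemma L_le_S (j : ℕ) : L j ≤ S j := Nat.le_mul_of_pos_left _ (by simp)
lemma SL (j : ℕ) : S j + L j = K j * L j := by simp only [S, K]; ring

lemma step (j : ℕ) : S j + L j + L j ^ 2 ≤ L (j + 1) := by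
  rw [SL]
  exact le_trans (Nat.le_add_right _ _) (Q_le_L (j + 1))

lemma g_le (j : ℕ) : Gr.g (j + 1) ≤ L (j + 1) :=
  le_trans (Nat.le_add_left _ _) (Q_le_L (j + 1))

lemma L_mono : Monotone L := monotone_nat_of_le_succ fun j => by have := step j; omega

lemma gap {i j : ℕ} (h : i < j) : S i + L i + L i ^ 2 ≤ S j :=
  (step i).trans ((L_mono h).trans (L_le_S j))

def InB (n j : ℕ) : Prop := S j ≤ n ∧ n < S j + L j

lemma InB.unique {n i j : ℕ} (hi : InB n i) (hj : InB n j) : i = j := by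
  unfold InB at hi hj
  rcases lt_trichotomy i j with h | h | h
  · have := gap h; omega
  · exact h
  · have := gap h; omega

open Classical in
noncomputable def ix (n : ℕ) : ℕ := if h : ∃ j, InB n j then h.choose else 0

open Classical in
noncomputable def hd (n : ℕ) : ℕ := if ∃ j, InB n j then S (ix n) else n

lemma ix_eq {n j : ℕ} (h : InB n j) : ix n = j := by
  have h' : ∃ j, InB n j := ⟨j, h⟩
  rw [ix, dif_pos h']
  exact h'.choose_spec.unique h

lemma hd_eq {n j : ℕ} (h : InB n j) : hd n = S j := by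
  rw [hd, if_pos ⟨j, h⟩, ix_eq h]

lemma hd_not {n : ℕ} (h : ¬ ∃ j, InB n j) : hd n = n := by rw [hd, if_neg h]

lemma inB_S (j : ℕ) : InB (S j) j := ⟨le_rfl, by have := L_pos j; omega⟩

lemma hd_le (n : ℕ) : hd n ≤ n := by
  by_cases h : ∃ j, InB n j
  · obtain ⟨j, hj⟩ := h
    rw [hd_eq hj]; exact hj.1
  · rw [hd_not h]

lemma same {k l : ℕ} (hne : k ≠ l) (h : hd k = hd l) : ∃ j, InB k j ∧ InB l j := by
  by_cases hk : ∃ j, InB k j
  · obtain ⟨i, hi⟩ := hk
    by_cases hl : ∃ j, InB l j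
    · obtain ⟨j, hj⟩ := hl
      rw [hd_eq hi, hd_eq hj] at h
      have : i = j := (inB_S i).unique (h ▸ inB_S j)
      exact ⟨j, this ▸ hi, hj⟩
    · rw [hd_eq hi, hd_not hl] at h
      exact absurd ⟨i, h ▸ inB_S i⟩ hl
  · by_cases hl : ∃ j, InB l j
    · obtain ⟨j, hj⟩ := hl
      rw [hd_not hk, hd_eq hj] at h
      exact absurd ⟨j, h ▸ inB_S j⟩ hk
    · rw [hd_not hk, hd_not hl] at h
      exact absurd h hne

noncomputable def off (n : ℕ) : C := ((((n - hd n : ℕ) : ℝ) / (2 * L (ix n)) : ℝ) : C)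

lemma small (B : ℕ) : ∀ᶠ N : ℕ in atTop, ∀ j, S j < N → B * L j ≤ N := by
  obtain ⟨j0, hj0⟩ := eventually_atTop.mp (tendsto_rt.eventually_ge_atTop B)
  filter_upwards [eventually_ge_atTop (B * L j0)] with N hN j hj
  by_cases h : j0 ≤ j
  · have := hj0 j h
    have : B * L j ≤ (rt j + 1) * L j := Nat.mul_le_mul_right _ (by omega)
    unfold S at hj
    omega
  · exact (Nat.mul_le_mul_left _ (L_mono (by omega))).trans hN

lemma grp_cases (N G : ℕ) : (grp hd N G).card ≤ 1 ∨
    ∃ j, G = S j ∧ S j < N ∧ (grp hd N G).card ≤ L j := by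
  by_cases h : (grp hd N G).card ≤ 1
  · exact Or.inl h
  right
  obtain ⟨k, hk, l, hl, hne⟩ := one_lt_card.mp (not_le.mp h)
  simp only [grp, mem_filter, mem_range] at hk hl
  obtain ⟨j, hj, -⟩ := same hne (hk.2.trans hl.2.symm)
  have hG : G = S j := by rw [← hk.2, hd_eq hj]
  refine ⟨j, hG, by have := hj.1; omega, ?_⟩
  refine (card_le_card (t := Ico (S j) (S j + L j)) fun m hm => ?_).trans (by simp)
  simp only [grp, mem_filter, mem_range] at hm
  by_cases hmk : m = k
  · exact mem_Ico.mpr (hmk ▸ hj)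
  · obtain ⟨i, hi, hi'⟩ := same hmk (hm.2.trans hk.2.symm)
    rw [← hi'.unique hj]
    exact mem_Ico.mpr hi

lemma model : ∀ᵐ ω ∂mu, CP (X hd off ω) := by
  apply ae_cp
  · intro s hs
    filter_upwards [small (⌈2 * s⌉₊), eventually_ge_atTop 1] with N hN hN1 k hk l hl hne h
    obtain ⟨j, h1, h2⟩ := same hne h
    have hL : (1 : ℝ) ≤ L j := by exact_mod_cast L_pos j
    have e : off k - off l = ((((k : ℝ) - l) / (2 * L j) : ℝ) : C) := by
      simp only [off, hd_eq h1, hd_eq h2, ix_eq h1, ix_eq h2, Nat.cast_sub h1.1, Nat.cast_sub h2.1]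
      rw [← AddCircle.coe_sub]
      congr 1
      ring
    have hkl : (1 : ℝ) ≤ |(k : ℝ) - l| ∧ |(k : ℝ) - l| ≤ L j := by
      have : (1 : ℤ) ≤ |(k : ℤ) - l| ∧ |(k : ℤ) - l| ≤ L j := by
        unfold InB at h1 h2
        constructor
        · exact Int.one_le_abs (by omega)
        · rw [abs_le]; constructor <;> omega
      exact_mod_cast this
    have e2 : |((k : ℝ) - l) / (2 * L j)| = |(k : ℝ) - l| / (2 * L j) := by
      rw [abs_div, abs_of_pos (show (0 : ℝ) < 2 * L j by positivity)]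
    rw [e, (AddCircle.norm_coe_eq_abs_iff 1 one_ne_zero).mpr, e2]
    · have h3 : ((⌈2 * s⌉₊ * L j : ℕ) : ℝ) ≤ N := by
        exact_mod_cast hN j (by have := h1.1; omega)
      have h4 := Nat.le_ceil (2 * s)
      push_cast at h3
      have hN' : (1 : ℝ) ≤ N := by exact_mod_cast hN1
      rw [div_le_div_iff₀ (by positivity) (by positivity)]
      nlinarith [hkl.1]
    · rw [e2, abs_one, div_le_div_iff₀ (by positivity) (by positivity)]
      linarith [hkl.2]
  · intro ε hε
    filter_upwards [small (⌈1 / ε⌉₊),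
      (tendsto_natCast_atTop_atTop (R := ℝ)).eventually_ge_atTop (1 / ε)] with N hN hN1 G
    rw [div_le_iff₀ hε] at hN1
    rcases grp_cases N G with h | ⟨j, -, h1, h2⟩
    · have : ((grp hd N G).card : ℝ) ≤ 1 := by exact_mod_cast h
      linarith
    · have h3 : ((⌈1 / ε⌉₊ * L j : ℕ) : ℝ) ≤ N := by exact_mod_cast hN j h1
      have h4 := Nat.le_ceil (1 / ε)
      have h5 : ((grp hd N G).card : ℝ) ≤ L j := by exact_mod_cast h2
      push_cast at h3
      rw [div_le_iff₀ hε] at h4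
      have : (0 : ℝ) ≤ L j := by positivity
      nlinarith
  · intro N hN G H hGH
    rcases grp_cases N G with h | ⟨i, rfl, h1, h2⟩
    · exact (Nat.pow_le_pow_left ((min_le_left _ _).trans h) 2).trans hN
    rcases grp_cases N H with h | ⟨j, rfl, h3, h4⟩
    · exact (Nat.pow_le_pow_left ((min_le_right _ _).trans h) 2).trans hN
    rcases lt_trichotomy i j with h | h | h
    · have := gap h
      exact (Nat.pow_le_pow_left ((min_le_left _ _).trans h2) 2).trans (by omega)
    · exact absurd (by rw [h]) hGH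
    · have := gap h
      exact (Nat.pow_le_pow_left ((min_le_right _ _).trans h4) 2).trans (by omega)

noncomputable def A (j : ℕ) : Set C := Farey (Q j) (1 / ((K j * L j : ℕ) * L j))

lemma vol_A (j : ℕ) : 1 / 3456 * (1 / ((j + 1 : ℕ) : ℝ)) ≤ volume.real (A j) := by
  have hQ : (1 : ℝ) ≤ Q j := by exact_mod_cast Q_pos j
  have hK : (2 : ℝ) ≤ K j := by exact_mod_cast (by simp [K] : 2 ≤ K j)
  have hL : (L j : ℝ) = (3 * K j + 2) * Q j := by simp [L, T]
  have h3 : K j ^ 3 ≤ 27 * (j + 1) := by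
    have h := rt_le j
    unfold K
    rcases Nat.eq_zero_or_pos (rt j) with h0 | h0
    · rw [h0]; omega
    · have h1 : (rt j + 2) ^ 3 ≤ (3 * rt j) ^ 3 := Nat.pow_le_pow_left (by omega) 3
      have h2 : rt j ^ 3 ≤ rt j ^ 4 := Nat.pow_le_pow_right h0 (by norm_num)
      rw [mul_pow] at h1
      omega
  have h3' : (K j : ℝ) ^ 3 ≤ 27 * ((j + 1 : ℕ) : ℝ) := by exact_mod_cast h3
  refine le_trans ?_ (vol_Farey _ _ (by positivity) (Q_pos j) ?_)
  · rw [Nat.cast_mul, hL]
    have e : (Q j : ℝ) ^ 2 / 8 * (1 / (K j * ((3 * K j + 2) * Q j) * ((3 * K j + 2) * Q j))) =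
        1 / (8 * K j * (3 * K j + 2) ^ 2) := by field_simp
    rw [e, div_mul_div_comm, one_mul]
    apply one_div_le_one_div_of_le (by positivity)
    have : (3 * (K j : ℝ) + 2) ^ 2 ≤ (4 * K j) ^ 2 := by gcongr; linarith
    nlinarith
  · rw [Nat.cast_mul, hL]
    have e : 2 * (1 / (K j * ((3 * K j + 2) * Q j) * ((3 * K j + 2) * Q j))) * (Q j : ℝ) ^ 2 =
        2 / (K j * (3 * K j + 2) ^ 2) := by field_simp
    rw [e, div_le_one (by positivity)]
    have : (1 : ℝ) ≤ (3 * K j + 2) ^ 2 := one_le_pow₀ (by linarith)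
    nlinarith

omit [Gr] in
lemma bridge (a : ℕ → ℕ) (α : ℝ) :
    PPC (fun n => Int.fract ((a n : ℝ) * α)) ↔ CP (fun n => a n • (α : C)) := by
  have : ∀ k l : ℕ, |Int.fract ((a k : ℝ) * α) - Int.fract ((a l : ℝ) * α) -
      round (Int.fract ((a k : ℝ) * α) - Int.fract ((a l : ℝ) * α))| =
      ‖a k • (α : C) - a l • (α : C)‖ := by
    intro k l
    rw [← UnitAddCircle.norm_eq, AddCircle.coe_sub, AddCircle.coe_fract, AddCircle.coe_fract,
      ← nsmul_eq_mul, ← nsmul_eq_mul, AddCircle.coe_nsmul, AddCircle.coe_nsmul]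
  simp only [PPC, CP, cnt, this]

theorem main (α₀ : ℝ) (hα : Irrational α₀) : ∃ a : ℕ → ℕ, StrictMono a ∧
    (∀ᵐ α : ℝ, ¬ PPC (fun n => Int.fract ((a n : ℝ) * α))) ∧
    PPC (fun n => Int.fract ((a n : ℝ) * α₀)) ∧ (∀ n, 0 < a n) ∧
    ∀ j, ∃ w d, ∀ i < L j, a (S j + i) = w + i * d := by
  obtain ⟨ω, hω⟩ := model.exists
  obtain ⟨d, hd1, hd2⟩ := exists_dil A (fun j => (isOpen_Farey _ _).measurableSet)
    (fun j => 1 / 3456 * (1 / ((j + 1 : ℕ) : ℝ))) vol_A (fun j => by positivity)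
    (fun h => Real.not_summable_one_div_natCast ((summable_nat_add_iff 1).mp
      ((summable_mul_left_iff (by norm_num)).mp h)))
    (fun j d => ‖d • (α₀ : C) - ((1 / (2 * L j) : ℝ) : C)‖ <
      1 / (2 * L j * ((S j + L j : ℕ) : ℝ) ^ 3) ∧ 1 ≤ d)
    (fun j => (freq_approx α₀ hα _ _ (by have := L_pos j; positivity)).and_eventually
      (eventually_ge_atTop 1))
  obtain ⟨u, hu⟩ := exists_rec (fun m (f : ℕ → ℕ) a => ‖a • (α₀ : C) - ω m‖ <
      1 / (2 * ((m + L (ix m) : ℕ) : ℝ) ^ 3) ∧ (∀ i ∈ range m, f i + i * d (ix i) < a) ∧ 0 < a)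
    (fun m f => ((freq_approx α₀ hα _ _ (by have := L_pos (ix m); positivity)).and_eventually
      (((Finset.eventually_all _).mpr fun i _ => eventually_gt_atTop _).and
        (eventually_gt_atTop 0))).exists)
  have hu2 : ∀ i m, i < m → u i + i * d (ix i) < u m := fun i m h => by
    simpa [h] using (hu m).2.1 i (mem_range.mpr h)
  let a : ℕ → ℕ := fun n => u (hd n) + (n - hd n) * d (ix n)
  refine ⟨a, strictMono_nat_of_lt_succ fun n => ?_, ?_, ?_,
    fun n => Nat.add_pos_left (hu (hd n)).2.2 _, fun j => ⟨u (S j), d j, fun i hi => by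
      have hb : InB (S j + i) j := ⟨by omega, by omega⟩
      simp only [a, hd_eq hb, ix_eq hb, Nat.add_sub_cancel_left]⟩⟩
  · by_cases h : hd (n + 1) = n + 1
    · have h1 := hu2 n (n + 1) (by omega)
      have h2 : u (hd n) ≤ u n := by
        rcases (hd_le n).eq_or_lt with h' | h'
        · rw [h']
        · have := hu2 _ _ h'; omega
      have h3 : (n - hd n) * d (ix n) ≤ n * d (ix n) := Nat.mul_le_mul_right _ (by omega)
      simp only [a, h]
      omega
    · obtain ⟨j, hj⟩ : ∃ j, InB (n + 1) j := by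
        by_contra h'
        exact h (hd_not h')
      have hj' : InB n j := by
        rw [hd_eq hj] at h
        unfold InB at hj ⊢
        omega
      simp only [a, hd_eq hj, hd_eq hj', ix_eq hj, ix_eq hj']
      have h1 := (hd1 j).2
      have h2 : n + 1 - S j = n - S j + 1 := by have := hj'.1; omega
      rw [h2, add_mul]
      omega
  · simp only [bridge]
    apply ae_real (fun y => ¬ CP (fun n => a n • y))
    filter_upwards [hd2] with y hy hcp
    have h1 := (hcp 1 one_pos).eventually (gt_mem_nhds (show (2 : ℝ) * 1 < 3 by norm_num))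
    have h2 : Tendsto (fun j => K j * L j) atTop atTop := by
      refine tendsto_atTop_mono (fun j => ?_) tendsto_rt
      have := Nat.le_mul_of_pos_right (K j) (L_pos j)
      unfold K at this ⊢
      omega
    obtain ⟨j, hj1, hj2⟩ := (hy.and_eventually (h2.eventually h1)).exists
    have hL : (1 : ℝ) ≤ L j := by exact_mod_cast L_pos j
    have hN : 0 < K j * L j := Nat.mul_pos (by simp [K]) (L_pos j)
    have hN' : (0 : ℝ) < (K j * L j : ℕ) := by exact_mod_cast hN
    have h3 := cnt_big (fun n => a n • y) (S j) (L j) (K j * L j) (Q j) (T j) (u (S j) • y)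
      (d j • y) (1 / (K j * L j : ℕ)) _ rfl (SL j).le (fun i hi => by
        have hb : InB (S j + i) j := ⟨by omega, by omega⟩
        simp only [a, hd_eq hb, ix_eq hb, Nat.add_sub_cancel_left, add_smul, mul_smul]) hj1
      (le_of_eq (by field_simp))
    rw [div_lt_iff₀ hN'] at hj2
    have h4 : 3 * (K j * L j) ≤ L j * (T j - 1) := by
      have : T j - 1 = 3 * K j + 1 := by simp [T]
      rw [this]
      nlinarith
    have h5 := (Nat.cast_le (α := ℝ)).mpr (h4.trans h3)
    rw [Nat.cast_mul 3] at h5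
    norm_num at h5 hj2
    linarith
  · rw [bridge]
    refine cp_pert _ _ hω fun n => ?_
    by_cases h : ∃ j, InB n j
    · obtain ⟨j, hj⟩ := h
      have hL : (1 : ℝ) ≤ L j := by exact_mod_cast L_pos j
      have h1 := (hu (S j)).1
      rw [ix_eq (inB_S j)] at h1
      have h2 := (hd1 j).1
      have e : X hd off ω n - a n • (α₀ : C) = -((u (S j) • (α₀ : C) - ω (S j)) +
          (n - S j) • (d j • (α₀ : C) - ((1 / (2 * L j) : ℝ) : C))) := by
        simp only [X, off, a, hd_eq hj, ix_eq hj, add_smul, mul_smul, smul_sub]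
        rw [← AddCircle.coe_nsmul (n := n - S j) (x := 1 / (2 * (L j : ℝ))), nsmul_eq_mul,
          mul_one_div]
        abel
      rw [e, norm_neg]
      refine (norm_add_le _ _).trans ?_
      have h3 := norm_nsmul_le (n := n - S j) (a := d j • (α₀ : C) - ((1 / (2 * L j) : ℝ) : C))
      have h4 : ((n - S j : ℕ) : ℝ) ≤ L j := by
        exact_mod_cast (by have := hj.2; omega : n - S j ≤ L j)
      have h5 : (n : ℝ) + 1 ≤ (S j + L j : ℕ) := by exact_mod_cast hj.2
      have h6 : ((n - S j : ℕ) : ℝ) * ‖d j • (α₀ : C) - ((1 / (2 * L j) : ℝ) : C)‖ ≤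
          L j * (1 / (2 * L j * ((S j + L j : ℕ) : ℝ) ^ 3)) := by gcongr
      have h7 : (0 : ℝ) < (S j + L j : ℕ) := lt_of_lt_of_le (by positivity) h5
      have h8 : 1 / (2 * ((S j + L j : ℕ) : ℝ) ^ 3) +
          L j * (1 / (2 * L j * ((S j + L j : ℕ) : ℝ) ^ 3)) = 1 / ((S j + L j : ℕ) : ℝ) ^ 3 := by
        field_simp
        norm_num
      have h9 : 1 / ((S j + L j : ℕ) : ℝ) ^ 3 ≤ 1 / ((n : ℝ) + 1) ^ 3 := by gcongr
      linarith
    · have e : X hd off ω n - a n • (α₀ : C) = -(u n • (α₀ : C) - ω n) := by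
        simp [X, off, a, hd_not h]
      rw [e, norm_neg]
      refine (hu n).1.le.trans (one_div_le_one_div_of_le (by positivity) ?_)
      have h5 : (n : ℝ) + 1 ≤ (n + L (ix n) : ℕ) := by
        exact_mod_cast (by have := L_pos (ix n); omega : n + 1 ≤ n + L (ix n))
      have : ((n : ℝ) + 1) ^ 3 ≤ ((n + L (ix n) : ℕ) : ℝ) ^ 3 := by gcongr
      have : (0 : ℝ) ≤ ((n + L (ix n) : ℕ) : ℝ) ^ 3 := by positivity
      linarith

end Pool.Agent.H33.Ppc4
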