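import Mathlib

namespace Pool.Agent.H33

open Filter Topology

/-- Poissonian pair correlations of a real sequence `x 0, x 1, …`, with `|t - round t|` the
distance from `t` to the nearest integer. -/
def PPC (x : ℕ → ℝ) : Prop :=
  ∀ s : ℝ, 0 < s →
    Tendsto (fun N : ℕ =>
      (((Finset.range N ×ˢ Finset.range N).filter
        (fun p => p.1 ≠ p.2 ∧ |x p.1 - x p.2 - round (x p.1 - x p.2)| < s / N)).card : ℝ) / N)
      atTop (𝓝 (2 * s))

end Pool.Agent.H33
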