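import Mathlib

set_option autoImplicit false

namespace Pool.Agent.H33.Prim

/-- S has a faithful simple right module. -/
def RightPrimitive (S : Type) [Ring S] : Prop :=
  ∃ (M : Type) (_ : AddCommGroup M) (_ : Module Sᵐᵒᵖ M),
    IsSimpleModule Sᵐᵒᵖ M ∧ FaithfulSMul Sᵐᵒᵖ M

/-- The intersection of all nonzero two-sided ideals of S is nonzero. -/
def SubdirectlyIndecomposable (S : Type) [Ring S] : Prop :=
  ∃ s : S, s ≠ 0 ∧ ∀ I : TwoSidedIdeal S, I ≠ ⊥ → s ∈ I

end Pool.Agent.H33.Prim
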