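import Mathlib

namespace Pool.Agent.H33.Ptc

open Matrix

/-- Positivity of a square matrix over a C*-algebra: it is of the form `N* N`. -/
def MPos {ι A : Type} [Fintype ι] [Ring A] [StarRing A] (M : Matrix ι ι A) : Prop :=
  ∃ N : Matrix ι ι A, M = Nᴴ * N

/-- The `A`-extension property of a finite subset of `ℤ²`. -/
def ExtProp (A : Type) [Ring A] [StarRing A] (Λ : Finset (ℤ × ℤ)) : Prop :=
  ∀ a : ℤ × ℤ → A, MPos (Matrix.of fun i j : Λ => a (i.1 - j.1)) →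
    ∀ K : Finset (ℤ × ℤ), Λ ⊆ K → ∃ b : ℤ × ℤ → A,
      (∀ i ∈ Λ, ∀ j ∈ Λ, b (i - j) = a (i - j)) ∧ MPos (Matrix.of fun i j : K => b (i.1 - j.1))

/-- The `k × k` Toeplitz matrix `[a (i - j)]`. -/
def toep {A : Type} (a : ℤ → A) (k : ℕ) : Matrix (Fin k) (Fin k) A :=
  Matrix.of fun i j => a ((i : ℤ) - (j : ℤ))

/-- The positive Toeplitz completion class. -/
def PTC (A : Type) [Ring A] [StarRing A] : Prop :=
  ∀ k n : ℕ, 0 < k → k < n → ∀ a : ℤ → A, MPos (toep a k) →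
    ∃ y : ℤ → A, (∀ l : ℤ, |l| ≤ (k : ℤ) - 1 → y l = a l) ∧ MPos (toep y n)

end Pool.Agent.H33.Ptc
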