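import Mathlib

open Filter Topology MeasureTheory

namespace Pool.Agent.H33.Pz

/-- Kronecker's theorem on a finite torus. -/
theorem kron_fin {d : Type} [Fintype d] (g y : UnitAddTorus d)
    (h : ∀ a : d → ℤ, UnitAddTorus.mFourier a g = 1 → UnitAddTorus.mFourier a y = 1) :
    y ∈ (AddSubgroup.zmultiples g).topologicalClosure := by
  classical
  by_contra hy
  set H := (AddSubgroup.zmultiples g).topologicalClosure with hH
  have hHc : IsClosed (H : Set (UnitAddTorus d)) := AddSubgroup.isClosed_topologicalClosure _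
  have : CompactSpace H := isCompact_iff_compactSpace.mp hHc.isCompact
  borelize ↥H
  let μ : Measure H := Measure.addHaarMeasure ⊤
  have : IsProbabilityMeasure μ := ⟨by
    have := Measure.addHaarMeasure_self (G := H) (K₀ := ⊤)
    simpa [μ] using this⟩
  have hgH : g ∈ H := AddSubgroup.le_topologicalClosure _ (AddSubgroup.mem_zmultiples g)
  have hc2 : IsClosed ((fun x => x - y) ⁻¹' (H : Set (UnitAddTorus d))) :=
    hHc.preimage (by fun_prop)
  obtain ⟨f, hf0, hf1, -⟩ := exists_continuous_zero_one_of_isClosed hHc hc2 (by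
    rw [Set.disjoint_left]
    intro x hx hx2
    apply hy
    have := H.sub_mem hx hx2
    simpa using this)
  have hint : ∀ (F : C(UnitAddTorus d, ℂ)) (z : UnitAddTorus d),
      Integrable (fun x : H => F (z + x)) μ := fun F z =>
    (show Continuous (fun x : H => F (z + x)) by fun_prop).integrable_of_hasCompactSupport
      (HasCompactSupport.of_compactSpace _)
  let S : Submodule ℂ C(UnitAddTorus d, ℂ) :=
    { carrier := {F | ∫ x : H, F (y + x) ∂μ = ∫ x : H, F (0 + x) ∂μ}
      add_mem' := by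
        intro F G hF hG
        simp only [Set.mem_ofPred_eq, ContinuousMap.add_apply] at *
        rw [integral_add (hint F y) (hint G y), integral_add (hint F 0) (hint G 0), hF, hG]
      zero_mem' := by simp
      smul_mem' := by
        intro c F hF
        simp only [Set.mem_ofPred_eq, ContinuousMap.smul_apply] at *
        rw [integral_smul, integral_smul, hF] }
  have hcont : ∀ z : UnitAddTorus d,
      Continuous (fun F : C(UnitAddTorus d, ℂ) => ∫ x : H, F (z + x) ∂μ) := by
    intro z
    refine (LipschitzWith.of_dist_le_mul (K := 1) (fun F G => ?_)).continuous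
    rw [dist_eq_norm, ← integral_sub (hint F z) (hint G z)]
    refine (norm_integral_le_of_norm_le_const (C := dist F G) (Eventually.of_forall fun x => ?_)).trans
      (by simp)
    rw [← dist_eq_norm]
    exact ContinuousMap.dist_apply_le_dist _
  have hSc : IsClosed (S : Set C(UnitAddTorus d, ℂ)) := isClosed_eq (hcont y) (hcont 0)
  have hmul : ∀ (a : d → ℤ) (u v : UnitAddTorus d),
      UnitAddTorus.mFourier a (u + v) = UnitAddTorus.mFourier a u * UnitAddTorus.mFourier a v := by
    intro a u v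
    simp only [UnitAddTorus.mFourier, ContinuousMap.coe_mk, Pi.add_apply, fourier_apply, smul_add,
      AddCircle.toCircle_add, Circle.coe_mul, Finset.prod_mul_distrib]
  have hle : Submodule.span ℂ (Set.range (UnitAddTorus.mFourier (d := d))) ≤ S := by
    rw [Submodule.span_le]
    rintro _ ⟨a, rfl⟩
    change ∫ x : H, UnitAddTorus.mFourier a (y + x) ∂μ = ∫ x : H, UnitAddTorus.mFourier a (0 + x) ∂μ
    simp only [hmul, integral_const_mul]
    by_cases hg : UnitAddTorus.mFourier a g = 1
    · rw [h a hg]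
      congr 1
      simp [UnitAddTorus.mFourier]
    · have h1 : ∫ x : H, UnitAddTorus.mFourier a ((⟨g, hgH⟩ + x : H) : UnitAddTorus d) ∂μ
          = ∫ x : H, UnitAddTorus.mFourier a x ∂μ :=
        integral_add_left_eq_self (fun x : H => UnitAddTorus.mFourier a (x : UnitAddTorus d)) _
      simp only [AddSubgroup.coe_add, hmul, integral_const_mul] at h1
      have h2 : ∫ x : H, UnitAddTorus.mFourier a (x : UnitAddTorus d) ∂μ = 0 := by
        by_contra h0
        exact hg (mul_right_cancel₀ h0 (h1.trans (one_mul _).symm))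
      rw [h2]; simp
  have htop : S = ⊤ := by
    have := Submodule.topologicalClosure_minimal _ hle hSc
    rw [UnitAddTorus.span_mFourier_closure_eq_top] at this
    exact top_le_iff.mp this
  let F : C(UnitAddTorus d, ℂ) := ⟨fun x => (f x : ℂ), by fun_prop⟩
  have hF : F ∈ S := htop ▸ Submodule.mem_top
  change ∫ x : H, F (y + x) ∂μ = ∫ x : H, F (0 + x) ∂μ at hF
  have e1 : (fun x : H => F (y + x)) = fun _ => 1 := by
    funext x
    have : f (y + x) = 1 := hf1 (show y + (x : UnitAddTorus d) - y ∈ H by simp)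
    simp [F, this]
  have e2 : (fun x : H => F (0 + x)) = fun _ => 0 := by
    funext x
    have : f x = 0 := hf0 x.2
    simp [F, this]
  rw [e1, e2] at hF
  simp at hF

/-- Kronecker's theorem on an arbitrary power of the circle. -/
theorem kron {I : Type} (v w : I → ℝ)
    (h : ∀ (F : Finset I) (a : I → ℤ) (k : ℤ), ∑ i ∈ F, (a i : ℝ) * v i = k →
      ∑ i ∈ F, (a i : ℝ) * w i = 0) :
    (fun i => (w i : UnitAddCircle)) ∈
      closure (Set.range fun n : ℤ => n • (fun i => (v i : UnitAddCircle))) := by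
  classical
  rw [mem_closure_iff_nhds]
  intro U hU
  rw [nhds_pi, Filter.mem_pi'] at hU
  obtain ⟨F, t, ht, hsub⟩ := hU
  have key := kron_fin (d := F) (fun i => (v i : UnitAddCircle)) (fun i => (w i : UnitAddCircle)) (by
    intro a ha
    have e : ∀ u : I → ℝ, UnitAddTorus.mFourier a (fun i : F => (u i : UnitAddCircle))
        = fourier 1 ((∑ i ∈ F, (((if hi : i ∈ F then a ⟨i, hi⟩ else 0 : ℤ)) : ℝ) * u i : ℝ) : UnitAddCircle) := by
      intro u
      rw [← Finset.sum_coe_sort F]
      simp only [UnitAddTorus.mFourier, ContinuousMap.coe_mk, fourier_coe_apply, Finset.coe_mem,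
        dite_true, ← Complex.exp_sum]
      congr 1
      push_cast
      rw [Finset.mul_sum, Finset.sum_div]
      refine Finset.sum_congr rfl fun i _ => ?_
      ring
    rw [e] at ha ⊢
    rw [fourier_one] at ha
    have h0 : ((∑ i ∈ F, (((if hi : i ∈ F then a ⟨i, hi⟩ else 0 : ℤ)) : ℝ) * v i : ℝ) : UnitAddCircle) = 0 := by
      apply AddCircle.injective_toCircle one_ne_zero
      rw [AddCircle.toCircle_zero]
      exact Circle.ext ha
    rw [AddCircle.coe_eq_zero_iff] at h0
    obtain ⟨k, hk⟩ := h0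
    rw [h F _ k (by simpa using hk.symm)]
    simp)
  have key2 : (fun i : F => (w i : UnitAddCircle)) ∈
      closure (AddSubgroup.zmultiples (fun i : F => (v i : UnitAddCircle)) : Set _) := key
  rw [mem_closure_iff_nhds] at key2
  obtain ⟨x, hx, n, rfl⟩ := key2 (Set.pi Set.univ fun i : F => t i)
    (set_pi_mem_nhds Set.finite_univ fun i _ => ht i)
  refine ⟨_, hsub ?_, n, rfl⟩
  intro i hi
  exact hx ⟨i, hi⟩ trivial

theorem lemR (t : ℕ → ℝ)
    (h : ∀ s : ℝ, ∃ l : UnitAddCircle, Tendsto (fun n => ((t n * s : ℝ) : UnitAddCircle)) atTop (𝓝 l)) :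
    ∃ l, Tendsto t atTop (𝓝 l) := by
  apply cauchySeq_tendsto_of_complete
  by_contra hc
  rw [Metric.cauchySeq_iff] at hc
  push Not at hc
  obtain ⟨ε, hε, hc⟩ := hc
  choose m hm n hn hd using hc
  have hmt : Tendsto m atTop atTop := tendsto_atTop_mono hm tendsto_id
  have hnt : Tendsto n atTop atTop := tendsto_atTop_mono hn tendsto_id
  set d : ℕ → ℝ := fun k => 2 * Real.pi * (t (m k) - t (n k)) with hdd
  have hlim : ∀ s : ℝ, Tendsto (fun k => Real.cos (d k * s)) atTop (𝓝 1) := by
    intro s
    obtain ⟨l, hl⟩ := h s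
    have h1 := (hl.comp hmt).sub (hl.comp hnt)
    rw [sub_self] at h1
    have hcont : Continuous (fun x : UnitAddCircle => (fourier 1 x).re) := by fun_prop
    have h2 := (hcont.tendsto 0).comp h1
    simp only [fourier_eval_zero, Complex.one_re] at h2
    refine h2.congr fun k => ?_
    simp only [Function.comp, ← AddCircle.coe_sub, fourier_coe_apply]
    rw [show (2 * Real.pi * Complex.I * ((1 : ℤ) : ℂ) * ((t (m k) * s - t (n k) * s : ℝ) : ℂ) / ((1 : ℝ) : ℂ))
      = ((d k * s : ℝ) : ℂ) * Complex.I by simp only [hdd]; push_cast; ring]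
    exact Complex.exp_ofReal_mul_I_re _
  have hL : 0 < 1 / ε := by positivity
  have hI : Tendsto (fun k => ∫ s in (0 : ℝ)..(1 / ε), Real.cos (d k * s)) atTop
      (𝓝 (∫ _s in (0 : ℝ)..(1 / ε), (1 : ℝ))) := by
    refine intervalIntegral.tendsto_integral_filter_of_dominated_convergence (fun _ => 1) ?_ ?_ ?_ ?_
    · exact Eventually.of_forall fun k => (by fun_prop : Continuous _).aestronglyMeasurable
    · exact Eventually.of_forall fun k => Eventually.of_forall fun s _ => by
        simpa using Real.abs_cos_le_one _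
    · simp
    · exact Eventually.of_forall fun s _ => hlim s
  simp only [intervalIntegral.integral_const, sub_zero, smul_eq_mul, mul_one] at hI
  have hb : ∀ k, ∫ s in (0 : ℝ)..(1 / ε), Real.cos (d k * s) ≤ 1 / (2 * ε) := by
    intro k
    have hdk : 2 * ε ≤ |d k| := by
      have := hd k
      rw [Real.dist_eq] at this
      rw [hdd]
      simp only [abs_mul, abs_two, abs_of_pos Real.pi_pos]
      nlinarith [Real.pi_gt_three, abs_nonneg (t (m k) - t (n k))]
    have hne : d k ≠ 0 := by
      intro h0; rw [h0, abs_zero] at hdk; linarith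
    rw [intervalIntegral.integral_comp_mul_left (fun x => Real.cos x) hne, integral_cos]
    refine (le_abs_self _).trans ?_
    simp only [mul_zero, Real.sin_zero, sub_zero, smul_eq_mul, abs_mul, abs_inv]
    calc |d k|⁻¹ * |Real.sin (d k * (1 / ε))| ≤ (2 * ε)⁻¹ * 1 := by
          gcongr
          exact Real.abs_sin_le_one _
      _ = 1 / (2 * ε) := by simp
  have := le_of_tendsto' hI hb
  rw [div_le_div_iff₀ hε (by positivity)] at this
  linarith

/-- evaluation of a finitely supported coefficient vector -/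
noncomputable def ev {J : Type} (r : J →₀ ℝ) (z : J → ℝ) : ℝ := r.sum fun j c => c * z j

theorem ev_eq {J : Type} (r : J →₀ ℝ) (z : J → ℝ) (A : Finset J) (hA : r.support ⊆ A) :
    ev r z = ∑ j ∈ A, r j * z j :=
  Finsupp.sum_of_support_subset _ hA _ (by simp)

theorem fin_supp {J : Type} (r : ℕ → J →₀ ℝ)
    (h : ∀ z : J → ℝ, ∃ l, Tendsto (fun n => ev (r n) z) atTop (𝓝 l)) :
    ∃ A : Finset J, ∀ n, (r n).support ⊆ A := by
  classical
  by_contra hA
  push Not at hA
  have step : ∀ (k : ℕ) (p : Finset J × (J → ℝ)), ∃ q : Finset J × (J → ℝ),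
      p.1 ⊆ q.1 ∧ (∀ j ∈ p.1, q.2 j = p.2 j) ∧ ∃ n, (r n).support ⊆ q.1 ∧ ev (r n) q.2 = k := by
    intro k p
    obtain ⟨n, hn⟩ := hA p.1
    obtain ⟨j, hj, hj2⟩ := Finset.not_subset.mp hn
    have hj0 : r n j ≠ 0 := Finsupp.mem_support_iff.mp hj
    refine ⟨(p.1 ∪ (r n).support, p.2 + Pi.single j ((k - ev (r n) p.2) / r n j)),
      Finset.subset_union_left, ?_, n, Finset.subset_union_right, ?_⟩
    · intro i hi
      have : i ≠ j := fun e => hj2 (e ▸ hi)
      simp [Pi.single_eq_of_ne this]
    · rw [ev_eq _ _ _ subset_rfl, ev_eq _ _ _ subset_rfl]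
      simp only [Pi.add_apply, mul_add, Finset.sum_add_distrib]
      rw [Finset.sum_eq_single j (f := fun i => r n i * (Pi.single j _ : J → ℝ) i)]
      · simp only [Pi.single_eq_same]
        field_simp
        ring
      · intro i _ hi; simp [Pi.single_eq_of_ne hi]
      · intro hh; exact absurd hj hh
  choose nxt h1 h2 h3 using step
  let s : ℕ → Finset J × (J → ℝ) := fun k => Nat.rec (∅, 0) (fun k p => nxt k p) k
  have hs : ∀ k, s (k + 1) = nxt k (s k) := fun k => rfl
  have mono : ∀ k l, k ≤ l → (s k).1 ⊆ (s l).1 ∧ ∀ j ∈ (s k).1, (s l).2 j = (s k).2 j := by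
    intro k l hkl
    induction l, hkl using Nat.le_induction with
    | base => exact ⟨subset_rfl, fun _ _ => rfl⟩
    | succ l _ ih =>
      rw [hs]
      exact ⟨ih.1.trans (h1 _ _), fun j hj => (h2 _ _ j (ih.1 hj)).trans (ih.2 j hj)⟩
  let z : J → ℝ := fun j => if hj : ∃ k, j ∈ (s k).1 then (s hj.choose).2 j else 0
  have hz : ∀ k, ∀ j ∈ (s k).1, z j = (s k).2 j := by
    intro k j hj
    have hj' : ∃ k, j ∈ (s k).1 := ⟨k, hj⟩
    simp only [z, dif_pos hj']
    rcases le_total k hj'.choose with hh | hh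
    · exact (mono _ _ hh).2 j hj
    · exact ((mono _ _ hh).2 j hj'.choose_spec).symm
  obtain ⟨l, hl⟩ := h z
  obtain ⟨M, hM⟩ := hl.bddAbove_range
  obtain ⟨k, hk⟩ := exists_nat_gt M
  obtain ⟨n, hn1, hn2⟩ := h3 k (s k)
  rw [← hs] at hn1 hn2
  have : ev (r n) z = k := by
    rw [← hn2, ev_eq _ _ _ hn1, ev_eq _ _ _ hn1]
    exact Finset.sum_congr rfl fun j hj => by rw [hz (k + 1) j hj]
  have h5 := hM ⟨n, rfl⟩
  simp only [this] at h5
  linarith

theorem lemQ {J : Type} (r : ℕ → J →₀ ℝ)
    (h : ∀ z : J → ℝ, ∃ l : UnitAddCircle,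
      Tendsto (fun n => ((ev (r n) z : ℝ) : UnitAddCircle)) atTop (𝓝 l)) :
    ∃ ρ : J →₀ ℝ, ∀ z : J → ℝ, Tendsto (fun n => ev (r n) z) atTop (𝓝 (ev ρ z)) := by
  classical
  have h' : ∀ z : J → ℝ, ∃ l, Tendsto (fun n => ev (r n) z) atTop (𝓝 l) := by
    intro z
    apply lemR
    intro s
    obtain ⟨l, hl⟩ := h (fun j => z j * s)
    refine ⟨l, hl.congr fun n => ?_⟩
    congr 1
    rw [ev_eq _ _ _ subset_rfl, ev_eq _ _ _ subset_rfl, Finset.sum_mul]
    exact Finset.sum_congr rfl fun j _ => by ring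
  obtain ⟨A, hA⟩ := fin_supp r h'
  have hc : ∀ j, ∃ l, Tendsto (fun n => r n j) atTop (𝓝 l) := by
    intro j
    obtain ⟨l, hl⟩ := h' (Pi.single j 1)
    refine ⟨l, hl.congr fun n => ?_⟩
    rw [ev_eq _ _ (insert j (r n).support) (Finset.subset_insert _ _), Finset.sum_eq_single j]
    · simp
    · intro i _ hi; simp [Pi.single_eq_of_ne hi]
    · intro hh; exact absurd (Finset.mem_insert_self _ _) hh
  choose c hc using hc
  refine ⟨Finsupp.onFinset A (fun j => if j ∈ A then c j else 0) (by
    intro j hj; by_contra h0; simp [h0] at hj), fun z => ?_⟩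
  rw [ev_eq _ _ A Finsupp.support_onFinset_subset]
  simp only [ev_eq _ _ A (hA _)]
  refine tendsto_finsetSum _ fun j hj => ?_
  simp only [Finsupp.onFinset_apply, hj, if_true]
  exact (hc j).mul_const _

end Pool.Agent.H33.Pz
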