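import Mathlib
import Pool.Agent.H33.Pz1

open Filter Topology Cardinal

namespace Pool.Agent.H33.Pz

theorem generic {P : Type} (hP : #P ≤ 𝔠) (D : P → Set ℝ) (hD : ∀ p, (D p).Countable) :
    ∃ (_ : LinearOrder P) (y : P → ℝ) (K : P → Subfield ℝ), (∀ p, y p ∉ K p) ∧
      (∀ p q, q < p → y q ∈ K p) ∧ ∀ p q, q ≤ p → D q ⊆ K p := by
  classical
  obtain ⟨lo, wf, hord⟩ := Cardinal.exists_ord_eq_type_lt P
  have small : ∀ (p : P) (f : ∀ q, q < p → ℝ), ∃ x : ℝ,
      x ∉ Subfield.closure (Set.range (fun q : Set.Iio p => f q.1 q.2) ∪ ⋃ q ∈ Set.Iic p, D q) := by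
    intro p f
    by_contra hx
    push Not at hx
    have h1 : #(Set.Iio p) < 𝔠 := (Cardinal.mk_Iio_lt p hord).trans_le hP
    have h2 : #(Set.Iic p) < 𝔠 := by
      rw [← Set.Iio_insert]
      refine Cardinal.mk_insert_le.trans_lt ?_
      exact Cardinal.add_lt_of_lt aleph0_le_continuum h1 (one_lt_aleph0.trans aleph0_lt_continuum)
    have h3 : #(⋃ q ∈ Set.Iic p, D q) < 𝔠 := by
      refine (Cardinal.mk_biUnion_le D _).trans_lt ?_
      refine Cardinal.mul_lt_of_lt aleph0_le_continuum h2 (lt_of_le_of_lt ?_ aleph0_lt_continuum)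
      exact ciSup_le' fun q => Cardinal.le_aleph0_iff_set_countable.mpr (hD q)
    have h4 : #(Set.range (fun q : Set.Iio p => f q.1 q.2) ∪ ⋃ q ∈ Set.Iic p, D q : Set ℝ) < 𝔠 :=
      (Cardinal.mk_union_le _ _).trans_lt
        (Cardinal.add_lt_of_lt aleph0_le_continuum (Cardinal.mk_range_le.trans_lt h1) h3)
    have h5 := (Subfield.cardinalMk_closure_le_max _).trans_lt (max_lt h4 aleph0_lt_continuum)
    have h6 : #ℝ ≤ #(Subfield.closure
        (Set.range (fun q : Set.Iio p => f q.1 q.2) ∪ ⋃ q ∈ Set.Iic p, D q)) :=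
      Cardinal.mk_le_of_injective (f := fun x => ⟨x, hx x⟩) fun a b h => congrArg Subtype.val h
    rw [Cardinal.mk_real] at h6
    exact absurd h5 (not_lt.mpr h6)
  choose g hg using small
  obtain ⟨y, hy⟩ : ∃ y : P → ℝ, ∀ p, y p = g p (fun q _ => y q) :=
    ⟨WellFounded.fix (wellFounded_lt (α := P)) g, fun p => WellFounded.fix_eq _ _ _⟩
  refine ⟨lo, y, fun p => Subfield.closure
    (Set.range (fun q : Set.Iio p => y q.1) ∪ ⋃ q ∈ Set.Iic p, D q), fun p => ?_, ?_, ?_⟩
  · have := hg p (fun q _ => y q)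
    rw [← hy p] at this
    exact this
  · intro p q hq
    exact Subfield.subset_closure (Or.inl ⟨⟨q, hq⟩, rfl⟩)
  · intro p q hq x hx
    exact Subfield.subset_closure (Or.inr (Set.mem_biUnion (show q ∈ Set.Iic p from hq) hx))

theorem indep {P β : Type} [LinearOrder P] (e : β → ℝ) (he : LinearIndependent ℚ e)
    (S : P → Set β) (K : P → Subfield ℝ) (y : P → ℝ) (hy : ∀ p, y p ∉ K p)
    (hlt : ∀ p q, q < p → y q ∈ K p) (hS : ∀ p q, q ≤ p → ∀ b ∈ S q, e b ∈ K p) :
    LinearIndependent ℚ (fun o : Option {x : P × β // x.2 ∈ S x.1} =>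
      o.elim (1 : ℝ) (fun x => e x.1.2 * y x.1.1)) := by
  classical
  rw [linearIndependent_iff']
  intro s g hg
  have hsome : ∀ x, some x ∈ s → g (some x) = 0 := by
    by_contra hne
    push Not at hne
    let s' := s.eraseNone.filter fun x => g (some x) ≠ 0
    have hs' : s'.Nonempty := by
      obtain ⟨x, h1, h2⟩ := hne
      exact ⟨x, Finset.mem_filter.mpr ⟨Finset.mem_eraseNone.mpr h1, h2⟩⟩
    obtain ⟨x0, hx0, hmax⟩ := s'.exists_max_image (fun x => x.1.1) hs'
    set p := x0.1.1 with hp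
    let t := s.eraseNone.filter fun x => x.1.1 = p
    let c : ℝ := ∑ x ∈ t, g (some x) • e x.1.2
    have hc : c ∈ K p := by
      refine Subfield.sum_mem _ fun x hx => ?_
      rw [Rat.smul_def]
      exact (K p).mul_mem (SubfieldClass.ratCast_mem _ _)
        (hS p x.1.1 (Finset.mem_filter.mp hx).2.le _ x.2)
    have hc0 : c ≠ 0 := by
      intro h0
      have hli : LinearIndependent ℚ (fun x : t => e x.1.1.2) := by
        refine he.comp (fun x : t => x.1.1.2) ?_
        intro a b hab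
        have ha := (Finset.mem_filter.mp a.2).2
        have hb := (Finset.mem_filter.mp b.2).2
        exact Subtype.ext (Subtype.ext (Prod.ext (ha.trans hb.symm) hab))
      have hx0t : x0 ∈ t := Finset.mem_filter.mpr ⟨(Finset.mem_filter.mp hx0).1, rfl⟩
      have := Fintype.linearIndependent_iff.mp hli (fun x => g (some x.1))
        (by rw [← h0]; exact Finset.sum_coe_sort t (fun x => g (some x) • e x.1.2)) ⟨x0, hx0t⟩
      exact (Finset.mem_filter.mp hx0).2 this
    have hsplit := Finset.sum_filter_add_sum_filter_not s (fun o => ∃ x ∈ t, o = some x)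
      (fun o : Option {x : P × β // x.2 ∈ S x.1} =>
        g o • o.elim (1 : ℝ) (fun x => e x.1.2 * y x.1.1))
    rw [hg] at hsplit
    have e1 : s.filter (fun o => ∃ x ∈ t, o = some x) = t.image some := by
      ext o
      simp only [Finset.mem_filter, Finset.mem_image]
      constructor
      · rintro ⟨-, x, hx, rfl⟩; exact ⟨x, hx, rfl⟩
      · rintro ⟨x, hx, rfl⟩
        exact ⟨Finset.mem_eraseNone.mp (Finset.mem_filter.mp hx).1, x, hx, rfl⟩
    rw [e1, Finset.sum_image (fun _ _ _ _ h => Option.some.inj h)] at hsplit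
    have e2 : ∑ x ∈ t, g (some x) • (some x).elim (1 : ℝ) (fun x => e x.1.2 * y x.1.1) = c * y p := by
      simp only [c, Finset.sum_mul, Option.elim]
      refine Finset.sum_congr rfl fun x hx => ?_
      rw [(Finset.mem_filter.mp hx).2, smul_mul_assoc]
    rw [e2] at hsplit
    have hrest : ∑ o ∈ s.filter (fun o => ¬ ∃ x ∈ t, o = some x),
        g o • o.elim (1 : ℝ) (fun x => e x.1.2 * y x.1.1) ∈ K p := by
      refine Subfield.sum_mem _ fun o ho => ?_
      rw [Rat.smul_def]
      obtain ⟨ho1, ho2⟩ := Finset.mem_filter.mp ho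
      cases o with
      | none => exact (K p).mul_mem (SubfieldClass.ratCast_mem _ _) (K p).one_mem
      | some x =>
        by_cases hx : g (some x) = 0
        · rw [hx]; simp
        · have h1 : x.1.1 ≤ p :=
            hmax x (Finset.mem_filter.mpr ⟨Finset.mem_eraseNone.mpr ho1, hx⟩)
          have h2 : x.1.1 ≠ p := fun h =>
            ho2 ⟨x, Finset.mem_filter.mpr ⟨Finset.mem_eraseNone.mpr ho1, h⟩, rfl⟩
          exact (K p).mul_mem (SubfieldClass.ratCast_mem _ _)
            ((K p).mul_mem (hS p _ h1 _ x.2) (hlt p _ (lt_of_le_of_ne h1 h2)))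
    apply hy p
    have e3 : y p = -(∑ o ∈ s.filter (fun o => ¬ ∃ x ∈ t, o = some x),
        g o • o.elim (1 : ℝ) (fun x => e x.1.2 * y x.1.1)) / c := by
      rw [eq_div_iff hc0]; linarith
    rw [e3]
    exact (K p).div_mem ((K p).neg_mem hrest) hc
  intro o ho
  cases o with
  | some x => exact hsome x ho
  | none =>
    rw [Finset.sum_eq_single none] at hg
    · simpa using hg
    · intro o ho' hn
      cases o with
      | none => exact absurd rfl hn
      | some x => rw [hsome x ho', zero_smul]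
    · intro h; exact absurd ho h

theorem generic2 {P β : Type} (hP : #P ≤ 𝔠) (e : β → ℝ) (he : LinearIndependent ℚ e)
    (S : P → Set β) (hS : ∀ p, (S p).Countable) (z : P → ℝ) :
    ∃ y : P → ℝ, ∀ y' : P → ℝ, (∀ p, y' p = y p ∨ y' p = y p - z p) →
      LinearIndependent ℚ (fun o : Option {x : P × β // x.2 ∈ S x.1} =>
        o.elim (1 : ℝ) (fun x => e x.1.2 * y' x.1.1)) := by
  obtain ⟨lo, y, K, hK1, hK2, hK3⟩ := generic hP (fun p => insert (z p) (e '' S p))
    (fun p => ((hS p).image _).insert _)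
  have hz : ∀ p q, q ≤ p → z q ∈ K p := fun p q h => hK3 p q h (Set.mem_insert _ _)
  refine ⟨y, fun y' hy' => indep e he S K y' ?_ ?_
    (fun p q hq b hb => hK3 p q hq (Set.mem_insert_of_mem _ ⟨b, hb, rfl⟩))⟩
  · intro p hp
    apply hK1 p
    rcases hy' p with h | h
    · rwa [h] at hp
    · rw [h] at hp
      simpa using (K p).add_mem hp (hz p p le_rfl)
  · intro p q hq
    rcases hy' q with h | h
    · rw [h]; exact hK2 p q hq
    · rw [h]; exact (K p).sub_mem (hK2 p q hq) (hz p q hq.le)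

theorem exists_map {ι : Type} (v : ι → ℝ) (hv : LinearIndependent ℚ v) (w : ι → ℝ) :
    ∃ φ : ℝ →ₗ[ℚ] ℝ, ∀ i, φ (v i) = w i := by
  obtain ⟨g, hg⟩ := (Finsupp.linearCombination ℚ v).exists_leftInverse_of_injective
    (LinearMap.ker_eq_bot.mpr hv)
  refine ⟨(Finsupp.linearCombination ℚ w).comp g, fun i => ?_⟩
  have : g (v i) = Finsupp.single i 1 := by
    have := LinearMap.congr_fun hg (Finsupp.single i 1)
    simpa using this
  simp [this]

/-- convergence modulo one of the sequence evaluated at `z` -/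
def Conv {J : Type} (r : ℕ → J →₀ ℝ) (z : J → ℝ) : Prop :=
  ∃ l : UnitAddCircle, Tendsto (fun n => ((ev (r n) z : ℝ) : UnitAddCircle)) atTop (𝓝 l)

theorem ev_sub {J : Type} (r : J →₀ ℝ) (z z' : J → ℝ) : ev r (z - z') = ev r z - ev r z' := by
  simp only [ev_eq _ _ _ subset_rfl, Pi.sub_apply, mul_sub, Finset.sum_sub_distrib]

theorem Conv.sub {J : Type} {r : ℕ → J →₀ ℝ} {z z' : J → ℝ} (h : Conv r z) (h' : Conv r z') :
    Conv r (z - z') := by
  obtain ⟨l, hl⟩ := h
  obtain ⟨l', hl'⟩ := h'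
  refine ⟨l - l', (hl.sub hl').congr fun n => ?_⟩
  rw [ev_sub, AddCircle.coe_sub]

theorem ev_add_left {J : Type} (r r' : J →₀ ℝ) (z : J → ℝ) : ev (r + r') z = ev r z + ev r' z :=
  Finsupp.sum_add_index' (by simp) (fun _ _ _ => add_mul _ _ _)

/-- evaluation as a linear map in the coefficients -/
theorem ev_lc {J : Type} (r : J →₀ ℝ) (z : J → ℝ) : ev r z = Finsupp.linearCombination ℝ z r := by
  simp [ev, Finsupp.linearCombination_apply]

theorem exists_family : ∃ (J : Type) (u : ℝ → J → ℝ) (φ : ℝ →ₗ[ℚ] ℝ), φ 1 = 0 ∧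
    (∀ r : J →₀ ℝ, r ≠ 0 → ∃ r' : J →₀ ℝ, r' ≠ 0 ∧ ∀ α, ev r' (u α) = φ (ev r (u α))) ∧
    (∀ r : ℕ → J →₀ ℝ, (∀ α, Conv r (u α)) → ∀ z, Conv r z) ∧
    (∀ (C : Set ℝ) (p : ℝ → ℝ), C.Countable → ∃ j, ∀ α ∈ C, u α j = p α) := by
  classical
  let β : Type := Module.Basis.ofVectorSpaceIndex ℚ ℝ
  let e : Module.Basis β ℚ ℝ := Module.Basis.ofVectorSpace ℚ ℝ
  let Ξ : Type := ℕ → ℝ × ℝ
  let J : Type := Ξ × List β
  let Task : Type := ℕ → J →₀ ℝ
  have cβ : #β ≤ 𝔠 := (Cardinal.mk_set_le _).trans Cardinal.mk_real.le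
  have cΞ : #Ξ = 𝔠 := by simp [Ξ, Cardinal.mk_real]
  have cJ : #J ≤ 𝔠 := by
    have : #(List β) ≤ 𝔠 := (Cardinal.mk_list_le_max β).trans (max_le aleph0_le_continuum cβ)
    calc #J = #Ξ * #(List β) := by simp [J]
      _ ≤ 𝔠 * 𝔠 := mul_le_mul' cΞ.le this
      _ = 𝔠 := by simp
  have cT : #Task ≤ 𝔠 := by
    have h1 : #(J →₀ ℝ) = 𝔠 := by
      have : Nonempty J := ⟨(fun _ => (0, 0), [])⟩
      rw [Cardinal.mk_finsupp_of_infinite', Cardinal.mk_real, max_eq_right cJ]
    have : #Task = #(J →₀ ℝ) ^ ℵ₀ := by simp [Task]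
    rw [this, h1]; simp
  have cTR : #(Task × ℝ) ≤ #ℝ := by
    calc #(Task × ℝ) = #Task * 𝔠 := by rw [Cardinal.mk_prod, Cardinal.lift_id, Cardinal.lift_id, Cardinal.mk_real]
      _ ≤ 𝔠 * 𝔠 := mul_le_mul' cT le_rfl
      _ = #ℝ := by simp [Cardinal.mk_real]
  have cP : #(Task × J) ≤ 𝔠 := by
    calc #(Task × J) = #Task * #J := by simp
      _ ≤ 𝔠 * 𝔠 := mul_le_mul' cT cJ
      _ = 𝔠 := by simp
  obtain ⟨ι⟩ := (Cardinal.le_def _ _).mp cTR
  let σ : ℝ → Task := fun α => if h : ∃ x, ι x = α then h.choose.1 else 0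
  have hσ : ∀ x, σ (ι x) = x.1 := by
    intro x
    have h : ∃ x', ι x' = ι x := ⟨x, rfl⟩
    simp only [σ, dif_pos h]
    rw [ι.injective h.choose_spec]
  let z : Task → J → ℝ := fun τ => if h : ∃ z, ¬ Conv τ z then h.choose else 0
  let S : Task → Set β := fun τ => ⋃ n, ⋃ j ∈ ((τ n).support : Set J), {b | b ∈ j.2}
  have hSc : ∀ τ, (S τ).Countable := fun τ => Set.countable_iUnion fun n =>
    (Finset.countable_toSet _).biUnion fun j _ => (List.finite_toSet j.2).countable
  obtain ⟨y, hy⟩ := generic2 cP e e.linearIndependent (fun p : Task × J => S p.1)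
    (fun p => hSc p.1) (fun p => z p.1 p.2)
  let y' : Task × J → ℝ := fun p =>
    if Conv p.1 (fun j => y (p.1, j)) then y p - z p.1 p.2 else y p
  have hind := hy y' (by
    intro p
    simp only [y']
    split_ifs
    · exact Or.inr rfl
    · exact Or.inl rfl)
  obtain ⟨φ, hφ⟩ := exists_map _ hind
    (fun o => o.elim 0 (fun x => y' (x.1.1.1, (x.1.1.2.1, x.1.2 :: x.1.1.2.2))))
  have hφ1 : φ 1 = 0 := hφ none
  have hφ2 : ∀ (τ : Task) (ξ : Ξ) (w : List β) (b : β), b ∈ S τ →
      φ (e b * y' (τ, (ξ, w))) = y' (τ, (ξ, b :: w)) :=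
    fun τ ξ w b hb => hφ (some ⟨((τ, (ξ, w)), b), hb⟩)
  let x : ℝ → Ξ → ℝ := fun α ξ =>
    if h : ∃ n, (ξ n).1 = α then (ξ h.choose).2 else y' (σ α, (ξ, []))
  let u : ℝ → J → ℝ := fun α j => List.foldr (fun b t => φ (e b * t)) (x α j.1) j.2
  refine ⟨J, u, φ, hφ1, ?_, ?_, ?_⟩
  · intro r hr
    let r' : J →₀ ℝ := ∑ j ∈ r.support, ∑ b ∈ (e.repr (r j)).support,
      Finsupp.single (j.1, b :: j.2) ((e.repr (r j) b : ℚ) : ℝ)
    refine ⟨r', ?_, fun α => ?_⟩
    · obtain ⟨j0, hj0⟩ := Finsupp.support_nonempty_iff.mpr hr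
      have h1 : e.repr (r j0) ≠ 0 := by
        rw [Ne, LinearEquiv.map_eq_zero_iff]; exact Finsupp.mem_support_iff.mp hj0
      obtain ⟨b0, hb0⟩ := Finsupp.support_nonempty_iff.mpr h1
      intro h0
      have h2 : r' (j0.1, b0 :: j0.2) = ((e.repr (r j0) b0 : ℚ) : ℝ) := by
        simp only [r', Finsupp.finsetSum_apply]
        rw [Finset.sum_eq_single j0, Finset.sum_eq_single b0]
        · simp
        · intro b _ hb
          apply Finsupp.single_eq_of_ne
          intro h
          exact hb (List.cons.inj (Prod.ext_iff.mp h).2).1.symm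
        · intro h; exact absurd hb0 h
        · intro j _ hj
          refine Finset.sum_eq_zero fun b _ => ?_
          apply Finsupp.single_eq_of_ne
          intro h
          exact hj (Prod.ext (Prod.ext_iff.mp h).1.symm (List.cons.inj (Prod.ext_iff.mp h).2).2.symm)
        · intro h; exact absurd hj0 h
      rw [h0] at h2
      exact Finsupp.mem_support_iff.mp hb0 (by simpa using h2.symm)
    · rw [ev_eq r _ _ subset_rfl, ev_lc, map_sum, map_sum]
      refine Finset.sum_congr rfl fun j _ => ?_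
      conv_rhs => rw [← e.linearCombination_repr (r j), Finsupp.linearCombination_apply,
        Finsupp.sum, Finset.sum_mul, map_sum]
      rw [map_sum]
      refine Finset.sum_congr rfl fun b _ => ?_
      rw [Finsupp.linearCombination_single, smul_mul_assoc, map_smul, Rat.smul_def, smul_eq_mul]
      rfl
  · intro τ hτ z0
    by_contra hz0
    have hex : ∃ z, ¬ Conv τ z := ⟨z0, hz0⟩
    have hzτ : ¬ Conv τ (z τ) := by
      simp only [z, dif_pos hex]; exact hex.choose_spec
    have hdiv : ¬ Conv τ (fun j => y' (τ, j)) := by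
      by_cases hc : Conv τ (fun j => y (τ, j))
      · intro h2
        apply hzτ
        have h3 := hc.sub h2
        have e3 : ((fun j => y (τ, j)) - fun j => y' (τ, j)) = z τ := by
          funext j
          simp [y', hc]
        rwa [e3] at h3
      · have e3 : (fun j => y' (τ, j)) = fun j => y (τ, j) := by
          funext j
          simp [y', hc]
        rwa [e3]
    let Bad : Set ℝ := ⋃ n, ⋃ j ∈ ((τ n).support : Set J), Set.range fun k => (j.1 k).1
    have hBad : Bad.Countable := Set.countable_iUnion fun n =>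
      (Finset.countable_toSet _).biUnion fun j _ => Set.countable_range _
    have hs : ∃ s : ℝ, ι (τ, s) ∉ Bad := by
      by_contra hs
      push Not at hs
      have : (Set.univ : Set ℝ).Countable := by
        have h1 := hBad.preimage_of_injOn (f := fun s : ℝ => ι (τ, s))
          (fun a _ b _ h => (Prod.ext_iff.mp (ι.injective h)).2)
        exact h1.mono fun s _ => hs s
      exact Cardinal.not_countable_real this
    obtain ⟨s, hs⟩ := hs
    apply hdiv
    obtain ⟨l, hl⟩ := hτ (ι (τ, s))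
    refine ⟨l, hl.congr fun n => ?_⟩
    congr 1
    rw [ev_eq _ _ _ subset_rfl, ev_eq _ _ _ subset_rfl]
    refine Finset.sum_congr rfl fun j hj => ?_
    congr 1
    have h0 : x (ι (τ, s)) j.1 = y' (τ, (j.1, [])) := by
      have : ¬ ∃ k, (j.1 k).1 = ι (τ, s) := fun h => hs
        (Set.mem_iUnion.mpr ⟨n, Set.mem_biUnion (Finset.mem_coe.mpr hj) h⟩)
      simp only [x, dif_neg this, hσ]
    have key : ∀ w : List β, (∀ b ∈ w, b ∈ S τ) →
        List.foldr (fun b t => φ (e b * t)) (x (ι (τ, s)) j.1) w = y' (τ, (j.1, w)) := by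
      intro w
      induction w with
      | nil => intro _; exact h0
      | cons b w ih =>
        intro hw
        rw [List.foldr_cons, ih fun b' hb' => hw b' (List.mem_cons_of_mem _ hb')]
        exact hφ2 τ _ _ _ (hw b List.mem_cons_self)
    exact key j.2 fun b hb =>
      Set.mem_iUnion.mpr ⟨n, Set.mem_biUnion (Finset.mem_coe.mpr hj) hb⟩
  · intro C p hC
    rcases C.eq_empty_or_nonempty with rfl | hne
    · exact ⟨(fun _ => (0, 0), []), fun α h => h.elim⟩
    obtain ⟨c, rfl⟩ := hC.exists_eq_range hne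
    refine ⟨(fun n => (c n, p (c n)), []), fun α hα => ?_⟩
    have h : ∃ n, c n = α := hα
    simp only [u, x, List.foldr_nil, dif_pos h]
    rw [h.choose_spec]

end Pool.Agent.H33.Pz
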