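import Mathlib

open Filter Topology

namespace Pool.Agent.H33.Pz

/-- A space is zero-dimensional if the clopen sets form a base of its topology. -/
def ZeroDim (X : Type) [TopologicalSpace X] : Prop :=
  TopologicalSpace.IsTopologicalBasis {s : Set X | IsClopen s}

/-- Every continuous real function is bounded. -/
def Pseudocompact (X : Type) [TopologicalSpace X] : Prop :=
  ∀ f : X → ℝ, Continuous f → ∃ M : ℝ, ∀ x, |f x| ≤ M

/-- Every Cauchy sequence for the group uniformity converges. -/
def SeqComplete (G : Type) [AddCommGroup G] [TopologicalSpace G] : Prop :=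
  ∀ a : ℕ → G, (∀ U ∈ 𝓝 (0 : G), ∃ N, ∀ m ≥ N, ∀ n ≥ N, a m - a n ∈ U) →
    ∃ x, Tendsto a atTop (𝓝 x)

/-- Every closed zero-dimensional subgroup is discrete. -/
def PropertyZ (G : Type) [AddCommGroup G] [TopologicalSpace G] : Prop :=
  ∀ H : AddSubgroup G, IsClosed (H : Set G) → ZeroDim H → DiscreteTopology H

end Pool.Agent.H33.Pz
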