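import Mathlib

namespace Pool.Agent.H33.Qg

open Equiv

abbrev X := ℕ × ℕ
abbrev E := Fin 3 × X
abbrev Cell := Fin 3 → X
abbrev I := ℕ × Perm (Fin 3) × Cell × Cell × Cell × Cell

def sg (i : I) : I := (i.1, i.2.1⁻¹, i.2.2.2.2.1, i.2.2.2.2.2, i.2.2.1, i.2.2.2.1)

lemma sg_sg (i : I) : sg (sg i) = i := by simp [sg]

structure St where
  P : Set Cell
  R : I → E → E → Prop

def Mp (R : E → E → Prop) (p : Perm (Fin 3)) (c d : Cell) : Prop :=
  ∀ m, R (m, c m) (p m, d (p m))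

def Clo (P : Set Cell) (R : E → E → Prop) (p : Perm (Fin 3)) : Prop :=
  ∀ c ∈ P, ∀ k l a b, k ≠ l → R (k, c k) a → R (l, c l) b → ∃ d ∈ P, Mp R p c d

structure Good (n : ℕ) (s : St) : Prop where
  tagP : ∀ c ∈ s.P, ∀ k, (c k).1 < n
  lat : ∀ c ∈ s.P, ∀ d ∈ s.P, ∀ k l, k ≠ l → c k = d k → c l = d l → c = d
  sym : ∀ i a b, s.R i a b → s.R (sg i) b a
  fn : ∀ i a b b', s.R i a b → s.R i a b' → b = b'
  srt : ∀ i a b, s.R i a b → b.1 = i.2.1 a.1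
  tagR : ∀ i a b, s.R i a b → a.2.1 < n ∧ i.1 < n
  clo : ∀ i, Clo s.P (s.R i) i.2.1

def Le (s t : St) : Prop := s.P ⊆ t.P ∧ ∀ i a b, s.R i a b → t.R i a b

lemma third : ∀ k l m p : Fin 3, k ≠ l → m ≠ k → m ≠ l → p ≠ m → p = k ∨ p = l := by decide

def F (i : I) (a b : E) : Prop :=
  (∃ k, a = (k, i.2.2.1 k) ∧ b = (i.2.1 k, i.2.2.2.2.1 (i.2.1 k))) ∨
    ∃ k, a = (k, i.2.2.2.1 k) ∧ b = (i.2.1 k, i.2.2.2.2.2 (i.2.1 k))

def V (n : ℕ) (P : Set Cell) (i : I) : Prop :=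
  (∀ a b b', F i a b → F i a b' → b = b') ∧ (∀ a b, F i a b → a.2.1 < n) ∧ Clo P (F i) i.2.1

lemma V_of {n : ℕ} {s : St} (h : Good n s) (t : ℕ) (p : Perm (Fin 3)) {x y u v : Cell}
    (hx : x ∈ s.P) (hy : y ∈ s.P) (hu : u ∈ s.P) (hv : v ∈ s.P)
    (h1 : ∀ k, x k = y k → u (p k) = v (p k))
    (h2 : ∀ c ∈ s.P, ∀ k l, k ≠ l → c k = x k → c l = y l → c = x) :
    V n s.P (t, p, x, y, u, v) := by
  refine ⟨?_, ?_, ?_⟩
  · rintro a b b' (⟨k, rfl, rfl⟩ | ⟨k, rfl, rfl⟩) (⟨l, e, rfl⟩ | ⟨l, e, rfl⟩) <;>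
      obtain ⟨rfl, e⟩ := Prod.mk.inj e
    · rfl
    · exact Prod.ext rfl (h1 _ e)
    · exact Prod.ext rfl (h1 _ e.symm).symm
    · rfl
  · rintro a b (⟨k, rfl, rfl⟩ | ⟨k, rfl, rfl⟩)
    exacts [h.tagP x hx k, h.tagP y hy k]
  · intro c hc k l a b hkl ha hb
    have : c = x ∨ c = y := by
      rcases ha with ⟨k', e, -⟩ | ⟨k', e, -⟩ <;> obtain ⟨rfl, e⟩ := Prod.mk.inj e <;>
        rcases hb with ⟨l', e', -⟩ | ⟨l', e', -⟩ <;> obtain ⟨rfl, e'⟩ := Prod.mk.inj e'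
      · exact .inl (h.lat c hc x hx _ _ hkl e e')
      · exact .inl (h2 c hc _ _ hkl e e')
      · exact .inl (h2 c hc _ _ hkl.symm e' e)
      · exact .inr (h.lat c hc y hy _ _ hkl e e')
    rcases this with rfl | rfl
    · exact ⟨u, hu, fun m => .inl ⟨m, rfl, rfl⟩⟩
    · exact ⟨v, hv, fun m => .inr ⟨m, rfl, rfl⟩⟩

lemma act {n : ℕ} {s : St} (h : Good n s) : ∃ t, Good (n + 1) t ∧ Le s t ∧ t.P = s.P ∧
    ∀ i : I, i.1 = n → V n s.P i → V n s.P (sg i) → ∀ a b, t.R i a b ↔ F i a b := by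
  have h0 : ∀ {i : I} {a b}, i.1 = n → ¬s.R i a b := fun e r => (h.tagR _ _ _ r).2.ne e
  refine ⟨⟨s.P, fun i a b => s.R i a b ∨ (i.1 = n ∧ V n s.P i ∧ V n s.P (sg i) ∧ F i a b)⟩,
    ⟨fun c hc k => (h.tagP c hc k).trans n.lt_succ_self, h.lat, ?_, ?_, ?_, ?_, ?_⟩,
    ⟨subset_rfl, fun i a b r => .inl r⟩, rfl, fun i e v w a b =>
      ⟨fun r => r.elim (fun r => (h0 e r).elim) fun r => r.2.2.2, fun r => .inr ⟨e, v, w, r⟩⟩⟩
  · rintro i a b (r | ⟨e, v, w, r⟩)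
    · exact .inl (h.sym _ _ _ r)
    · refine .inr ⟨e, w, by rwa [sg_sg], ?_⟩
      rcases r with ⟨k, rfl, rfl⟩ | ⟨k, rfl, rfl⟩
      · exact .inl ⟨_, rfl, by simp [sg]⟩
      · exact .inr ⟨_, rfl, by simp [sg]⟩
  · rintro i a b b' (r | ⟨e, v, w, r⟩) (r' | ⟨e', -, -, r'⟩)
    exacts [h.fn _ _ _ _ r r', (h0 e' r).elim, (h0 e r').elim, v.1 _ _ _ r r']
  · rintro i a b (r | ⟨-, -, -, ⟨k, rfl, rfl⟩ | ⟨k, rfl, rfl⟩⟩)
    exacts [h.srt _ _ _ r, rfl, rfl]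
  · rintro i a b (r | ⟨e, v, -, r⟩)
    · have := h.tagR _ _ _ r
      omega
    · have := v.2.1 _ _ r
      omega
  · rintro i c hc k l a b hkl (r | ⟨e, v, w, r⟩) (r' | ⟨e', -, -, r'⟩)
    · obtain ⟨d, hd, m⟩ := h.clo i c hc k l a b hkl r r'
      exact ⟨d, hd, fun j => .inl (m j)⟩
    · exact (h0 e' r).elim
    · exact (h0 e r').elim
    · obtain ⟨d, hd, m⟩ := v.2.2 c hc k l a b hkl r r'
      exact ⟨d, hd, fun j => .inr ⟨e, v, w, m j⟩⟩

lemma com {n : ℕ} {s : St} (h : Good n s) : ∃ t, Good (n + 1) t ∧ Le s t ∧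
    ∀ (k : Fin 3) (c : Cell), (∀ l, l ≠ k → (c l).1 < n) → ∃ d ∈ t.P, ∀ l, l ≠ k → d l = c l := by
  obtain ⟨en, hen⟩ := exists_injective_nat Cell
  let U : Fin 3 → Cell → Prop := fun k c => (∀ l, l ≠ k → (c l).1 < n) ∧
    (∀ d ∈ s.P, ¬∀ l, l ≠ k → d l = c l) ∧ c k = (n, en (Function.update c k 0))
  have u1 : ∀ {k c d}, U k c → U k d → (∀ l, l ≠ k → c l = d l) → c = d := by
    intro k c d hc hd e
    have : Function.update c k 0 = Function.update d k 0 := by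
      ext1 l
      by_cases hl : l = k <;> simp [hl, e]
    ext1 l
    by_cases hl : l = k
    · rw [hl, hc.2.2, hd.2.2, this]
    · exact e l hl
  have u2 : ∀ {k c d}, U k c → U k d → c k = d k → c = d := by
    intro k c d hc hd e
    refine u1 hc hd fun l hl => ?_
    rw [hc.2.2, hd.2.2] at e
    simpa [hl] using congrFun (hen (Prod.mk.inj e).2) l
  have u3 : ∀ {k c}, U k c → (c k).1 = n := fun hc => by rw [hc.2.2]
  have u4 : ∀ k (c : Cell), (∀ l, l ≠ k → (c l).1 < n) → (∀ d ∈ s.P, ¬∀ l, l ≠ k → d l = c l) →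
      ∃ d, U k d ∧ ∀ l, l ≠ k → d l = c l := by
    intro k c h1 h2
    refine ⟨Function.update c k (n, en (Function.update c k 0)), ⟨fun l hl => ?_, fun d hd e =>
      h2 d hd fun l hl => ?_, by simp⟩, fun l hl => by simp [hl]⟩
    · simpa [hl] using h1 l hl
    · simpa [hl] using e l hl
  have ex : ∀ k : Fin 3, ∃ l p, l ≠ k ∧ p ≠ k ∧ l ≠ p := by decide
  refine ⟨⟨s.P ∪ {c | ∃ k, U k c}, fun i a b => s.R i a b ∨ ∃ k c d, U k c ∧ U (i.2.1 k) d ∧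
    a = (k, c k) ∧ b = (i.2.1 k, d (i.2.1 k)) ∧
      ∀ l, l ≠ k → s.R i (l, c l) (i.2.1 l, d (i.2.1 l))⟩, ⟨?_, ?_, ?_, ?_, ?_, ?_, ?_⟩,
    ⟨Set.subset_union_left, fun i a b r => .inl r⟩, fun k c hc => ?_⟩
  · rintro c (hc | ⟨m, hc⟩) k
    · exact (h.tagP c hc k).trans n.lt_succ_self
    · by_cases e : k = m
      · rw [e, u3 hc]
        exact n.lt_succ_self
      · exact (hc.1 k e).trans n.lt_succ_self
  · have k1 : ∀ c ∈ s.P, ∀ d m, U m d → ∀ k l, k ≠ l → c k = d k → c l = d l → False := by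
      intro c hc d m hd k l hkl e e'
      have h1 := h.tagP c hc m
      have h2 := u3 hd
      refine hd.2.1 c hc fun p hp => ?_
      rcases third k l m p hkl (by rintro rfl; rw [e] at h1; omega)
        (by rintro rfl; rw [e'] at h1; omega) hp with rfl | rfl
      exacts [e, e']
    rintro c (hc | ⟨m, hc⟩) d (hd | ⟨m', hd⟩) k l hkl e e'
    · exact h.lat c hc d hd k l hkl e e'
    · exact (k1 c hc d _ hd k l hkl e e').elim
    · exact (k1 d hd c _ hc k l hkl e.symm e'.symm).elim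
    · have h1 := u3 hc
      have h2 := u3 hd
      have k2 : ∀ p, c p = d p → (m = p ↔ m' = p) := fun p ep => ⟨fun e1 => by
        by_contra e2
        have := hd.1 p (Ne.symm e2)
        rw [← ep, ← e1] at this
        omega, fun e1 => by
        by_contra e2
        have := hc.1 p (Ne.symm e2)
        rw [ep, ← e1] at this
        omega⟩
      by_cases hk : m = k
      · obtain rfl := (k2 k e).1 hk
        exact u2 (hk ▸ hc) hd e
      by_cases hl : m = l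
      · obtain rfl := (k2 l e').1 hl
        exact u2 (hl ▸ hc) hd e'
      obtain rfl : m' = m := by
        by_contra e2
        rcases third k l m m' hkl hk hl e2 with e3 | e3
        exacts [hk ((k2 k e).2 e3), hl ((k2 l e').2 e3)]
      refine u1 hc hd fun p hp => ?_
      rcases third k l _ p hkl hk hl hp with rfl | rfl
      exacts [e, e']
  · rintro i a b (r | ⟨k, c, d, hc, hd, rfl, rfl, r⟩)
    · exact .inl (h.sym _ _ _ r)
    · refine .inr ⟨_, d, c, hd, by simpa [sg] using hc, rfl, by simp [sg], fun l hl => ?_⟩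
      simpa [sg] using h.sym _ _ _ (r (i.2.1⁻¹ l) (by rintro rfl; simp at hl))
  · rintro i a b b' (r | ⟨k, c, d, hc, hd, rfl, rfl, r⟩) (r' | ⟨k', c', d', hc', hd', e, rfl, r'⟩)
    · exact h.fn _ _ _ _ r r'
    · exact absurd (h.tagR _ _ _ r).1 (by simp [e, u3 hc'])
    · exact absurd (h.tagR _ _ _ r').1 (by simp [u3 hc])
    · obtain ⟨rfl, e⟩ := Prod.mk.inj e
      obtain rfl := u2 hc hc' e
      rw [u1 hd hd' fun l hl => ?_]
      have hl' : i.2.1⁻¹ l ≠ k := by rintro rfl; simp at hl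
      simpa using h.fn _ _ _ _ (r _ hl') (r' _ hl')
  · rintro i a b (r | ⟨k, c, d, hc, hd, rfl, rfl, r⟩)
    exacts [h.srt _ _ _ r, rfl]
  · rintro i a b (r | ⟨k, c, d, hc, hd, rfl, rfl, r⟩)
    · have := h.tagR _ _ _ r
      omega
    · obtain ⟨l, -, hl, -⟩ := ex k
      have := (h.tagR _ _ _ (r l hl)).2
      exact ⟨by simp [u3 hc], by omega⟩
  · intro i c hc k l a b hkl ra rb
    have k1 : ∀ {p a}, (c p).1 < n → (s.R i (p, c p) a ∨ ∃ k c' d, U k c' ∧ U (i.2.1 k) d ∧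
        (p, c p) = (k, c' k) ∧ a = (i.2.1 k, d (i.2.1 k)) ∧
          ∀ l, l ≠ k → s.R i (l, c' l) (i.2.1 l, d (i.2.1 l))) → s.R i (p, c p) a := by
      rintro p a hp (r | ⟨k, c', d, hc', -, e, -⟩)
      · exact r
      · obtain ⟨rfl, e⟩ := Prod.mk.inj e
        rw [e, u3 hc'] at hp
        omega
    rcases hc with hc | ⟨m, hc⟩
    · obtain ⟨d, hd, r⟩ := h.clo i c hc k l a b hkl (k1 (h.tagP c hc k) ra) (k1 (h.tagP c hc l) rb)
      exact ⟨d, .inl hd, fun j => .inl (r j)⟩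
    have k2 : ∃ d, U (i.2.1 m) d ∧ ∀ l, l ≠ m → s.R i (l, c l) (i.2.1 l, d (i.2.1 l)) := by
      have k3 : ∀ {a}, (s.R i (m, c m) a ∨ ∃ k c' d, U k c' ∧ U (i.2.1 k) d ∧
          (m, c m) = (k, c' k) ∧ a = (i.2.1 k, d (i.2.1 k)) ∧
            ∀ l, l ≠ k → s.R i (l, c' l) (i.2.1 l, d (i.2.1 l))) →
          ∃ d, U (i.2.1 m) d ∧ ∀ l, l ≠ m → s.R i (l, c l) (i.2.1 l, d (i.2.1 l)) := by
        rintro a (r | ⟨k, c', d, hc', hd, e, -, r⟩)
        · exact absurd (h.tagR _ _ _ r).1 (by simp [u3 hc])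
        · obtain ⟨rfl, e⟩ := Prod.mk.inj e
          obtain rfl := u2 hc hc' e
          exact ⟨d, hd, r⟩
      by_cases hk : m = k
      · exact k3 (hk ▸ ra)
      by_cases hl : m = l
      · exact k3 (hl ▸ rb)
      have k4 : ∀ p, ∃ x : X, i.2.1⁻¹ p ≠ m → s.R i (i.2.1⁻¹ p, c (i.2.1⁻¹ p)) (p, x) := by
        intro p
        by_cases hp : i.2.1⁻¹ p = m
        · exact ⟨0, fun e => (e hp).elim⟩
        obtain ⟨b, r⟩ : ∃ b, s.R i (i.2.1⁻¹ p, c (i.2.1⁻¹ p)) b := by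
          rcases third k l m _ hkl hk hl hp with e | e <;> rw [e]
          exacts [⟨a, k1 (hc.1 k (Ne.symm hk)) ra⟩, ⟨b, k1 (hc.1 l (Ne.symm hl)) rb⟩]
        refine ⟨b.2, fun _ => ?_⟩
        have : b = (p, b.2) := Prod.ext (by simpa using h.srt _ _ _ r) rfl
        rwa [← this]
      choose d0 hd0 using k4
      have k5 : ∀ l, l ≠ m → s.R i (l, c l) (i.2.1 l, d0 (i.2.1 l)) := fun l hl => by
        simpa using hd0 (i.2.1 l) (by simpa using hl)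
      obtain ⟨d, hd, e⟩ := u4 (i.2.1 m) d0 (fun l hl => (h.tagR _ _ _ (h.sym _ _ _
        (hd0 l (by rintro rfl; simp at hl)))).1) fun e he ee => by
          have k6 : ∀ l, l ≠ m → s.R (sg i) (i.2.1 l, e (i.2.1 l)) (l, c l) := fun l hl => by
            rw [ee _ (by simpa using hl)]
            exact h.sym _ _ _ (k5 l hl)
          obtain ⟨e', he', r⟩ := h.clo (sg i) e he _ _ _ _ (by simpa using hkl)
            (k6 k (Ne.symm hk)) (k6 l (Ne.symm hl))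
          refine hc.2.1 e' he' fun p hp => ?_
          simpa [sg] using h.fn _ _ _ _ (r _) (k6 p hp)
      exact ⟨d, hd, fun l hl => by rw [e _ (by simpa using hl)]; exact k5 l hl⟩
    obtain ⟨d, hd, r⟩ := k2
    refine ⟨d, .inr ⟨_, hd⟩, fun j => ?_⟩
    by_cases hj : j = m
    · exact .inr ⟨m, c, d, hc, hd, by rw [hj], by rw [hj], r⟩
    · exact .inl (r j hj)
  · by_cases e : ∃ d ∈ s.P, ∀ l, l ≠ k → d l = c l
    · obtain ⟨d, hd, e⟩ := e
      exact ⟨d, .inl hd, e⟩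
    · obtain ⟨d, hd, e⟩ := u4 k c hc fun d hd e' => e ⟨d, hd, e'⟩
      exact ⟨d, .inr ⟨k, hd⟩, e⟩

end Pool.Agent.H33.Qg
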