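import Pool.Agent.H33.Qg1

namespace Pool.Agent.H33.Qg

open Equiv

lemma cop {n : ℕ} {s : St} (h : Good n s) : ∃ t, Good (n + 1) t ∧ Le s t ∧
    ∃ f : I → E → E, (∀ i a, i.1 < n → a.2.1 < n → t.R i a (f i a)) ∧
      (∀ i a, s.R i a (f i a) ∨ ((¬∃ b, s.R i a b) ∧ (f i a).2.1 = n)) ∧
      (∀ c ∈ t.P, ∀ i a k l, (k, c k) = f i a → (c k).1 = n → (c l).1 < n →
        ∃ b, s.R i b (l, c l)) := by
  classical
  obtain ⟨en, hen⟩ := exists_injective_nat (I × E)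
  let f : I → E → E := fun i a =>
    if e : ∃ b, s.R i a b then e.choose else (i.2.1 a.1, (n, en (i, a)))
  have f3 : ∀ i a, s.R i a (f i a) ∨
      ((¬∃ b, s.R i a b) ∧ f i a = (i.2.1 a.1, (n, en (i, a)))) := fun i a => by
    by_cases e : ∃ b, s.R i a b
    · exact .inl (by rw [show f i a = e.choose from dif_pos e]; exact e.choose_spec)
    · exact .inr ⟨e, dif_neg e⟩
  have f1 : ∀ {i a b}, s.R i a b → f i a = b := fun {i a b} r =>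
    (f3 i a).elim (fun r' => h.fn _ _ _ _ r' r) fun e => (e.1 ⟨b, r⟩).elim
  have f2 : ∀ i a, (f i a).1 = i.2.1 a.1 := fun i a =>
    (f3 i a).elim (h.srt _ _ _) fun e => by rw [e.2]
  have tb : ∀ {i a b}, s.R i a b → b.2.1 < n := fun r => (h.tagR _ _ _ (h.sym _ _ _ r)).1
  have f4 : ∀ {i a}, (f i a).2.1 < n → s.R i a (f i a) := fun {i a} e =>
    (f3 i a).elim id fun e' => absurd e (by simp [e'.2])
  have f5 : ∀ {i j a b}, f i a = f j b → ¬(f i a).2.1 < n → i = j ∧ a = b := by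
    intro i j a b e e'
    rcases f3 i a with r | ⟨-, r⟩
    · exact (e' (tb r)).elim
    rcases f3 j b with r' | ⟨-, r'⟩
    · exact (e' (e ▸ tb r')).elim
    rw [r, r'] at e
    exact Prod.mk.inj (hen (Prod.mk.inj (Prod.mk.inj e).2).2)
  have f6 : ∀ {i a b}, f i a = f i b → a = b := by
    intro i a b e
    by_cases e' : (f i a).2.1 < n
    · exact h.fn _ _ _ _ (h.sym _ _ _ (f4 e')) (e ▸ h.sym _ _ _ (f4 (e ▸ e')))
    · exact (f5 e e').2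
  let fc : I → Cell → Cell := fun i c m => (f i (i.2.1⁻¹ m, c (i.2.1⁻¹ m))).2
  have c1 : ∀ i c m, (m, fc i c m) = f i (i.2.1⁻¹ m, c (i.2.1⁻¹ m)) := fun i c m =>
    Prod.ext (by simp [f2]) rfl
  have c2 : ∀ i c m, (i.2.1 m, fc i c (i.2.1 m)) = f i (m, c m) := fun i c m => by
    simpa using c1 i c (i.2.1 m)
  let P' := s.P ∪ {d | ∃ i : I, i.1 < n ∧ ∃ c ∈ s.P, d = fc i c}
  have A : ∀ d ∈ P', ∀ k l, k ≠ l → (d k).1 < n → (d l).1 < n → d ∈ s.P := by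
    rintro d (hd | ⟨i, hi, c, hc, rfl⟩) k l hkl e e'
    · exact hd
    obtain ⟨d, hd, r⟩ := h.clo i c hc (i.2.1⁻¹ k) (i.2.1⁻¹ l) _ _ (by simpa using hkl)
      (f4 e) (f4 e')
    convert hd using 1
    ext1 m
    simpa [fc] using congrArg Prod.snd (f1 (r (i.2.1⁻¹ m)))
  have B : ∀ d ∈ P', ∀ i a k, (k, d k) = f i a → ¬(d k).1 < n →
      i.1 < n ∧ ∃ c ∈ s.P, d = fc i c := by
    rintro d (hd | ⟨j, hj, c, hc, rfl⟩) i a k e e'
    · exact (e' (h.tagP d hd k)).elim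
    · obtain ⟨rfl, -⟩ := f5 ((c1 j c k).symm.trans e) e'
      exact ⟨hj, c, hc, rfl⟩
  have tf : ∀ i a, (f i a).2.1 < n + 1 := fun i a =>
    (f3 i a).elim (fun r => (tb r).trans n.lt_succ_self) fun e => by simp [e.2]
  have N : ∀ {i a b}, b.2.1 < n → a = f (sg i) b → a.2.1 < n → b = f i a := by
    rintro i a b hb rfl e
    exact (f1 (by simpa [sg_sg] using h.sym _ _ _ (f4 e))).symm
  refine ⟨⟨P', fun i a b => i.1 < n ∧ ((a.2.1 < n ∧ b = f i a) ∨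
    (b.2.1 < n ∧ a = f (sg i) b))⟩, ⟨?_, ?_, ?_, ?_, ?_, ?_, ?_⟩,
    ⟨Set.subset_union_left, fun i a b r => ⟨(h.tagR _ _ _ r).2, .inl ⟨(h.tagR _ _ _ r).1,
      (f1 r).symm⟩⟩⟩, f, fun i a hi ha => ⟨hi, .inl ⟨ha, rfl⟩⟩,
      fun i a => (f3 i a).imp id fun e => ⟨e.1, by rw [e.2]⟩, fun c hc i a k l e e1 e2 => ?_⟩
  · rintro d (hd | ⟨i, hi, c, hc, rfl⟩) k
    exacts [(h.tagP d hd k).trans n.lt_succ_self, tf _ _]
  · have k1 : ∀ c ∈ P', ∀ d ∈ P', ∀ k l, k ≠ l → c k = d k → c l = d l → ¬(c k).1 < n →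
        c = d := by
      rintro c (hc | ⟨i, hi, c, hc, rfl⟩) d hd k l hkl e e' hn
      · exact (hn (h.tagP c hc k)).elim
      obtain ⟨-, d, hd', rfl⟩ := B d hd i _ k (e ▸ c1 i c k) (e ▸ hn)
      rw [h.lat c hc d hd' (i.2.1⁻¹ k) (i.2.1⁻¹ l) (by simpa using hkl)
        (Prod.mk.inj (f6 (by rw [← c1, ← c1, e]))).2 (Prod.mk.inj (f6 (by rw [← c1, ← c1, e']))).2]
    intro c hc d hd k l hkl e e'
    by_cases hk : (c k).1 < n
    · by_cases hl : (c l).1 < n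
      · exact h.lat c (A c hc k l hkl hk hl) d (A d hd k l hkl (e ▸ hk) (e' ▸ hl)) k l hkl e e'
      · exact k1 c hc d hd l k hkl.symm e' e hl
    · exact k1 c hc d hd k l hkl e e' hk
  · rintro i a b ⟨hi, r⟩
    exact ⟨hi, by rw [sg_sg]; exact r.symm⟩
  · rintro i a b b' ⟨-, ⟨ha, r⟩ | ⟨hb, r⟩⟩ ⟨-, ⟨ha', r'⟩ | ⟨hb', r'⟩⟩
    exacts [r.trans r'.symm, r.trans (N hb' r' ha).symm, (N hb r ha').trans r'.symm,
      f6 (r.symm.trans r')]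
  · rintro i a b ⟨-, ⟨-, rfl⟩ | ⟨-, rfl⟩⟩
    · exact f2 _ _
    · simp [f2, sg]
  · rintro i a b ⟨hi, ⟨ha, -⟩ | ⟨-, rfl⟩⟩
    exacts [⟨ha.trans n.lt_succ_self, hi.trans n.lt_succ_self⟩, ⟨tf _ _, hi.trans n.lt_succ_self⟩]
  · intro i c hc
    have k1 : ∀ k b, ¬(c k).1 < n → (i.1 < n ∧ (((c k).1 < n ∧ b = f i (k, c k)) ∨
        (b.2.1 < n ∧ (k, c k) = f (sg i) b))) → ∃ d ∈ P', Mp (fun a b => i.1 < n ∧
          ((a.2.1 < n ∧ b = f i a) ∨ (b.2.1 < n ∧ a = f (sg i) b))) i.2.1 c d := by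
      rintro k b hn ⟨hi, r | r⟩
      · exact (hn r.1).elim
      obtain ⟨-, d, hd, rfl⟩ := B c hc _ _ k r.2 hn
      exact ⟨d, .inl hd, fun m => ⟨hi, .inr ⟨h.tagP d hd _, by simpa [sg] using c1 (sg i) d m⟩⟩⟩
    intro k l a b hkl ra rb
    by_cases hk : (c k).1 < n
    · by_cases hl : (c l).1 < n
      · have := A c hc k l hkl hk hl
        exact ⟨fc i c, .inr ⟨i, ra.1, c, this, rfl⟩, fun m =>
          ⟨ra.1, .inl ⟨h.tagP c this m, c2 i c m⟩⟩⟩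
      · exact k1 l b hl rb
    · exact k1 k a hk ra
  · obtain ⟨-, d, hd, rfl⟩ := B c hc i a k e (by omega)
    exact ⟨_, by rw [c1]; exact f4 e2⟩

lemma Le.trans' {s t u : St} (a : Le s t) (b : Le t u) : Le s u :=
  ⟨a.1.trans b.1, fun i x y r => b.2 i x y (a.2 i x y r)⟩

def Pr (n : ℕ) (s t : St) : Prop :=
  (∀ (k : Fin 3) (c : Cell), (∀ l, (c l).1 < n) → ∃ d ∈ t.P, ∀ l, l ≠ k → d l = c l) ∧
  (∀ (i : I) (a : E), i.1 < n → a.2.1 < n → ∃ b, t.R i a b) ∧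
  (∀ x ∈ s.P, ∀ u ∈ s.P, ∃ i, Mp (t.R i) i.2.1 x u) ∧
  (∀ x ∈ s.P, ∀ y ∈ s.P, x ≠ y → ∃ i, ∃ z ∈ t.P, Mp (t.R i) i.2.1 x x ∧ Mp (t.R i) i.2.1 y z ∧
    ∀ k, y k ≠ z k) ∧
  ∀ x ∈ s.P, ∀ y ∈ s.P, ∀ u ∈ s.P, (∀ k, y k ≠ x k) → (∀ k, u k ≠ x k) → ∃ i j, ∃ z ∈ t.P,
    Mp (t.R i) i.2.1 x x ∧ Mp (t.R i) i.2.1 y z ∧ Mp (t.R j) j.2.1 y u ∧ Mp (t.R j) j.2.1 z z

lemma step {n : ℕ} {s : St} (h : Good n s) : ∃ t, Good (n + 4) t ∧ Le s t ∧ Pr n s t := by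
  obtain ⟨s1, g1, l1, e1, a1⟩ := act h
  obtain ⟨s2, g2, l2, f, b1, b2, b3⟩ := cop g1
  obtain ⟨s3, g3, l3, e3, a3⟩ := act g2
  obtain ⟨t, g4, l4, a4⟩ := com g3
  have l24 := l3.trans' l4
  have l12 := l1.trans' l2
  have S : ∀ p, ∀ x ∈ s.P, ∀ u ∈ s.P, ∀ a b, s1.R (n, p, x, x, u, u) a b ↔
      ∃ k, a = (k, x k) ∧ b = (p k, u (p k)) := fun p x hx u hu a b =>
    (a1 _ rfl (V_of h _ _ hx hx hu hu (fun _ _ => rfl) fun c hc => h.lat c hc x hx)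
      (V_of h _ _ hu hu hx hx (fun _ _ => rfl) fun c hc => h.lat c hc u hu) a b).trans or_self_iff
  have T : ∀ p, ∀ x ∈ s.P, ∀ y ∈ s.P, ∃ z ∈ s2.P, Mp (s2.R (n, p, x, x, x, x)) p y z ∧
      ∀ k, (p k, z (p k)) = f (n, p, x, x, x, x) (k, y k) ∧
        (y k = x k ∧ z (p k) = x (p k) ∨ (z (p k)).1 = n + 1) := by
    intro p x hx y hy
    have r := fun k => b1 (n, p, x, x, x, x) (k, y k) n.lt_succ_self
      ((h.tagP y hy k).trans n.lt_succ_self)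
    obtain ⟨z, hz, m⟩ := g2.clo _ y (l12.1 hy) 0 1 _ _ (by decide) (r 0) (r 1)
    refine ⟨z, hz, m, fun k => ?_⟩
    have e := g2.fn _ _ _ _ (m k) (r k)
    refine ⟨e, (b2 (n, p, x, x, x, x) (k, y k)).imp (fun r => ?_) fun r => by rw [← r.2, ← e]⟩
    obtain ⟨l, e1, e2⟩ := (S p x hx x hx _ _).1 r
    obtain ⟨rfl, e1⟩ := Prod.mk.inj e1
    exact ⟨e1, (Prod.mk.inj (e.trans e2)).2⟩
  have M : ∀ p, ∀ x ∈ s.P, ∀ u ∈ s.P, Mp (t.R (n, p, x, x, u, u)) p x u := fun p x hx u hu m =>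
    (l2.trans' l24).2 _ _ _ ((S p x hx u hu _ _).2 ⟨m, rfl, rfl⟩)
  refine ⟨t, g4, l12.trans' l24, fun k c hc => a4 k c fun l _ => (hc l).trans (by omega),
    fun i a hi ha => ⟨_, l24.2 _ _ _ (b1 i a (by omega) (by omega))⟩,
    fun x hx u hu => ⟨(n, 1, x, x, u, u), M 1 x hx u hu⟩, fun x hx y hy hxy => ?_,
    fun x hx y hy u hu hyx hux => ?_⟩
  · obtain ⟨z, hz, m, e⟩ := T (finRotate 3) x hx y hy
    refine ⟨(n, finRotate 3, x, x, x, x), z, l24.1 hz, M _ x hx x hx,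
      fun k => l24.2 _ _ _ (m k), fun k ek => ?_⟩
    obtain ⟨k, rfl⟩ := (finRotate 3).surjective k
    rcases (e k).2 with ⟨e1, e2⟩ | e1
    · exact hxy (h.lat y hy x hx k (finRotate 3 k)
        ((by decide : ∀ k : Fin 3, k ≠ finRotate 3 k) k) e1 (ek.trans e2)).symm
    · have := h.tagP y hy (finRotate 3 k)
      rw [ek] at this
      omega
  · obtain ⟨z, hz, m, e⟩ := T 1 x hx y hy
    have z1 : ∀ k, (z k).1 = n + 1 := fun k => ((e k).2.resolve_left fun e => hyx k e.1)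
    have K : ∀ w ∈ s.P, (∀ k, w k ≠ x k) → (∀ k, w k ≠ z k) ∧
        ∀ c ∈ s2.P, ∀ k l, k ≠ l → c k = w k → c l = z l → c = w := by
      intro w hw hwx
      refine ⟨fun k ek => ?_, fun c hc k l _ ek el => ?_⟩
      · have := h.tagP w hw k
        rw [ek, z1] at this
        omega
      obtain ⟨b, r⟩ := b3 c hc _ _ l k (el ▸ (e l).1) (el ▸ z1 l)
        (ek ▸ (h.tagP w hw k).trans n.lt_succ_self)
      obtain ⟨j, -, e2⟩ := (S 1 x hx x hx _ _).1 r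
      obtain ⟨rfl, e2⟩ := Prod.mk.inj e2
      exact (hwx _ (ek.symm.trans e2)).elim
    have W := a3 (n + 2, 1, y, z, u, z) rfl
      (V_of g2 _ _ (l12.1 hy) hz (l12.1 hu) hz (fun k ek => ((K y hy hyx).1 k ek).elim)
        (K y hy hyx).2)
      (V_of g2 _ _ (l12.1 hu) hz (l12.1 hy) hz (fun k ek => ((K u hu hux).1 k ek).elim)
        (K u hu hux).2)
    exact ⟨(n, 1, x, x, x, x), (n + 2, 1, y, z, u, z), z, l24.1 hz, M _ x hx x hx,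
      fun k => l24.2 _ _ _ (m k), fun k => l4.2 _ _ _ ((W _ _).2 (.inl ⟨k, rfl, rfl⟩)),
      fun k => l4.2 _ _ _ ((W _ _).2 (.inr ⟨k, rfl, rfl⟩))⟩

end Pool.Agent.H33.Qg
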