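import Mathlib

namespace Pool.Agent.H33.Qg

/-- Each equation `a x = b`, `y a = b` has exactly one solution. -/
def IsQuasigroup {T : Type} (op : T → T → T) : Prop :=
  (∀ a, Function.Bijective fun x => op a x) ∧ ∀ a, Function.Bijective fun y => op y a

def Isotopic {T S : Type} (op : T → T → T) (mul : S → S → S) : Prop :=
  ∃ α β γ : T ≃ S, ∀ x y, γ (op x y) = mul (α x) (β y)

def IsMoufangLoop {S : Type} (mul : S → S → S) : Prop :=
  IsQuasigroup mul ∧ (∃ e, ∀ x, mul e x = x ∧ mul x e = x) ∧
    ∀ x y z, mul x (mul y (mul x z)) = mul (mul (mul x y) x) z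

/-- The Latin square `L(T)`: triples `(x, y, x y)`. -/
def Cells {T : Type} (op : T → T → T) : Set (Fin 3 → T) := {c | op (c 0) (c 1) = c 2}

/-- Apply a bijection to each coordinate, permute the coordinates, and map `L(T)` onto itself. -/
def IsAutoparatopism {T : Type} (op : T → T → T) (f : (Fin 3 → T) → Fin 3 → T) : Prop :=
  (∃ (p : Equiv.Perm (Fin 3)) (α : Fin 3 → Equiv.Perm T), ∀ c k, f c (p k) = α k (c k)) ∧
    f '' Cells op = Cells op

/-- Transitive on cells, and every invariant partition of the cells is trivial. -/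
def IsPrimitive {T : Type} (op : T → T → T) : Prop :=
  (∀ x ∈ Cells op, ∀ y ∈ Cells op, ∃ f, IsAutoparatopism op f ∧ f x = y) ∧
    ∀ r : Setoid (Cells op), (∀ f, IsAutoparatopism op f → ∀ x y x' y' : Cells op,
      f x = x' → f y = y' → r x y → r x' y') → r = ⊥ ∨ r = ⊤

end Pool.Agent.H33.Qg
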