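import Pool.Agent.H33.Qg2
import Pool.Agent.H33.QgDefs

namespace Pool.Agent.H33.Qg

open Equiv

def c0 : Fin 8 → Fin 3 → ℕ := ![![0, 0, 0], ![1, 1, 0], ![0, 1, 1], ![1, 0, 1], ![0, 2, 2],
  ![1, 3, 2], ![0, 3, 3], ![1, 2, 4]]

def s0 : St := ⟨Set.range fun j k => (0, c0 j k), fun _ _ _ => False⟩

lemma g0 : Good 1 s0 := by
  refine ⟨?_, ?_, fun _ _ _ => id, fun _ _ _ _ => False.elim, fun _ _ _ => False.elim,
    fun _ _ _ => False.elim, fun _ _ _ _ _ _ _ _ => False.elim⟩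
  · rintro _ ⟨j, rfl⟩ k
    exact one_pos
  · rintro _ ⟨i, rfl⟩ _ ⟨j, rfl⟩ k l hkl e e'
    rw [(by decide : ∀ i j k l, k ≠ l → c0 i k = c0 j k → c0 i l = c0 j l → i = j) i j k l hkl
      (Prod.mk.inj e).2 (Prod.mk.inj e').2]

lemma lim : ∃ s : St, s0.P ⊆ s.P ∧
    (∀ c ∈ s.P, ∀ d ∈ s.P, ∀ k l, k ≠ l → c k = d k → c l = d l → c = d) ∧
    (∀ i a b, s.R i a b → s.R (sg i) b a) ∧ (∀ i a b b', s.R i a b → s.R i a b' → b = b') ∧
    (∀ i a b, s.R i a b → b.1 = i.2.1 a.1) ∧ (∀ i, Clo s.P (s.R i) i.2.1) ∧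
    ∀ n, Pr n s s := by
  choose nx h1 h2 h3 using @step
  let q : ∀ m : ℕ, {s // Good (1 + 4 * m) s} := fun m =>
    Nat.rec ⟨s0, g0⟩ (fun m s => ⟨nx s.2, h1 s.2⟩) m
  have mo : ∀ {m m'}, m ≤ m' → Le (q m).1 (q m').1 := by
    intro m m' e
    induction e with
    | refl => exact ⟨subset_rfl, fun _ _ _ => id⟩
    | step _ ih => exact ih.trans' (h2 _)
  have pr : ∀ m, Pr (1 + 4 * m) (q m).1 (q (m + 1)).1 := fun m => h3 _
  have l := fun m m' => mo (le_max_left m m')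
  have r := fun m m' => mo (le_max_right m m')
  have U : ∀ {m c}, c ∈ (q m).1.P → c ∈ ⋃ m, (q m).1.P := fun hc => Set.mem_iUnion.2 ⟨_, hc⟩
  refine ⟨⟨⋃ m, (q m).1.P, fun i a b => ∃ m, (q m).1.R i a b⟩, fun c hc => U (m := 0) hc,
    ?_, fun i a b ⟨m, e⟩ => ⟨m, (q m).2.sym _ _ _ e⟩, fun i a b b' ⟨m, e⟩ ⟨m', e'⟩ =>
      (q _).2.fn _ _ _ _ ((l m m').2 _ _ _ e) ((r m m').2 _ _ _ e'),
    fun i a b ⟨m, e⟩ => (q m).2.srt _ _ _ e, ?_, fun n => ⟨fun k c hc => ?_, fun i a hi ha => ?_,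
      ?_, ?_, ?_⟩⟩
  · simp only [Set.mem_iUnion]
    rintro c ⟨m, hc⟩ d ⟨m', hd⟩
    exact (q _).2.lat c ((l m m').1 hc) d ((r m m').1 hd)
  · intro i c hc k j a b hk ⟨m, e⟩ ⟨m', e'⟩
    obtain ⟨t, hc⟩ := Set.mem_iUnion.1 hc
    obtain ⟨d, hd, w⟩ := (q _).2.clo i c ((l t (max m m')).1 hc) k j a b hk
      (((l m m').trans' (r t _)).2 _ _ _ e) (((r m m').trans' (r t _)).2 _ _ _ e')
    exact ⟨d, U hd, fun j => ⟨_, w j⟩⟩
  · obtain ⟨d, hd, e⟩ := (pr n).1 k c fun l => (hc l).trans_le (by omega)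
    exact ⟨d, U hd, e⟩
  · obtain ⟨b, e⟩ := (pr n).2.1 i a (by omega) (by omega)
    exact ⟨b, _, e⟩
  · simp only [Set.mem_iUnion]
    rintro x ⟨m, hx⟩ u ⟨m', hu⟩
    obtain ⟨i, w⟩ := (pr _).2.2.1 x ((l m m').1 hx) u ((r m m').1 hu)
    exact ⟨i, fun j => ⟨_, w j⟩⟩
  · simp only [Set.mem_iUnion]
    rintro x ⟨m, hx⟩ u ⟨m', hu⟩ e
    obtain ⟨i, z, hz, w, w', e⟩ := (pr _).2.2.2.1 x ((l m m').1 hx) u ((r m m').1 hu) e
    exact ⟨i, z, ⟨_, hz⟩, fun j => ⟨_, w j⟩, fun j => ⟨_, w' j⟩, e⟩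
  · simp only [Set.mem_iUnion]
    rintro x ⟨t, hx⟩ y ⟨m, hy⟩ u ⟨m', hu⟩ e e'
    obtain ⟨i, j, z, hz, w1, w2, w3, w4⟩ := (pr _).2.2.2.2 x ((l t (max m m')).1 hx) y
      (((l m m').trans' (r t _)).1 hy) u (((r m m').trans' (r t _)).1 hu) e e'
    exact ⟨i, j, z, ⟨_, hz⟩, fun k => ⟨_, w1 k⟩, fun k => ⟨_, w2 k⟩, fun k => ⟨_, w3 k⟩,
      fun k => ⟨_, w4 k⟩⟩

lemma mou {M : Type} {mul : M → M → M} (h : IsMoufangLoop mul) {a a' b1 b2 b3 b4 : M}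
    (e1 : mul a b1 = mul a' b2) (e2 : mul a b2 = mul a' b1) (e3 : mul a b3 = mul a' b4) :
    mul a b4 = mul a' b3 := by
  obtain ⟨⟨q1, q2⟩, ⟨e, he⟩, m⟩ := h
  obtain ⟨i, hi⟩ := (q1 a).2 e
  have k : ∀ z, mul i (mul a z) = z := fun z => (q1 a).1 (by simp only [m, hi, (he a).1])
  have : mul (mul a' i) a' = a := (q2 b2).1 (by simp only [← m, ← e1, k, e2])
  rw [← this, ← m, ← e3, k]

theorem main : ∃ op : X → X → X, IsQuasigroup op ∧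
    (∀ (M : Type) (mul : M → M → M), IsMoufangLoop mul → ¬Isotopic op mul) ∧ IsPrimitive op := by
  obtain ⟨s, h0, lat, sym, fn, srt, clo, pr⟩ := lim
  have cp : ∀ (k : Fin 3) (c : Cell), ∃ d ∈ s.P, ∀ l, l ≠ k → d l = c l := fun k c =>
    (pr (∑ l, (c l).1 + 1)).1 k c fun l => Nat.lt_succ_of_le
      (Finset.single_le_sum (f := fun l => (c l).1) (by simp) (Finset.mem_univ l))
  choose D hD hD' using cp
  choose g hg using fun (i : I) (a : E) => (pr (i.1 + a.2.1 + 1)).2.1 i a (by omega) (by omega)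
  let op : X → X → X := fun a b => D 2 ![a, b, 0] 2
  have hP : ∀ c : Cell, op (c 0) (c 1) = c 2 ↔ c ∈ s.P := fun c => ⟨fun e => by
    convert hD 2 ![c 0, c 1, 0] using 1
    ext1 k
    fin_cases k
    exacts [(hD' 2 ![c 0, c 1, 0] 0 (by decide)).symm, (hD' 2 ![c 0, c 1, 0] 1 (by decide)).symm,
      e.symm],
    fun hc => congrFun (lat _ (hD 2 ![c 0, c 1, 0]) c hc 0 1 (by decide) (hD' 2 _ 0 (by decide))
      (hD' 2 _ 1 (by decide))) 2⟩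
  have hC : Cells op = s.P := Set.ext hP
  have hc : ∀ a b, ![a, b, op a b] ∈ s.P := fun a b => (hP _).1 rfl
  have g1 : ∀ i k x, s.R i (k, x) (i.2.1 k, (g i (k, x)).2) := fun i k x => by
    rw [← srt _ _ _ (hg i (k, x))]
    exact hg i (k, x)
  let α : ∀ i : I, Fin 3 → Perm X := fun i k => ⟨fun x => (g i (k, x)).2,
    fun y => (g (sg i) (i.2.1 k, y)).2,
    fun x => congrArg Prod.snd (fn _ _ _ _ (hg _ _) (sym _ _ _ (g1 i k x))),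
    fun y => congrArg Prod.snd (fn _ _ _ _ (hg _ _)
      (by simpa [sg] using sym _ _ _ (g1 (sg i) (i.2.1 k) y)))⟩
  let f : I → Cell → Cell := fun i c m => α i (i.2.1⁻¹ m) (c (i.2.1⁻¹ m))
  have f1 : ∀ {i c d}, Mp (s.R i) i.2.1 c d → f i c = d := fun {i c d} w => funext fun m => by
    simpa [f, α] using congrArg Prod.snd (fn _ _ _ _ (hg _ _) (w (i.2.1⁻¹ m)))
  have f2 : ∀ i, IsAutoparatopism op (f i) := fun i => by
    refine ⟨⟨i.2.1, α i, fun c k => by simp [f]⟩, ?_⟩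
    rw [hC]
    refine subset_antisymm ?_ fun d hd => ?_
    · rintro _ ⟨c, hc, rfl⟩
      obtain ⟨d, hd, w⟩ := clo i c hc 0 1 _ _ (by decide) (hg _ _) (hg _ _)
      rwa [f1 w]
    · obtain ⟨c, hc, w⟩ := clo (sg i) d hd 0 1 _ _ (by decide) (hg _ _) (hg _ _)
      exact ⟨c, hc, f1 fun m => by simpa [sg] using sym _ _ _ (w (i.2.1 m))⟩
  refine ⟨op, ⟨fun a => ⟨fun x y e => congrFun (lat _ (hc a x) _ (hc a y) 0 2 (by decide) rfl e) 1,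
    fun b => ⟨D 1 ![a, 0, b] 1, ?_⟩⟩, fun a => ⟨fun x y e =>
      congrFun (lat _ (hc x a) _ (hc y a) 1 2 (by decide) rfl e) 0, fun b =>
        ⟨D 0 ![0, a, b] 0, ?_⟩⟩⟩, ?_, fun x hx y hy => ?_, fun r hr => ?_⟩
  · have := (hP _).2 (hD 1 ![a, 0, b])
    rwa [hD' 1 _ 0 (by decide), hD' 1 _ 2 (by decide)] at this
  · have := (hP _).2 (hD 0 ![0, a, b])
    rwa [hD' 0 _ 1 (by decide), hD' 0 _ 2 (by decide)] at this
  · rintro M mul hM ⟨a, b, c, e⟩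
    have k : ∀ j, mul (a (0, c0 j 0)) (b (0, c0 j 1)) = c (0, c0 j 2) := fun j => by
      rw [← e, (hP _).2 (h0 ⟨j, rfl⟩)]
    have := mou hM ((k 0).trans (k 1).symm) ((k 2).trans (k 3).symm) ((k 4).trans (k 5).symm)
    exact absurd (c.injective ((k 6).symm.trans (this.trans (k 7)))) (by decide)
  · obtain ⟨i, w⟩ := (pr 0).2.2.1 x (hC ▸ hx) y (hC ▸ hy)
    exact ⟨f i, f2 i, f1 w⟩
  · by_cases e : ∀ x y, r x y → x = y
    · exact .inl (le_bot_iff.1 fun x y h => e x y h)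
    push Not at e
    obtain ⟨x, y, rxy, e⟩ := e
    have H : ∀ {i} {x y x' y' : Cells op}, Mp (s.R i) i.2.1 x x' → Mp (s.R i) i.2.1 y y' →
        r x y → r x' y' := fun w w' => hr _ (f2 _) _ _ _ _ (f1 w) (f1 w')
    obtain ⟨i, z, hz, w, w', d⟩ := (pr 0).2.2.2.1 x (hC ▸ x.2) y (hC ▸ y.2) fun h =>
      e (Subtype.ext h)
    have ryz : r y ⟨z, hC ▸ hz⟩ := r.trans (r.symm rxy) (H w w' rxy)
    have K : ∀ a u : Cells op, (∀ k, u.1 k ≠ a.1 k) → r a u := by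
      intro a u hu
      obtain ⟨i, w⟩ := (pr 0).2.2.1 y (hC ▸ y.2) a (hC ▸ a.2)
      have hb : f i z ∈ Cells op := (f2 i).2 ▸ Set.mem_image_of_mem _ (hC ▸ hz)
      have rab : r a ⟨_, hb⟩ := hr _ (f2 i) _ _ _ _ (f1 w) rfl ryz
      obtain ⟨j, j', v, hv, w1, w2, w3, w4⟩ := (pr 0).2.2.2.2 a (hC ▸ a.2) _ (hC ▸ hb) u
        (hC ▸ u.2) (fun k ek => d _ ((α i _).injective (ek.trans (congrFun (f1 w) k).symm)).symm) hu
      have r1 : r a ⟨v, hC ▸ hv⟩ := H (y := ⟨_, hb⟩) w1 w2 rab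
      exact r.trans r1 (r.symm (H (x := ⟨_, hb⟩) (y := ⟨v, hC ▸ hv⟩) w3 w4
        (r.trans (r.symm rab) r1)))
    refine .inr (top_le_iff.1 fun u v _ => ?_)
    obtain ⟨a, a1, a2⟩ : ∃ a, a ≠ u.1 0 ∧ a ≠ v.1 0 := by
      simpa using Infinite.exists_notMem_finset {u.1 0, v.1 0}
    have q : Function.Injective (op a) := fun x y e =>
      congrFun (lat _ (hc a x) _ (hc a y) 0 2 (by decide) rfl e) 1
    obtain ⟨b, hb⟩ := (((Set.toFinite {u.1 1, v.1 1}).union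
      ((Set.toFinite {u.1 2, v.1 2}).preimage q.injOn)).infinite_compl).nonempty
    simp only [Set.mem_compl_iff, Set.mem_union, Set.mem_preimage, Set.mem_insert_iff,
      Set.mem_singleton_iff, not_or] at hb
    refine r.trans (K u ⟨![a, b, op a b], rfl⟩ fun k => ?_) (r.symm (K v _ fun k => ?_)) <;>
      fin_cases k
    exacts [a1, hb.1.1, hb.2.1, a2, hb.1.2, hb.2.2]

end Pool.Agent.H33.Qg
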