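import Mathlib

namespace Pool.Agent.H33.Qm

lemma zero_of (a C : ℝ) (h : ∀ n : ℕ, |n * a| ≤ C) : a = 0 := by
  by_contra h0
  obtain ⟨n, hn⟩ := exists_nat_gt (C / |a|)
  have := h n
  rw [abs_mul, Nat.abs_cast] at this
  rw [div_lt_iff₀ (abs_pos.mpr h0)] at hn
  linarith

variable {G : Type} [Group G] {f : G → ℝ} {D : ℝ} (hD : ∀ g h, |f (g * h) - f g - f h| ≤ D)
  (hf : ∀ (g : G) (n : ℕ), f (g ^ n) = n * f g)
include hf

lemma f1 : f 1 = 0 := by simpa using hf 1 0

include hD

lemma finv (g : G) : f g⁻¹ = -f g := by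
  have := zero_of (f g + f g⁻¹) D fun n => by
    have := hD (g ^ n) (g⁻¹ ^ n)
    rw [hf, hf, inv_pow, mul_inv_cancel, f1 hf, abs_le] at this
    rw [abs_le]
    constructor <;> nlinarith
  linarith

lemma fconj (h g : G) : f (h * g * h⁻¹) = f g := by
  have := zero_of (f (h * g * h⁻¹) - f g) (2 * D) fun n => by
    have h1 := hD (h * g ^ n) h⁻¹
    have h2 := hD h (g ^ n)
    rw [← conj_pow, hf, finv hD hf, abs_le] at h1
    rw [hf, abs_le] at h2
    rw [abs_le]
    constructor <;> nlinarith
  linarith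

lemma fcomm (a b : G) : f (a * b) = f (b * a) := by
  rw [← fconj hD hf b]
  simp [mul_assoc]

def OK (f : G → ℝ) (D : ℝ) (p : List G × ℝ) : Prop :=
  f p.1.prod ≤ p.2 ∨ (-D ≤ p.2 ∧ p.1.prod = 1 ∧ 2 ≤ p.1.length)

lemma rot (A B : List G) (v : ℝ) (h : OK f D (A ++ B, v)) : OK f D (B ++ A, v) := by
  simp only [OK, List.prod_append, List.length_append] at *
  rcases h with h | ⟨a, b, c⟩
  · exact Or.inl (by rwa [fcomm hD hf])
  · exact Or.inr ⟨a, mul_eq_one_comm.mp b, by omega⟩

lemma base (w : List G) (x : G) : f x + (w.map f).sum ≤ f (x * w.prod) + D * w.length := by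
  induction w generalizing x with
  | nil => simp
  | cons a w ih =>
    have := ih (x * a)
    have := (abs_le.mp (hD x a)).1
    simp only [List.map_cons, List.sum_cons, List.prod_cons, List.length_cons, ← mul_assoc]
    push_cast
    linarith

def lt (W : Multiset (List G × ℝ)) : Multiset G := W.bind fun p => p.1

omit hD hf [Group G] in
lemma ex_mem {W : Multiset (List G × ℝ)} {x : G} (h : x ∈ lt W) :
    ∃ A B v W', W = (A ++ x :: B, v) ::ₘ W' := by
  obtain ⟨⟨w, v⟩, h1, h2⟩ := Multiset.mem_bind.mp h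
  obtain ⟨W', rfl⟩ := Multiset.exists_cons_of_mem h1
  obtain ⟨A, B, rfl⟩ := List.append_of_mem (Multiset.mem_coe.mp h2)
  exact ⟨A, B, v, W', rfl⟩

omit hD hf [Group G] in
lemma lt_cons (A B : List G) (x : G) (v : ℝ) (W : Multiset (List G × ℝ)) :
    lt ((A ++ x :: B, v) ::ₘ W) = x ::ₘ (↑(B ++ A) + lt W) := by
  rw [lt, Multiset.cons_bind, ← Multiset.cons_add, Multiset.cons_coe]
  congr 1
  exact Multiset.coe_eq_coe.mpr (List.perm_middle.trans (List.perm_append_comm.cons x))

lemma surg (P U : Multiset G) (W : Multiset (List G × ℝ)) (hW : ∀ p ∈ W, OK f D p)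
    (h : lt W = P + P.map (·⁻¹) + U) :
    (U.map f).sum ≤ D * (P.card + U.card) + (W.map Prod.snd).sum := by
  have D0 : 0 ≤ D := (abs_nonneg _).trans (hD 1 1)
  induction P using Multiset.induction_on generalizing W with
  | empty =>
    simp only [Multiset.map_zero, zero_add] at h
    subst h
    induction W using Multiset.induction_on with
    | empty => simp [lt]
    | cons p W ih =>
      have := ih fun q hq => hW q (Multiset.mem_cons_of_mem hq)
      have h2 : (p.1.map f).sum ≤ D * p.1.length + p.2 := by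
        rcases hW p (Multiset.mem_cons_self _ _) with h | ⟨a, b, c⟩
        · have := base hD hf p.1 1
          rw [f1 hf, one_mul] at this
          linarith
        · obtain ⟨x, w, e⟩ := List.exists_cons_of_length_pos (by omega : 0 < p.1.length)
          have := base hD hf w x
          rw [e] at b ⊢
          rw [← List.prod_cons, b, f1 hf] at this
          simp only [List.map_cons, List.sum_cons, List.length_cons]
          push_cast
          linarith
      simp only [lt, Multiset.cons_bind, Multiset.map_add, Multiset.sum_add, Multiset.card_add,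
        Multiset.map_cons, Multiset.sum_cons, Multiset.map_coe, Multiset.sum_coe,
        Multiset.coe_card] at this ⊢
      push_cast at this ⊢
      linarith
  | cons x P ih =>
    have e : x ::ₘ P + (x ::ₘ P).map (·⁻¹) + U = x ::ₘ x⁻¹ ::ₘ (P + P.map (·⁻¹) + U) := by
      simp only [Multiset.map_cons, Multiset.cons_add, Multiset.add_cons]
      exact Multiset.cons_swap _ _ _
    rw [e] at h
    obtain ⟨A, B, v, W, rfl⟩ := ex_mem (h ▸ Multiset.mem_cons_self _ _ : x ∈ lt W)
    rw [lt_cons, Multiset.cons_inj_right] at h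
    have o1 := rot hD hf _ _ _ (hW _ (Multiset.mem_cons_self _ _))
    have hW' : ∀ p ∈ W, OK f D p := fun q hq => hW q (Multiset.mem_cons_of_mem hq)
    rw [List.cons_append] at o1
    generalize B ++ A = R at h o1
    simp only [Multiset.map_cons, Multiset.sum_cons, Multiset.card_cons]
    push_cast
    rcases Multiset.mem_add.mp (h ▸ Multiset.mem_cons_self _ _ : x⁻¹ ∈ ↑R + lt W) with h1 | h1
    · obtain ⟨S, T, rfl⟩ := List.append_of_mem (Multiset.mem_coe.mp h1)
      have := ih ((S, f S.prod) ::ₘ (T, f T.prod) ::ₘ W) (by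
        simp only [Multiset.mem_cons]
        rintro p (rfl | rfl | hp)
        exacts [Or.inl le_rfl, Or.inl le_rfl, hW' p hp]) (by
        rw [← Multiset.cons_inj_right x⁻¹, ← h, lt, Multiset.cons_bind, Multiset.cons_bind,
          ← add_assoc, Multiset.coe_add, ← Multiset.cons_add, Multiset.cons_coe]
        congr 1
        exact Multiset.coe_eq_coe.mpr List.perm_middle.symm)
      have h2 := (abs_le.mp (hD (x * S.prod * x⁻¹) T.prod)).1
      rw [fconj hD hf] at h2
      simp only [Multiset.map_cons, Multiset.sum_cons] at this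
      simp only [OK, List.prod_cons, List.prod_append, ← mul_assoc] at o1
      rcases o1 with a | ⟨a, b, -⟩
      · linarith
      · rw [eq_inv_of_mul_eq_one_right b, finv hD hf, fconj hD hf] at this
        linarith
    · obtain ⟨S, T, u, W, rfl⟩ := ex_mem h1
      have o2 := rot hD hf _ _ _ (hW' _ (Multiset.mem_cons_self _ _))
      rw [lt_cons, Multiset.add_cons, Multiset.cons_inj_right] at h
      rw [List.cons_append] at o2
      generalize T ++ S = Q at h o2
      have := ih ((R ++ Q, v + u + D) ::ₘ W) (by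
        simp only [Multiset.mem_cons]
        rintro p (rfl | hp)
        · have h2 := (abs_le.mp (hD (R.prod * x) (x⁻¹ * Q.prod))).2
          rw [fcomm hD hf _ x, mul_assoc, mul_inv_cancel_left] at h2
          simp only [OK, List.prod_cons, List.prod_append, List.length_cons,
            List.length_append] at o1 o2 ⊢
          rcases o1 with a | ⟨a, b, c⟩ <;> rcases o2 with a' | ⟨a', b', c'⟩
          · exact Or.inl (by linarith)
          · rw [← inv_mul_eq_one.mp b', fcomm hD hf]
            exact Or.inl (by linarith)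
          · rw [eq_inv_of_mul_eq_one_right b]
            exact Or.inl (by linarith)
          · refine Or.inr ⟨by linarith, ?_, by omega⟩
            rw [eq_inv_of_mul_eq_one_right b, b']
        · exact hW' p (Multiset.mem_cons_of_mem hp)) (by
        rw [← h, lt, Multiset.cons_bind, ← add_assoc, Multiset.coe_add]
        rfl)
      simp only [Multiset.map_cons, Multiset.sum_cons] at this ⊢
      linarith

open Finsupp

noncomputable def nrm {ι : Type} (y : ι →₀ ℝ) : ℝ := ∑' i, |y i|

noncomputable def tm (L : Multiset G) : G →₀ ℝ := (L.map (single · (1 : ℝ))).sum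

noncomputable def dd (p : G × G) : G →₀ ℝ := single p.1 1 + single p.2 1 - single (p.1 * p.2) 1

section
omit hD hf [Group G]

lemma smb (y : G →₀ ℝ) : Summable fun i => |y i| :=
  summable_of_ne_finset_zero (s := y.support) fun i hi => by simpa using hi

lemma nrm_add (x y : G →₀ ℝ) : nrm (x + y) ≤ nrm x + nrm y := by
  rw [nrm, nrm, nrm, ← (smb x).tsum_add (smb y)]
  exact (smb _).tsum_le_tsum (fun i => abs_add_le _ _) ((smb x).add (smb y))

lemma nrm_smul (c : ℝ) (x : G →₀ ℝ) : nrm (c • x) = |c| * nrm x := by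
  simp [nrm, abs_mul, tsum_mul_left]

lemma nrm_single (g : G) : nrm (single g (1 : ℝ)) = 1 := by
  rw [nrm, tsum_eq_single g fun b hb => by simp [hb]]
  simp

lemma tm_add (X Y : Multiset G) : tm (X + Y) = tm X + tm Y := by simp [tm]

lemma tm_f (X : Multiset G) : linearCombination ℝ f (tm X) = (X.map f).sum := by
  simp [tm, map_multiset_sum]

lemma tm_sum (X : Multiset G) : HasSum (tm X) X.card := by
  induction X using Multiset.induction_on with
  | empty =>
    simp only [tm, Multiset.map_zero, Multiset.sum_zero, Multiset.card_zero, Nat.cast_zero]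
    exact hasSum_zero
  | cons a X ih =>
    have := (hasSum_single (f := single a (1 : ℝ)) a fun b hb => by simp [hb]).add ih
    simp only [tm, Multiset.map_cons, Multiset.sum_cons, Multiset.card_cons]
    convert this using 1
    · rfl
    · simp [add_comm]

lemma tm_count [DecidableEq G] (X : Multiset G) (g : G) : tm X g = X.count g := by
  induction X using Multiset.induction_on with
  | empty => simp [tm]
  | cons a X ih =>
    simp only [tm, Multiset.map_cons, Multiset.sum_cons, coe_add, Pi.add_apply] at ih ⊢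
    rw [ih, Multiset.count_cons, single_apply]
    push_cast
    simp [add_comm, eq_comm]

end

lemma intl (A B : Multiset (G × G)) :
    linearCombination ℝ f ((A.map dd).sum - (B.map dd).sum) ≤
      D / 2 * (A.card + B.card) + D / 2 * nrm ((A.map dd).sum - (B.map dd).sum) := by
  classical
  have D0 : 0 ≤ D := (abs_nonneg _).trans (hD 1 1)
  let a := fun A : Multiset (G × G) => A.map Prod.fst + A.map Prod.snd
  let b := fun A : Multiset (G × G) => A.map fun p => p.1 * p.2
  have h1 : ∀ A : Multiset (G × G), (A.map dd).sum = tm (a A) - tm (b A) := fun A => by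
    simp only [a, b, tm, Multiset.map_add, Multiset.sum_add, Multiset.map_map, Function.comp]
    rw [← Multiset.sum_map_add, ← Multiset.sum_map_sub]
    rfl
  set Lp := a A + b B
  set Lm := b A + a B
  have e1 := Multiset.sub_add_inter Lp Lm
  have e2 := Multiset.sub_add_inter Lm Lp
  rw [Multiset.inter_comm] at e2
  have h2 : (A.map dd).sum - (B.map dd).sum = tm (Lp - Lm) - tm (Lm - Lp) := by
    have a1 := congrArg tm e1
    have a2 := congrArg tm e2
    rw [tm_add, tm_add] at a1 a2
    rw [h1, h1, eq_sub_of_add_eq a1, eq_sub_of_add_eq a2]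
    abel
  have h3 : nrm (tm (Lp - Lm) - tm (Lm - Lp)) = (Lp - Lm).card + (Lm - Lp).card := by
    rw [← ((tm_sum _).add (tm_sum _)).tsum_eq]
    refine tsum_congr fun g => ?_
    simp only [coe_sub, Pi.sub_apply, tm_count, Multiset.count_sub]
    rcases le_total (Lp.count g) (Lm.count g) with h | h <;> simp [Nat.sub_eq_zero_of_le h]
  have h4 := surg hD hf (Lp ∩ Lm) (Lp - Lm + (Lm - Lp).map (·⁻¹))
    (A.map (fun p => ([p.1, p.2, (p.1 * p.2)⁻¹], -D)) +
      B.map (fun p => ([p.1 * p.2, p.2⁻¹, p.1⁻¹], -D))) (by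
      simp only [Multiset.mem_add, Multiset.mem_map]
      rintro _ (⟨p, -, rfl⟩ | ⟨p, -, rfl⟩) <;> exact Or.inr ⟨le_rfl, by simp, by simp⟩) (by
      trans Lp + Lm.map (·⁻¹)
      · simp only [lt, Multiset.add_bind, Multiset.bind_map, ← Multiset.cons_coe,
          Multiset.bind_cons, Lp, Lm, a, b, Multiset.map_add, Multiset.map_map, Function.comp,
          Multiset.coe_nil, Multiset.bind_zero]
        abel
      · conv_lhs => rw [← e2, ← congrArg (· + _) e1, Multiset.map_add]
        ac_rfl)
  have c1 := congrArg (fun s => (Multiset.card s : ℝ)) e1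
  have c2 := congrArg (fun s => (Multiset.card s : ℝ)) e2
  have c3 : (Lp.card : ℝ) + Lm.card = 3 * (A.card + B.card) := by
    simp [Lp, Lm, a, b]
    ring
  simp only [Multiset.card_add, Nat.cast_add] at c1 c2
  simp only [Multiset.map_add, Multiset.sum_add, Multiset.map_map, Function.comp, finv hD hf,
    Multiset.sum_map_neg, Multiset.card_add, Multiset.card_map, Nat.cast_add, Multiset.map_const',
    Multiset.sum_replicate, nsmul_eq_mul] at h4
  rw [h2, h3, map_sub, tm_f, tm_f]
  have : ((Lp ∩ Lm).card : ℝ) = (3 * (A.card + B.card) - (Lp - Lm).card - (Lm - Lp).card) / 2 := by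
    linarith
  rw [this] at h4
  linarith

lemma real (c : G × G →₀ ℝ) : linearCombination ℝ f (linearCombination ℝ dd c) ≤
    D / 2 * nrm c + D / 2 * nrm (linearCombination ℝ dd c) := by
  have D0 : 0 ≤ D / 2 := by linarith [(abs_nonneg _).trans (hD 1 1)]
  let u := fun y : G →₀ ℝ => D / 2 * nrm y - linearCombination ℝ f y
  have ua : ∀ x y, u (x + y) ≤ u x + u y := fun x y => by
    have := mul_le_mul_of_nonneg_left (nrm_add x y) D0
    simp only [u, map_add]
    linarith
  have us : ∀ r : ℝ, 0 ≤ r → ∀ x, u (r • x) = r * u x := fun r hr x => by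
    simp only [u, nrm_smul, map_smul, abs_of_nonneg hr, smul_eq_mul]
    ring
  have ub : ∀ r : ℝ, |r| ≤ 1 → ∀ x, u (r • x) ≤ |u x| + |u (-x)| := fun r hr x => by
    rcases le_total 0 r with h | h
    · rw [us r h]
      nlinarith [abs_nonneg (u (-x)), le_abs_self (u x), abs_nonneg (u x), (abs_le.mp hr).2]
    · rw [← neg_smul_neg, us _ (neg_nonneg.mpr h)]
      nlinarith [abs_nonneg (u (-x)), le_abs_self (u (-x)), abs_nonneg (u x), (abs_le.mp hr).1]
  have key : ∀ n : ℕ, 0 ≤ n * (D / 2 * nrm c + u (linearCombination ℝ dd c)) +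
      ∑ p ∈ c.support, (|u (dd p)| + |u (-dd p)|) := fun n => by
    have h := intl hD hf (∑ p ∈ c.support, Multiset.replicate ⌊n * c p⌋₊ p)
      (∑ p ∈ c.support, Multiset.replicate ⌊-(n * c p)⌋₊ p)
    have ms : ∀ a : G × G → ℕ, ((∑ p ∈ c.support, Multiset.replicate (a p) p).map dd).sum =
        ∑ p ∈ c.support, a p • dd p := fun a => by
      rw [← Multiset.coe_mapAddMonoidHom, map_sum, Multiset.sum_sum]
      simp
    simp only [ms, Multiset.card_sum, Multiset.card_replicate, Nat.cast_sum, ← Finset.sum_add_distrib] at h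
    have fl : ∀ x : ℝ, (⌊x⌋₊ : ℝ) + ⌊-x⌋₊ ≤ |x| ∧ |(⌊x⌋₊ : ℝ) - ⌊-x⌋₊ - x| ≤ 1 := fun x => by
      rcases le_total 0 x with h | h
      · rw [Nat.floor_of_nonpos (neg_nonpos.mpr h), abs_of_nonneg h, abs_le]
        have := Nat.floor_le h
        have := Nat.lt_floor_add_one x
        push_cast
        refine ⟨by linarith, by linarith, by linarith⟩
      · rw [Nat.floor_of_nonpos h, abs_of_nonpos h, abs_le]
        have := Nat.floor_le (neg_nonneg.mpr h)
        have := Nat.lt_floor_add_one (-x)
        push_cast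
        refine ⟨by linarith, by linarith, by linarith⟩
    have h1 : ∑ p ∈ c.support, ((⌊n * c p⌋₊ : ℝ) + ⌊-(n * c p)⌋₊) ≤ n * nrm c := by
      rw [nrm, tsum_eq_sum (s := c.support) fun i hi => by simpa using hi, Finset.mul_sum]
      exact Finset.sum_le_sum fun p _ => (fl _).1.trans (by simp [abs_mul])
    have h2 : ∑ p ∈ c.support, ⌊n * c p⌋₊ • dd p - ∑ p ∈ c.support, ⌊-(n * c p)⌋₊ • dd p =
        (n : ℝ) • linearCombination ℝ dd c +
          ∑ p ∈ c.support, ((⌊n * c p⌋₊ : ℝ) - ⌊-(n * c p)⌋₊ - n * c p) • dd p := by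
      simp only [linearCombination_apply, Finsupp.sum, Finset.smul_sum, ← Finset.sum_add_distrib,
        ← Finset.sum_sub_distrib, smul_smul, ← add_smul, add_sub_cancel, sub_smul,
        Nat.cast_smul_eq_nsmul]
    rw [h2] at h
    have h3 := ua ((n : ℝ) • linearCombination ℝ dd c)
      (∑ p ∈ c.support, ((⌊n * c p⌋₊ : ℝ) - ⌊-(n * c p)⌋₊ - n * c p) • dd p)
    have h4 := (Finset.le_sum_of_subadditive u (by simp [u, nrm]) ua c.support
      fun p => ((⌊n * c p⌋₊ : ℝ) - ⌊-(n * c p)⌋₊ - n * c p) • dd p).trans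
      (Finset.sum_le_sum fun p _ => ub _ (fl _).2 (dd p))
    rw [us _ n.cast_nonneg] at h3
    have h5 := mul_le_mul_of_nonneg_left h1 D0
    simp only [u] at h3 h4 ⊢
    nlinarith
  by_contra hc
  obtain ⟨n, hn⟩ := exists_nat_gt ((∑ p ∈ c.support, (|u (dd p)| + |u (-dd p)|)) /
    -(D / 2 * nrm c + u (linearCombination ℝ dd c)))
  rw [div_lt_iff₀ (by simp only [u]; linarith)] at hn
  linarith [key n]

theorem main : ∃ ψ : G → ℝ, (∀ g, |ψ g - f g| ≤ D / 2) ∧
    ∀ g h, |ψ (g * h) - ψ g - ψ h| ≤ D / 2 := by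
  have D0 : 0 ≤ D / 2 := by linarith [(abs_nonneg _).trans (hD 1 1)]
  let S := LinearMap.graph (linearCombination ℝ (dd (G := G)))
  obtain ⟨g, h1, h2⟩ := exists_extension_of_le_sublinear
    ⟨S, linearCombination ℝ f ∘ₗ LinearMap.snd ℝ _ _ ∘ₗ S.subtype⟩
    (fun z => D / 2 * nrm z.1 + D / 2 * nrm z.2) (fun c hc z => by
      simp only [Prod.smul_fst, Prod.smul_snd, nrm_smul, abs_of_pos hc]
      ring) (fun x y => by
      have := mul_le_mul_of_nonneg_left (nrm_add x.1 y.1) D0
      have := mul_le_mul_of_nonneg_left (nrm_add x.2 y.2) D0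
      simp only [Prod.fst_add, Prod.snd_add]
      linarith) (fun ⟨z, hz⟩ => by
      have := real hD hf z.1
      rw [← hz] at this
      exact this)
  have h3 : ∀ z, |g z| ≤ D / 2 * nrm z.1 + D / 2 * nrm z.2 := fun z => by
    have := h2 ((-1 : ℝ) • z)
    simp only [Prod.smul_fst, Prod.smul_snd, nrm_smul, map_smul, smul_eq_mul] at this
    exact abs_le.mpr ⟨by norm_num at this; linarith, h2 z⟩
  have n0 : ∀ ι : Type, nrm (0 : ι →₀ ℝ) = 0 := fun _ => by simp [nrm]
  refine ⟨fun x => f x - g (0, single x 1), fun x => ?_, fun x y => ?_⟩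
  · simpa [n0, nrm_single] using h3 (0, single x 1)
  · have a1 := h3 (single (x, y) 1, 0)
    have a2 : g (single (x, y) 1, dd (x, y)) = linearCombination ℝ f (dd (x, y)) :=
      h1 ⟨(single (x, y) 1, dd (x, y)), by simp [S]⟩
    have a3 : (single (x, y) (1 : ℝ), dd (x, y)) = (single (x, y) 1, 0) + (0, single x 1) +
        (0, single y 1) - (0, single (x * y) 1) := by simp [dd]
    rw [a3, map_sub, map_add, map_add] at a2
    simp only [n0, nrm_single, dd, map_sub, map_add, linearCombination_single, one_smul] at a1 a2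
    rw [abs_le] at a1 ⊢
    constructor <;> linarith

end Pool.Agent.H33.Qm
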