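import Mathlib

set_option autoImplicit false
open Finset
open scoped commutatorElement

namespace Pool.Agent.H33.RN

def cc (i : ℕ) : ℤ := ∏ p ∈ i.primeFactors, (p : ℤ)

def CC (s j : ℕ) : ℤ := ∏ i ∈ range j, cc (s + i + 1)

lemma cc_ne (i : ℕ) : cc i ≠ 0 :=
  prod_ne_zero_iff.mpr fun p hp => by
    exact_mod_cast (Nat.prime_of_mem_primeFactors hp).ne_zero

lemma CC_ne (s j : ℕ) : CC s j ≠ 0 := prod_ne_zero_iff.mpr fun _ _ => cc_ne _

lemma CC_add (s j j' : ℕ) : CC s (j + j') = CC s j * CC (s + j) j' := by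
  unfold CC
  rw [prod_range_add]
  simp only [add_assoc]

lemma cc_split (p : ℕ) (hp : p.Prime) (i : ℕ) (hi : i ≠ 0) :
    ∃ r : ℤ, ¬ (p : ℤ) ∣ r ∧ cc i = (if p ∣ i then (p : ℤ) else 1) * r := by
  refine ⟨∏ q ∈ i.primeFactors.erase p, (q : ℤ), ?_, ?_⟩
  · rw [(Nat.prime_iff_prime_int.mp hp).dvd_finsetProd_iff]
    rintro ⟨q, hq, h⟩
    have h1 : p ∣ q := by exact_mod_cast h
    have h2 := Nat.prime_of_mem_primeFactors (mem_of_mem_erase hq)
    exact (ne_of_mem_erase hq) ((Nat.prime_dvd_prime_iff_eq hp h2).mp h1).symm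
  · split_ifs with h
    · unfold cc
      rw [mul_prod_erase _ (fun q : ℕ => (q : ℤ)) (Nat.mem_primeFactors.mpr ⟨hp, h, hi⟩)]
    · rw [one_mul, erase_eq_of_notMem (fun hc => h (Nat.dvd_of_mem_primeFactors hc))]
      rfl

lemma CC_win (p : ℕ) (hp : p.Prime) (s : ℕ) : ∃ r : ℤ, ¬ (p : ℤ) ∣ r ∧ CC s p = p * r := by
  choose r h1 h2 using fun i => cc_split p hp (s + i + 1) (by omega)
  refine ⟨∏ i ∈ range p, r i, ?_, ?_⟩
  · rw [(Nat.prime_iff_prime_int.mp hp).dvd_finsetProd_iff]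
    rintro ⟨i, -, h⟩
    exact h1 i h
  · unfold CC
    simp only [h2]
    rw [prod_mul_distrib, ← prod_filter, prod_const]
    have : ((range p).filter (fun i => p ∣ s + i + 1)).card = 1 := by
      have hp0 := hp.pos
      rw [card_eq_one]
      refine ⟨p - 1 - s % p, ?_⟩
      have hm := Nat.mod_lt s hp0
      have hd := Nat.div_add_mod s p
      have h0 : p ∣ s + (p - 1 - s % p) + 1 := ⟨s / p + 1, by rw [mul_add, mul_one]; omega⟩
      ext i
      simp only [mem_filter, mem_range, mem_singleton]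
      constructor
      · rintro ⟨a1, a2⟩
        by_contra hc
        rcases Nat.lt_or_gt_of_ne hc with h | h
        · have := Nat.le_of_dvd (by omega) (Nat.dvd_sub h0 a2)
          omega
        · have := Nat.le_of_dvd (by omega) (Nat.dvd_sub a2 h0)
          omega
      · rintro rfl
        exact ⟨by omega, h0⟩
    rw [this, pow_one]

lemma CC_dvd (o : ℕ) (ho : o ≠ 0) : ∀ s, ∃ j, (o : ℤ) ∣ CC s j := by
  induction o using Nat.recOnMul with
  | zero => exact absurd rfl ho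
  | one => intro s; exact ⟨0, by simp⟩
  | prime p hp =>
    intro s
    obtain ⟨r, -, h⟩ := CC_win p hp s
    exact ⟨p, r, h⟩
  | mul a b iha ihb =>
    intro s
    obtain ⟨j, hj⟩ := iha (by rintro rfl; simp at ho) s
    obtain ⟨j', hj'⟩ := ihb (by rintro rfl; simp at ho) (s + j)
    refine ⟨j + j', ?_⟩
    rw [CC_add]
    push_cast
    exact mul_dvd_mul hj hj'

abbrev DD := ℕ → ℤ
abbrev UU := ℤ × DD
abbrev MM := ℕ →₀ UU

noncomputable def sh (f : ℕ → ℤ) : MM →ₗ[ℤ] MM where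
  toFun μ := Finsupp.onFinset (μ.support.image (· - 1)) (fun i => f i • μ (i + 1)) (fun i hi => by
    rw [mem_image]
    refine ⟨i + 1, Finsupp.mem_support_iff.mpr fun h => hi (by simp [h]), by simp⟩)
  map_add' μ ν := by ext i : 1; simp
  map_smul' c μ := by
    ext i : 1
    exact smul_comm _ _ _

lemma sh_apply (f : ℕ → ℤ) (μ : MM) (i : ℕ) : sh f μ i = f i • μ (i + 1) := rfl

noncomputable def xx (s : ℕ) : Module.End ℤ MM := sh (fun i => cc (s + i + 1))

noncomputable def tl : MM →ₗ[ℤ] MM := sh (fun _ => 1)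

lemma xx_apply (s : ℕ) (μ : MM) (i : ℕ) : xx s μ i = cc (s + i + 1) • μ (i + 1) := rfl

lemma tl_apply (μ : MM) (i : ℕ) : tl μ i = μ (i + 1) := by simp [tl, sh_apply]

lemma xx_pow (s j : ℕ) (μ : MM) (i : ℕ) : (xx s ^ j) μ i = CC (s + i) j • μ (i + j) := by
  induction j generalizing μ with
  | zero => simp [CC]
  | succ j ih =>
    rw [pow_succ, Module.End.mul_apply, ih, xx_apply, smul_smul, CC_add]
    simp [CC, add_assoc]

lemma xx_pow_single (s j i : ℕ) (u : UU) :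
    (xx s ^ j) (Finsupp.single (i + j) u) = CC (s + i) j • Finsupp.single i u := by
  ext n : 1
  rw [xx_pow, Finsupp.smul_apply, Finsupp.single_apply, Finsupp.single_apply]
  by_cases h : i = n
  · subst h; simp
  · rw [if_neg (by omega), if_neg h]; simp

lemma xx_pow_single_lt (s j i : ℕ) (u : UU) (h : i < j) :
    (xx s ^ j) (Finsupp.single i u) = 0 := by
  ext n : 1
  rw [xx_pow, Finsupp.single_apply, if_neg (by omega)]; simp

lemma exists_top (μ : MM) : ∃ N, ∀ i, N ≤ i → μ i = 0 := by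
  refine ⟨μ.support.sup id + 1, fun i hi => ?_⟩
  by_contra hc
  have := le_sup (f := id) (Finsupp.mem_support_iff.mpr hc)
  simp only [id] at this
  omega

lemma T_bij (s : ℕ) : Function.Bijective (1 + xx s : Module.End ℤ MM) := by
  have key : ∀ N, ∀ μ : MM, (∀ i, N ≤ i → μ i = 0) →
      (μ + xx s μ = 0 → μ = 0) ∧ ∃ ν, ν + xx s ν = μ := by
    intro N
    induction N with
    | zero =>
      intro μ h
      have : μ = 0 := by ext i : 1; exact h i (Nat.zero_le _)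
      subst this
      exact ⟨fun _ => rfl, 0, by simp⟩
    | succ N ih =>
      intro μ h
      constructor
      · intro h0
        refine (ih μ fun i hi => ?_).1 h0
        have := congrArg (fun z : MM => z i) h0
        simpa [xx_apply, h (i + 1) (by omega)] using this
      · obtain ⟨ν, hν⟩ := (ih (xx s μ) fun i hi => by
          rw [xx_apply, h (i + 1) (by omega), smul_zero]).2
        refine ⟨μ - ν, ?_⟩
        rw [map_sub, ← hν]; abel
  constructor
  · rw [injective_iff_map_eq_zero]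
    intro μ h
    obtain ⟨N, hN⟩ := exists_top μ
    exact (key N μ hN).1 h
  · intro μ
    obtain ⟨N, hN⟩ := exists_top μ
    exact (key N μ hN).2

noncomputable def TT (s : ℕ) : MM ≃ₗ[ℤ] MM := LinearEquiv.ofBijective _ (T_bij s)

lemma TT_apply (s : ℕ) (μ : MM) : TT s μ = μ + xx s μ := rfl

noncomputable def mp (f : UU →ₗ[ℤ] UU) : MM →ₗ[ℤ] MM := Finsupp.mapRange.linearMap f

lemma mp_apply (f : UU →ₗ[ℤ] UU) (μ : MM) (i : ℕ) : mp f μ i = f (μ i) := rfl

def ud (d : DD) : UU →ₗ[ℤ] UU where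
  toFun u := (u.1, u.2 + u.1 • d)
  map_add' u v := by ext <;> simp [add_smul]; ring
  map_smul' c u := by ext <;> simp [mul_assoc]

lemma ud_apply (d : DD) (u : UU) : ud d u = (u.1, u.2 + u.1 • d) := rfl

def pu : UU →ₗ[ℤ] UU where
  toFun u := (u.1, 0)
  map_add' u v := by ext <;> simp
  map_smul' c u := by ext <;> simp

lemma pu_apply (u : UU) : pu u = (u.1, 0) := rfl

noncomputable def HH (d : DD) : MM ≃ₗ[ℤ] MM :=
  LinearEquiv.ofLinearMap (mp (ud d)) (mp (ud (-d)))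
    (LinearMap.ext fun μ => by ext i : 1; simp [mp_apply, ud_apply])
    (LinearMap.ext fun μ => by ext i : 1; simp [mp_apply, ud_apply])

lemma HH_apply (d : DD) (μ : MM) (i : ℕ) : HH d μ i = ((μ i).1, (μ i).2 + (μ i).1 • d) := rfl

lemma HH_add (d d' : DD) : HH (d + d') = HH d * HH d' := by
  ext1 μ; ext i : 1
  simp only [LinearEquiv.mul_apply, HH_apply, smul_add]
  congr 1; abel

lemma HH_zero : HH 0 = 1 := by
  ext1 μ; ext i : 1
  simp [HH_apply]

lemma semi (f : MM →ₗ[ℤ] MM) (e e' : MM ≃ₗ[ℤ] MM) (h : ∀ μ, f (e μ) = e' (f μ)) (k : ℤ) :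
    ∀ μ, f ((e ^ k) μ) = (e' ^ k) (f μ) := by
  have h' : ∀ μ, f (e⁻¹ μ) = e'⁻¹ (f μ) := by
    intro μ
    apply e'.injective
    rw [← h]
    simp
  induction k using Int.induction_on with
  | zero => simp
  | succ k ih => intro μ; rw [zpow_add_one, zpow_add_one, LinearEquiv.mul_apply,
      LinearEquiv.mul_apply, ih, h]
  | pred k ih => intro μ; rw [zpow_sub_one, zpow_sub_one, LinearEquiv.mul_apply,
      LinearEquiv.mul_apply, ih, h']

lemma xx_mp (s : ℕ) (f : UU →ₗ[ℤ] UU) (μ : MM) : xx s (mp f μ) = mp f (xx s μ) := by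
  ext i : 1; simp only [xx_apply, mp_apply, map_zsmul]

lemma xx_HH (s : ℕ) (d : DD) (μ : MM) : xx s (HH d μ) = HH d (xx s μ) := xx_mp s _ μ

lemma TT_HH (s : ℕ) (d : DD) : Commute (TT s) (HH d) := by
  ext1 μ
  simp only [LinearEquiv.mul_apply, TT_apply, map_add, xx_HH]

noncomputable def rho (s : ℕ) (k : ℤ) (d : DD) : MM ≃ₗ[ℤ] MM := TT s ^ k * HH d

lemma rho_add (s : ℕ) (k k' : ℤ) (d d' : DD) :
    rho s (k + k') (d + d') = rho s k d * rho s k' d' := by
  unfold rho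
  rw [zpow_add, HH_add, mul_assoc, mul_assoc, ← mul_assoc (TT s ^ k'),
    ((TT_HH s d).zpow_left k').eq, mul_assoc]

lemma rho_zero (s : ℕ) : rho s 0 0 = 1 := by simp [rho, HH_zero]

lemma xx_T (s : ℕ) (k : ℤ) (μ : MM) : xx s ((TT s ^ k) μ) = (TT s ^ k) (xx s μ) :=
  semi (xx s) (TT s) (TT s) (fun μ => by simp [TT_apply]) k μ

lemma xx_rho (s : ℕ) (k : ℤ) (d : DD) (μ : MM) : xx s (rho s k d μ) = rho s k d (xx s μ) := by
  simp only [rho, LinearEquiv.mul_apply, xx_T, xx_HH]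

lemma xx_pow_rho (s : ℕ) (k : ℤ) (d : DD) (j : ℕ) (μ : MM) :
    (xx s ^ j) (rho s k d μ) = rho s k d ((xx s ^ j) μ) := by
  induction j generalizing μ with
  | zero => simp
  | succ j ih => rw [pow_succ, Module.End.mul_apply, Module.End.mul_apply, xx_rho, ih]

lemma pu_T (s : ℕ) (k : ℤ) (μ : MM) : mp pu ((TT s ^ k) μ) = (TT s ^ k) (mp pu μ) :=
  semi (mp pu) (TT s) (TT s) (fun μ => by simp [TT_apply, xx_mp]) k μ

lemma tl_rho (k : ℤ) (d : DD) (μ : MM) : tl (rho 0 k d μ) = rho 1 k d (tl μ) := by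
  have h1 := semi tl (TT 0) (TT 1) (fun μ => by
    ext i : 1
    simp [TT_apply, tl_apply, xx_apply, add_comm 1 i]) k
  have h2 : tl (HH d μ) = HH d (tl μ) := by ext i : 1; simp [tl_apply, HH_apply]
  simp only [rho, LinearEquiv.mul_apply, h1, h2]

lemma T_sub (s : ℕ) (k : ℤ) (μ : MM) :
    ∃ ν, (TT s ^ k) μ - μ = xx s ν ∧ (mp pu μ = 0 → mp pu ν = 0) := by
  induction k using Int.induction_on with
  | zero => exact ⟨0, by simp, by simp⟩
  | succ k ih =>
    obtain ⟨ν, h1, h2⟩ := ih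
    refine ⟨ν + (TT s ^ (k : ℤ)) μ, ?_, fun h => by rw [map_add, h2 h, pu_T, h]; simp⟩
    rw [add_comm (k : ℤ), zpow_one_add, LinearEquiv.mul_apply, TT_apply, map_add, ← h1]
    abel
  | pred k ih =>
    obtain ⟨ν, h1, h2⟩ := ih
    refine ⟨ν - (TT s ^ (-(k : ℤ) - 1)) μ, ?_, fun h => by rw [map_sub, h2 h, pu_T, h]; simp⟩
    have : (TT s ^ (-(k : ℤ))) μ = TT s ((TT s ^ (-(k : ℤ) - 1)) μ) := by
      rw [← LinearEquiv.mul_apply, ← zpow_one_add]; congr 2; ring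
    rw [map_sub, ← h1, this, TT_apply]
    abel

/-- the filtration of the module -/
def JJ (s j : ℕ) (μ : MM) : Prop := ∃ ν η, mp pu η = 0 ∧ μ = (xx s ^ j) (xx s ν + η)

lemma HH_fix (d : DD) (η : MM) (h : mp pu η = 0) : HH d η = η := by
  ext i : 1
  have := congrArg (fun z : MM => (z i).1) h
  simp only [mp_apply, pu_apply] at this
  have h0 : (η i).1 = 0 := this
  rw [HH_apply, h0, zero_smul, add_zero, ← h0]

lemma rho_sub (s : ℕ) (k : ℤ) (d : DD) (μ : MM) : JJ s 0 (rho s k d μ - μ) := by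
  obtain ⟨ν, h1, -⟩ := T_sub s k μ
  refine ⟨ν, (TT s ^ k) (HH d μ - μ), ?_, ?_⟩
  · rw [pu_T]
    have : mp pu (HH d μ - μ) = 0 := by ext i : 1; simp [mp_apply, pu_apply, HH_apply]
    rw [this, map_zero]
  · simp only [rho, LinearEquiv.mul_apply, pow_zero, Module.End.one_apply, ← h1, map_sub]
    abel

lemma rho_sub_JJ (s j : ℕ) (k : ℤ) (d : DD) (μ : MM) (h : JJ s j μ) :
    JJ s (j + 1) (rho s k d μ - μ) := by
  obtain ⟨ν, η, h1, rfl⟩ := h
  obtain ⟨ν1, η1, a1, a2⟩ := rho_sub s k d ν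
  obtain ⟨η2, b1, b2⟩ := T_sub s k η
  refine ⟨ν1, η1 + η2, by rw [map_add, a1, b2 h1, add_zero], ?_⟩
  rw [← xx_pow_rho, ← map_sub, pow_succ, Module.End.mul_apply]
  congr 1
  simp only [pow_zero, Module.End.one_apply] at a2
  have : rho s k d η = (TT s ^ k) η := by
    simp only [rho, LinearEquiv.mul_apply, HH_fix d η h1]
  rw [← add_assoc, ← a2, map_add, map_add, map_sub, ← b1, ← xx_rho, this]
  abel

@[ext] structure Gam (s : ℕ) where
  m : MM
  k : ℤ
  d : DD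

noncomputable instance (s : ℕ) : Mul (Gam s) :=
  ⟨fun a b => ⟨a.m + rho s a.k a.d b.m, a.k + b.k, a.d + b.d⟩⟩
instance (s : ℕ) : One (Gam s) := ⟨⟨0, 0, 0⟩⟩
noncomputable instance (s : ℕ) : Inv (Gam s) :=
  ⟨fun a => ⟨-rho s (-a.k) (-a.d) a.m, -a.k, -a.d⟩⟩

@[simp] lemma mul_m {s : ℕ} (a b : Gam s) : (a * b).m = a.m + rho s a.k a.d b.m := rfl
@[simp] lemma mul_k {s : ℕ} (a b : Gam s) : (a * b).k = a.k + b.k := rfl
@[simp] lemma mul_d {s : ℕ} (a b : Gam s) : (a * b).d = a.d + b.d := rfl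
@[simp] lemma one_m {s : ℕ} : (1 : Gam s).m = 0 := rfl
@[simp] lemma one_k {s : ℕ} : (1 : Gam s).k = 0 := rfl
@[simp] lemma one_d {s : ℕ} : (1 : Gam s).d = 0 := rfl
lemma inv_m {s : ℕ} (a : Gam s) : (a⁻¹).m = -rho s (-a.k) (-a.d) a.m := rfl
lemma inv_k' {s : ℕ} (a : Gam s) : (a⁻¹).k = -a.k := rfl
lemma inv_d' {s : ℕ} (a : Gam s) : (a⁻¹).d = -a.d := rfl

noncomputable instance (s : ℕ) : Group (Gam s) :=
  Group.ofLeftAxioms
    (fun a b c => by
      ext1
      · simp [rho_add, add_assoc]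
      · simp [add_assoc]
      · simp [add_assoc])
    (fun a => by ext1 <;> simp [rho_zero])
    (fun a => by ext1 <;> simp [inv_m, inv_k', inv_d'])

noncomputable def inl (s : ℕ) (μ : MM) : Gam s := ⟨μ, 0, 0⟩

@[simp] lemma inl_m (s : ℕ) (μ : MM) : (inl s μ).m = μ := rfl
@[simp] lemma inl_k (s : ℕ) (μ : MM) : (inl s μ).k = 0 := rfl
@[simp] lemma inl_d (s : ℕ) (μ : MM) : (inl s μ).d = 0 := rfl

lemma inl_add (s : ℕ) (μ ν : MM) : inl s (μ + ν) = inl s μ * inl s ν := by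
  ext1 <;> simp [rho_zero]

lemma inl_zero (s : ℕ) : inl s 0 = 1 := rfl

lemma inl_neg (s : ℕ) (μ : MM) : inl s (-μ) = (inl s μ)⁻¹ := by
  rw [eq_inv_iff_mul_eq_one, ← inl_add, neg_add_cancel, inl_zero]

lemma inl_inj (s : ℕ) : Function.Injective (inl s) := fun _ _ h => congrArg Gam.m h

lemma inl_zsmul (s : ℕ) (n : ℤ) (μ : MM) : inl s (n • μ) = (inl s μ) ^ n := by
  let f : Multiplicative MM →* Gam s :=
    MonoidHom.mk' (fun μ => inl s μ.toAdd) (fun a b => inl_add s _ _)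
  exact map_zpow f (Multiplicative.ofAdd μ) n

lemma conj_inl {s : ℕ} (g : Gam s) (μ : MM) : g * inl s μ * g⁻¹ = inl s (rho s g.k g.d μ) := by
  rw [mul_inv_eq_iff_eq_mul]
  ext1 <;> simp [rho_zero, add_comm]

lemma comm_eq {s : ℕ} (g h : Gam s) :
    ⁅g, h⁆ = inl s ((rho s g.k g.d h.m - h.m) - (rho s h.k h.d g.m - g.m)) := by
  rw [commutatorElement_def, mul_assoc (g * h), ← mul_inv_rev, mul_inv_eq_iff_eq_mul]
  ext1
  · simp [rho_zero]; abel
  · simp [add_comm]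
  · simp [add_comm]

lemma JJ_add {s j : ℕ} {μ ν : MM} (h1 : JJ s j μ) (h2 : JJ s j ν) : JJ s j (μ + ν) := by
  obtain ⟨a, b, c, rfl⟩ := h1
  obtain ⟨a', b', c', rfl⟩ := h2
  refine ⟨a + a', b + b', by rw [map_add, c, c', add_zero], ?_⟩
  rw [← map_add, map_add (xx s)]; congr 1; abel

lemma JJ_neg {s j : ℕ} {μ : MM} (h1 : JJ s j μ) : JJ s j (-μ) := by
  obtain ⟨a, b, c, rfl⟩ := h1
  refine ⟨-a, -b, by rw [map_neg, c, neg_zero], ?_⟩
  rw [← map_neg, map_neg (xx s)]; congr 1; abel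

def JG (s j : ℕ) : Subgroup (Gam s) where
  carrier := {g | ∃ μ, JJ s j μ ∧ g = inl s μ}
  mul_mem' := by
    rintro _ _ ⟨μ, h1, rfl⟩ ⟨ν, h2, rfl⟩
    exact ⟨μ + ν, JJ_add h1 h2, (inl_add s μ ν).symm⟩
  one_mem' := ⟨0, ⟨0, 0, by simp, by simp⟩, rfl⟩
  inv_mem' := by
    rintro _ ⟨μ, h1, rfl⟩
    exact ⟨-μ, JJ_neg h1, (inl_neg s μ).symm⟩

lemma lcs_le (s j : ℕ) : (⊤ : Subgroup (Gam s)).lowerCentralSeries (j + 1) ≤ JG s j := by
  induction j with
  | zero =>
    rw [Subgroup.lowerCentralSeries_succ, Subgroup.commutator_le]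
    intro g _ h _
    refine ⟨_, ?_, comm_eq g h⟩
    rw [sub_eq_add_neg]
    exact JJ_add (rho_sub ..) (JJ_neg (rho_sub ..))
  | succ j ih =>
    rw [Subgroup.lowerCentralSeries_succ, Subgroup.commutator_le]
    intro g hg h _
    obtain ⟨μ, h1, rfl⟩ := ih hg
    refine ⟨_, ?_, comm_eq _ h⟩
    simp only [inl_k, inl_d, inl_m, rho_zero, LinearEquiv.coe_one, id, sub_self, zero_sub]
    exact JJ_neg (rho_sub_JJ s j _ _ μ h1)

lemma lcs_pow (s j : ℕ) (g : Gam s) (hg : g ∈ (⊤ : Subgroup (Gam s)).lowerCentralSeries (j + 1)) :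
    ∃ μ, g = inl s ((xx s ^ j) μ) := by
  obtain ⟨_, ⟨a, b, -, rfl⟩, h⟩ := lcs_le s j hg
  exact ⟨_, h⟩

end Pool.Agent.H33.RN
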