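import Pool.Agent.H33.RN1

set_option autoImplicit false
open Finset
open scoped commutatorElement

namespace Pool.Agent.H33.RN

lemma beta_zero (s p : ℕ) (hp : p.Prime) {B : Type} [AddCommGroup B]
    (hB : ∀ (k : ℤ) (b : B), ¬ (p : ℤ) ∣ k → k • b = 0 → b = 0) (β : MM →+ MM →+ B)
    (hβ : ∀ μ ν, β (TT s μ) (TT s ν) = β μ ν) (μ ν : MM) : β ((xx s ^ p) μ) ν = 0 := by
  have adj : ∀ μ ν, β μ (xx s ν) = - β (xx s μ) (TT s ν) := by
    intro μ ν
    have := hβ μ ν
    rw [TT_apply s μ, map_add, AddMonoidHom.add_apply, TT_apply s ν, map_add (β μ)] at this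
    rw [TT_apply, eq_neg_iff_add_eq_zero]
    rw [add_assoc] at this
    simpa using this
  have mv : ∀ n : ℕ, ∀ μ, (∀ ν, β ((xx s ^ n) μ) ν = 0) → ∀ ν, β μ ((xx s ^ n) ν) = 0 := by
    intro n
    induction n with
    | zero => intro μ h ν; simpa using h ν
    | succ n ih =>
      intro μ h ν
      have h1 := ih (xx s μ) (fun ν => by rw [← Module.End.mul_apply, ← pow_succ]; exact h ν)
      rw [pow_succ', Module.End.mul_apply, adj]
      have h2 : TT s ((xx s ^ n) ν) = (xx s ^ n) (TT s ν) := by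
        rw [TT_apply, TT_apply, map_add, ← Module.End.mul_apply, ← Module.End.mul_apply,
          ← pow_succ, ← pow_succ']
      rw [h2, h1, neg_zero]
  have key : ∀ i u ν, β ((xx s ^ p) (Finsupp.single i u)) ν = 0 := by
    intro i
    induction i using Nat.strong_induction_on with
    | _ i ih =>
      intro u ν
      by_cases hi : i < p
      · rw [xx_pow_single_lt s p i u hi]; simp
      · obtain ⟨i', rfl⟩ : ∃ i', i = i' + p := ⟨i - p, by omega⟩
        induction ν using Finsupp.induction_linear with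
        | zero => simp
        | add a b ha hb => rw [map_add, ha, hb, add_zero]
        | single j u' =>
          obtain ⟨r, r1, r2⟩ := CC_win p hp (s + i')
          obtain ⟨r', r1', r2'⟩ := CC_win p hp (s + j)
          have h1 := mv p _ (ih i' (by have := hp.pos; omega) u) (Finsupp.single (j + p) u')
          rw [xx_pow_single, map_zsmul, r2'] at h1
          apply hB r' _ r1'
          rw [xx_pow_single, map_zsmul, AddMonoidHom.zsmul_apply, r2, smul_smul,
            show r' * (p * r) = r * (p * r') by ring, ← smul_smul, h1, smul_zero]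
  induction μ using Finsupp.induction_linear with
  | zero => simp
  | add a b ha hb => rw [map_add, map_add, AddMonoidHom.add_apply, ha, hb, add_zero]
  | single i u => exact key i u ν

lemma int_zero (s : ℕ) (a : ℤ) (h : ∀ j, CC s j ∣ a) : a = 0 := by
  obtain ⟨j, hj⟩ := CC_dvd (a.natAbs + 1) (by omega) s
  refine Int.eq_zero_of_abs_lt_dvd (hj.trans (h j)) ?_
  push_cast
  simp

lemma cyc {E : Type} [Group E] (g z : E) (s : ℕ) (h : ∀ j, ∃ r : ℤ, g = z ^ (CC s j * r)) :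
    g = 1 := by
  by_cases ho : orderOf z = 0
  · obtain ⟨r0, h0⟩ := h 0
    have hinj : Function.Injective fun n : ℤ => z ^ n :=
      injective_zpow_iff_not_isOfFinOrder.mpr (orderOf_eq_zero_iff.mp ho)
    have : CC s 0 * r0 = 0 := int_zero s _ fun j => by
      obtain ⟨r, hr⟩ := h j
      exact ⟨r, hinj (h0.symm.trans hr)⟩
    rw [h0, this, zpow_zero]
  · obtain ⟨j, hj⟩ := CC_dvd _ ho s
    obtain ⟨r, hr⟩ := h j
    rw [hr]
    exact orderOf_dvd_iff_zpow_eq_one.mp (hj.mul_right r)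

theorem local_res (s p : ℕ) (hp : p.Prime) {E : Type} [Group E] (π : E →* Gam s)
    (hs : Function.Surjective π) (hc : ∀ a, π a = 1 → ∀ g, Commute a g)
    (ht : ∀ (k : ℤ) (a : E), π a = 1 → ¬ (p : ℤ) ∣ k → a ^ k = 1 → a = 1)
    (g : E) (hg : ∀ n, g ∈ (⊤ : Subgroup E).lowerCentralSeries n) : g = 1 := by
  choose σ hσ using fun μ => hs (inl s μ)
  obtain ⟨t, htt⟩ := hs ⟨0, 1, 0⟩
  have cL : ∀ u u' v : E, π u = π u' → ⁅u, v⁆ = ⁅u', v⁆ := by
    intro u u' v h
    have h1 := hc (u'⁻¹ * u) (by simp [h]) v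
    have h2 : u = u' * (u'⁻¹ * u) := by group
    generalize u'⁻¹ * u = a at h1 h2
    rw [h2, commutatorElement_def, commutatorElement_def, mul_assoc u' a v, h1.eq]
    group
  have cR : ∀ u u' v : E, π u = π u' → ⁅v, u⁆ = ⁅v, u'⁆ := by
    intro u u' v h
    rw [← commutatorElement_inv, cL u u' v h, commutatorElement_inv]
  have cN : ∀ (u v : E) μ ν, π u = inl s μ → π v = inl s ν → π ⁅u, v⁆ = 1 := by
    intro u v μ ν h1 h2
    rw [map_commutatorElement, h1, h2, commutatorElement_eq_one_iff_mul_comm, ← inl_add,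
      ← inl_add, add_comm]
  have pconj : ∀ (h u : E) μ, π u = inl s μ →
      π (h * u * h⁻¹) = inl s (rho s (π h).k (π h).d μ) := by
    intro h u μ h1
    rw [map_mul, map_mul, map_inv, h1, conj_inl]
  have hrt : rho s (π t).k (π t).d = TT s := by
    rw [htt]; simp [rho, HH_zero]
  let _ : CommGroup π.ker := { (inferInstance : Group π.ker) with
    mul_comm := fun a b => Subtype.ext (hc a a.2 b).eq }
  let b0 : MM → MM → Additive π.ker := fun μ ν =>
    Additive.ofMul ⟨⁅σ μ, σ ν⁆, cN _ _ μ ν (hσ μ) (hσ ν)⟩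
  let β : MM →+ MM →+ Additive π.ker := AddMonoidHom.mk' (fun μ => AddMonoidHom.mk' (b0 μ)
    (fun ν ν' => by
      apply Additive.toMul.injective
      apply Subtype.ext
      show ⁅σ μ, σ (ν + ν')⁆ = ⁅σ μ, σ ν⁆ * ⁅σ μ, σ ν'⁆
      rw [cR _ (σ ν * σ ν') _ (by rw [map_mul, hσ, hσ, hσ, inl_add])]
      have h1 := (hc _ (cN _ _ μ ν' (hσ μ) (hσ ν')) (σ ν)).eq
      calc ⁅σ μ, σ ν * σ ν'⁆ = ⁅σ μ, σ ν⁆ * (σ ν * ⁅σ μ, σ ν'⁆) * (σ ν)⁻¹ := by
            simp only [commutatorElement_def]; group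
        _ = _ := by rw [← h1]; group))
    (fun μ μ' => by
      refine AddMonoidHom.ext fun ν => ?_
      apply Additive.toMul.injective
      apply Subtype.ext
      show ⁅σ (μ + μ'), σ ν⁆ = ⁅σ μ, σ ν⁆ * ⁅σ μ', σ ν⁆
      rw [cL _ (σ μ * σ μ') _ (by rw [map_mul, hσ, hσ, hσ, inl_add])]
      have h1 := (hc _ (cN _ _ μ' ν (hσ μ') (hσ ν)) (σ μ)).eq
      have h2 := (hc _ (cN _ _ μ' ν (hσ μ') (hσ ν)) ⁅σ μ, σ ν⁆).eq
      calc ⁅σ μ * σ μ', σ ν⁆ = (σ μ * ⁅σ μ', σ ν⁆) * (σ μ)⁻¹ * ⁅σ μ, σ ν⁆ := by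
            simp only [commutatorElement_def]; group
        _ = _ := by rw [← h1, ← h2]; group)
  have hV : ∀ u v μ ν, π u = inl s ((xx s ^ p) μ) → π v = inl s ν → Commute u v := by
    intro u v μ ν h1 h2
    have := beta_zero s p hp (B := Additive π.ker) (fun k b hk hb => by
      apply Additive.toMul.injective
      apply Subtype.ext
      refine ht k _ (Additive.toMul b).2 hk ?_
      exact congrArg (fun z : Additive π.ker => ((Additive.toMul z : π.ker) : E)) hb) β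
      (fun μ ν => by
        apply Additive.toMul.injective
        apply Subtype.ext
        show ⁅σ (TT s μ), σ (TT s ν)⁆ = ⁅σ μ, σ ν⁆
        rw [cL _ (t * σ μ * t⁻¹) _ (by rw [pconj t _ μ (hσ μ), hrt, hσ]),
          cR _ (t * σ ν * t⁻¹) _ (by rw [pconj t _ ν (hσ ν), hrt, hσ]),
          ← conjugate_commutatorElement, ← (hc _ (cN _ _ μ ν (hσ μ) (hσ ν)) t).eq]
        group) μ ν
    have h3 : ⁅σ ((xx s ^ p) μ), σ ν⁆ = 1 :=
      congrArg (fun z : Additive π.ker => ((Additive.toMul z : π.ker) : E)) this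
    rw [cL _ u _ (by rw [hσ, h1]), cR _ v _ (by rw [hσ, h2])] at h3
    exact commutatorElement_eq_one_iff_commute.mp h3
  have pX : ∀ u μ, π u = inl s μ → π ⁅t, u⁆ = inl s (xx s μ) := by
    intro u μ h
    rw [commutatorElement_def, map_mul, pconj t u μ h, hrt, map_inv, h, ← inl_neg, ← inl_add,
      TT_apply]
    congr 1; abel
  have Xmul : ∀ u u' μ ν, π u = inl s ((xx s ^ p) μ) → π u' = inl s ν →
      ⁅t, u * u'⁆ = ⁅t, u⁆ * ⁅t, u'⁆ := by
    intro u u' μ ν h1 h2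
    have h3 := (hV u _ μ _ h1 (pX u' ν h2)).eq
    calc ⁅t, u * u'⁆ = ⁅t, u⁆ * (u * ⁅t, u'⁆) * u⁻¹ := by
          simp only [commutatorElement_def]; group
      _ = _ := by rw [h3]; group
  have Xconj : ∀ (h u : E) μ, π u = inl s ((xx s ^ p) μ) →
      ⁅t, h * u * h⁻¹⁆ = h * ⁅t, u⁆ * h⁻¹ := by
    intro h u μ h1
    rw [conjugate_commutatorElement]
    have w1 := pconj h u _ h1
    rw [← xx_pow_rho] at w1
    generalize h * u * h⁻¹ = w at w1
    have n1 := (map_commutatorElement π h t).trans (comm_eq _ _)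
    have e1 : h * t * h⁻¹ = ⁅h, t⁆ * t := by simp only [commutatorElement_def]; group
    rw [e1]
    generalize ⁅h, t⁆ = n at n1
    have c1 := (hV w n _ _ w1 n1).eq
    have w2 := pX w _ w1
    rw [← Module.End.mul_apply, ← pow_succ', pow_succ, Module.End.mul_apply] at w2
    have c2 := (hV _ n _ _ w2 n1).eq
    calc ⁅t, w⁆ = (⁅t, w⁆ * n) * (w * n⁻¹) * w⁻¹ := by
          have : w * n⁻¹ = n⁻¹ * w := by
            rw [mul_inv_eq_iff_eq_mul, mul_assoc, c1]; group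
          rw [this]; group
      _ = _ := by rw [c2]; simp only [commutatorElement_def]; group
  let V : Subgroup E :=
    { carrier := {u | ∃ μ, π u = inl s ((xx s ^ p) μ)}
      mul_mem' := by
        rintro a b ⟨μ, h1⟩ ⟨ν, h2⟩
        exact ⟨μ + ν, by rw [map_mul, h1, h2, map_add, inl_add]⟩
      one_mem' := ⟨0, by simp [inl_zero]⟩
      inv_mem' := by
        rintro a ⟨μ, h1⟩
        exact ⟨-μ, by rw [map_inv, h1, map_neg, inl_neg]⟩ }
  let Xh : V →* E := MonoidHom.mk' (fun u => ⁅t, (u : E)⁆) (fun a b => by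
    obtain ⟨μ, h1⟩ := a.2
    obtain ⟨ν, h2⟩ := b.2
    exact Xmul _ _ μ _ h1 h2)
  have hsplit : ∀ j μ, (xx s ^ (p + j)) μ = (xx s ^ p) ((xx s ^ j) μ) := fun j μ => by
    rw [pow_add, Module.End.mul_apply]
  let XV : ℕ → Subgroup E := fun j =>
    { carrier := {y | ∃ u μ, π u = inl s ((xx s ^ (p + j)) μ) ∧ y = ⁅t, u⁆}
      mul_mem' := by
        rintro _ _ ⟨u, μ, h1, rfl⟩ ⟨u', ν, h2, rfl⟩
        exact ⟨u * u', μ + ν, by rw [map_mul, h1, h2, map_add, inl_add],
          (Xmul u u' _ _ (hsplit j μ ▸ h1) h2).symm⟩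
      one_mem' := ⟨1, 0, by simp [inl_zero], by simp⟩
      inv_mem' := by
        rintro _ ⟨u, μ, h1, rfl⟩
        exact ⟨u⁻¹, -μ, by rw [map_inv, h1, map_neg, inl_neg],
          (map_inv Xh ⟨u, _, hsplit j μ ▸ h1⟩).symm⟩ }
  have hπ : ∀ n v, v ∈ (⊤ : Subgroup E).lowerCentralSeries (n + 1) →
      ∃ μ, π v = inl s ((xx s ^ n) μ) := by
    intro n v hv
    refine lcs_pow s n _ ?_
    have := Subgroup.mem_map_of_mem π hv
    rwa [Subgroup.map_lowerCentralSeries, Subgroup.map_top_of_surjective π hs] at this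
  have hle : ∀ j, (⊤ : Subgroup E).lowerCentralSeries (p + j + 1 + 1 + 1) ≤ XV j := by
    intro j
    rw [Subgroup.lowerCentralSeries_succ, Subgroup.commutator_le]
    intro v hv h _
    obtain ⟨μ, hμ⟩ := hπ _ v hv
    have h1 := pX _ _ (hσ ((xx s ^ (p + j)) μ))
    rw [← Module.End.mul_apply, ← pow_succ', ← hμ] at h1
    rw [cL v _ h h1.symm, commutatorElement_def, mul_assoc, mul_assoc]
    refine (XV j).mul_mem ⟨_, μ, hσ _, rfl⟩ ?_
    have h2 : h * ((⁅t, σ ((xx s ^ (p + j)) μ)⁆)⁻¹ * h⁻¹) =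
        (h * ⁅t, σ ((xx s ^ (p + j)) μ)⁆ * h⁻¹)⁻¹ := by group
    rw [h2, ← Xconj h _ _ ((hσ _).trans (congrArg _ (hsplit j μ)))]
    exact (XV j).inv_mem ⟨_, _, by rw [pconj h _ _ (hσ _), ← xx_pow_rho], rfl⟩
  have hg1 : π g = 1 := by
    obtain ⟨ν, hν⟩ := hπ 0 g (hg _)
    simp only [pow_zero, Module.End.one_apply] at hν
    have h0 : ∀ i j, ∃ u : UU, ν i = CC (s + i) j • u := by
      intro i j
      obtain ⟨μ, hμ⟩ := hπ j g (hg _)
      rw [hν] at hμ
      exact ⟨_, by rw [inl_inj s hμ, xx_pow]⟩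
    have : ν = 0 := by
      ext i n
      · refine int_zero (s + i) _ fun j => ?_
        obtain ⟨u, hu⟩ := h0 i j
        exact ⟨u.1, by rw [hu]; rfl⟩
      · refine int_zero (s + i) _ fun j => ?_
        obtain ⟨u, hu⟩ := h0 i j
        exact ⟨u.2 n, by rw [hu]; rfl⟩
    rw [hν, this, inl_zero]
  let e0 : MM := (xx s ^ p) (Finsupp.single p (1, 0))
  have he0 : e0 = CC s p • Finsupp.single 0 (1, 0) := by
    simpa using xx_pow_single s p 0 (1, 0)
  have hz : π ⁅t, σ e0⁆ = 1 := by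
    rw [pX _ _ (hσ e0), ← Module.End.mul_apply, ← pow_succ',
      xx_pow_single_lt s _ _ _ (Nat.lt_succ_self p), inl_zero]
  refine cyc g ⁅t, σ e0⁆ (s + p) fun j => ?_
  obtain ⟨u, μ, h1, h2⟩ := hle j (hg _)
  have h3 : (xx s ^ (p + j + 1)) μ = 0 := by
    apply inl_inj s
    rw [pow_succ', Module.End.mul_apply, ← pX u _ h1, ← h2, hg1, inl_zero]
  have h4 : ∀ i, μ (i + (p + j + 1)) = 0 := by
    intro i
    have := congrArg (fun z : MM => z i) h3
    simp only [xx_pow, Finsupp.zero_apply] at this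
    exact (smul_eq_zero.mp this).resolve_left (CC_ne _ _)
  obtain ⟨h, hh⟩ := hs ⟨0, 0, CC (s + p) j • (μ (p + j)).2⟩
  refine ⟨(μ (p + j)).1, ?_⟩
  have h5 := pconj h _ _ (hσ e0)
  have h6 : π u = π (σ e0 ^ (CC (s + p) j * (μ (p + j)).1) * ((h * σ e0 * h⁻¹) * (σ e0)⁻¹)) := by
    rw [map_mul, map_mul, h5, map_zpow, map_inv, hσ, ← inl_zsmul, ← inl_neg, ← inl_add,
      ← inl_add, h1, hh, he0]
    congr 1
    ext i : 1
    simp only [rho, zpow_zero, one_mul, xx_pow, Finsupp.add_apply, Finsupp.smul_apply,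
      Finsupp.neg_apply, HH_apply, Finsupp.single_apply]
    rcases Nat.eq_zero_or_pos i with rfl | hi
    · simp only [add_zero, zero_add, CC_add, if_true]
      ext
      · simp; ring
      · simp; ring
    · obtain ⟨i, rfl⟩ : ∃ i', i = i' + 1 := ⟨i - 1, by omega⟩
      rw [show i + 1 + (p + j) = i + (p + j + 1) by ring, h4, if_neg (by omega)]
      simp
      rfl
  have m0 : σ e0 ∈ V := ⟨_, hσ e0⟩
  have m1 : h * σ e0 * h⁻¹ ∈ V := ⟨_, by rw [h5, ← xx_pow_rho]⟩
  have h7 := map_mul Xh (⟨_, m0⟩ ^ (CC (s + p) j * (μ (p + j)).1)) (⟨_, m1⟩ * ⟨_, m0⟩⁻¹)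
  rw [map_zpow, map_mul Xh ⟨_, m1⟩, map_inv] at h7
  have h8 : Xh ⟨_, m1⟩ = Xh ⟨_, m0⟩ := by
    show ⁅t, h * σ e0 * h⁻¹⁆ = ⁅t, σ e0⁆
    rw [Xconj h _ _ (hσ e0), ← (hc _ hz h).eq]; group
  rw [h8, mul_inv_cancel, mul_one] at h7
  rw [h2, cR u _ t h6]
  exact h7

end Pool.Agent.H33.RN
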