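import Pool.Agent.H33.RN2

set_option autoImplicit false
open Finset
open scoped commutatorElement

namespace Pool.Agent.H33.RN

theorem res_all (s : ℕ) {E : Type} [Group E] (π : E →* Gam s)
    (hs : Function.Surjective π) (hk : π.ker ≤ Subgroup.center E)
    (g : E) (hg : ∀ n, g ∈ (⊤ : Subgroup E).lowerCentralSeries n) : g = 1 := by
  have hc : ∀ a, π a = 1 → ∀ g, Commute a g := fun a ha g =>
    (Subgroup.mem_center_iff.mp (hk ha) g).symm
  have key : ∀ p : ℕ, p.Prime → ∃ k : ℤ, ¬ (p : ℤ) ∣ k ∧ g ^ k = 1 := by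
    intro p hp
    have hp' := Nat.prime_iff_prime_int.mp hp
    let A : Subgroup E :=
      { carrier := {a | π a = 1 ∧ ∃ k : ℤ, ¬ (p : ℤ) ∣ k ∧ a ^ k = 1}
        mul_mem' := by
          rintro a b ⟨a1, k, a2, a3⟩ ⟨b1, l, b2, b3⟩
          refine ⟨by rw [map_mul, a1, b1, mul_one], k * l,
            fun h => (hp'.dvd_or_dvd h).elim a2 b2, ?_⟩
          rw [(hc a a1 b).mul_zpow, zpow_mul, a3, mul_comm k l, zpow_mul, b3]
          simp
        one_mem' := ⟨map_one π, 1, hp'.not_dvd_one, by simp⟩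
        inv_mem' := by
          rintro a ⟨a1, k, a2, a3⟩
          exact ⟨by rw [map_inv, a1, inv_one], k, a2, by rw [inv_zpow, a3, inv_one]⟩ }
    have hA : A.Normal := ⟨fun a ha g => by
      rw [← (hc a ha.1 g).eq, mul_inv_cancel_right]; exact ha⟩
    have := local_res s p hp (QuotientGroup.lift A π (fun a ha => ha.1))
      (fun y => by obtain ⟨x, rfl⟩ := hs y; exact ⟨x, rfl⟩)
      (fun a ha b => by
        obtain ⟨a, rfl⟩ := QuotientGroup.mk_surjective a
        obtain ⟨b, rfl⟩ := QuotientGroup.mk_surjective b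
        exact (hc a ha b).map (QuotientGroup.mk' A))
      (fun k a ha hk h => by
        obtain ⟨a, rfl⟩ := QuotientGroup.mk_surjective a
        rw [← QuotientGroup.mk_zpow, QuotientGroup.eq_one_iff] at h
        obtain ⟨-, l, l1, l2⟩ := h
        rw [QuotientGroup.eq_one_iff]
        exact ⟨ha, k * l, fun h => (hp'.dvd_or_dvd h).elim hk l1, by rw [zpow_mul, l2]⟩)
      (g : E ⧸ A) (fun n => by
        have := Subgroup.mem_map_of_mem (QuotientGroup.mk' A) (hg n)
        rwa [Subgroup.map_lowerCentralSeries,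
          Subgroup.map_top_of_surjective _ (QuotientGroup.mk'_surjective A)] at this)
    exact ((QuotientGroup.eq_one_iff g).mp this).2
  by_contra hne
  obtain ⟨p, hp, hd⟩ := Nat.exists_prime_and_dvd (mt orderOf_eq_one_iff.mp hne)
  obtain ⟨k, k1, k2⟩ := key p hp
  exact k1 ((Int.natCast_dvd_natCast.mpr hd).trans (orderOf_dvd_iff_zpow_eq_one.mpr k2))

theorem part1 (E : Type) (hE : Group E) (f : E →* Gam 1) (hs : Function.Surjective f)
    (hk : f.ker ≤ Subgroup.center E) (g : E) (hg : g ≠ 1) :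
    ∃ (H : Type) (_ : Group H) (φ : E →* H), Group.IsNilpotent H ∧ φ g ≠ 1 := by
  have := mt (res_all 1 f hs hk g) hg
  push Not at this
  obtain ⟨n, hn⟩ := this
  refine ⟨E ⧸ (⊤ : Subgroup E).lowerCentralSeries n, inferInstance, QuotientGroup.mk' _, ?_, ?_⟩
  · rw [Subgroup.nilpotent_iff_lowerCentralSeries]
    refine ⟨n, ?_⟩
    rw [← Subgroup.map_top_of_surjective _ (QuotientGroup.mk'_surjective _),
      ← Subgroup.map_lowerCentralSeries, Subgroup.map_eq_bot_iff, QuotientGroup.ker_mk']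
  · rwa [Ne, QuotientGroup.mk'_apply, QuotientGroup.eq_one_iff]

noncomputable def tau : Gam 0 →* Gam 1 :=
  MonoidHom.mk' (fun a => ⟨tl a.m, a.k, a.d⟩) (fun a b => by ext1 <;> simp [tl_rho])

lemma tau_surj : Function.Surjective tau := by
  intro g
  refine ⟨⟨Finsupp.mapDomain Nat.succ g.m, g.k, g.d⟩, ?_⟩
  ext1
  · ext i : 1
    show tl _ i = _
    rw [tl_apply]
    exact Finsupp.mapDomain_apply Nat.succ_injective _ _
  · rfl
  · rfl

lemma rho_single (k : ℤ) (d : DD) (u : UU) :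
    rho 0 k d (Finsupp.single 0 u) = Finsupp.single 0 u + Finsupp.single 0 (0, u.1 • d) := by
  have h1 : ∀ v : UU, (TT 0 ^ k) (Finsupp.single 0 v) = Finsupp.single 0 v := by
    intro v
    have : TT 0 ∈ MulAction.stabilizer (MM ≃ₗ[ℤ] MM) (Finsupp.single 0 v) := by
      rw [MulAction.mem_stabilizer_iff]
      show TT 0 _ = _
      have := xx_pow_single_lt 0 1 0 v (by omega)
      rw [pow_one] at this
      rw [TT_apply, this, add_zero]
    exact MulAction.mem_stabilizer_iff.mp (zpow_mem this k)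
  have h2 : HH d (Finsupp.single 0 u) = Finsupp.single 0 (u + (0, u.1 • d)) := by
    ext i : 1
    rw [HH_apply, Finsupp.single_apply, Finsupp.single_apply]
    split_ifs
    · ext <;> simp
    · simp
  rw [rho, LinearEquiv.mul_apply, h2, h1, Finsupp.single_add]

def KK (S : AddSubgroup DD) : Subgroup (Gam 0) where
  carrier := {g | ∃ δ ∈ S, g = inl 0 (Finsupp.single 0 (0, δ))}
  mul_mem' := by
    rintro _ _ ⟨δ, h1, rfl⟩ ⟨δ', h2, rfl⟩
    exact ⟨δ + δ', S.add_mem h1 h2, by rw [← inl_add, ← Finsupp.single_add]; simp⟩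
  one_mem' := ⟨0, S.zero_mem, by rw [← inl_zero]; congr 1; exact Finsupp.single_zero _ |>.symm⟩
  inv_mem' := by
    rintro _ ⟨δ, h1, rfl⟩
    exact ⟨-δ, S.neg_mem h1, by rw [← inl_neg, ← Finsupp.single_neg]; simp⟩

lemma KK_cen (δ : DD) (g : Gam 0) :
    g * inl 0 (Finsupp.single 0 (0, δ)) * g⁻¹ = inl 0 (Finsupp.single 0 (0, δ)) := by
  rw [conj_inl, rho_single]
  simp only [zero_smul]
  rw [show ((0, 0) : UU) = 0 from rfl, Finsupp.single_zero, add_zero]

instance (S : AddSubgroup DD) : (KK S).Normal := ⟨by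
  rintro _ ⟨δ, h1, rfl⟩ g
  rw [KK_cen]
  exact ⟨δ, h1, rfl⟩⟩

def fin0 : AddSubgroup DD where
  carrier := {δ | ∃ N, ∀ n, N ≤ n → δ n = 0}
  add_mem' := by
    rintro a b ⟨N, h1⟩ ⟨N', h2⟩
    exact ⟨max N N', fun n hn => by
      simp [h1 n (le_of_max_le_left hn), h2 n (le_of_max_le_right hn)]⟩
  zero_mem' := ⟨0, fun _ _ => rfl⟩
  neg_mem' := by
    rintro a ⟨N, h1⟩
    exact ⟨N, fun n hn => by simp [h1 n hn]⟩

noncomputable def f1 : Gam 0 ⧸ KK ⊤ →* Gam 1 :=
  QuotientGroup.lift (KK ⊤) tau (by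
    rintro _ ⟨δ, -, rfl⟩
    rw [MonoidHom.mem_ker]
    ext1
    · ext i : 1
      show tl _ i = _
      rw [tl_apply]
      simp
    · rfl
    · rfl)

noncomputable def f2 : Gam 0 ⧸ KK fin0 →* Gam 0 ⧸ KK ⊤ :=
  QuotientGroup.map (KK fin0) (KK ⊤) (MonoidHom.id _) (by
    rintro _ ⟨δ, -, rfl⟩
    exact ⟨δ, trivial, rfl⟩)

lemma f1_surj : Function.Surjective f1 := fun y => by
  obtain ⟨x, rfl⟩ := tau_surj y; exact ⟨x, rfl⟩

lemma f2_surj : Function.Surjective f2 := fun y => by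
  obtain ⟨x, rfl⟩ := QuotientGroup.mk_surjective y; exact ⟨x, rfl⟩

lemma f1_cen : f1.ker ≤ Subgroup.center _ := by
  intro a ha
  obtain ⟨a, rfl⟩ := QuotientGroup.mk_surjective a
  have h0 : tau a = 1 := ha
  have h1 : a = inl 0 (Finsupp.single 0 (a.m 0)) := by
    ext1
    · ext i : 1
      rcases Nat.eq_zero_or_pos i with rfl | hi
      · simp
      · obtain ⟨i, rfl⟩ : ∃ i', i = i' + 1 := ⟨i - 1, by omega⟩
        have := congrArg (fun z : Gam 1 => z.m i) h0
        have h2 : (tau a).m i = a.m (i + 1) := tl_apply _ _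
        simp only [h2] at this
        simp [this]
    · exact (congrArg (fun z : Gam 1 => z.k) h0 :)
    · exact (congrArg (fun z : Gam 1 => z.d) h0 :)
  rw [Subgroup.mem_center_iff]
  intro b
  obtain ⟨b, rfl⟩ := QuotientGroup.mk_surjective b
  rw [← mul_inv_eq_iff_eq_mul, ← QuotientGroup.mk_mul, ← QuotientGroup.mk_inv,
    ← QuotientGroup.mk_mul, eq_comm, QuotientGroup.eq, h1, conj_inl, rho_single, inl_add]
  rw [inv_mul_cancel_left]
  exact ⟨_, trivial, rfl⟩

lemma f2_cen : f2.ker ≤ Subgroup.center _ := by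
  intro a ha
  obtain ⟨a, rfl⟩ := QuotientGroup.mk_surjective a
  have h0 : a ∈ KK ⊤ := (QuotientGroup.eq_one_iff a).mp ha
  obtain ⟨δ, -, rfl⟩ := h0
  rw [Subgroup.mem_center_iff]
  intro b
  obtain ⟨b, rfl⟩ := QuotientGroup.mk_surjective b
  rw [← mul_inv_eq_iff_eq_mul, ← QuotientGroup.mk_mul, ← QuotientGroup.mk_inv,
    ← QuotientGroup.mk_mul, KK_cen]

lemma pow_mem (n : ℕ) (μ : MM) :
    inl 0 ((xx 0 ^ n) μ) ∈ (⊤ : Subgroup (Gam 0)).lowerCentralSeries n := by
  induction n with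
  | zero => trivial
  | succ n ih =>
    have h1 := Subgroup.commutator_mem_commutator ih (Subgroup.mem_top (⟨0, 1, 0⟩ : Gam 0))
    rw [← Subgroup.lowerCentralSeries_succ, comm_eq] at h1
    have h2 := Subgroup.inv_mem _ h1
    rw [← inl_neg] at h2
    convert h2 using 2
    simp [rho, HH_zero, TT_apply, pow_succ']

noncomputable def ww : Gam 0 ⧸ KK fin0 :=
  (inl 0 (Finsupp.single 0 (0, fun n => CC 0 n)) : Gam 0)

lemma ww_ne : ww ≠ 1 := by
  intro h
  obtain ⟨δ, ⟨N, hN⟩, h1⟩ := (QuotientGroup.eq_one_iff _).mp h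
  have h2 := congrArg (fun z : Gam 0 => (z.m 0).2 N) h1
  simp only [inl_m, Finsupp.single_eq_same, hN N le_rfl] at h2
  exact CC_ne _ _ h2

lemma ww_kill (H : Type) (hH : Group H) (φ : Gam 0 ⧸ KK fin0 →* H) (hn : Group.IsNilpotent H) :
    φ ww = 1 := by
  obtain ⟨n, hn⟩ := Subgroup.nilpotent_iff_lowerCentralSeries.mp hn
  have h1 := pow_mem n (Finsupp.single (0 + n) (0, fun m => CC n (m - n)))
  rw [xx_pow_single] at h1
  have h2 : ww = (inl 0 (CC (0 + 0) n • Finsupp.single 0 (0, fun m => CC n (m - n))) : Gam 0) := by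
    rw [ww, QuotientGroup.eq, ← inl_neg, ← inl_add]
    refine ⟨fun m => CC 0 n * CC n (m - n) - CC 0 m, ⟨n, fun m hm => ?_⟩, ?_⟩
    · have := CC_add 0 n (m - n)
      rw [show n + (m - n) = m by omega, zero_add] at this
      simp [this]
    · congr 1
      rw [Finsupp.smul_single, ← Finsupp.single_neg, ← Finsupp.single_add]
      congr 1
      ext
      · simp
      · simp; ring
  have h3 := Subgroup.mem_map_of_mem (φ.comp (QuotientGroup.mk' _)) h1
  rw [Subgroup.map_lowerCentralSeries] at h3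
  have h4 := Subgroup.lowerCentralSeries_mono n (le_top (a := Subgroup.map
    (φ.comp (QuotientGroup.mk' (KK fin0))) ⊤)) h3
  simp only [hn, Subgroup.mem_bot] at h4
  rw [h2]
  exact h4

end Pool.Agent.H33.RN
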