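import Mathlib

set_option autoImplicit false

namespace Pool.Agent.H33.ROrd

open Finset

def Good (A : Set ℕ) (s X : ℕ) (T : Finset ℕ) (ρ : ℕ → Finset ℕ) : Prop :=
  ∀ t ∈ T, t ≤ X ∧ (↑(ρ t) : Set ℕ) ⊆ A ∧ (ρ t).card ≤ s ∧ ∑ x ∈ ρ t, x = t

def dg (T : Finset ℕ) (ρ : ℕ → Finset ℕ) (x : ℕ) : ℕ := (T.filter fun t => x ∈ ρ t).card

def Rep (A : Set ℕ) (c : ℕ) (Φ : Finset ℕ) (v : ℕ) : Prop :=
  ∃ F : Finset ℕ, (↑F : Set ℕ) ⊆ A ∧ F.card ≤ c ∧ Disjoint F Φ ∧ ∑ x ∈ F, x = v

lemma kernel (g : ℕ → ℕ) (s : ℕ) : ∀ a, ∃ b, ∀ A X T ρ, Good A s X T ρ → X ≤ a * T.card →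
    ∃ a' ≤ b, ∃ T' ρ', Good A s X T' ρ' ∧ X ≤ a' * T'.card ∧ ∀ x, g a' * dg T' ρ' x ≤ T'.card := by
  induction s with
  | zero =>
    refine fun a => ⟨a, fun A X T ρ hG hX => ⟨a, le_rfl, T, ρ, hG, hX, fun x => ?_⟩⟩
    have : dg T ρ x = 0 := by
      rw [dg, card_eq_zero, filter_eq_empty_iff]
      intro t ht
      rw [card_eq_zero.1 (Nat.le_zero.1 (hG t ht).2.2.1)]
      simp
    simp [this]
  | succ s ih =>
    intro a
    obtain ⟨b, hb⟩ := ih (a * g a)
    refine ⟨max a b, fun A X T ρ hG hX => ?_⟩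
    by_cases h : ∀ x, g a * dg T ρ x ≤ T.card
    · exact ⟨a, le_max_left _ _, T, ρ, hG, hX, h⟩
    push Not at h
    obtain ⟨x, hx⟩ := h
    have hle : ∀ t ∈ T, x ∈ ρ t → x ≤ t := fun t ht h =>
      (single_le_sum (f := fun y => y) (fun _ _ => Nat.zero_le _) h).trans (hG t ht).2.2.2.le
    have hc : ((T.filter fun t => x ∈ ρ t).image fun t => t - x).card = dg T ρ x := by
      refine card_image_of_injOn fun t ht t' ht' e => ?_
      have h1 := mem_filter.1 (mem_coe.1 ht)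
      have h2 := mem_filter.1 (mem_coe.1 ht')
      have := hle t h1.1 h1.2
      have := hle t' h2.1 h2.2
      have e : t - x = t' - x := e
      omega
    obtain ⟨a', h1, T', ρ', h2, h3, h4⟩ := hb A X ((T.filter fun t => x ∈ ρ t).image fun t => t - x)
      (fun t => (ρ (t + x)).erase x) (by
        intro t' ht'
        obtain ⟨t, ht, rfl⟩ := mem_image.1 ht'
        obtain ⟨ht, hxt⟩ := mem_filter.1 ht
        obtain ⟨k1, k2, k3, k4⟩ := hG t ht
        have := hle t ht hxt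
        simp only [Nat.sub_add_cancel this]
        refine ⟨by omega, (coe_subset.2 (erase_subset _ _)).trans k2, ?_, ?_⟩
        · rw [card_erase_of_mem hxt]; omega
        · have := add_sum_erase (ρ t) (fun y => y) hxt
          omega) (by rw [hc, mul_assoc]; exact hX.trans (Nat.mul_le_mul_left _ hx.le))
    exact ⟨a', h1.trans (le_max_right _ _), T', ρ', fun t ht =>
      ⟨(h2 t ht).1, (h2 t ht).2.1, (h2 t ht).2.2.1.trans (Nat.le_succ _), (h2 t ht).2.2.2⟩, h3, h4⟩

lemma dense (A : Set ℕ) (h n0 X : ℕ)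
    (hA : ∀ n ≥ n0, ∃ m : Multiset ℕ, m.card ≤ h ∧ (∀ x ∈ m, x ∈ A) ∧ m.sum = n)
    (hX : 2 * n0 ≤ X) : ∃ T ρ, Good A h X T ρ ∧ X ≤ 2 * (h + 1) ^ h * T.card := by
  classical
  let E : ℕ → ℕ → Finset ℕ := fun j k => (range (X + 1)).filter fun n =>
    ∃ m : Multiset ℕ, m.card ≤ j ∧ (∀ x ∈ m, x ∈ A) ∧ m.sum = n ∧ m.card ≤ m.toFinset.card + k
  have step : ∀ k, (E h (k + 1)).card ≤ (h + 1) * (E h k).card := by
    intro k
    have : ∀ x, ∃ m : Multiset ℕ, x ∈ E (h - 1) k → m.card ≤ h - 1 ∧ (∀ x ∈ m, x ∈ A) ∧ m.sum = x ∧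
        m.card ≤ m.toFinset.card + k := fun x => by
      by_cases hx : x ∈ E (h - 1) k
      · obtain ⟨m, hm⟩ := (mem_filter.1 hx).2
        exact ⟨m, fun _ => hm⟩
      · exact ⟨0, fun h => absurd h hx⟩
    choose μ hμ using this
    have sub : E h (k + 1) ⊆ E h k ∪ (E (h - 1) k).biUnion fun x => (μ x).toFinset.image (x + ·) := by
      intro n hn
      obtain ⟨hn, m, h1, h2, h3, h4⟩ := mem_filter.1 hn
      by_cases hk : m.card ≤ m.toFinset.card + k
      · exact mem_union_left _ (mem_filter.2 ⟨hn, m, h1, h2, h3, hk⟩)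
      have hnd : ¬ m.Nodup := fun hd => by
        have := Multiset.toFinset_card_of_nodup hd
        omega
      rw [Multiset.nodup_iff_count_le_one] at hnd
      push Not at hnd
      obtain ⟨a, ha⟩ := hnd
      have ham : a ∈ m := Multiset.count_pos.1 (by omega)
      obtain ⟨m', rfl⟩ := Multiset.exists_cons_of_mem ham
      have ham' : a ∈ m' := Multiset.count_pos.1 (by rw [Multiset.count_cons_self] at ha; omega)
      rw [Multiset.toFinset_cons, insert_eq_of_mem (Multiset.mem_toFinset.2 ham')] at h4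
      rw [Multiset.card_cons] at h1 h4
      rw [Multiset.sum_cons] at h3
      have hx : m'.sum ∈ E (h - 1) k := mem_filter.2 ⟨by rw [mem_range] at hn ⊢; omega, m',
        by omega, fun x hx => h2 x (Multiset.mem_cons_of_mem hx), rfl, by omega⟩
      obtain ⟨k1, k2, k3, k4⟩ := hμ _ hx
      by_cases hb : a ∈ μ m'.sum
      · exact mem_union_right _ (mem_biUnion.2 ⟨_, hx, mem_image.2
          ⟨a, Multiset.mem_toFinset.2 hb, by omega⟩⟩)
      · refine mem_union_left _ (mem_filter.2 ⟨hn, a ::ₘ μ m'.sum, ?_, ?_, ?_, ?_⟩)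
        · rw [Multiset.card_cons]; omega
        · intro x hx
          rcases Multiset.mem_cons.1 hx with rfl | hx
          · exact h2 _ ham
          · exact k2 x hx
        · rw [Multiset.sum_cons, k3, h3]
        · rw [Multiset.toFinset_cons, card_insert_of_notMem (mt Multiset.mem_toFinset.1 hb),
            Multiset.card_cons]
          omega
    have c1 : (E (h - 1) k).card ≤ (E h k).card := card_le_card fun n hn => by
      obtain ⟨hn, m, h1, h2⟩ := mem_filter.1 hn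
      exact mem_filter.2 ⟨hn, m, by omega, h2⟩
    have c2 : ((E (h - 1) k).biUnion fun x => (μ x).toFinset.image (x + ·)).card ≤
        (E (h - 1) k).card * h := card_biUnion_le_card_mul _ _ _ fun x hx =>
      card_image_le.trans ((Multiset.toFinset_card_le _).trans ((hμ x hx).1.trans (Nat.sub_le _ _)))
    have := (card_le_card sub).trans (card_union_le _ _)
    nlinarith
  have all : ∀ k, (E h k).card ≤ (h + 1) ^ k * (E h 0).card := by
    intro k
    induction k with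
    | zero => simp
    | succ k ih =>
      refine (step k).trans ?_
      rw [pow_succ', mul_assoc]
      exact Nat.mul_le_mul_left _ ih
  have top : Icc n0 X ⊆ E h h := fun n hn => by
    obtain ⟨m, h1, h2, h3⟩ := hA n (mem_Icc.1 hn).1
    exact mem_filter.2 ⟨mem_range.2 (Nat.lt_succ_of_le (mem_Icc.1 hn).2), m, h1, h2, h3, by omega⟩
  have c := (card_le_card top).trans (all h)
  rw [Nat.card_Icc] at c
  have : ∀ n, ∃ F : Finset ℕ, n ∈ E h 0 → n ≤ X ∧ (↑F : Set ℕ) ⊆ A ∧ F.card ≤ h ∧ ∑ x ∈ F, x = n := by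
    intro n
    by_cases hn : n ∈ E h 0
    · obtain ⟨hn, m, h1, h2, h3, h4⟩ := mem_filter.1 hn
      have hd : m.Nodup := Multiset.toFinset_card_eq_card_iff_nodup.1
        (le_antisymm (Multiset.toFinset_card_le _) h4)
      refine ⟨⟨m, hd⟩, fun _ => ⟨Nat.lt_succ_iff.1 (mem_range.1 hn), fun x hx => h2 x hx, h1, ?_⟩⟩
      simpa [Finset.sum] using h3
    · exact ⟨∅, fun h => absurd h hn⟩
  choose ρ hρ using this
  refine ⟨E h 0, ρ, hρ, ?_⟩
  rw [mul_assoc]
  omega

lemma hit_le (T : Finset ℕ) (ρ : ℕ → Finset ℕ) (Φ : Finset ℕ) :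
    (T.filter fun t => ¬ Disjoint (ρ t) Φ).card ≤ ∑ x ∈ Φ, dg T ρ x := by
  refine (card_le_card fun t ht => ?_).trans (card_biUnion_le (s := Φ)
    (t := fun x => T.filter fun t => x ∈ ρ t))
  obtain ⟨h1, h2⟩ := mem_filter.1 ht
  obtain ⟨x, h3, h4⟩ := not_disjoint_iff.1 h2
  exact mem_biUnion.2 ⟨x, h4, mem_filter.2 ⟨h1, h3⟩⟩

lemma sum_dg {A : Set ℕ} {h X : ℕ} {T : Finset ℕ} {ρ : ℕ → Finset ℕ} (hG : Good A h X T ρ)
    (P : Finset ℕ) : ∑ x ∈ P, dg T ρ x ≤ h * T.card := by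
  simp only [dg, card_filter]
  rw [sum_comm, mul_comm]
  refine sum_le_card_nsmul _ _ _ fun t ht => ?_
  rw [← card_filter]
  exact (card_le_card fun x hx => (mem_filter.1 hx).2).trans (hG t ht).2.2.1

lemma robust {A : Set ℕ} {h X a D : ℕ} {T : Finset ℕ} {ρ : ℕ → Finset ℕ} (hG : Good A h X T ρ)
    (hX : 1 ≤ X) (ha : X ≤ a * T.card) (hD : ∀ x, dg T ρ x ≤ D) (hD2 : 2 * (h * D) ≤ T.card) :
    ∃ S : Finset ℕ, (∀ s ∈ S, s ≤ 2 * X) ∧ T.card ≤ 4 * S.card ∧
      ∀ s ∈ S, ∀ Φ : Finset ℕ, 24 * a * ∑ x ∈ Φ, dg T ρ x < T.card → Rep A (2 * h) Φ s := by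
  let Q : Finset (ℕ × ℕ) := (T ×ˢ T).filter fun p => Disjoint (ρ p.2) (ρ p.1)
  let r : ℕ → ℕ := fun s => (Q.filter fun p => p.1 + p.2 = s).card
  have q1 : T.card * T.card ≤ 2 * Q.card := by
    have e : Q.card = ∑ t ∈ T, (T.filter fun t' => Disjoint (ρ t') (ρ t)).card := by
      simp only [Q, card_filter, sum_product]
    rw [e, mul_sum]
    refine card_nsmul_le_sum T _ T.card fun t ht => ?_
    have h1 := hit_le T ρ (ρ t)
    have h2 : ∑ x ∈ ρ t, dg T ρ x ≤ h * D :=
      (sum_le_card_nsmul _ _ _ fun x _ => hD x).trans (Nat.mul_le_mul_right _ (hG t ht).2.2.1)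
    have h3 := card_filter_add_card_filter_not (s := T) fun t' => Disjoint (ρ t') (ρ t)
    omega
  have q2 : Q.card = ∑ s ∈ range (2 * X + 1), r s := by
    refine card_eq_sum_card_fiberwise fun p hp => ?_
    obtain ⟨h1, h2⟩ := mem_product.1 (mem_filter.1 (mem_coe.1 hp)).1
    have := (hG _ h1).1
    have := (hG _ h2).1
    simp only [coe_range, Set.mem_Iio]
    omega
  have inj1 : ∀ s, Set.InjOn Prod.fst (↑(Q.filter fun p => p.1 + p.2 = s) : Set (ℕ × ℕ)) := by
    intro s p hp q hq e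
    have h1 := (mem_filter.1 (mem_coe.1 hp)).2
    have h2 := (mem_filter.1 (mem_coe.1 hq)).2
    exact Prod.ext e (by omega)
  have inj2 : ∀ s, Set.InjOn Prod.snd (↑(Q.filter fun p => p.1 + p.2 = s) : Set (ℕ × ℕ)) := by
    intro s p hp q hq e
    have h1 := (mem_filter.1 (mem_coe.1 hp)).2
    have h2 := (mem_filter.1 (mem_coe.1 hq)).2
    exact Prod.ext (by omega) e
  have q3 : ∀ s, r s ≤ T.card := fun s => card_le_card_of_injOn Prod.fst
    (fun p hp => (mem_product.1 (mem_filter.1 (mem_filter.1 (mem_coe.1 hp)).1).1).1) (inj1 s)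
  have ha0 : 0 < a := Nat.pos_of_ne_zero fun e => by rw [e] at ha; omega
  have hT0 : 0 < T.card := Nat.pos_of_ne_zero fun e => by rw [e] at ha; omega
  refine ⟨(range (2 * X + 1)).filter fun s => T.card ≤ 12 * a * r s, fun s hs => ?_, ?_, ?_⟩
  · exact Nat.lt_succ_iff.1 (mem_range.1 (mem_filter.1 hs).1)
  · have e := sum_filter_add_sum_filter_not (range (2 * X + 1)) (fun s => T.card ≤ 12 * a * r s) r
    have h1 : ∑ s ∈ (range (2 * X + 1)).filter (fun s => T.card ≤ 12 * a * r s), r s ≤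
        ((range (2 * X + 1)).filter fun s => T.card ≤ 12 * a * r s).card * T.card :=
      sum_le_card_nsmul _ _ _ fun s _ => q3 s
    have h2 : 12 * a * ∑ s ∈ (range (2 * X + 1)).filter (fun s => ¬ T.card ≤ 12 * a * r s), r s ≤
        (2 * X + 1) * T.card := by
      rw [mul_sum]
      refine (sum_le_card_nsmul _ _ T.card fun s hs => (not_le.1 (mem_filter.1 hs).2).le).trans ?_
      exact Nat.mul_le_mul_right _ ((card_filter_le _ _).trans (card_range _).le)
    rw [← q2] at e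
    generalize ∑ s ∈ (range (2 * X + 1)).filter (fun s => ¬ T.card ≤ 12 * a * r s), r s = y at e h2
    have h3 : a * (4 * y) ≤ a * (T.card * T.card) := by nlinarith
    have h4 := Nat.le_of_mul_le_mul_left h3 ha0
    refine Nat.le_of_mul_le_mul_right (c := T.card) ?_ hT0
    rw [mul_assoc]
    omega
  · intro s hs Φ hΦ
    have hs := (mem_filter.1 hs).2
    have h1 := hit_le T ρ Φ
    by_contra hc
    have sub : (Q.filter fun p => p.1 + p.2 = s) ⊆
        ((Q.filter fun p => p.1 + p.2 = s).filter fun p => ¬ Disjoint (ρ p.1) Φ) ∪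
        ((Q.filter fun p => p.1 + p.2 = s).filter fun p => ¬ Disjoint (ρ p.2) Φ) := by
      intro p hp
      by_contra hn
      simp only [mem_union, mem_filter (s := Q.filter fun p => p.1 + p.2 = s), hp, true_and,
        not_or, not_not] at hn
      obtain ⟨k1, k2⟩ := mem_filter.1 hp
      obtain ⟨k3, k4⟩ := mem_filter.1 k1
      obtain ⟨k5, k6⟩ := mem_product.1 k3
      obtain ⟨-, a1, a2, a3⟩ := hG _ k5
      obtain ⟨-, b1, b2, b3⟩ := hG _ k6
      refine hc ⟨ρ p.2 ∪ ρ p.1, ?_, (card_union_le _ _).trans (by omega),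
        disjoint_union_left.2 ⟨hn.2, hn.1⟩, by rw [sum_union k4]; omega⟩
      rw [coe_union]
      exact Set.union_subset b1 a1
    have c1 : ((Q.filter fun p => p.1 + p.2 = s).filter fun p => ¬ Disjoint (ρ p.1) Φ).card ≤
        (T.filter fun t => ¬ Disjoint (ρ t) Φ).card := card_le_card_of_injOn Prod.fst
      (fun p hp => by
        obtain ⟨k1, k2⟩ := mem_filter.1 (mem_coe.1 hp)
        exact mem_coe.2 (mem_filter.2 ⟨(mem_product.1 (mem_filter.1 (mem_filter.1 k1).1).1).1, k2⟩))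
      ((inj1 s).mono (coe_subset.2 (filter_subset _ _)))
    have c2 : ((Q.filter fun p => p.1 + p.2 = s).filter fun p => ¬ Disjoint (ρ p.2) Φ).card ≤
        (T.filter fun t => ¬ Disjoint (ρ t) Φ).card := card_le_card_of_injOn Prod.snd
      (fun p hp => by
        obtain ⟨k1, k2⟩ := mem_filter.1 (mem_coe.1 hp)
        exact mem_coe.2 (mem_filter.2 ⟨(mem_product.1 (mem_filter.1 (mem_filter.1 k1).1).1).2, k2⟩))
      ((inj2 s).mono (coe_subset.2 (filter_subset _ _)))
    have c3 : r s ≤ 2 * ∑ x ∈ Φ, dg T ρ x := by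
      have := (card_le_card sub).trans (card_union_le _ _)
      simp only [r]
      omega
    nlinarith

end Pool.Agent.H33.ROrd
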