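import Pool.Agent.H33.ROrd1

set_option autoImplicit false

namespace Pool.Agent.H33.ROrd

open Finset

lemma rep_list {A : Set ℕ} {h c D τ : ℕ} {w : ℕ → ℕ} {S : Finset ℕ} (hD : ∀ x, w x ≤ D)
    (hS : ∀ s ∈ S, ∀ Φ : Finset ℕ, c * ∑ x ∈ Φ, w x < τ → Rep A h Φ s) (L : List ℕ)
    (hL : ∀ s ∈ L, s ∈ S) (Φ : Finset ℕ) (hΦ : c * (∑ x ∈ Φ, w x + h * L.length * D) < τ) :
    Rep A (h * L.length) Φ L.sum := by
  induction L generalizing Φ with
  | nil => exact ⟨∅, by simp, by simp, by simp, by simp⟩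
  | cons s L ih =>
    obtain ⟨F, h1, h2, h3, h4⟩ := hS s (hL s List.mem_cons_self) Φ
      ((Nat.mul_le_mul_left _ (Nat.le_add_right _ _)).trans_lt hΦ)
    have h5 : ∑ x ∈ F, w x ≤ h * D :=
      (sum_le_card_nsmul _ _ _ fun x _ => hD x).trans (Nat.mul_le_mul_right _ h2)
    obtain ⟨F', k1, k2, k3, k4⟩ := ih (fun s hs => hL s (List.mem_cons_of_mem _ hs)) (F ∪ Φ) (by
      refine (Nat.mul_le_mul_left _ ?_).trans_lt hΦ
      rw [sum_union h3, List.length_cons]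
      nlinarith)
    rw [disjoint_union_right] at k3
    refine ⟨F' ∪ F, ?_, (card_union_le _ _).trans ?_, disjoint_union_left.2 ⟨k3.2, h3⟩, ?_⟩
    · rw [coe_union]; exact Set.union_subset k1 h1
    · rw [List.length_cons]; nlinarith
    · rw [sum_union k3.1, List.sum_cons]; omega

lemma ap {S : Finset ℕ} {X c : ℕ} (hS : ∀ s ∈ S, s ≤ 2 * X) (hX : 1 ≤ X) (hc : X ≤ c * S.card) :
    ∃ u ≤ 4 * X, (∃ s ∈ S, ∃ s' ∈ S, s + s' = u) ∧ ∀ d, 25 * c ^ 2 * d ≤ 2 * X →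
      ∃ m, 1 ≤ m ∧ m ≤ 25 * c ^ 2 ∧ ∃ s ∈ S, ∃ s' ∈ S, s + s' = u + m * d := by
  obtain ⟨u, hu, hu2⟩ : ∃ u ∈ range (4 * X + 1), S.card * S.card ≤
      (4 * X + 1) * ((S ×ˢ S).filter fun p => p.1 + p.2 = u).card := by
    by_contra hn
    push Not at hn
    have e : (S ×ˢ S).card = ∑ u ∈ range (4 * X + 1), ((S ×ˢ S).filter fun p => p.1 + p.2 = u).card := by
      refine card_eq_sum_card_fiberwise fun p hp => ?_
      obtain ⟨h1, h2⟩ := mem_product.1 (mem_coe.1 hp)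
      have := hS _ h1
      have := hS _ h2
      simp only [coe_range, Set.mem_Iio]
      omega
    have := sum_lt_sum_of_nonempty (nonempty_range_iff.2 (by omega)) hn
    rw [← mul_sum, ← e, card_product, sum_const, card_range, smul_eq_mul] at this
    exact lt_irrefl _ this
  set P := (S ×ˢ S).filter fun p => p.1 + p.2 = u with hP
  have hP1 : ∀ p ∈ P, p.1 ∈ S ∧ p.2 ∈ S ∧ p.1 + p.2 = u := fun p hp =>
    ⟨(mem_product.1 (mem_filter.1 hp).1).1, (mem_product.1 (mem_filter.1 hp).1).2, (mem_filter.1 hp).2⟩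
  have h1 : X ≤ 5 * c ^ 2 * P.card := by
    refine Nat.le_of_mul_le_mul_left (c := X) ?_ hX
    calc X * X ≤ (c * S.card) * (c * S.card) := Nat.mul_le_mul hc hc
      _ = c ^ 2 * (S.card * S.card) := by ring
      _ ≤ c ^ 2 * ((5 * X) * P.card) :=
        Nat.mul_le_mul_left _ (hu2.trans (Nat.mul_le_mul_right _ (by omega)))
      _ = _ := by ring
  have h2 : 0 < P.card := Nat.pos_of_ne_zero fun e => by rw [e] at h1; omega
  refine ⟨u, Nat.lt_succ_iff.1 (mem_range.1 hu), ?_, fun d hd => ?_⟩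
  · obtain ⟨p, hp⟩ := card_pos.1 h2
    exact ⟨_, (hP1 p hp).1, _, (hP1 p hp).2.1, (hP1 p hp).2.2⟩
  obtain ⟨⟨i, p⟩, hp, ⟨j, q⟩, hq, hne, e⟩ := exists_ne_map_eq_of_card_lt_of_maps_to
    (s := range (25 * c ^ 2 + 1) ×ˢ P) (t := range (4 * X + 1)) (f := fun z => z.2.1 + z.1 * d)
    (by rw [card_product, card_range, card_range]; nlinarith) (fun z hz => by
      obtain ⟨k1, k2⟩ := mem_product.1 (mem_coe.1 hz)
      have := hS _ (hP1 _ k2).1
      have := Nat.mul_le_mul_right d (Nat.lt_succ_iff.1 (mem_range.1 k1))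
      simp only [coe_range, Set.mem_Iio]
      omega)
  obtain ⟨hi, hp⟩ := mem_product.1 hp
  obtain ⟨hj, hq⟩ := mem_product.1 hq
  have hi : i < 25 * c ^ 2 + 1 := mem_range.1 hi
  have hj : j < 25 * c ^ 2 + 1 := mem_range.1 hj
  have e : p.1 + i * d = q.1 + j * d := e
  obtain ⟨p1, p2, p3⟩ := hP1 p hp
  obtain ⟨q1, q2, q3⟩ := hP1 q hq
  rcases lt_trichotomy i j with l | rfl | l
  · obtain ⟨m, rfl⟩ := Nat.exists_eq_add_of_lt l
    exact ⟨m + 1, by omega, by omega, _, p1, _, q2, by nlinarith⟩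
  · have : p = q := Prod.ext (by omega) (by omega)
    exact absurd (by rw [this]) hne
  · obtain ⟨m, rfl⟩ := Nat.exists_eq_add_of_lt l
    exact ⟨m + 1, by omega, by omega, _, q1, _, p2, by nlinarith⟩

def MM (a : ℕ) : ℕ := (25 * (4 * a) ^ 2).factorial

lemma window (h a0 : ℕ) : ∃ N, ∀ A X T ρ, Good A h X T ρ → 1 ≤ X → X ≤ a0 * T.card →
    ∃ q u τ : ℕ, ∃ w : ℕ → ℕ, 1 ≤ q ∧ q ≤ N ∧ u ≤ N * X ∧ 0 < τ ∧
      (∀ P : Finset ℕ, ∑ x ∈ P, w x ≤ h * τ) ∧ ∀ (Φ Ψ : Finset ℕ) (d : ℕ), Φ.card ≤ 2 * q →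
      N * ∑ x ∈ Ψ, w x ≤ τ → q * d ≤ 2 * X → Rep A N (Φ ∪ Ψ) (u + q * d) := by
  obtain ⟨b, hb⟩ := kernel (fun a => 48 * a * (2 * MM a + 2 * h * (2 * MM a)) + 2 * h + 1) h a0
  refine ⟨4 * (h + 1) * MM b + 49 * b, fun A X T ρ hG hX ha => ?_⟩
  obtain ⟨a, hab, T, ρ, hG, ha, hs⟩ := hb A X T ρ hG ha
  have hM : MM a ≤ MM b := Nat.factorial_le (by gcongr)
  have hM0 : 0 < MM a := Nat.factorial_pos _
  have hT0 : 0 < T.card := Nat.pos_of_ne_zero fun e => by rw [e] at ha; omega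
  obtain ⟨g, hg⟩ : ∃ g, g = 48 * a * (2 * MM a + 2 * h * (2 * MM a)) + 2 * h + 1 := ⟨_, rfl⟩
  simp only [← hg] at hs
  have hD : ∀ x, dg T ρ x ≤ T.card / g := fun x =>
    (Nat.le_div_iff_mul_le (by omega)).2 (by rw [mul_comm]; exact hs x)
  have hD1 : g * (T.card / g) ≤ T.card := Nat.mul_div_le _ _
  generalize T.card / g = D at hD hD1
  rw [hg, add_mul, add_mul] at hD1
  obtain ⟨S, s1, s2, s3⟩ := robust hG hX ha hD (by rw [← mul_assoc]; omega)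
  obtain ⟨u, u1, ⟨s, hs, s', hs', u2⟩, u3⟩ := ap (c := 4 * a) s1 hX (by nlinarith)
  refine ⟨MM a, MM a * u, T.card, dg T ρ, hM0, by nlinarith, by
    nlinarith [Nat.mul_le_mul hM u1, Nat.zero_le (h * MM b * X), Nat.zero_le (b * X)], hT0, sum_dg hG,
    fun Φ Ψ d h1 h2 h3 => ?_⟩
  obtain ⟨m, m1, m2, t, ht, t', ht', e⟩ := u3 d
    ((Nat.mul_le_mul_right d (Nat.self_le_factorial _)).trans h3)
  obtain ⟨j, hj⟩ : m ∣ MM a := Nat.dvd_factorial m1 m2
  obtain ⟨i, hi⟩ : ∃ i, MM a = j + i := Nat.exists_eq_add_of_le (by nlinarith)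
  have hl : (List.replicate j t ++ List.replicate j t' ++ List.replicate i s ++
      List.replicate i s').length = 2 * MM a := by simp; omega
  obtain ⟨F, f1, f2, f3, f4⟩ := rep_list hD s3 (List.replicate j t ++ List.replicate j t' ++
    List.replicate i s ++ List.replicate i s') (by
      intro x hx
      simp only [List.mem_append, List.mem_replicate] at hx
      rcases hx with ((⟨-, rfl⟩ | ⟨-, rfl⟩) | ⟨-, rfl⟩) | ⟨-, rfl⟩ <;> assumption) (Φ ∪ Ψ) (by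
      rw [hl]
      have k1 : ∑ x ∈ Φ ∪ Ψ, dg T ρ x ≤ ∑ x ∈ Φ, dg T ρ x + ∑ x ∈ Ψ, dg T ρ x := by
        rw [← sum_union_inter]; omega
      have k2 : ∑ x ∈ Φ, dg T ρ x ≤ 2 * MM a * D :=
        (sum_le_card_nsmul _ _ _ fun x _ => hD x).trans (Nat.mul_le_mul_right _ h1)
      have k3 : 49 * (a * ∑ x ∈ Ψ, dg T ρ x) ≤ T.card := by
        rw [← mul_assoc]
        exact (Nat.mul_le_mul_right _ (by omega)).trans h2
      have k4 : a * ∑ x ∈ Φ ∪ Ψ, dg T ρ x ≤ a * (2 * MM a * D) + a * ∑ x ∈ Ψ, dg T ρ x := by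
        rw [← mul_add]; exact Nat.mul_le_mul_left _ (by omega)
      have k5 : 48 * a * (2 * MM a + 2 * h * (2 * MM a)) * D =
        48 * (a * (2 * MM a * D)) + 48 * (a * (2 * h * (2 * MM a) * D)) := by ring
      have k6 : 24 * a * (∑ x ∈ Φ ∪ Ψ, dg T ρ x + 2 * h * (2 * MM a) * D) =
        24 * (a * ∑ x ∈ Φ ∪ Ψ, dg T ρ x) + 24 * (a * (2 * h * (2 * MM a) * D)) := by ring
      omega)
  refine ⟨F, f1, f2.trans (by rw [hl]; nlinarith), f3, f4.trans ?_⟩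
  simp only [List.sum_append, List.sum_replicate, smul_eq_mul]
  have : MM a * d = j * (m * d) := by rw [hj]; ring
  rw [this, hi, ← u2]
  rw [← u2] at e
  nlinarith

lemma pool (h a0 c : ℕ) : ∃ b, ∀ A X T ρ, Good A h X T ρ → 6 * b + 1 ≤ X → X ≤ a0 * T.card →
    ∃ a, 1 ≤ a ∧ a ≤ b ∧ ∃ P : Finset ℕ, (↑P : Set ℕ) ⊆ A ∧ c * a ≤ P.card ∧
      ∀ x ∈ P, x ≤ X ∧ X ≤ 2 * a * h * x := by
  obtain ⟨b, hb⟩ := kernel (fun a => 3 * (c * a)) h a0
  refine ⟨b, fun A X T ρ hG hX ha => ?_⟩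
  obtain ⟨a, hab, T, ρ, hG, ha, hs⟩ := hb A X T ρ hG ha
  have ha0 : 0 < a := Nat.pos_of_ne_zero fun e => by rw [e] at ha; omega
  have hT : 6 ≤ T.card := by
    by_contra hn
    nlinarith
  let P := (T.biUnion ρ).filter fun x => X ≤ 2 * a * h * x
  refine ⟨a, ha0, hab, P, fun x hx => ?_, ?_, fun x hx => ⟨?_, (mem_filter.1 hx).2⟩⟩
  · obtain ⟨t, ht, h1⟩ := mem_biUnion.1 (mem_filter.1 (mem_coe.1 hx)).1
    exact (hG t ht).2.1 h1
  · have h1 := hit_le T ρ P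
    have h2 := card_filter_add_card_filter_not (s := T) fun t => Disjoint (ρ t) P
    have h3 : (T.filter fun t => Disjoint (ρ t) P) ⊆ range ((T.card + 1) / 2) := by
      intro t ht
      obtain ⟨ht, hd⟩ := mem_filter.1 ht
      obtain ⟨-, -, k1, k2⟩ := hG t ht
      have k3 : ∑ x ∈ ρ t, 2 * a * h * x ≤ (ρ t).card * (X - 1) := sum_le_card_nsmul _ _ _ fun x hx => by
        have := disjoint_left.1 hd hx
        simp only [P, mem_filter, mem_biUnion, not_and, not_le] at this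
        have := this ⟨t, ht, hx⟩
        omega
      rw [← mul_sum, k2] at k3
      have k4 : 2 * t < T.card := by
        rcases Nat.eq_zero_or_pos h with rfl | h0
        · rw [card_eq_zero.1 (Nat.le_zero.1 k1)] at k2
          simp only [sum_empty] at k2
          omega
        · have k5 : h * (2 * a * t) ≤ h * (X - 1) := by
            have := Nat.mul_le_mul_right (X - 1) k1
            nlinarith
          have k6 := Nat.le_of_mul_le_mul_left k5 h0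
          have k7 : a * (2 * t) < a * T.card := by
            have : a * (2 * t) = 2 * a * t := by ring
            omega
          exact Nat.lt_of_mul_lt_mul_left k7
      rw [mem_range]; omega
    have h4 := card_le_card h3
    rw [card_range] at h4
    have h5 : 3 * (c * a) * ∑ x ∈ P, dg T ρ x ≤ P.card * T.card := by
      rw [mul_sum]; exact sum_le_card_nsmul _ _ _ fun x _ => hs x
    have h6 : T.card ≤ 3 * ∑ x ∈ P, dg T ρ x := by omega
    refine Nat.le_of_mul_le_mul_right (c := T.card) ?_ (by omega)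
    nlinarith [Nat.mul_le_mul_left (c * a) h6]
  · obtain ⟨t, ht, h1⟩ := mem_biUnion.1 (mem_filter.1 hx).1
    exact ((single_le_sum (f := fun y => y) (fun _ _ => Nat.zero_le _) h1).trans
      (hG t ht).2.2.2.le).trans (hG t ht).1

lemma greedy (X Δ : ℕ) (hΔ : X ≤ Δ) (P : Finset ℕ) (hP : ∀ x ∈ P, x ≤ X)
    (h : Δ ≤ ∑ x ∈ P, x + 2 * X) : ∃ D ⊆ P, ∑ x ∈ D, x + X ≤ Δ ∧ Δ ≤ ∑ x ∈ D, x + 2 * X := by
  induction P using Finset.induction_on with
  | empty => exact ⟨∅, Subset.rfl, by simpa using hΔ, h⟩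
  | insert x P hx ih =>
    by_cases h2 : Δ ≤ ∑ x ∈ P, x + 2 * X
    · obtain ⟨D, h3, h4⟩ := ih (fun y hy => hP y (mem_insert_of_mem hy)) h2
      exact ⟨D, h3.trans (subset_insert _ _), h4⟩
    · refine ⟨_, Subset.rfl, ?_, h⟩
      have := hP x (mem_insert_self _ _)
      rw [sum_insert hx]
      omega

def Res (A : Set ℕ) : Prop :=
  ∀ q r : ℕ, 1 ≤ q → ∃ s : Finset ℕ, (↑s : Set ℕ) ⊆ A ∧ ∑ x ∈ s, x ≡ r [MOD q]

lemma res_of (A : Set ℕ) (hA : ∀ᶠ n in Filter.atTop, ∃ s : Finset ℕ, (↑s : Set ℕ) ⊆ A ∧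
    ∑ x ∈ s, x = n) : Res A := by
  obtain ⟨n0, hA⟩ := Filter.eventually_atTop.1 hA
  intro q r hq
  obtain ⟨s, h1, h2⟩ := hA (r + q * n0) (by nlinarith)
  exact ⟨s, h1, by rw [h2]; simp [Nat.ModEq]⟩

lemma res_of' (A : Set ℕ) (hA : ∀ F : Finset ℕ, ∀ᶠ n in Filter.atTop,
    ∃ s : Multiset ℕ, (∀ x ∈ s, x ∈ A ∧ x ∉ F) ∧ s.sum = n) : Res A := by
  classical
  intro q r hq
  have fin : {x | x ∈ A ∧ {y | y ∈ A ∧ y % q = x % q}.Finite}.Finite := by
    refine ((Set.finite_lt_nat q).biUnion (t := fun c => if {y | y ∈ A ∧ y % q = c}.Finite then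
      {y | y ∈ A ∧ y % q = c} else ∅) fun c _ => ?_).subset fun x hx => ?_
    · split_ifs with h
      · exact h
      · exact Set.finite_empty
    · refine Set.mem_biUnion (Nat.mod_lt x hq) ?_
      rw [if_pos hx.2]
      exact ⟨hx.1, rfl⟩
  obtain ⟨n0, hA⟩ := Filter.eventually_atTop.1 (hA fin.toFinset)
  obtain ⟨m, h1, h2⟩ := hA (r + q * n0) (by nlinarith)
  have : ∀ m : Multiset ℕ, (∀ x ∈ m, x ∈ A ∧ x ∉ fin.toFinset) →
      ∃ s : Finset ℕ, (↑s : Set ℕ) ⊆ A ∧ ∑ x ∈ s, x ≡ m.sum [MOD q] := by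
    intro m
    induction m using Multiset.induction_on with
    | empty => exact fun _ => ⟨∅, by simp, by simp [Nat.ModEq]⟩
    | cons a m ih =>
      intro h
      obtain ⟨s, k1, k2⟩ := ih fun x hx => h x (Multiset.mem_cons_of_mem hx)
      obtain ⟨k3, k4⟩ := h a (Multiset.mem_cons_self _ _)
      have k5 : {y | y ∈ A ∧ y % q = a % q}.Infinite := fun hf => k4 (fin.mem_toFinset.2 ⟨k3, hf⟩)
      obtain ⟨y, ⟨y1, y2⟩, y3⟩ := k5.exists_notMem_finset s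
      refine ⟨insert y s, ?_, ?_⟩
      · rw [coe_insert]; exact Set.insert_subset y1 k1
      · rw [sum_insert y3, Multiset.sum_cons]
        exact Nat.ModEq.add y2 k2
  obtain ⟨s, k1, k2⟩ := this m h1
  exact ⟨s, k1, k2.trans (by rw [h2]; simp [Nat.ModEq])⟩

lemma residue (A : Set ℕ) (hA : Res A) (N : ℕ) : ∃ R, ∀ q, 1 ≤ q → q ≤ N → ∀ r, ∃ F : Finset ℕ, (↑F : Set ℕ) ⊆ A ∧
      F.card ≤ 2 * q ∧ ∑ x ∈ F, x ≤ R ∧ ∑ x ∈ F, x ≡ r [MOD q] := by
  have k1 : ∀ q r : ℕ, ∃ F : Finset ℕ, 1 ≤ q → (↑F : Set ℕ) ⊆ A ∧ F.card ≤ 2 * q ∧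
      ∑ x ∈ F, x ≡ r [MOD q] := by
    intro q r
    by_cases hq : 1 ≤ q
    swap
    · exact ⟨∅, fun h => absurd h hq⟩
    have : ∀ c : ℕ, ∀ s : Finset ℕ, s.card = c → (↑s : Set ℕ) ⊆ A → ∑ x ∈ s, x ≡ r [MOD q] →
        ∃ F : Finset ℕ, 1 ≤ q → (↑F : Set ℕ) ⊆ A ∧ F.card ≤ 2 * q ∧ ∑ x ∈ F, x ≡ r [MOD q] := by
      intro c
      induction c using Nat.strong_induction_on with
      | _ c ih =>
        intro s h1 h2 h3
        by_cases h4 : s.card ≤ 2 * q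
        · exact ⟨s, fun _ => ⟨h2, h4, h3⟩⟩
        obtain ⟨t, t1, t2, t3⟩ := Int.erdos_ginzburg_ziv (s := s) (n := q) (fun x : ℕ => (x : ℤ))
          (by omega)
        refine ih _ ?_ (s \ t) rfl ((coe_subset.2 sdiff_subset).trans h2) ?_
        · rw [card_sdiff_of_subset t1]; omega
        · rw [← Nat.cast_sum, Int.natCast_dvd_natCast] at t3
          obtain ⟨e, he⟩ := t3
          rw [← sum_sdiff t1, he] at h3
          simpa [Nat.ModEq] using h3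
    obtain ⟨s, h1, h2⟩ := hA q r hq
    exact this _ s rfl h1 h2
  choose F hF using k1
  refine ⟨(range (N + 1) ×ˢ range N).sup fun p => ∑ x ∈ F p.1 p.2, x, fun q h1 h2 r => ?_⟩
  obtain ⟨k2, k3, k4⟩ := hF q (r % q) h1
  refine ⟨_, k2, k3, le_sup (f := fun p : ℕ × ℕ => ∑ x ∈ F p.1 p.2, x) (b := (q, r % q)) ?_,
    k4.trans (Nat.mod_modEq _ _)⟩
  have := Nat.mod_lt r h1
  simp only [mem_product, mem_range]
  omega

theorem main (h : ℕ) : ∃ f, ∀ A : Set ℕ, (∀ᶠ n in Filter.atTop, ∃ s : Multiset ℕ,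
      Multiset.card s ≤ h ∧ (∀ x ∈ s, x ∈ A) ∧ s.sum = n) →
    Res A →
    ∀ᶠ n in Filter.atTop, ∃ s : Finset ℕ, (↑s : Set ℕ) ⊆ A ∧ s.card ≤ f ∧ ∑ x ∈ s, x = n := by
  obtain ⟨N, hN⟩ := window h (2 * (h + 1) ^ h)
  obtain ⟨b, hb⟩ := pool h (2 * (h + 1) ^ h) (2 * h * (N + 2) * (1 + h * N))
  refine ⟨N + 2 * N + 2 * h * (N + 2) * b, fun A hA hB => ?_⟩
  obtain ⟨n0, hA⟩ := Filter.eventually_atTop.1 hA
  obtain ⟨R, hR⟩ := residue A hB N
  refine Filter.eventually_atTop.2 ⟨(2 * n0 + 6 * b + 1 + N + 2 * b * h * R + R) * (N + 1),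
    fun n hn => ?_⟩
  have x1 := (Nat.le_div_iff_mul_le (Nat.succ_pos N)).2 hn
  have x2 := Nat.div_add_mod n (N + 1)
  have x3 := Nat.mod_lt n (Nat.succ_pos N)
  generalize n / (N + 1) = X at x1 x2
  generalize n % (N + 1) = y at x2 x3
  obtain ⟨T, ρ, hG, hT⟩ := dense A h n0 X hA (by omega)
  obtain ⟨q, u, τ, w, q1, q2, hu, hτ, hw, hrep⟩ := hN A X T ρ hG (by omega) hT
  obtain ⟨a, a1, a2, P, p1, p2, p3⟩ := hb A X T ρ hG (by omega) hT
  have h0 : 0 < h := Nat.pos_of_ne_zero fun e => by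
    obtain ⟨m, m1, -, m2⟩ := hA (n0 + 1) (by omega)
    rw [e, Nat.le_zero, Multiset.card_eq_zero] at m1
    simp [m1] at m2
  obtain ⟨z, hz⟩ : ∃ z, z = 2 * h * (N + 2) * a := ⟨_, rfl⟩
  have z0 : 0 < z * h := by rw [hz]; positivity
  have c1 : z ≤ (P.filter fun x => z * N * w x ≤ τ).card := by
    have e := card_filter_add_card_filter_not (s := P) fun x => z * N * w x ≤ τ
    have k1 : (P.filter fun x => ¬ z * N * w x ≤ τ).card * τ ≤ z * N * (h * τ) := by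
      refine le_trans ?_ (Nat.mul_le_mul_left _ (hw (P.filter fun x => ¬ z * N * w x ≤ τ)))
      rw [mul_sum]
      exact card_nsmul_le_sum _ _ _ fun x hx => (not_le.1 (mem_filter.1 hx).2).le
    rw [← mul_assoc] at k1
    have k2 := Nat.le_of_mul_le_mul_right k1 hτ
    have k3 : 2 * h * (N + 2) * (1 + h * N) * a = z + z * N * h := by rw [hz]; ring
    omega
  obtain ⟨P', p4, p5⟩ := exists_subset_card_eq c1
  have p6 : P' ⊆ P := p4.trans (filter_subset _ _)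
  have p7 : (N + 2) * X ≤ ∑ x ∈ P', x := by
    have k1 : P'.card * X ≤ ∑ x ∈ P', 2 * a * h * x :=
      card_nsmul_le_sum _ _ _ fun x hx => (p3 x (p6 hx)).2
    rw [← mul_sum, p5, hz] at k1
    refine Nat.le_of_mul_le_mul_left (c := 2 * a * h) ?_ (by positivity)
    nlinarith
  rw [add_mul] at x2 p7
  obtain ⟨Δ, hΔ⟩ : ∃ Δ, n = u + Δ := Nat.exists_eq_add_of_le (by omega)
  obtain ⟨D, d1, d2, d3⟩ := greedy X Δ (by omega) P' (fun x hx => (p3 x (p6 hx)).1)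
    (by omega)
  have d4 : D.card ≤ z := p5 ▸ card_le_card d1
  obtain ⟨F, f1, f2, f3, f4⟩ := hR q q1 q2 (Δ - ∑ x ∈ D, x)
  obtain ⟨d, hd⟩ := (Nat.modEq_iff_dvd' (by omega)).1 f4
  obtain ⟨E, e1, e2, e3, e4⟩ := hrep F D d f2 (by
    have k1 : ∑ x ∈ D, z * N * w x ≤ D.card * τ :=
      sum_le_card_nsmul _ _ _ fun x hx => (mem_filter.1 (p4 (d1 hx))).2
    rw [← mul_sum, mul_assoc] at k1
    exact Nat.le_of_mul_le_mul_left (k1.trans (Nat.mul_le_mul_right _ d4))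
      (Nat.pos_of_mul_pos_right z0)) (by omega)
  have fd : Disjoint F D := disjoint_left.2 fun x h1 h2 => by
    have k1 := (p3 x (p6 (d1 h2))).2
    have k2 : x ≤ R := (single_le_sum (f := fun y => y) (fun _ _ => Nat.zero_le _) h1).trans f3
    have k3 : 2 * a * h * x ≤ 2 * b * h * R := by gcongr
    omega
  refine ⟨E ∪ (F ∪ D), ?_, ?_, ?_⟩
  · rw [coe_union, coe_union]
    exact Set.union_subset e1 (Set.union_subset f1 ((coe_subset.2 (d1.trans p6)).trans p1))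
  · have k1 := card_union_le E (F ∪ D)
    have k2 := card_union_le F D
    have k3 : z ≤ 2 * h * (N + 2) * b := hz ▸ Nat.mul_le_mul_left _ a2
    omega
  · rw [sum_union e3, sum_union fd]
    omega

end Pool.Agent.H33.ROrd
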