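import Mathlib

set_option autoImplicit false

namespace Pool.Agent.H33.Reimer

open Matrix

variable {ι : Type} [Fintype ι] [DecidableEq ι]

lemma tens {R : Type} [CommRing R] (v w : ι → Bool → R) :
    ∑ s : ι → Bool, (∏ i, v i (s i)) * (∏ i, w i (s i)) =
      ∏ i, (v i false * w i false + v i true * w i true) := by
  have := Finset.prod_univ_sum (fun _ : ι => (Finset.univ : Finset Bool))
    (fun i b => v i b * w i b)
  rw [Fintype.piFinset_univ] at this
  simp only [← Finset.prod_mul_distrib]
  rw [← this]
  refine Finset.prod_congr rfl fun i _ => ?_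
  rw [Fintype.sum_bool, add_comm]

def gg : Bool → Bool → Bool → ℤ
  | false, true, false => 1
  | false, true, true => 0
  | false, false, false => 0
  | false, false, true => 1
  | true, true, false => -1
  | true, true, true => 1
  | true, false, false => 1
  | true, false, true => 1

def ee : Bool → Bool → ℤ
  | false, _ => 1
  | true, false => 0
  | true, true => 1

def ff : Bool → Bool → ℤ
  | false, false => 1
  | false, true => 0
  | true, false => -1
  | true, true => 1

def Psi (J : (ι → Bool) → ι → Bool) : Matrix (ι → Bool) (ι → Bool) ℤ :=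
  Matrix.of fun s x => ∏ i, gg (x i) (J x i) (s i)

def EE (ι : Type) [Fintype ι] : Matrix (ι → Bool) (ι → Bool) ℤ :=
  Matrix.of fun w s => ∏ i, ee (w i) (s i)

def FF (ι : Type) [Fintype ι] : Matrix (ι → Bool) (ι → Bool) ℤ :=
  Matrix.of fun w s => ∏ i, ff (w i) (s i)

lemma EF : (EE ι)ᵀ * FF ι = 1 := by
  ext s t
  rw [Matrix.mul_apply]
  simp only [EE, FF, Matrix.transpose_apply, Matrix.of_apply]
  rw [tens (fun i b => ee b (s i)) (fun i b => ff b (t i)), Matrix.one_apply]
  split_ifs with h
  · subst h
    refine Finset.prod_eq_one fun i _ => ?_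
    cases s i <;> simp [ee, ff]
  · obtain ⟨i, hi⟩ := Function.ne_iff.1 h
    refine Finset.prod_eq_zero (Finset.mem_univ i) ?_
    revert hi
    cases s i <;> cases t i <;> simp [ee, ff]

lemma EPsi (J : (ι → Bool) → ι → Bool) (w x : ι → Bool) (i : ι) (h1 : J x i = true)
    (h2 : w i ≠ x i) : (EE ι * Psi J) w x = 0 := by
  rw [Matrix.mul_apply]
  simp only [EE, Psi, Matrix.of_apply]
  rw [tens (fun i b => ee (w i) b) (fun i b => gg (x i) (J x i) b)]
  refine Finset.prod_eq_zero (Finset.mem_univ i) ?_
  rw [h1]
  revert h2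
  cases w i <;> cases x i <;> simp [ee, gg]

lemma FPsi (J : (ι → Bool) → ι → Bool) (w x : ι → Bool) (i : ι) (h1 : J x i = false)
    (h2 : w i = x i) : (FF ι * Psi J) w x = 0 := by
  rw [Matrix.mul_apply]
  simp only [FF, Psi, Matrix.of_apply]
  rw [tens (fun i b => ff (w i) b) (fun i b => gg (x i) (J x i) b)]
  refine Finset.prod_eq_zero (Finset.mem_univ i) ?_
  rw [h1, h2]
  cases x i <;> simp [ff, gg]

lemma Psi_det (J : (ι → Bool) → ι → Bool) : (Psi J).det ≠ 0 := by
  intro h0
  let c : ℤ →+* ZMod 2 := Int.castRingHom _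
  let N : Matrix (ι → Bool) (ι → Bool) (ZMod 2) := c.mapMatrix (EE ι * Psi J)
  have hN : ∀ w x, N w x = ∏ i, c (ee (w i) false * gg (x i) (J x i) false +
      ee (w i) true * gg (x i) (J x i) true) := by
    intro w x
    simp only [N, RingHom.mapMatrix_apply, Matrix.map_apply, Matrix.mul_apply, EE, Psi,
      Matrix.of_apply]
    rw [tens (fun i b => ee (w i) b) (fun i b => gg (x i) (J x i) b), map_prod]
  have h1 : ∀ w, N w w = 1 := by
    intro w
    rw [hN]
    refine Finset.prod_eq_one fun i _ => ?_
    cases w i <;> cases J w i <;> simp [ee, gg]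
  have h2 : ∀ w x, ¬ x ≤ w → N w x = 0 := by
    intro w x h
    rw [Pi.le_def, not_forall] at h
    obtain ⟨i, hi⟩ := h
    rw [hN]
    refine Finset.prod_eq_zero (Finset.mem_univ i) ?_
    revert hi
    cases w i <;> cases x i <;> cases J x i <;> simp [ee, gg] <;> decide
  have h3 : Function.Injective N.mulVec := by
    have : Function.Injective N.mulVecLin := by
      rw [← LinearMap.ker_eq_bot, LinearMap.ker_eq_bot']
      intro v hv
      funext w
      induction w using WellFoundedLT.induction with
      | _ w ih =>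
        have := congrFun hv w
        rw [Matrix.mulVecLin_apply, Matrix.mulVec, dotProduct, Finset.sum_eq_single w, h1,
          one_mul] at this
        · exact this
        · intro x _ hx
          by_cases h : x ≤ w
          · rw [ih x (lt_of_le_of_ne h hx)]; simp
          · rw [h2 w x h, zero_mul]
        · simp
    exact this
  have h4 := (Matrix.isUnit_iff_isUnit_det _).1 (Matrix.mulVec_injective_iff_isUnit.1 h3)
  rw [← RingHom.map_det, Matrix.det_mul, h0, mul_zero, map_zero] at h4
  exact not_isUnit_zero h4

theorem reimer (A B : Set (ι → Bool)) (F T : Finset (ι → Bool))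
    (hF : ∀ x ∈ F, ∃ J : ι → Bool, (∀ z : ι → Bool, (∀ i, J i = true → z i = x i) → z ∈ A) ∧
      (∀ z : ι → Bool, (∀ i, J i = false → z i = x i) → z ∈ B))
    (hT : ∀ w, w ∈ A → (fun i => !w i) ∈ B → w ∈ T) : F.card ≤ T.card := by
  choose! J hJ using hF
  let c : ℤ →+* ℚ := Int.castRingHom _
  let P := c.mapMatrix (Psi J)
  let E := c.mapMatrix (EE ι)
  let G := c.mapMatrix (FF ι)
  have hP : Function.Injective P.mulVec := by
    rw [Matrix.mulVec_injective_iff_isUnit, Matrix.isUnit_iff_isUnit_det, ← RingHom.map_det,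
      isUnit_iff_ne_zero]
    simpa [c] using Psi_det J
  have hEG : Eᵀ * G = 1 := by
    have := congrArg c.mapMatrix (EF (ι := ι))
    rw [map_mul, map_one] at this
    exact this
  let L : (F → ℚ) →ₗ[ℚ] (T → ℚ) :=
    (LinearMap.funLeft ℚ ℚ (Subtype.val : T → (ι → Bool))) ∘ₗ (E * P).mulVecLin ∘ₗ
      (Function.ExtendByZero.linearMap ℚ (Subtype.val : F → (ι → Bool)))
  have hL : Function.Injective L := by
    rw [← LinearMap.ker_eq_bot, LinearMap.ker_eq_bot']
    intro v hv
    let u : (ι → Bool) → ℚ := Function.extend (Subtype.val : F → (ι → Bool)) v 0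
    have hu : ∀ x, x ∉ F → u x = 0 := by
      intro x hx
      simp only [u]
      rw [Function.extend_apply']
      · rfl
      · rintro ⟨a, rfl⟩; exact hx a.2
    have k1 : ∀ w ∈ T, (E * P).mulVec u w = 0 := fun w hw => congrFun hv ⟨w, hw⟩
    have k2 : ∀ w, w ∉ A → (E * P).mulVec u w = 0 := by
      intro w hw
      rw [Matrix.mulVec, dotProduct]
      refine Finset.sum_eq_zero fun x _ => ?_
      by_cases hx : x ∈ F
      · have : ¬ ∀ i, J x i = true → w i = x i := fun h => hw ((hJ x hx).1 w h)
        push Not at this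
        obtain ⟨i, h1, h2⟩ := this
        have h3 := congrArg c (EPsi J w x i h1 h2)
        rw [map_zero] at h3
        have h4 : (E * P) w x = 0 := by
          simp only [E, P]
          rw [← map_mul]; exact h3
        rw [h4, zero_mul]
      · rw [hu x hx, mul_zero]
    have k3 : ∀ w, (fun i => !w i) ∉ B → (G * P).mulVec u w = 0 := by
      intro w hw
      rw [Matrix.mulVec, dotProduct]
      refine Finset.sum_eq_zero fun x _ => ?_
      by_cases hx : x ∈ F
      · have : ¬ ∀ i, J x i = false → (!w i) = x i := fun h => hw ((hJ x hx).2 _ h)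
        push Not at this
        obtain ⟨i, h1, h2⟩ := this
        have h2' : w i = x i := by
          revert h2
          cases w i <;> cases x i <;> simp
        have h3 := congrArg c (FPsi J w x i h1 h2')
        rw [map_zero] at h3
        have h4 : (G * P) w x = 0 := by
          simp only [G, P]
          rw [← map_mul]; exact h3
        rw [h4, zero_mul]
      · rw [hu x hx, mul_zero]
    have k4 : (E * P).mulVec u ⬝ᵥ (G * P).mulVec u = 0 := by
      rw [dotProduct]
      refine Finset.sum_eq_zero fun w _ => ?_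
      by_cases h1 : w ∈ A
      · by_cases h2 : (fun i => !w i) ∈ B
        · rw [k1 w (hT w h1 h2), zero_mul]
        · rw [k3 w h2, mul_zero]
      · rw [k2 w h1, zero_mul]
    have k5 : P.mulVec u ⬝ᵥ P.mulVec u = 0 := by
      rw [← Matrix.mulVec_mulVec, ← Matrix.mulVec_mulVec, ← Matrix.vecMul_transpose,
        ← Matrix.dotProduct_mulVec, Matrix.mulVec_mulVec, hEG, Matrix.one_mulVec] at k4
      exact k4
    have k6 : u = 0 := hP (by rw [dotProduct_self_eq_zero.1 k5, Matrix.mulVec_zero])
    funext a
    have := congrFun k6 a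
    simp only [u] at this
    rwa [Subtype.val_injective.extend_apply] at this
  have := LinearMap.finrank_le_finrank_of_injective hL
  simpa using this

end Pool.Agent.H33.Reimer
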