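import Pool.Agent.H33.Reimer

set_option autoImplicit false

namespace Pool.Agent.H33.Reimer

open MeasureTheory Set Filter Topology
open scoped ENNReal

abbrev Om := ℕ → unitInterval

noncomputable abbrev mm : Measure Om :=
  Measure.infinitePi (fun _ : ℕ => (volume : Measure unitInterval))

abbrev Xi := Bool × ℕ → unitInterval

noncomputable abbrev MM : Measure Xi :=
  Measure.infinitePi (fun _ : Bool × ℕ => (volume : Measure unitInterval))

def sel (d : ℕ → Bool) (ξ : Xi) : Om := fun i => ξ (d i, i)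

lemma sel_meas (d : ℕ → Bool) : Measurable (sel d) := by
  unfold sel; fun_prop

lemma base (U V : Set Om) (hU : MeasurableSet U) (hV : MeasurableSet V) :
    MM (sel (fun _ => false) ⁻¹' U ∩ sel (fun _ => true) ⁻¹' V) = mm U * mm V := by
  have h := Measure.infinitePi_map_curry (fun (_ : Bool) (_ : ℕ) => (volume : Measure unitInterval))
  let t : Bool → Set Om := fun b => if b then V else U
  have ht : ∀ b, MeasurableSet (t b) := by
    intro b; cases b
    · exact hU
    · exact hV
  have h2 := Measure.infinitePi_pi (fun _ : Bool => mm) (s := Finset.univ) (t := t)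
    (fun b _ => ht b)
  rw [← h, Measure.map_apply (MeasurableEquiv.measurable _)
    (MeasurableSet.pi (Set.to_countable _) fun b _ => ht b), Fintype.prod_bool, mul_comm] at h2
  refine Eq.trans ?_ h2
  congr 1
  ext ξ
  simp only [mem_inter_iff, mem_preimage, Set.mem_pi, Finset.coe_univ, mem_univ, true_imp_iff,
    Bool.forall_bool, t]
  rfl

def sw (d : ℕ → Bool) : Bool × ℕ ≃ Bool × ℕ :=
  Function.Involutive.toPerm (fun p => (xor p.1 (d p.2), p.2)) (by rintro ⟨b, i⟩; simp)

lemma swap (d : ℕ → Bool) (U V : Set Om) (hU : MeasurableSet U) (hV : MeasurableSet V) :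
    MM (sel d ⁻¹' U ∩ sel (fun i => !d i) ⁻¹' V) = mm U * mm V := by
  have h := Measure.infinitePi_map_piCongrLeft
    (fun (_ : Bool × ℕ) => (volume : Measure unitInterval)) (sw d)
  rw [← base U V hU hV]
  change MM.map _ = MM at h
  conv_lhs => rw [← h]
  rw [Measure.map_apply (MeasurableEquiv.measurable _)
    ((sel_meas _ hU).inter (sel_meas _ hV))]
  congr 1
  ext ξ
  have k : ∀ p, MeasurableEquiv.piCongrLeft (fun _ : Bool × ℕ => unitInterval) (sw d) ξ (sw d p)
      = ξ p := fun p => MeasurableEquiv.piCongrLeft_apply_apply _ _ _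
  have k1 : sel d (MeasurableEquiv.piCongrLeft (fun _ : Bool × ℕ => unitInterval) (sw d) ξ) =
      sel (fun _ => false) ξ := by
    funext i
    have := k (false, i)
    simpa [sw, sel] using this
  have k2 : sel (fun i => !d i)
      (MeasurableEquiv.piCongrLeft (fun _ : Bool × ℕ => unitInterval) (sw d) ξ) =
      sel (fun _ => true) ξ := by
    funext i
    have := k (true, i)
    simpa [sw, sel] using this
  simp only [mem_inter_iff, mem_preimage, k1, k2]

def core (U : Set Om) (J : Set ℕ) : Set Om := {ω | ∀ η : Om, (∀ i ∈ J, η i = ω i) → η ∈ U}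

lemma core_open (U : Set Om) (hU : IsOpen U) (J : Set ℕ) : IsOpen (core U J) := by
  have hc : IsClosed {p : Om × Om | p.2 ∉ U ∧ ∀ i ∈ J, p.2 i = p.1 i} := by
    refine IsClosed.inter (hU.isClosed_compl.preimage continuous_snd) ?_
    have : {p : Om × Om | ∀ i ∈ J, p.2 i = p.1 i} = ⋂ i ∈ J, {p : Om × Om | p.2 i = p.1 i} := by
      ext p; simp
    change IsClosed {p : Om × Om | ∀ i ∈ J, p.2 i = p.1 i}
    rw [this]
    exact isClosed_biInter fun i _ => isClosed_eq (by fun_prop) (by fun_prop)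
  have := isClosedMap_fst_of_compactSpace _ hc
  rw [← isClosed_compl_iff]
  convert this using 1
  ext ω
  simp only [core, mem_compl_iff, mem_setOf_eq, not_forall, mem_image, Prod.exists,
    exists_and_right, exists_eq_right]
  constructor
  · rintro ⟨η, h1, h2⟩; exact ⟨η, h2, h1⟩
  · rintro ⟨η, h1, h2⟩; exact ⟨η, h2, h1⟩

lemma core_fin (U : Set Om) (hU : IsOpen U) (J : Set ℕ) (ω : Om) (h : ω ∈ core U J) :
    ∃ n : ℕ, ω ∈ core U (J ∩ Iio n) := by
  by_contra hcon
  push Not at hcon
  let t : ℕ → Set Om := fun n => {η | η ∉ U ∧ ∀ i ∈ J ∩ Iio n, η i = ω i}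
  have hcl : ∀ n, IsClosed (t n) := by
    intro n
    refine IsClosed.inter hU.isClosed_compl ?_
    have : {η : Om | ∀ i ∈ J ∩ Iio n, η i = ω i} = ⋂ i ∈ J ∩ Iio n, {η : Om | η i = ω i} := by
      ext p; simp
    change IsClosed {η : Om | ∀ i ∈ J ∩ Iio n, η i = ω i}
    rw [this]
    exact isClosed_biInter fun i _ => isClosed_eq (by fun_prop) (by fun_prop)
  obtain ⟨η, hη⟩ := IsCompact.nonempty_iInter_of_sequence_nonempty_isCompact_isClosed t
    (fun n η hη => ⟨hη.1, fun i hi => hη.2 i ⟨hi.1, Nat.lt_succ_of_lt hi.2⟩⟩)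
    (fun n => by
      have := hcon n
      simp only [core, mem_setOf_eq, not_forall] at this
      obtain ⟨η, h1, h2⟩ := this
      exact ⟨η, h2, h1⟩) (hcl 0).isCompact hcl
  rw [mem_iInter] at hη
  exact (hη 0).1 (h η fun i hi => (hη (i + 1)).2 i ⟨hi, Nat.lt_succ_self i⟩)

lemma core_mono (U : Set Om) {J K : Set ℕ} (h : J ⊆ K) : core U J ⊆ core U K :=
  fun _ hω η hη => hω η fun i hi => hη i (h hi)

def DD (U V : Set Om) (n : ℕ) : Set Om :=
  ⋃ J : Set ℕ, core U (J ∩ Iio n) ∩ core V (Jᶜ ∩ Iio n)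

lemma DD_bound (U V : Set Om) (hU : IsOpen U) (hV : IsOpen V) (n : ℕ) :
    mm (DD U V n) ≤ mm U * mm V := by
  classical
  have hD : MeasurableSet (DD U V n) :=
    (isOpen_iUnion fun J => (core_open U hU _).inter (core_open V hV _)).measurableSet
  let d : Bool → (Fin n → Bool) → ℕ → Bool := fun b x i => if h : i < n then x ⟨i, h⟩ else b
  let E : (Fin n → Bool) → Set Xi := fun x => sel (d false x) ⁻¹' DD U V n
  let G : (Fin n → Bool) → Set Xi := fun x =>
    sel (d false x) ⁻¹' U ∩ sel (fun i => !d false x i) ⁻¹' V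
  have hE : ∀ x, MeasurableSet (E x) := fun x => sel_meas _ hD
  have hG : ∀ x, MeasurableSet (G x) := fun x =>
    (sel_meas _ hU.measurableSet).inter (sel_meas _ hV.measurableSet)
  have mE : ∀ x, MM (E x) = mm (DD U V n) := by
    intro x
    have := swap (d false x) _ univ hD MeasurableSet.univ
    simpa using this
  have mG : ∀ x, MM (G x) = mm U * mm V := fun x => swap _ U V hU.measurableSet hV.measurableSet
  have cnt : ∀ ξ : Xi, (Finset.univ.filter fun x => ξ ∈ E x).card ≤
      (Finset.univ.filter fun x => ξ ∈ G x).card := by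
    intro ξ
    refine reimer {x | sel (d false x) ξ ∈ U} {x | sel (d true x) ξ ∈ V} _ _ ?_ ?_
    · intro x hx
      obtain ⟨J, hJ1, hJ2⟩ := mem_iUnion.1 (Finset.mem_filter.1 hx).2
      refine ⟨fun i => decide ((i : ℕ) ∈ J), fun z hz => hJ1 _ ?_, fun z hz => hJ2 _ ?_⟩
      · rintro i ⟨hi, hn⟩
        have hn' : i < n := hn
        simp only [sel, d, dif_pos hn']
        rw [hz ⟨i, hn'⟩ (by simpa using hi)]
      · rintro i ⟨hi, hn⟩
        have hn' : i < n := hn
        simp only [sel, d, dif_pos hn']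
        rw [hz ⟨i, hn'⟩ (by simpa using hi)]
    · intro w h1 h2
      refine Finset.mem_filter.2 ⟨Finset.mem_univ _, h1, ?_⟩
      have : (fun i => !d false w i) = d true (fun i => !w i) := by
        funext i
        simp only [d]
        split_ifs <;> rfl
      rw [mem_preimage, this]
      exact h2
  have int : ∀ (H : (Fin n → Bool) → Set Xi), (∀ x, MeasurableSet (H x)) →
      ∑ x, MM (H x) = ∫⁻ ξ, ((Finset.univ.filter fun x => ξ ∈ H x).card : ℝ≥0∞) ∂MM := by
    intro H hH
    simp only [← lintegral_indicator_one (hH _)]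
    rw [← lintegral_finset_sum _ (fun x _ => measurable_one.indicator (hH x))]
    congr 1
    funext ξ
    rw [Finset.card_filter]
    push_cast
    refine Finset.sum_congr rfl fun x _ => ?_
    by_cases h : ξ ∈ H x <;> simp [h]
  have h1 : ∑ x, MM (E x) ≤ ∑ x, MM (G x) := by
    rw [int E hE, int G hG]
    exact lintegral_mono fun ξ => Nat.cast_le.2 (by convert cnt ξ)
  simp only [mE, mG, Finset.sum_const, nsmul_eq_mul] at h1
  refine (ENNReal.mul_le_mul_iff_right ?_ (ENNReal.natCast_ne_top _)).1 h1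
  exact_mod_cast Finset.card_ne_zero.2 Finset.univ_nonempty

def box (A B : Set Om) : Set Om := {ω | ∃ J K : Set ℕ, Disjoint J K ∧
  (∀ η : Om, (∀ i ∈ J, η i = ω i) → η ∈ A) ∧ (∀ η : Om, (∀ i ∈ K, η i = ω i) → η ∈ B)}

lemma box_open (A B U V : Set Om) (hA : A ⊆ U) (hB : B ⊆ V) (hU : IsOpen U) (hV : IsOpen V) :
    mm (box A B) ≤ mm U * mm V := by
  have hsub : box A B ⊆ ⋃ n, DD U V n := by
    rintro ω ⟨J, K, hJK, h1, h2⟩
    obtain ⟨n, hn⟩ := core_fin U hU J ω fun η hη => hA (h1 η hη)
    obtain ⟨m, hm⟩ := core_fin V hV K ω fun η hη => hB (h2 η hη)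
    refine mem_iUnion.2 ⟨max n m, mem_iUnion.2 ⟨J, core_mono U ?_ hn, core_mono V ?_ hm⟩⟩
    · exact inter_subset_inter_right _ (Iio_subset_Iio (le_max_left _ _))
    · exact inter_subset_inter hJK.subset_compl_left (Iio_subset_Iio (le_max_right _ _))
  have hmono : Monotone (DD U V) := by
    intro n m hnm ω hω
    obtain ⟨J, h1, h2⟩ := mem_iUnion.1 hω
    exact mem_iUnion.2 ⟨J, core_mono U (inter_subset_inter_right _ (Iio_subset_Iio hnm)) h1,
      core_mono V (inter_subset_inter_right _ (Iio_subset_Iio hnm)) h2⟩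
  refine (measure_mono hsub).trans ?_
  rw [hmono.measure_iUnion]
  exact iSup_le fun n => DD_bound U V hU hV n

theorem box_le (A B : Set Om) : mm (box A B) ≤ mm A * mm B := by
  have h1 : ∀ ε : ℝ≥0∞, ε ≠ 0 → mm (box A B) ≤ (mm A + ε) * (mm B + ε) := by
    intro ε hε
    obtain ⟨U, hA, hU, hU2⟩ := A.exists_isOpen_le_add mm hε
    obtain ⟨V, hB, hV, hV2⟩ := B.exists_isOpen_le_add mm hε
    exact (box_open A B U V hA hB hU hV).trans (mul_le_mul' hU2 hV2)
  have hA : Tendsto (fun k : ℕ => mm A + (k : ℝ≥0∞)⁻¹) atTop (𝓝 (mm A)) := by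
    simpa using tendsto_const_nhds.add ENNReal.tendsto_inv_nat_nhds_zero
  have hB : Tendsto (fun k : ℕ => mm B + (k : ℝ≥0∞)⁻¹) atTop (𝓝 (mm B)) := by
    simpa using tendsto_const_nhds.add ENNReal.tendsto_inv_nat_nhds_zero
  have h2 := ENNReal.Tendsto.mul hA (Or.inr (measure_ne_top _ _)) hB (Or.inr (measure_ne_top _ _))
  exact ge_of_tendsto' h2 fun k => h1 _ (by simp)

end Pool.Agent.H33.Reimer
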