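import Mathlib

namespace Pool.Agent.H33.Ric
open Classical

variable {V : Type} [Fintype V]

/-- Degree of a vertex. -/
noncomputable def deg (G : SimpleGraph V) (x : V) : ℕ := (G.neighborSet x).ncard

/-- The Ricci matrix: `-(1/d_x + 1/d_y)` on the diagonal, `1/d_x` for distinct edges meeting
in `x`, and `0` for disjoint edges. -/
noncomputable def ricci (G : SimpleGraph V) : Matrix G.edgeSet G.edgeSet ℝ := fun e e' =>
  (if e = e' then -1 else 1) * ∑ x : V, if x ∈ e.1 ∧ x ∈ e'.1 then 1 / (deg G x : ℝ) else 0

/-- The largest eigenvalue of the Ricci matrix. -/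
noncomputable def lmax (G : SimpleGraph V) : ℝ := sSup (spectrum ℝ (ricci G))

/-- Attach a new leaf `none` at the vertex `v`. -/
def attach (G : SimpleGraph V) (v : V) : SimpleGraph (Option V) where
  Adj a b := match a, b with
    | some x, some y => G.Adj x y
    | none, some y => y = v
    | some x, none => x = v
    | none, none => False
  symm := ⟨by rintro (_ | a) (_ | b) h <;> first | exact h | exact h.symm⟩
  loopless := ⟨by rintro (_ | a) h <;> first | exact h | exact G.loopless.1 a h⟩

end Pool.Agent.H33.Ric
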