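import Mathlib
import Pool.Agent.H33.RicDefs

namespace Pool.Agent.H33.Ric
open Classical Matrix

lemma upper {n : Type} [Fintype n] [DecidableEq n] (M : Matrix n n ℝ) (y : n → ℝ) (μ : ℝ)
    (hM : ∀ i j, i ≠ j → 0 ≤ M i j) (hy : ∀ i, 0 < y i) (h : ∀ i, (M *ᵥ y) i < μ * y i) :
    ∀ t ∈ spectrum ℝ M, t ≤ μ := by
  intro t ht
  by_contra hlt
  push Not at hlt
  rw [spectrum.mem_iff, Matrix.isUnit_iff_isUnit_det, isUnit_iff_ne_zero, not_not,
    ← Matrix.exists_mulVec_eq_zero_iff] at ht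
  obtain ⟨v, hv0, hv⟩ := ht
  obtain ⟨i0, hi0⟩ := Function.ne_iff.1 hv0
  have : Nonempty n := ⟨i0⟩
  obtain ⟨i, hi⟩ := Finite.exists_max (fun i => |v i| / y i)
  set c := |v i| / y i
  have hc : ∀ j, |v j| ≤ c * y j := fun j => (div_le_iff₀ (hy j)).1 (hi j)
  have hci : |v i| = c * y i := by rw [div_mul_cancel₀ _ (hy i).ne']
  have hc0 : 0 < c := lt_of_lt_of_le (div_pos (abs_pos.2 hi0) (hy i0)) (hi i0)
  have e1 : (t - M i i) * v i = ∑ j ∈ Finset.univ.erase i, M i j * v j := by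
    have := congrFun hv i
    rw [Matrix.sub_mulVec, Algebra.algebraMap_eq_smul_one, Matrix.smul_mulVec, one_mulVec] at this
    simp only [Pi.sub_apply, Pi.smul_apply, smul_eq_mul, Pi.zero_apply, mulVec, dotProduct] at this
    rw [← Finset.add_sum_erase _ _ (Finset.mem_univ i)] at this
    linarith
  have e2 : ∑ j ∈ Finset.univ.erase i, M i j * y j < (μ - M i i) * y i := by
    have := h i
    simp only [mulVec, dotProduct] at this
    rw [← Finset.add_sum_erase _ _ (Finset.mem_univ i)] at this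
    linarith
  have e3 : |∑ j ∈ Finset.univ.erase i, M i j * v j| ≤
      c * ∑ j ∈ Finset.univ.erase i, M i j * y j := by
    refine (Finset.abs_sum_le_sum_abs _ _).trans ?_
    rw [Finset.mul_sum]
    refine Finset.sum_le_sum fun j hj => ?_
    have h0 := hM i j (Finset.ne_of_mem_erase hj).symm
    rw [abs_mul, abs_of_nonneg h0]
    nlinarith [hc j]
  rw [← e1, abs_mul, hci] at e3
  have e4 := le_abs_self (t - M i i)
  have e5 := mul_pos hc0 (hy i)
  nlinarith [mul_lt_mul_of_pos_left e2 hc0]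

lemma lower {n : Type} [Fintype n] [DecidableEq n] (M : Matrix n n ℝ) (y : n → ℝ) (μ : ℝ)
    (hM : M.IsHermitian) (hy : ∀ i, 0 ≤ y i) (hy0 : y ≠ 0) (h : ∀ i, μ * y i ≤ (M *ᵥ y) i) :
    ∃ t ∈ spectrum ℝ M, μ ≤ t := by
  by_contra hlt
  push Not at hlt
  have hH : (algebraMap ℝ (Matrix n n ℝ) μ - M).IsHermitian := by
    rw [Algebra.algebraMap_eq_smul_one]
    exact (isHermitian_one.smul (IsSelfAdjoint.all μ)).sub hM
  have hP : (algebraMap ℝ (Matrix n n ℝ) μ - M).PosDef := by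
    rw [hH.posDef_iff_eigenvalues_pos]
    intro i
    have h1 := hH.eigenvalues_mem_spectrum_real i
    rw [← spectrum.singleton_sub_eq] at h1
    obtain ⟨a, ha, b, hb, hab⟩ := h1
    rw [Set.mem_singleton_iff] at ha
    have := hlt b hb
    simp only at hab
    rw [← hab, ha]; linarith
  have := hP.dotProduct_mulVec_pos hy0
  rw [Matrix.sub_mulVec, Algebra.algebraMap_eq_smul_one, Matrix.smul_mulVec, one_mulVec] at this
  simp only [star_trivial, dotProduct, Pi.sub_apply, Pi.smul_apply, smul_eq_mul] at this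
  have h2 : ∑ i, y i * (μ * y i - (M *ᵥ y) i) ≤ 0 :=
    Finset.sum_nonpos fun i _ => mul_nonpos_of_nonneg_of_nonpos (hy i) (by linarith [h i])
  linarith

variable {V : Type} [Fintype V]

lemma deg_eq (G : SimpleGraph V) (x : V) :
    (deg G x : ℝ) = ∑ w, if G.Adj x w then (1 : ℝ) else 0 := by
  unfold deg
  rw [Set.ncard_eq_toFinset_card']
  simp

lemma inc_sum (G : SimpleGraph V) (Y : Sym2 V → ℝ) (x : V) :
    ∑ e : G.edgeSet, (if x ∈ e.1 then Y e.1 else 0) =
      ∑ w, if G.Adj x w then Y s(x, w) else 0 := by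
  rw [← Finset.sum_filter, ← Finset.sum_filter]
  symm
  refine Finset.sum_bij (fun w hw => ⟨s(x, w), (Finset.mem_filter.1 hw).2⟩) ?_ ?_ ?_ ?_
  · intro w hw; simp
  · intro a ha b hb h
    exact Sym2.congr_right.1 (congrArg Subtype.val h)
  · rintro ⟨e, he⟩ hx
    obtain ⟨w, rfl⟩ := Sym2.mem_iff_exists.1 (Finset.mem_filter.1 hx).2
    exact ⟨w, Finset.mem_filter.2 ⟨Finset.mem_univ _, he⟩, rfl⟩
  · intros; rfl

lemma mv (G : SimpleGraph V) (Y : Sym2 V → ℝ) (p q : V) (h : G.Adj p q) :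
    (ricci G *ᵥ fun e => Y e.1) ⟨s(p, q), h⟩ =
      ((∑ w, if G.Adj p w then Y s(p, w) else 0) - 2 * Y s(p, q)) / deg G p +
      ((∑ w, if G.Adj q w then Y s(q, w) else 0) - 2 * Y s(p, q)) / deg G q := by
  have key : ∀ e' : G.edgeSet, ricci G ⟨s(p, q), h⟩ e' * Y e'.1 =
      ((if p ∈ e'.1 then Y e'.1 else 0) / deg G p + (if q ∈ e'.1 then Y e'.1 else 0) / deg G q)
      - if e' = ⟨s(p, q), h⟩ then 2 * Y s(p, q) / deg G p + 2 * Y s(p, q) / deg G q else 0 := by
    intro e'
    have e1 : (∑ x : V, if x ∈ s(p, q) ∧ x ∈ e'.1 then 1 / (deg G x : ℝ) else 0) =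
        (if p ∈ e'.1 then 1 / (deg G p : ℝ) else 0) + if q ∈ e'.1 then 1 / (deg G q : ℝ) else 0 := by
      rw [← Finset.sum_pair (f := fun x => if x ∈ e'.1 then 1 / (deg G x : ℝ) else 0) h.ne]
      symm
      refine Finset.sum_subset_zero_on_sdiff (Finset.subset_univ _) ?_ ?_
      · intro x hx
        simp only [Finset.mem_sdiff, Finset.mem_univ, Finset.mem_insert, Finset.mem_singleton,
          true_and] at hx
        simp [hx]
      · intro x hx
        simp only [Finset.mem_insert, Finset.mem_singleton] at hx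
        simp [hx]
    simp only [ricci, e1]
    by_cases he : e' = ⟨s(p, q), h⟩
    · subst he; simp; ring
    · rw [if_neg he, if_neg (Ne.symm he)]
      split_ifs <;> ring
  simp only [mulVec, dotProduct, key, Finset.sum_sub_distrib, Finset.sum_add_distrib,
    ← Finset.sum_div, inc_sum, Finset.sum_ite_eq', Finset.mem_univ, if_true]
  ring

lemma herm (G : SimpleGraph V) : (ricci G).IsHermitian := by
  ext e e'
  simp only [conjTranspose_apply, star_trivial, ricci, and_comm, eq_comm]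

lemma offd (G : SimpleGraph V) (e e' : G.edgeSet) (h : e ≠ e') : 0 ≤ ricci G e e' := by
  simp only [ricci, if_neg h, one_mul]
  exact Finset.sum_nonneg fun x _ => by split_ifs <;> positivity

lemma lmax_le (G : SimpleGraph V) (y : G.edgeSet → ℝ) (μ : ℝ) (h0 : 0 ≤ μ) (hy : ∀ i, 0 < y i)
    (h : ∀ i, (ricci G *ᵥ y) i < μ * y i) : lmax G ≤ μ :=
  Real.sSup_le (upper _ y _ (offd _) hy h) h0

lemma le_lmax (G : SimpleGraph V) (y : G.edgeSet → ℝ) (μ : ℝ) (hy : ∀ i, 0 ≤ y i) (hy0 : y ≠ 0)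
    (h : ∀ i, μ * y i ≤ (ricci G *ᵥ y) i) : μ ≤ lmax G := by
  obtain ⟨t, ht, h⟩ := lower (ricci G) y μ (herm G) hy hy0 h
  exact h.trans (le_csSup (Matrix.finite_spectrum _).bddAbove ht)

lemma deg_degree (G : SimpleGraph V) (x : V) : deg G x = G.degree x := by
  unfold deg
  rw [Set.ncard_eq_toFinset_card']
  rfl

lemma sumA (G : SimpleGraph V) (r : V) (F : Option V → ℝ) (x : V) :
    (∑ w, if (attach G r).Adj (some x) w then F w else 0) =
    (if x = r then F none else 0) + ∑ w, if G.Adj x w then F (some w) else 0 := by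
  rw [Fintype.sum_option]; rfl

lemma sumN (G : SimpleGraph V) (r : V) (F : Option V → ℝ) :
    (∑ w, if (attach G r).Adj none w then F w else 0) = F (some r) := by
  rw [Fintype.sum_option, if_neg (attach G r).irrefl, zero_add, Finset.sum_eq_single r]
  · exact if_pos rfl
  · intro b _ hb; exact if_neg hb
  · simp

end Pool.Agent.H33.Ric
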