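import Mathlib

set_option autoImplicit false

namespace Pool.Agent.H33.SelfSq

/-- Seven generators. -/
abbrev G := Option (Bool × Fin 3)

/-- The relations `t i * s j = δ i j`. -/
inductive Rel : FreeAlgebra ℤ G → FreeAlgebra ℤ G → Prop
  | mk (i j : Fin 3) : Rel (FreeAlgebra.ι ℤ (some (true, i)) * FreeAlgebra.ι ℤ (some (false, j)))
      (if i = j then 1 else 0)

/-- The auxiliary ring. -/
abbrev A := RingQuot Rel

/-- Images of the generators. -/
noncomputable def g (a : G) : A := RingQuot.mkAlgHom ℤ Rel (FreeAlgebra.ι ℤ a)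

/-- The isometries. -/
noncomputable abbrev s (i : Fin 3) : A := g (some (false, i))
/-- Their left inverses. -/
noncomputable abbrev t (i : Fin 3) : A := g (some (true, i))
/-- The free generator. -/
noncomputable abbrev x : A := g none

lemma ts (i j : Fin 3) : t i * s j = if i = j then 1 else 0 := by
  have := RingQuot.mkAlgHom_rel ℤ (Rel.mk i j)
  rw [map_mul] at this
  refine this.trans ?_
  split_ifs <;> simp

lemma ts' (i j : Fin 3) (w : A) : t i * (s j * w) = if i = j then w else 0 := by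
  rw [← mul_assoc, ts]; split_ifs <;> simp

/-- A homomorphism out of `A` from images of the generators. -/
noncomputable def lift {B : Type} [Ring B] (f : G → B)
    (h : ∀ i j, f (some (true, i)) * f (some (false, j)) = if i = j then 1 else 0) : A →ₐ[ℤ] B :=
  RingQuot.liftAlgHom ℤ ⟨FreeAlgebra.lift ℤ f, by
    rintro _ _ ⟨i, j⟩
    rw [map_mul, FreeAlgebra.lift_ι_apply, FreeAlgebra.lift_ι_apply, h]
    split_ifs <;> simp⟩

lemma lift_g {B : Type} [Ring B] (f : G → B)
    (h : ∀ i j, f (some (true, i)) * f (some (false, j)) = if i = j then 1 else 0) (a : G) :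
    lift f h (g a) = f a := by
  unfold lift g
  rw [RingQuot.liftAlgHom_mkAlgHom_apply, FreeAlgebra.lift_ι_apply]

lemma ind (p : A → Prop) (h0 : ∀ r : ℤ, p (r : A)) (hg : ∀ a, p (g a))
    (hm : ∀ a b, p a → p b → p (a * b)) (ha : ∀ a b, p a → p b → p (a + b)) (a : A) : p a := by
  obtain ⟨b, rfl⟩ := RingQuot.mkAlgHom_surjective ℤ Rel a
  induction b using FreeAlgebra.induction with
  | grade0 r => rw [AlgHom.commutes]; simpa using h0 r
  | grade1 a => exact hg a
  | mul a b h1 h2 => rw [map_mul]; exact hm _ _ h1 h2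
  | add a b h1 h2 => rw [map_add]; exact ha _ _ h1 h2

/-- A model of the relations on integer sequences. -/
def model : G → Module.End ℤ (ℕ → ℤ)
  | none => 0
  | some (true, i) =>
    { toFun := fun f n => f (3 * n + i.val)
      map_add' := fun _ _ => rfl
      map_smul' := fun _ _ => rfl }
  | some (false, i) =>
    { toFun := fun f n => if n % 3 = i.val then f (n / 3) else 0
      map_add' := fun f f' => by funext n; by_cases h : n % 3 = i.val <;> simp [h]
      map_smul' := fun c f => by funext n; by_cases h : n % 3 = i.val <;> simp [h] }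

lemma one_ne : (1 : A) ≠ 0 := by
  intro h
  have hm : ∀ i j, model (some (true, i)) * model (some (false, j)) = if i = j then 1 else 0 := by
    intro i j
    ext1 f
    funext n
    have hi := i.2
    have e1 : (3 * n + i.val) % 3 = i.val := by omega
    have e2 : (3 * n + i.val) / 3 = n := by omega
    change (if (3 * n + i.val) % 3 = j.val then f ((3 * n + i.val) / 3) else 0) = _
    rw [e1, e2]
    by_cases e : i = j
    · simp [e]
    · have : ¬ i.val = j.val := fun e' => e (Fin.ext e')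
      simp [e, this]
  have := congrArg (lift model hm) h
  rw [map_one, map_zero] at this
  exact one_ne_zero this

/-- First coordinate map. -/
noncomputable def f0 : A →ₐ[ℤ] A :=
  lift (fun a => match a with
    | none => s 0 * t 0 + s 1 * (x * t 1)
    | some b => g (some b)) ts

/-- Second coordinate map. -/
noncomputable def f1 : A →ₐ[ℤ] A :=
  lift (fun a => match a with
    | none => s 2 * (x * t 2)
    | some b => g (some b)) ts

lemma f0_some (b : Bool × Fin 3) : f0 (g (some b)) = g (some b) := lift_g _ _ _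
lemma f1_some (b : Bool × Fin 3) : f1 (g (some b)) = g (some b) := lift_g _ _ _
lemma f0_x : f0 x = s 0 * t 0 + s 1 * (x * t 1) := lift_g _ _ _
lemma f1_x : f1 x = s 2 * (x * t 2) := lift_g _ _ _

lemma e0 : f0 (t 0 * x * s 0) = 1 ∧ f1 (t 0 * x * s 0) = 0 := by
  simp [map_mul, f0_some, f1_some, f0_x, f1_x, mul_add, add_mul, mul_assoc, ts, ts']

lemma e1 : f0 (t 1 * x * s 1) = x ∧ f1 (t 1 * x * s 1) = 0 := by
  simp [map_mul, f0_some, f1_some, f0_x, f1_x, mul_add, add_mul, mul_assoc, ts, ts']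

lemma e2 : f0 (t 2 * x * s 2) = 0 ∧ f1 (t 2 * x * s 2) = x := by
  simp [map_mul, f0_some, f1_some, f0_x, f1_x, mul_add, add_mul, mul_assoc, ts, ts']

lemma surj0 (a : A) : ∃ b, f0 b = a ∧ f1 b = 0 := by
  induction a using ind with
  | h0 r => exact ⟨r * (t 0 * x * s 0), by rw [map_mul, e0.1]; simp, by rw [map_mul, e0.2]; simp⟩
  | hg a =>
    rcases a with _ | b
    · exact ⟨_, e1⟩
    · exact ⟨g (some b) * (t 0 * x * s 0), by rw [map_mul, e0.1, f0_some, mul_one],
        by rw [map_mul, e0.2, mul_zero]⟩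
  | hm a b h1 h2 =>
    obtain ⟨c, c0, c1⟩ := h1
    obtain ⟨d, d0, d1⟩ := h2
    exact ⟨c * d, by rw [map_mul, c0, d0], by rw [map_mul, c1, zero_mul]⟩
  | ha a b h1 h2 =>
    obtain ⟨c, c0, c1⟩ := h1
    obtain ⟨d, d0, d1⟩ := h2
    exact ⟨c + d, by rw [map_add, c0, d0], by rw [map_add, c1, d1, add_zero]⟩

lemma surj1 (a : A) : ∃ b, f0 b = 0 ∧ f1 b = a := by
  induction a using ind with
  | h0 r =>
    exact ⟨r * (1 - t 0 * x * s 0), by rw [map_mul, map_sub, e0.1]; simp,
      by rw [map_mul, map_sub, e0.2]; simp⟩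
  | hg a =>
    rcases a with _ | b
    · exact ⟨_, e2⟩
    · exact ⟨g (some b) * (1 - t 0 * x * s 0), by rw [map_mul, map_sub, e0.1]; simp,
        by rw [map_mul, map_sub, e0.2, f1_some]; simp⟩
  | hm a b h1 h2 =>
    obtain ⟨c, c0, c1⟩ := h1
    obtain ⟨d, d0, d1⟩ := h2
    exact ⟨c * d, by rw [map_mul, c0, zero_mul], by rw [map_mul, c1, d1]⟩
  | ha a b h1 h2 =>
    obtain ⟨c, c0, c1⟩ := h1
    obtain ⟨d, d0, d1⟩ := h2
    exact ⟨c + d, by rw [map_add, c0, d0, add_zero], by rw [map_add, c1, d1]⟩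

/-- Killed after `n` splittings. -/
def P : ℕ → A → Prop
  | 0, a => a = 0
  | n + 1, a => P n (f0 a) ∧ P n (f1 a)

lemma P_zero (n : ℕ) : P n 0 := by
  induction n with
  | zero => rfl
  | succ n ih => exact ⟨by rwa [map_zero], by rwa [map_zero]⟩

lemma P_succ (n : ℕ) : ∀ a, P n a → P (n + 1) a := by
  induction n with
  | zero => rintro a rfl; exact P_zero 1
  | succ n ih => exact fun a h => ⟨ih _ h.1, ih _ h.2⟩

lemma P_le {m n : ℕ} (h : m ≤ n) {a : A} (ha : P m a) : P n a := by
  induction h with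
  | refl => exact ha
  | step _ ih => exact P_succ _ _ ih

lemma P_add (n : ℕ) : ∀ a b, P n a → P n b → P n (a + b) := by
  induction n with
  | zero => rintro a b rfl rfl; exact add_zero 0
  | succ n ih =>
    exact fun a b h h' => ⟨by rw [map_add]; exact ih _ _ h.1 h'.1,
      by rw [map_add]; exact ih _ _ h.2 h'.2⟩

lemma P_mul (n : ℕ) : ∀ a b c, P n b → P n (a * b * c) := by
  induction n with
  | zero => rintro a b c rfl; change a * 0 * c = 0; simp
  | succ n ih =>
    exact fun a b c h => ⟨by rw [map_mul, map_mul]; exact ih _ _ _ h.1,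
      by rw [map_mul, map_mul]; exact ih _ _ _ h.2⟩

lemma not_P_one (n : ℕ) : ¬ P n 1 := by
  induction n with
  | zero => exact one_ne
  | succ n ih => exact fun h => ih (by simpa using h.1)

/-- The ideal of elements killed after finitely many splittings. -/
def K : Ideal A where
  carrier := {a | ∃ n, P n a}
  add_mem' := by
    rintro a b ⟨m, ha⟩ ⟨n, hb⟩
    exact ⟨max m n, P_add _ _ _ (P_le (le_max_left _ _) ha) (P_le (le_max_right _ _) hb)⟩
  zero_mem' := ⟨0, rfl⟩
  smul_mem' := by
    rintro c a ⟨n, ha⟩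
    exact ⟨n, by simpa using P_mul n c a 1 ha⟩

instance : K.IsTwoSided := ⟨by
  rintro a b ⟨n, ha⟩
  exact ⟨n, by simpa using P_mul n 1 a b ha⟩⟩

lemma mem_K (a : A) : a ∈ K ↔ f0 a ∈ K ∧ f1 a ∈ K := by
  constructor
  · rintro ⟨n, h⟩
    have := P_succ n a h
    exact ⟨⟨n, this.1⟩, ⟨n, this.2⟩⟩
  · rintro ⟨⟨m, h⟩, ⟨n, h'⟩⟩
    exact ⟨max m n + 1, P_le (le_max_left _ _) h, P_le (le_max_right _ _) h'⟩

/-- The splitting map on the quotient. -/
noncomputable def split : A ⧸ K →+* (A ⧸ K) × (A ⧸ K) :=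
  Ideal.Quotient.lift K
    (((Ideal.Quotient.mk K).comp (f0 : A →+* A)).prod ((Ideal.Quotient.mk K).comp (f1 : A →+* A)))
    (fun a ha => Prod.ext (Ideal.Quotient.eq_zero_iff_mem.mpr ((mem_K a).mp ha).1)
      (Ideal.Quotient.eq_zero_iff_mem.mpr ((mem_K a).mp ha).2))

lemma split_mk (a : A) :
    split (Ideal.Quotient.mk K a) = (Ideal.Quotient.mk K (f0 a), Ideal.Quotient.mk K (f1 a)) := rfl

lemma split_bij : Function.Bijective split := by
  constructor
  · rw [injective_iff_map_eq_zero]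
    intro a h
    obtain ⟨b, rfl⟩ := Ideal.Quotient.mk_surjective a
    rw [split_mk] at h
    exact Ideal.Quotient.eq_zero_iff_mem.mpr ((mem_K b).mpr
      ⟨Ideal.Quotient.eq_zero_iff_mem.mp (congrArg Prod.fst h),
        Ideal.Quotient.eq_zero_iff_mem.mp (congrArg Prod.snd h)⟩)
  · rintro ⟨u, v⟩
    obtain ⟨a, rfl⟩ := Ideal.Quotient.mk_surjective u
    obtain ⟨b, rfl⟩ := Ideal.Quotient.mk_surjective v
    obtain ⟨c, c0, c1⟩ := surj0 a
    obtain ⟨d, d0, d1⟩ := surj1 b
    refine ⟨Ideal.Quotient.mk K (c + d), ?_⟩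
    rw [split_mk, map_add f0, map_add f1, c0, c1, d0, d1, add_zero, zero_add]

theorem main : ∃ (R : Type) (_ : Ring R), Nontrivial R ∧
    (∃ S : Finset R, Subring.closure (S : Set R) = ⊤) ∧ Nonempty (R ≃+* R × R) := by
  classical
  refine ⟨A ⧸ K, inferInstance, ⟨1, 0, fun h => ?_⟩,
    ⟨Finset.univ.image fun a : G => Ideal.Quotient.mk K (g a), ?_⟩,
    ⟨RingEquiv.ofBijective split split_bij⟩⟩
  · obtain ⟨n, hn⟩ : (1 : A) ∈ K := Ideal.Quotient.eq_zero_iff_mem.mp h
    exact not_P_one n hn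
  · rw [eq_top_iff]
    rintro u -
    obtain ⟨a, rfl⟩ := Ideal.Quotient.mk_surjective u
    induction a using ind with
    | h0 r => rw [map_intCast]; exact intCast_mem _ r
    | hg a => exact Subring.subset_closure (by simp)
    | hm a b h1 h2 => rw [map_mul]; exact Subring.mul_mem _ h1 h2
    | ha a b h1 h2 => rw [map_add]; exact Subring.add_mem _ h1 h2

end Pool.Agent.H33.SelfSq
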