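import Mathlib

namespace Pool.Agent.H33.Skew

variable {V : Type} (G : SimpleGraph V)

/-- The vertices that eventually turn blue under the skew forcing rule started from `S`. -/
inductive Blue (S : Set V) : V → Prop
  | base {v : V} : v ∈ S → Blue S v
  | force {u w : V} : G.Adj u w → (∀ y, G.Adj u y → y ≠ w → Blue S y) → Blue S w

def Forcing (S : Set V) : Prop := ∀ v, Blue G S v

def Fort (F : Set V) : Prop := F.Nonempty ∧ ∀ v, (G.neighborSet v ∩ F).ncard ≠ 1

/-- Every element of `S` has a private skew fort. -/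
def Ir (S : Set V) : Prop := ∀ u ∈ S, ∃ F, Fort G F ∧ F ∩ S = {u}

noncomputable def zir : ℕ := sInf {n | ∃ S, Maximal (Ir G) S ∧ S.ncard = n}
noncomputable def Z : ℕ := sInf {n | ∃ S, Forcing G S ∧ S.ncard = n}
noncomputable def Zbar : ℕ := sSup {n | ∃ S, Minimal (Forcing G) S ∧ S.ncard = n}
noncomputable def ZIR : ℕ := sSup {n | ∃ S, Maximal (Ir G) S ∧ S.ncard = n}

end Pool.Agent.H33.Skew
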