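import Pool.Agent.H33.Std3

set_option autoImplicit false

namespace Pool.Agent.H33.So3

open Pool.Agent.H33.Std3

/-- First generator. -/
def X : Mx := !![0, 0, 0; 0, 0, 1; 0, 1, 0]
/-- Second generator. -/
def Y : Mx := !![0, 0, 1; 0, 0, 0; 1, 0, 0]
/-- Third generator. -/
def Z : Mx := !![0, 1, 0; 1, 0, 0; 0, 0, 0]

variable {A : Type} [Ring A] [Algebra F A]

/-- The defining relations. -/
structure Rels (x y z : A) : Prop where
  yx : y * x = x * y + z
  zy : z * y = y * z + x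
  zx : z * x = x * z + y
  zz : z * z = x * x + y * y
  x4 : x * (x * (x * x)) = x * x
  y4 : y * (y * (y * y)) = y * y
  gen : ∀ S : Subalgebra F A, x ∈ S → y ∈ S → z ∈ S → ∀ a, a ∈ S

lemma block {x y z : A} (h : Rels x y z) (ρ : A →ₐ[F] Mx) (W : Ideal A) (v : Fin 3 → A)
    (hx : ∀ i, x * v i - ∑ j, ρ x j i • v j ∈ W) (hy : ∀ i, y * v i - ∑ j, ρ y j i • v j ∈ W)
    (hz : ∀ i, z * v i - ∑ j, ρ z j i • v j ∈ W) (k : A) (hk : ρ k = 0) (i : Fin 3) :
    k * v i ∈ W := by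
  have sm : ∀ (c : F) (w : A), w ∈ W → c • w ∈ W := fun c w hw => by
    rw [Algebra.smul_def]; exact W.mul_mem_left _ hw
  let S : Subalgebra F A :=
    { carrier := {a | ∀ i, a * v i - ∑ j, ρ a j i • v j ∈ W}
      mul_mem' := by
        intro a b ha hb i
        have e : a * b * v i - ∑ j, ρ (a * b) j i • v j =
            a * (b * v i - ∑ l, ρ b l i • v l) +
              ∑ l, ρ b l i • (a * v l - ∑ j, ρ a j l • v j) := by
          simp only [map_mul, Matrix.mul_apply, Fin.sum_univ_three, mul_sub, mul_add,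
            mul_smul_comm, mul_assoc]
          module
        rw [e]
        exact W.add_mem (W.mul_mem_left _ (hb i)) (W.sum_mem fun l _ => sm _ _ (ha l))
      add_mem' := by
        intro a b ha hb i
        have e : (a + b) * v i - ∑ j, ρ (a + b) j i • v j =
            (a * v i - ∑ l, ρ a l i • v l) + (b * v i - ∑ l, ρ b l i • v l) := by
          simp only [map_add, Matrix.add_apply, Fin.sum_univ_three, add_mul]
          module
        rw [e]
        exact W.add_mem (ha i) (hb i)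
      algebraMap_mem' := by
        intro c i
        have e : algebraMap F A c * v i - ∑ j, ρ (algebraMap F A c) j i • v j = 0 := by
          rw [AlgHom.commutes, ← Algebra.smul_def]
          simp [Matrix.algebraMap_matrix_apply]
        rw [e]
        exact W.zero_mem }
  have := h.gen S hx hy hz k i
  simpa [hk] using this

lemma blockP {x y z : A} (h : Rels x y z) (π : A →ₐ[F] Mx) (px : π x = X) (py : π y = Y)
    (pz : π z = Z) (W : Ideal A) (a b c : A)
    (h1 : x * a ∈ W) (h2 : x * b - c ∈ W) (h3 : x * c - b ∈ W)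
    (h4 : y * a - c ∈ W) (h5 : y * b ∈ W) (h6 : y * c - a ∈ W)
    (h7 : z * a - b ∈ W) (h8 : z * b - a ∈ W) (h9 : z * c ∈ W) (k : A) (hk : π k = 0) :
    k * a ∈ W ∧ k * b ∈ W ∧ k * c ∈ W := by
  have := block h π W ![a, b, c]
    (by intro i; fin_cases i <;> simpa [px, X, Fin.sum_univ_three])
    (by intro i; fin_cases i <;> simpa [py, Y, Fin.sum_univ_three])
    (by intro i; fin_cases i <;> simpa [pz, Z, Fin.sum_univ_three]) k hk
  exact ⟨this 0, this 1, this 2⟩

lemma blockE {x y z : A} (h : Rels x y z) (ε : A →ₐ[F] Mx) (px : ε x = 0) (py : ε y = 0)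
    (pz : ε z = 0) (W : Ideal A) (w : A) (h1 : x * w ∈ W) (h2 : y * w ∈ W) (h3 : z * w ∈ W)
    (k : A) (hk : ε k = 0) : k * w ∈ W :=
  block h ε W (fun _ => w) (by intro i; simpa [px]) (by intro i; simpa [py])
    (by intro i; simpa [pz]) k hk 0

lemma step (π ε : A →ₐ[F] Mx) (s : Set A) (W : Ideal A)
    (hs : ∀ w ∈ s, ∀ k, π k = 0 → ε k = 0 → k * w ∈ W) (w : A) (hw : w ∈ Ideal.span s) :
    ∀ k, π k = 0 → ε k = 0 → k * w ∈ W := by
  induction hw using Submodule.span_induction with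
  | mem w hw => exact hs w hw
  | zero => intro k _ _; simp
  | add a b _ _ ha hb => intro k h1 h2; rw [mul_add]; exact W.add_mem (ha k h1 h2) (hb k h1 h2)
  | smul r a _ ha =>
    intro k h1 h2
    rw [smul_eq_mul, ← mul_assoc]
    exact ha _ (by simp [h1]) (by simp [h2])

/-- Idempotent of weight zero. -/
def EO (x y : A) : A := (1 + x * x) * (1 + y * y)
/-- Idempotent of the first nonzero weight. -/
def EA (x y : A) : A := (1 + x * x) * (y * y)

lemma one_smul_inj {a b : A} (h : (1 : F) • a = (1 : F) • b) : a = b := by simpa using h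

lemma ids {x y z : A} (h : Rels x y z) (O E : A) (hO : O = EO x y) (hE : E = EA x y) :
    (1 = O + E + z * E * z + y * E * y) ∧
    (x * (z * E) - y * E = z * (x * E)) ∧ (x * (y * E) - z * E = y * (x * E)) ∧
    (y * (y * E) - E = 0) ∧ (z * (z * E) - E = 0) ∧ (z * (y * E) = y * (z * E) + x * E) ∧
    (z * O = x * (y * O) + y * (x * O)) ∧
    (x * (x * E) = 0) ∧ (y * (y * (z * E)) = 0) ∧ (z * (y * (z * E)) = z * (x * E)) ∧
    (x * (x * O) = 0) ∧ (x * (z * (x * O)) - y * (x * O) = 0) ∧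
    (x * (y * (x * O)) - z * (x * O) = 0) ∧ (y * (z * (x * O)) = x * (y * (z * O))) ∧
    (y * (y * (x * O)) - x * O = 0) ∧ (z * (z * (x * O)) - x * O = 0) ∧
    (z * (y * (x * O)) = x * (y * (z * O))) ∧
    (x * (z * (y * O)) = x * (y * (z * O))) ∧ (x * (x * (y * O)) - y * O = 0) ∧
    (y * (z * (y * O)) - x * (y * O) = 0) ∧ (y * (y * O) = 0) ∧
    (y * (x * (y * O)) - z * (y * O) = 0) ∧ (z * (z * (y * O)) - y * O = 0) ∧
    (z * (x * (y * O)) = x * (y * (z * O))) ∧
    (x * (x * (y * (z * E))) = 0) ∧ (x * (y * (x * E)) - z * (x * E) = 0) ∧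
    (x * (z * (x * E)) - y * (x * E) = 0) ∧ (y * (x * (y * (z * E))) - z * (x * E) = 0) ∧
    (y * (y * (x * E)) = 0) ∧ (y * (z * (x * E)) - x * (y * (z * E)) = 0) ∧
    (z * (x * (y * (z * E))) - y * (x * E) = 0) ∧ (z * (y * (x * E)) - x * (y * (z * E)) = 0) ∧
    (z * (z * (x * E)) = 0) ∧
    (x * (x * (y * (z * O))) = 0) ∧ (y * (x * (y * (z * O))) = 0) ∧
    (z * (x * (y * (z * O))) = 0) := by
  have yx' : ∀ w, y * (x * w) = x * (y * w) + z * w := fun w => by
    rw [← mul_assoc, h.yx, add_mul, mul_assoc]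
  have zy' : ∀ w, z * (y * w) = y * (z * w) + x * w := fun w => by
    rw [← mul_assoc, h.zy, add_mul, mul_assoc]
  have zx' : ∀ w, z * (x * w) = x * (z * w) + y * w := fun w => by
    rw [← mul_assoc, h.zx, add_mul, mul_assoc]
  have zz' : ∀ w, z * (z * w) = x * (x * w) + y * (y * w) := fun w => by
    rw [← mul_assoc, h.zz, add_mul, mul_assoc, mul_assoc]
  have x4' : ∀ w, x * (x * (x * (x * w))) = x * (x * w) := fun w => by
    have := congrArg (· * w) h.x4
    simpa only [mul_assoc] using this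
  have y4' : ∀ w, y * (y * (y * (y * w))) = y * (y * w) := fun w => by
    have := congrArg (· * w) h.y4
    simpa only [mul_assoc] using this
  subst hO hE
  refine ⟨?_, ?_, ?_, ?_, ?_, ?_, ?_, ?_, ?_, ?_, ?_, ?_, ?_, ?_, ?_, ?_, ?_, ?_, ?_, ?_, ?_, ?_,
    ?_, ?_, ?_, ?_, ?_, ?_, ?_, ?_, ?_, ?_, ?_, ?_, ?_, ?_⟩
  all_goals
    simp only [EO, EA, mul_add, add_mul, mul_assoc, one_mul, mul_one, yx', zy', zx', zz', x4', y4',
      h.yx, h.zy, h.zx, h.zz, h.x4, h.y4]
  all_goals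
    apply one_smul_inj
    match_scalars <;> decide

lemma cube_zero {x y z : A} (h : Rels x y z) (π ε : A →ₐ[F] Mx) (px : π x = X) (py : π y = Y)
    (pz : π z = Z) (ex : ε x = 0) (ey : ε y = 0) (ez : ε z = 0) (k : A) (hπ : π k = 0)
    (hε : ε k = 0) : k ^ 3 = 0 := by
  obtain ⟨i0, i1, i2, i3, i4, i5, i6, i7, i8, i9, i10, i11, i12, i13, i14, i15, i16, i17, i18, i19,
    i20, i21, i22, i23, i24, i25, i26, i27, i28, i29, i30, i31, i32, i33, i34, i35⟩ :=
    ids h _ _ rfl rfl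
  generalize EO x y = O at *
  generalize EA x y = E at *
  have l1 : ∀ w ∈ Ideal.span ({x * (y * (z * E)), y * (x * E), z * (x * E), x * (y * (z * O))} : Set A),
      ∀ k, π k = 0 → ε k = 0 → k * w ∈ (⊥ : Ideal A) := by
    refine step π ε _ _ fun w hw k h1 h2 => ?_
    obtain ⟨a, b, c⟩ := blockP h π px py pz ⊥ (x * (y * (z * E))) (y * (x * E)) (z * (x * E))
      i24 i25 i26 i27 i28 i29 i30 i31 i32 k h1
    have d := blockE h ε ex ey ez ⊥ (x * (y * (z * O))) i33 i34 i35 k h2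
    rcases hw with rfl | rfl | rfl | rfl <;> assumption
  generalize hW1 : Ideal.span
    ({x * (y * (z * E)), y * (x * E), z * (x * E), x * (y * (z * O))} : Set A) = W1 at l1
  have g1 : x * (y * (z * E)) ∈ W1 := hW1 ▸ Ideal.subset_span (by simp)
  have g2 : y * (x * E) ∈ W1 := hW1 ▸ Ideal.subset_span (by simp)
  have g3 : z * (x * E) ∈ W1 := hW1 ▸ Ideal.subset_span (by simp)
  have g4 : x * (y * (z * O)) ∈ W1 := hW1 ▸ Ideal.subset_span (by simp)
  have z1 : ∀ {w : A}, w = 0 → w ∈ W1 := fun e => e ▸ W1.zero_mem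
  have l2 : ∀ w ∈ Ideal.span ({x * E, y * (z * E), x * O, y * O} : Set A),
      ∀ k, π k = 0 → ε k = 0 → k * w ∈ W1 := by
    refine step π ε _ _ fun w hw k h1 h2 => ?_
    have a := blockE h ε ex ey ez W1 (x * E) (z1 i7) g2 g3 k h2
    have b := blockE h ε ex ey ez W1 (y * (z * E)) g1 (z1 i8) (i9 ▸ g3) k h2
    have c := (blockP h π px py pz W1 (x * O) (z * (x * O)) (y * (x * O)) (z1 i10) (z1 i11) (z1 i12)
      (z1 (sub_self _)) (i13 ▸ g4) (z1 i14) (z1 (sub_self _)) (z1 i15) (i16 ▸ g4) k h1).1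
    have d := (blockP h π px py pz W1 (z * (y * O)) (y * O) (x * (y * O)) (i17 ▸ g4)
      (z1 (sub_self _)) (z1 i18) (z1 i19) (z1 i20) (z1 i21) (z1 i22) (z1 (sub_self _)) (i23 ▸ g4)
      k h1).2.1
    rcases hw with rfl | rfl | rfl | rfl <;> assumption
  generalize hW2 : Ideal.span ({x * E, y * (z * E), x * O, y * O} : Set A) = W2 at l2
  have f1 : x * E ∈ W2 := hW2 ▸ Ideal.subset_span (by simp)
  have f2 : y * (z * E) ∈ W2 := hW2 ▸ Ideal.subset_span (by simp)
  have f3 : x * O ∈ W2 := hW2 ▸ Ideal.subset_span (by simp)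
  have f4 : y * O ∈ W2 := hW2 ▸ Ideal.subset_span (by simp)
  have z2 : ∀ {w : A}, w = 0 → w ∈ W2 := fun e => e ▸ W2.zero_mem
  obtain ⟨a, b, c⟩ := blockP h π px py pz W2 E (z * E) (y * E) f1 (i1 ▸ W2.mul_mem_left _ f1)
    (i2 ▸ W2.mul_mem_left _ f1) (z2 (sub_self _)) f2 (z2 i3) (z2 (sub_self _)) (z2 i4)
    (i5 ▸ W2.add_mem f2 f1) k hπ
  have d := blockE h ε ex ey ez W2 O f3 f4
    (i6 ▸ W2.add_mem (W2.mul_mem_left _ f4) (W2.mul_mem_left _ f3)) k hε
  have fin : ∀ w, k * w ∈ W2 → k ^ 3 * w = 0 := fun w hw => by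
    have := l1 _ (l2 _ hw k hπ hε) k hπ hε
    rw [Ideal.mem_bot] at this
    rw [← this]
    simp only [pow_succ, pow_zero, one_mul, mul_assoc]
  calc k ^ 3 = k ^ 3 * (O + E + z * E * z + y * E * y) := by rw [← i0, mul_one]
    _ = k ^ 3 * O + k ^ 3 * E + k ^ 3 * (z * E) * z + k ^ 3 * (y * E) * y := by
      simp only [mul_add, mul_assoc]
    _ = 0 := by rw [fin _ a, fin _ b, fin _ c, fin _ d]; simp

end Pool.Agent.H33.So3
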