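import Mathlib

namespace Pool.Agent.H33.Sos
open Finset
open scoped Classical

lemma drc {V A B : Type} [Fintype V] [Fintype A] [Fintype B] (R : A → B → Prop) (δ : ℝ) (hδ : 0 < δ)
    (hδ1 : δ ≤ 1)
    (hR : δ * Fintype.card A * Fintype.card B ≤ #(univ.filter fun p : A × B => R p.1 p.2))
    (hA : 4 * (Fintype.card V + 1) ≤ δ * Fintype.card A) :
    ∃ x : V ↪ A, δ / 2 * (δ / 4) ^ Fintype.card V * Fintype.card B ≤
      #(univ.filter fun b : B => ∀ v, R (x v) b) := by
  set t := Fintype.card V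
  set a : ℝ := (Fintype.card A : ℝ) with ha
  have ht0 : (0 : ℝ) ≤ t := by positivity
  have hapos : 0 < a := by
    by_contra h
    have : a = 0 := le_antisymm (not_lt.1 h) (by positivity)
    rw [this] at hA; linarith
  let deg : B → ℕ := fun b => #(univ.filter fun y : A => R y b)
  have hdeg : ∀ b, (deg b : ℝ) ≤ a := fun b => by
    rw [ha]; exact_mod_cast card_le_univ _
  have hsum : (#(univ.filter fun p : A × B => R p.1 p.2) : ℝ) = ∑ b, (deg b : ℝ) := by
    simp only [deg, card_filter, Fintype.sum_prod_type_right]; push_cast; rfl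
  let G := univ.filter fun b : B => δ / 2 * a ≤ deg b
  have hG : δ / 2 * Fintype.card B ≤ #G := by
    have h1 : ∑ b, (deg b : ℝ) ≤ ∑ b, ((if δ / 2 * a ≤ deg b then a else 0) + δ / 2 * a) := by
      refine sum_le_sum fun b _ => ?_
      split_ifs with h
      · have := hdeg b; nlinarith
      · linarith
    rw [sum_add_distrib, ← sum_filter, sum_const, sum_const, card_univ, nsmul_eq_mul,
      nsmul_eq_mul] at h1
    rw [hsum] at hR
    have : δ / 2 * Fintype.card B * a ≤ #G * a := by nlinarith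
    exact le_of_mul_le_mul_right this hapos
  have hcount : ∀ b ∈ G, (δ / 4 * a) ^ t ≤ #(univ.filter fun x : V ↪ A => ∀ v, R (x v) b) := by
    intro b hb
    have hb' : δ / 2 * a ≤ deg b := (mem_filter.1 hb).2
    have h1 : (deg b).descFactorial t ≤ #(univ.filter fun x : V ↪ A => ∀ v, R (x v) b) := by
      have e : Fintype.card (V ↪ {y : A // R y b}) = (deg b).descFactorial t := by
        rw [Fintype.card_embedding_eq, Fintype.card_subtype]
      rw [← e, ← card_univ]
      refine card_le_card_of_injOn (fun f => f.trans (Function.Embedding.subtype _)) ?_ ?_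
      · intro f _
        simp only [coe_filter, mem_univ, true_and, Set.mem_ofPred_eq]
        intro v; exact (f v).2
      · intro f _ g _ h
        ext v
        exact congrArg (fun e : V ↪ A => e v) h
    have h2 := Nat.pow_sub_le_descFactorial (deg b) t
    have h3 : δ / 4 * a ≤ ((deg b + 1 - t : ℕ) : ℝ) := by
      have : t ≤ deg b + 1 := by
        have : (t : ℝ) ≤ deg b + 1 := by linarith
        exact_mod_cast this
      rw [Nat.cast_sub this]; push_cast; linarith
    calc (δ / 4 * a) ^ t ≤ ((deg b + 1 - t : ℕ) : ℝ) ^ t := by gcongr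
      _ ≤ _ := by exact_mod_cast h2.trans h1
  have hdc : ∑ x : V ↪ A, (#(univ.filter fun b : B => ∀ v, R (x v) b) : ℝ) =
      ∑ b : B, (#(univ.filter fun x : V ↪ A => ∀ v, R (x v) b) : ℝ) := by
    simp only [card_filter]; push_cast; exact sum_comm
  have hlow : δ / 2 * Fintype.card B * (δ / 4 * a) ^ t ≤
      ∑ x : V ↪ A, (#(univ.filter fun b : B => ∀ v, R (x v) b) : ℝ) := by
    rw [hdc]
    calc _ ≤ #G * (δ / 4 * a) ^ t := by gcongr
      _ = ∑ b ∈ G, (δ / 4 * a) ^ t := by rw [sum_const, nsmul_eq_mul]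
      _ ≤ ∑ b ∈ G, (#(univ.filter fun x : V ↪ A => ∀ v, R (x v) b) : ℝ) := sum_le_sum hcount
      _ ≤ _ := sum_le_sum_of_subset_of_nonneg (subset_univ _) fun _ _ _ => by positivity
  have hne : Nonempty (V ↪ A) := by
    apply Function.Embedding.nonempty_of_card_le
    have : (t : ℝ) ≤ a := by nlinarith
    rw [ha] at this
    exact_mod_cast this
  by_contra hcon
  push Not at hcon
  have h4 : ∑ x : V ↪ A, (#(univ.filter fun b : B => ∀ v, R (x v) b) : ℝ) <
      ∑ _x : V ↪ A, δ / 2 * (δ / 4) ^ t * Fintype.card B :=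
    sum_lt_sum_of_nonempty univ_nonempty fun x _ => hcon x
  rw [sum_const, card_univ, Fintype.card_embedding_eq, nsmul_eq_mul] at h4
  have h5 : ((Fintype.card A).descFactorial t : ℝ) ≤ a ^ t := by
    rw [ha]; exact_mod_cast Nat.descFactorial_le_pow _ _
  have h6 : ((Fintype.card A).descFactorial t : ℝ) * (δ / 2 * (δ / 4) ^ t * Fintype.card B) ≤
      a ^ t * (δ / 2 * (δ / 4) ^ t * Fintype.card B) := by gcongr
  rw [mul_pow] at hlow
  nlinarith

noncomputable def nx (t : ℕ) (δ : ℝ) : ℝ := δ / 2 * (δ / 4) ^ t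

lemma nx_pos (t : ℕ) {δ : ℝ} (h : 0 < δ) : 0 < nx t δ := by unfold nx; positivity

lemma nx_le (t : ℕ) {δ : ℝ} (h : 0 < δ) (h1 : δ ≤ 1) : nx t δ ≤ δ := by
  unfold nx
  have : (δ / 4) ^ t ≤ 1 := pow_le_one₀ (by positivity) (by linarith)
  nlinarith

lemma box {V : Type} [Fintype V] (δ : ℝ) (hδ : 0 < δ) (hδ1 : δ ≤ 1) :
    ∃ m0 : ℕ, ∀ (W : Type) [Fintype W], m0 ≤ Fintype.card W → ∀ T : W → W → W → Prop,
      δ * Fintype.card W ^ 3 ≤ #(univ.filter fun p : W × W × W => T p.1 p.2.1 p.2.2) →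
      ∃ x y z : V ↪ W, ∀ i j k, T (x i) (y j) (z k) := by
  set t := Fintype.card V
  have p1 := nx_pos t hδ
  have l1 := nx_le t hδ hδ1
  have p2 := nx_pos t p1
  have l2 := nx_le t p1 (l1.trans hδ1)
  refine ⟨⌈4 * (t + 1) / nx t (nx t δ)⌉₊, fun W _ hW T hT => ?_⟩
  have hW' : 4 * (t + 1) ≤ nx t (nx t δ) * Fintype.card W := by
    have := Nat.ceil_le.1 hW
    rw [div_le_iff₀ p2] at this; linarith
  have w0 : (0 : ℝ) ≤ Fintype.card W := by positivity
  obtain ⟨x, hx⟩ := drc (V := V) (fun (a : W) (b : W × W) => T a b.1 b.2) δ hδ hδ1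
    (by rw [Fintype.card_prod]; push_cast; convert hT using 1; ring) (by nlinarith)
  obtain ⟨y, hy⟩ := drc (V := V) (fun (a : W) (b : W) => ∀ v, T (x v) a b) (nx t δ) p1 (l1.trans hδ1)
    (by rw [Fintype.card_prod] at hx; push_cast at hx
        refine le_trans (le_of_eq (by unfold nx; ring)) (hx.trans (le_of_eq ?_)); congr)
    (by nlinarith)
  have hz : Nonempty (V ↪ {b : W // ∀ j i, T (x i) (y j) b}) := by
    apply Function.Embedding.nonempty_of_card_le
    rw [Fintype.card_subtype]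
    have h0 : (0 : ℝ) ≤ t := by positivity
    have : (t : ℝ) ≤ #(univ.filter fun b : W => ∀ j i, T (x i) (y j) b) := by
      refine le_trans ?_ (hy.trans (le_of_eq ?_))
      · exact le_trans (by linarith) hW'
      · congr
    exact_mod_cast this
  obtain ⟨z⟩ := hz
  exact ⟨x, y, z.trans (Function.Embedding.subtype _), fun i j k => (z k).2 j i⟩

lemma contain {V W : Type} (H : SimpleGraph V) (hH : H.Colorable 3) (K : SimpleGraph W)
    (x y z : V ↪ W) (h : ∀ i j k, K.Adj (x i) (y j) ∧ K.Adj (x i) (z k) ∧ K.Adj (y j) (z k)) :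
    H.IsContained K := by
  obtain ⟨c⟩ := hH
  let e : Fin 3 → V ↪ W := ![x, y, z]
  have he : ∀ a b : Fin 3, a ≠ b → ∀ u v, K.Adj (e a u) (e b v) := by
    intro a b hab u v
    fin_cases a <;> fin_cases b
    · exact absurd rfl hab
    · exact (h u v u).1
    · exact (h u u v).2.1
    · exact (h v u u).1.symm
    · exact absurd rfl hab
    · exact (h u u v).2.2
    · exact (h v u u).2.1.symm
    · exact (h u v u).2.2.symm
    · exact absurd rfl hab
  refine ⟨⟨⟨fun v => e (c v) v, fun {u v} huv => he _ _ (c.valid huv) u v⟩, ?_⟩⟩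
  intro u v huv
  change e (c u) u = e (c v) v at huv
  by_cases hc : c u = c v
  · rw [hc] at huv; exact (e (c v)).injective huv
  · exact absurd huv (he _ _ hc u v).ne

lemma local_removal {V : Type} [Fintype V] (H : SimpleGraph V) (hH : H.Colorable 3) (η : ℝ)
    (hη : 0 < η) : ∃ m0 : ℕ, ∀ (W : Type) [Fintype W], m0 ≤ Fintype.card W →
      ∀ K : SimpleGraph W, ¬ H.IsContained K → ∃ E : Finset (Sym2 W),
        (#E : ℝ) ≤ η * Fintype.card W ^ 2 ∧ (K.deleteEdges E).CliqueFree 3 := by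
  have hp := SimpleGraph.triangleRemovalBound_pos hη
  obtain ⟨m0, hm⟩ := box (V := V) (min (SimpleGraph.triangleRemovalBound η) 1)
    (lt_min hp one_pos) (min_le_right _ _)
  refine ⟨m0, fun W _ hW K hK => ?_⟩
  have h1 : #(K.cliqueFinset 3) < SimpleGraph.triangleRemovalBound η * Fintype.card W ^ 3 := by
    by_contra hc
    push Not at hc
    have h2 : #(K.cliqueFinset 3) ≤ #(univ.filter fun p : W × W × W =>
        K.Adj p.1 p.2.1 ∧ K.Adj p.1 p.2.2 ∧ K.Adj p.2.1 p.2.2) := by
      refine card_le_card_of_surjOn (fun p => ({p.1, p.2.1, p.2.2} : Finset W)) ?_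
      intro s hs
      rw [mem_coe, SimpleGraph.mem_cliqueFinset_iff, SimpleGraph.is3Clique_iff] at hs
      obtain ⟨a, b, c, h1, h2, h3, rfl⟩ := hs
      exact ⟨(a, b, c), by simp [h1, h2, h3], rfl⟩
    obtain ⟨x, y, z, h⟩ := hm W hW (fun a b c => K.Adj a b ∧ K.Adj a c ∧ K.Adj b c) (by
      refine le_trans ?_ (hc.trans ((Nat.cast_le.2 h2).trans (le_of_eq ?_)))
      · gcongr; exact min_le_left _ _
      · congr)
    exact hK (contain H hH K x y z h)
  obtain ⟨G', hle, _, h3, h4⟩ := SimpleGraph.triangle_removal h1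
  refine ⟨K.edgeFinset \ G'.edgeFinset, ?_, h4.anti ?_⟩
  · rw [card_sdiff_of_subset (SimpleGraph.edgeFinset_mono hle),
      Nat.cast_sub (card_le_card (SimpleGraph.edgeFinset_mono hle))]
    push_cast at h3
    exact h3.le
  · intro a b hab
    rw [SimpleGraph.deleteEdges_adj] at hab
    by_contra hn
    exact hab.2 (by simp [hab.1, hn])

end Pool.Agent.H33.Sos
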