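import Mathlib

namespace Pool.Agent.H33.Sos
open Filter

/-- The `r`-th power of the cycle on `ZMod n`. -/
def cyc (n r : ℕ) : SimpleGraph (ZMod n) where
  Adj x y := x ≠ y ∧ ((x - y).val ≤ r ∨ (y - x).val ≤ r)
  symm := ⟨fun _ _ h => ⟨h.1.symm, h.2.symm⟩⟩
  loopless := ⟨fun _ h => h.1 rfl⟩

/-- The least `m` such that every subgraph of `cyc n r` with `m` edges contains a triangle. -/
noncomputable def f (n r : ℕ) : ℕ :=
  sInf {m | ∀ K : SimpleGraph (ZMod n), K ≤ cyc n r → K.edgeSet.ncard = m → ¬ K.CliqueFree 3}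

noncomputable def c : ℝ :=
  limsup (fun r : ℕ => limsup (fun n : ℕ => (f n r : ℝ) / (r * n)) atTop) atTop

end Pool.Agent.H33.Sos
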