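import Mathlib

set_option autoImplicit false

namespace Pool.Agent.H33.Std3

open Equiv

/-- The field with two elements. -/
abbrev F := ZMod 2

/-- Three by three matrices over it. -/
abbrev Mx := Matrix (Fin 3) (Fin 3) F

/-- The standard polynomial without signs. -/
def St {A : Type} [Ring A] (n : ℕ) (r : Fin n → A) : A :=
  ∑ σ : Perm (Fin n), (List.ofFn fun i => r (σ i)).prod

lemma St_zero {A : Type} [Ring A] (r : Fin 0 → A) : St 0 r = 1 := by
  simp [St]

lemma St_succ {A : Type} [Ring A] (n : ℕ) (r : Fin (n + 1) → A) :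
    St (n + 1) r = ∑ p : Fin (n + 1), r p * St n (fun i => r (swap 0 p i.succ)) := by
  unfold St
  rw [← Equiv.sum_comp Perm.decomposeFin.symm, Fintype.sum_prod_type]
  refine Finset.sum_congr rfl fun p _ => ?_
  rw [Finset.mul_sum]
  refine Finset.sum_congr rfl fun e _ => ?_
  rw [List.ofFn_succ, List.prod_cons, Perm.decomposeFin_symm_apply_zero]
  simp only [Perm.decomposeFin_symm_apply_succ]

lemma two_zero {A : Type} [Ring A] [Algebra F A] (a : A) : a + a = 0 := by
  rw [← two_smul F a, show (2 : F) = 0 from rfl, zero_smul]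

lemma neg_self {A : Type} [Ring A] [Algebra F A] (a : A) : -a = a :=
  neg_eq_of_add_eq_zero_left (two_zero a)

lemma signed_eq {A : Type} [Ring A] [Algebra F A] (n : ℕ) (r : Fin n → A) :
    (∑ σ : Perm (Fin n), ((Perm.sign σ : ℤˣ) : ℤ) • (List.ofFn fun i => r (σ i)).prod) = St n r := by
  refine Finset.sum_congr rfl fun σ _ => ?_
  rcases Int.units_eq_one_or (Perm.sign σ) with h | h <;> simp [h, neg_self]

lemma map_St {A B : Type} [Ring A] [Ring B] [Algebra F A] [Algebra F B] (φ : A →ₐ[F] B) (n : ℕ)
    (r : Fin n → A) : φ (St n r) = St n (fun i => φ (r i)) := by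
  unfold St
  rw [map_sum]
  refine Finset.sum_congr rfl fun σ _ => ?_
  rw [map_list_prod, List.map_ofFn]
  rfl

/-- Matrix units indexed by `Fin 9`. -/
def un (k : Fin (3 * 3)) : Mx := Matrix.single k.divNat k.modNat 1

/-- Parity of the number of trails. -/
def cnt : (n : ℕ) → (Fin n → Fin (3 * 3)) → Fin 3 → Fin 3 → F
  | 0, _, u, v => if u = v then 1 else 0
  | n + 1, r, u, v => ∑ p : Fin (n + 1),
      if (r p).divNat = u then cnt n (fun i => r (swap 0 p i.succ)) (r p).modNat v else 0

lemma St_un (n : ℕ) : ∀ (r : Fin n → Fin (3 * 3)) (u v : Fin 3),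
    St n (fun i => un (r i)) u v = cnt n r u v := by
  induction n with
  | zero => intro r u v; rw [St_zero, cnt, Matrix.one_apply]
  | succ n ih =>
    intro r u v
    rw [St_succ, cnt, Matrix.sum_apply]
    refine Finset.sum_congr rfl fun p _ => ?_
    split_ifs with h
    · rw [← ih, ← h, un, Matrix.single_mul_apply_same, one_mul]
    · rw [un, Matrix.single_mul_apply_of_ne _ _ _ _ _ (Ne.symm h)]

lemma cnt_six : ∀ a b : Fin (3 * 3), a < b → ∀ c, b < c → ∀ d, c < d → ∀ e, d < e → ∀ f, e < f →
    ∀ u v, cnt 6 ![a, b, c, d, e, f] u v = 0 := by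
  decide +kernel

/-- The standard polynomial of degree six vanishes on three by three matrices over `F`. -/
lemma St_six (r : Fin 6 → Mx) : St 6 r = 0 := by
  have key : ∀ s : Fin 6 → Mx,
      MultilinearMap.alternatization (MultilinearMap.mkPiAlgebraFin F 6 Mx) s = St 6 s := by
    intro s
    rw [MultilinearMap.alternatization_apply, ← signed_eq]
    rfl
  rw [← key]
  suffices h : MultilinearMap.alternatization (MultilinearMap.mkPiAlgebraFin F 6 Mx) = 0 by
    rw [h]; rfl
  refine Module.Basis.ext_alternating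
    ((Matrix.stdBasis F (Fin 3) (Fin 3)).reindex finProdFinEquiv) fun v hv => ?_
  have he : ∀ k, ((Matrix.stdBasis F (Fin 3) (Fin 3)).reindex finProdFinEquiv) k = un k := by
    intro k
    rw [Module.Basis.reindex_apply, finProdFinEquiv_symm_apply, Matrix.stdBasis_eq_single]
    rfl
  simp only [he, AlternatingMap.zero_apply]
  have hm : StrictMono (v ∘ Tuple.sort v) :=
    (Tuple.monotone_sort v).strictMono_of_injective (hv.comp (Tuple.sort v).injective)
  have h1 := (MultilinearMap.alternatization (MultilinearMap.mkPiAlgebraFin F 6 Mx)).map_perm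
    (fun i => un (v i)) (Tuple.sort v)
  have h2 : St 6 (fun i => un ((v ∘ Tuple.sort v) i)) = 0 := by
    generalize v ∘ Tuple.sort v = w at hm
    ext a b
    rw [St_un]
    have hw : w = ![w 0, w 1, w 2, w 3, w 4, w 5] := by
      funext i; fin_cases i <;> rfl
    rw [hw]
    exact cnt_six _ _ (hm (by decide)) _ (hm (by decide)) _ (hm (by decide)) _ (hm (by decide)) _
      (hm (by decide)) a b
  rw [key] at h1
  have h3 := h2.symm.trans h1
  exact (smul_eq_zero_iff_eq _).mp h3.symm

end Pool.Agent.H33.Std3
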