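import Mathlib

namespace Pool.Agent.H33.SubBA

variable {H : Type*} [NormedAddCommGroup H] [InnerProductSpace ℂ H]

/-- The join of two subspaces: the closed linear span of their union. -/
def join (M N : Submodule ℂ H) : Submodule ℂ H := (M ⊔ N).topologicalClosure

/-- A Boolean algebra of (closed) subspaces of `H`. -/
structure IsBA (E : Set (Submodule ℂ H)) : Prop where
  closed : ∀ M ∈ E, IsClosed (M : Set H)
  bot : ⊥ ∈ E
  top : ⊤ ∈ E
  inf : ∀ M ∈ E, ∀ N ∈ E, M ⊓ N ∈ E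
  sup : ∀ M ∈ E, ∀ N ∈ E, join M N ∈ E
  distrib : ∀ L ∈ E, ∀ M ∈ E, ∀ N ∈ E, L ⊓ join M N = join (L ⊓ M) (L ⊓ N)
  compl : ∀ M ∈ E, ∃ N ∈ E, M ⊓ N = ⊥ ∧ join M N = ⊤

/-- Complete in the Boolean sense: every subfamily has a supremum in the family. -/
def IsComplete (E : Set (Submodule ℂ H)) : Prop :=
  ∀ S ⊆ E, ∃ M ∈ E, (∀ N ∈ S, N ≤ M) ∧ ∀ L ∈ E, (∀ N ∈ S, N ≤ L) → M ≤ L

/-- `Alg E`: the bounded operators leaving every member of `E` invariant. -/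
def Alg (E : Set (Submodule ℂ H)) : Set (H →L[ℂ] H) := {T | ∀ M ∈ E, ∀ x ∈ M, T x ∈ M}

/-- `Lat S`: the closed subspaces invariant under every operator in `S`. -/
def Lat (S : Set (H →L[ℂ] H)) : Set (Submodule ℂ H) :=
  {M | IsClosed (M : Set H) ∧ ∀ T ∈ S, ∀ x ∈ M, T x ∈ M}

/-- `E` and `F` are lattice isomorphic: a bijection from `E` onto `F` preserves meet and join. -/
def LatIso {K : Type*} [NormedAddCommGroup K] [InnerProductSpace ℂ K]
    (E : Set (Submodule ℂ H)) (F : Set (Submodule ℂ K)) : Prop :=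
  ∃ Φ : Submodule ℂ H → Submodule ℂ K, Set.BijOn Φ E F ∧
    ∀ M ∈ E, ∀ N ∈ E, Φ (M ⊓ N) = Φ M ⊓ Φ N ∧ Φ (join M N) = join (Φ M) (Φ N)

end Pool.Agent.H33.SubBA
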