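import Pool.Agent.H33.TlDefs

namespace Pool.Agent.H33.Tl

open MeasureTheory

variable {V : Type} (G : SimpleGraph V)

def Pt (R : V × V → Bool) : Prop :=
  (∀ v w w', R (v, w) → R (v, w') → w = w') ∧
    ∀ v w w', G.Adj v w → G.Adj v w' → w ≠ w' → ¬G.Adj w w' → R (w, v) ∨ R (w', v)

instance : MulAction (G ≃g G) {R // Pt G R} where
  smul g R := ⟨fun p => R.1 (g.symm p.1, g.symm p.2),
    fun _ _ _ a b => g.symm.injective (R.2.1 _ _ _ a b), fun _ _ _ a b c d =>
      R.2.2 _ _ _ (g.symm.map_adj_iff.2 a) (g.symm.map_adj_iff.2 b) (g.symm.injective.ne c)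
        fun e => d (g.symm.map_adj_iff.1 e)⟩
  one_smul _ := rfl
  mul_smul _ _ _ := rfl

lemma key (h : @Amenable (G ≃g G) _ (autTop G)) (h0 : ∃ R, Pt G R) : ∃ p : V → V → ℝ,
    (∀ (g : G ≃g G) v w, p (g v) (g w) = p v w) ∧
    (∀ v a b c, a ≠ b → a ≠ c → b ≠ c → p v a + p v b + p v c ≤ 1) ∧
    ∀ v w w', G.Adj v w → G.Adj v w' → w ≠ w' → ¬G.Adj w w' → 1 ≤ p w v + p w' v := by
  let := autTop G
  have ev : ∀ q : V × V, Continuous fun R : V × V → Bool => R q := continuous_apply
  have cl : IsClosed {R | Pt G R} := by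
    simp only [Pt, Set.ofPred_and, Set.ofPred_forall]
    refine .inter ?_ ?_ <;> refine isClosed_iInter fun v => isClosed_iInter fun w =>
      isClosed_iInter fun w' => ?_
    · simpa [← Set.ofPred_forall] using (isClosed_discrete {t : Bool × Bool |
        t.1 = true → t.2 = true → w = w'}).preimage ((ev (v, w)).prodMk (ev (v, w')))
    · exact isClosed_iInter fun _ => isClosed_iInter fun _ => isClosed_iInter fun _ =>
        isClosed_iInter fun _ => (isClosed_discrete {t : Bool × Bool |
          t.1 = true ∨ t.2 = true}).preimage ((ev (w, v)).prodMk (ev (w', v)))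
  have : CompactSpace {R // Pt G R} := isCompact_iff_compactSpace.1 cl.isCompact
  have : Nonempty {R // Pt G R} := ⟨⟨_, h0.choose_spec⟩⟩
  let := borel {R // Pt G R}
  have : BorelSpace {R // Pt G R} := ⟨rfl⟩
  have : ContinuousSMul (G ≃g G) {R // Pt G R} := ⟨continuous_induced_rng.2
    (continuous_pi fun q => continuous_iff_continuousAt.2 fun x => by
      have o : ∀ a, ∀ᶠ y : (G ≃g G) × {R // Pt G R} in nhds x, y.1.symm a = x.1.symm a := by
        intro a
        have : IsOpen {g : G ≃g G | g (x.1.symm a) = a} :=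
          TopologicalSpace.isOpen_generateFrom_of_mem ⟨_, _, rfl⟩
        filter_upwards [(this.preimage continuous_fst).mem_nhds (by simp)] with y hy
        exact y.1.injective (by simpa using hy.symm)
      refine ((ev (x.1.symm q.1, x.1.symm q.2)).comp
        (continuous_subtype_val.comp continuous_snd)).continuousAt.congr ?_
      filter_upwards [o q.1, o q.2] with y h1 h2
      change _ = y.2.1 (y.1.symm q.1, y.1.symm q.2)
      rw [h1, h2]
      rfl)⟩
  obtain ⟨μ, hμ, inv⟩ := h {R // Pt G R}
  let E : V → V → Set {R // Pt G R} := fun v w => {R | R.1 (v, w)}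
  have mE : ∀ v w, MeasurableSet (E v w) := fun v w =>
    ((isClosed_discrete {true}).preimage ((ev (v, w)).comp continuous_subtype_val)).measurableSet
  have dE : ∀ {v a b}, a ≠ b → Disjoint (E v a) (E v b) := fun e =>
    Set.disjoint_left.2 fun R a b => e (R.2.1 _ _ _ a b)
  refine ⟨fun v w => μ.real (E v w), fun g v w => ?_, fun v a b c e1 e2 e3 => ?_,
    fun v w w' a b c d => ?_⟩
  · beta_reduce
    conv_lhs => rw [← inv g]
    rw [map_measureReal_apply (continuous_const_smul g).measurable (mE _ _)]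
    congr 1
    ext R
    change R.1 (g.symm (g v), g.symm (g w)) = true ↔ R.1 (v, w) = true
    simp
  · rw [← measureReal_union (dE e1) (mE _ _), ← measureReal_union
      (Set.disjoint_union_left.2 ⟨dE e2, dE e3⟩) (mE _ _)]
    exact measureReal_le_one
  · refine le_trans ?_ (measureReal_union_le _ _)
    rw [Set.eq_univ_of_forall (s := E w v ∪ E w' v) fun R => R.2.2 _ _ _ a b c d]
    simp

lemma pres {α : Type} {T : Set V} (f : V → α) (h : ∀ x ∈ T, ∀ y ∈ T, G.Adj x y → f x = f y)
    (pre : (G.induce T).Preconnected) {x y : V} (hx : x ∈ T) (hy : y ∈ T) : f x = f y := by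
  have : ∀ a b : T, (G.induce T).Walk a b → f a = f b := fun a b w => by
    induction w with
    | nil => rfl
    | cons e _ ih => exact (h _ (Subtype.prop _) _ (Subtype.prop _) e).trans ih
  exact (pre ⟨x, hx⟩ ⟨y, hy⟩).elim (this _ _)

end Pool.Agent.H33.Tl
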