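import Pool.Agent.H33.Tl1

namespace Pool.Agent.H33.Tl

open Monoid CoprodI Cardinal

variable {ι H : Type} [Group H]

abbrev W (ι H : Type) [Group H] := CoprodI fun _ : ι => H

def ob (i : ι) : H →* W ι H := of (M := fun _ : ι => H) (i := i)

def T (ι H : Type) [Group H] : SimpleGraph (W ι H) where
  Adj x y := ∃ i s, s ≠ 1 ∧ y = ob i s * x
  symm := ⟨fun x y ⟨i, s, h, e⟩ => ⟨i, s⁻¹, by simpa using h, by simp [e]⟩⟩
  loopless := ⟨fun x ⟨i, s, h, e⟩ => h (of_injective (M := fun _ : ι => H) i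
    (by simpa [ob] using e))⟩

lemma two {i j k : ι} {s t u : H} (h : i ≠ j) (hs : s ≠ 1) (ht : t ≠ 1) :
    ob j t ≠ ob k u * ob i s := fun e => by
  classical
  have := congrArg (lift fun i => MonoidHom.mulSingle (fun _ : ι => H) i) e
  simp only [ob, map_mul, lift_of] at this
  by_cases hk : k = i
  · exact ht (by simpa [hk, h.symm] using congrFun this j)
  · exact hs (by simpa [Ne.symm hk, h] using (congrFun this i).symm)

open Classical in
noncomputable def lst (x : W ι H) : Option ι := (Word.equiv x).toList.getLast?.map Sigma.fst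

open Classical in
lemma wd {i : ι} {s : H} {y : W ι H} (hs : s ≠ 1) (h : (Word.equiv y).fstIdx ≠ some i) :
    (Word.equiv (ob i s * y)).toList = ⟨i, s⟩ :: (Word.equiv y).toList := by
  have : Word.equiv.symm (Word.cons (M := fun _ : ι => H) s _ h hs) = ob i s * y :=
    (Word.prod_cons (M := fun _ : ι => H) i s _ hs h).trans (congrArg _ (Word.equiv.symm_apply_apply y))
  rw [← this, Equiv.apply_symm_apply]
  rfl

lemma lst_ob {i : ι} {s : H} (hs : s ≠ 1) : lst (ob i s) = some i := by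
  classical
  have e : Word.equiv (1 : W ι H) = Word.empty := one_smul (W ι H) Word.empty
  have := wd (i := i) (y := 1) hs (by simp [e, Word.fstIdx])
  rw [mul_one] at this
  simp [lst, this, e]

lemma lst_adj {x y : W ι H} (hx : x ≠ 1) (hy : y ≠ 1) (h : (T ι H).Adj x y) : lst x = lst y := by
  classical
  obtain ⟨i, s, -, rfl⟩ := h
  obtain ⟨p, hp⟩ := (Word.equivPair i).symm.surjective (Word.equiv x)
  obtain ⟨z, hz⟩ := Word.equiv.surjective p.tail
  obtain rfl : ob i p.head * z = x := by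
    rw [← Word.equiv.symm_apply_apply x, ← hp, ← Word.equiv.symm_apply_apply z, hz]
    exact (Word.prod_rcons p).symm
  rw [← mul_assoc, ← map_mul] at hy ⊢
  by_cases e : z = 1
  · simp only [e, mul_one] at *
    rw [lst_ob (by rintro e; simp [e] at hx), lst_ob (by rintro e; simp [e] at hy)]
  have k : ∀ t, lst (ob i t * z) = lst z := fun t => by
    by_cases ht : t = 1
    · simp [ht]
    have : (Word.equiv z).toList ≠ [] := fun e' =>
      e (Word.equiv.injective ((Word.ext e' : _ = Word.empty).trans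
        (one_smul (W ι H) Word.empty).symm))
    rw [lst, wd ht (hz ▸ p.fstIdx_ne), List.getLast?_cons_of_ne_nil this, lst]
  rw [k, k]

def C (i : ι) (x : W ι H) : Set (W ι H) := Set.range fun s => ob i s * x

lemma C_clique (i : ι) (x : W ι H) : (T ι H).IsClique (C i x) := by
  rintro _ ⟨s, rfl⟩ _ ⟨t, rfl⟩ e
  exact ⟨i, t * s⁻¹, fun h => e (by rw [mul_inv_eq_one.1 h]), by simp⟩

lemma C_self (i : ι) (x : W ι H) : x ∈ C i x := ⟨1, by simp⟩

lemma C_eq {i : ι} {x y : W ι H} (h : y ∈ C i x) : C i y = C i x := by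
  obtain ⟨s, rfl⟩ := h
  ext z
  exact ⟨fun ⟨t, e⟩ => ⟨t * s, by simp [← e, mul_assoc]⟩,
    fun ⟨t, e⟩ => ⟨t * s⁻¹, by simp [← e, mul_assoc]⟩⟩

lemma C_noCut (i : ι) (x : W ι H) : NoCut (T ι H) (C i x) := by
  have k : ∀ S ⊆ C i x, ((T ι H).induce S).Preconnected := fun S hS a b => by
    by_cases e : a = b
    · rw [e]
    · exact SimpleGraph.Adj.reachable (C_clique i x (hS a.2) (hS b.2) (Subtype.val_injective.ne e))
  have : Nonempty (C i x) := ⟨⟨x, C_self i x⟩⟩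
  exact ⟨⟨k _ subset_rfl⟩, fun v _ => k _ Set.sdiff_subset⟩

lemma sub_C [Nonempty ι] {S : Set (W ι H)} (h : NoCut (T ι H) S) : ∃ i x, S ⊆ C i x := by
  obtain ⟨⟨a, ha⟩⟩ := h.1.nonempty
  by_cases e : ∃ x ∈ S, ∃ c ∈ S, (T ι H).Adj x c
  swap
  · exact ⟨Classical.arbitrary ι, a, fun b hb => (show a = b from pres _ id
      (fun x hx y hy r => (e ⟨x, hx, y, hy, r⟩).elim) h.1.1 ha hb) ▸ C_self _ a⟩
  obtain ⟨x, hx, _, hc, i, s, hs, rfl⟩ := e
  have k : ∀ u ∈ S, ∀ w ∈ S, (T ι H).Adj u w → u ∈ C i x → w ∈ C i x := by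
    rintro u hu _ hw ⟨j, t, ht, rfl⟩ hC
    obtain ⟨y, hy, hyC, hyu⟩ : ∃ y ∈ S, y ∈ C i x ∧ y ≠ u := by
      by_cases e : x = u
      · exact ⟨_, hc, ⟨s, rfl⟩, e ▸ (SimpleGraph.Adj.ne (G := T ι H) ⟨i, s, hs, rfl⟩).symm⟩
      · exact ⟨x, hx, C_self _ _, e⟩
    rw [← C_eq hC] at hyC ⊢
    obtain ⟨r, rfl⟩ := hyC
    have := pres (T ι H) (fun z => lst (z * u⁻¹)) (fun a ha b hb ⟨l, q, hq, e⟩ => lst_adj
      (mul_inv_eq_one.not.2 ha.2) (mul_inv_eq_one.not.2 hb.2) ⟨l, q, hq, by rw [e, mul_assoc]⟩)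
      (h.2 u hu) ⟨hy, hyu⟩ ⟨hw, (SimpleGraph.Adj.ne (G := T ι H) ⟨j, t, ht, rfl⟩).symm⟩
    simp only [mul_inv_cancel_right] at this
    rw [lst_ob ht, lst_ob (by rintro rfl; simp at hyu)] at this
    exact ⟨t, by rw [Option.some.inj this]⟩
  exact ⟨i, x, fun b hb => (pres _ (· ∈ C i x) (fun u hu w hw r =>
    propext ⟨k u hu w hw r, k w hw u hu r.symm⟩) h.1.1 hx hb).mp (C_self _ _)⟩

lemma C_inj [Nontrivial H] {i j : ι} {x : W ι H} (h : C i x ⊆ C j x) : i = j := by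
  obtain ⟨s, hs⟩ := exists_ne (1 : H)
  obtain ⟨t, e⟩ := h ⟨s, rfl⟩
  have e : ob j t = ob i s := mul_right_cancel e
  by_contra hij
  refine two (k := i) (u := 1) (t := t) hij hs ?_ (by simpa using e)
  rintro rfl
  exact hs (of_injective (M := fun _ : ι => H) i (by simpa [ob] using e.symm))

lemma block [Nonempty ι] [Nontrivial H] {S : Set (W ι H)} :
    IsBlock (T ι H) S ↔ ∃ i x, S = C i x := by
  refine ⟨fun h => ?_, ?_⟩
  · obtain ⟨i, x, e⟩ := sub_C h.1
    exact ⟨i, x, e.antisymm (h.2 (C_noCut i x) e)⟩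
  · rintro ⟨i, x, rfl⟩
    refine ⟨C_noCut i x, fun S hS e => ?_⟩
    obtain ⟨j, y, e'⟩ := sub_C hS
    rw [← C_eq (e' (e (C_self i x)))] at e'
    rwa [C_inj (e.trans e')]

lemma tree [Nonempty ι] [Nontrivial H] : IsTreeLike (T ι H) #ι #H := by
  refine ⟨⟨fun x y => ?_⟩, fun S hS => ?_, fun v => ?_⟩
  · have : ∀ x, (T ι H).Reachable 1 x := fun x => by
      induction x using induction_left with
      | one => rfl
      | @mul i s x ih =>
        by_cases hs : s = 1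
        · simpa [hs] using ih
        · exact ih.trans (SimpleGraph.Adj.reachable ⟨i, s, hs, rfl⟩)
    exact (this x).symm.trans (this y)
  · obtain ⟨i, x, rfl⟩ := block.1 hS
    exact ⟨C_clique i x, mk_range_eq _ fun s t e => of_injective (M := fun _ : ι => H) i
      (mul_right_cancel e)⟩
  · symm
    refine mk_congr (Equiv.ofBijective (fun i => ⟨C i v, block.2 ⟨i, v, rfl⟩, C_self i v⟩)
      ⟨fun i j e => C_inj (Subtype.ext_iff.1 e).subset, ?_⟩)
    rintro ⟨S, hS, hv⟩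
    obtain ⟨i, x, rfl⟩ := block.1 hS
    exact ⟨i, Subtype.ext (C_eq hv)⟩

lemma na [Nontrivial ι] [Nontrivial H] (h : Infinite ι ∨ Infinite H) :
    ¬@Amenable (T ι H ≃g T ι H) _ (autTop _) := fun a => by
  classical
  obtain ⟨p, p1, p2, p3⟩ := key _ a ⟨fun q => decide (∃ i s, s ≠ 1 ∧ q.1 = ob i s * q.2 ∧
    (Word.equiv q.2).fstIdx ≠ some i), fun v w w' e e' => by
      obtain ⟨i, s, hs, e, f⟩ := of_decide_eq_true e
      obtain ⟨j, t, ht, e', f'⟩ := of_decide_eq_true e'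
      have := wd hs f
      rw [← e, e', wd ht f', eq_comm] at this
      exact Word.equiv.injective (Word.ext (List.cons.inj this).2), by
      rintro v _ _ ⟨i, s, hs, rfl⟩ ⟨j, t, ht, rfl⟩ e e'
      by_cases f : (Word.equiv v).fstIdx = some i
      · refine .inr (decide_eq_true ⟨j, t, ht, rfl, f ▸ fun e2 => e' ?_⟩)
        obtain rfl := Option.some.inj e2
        exact C_clique i v ⟨s, rfl⟩ ⟨t, rfl⟩ e
      · exact .inl (decide_eq_true ⟨i, s, hs, rfl, f⟩)⟩
  have q1 : ∀ x, p x 1 = p 1 x⁻¹ := fun x => by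
    simpa using (p1 ⟨Equiv.mulRight x⁻¹, ⟨fun ⟨i, s, hs, e⟩ => ⟨i, s, hs, by
      simpa [← mul_assoc] using e⟩, fun ⟨i, s, hs, e⟩ => ⟨i, s, hs, by
        simp [e, mul_assoc]⟩⟩⟩ x 1).symm
  have ne : ∀ {i j : ι} {s t : H}, i ≠ j → s ≠ 1 → t ≠ 1 → ob i s ≠ ob j t := fun h hs ht e => by
    simpa [e] using two (k := Classical.arbitrary ι) (u := 1) h hs ht
  have q2 : ∀ {i j : ι} {s : H}, i ≠ j → s ≠ 1 → 1 ≤ p 1 (ob i s) + p 1 (ob j s) := by
    intro i j s hij hs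
    have hs' := inv_ne_one.2 hs
    simpa [q1] using p3 1 _ _ ⟨i, s⁻¹, hs', (mul_one _).symm⟩ ⟨j, s⁻¹, hs', (mul_one _).symm⟩
      (ne hij hs' hs') fun ⟨k, u, _, e⟩ => two hij hs' hs' e
  rcases h with h | h
  · obtain ⟨s, hs⟩ := exists_ne (1 : H)
    have d := fun a b : ℕ => (Infinite.natEmbedding ι).injective.ne (a₁ := a) (a₂ := b)
    linarith [q2 (d 0 1 (by simp)) hs, q2 (d 0 2 (by simp)) hs, q2 (d 1 2 (by simp)) hs,
      p2 1 _ _ _ (ne (d 0 1 (by simp)) hs hs) (ne (d 0 2 (by simp)) hs hs)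
        (ne (d 1 2 (by simp)) hs hs)]
  · obtain ⟨i, j, hij⟩ := exists_pair_ne ι
    have : Infinite {s : H // s ≠ 1} := (Set.toFinite {1}).infinite_compl.to_subtype
    let f := Infinite.natEmbedding {s : H // s ≠ 1}
    have d : ∀ (k : ι) (a b : ℕ), a ≠ b → ob k (f a).1 ≠ ob k (f b).1 := fun k a b e e' =>
      e (f.injective (Subtype.ext (of_injective (M := fun _ : ι => H) k e')))
    linarith [q2 hij (f 0).2, q2 hij (f 1).2, q2 hij (f 2).2,
      p2 1 _ _ _ (d i 0 1 (by simp)) (d i 0 2 (by simp)) (d i 1 2 (by simp)),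
      p2 1 _ _ _ (d j 0 1 (by simp)) (d j 0 2 (by simp)) (d j 1 2 (by simp))]

end Pool.Agent.H33.Tl
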