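import Mathlib

namespace Pool.Agent.H33.Tl

open MeasureTheory

/-- The subgraph induced on `S` is connected and has no cut vertex of its own. -/
def NoCut {V : Type} (G : SimpleGraph V) (S : Set V) : Prop :=
  (G.induce S).Connected ∧ ∀ v ∈ S, (G.induce (S \ {v})).Preconnected

/-- Blocks: maximal vertex sets inducing a connected subgraph without a cut vertex. -/
def IsBlock {V : Type} (G : SimpleGraph V) (S : Set V) : Prop := Maximal (NoCut G) S

/-- Connected, every block is complete on `n` vertices, every vertex lies in exactly `m` blocks. -/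
def IsTreeLike {V : Type} (G : SimpleGraph V) (m n : Cardinal) : Prop :=
  G.Connected ∧ (∀ S, IsBlock G S → G.IsClique S ∧ Cardinal.mk S = n) ∧
    ∀ v, Cardinal.mk {S // IsBlock G S ∧ v ∈ S} = m

/-- Topology of pointwise convergence on the (discrete) vertex set. -/
def autTop {V : Type} (G : SimpleGraph V) : TopologicalSpace (G ≃g G) :=
  TopologicalSpace.generateFrom {U | ∃ a b : V, U = {g | g a = b}}

/-- Every continuous action on a nonempty compact Hausdorff space has an invariant Borel
probability measure. -/
def Amenable (Γ : Type) [Group Γ] [TopologicalSpace Γ] : Prop :=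
  ∀ (X : Type) [TopologicalSpace X] [CompactSpace X] [T2Space X] [Nonempty X]
    [MeasurableSpace X] [BorelSpace X] [MulAction Γ X] [ContinuousSMul Γ X],
    ∃ μ : Measure X, IsProbabilityMeasure μ ∧ ∀ g : Γ, μ.map (fun x => g • x) = μ

end Pool.Agent.H33.Tl
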