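import Mathlib

set_option autoImplicit false
open Finset Filter Topology

namespace Pool.Agent.H33.Vel

/-- partial sums -/
noncomputable def ps (a : ℕ → ℝ) (n : ℕ) : ℝ := ∑ i ∈ range n, a i

/-- net multiplicity of position `n` after `t` steps -/
def chi (p : ℕ → ℕ) (e : ℕ → ℤ) (t n : ℕ) : ℤ := ∑ i ∈ range t, if p i = n then e i else 0

/-- the part of the rearranged partial sum coming from positions at least `b` -/
noncomputable def up (a : ℕ → ℝ) (p : ℕ → ℕ) (e : ℕ → ℤ) (b t : ℕ) : ℝ :=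
  ∑ i ∈ range t, if b ≤ p i then (e i : ℝ) * a (p i) else 0

/-- number of jumps in a range -/
def jc (x : ℕ → ℤ) (b w : ℕ) : ℕ := ((Ico b w).filter (fun n => x n ≠ x (n + 1))).card

lemma ps_succ (a : ℕ → ℝ) (n : ℕ) : ps a (n + 1) = ps a n + a n := by
  simp [ps, sum_range_succ]

lemma up_split (a : ℕ → ℝ) (p : ℕ → ℕ) (e : ℕ → ℤ) (b w t : ℕ) (h : b ≤ w) :
    up a p e b t = ∑ n ∈ Ico b w, (chi p e t n : ℝ) * a n + up a p e w t := by
  induction t with
  | zero => simp [up, chi]
  | succ t ih =>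
    have h1 : up a p e b (t + 1) = up a p e b t + if b ≤ p t then (e t : ℝ) * a (p t) else 0 := by
      simp [up, sum_range_succ]
    have h2 : up a p e w (t + 1) = up a p e w t + if w ≤ p t then (e t : ℝ) * a (p t) else 0 := by
      simp [up, sum_range_succ]
    have h3 : ∑ n ∈ Ico b w, (chi p e (t + 1) n : ℝ) * a n =
        ∑ n ∈ Ico b w, (chi p e t n : ℝ) * a n +
          ∑ n ∈ Ico b w, (if p t = n then (e t : ℝ) * a n else 0) := by
      rw [← sum_add_distrib]
      refine sum_congr rfl fun n _ => ?_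
      simp only [chi, sum_range_succ]
      split_ifs <;> push_cast <;> ring
    rw [h1, h2, h3, ih, sum_ite_eq]
    simp only [mem_Ico]
    by_cases c1 : b ≤ p t <;> by_cases c2 : w ≤ p t
    · have : ¬ p t < w := by omega
      simp [c1, c2, this]; ring
    · have : p t < w := by omega
      simp [c1, c2, this]; ring
    · omega
    · simp [c1, c2]

lemma exists_bound (p : ℕ → ℕ) (t : ℕ) : ∃ N, ∀ i < t, p i < N := by
  induction t with
  | zero => exact ⟨0, by simp⟩
  | succ t ih =>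
    obtain ⟨N, hN⟩ := ih
    refine ⟨max N (p t + 1), fun i hi => ?_⟩
    rcases Nat.lt_succ_iff_lt_or_eq.mp hi with h | h
    · exact lt_max_of_lt_left (hN i h)
    · subst h; exact lt_max_of_lt_right (Nat.lt_succ_self _)

lemma chi_zero (p : ℕ → ℕ) (e : ℕ → ℤ) (t N n : ℕ) (h : ∀ i < t, p i < N) (hn : N ≤ n) :
    chi p e t n = 0 := by
  unfold chi
  refine sum_eq_zero fun i hi => ?_
  have := h i (mem_range.mp hi)
  rw [if_neg (by omega)]

lemma up_zero (a : ℕ → ℝ) (p : ℕ → ℕ) (e : ℕ → ℤ) (t N n : ℕ) (h : ∀ i < t, p i < N)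
    (hn : N ≤ n) : up a p e n t = 0 := by
  unfold up
  refine sum_eq_zero fun i hi => ?_
  have := h i (mem_range.mp hi)
  rw [if_neg (by omega)]

lemma jc_add (x : ℕ → ℤ) (b w w' : ℕ) (h1 : b ≤ w) (h2 : w ≤ w') :
    jc x b w' = jc x b w + jc x w w' := by
  unfold jc
  rw [← Ico_union_Ico_eq_Ico h1 h2, filter_union, card_union_of_disjoint]
  exact disjoint_filter_filter (Ico_disjoint_Ico_consecutive b w w')

lemma jc_mono (x : ℕ → ℤ) {b w b' w' : ℕ} (h1 : b' ≤ b) (h2 : w ≤ w') :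
    jc x b w ≤ jc x b' w' := by
  unfold jc
  exact card_le_card (filter_subset_filter _ (Ico_subset_Ico h1 h2))

lemma jc_succ (x : ℕ → ℤ) (b w : ℕ) (h : b ≤ w) :
    jc x b (w + 1) = jc x b w + if x w ≠ x (w + 1) then 1 else 0 := by
  rw [jc_add x b w (w + 1) h (Nat.le_succ w)]
  congr 1
  unfold jc
  rw [Nat.Ico_succ_singleton, filter_singleton]
  split_ifs <;> simp

lemma const_of_jc (x : ℕ → ℤ) (b w : ℕ) (h : jc x b w = 0) (n : ℕ) (h1 : b ≤ n) (h2 : n ≤ w) :
    x n = x b := by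
  induction n, h1 using Nat.le_induction with
  | base => rfl
  | succ n hn ih =>
    have h3 := jc_mono x (le_refl b) h2
    rw [h, jc_succ x b n hn] at h3
    have : ¬ (x n ≠ x (n + 1)) := by
      intro hc; rw [if_pos hc] at h3; omega
    rw [← ih (by omega)]
    push Not at this
    exact this.symm

lemma sum_const (a : ℕ → ℝ) (x : ℕ → ℤ) (b w : ℕ) (hb : b ≤ w) (h : jc x b w = 0) :
    ∑ n ∈ Ico b w, (x n : ℝ) * a n = x b * (ps a w - ps a b) := by
  have : ∑ n ∈ Ico b w, (x n : ℝ) * a n = ∑ n ∈ Ico b w, (x b : ℝ) * a n := by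
    refine sum_congr rfl fun n hn => ?_
    rw [const_of_jc x b w h n (mem_Ico.mp hn).1 (mem_Ico.mp hn).2.le]
  rw [this, ← mul_sum, sum_Ico_eq_sub _ hb]
  rfl

lemma abel (a : ℕ → ℝ) (x : ℕ → ℤ) (hx : ∀ n, |x n| ≤ 1) (b om : ℕ) (R : ℝ)
    (hR : ∀ n, b ≤ n → n ≤ om → |ps a n - ps a b| ≤ R) (w : ℕ) (h1 : b ≤ w) (h2 : w ≤ om) :
    |∑ n ∈ Ico b w, (x n : ℝ) * a n - x w * (ps a w - ps a b)| ≤ 2 * R * jc x b w := by
  induction w, h1 using Nat.le_induction with
  | base => simp [jc]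
  | succ w hw ih =>
    have ih' := ih (by omega)
    rw [sum_Ico_succ_top hw, jc_succ x b w hw]
    have hr := hR (w + 1) (by omega) h2
    have key : ∑ n ∈ Ico b w, (x n : ℝ) * a n + x w * a w - x (w + 1) * (ps a (w + 1) - ps a b) =
        (∑ n ∈ Ico b w, (x n : ℝ) * a n - x w * (ps a w - ps a b)) +
          ((x w : ℝ) - x (w + 1)) * (ps a (w + 1) - ps a b) := by
      rw [ps_succ]; ring
    rw [key]
    refine (abs_add_le _ _).trans ?_
    have hR0 : 0 ≤ R := (abs_nonneg _).trans hr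
    split_ifs with hc
    · have h3 : |(x w : ℝ) - x (w + 1)| ≤ 2 := by
        have a1 : |(x w : ℝ)| ≤ 1 := by exact_mod_cast hx w
        have a2 : |(x (w + 1) : ℝ)| ≤ 1 := by exact_mod_cast hx (w + 1)
        have := abs_sub (x w : ℝ) (x (w + 1))
        linarith
      have h4 : |((x w : ℝ) - x (w + 1)) * (ps a (w + 1) - ps a b)| ≤ 2 * R := by
        rw [abs_mul]
        exact mul_le_mul h3 hr (abs_nonneg _) (by norm_num)
      push_cast
      linarith
    · push Not at hc
      rw [← hc]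
      simpa using ih'

lemma cell_bound (a : ℕ → ℝ) (x : ℕ → ℤ) (hx : ∀ n, |x n| ≤ 1) (b om : ℕ) (R : ℝ) (hb : b ≤ om)
    (hR : ∀ n, b ≤ n → n ≤ om → |ps a n - ps a b| ≤ R) :
    |∑ n ∈ Ico b om, (x n : ℝ) * a n| ≤ R + 2 * R * jc x b om := by
  have h1 := abel a x hx b om R hR om hb le_rfl
  have h2 : |(x om : ℝ) * (ps a om - ps a b)| ≤ R := by
    rw [abs_mul]
    have a1 : |(x om : ℝ)| ≤ 1 := by exact_mod_cast hx om
    have := mul_le_mul a1 (hR om hb le_rfl) (abs_nonneg _) (by norm_num)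
    linarith
  have := abs_add_le (∑ n ∈ Ico b om, (x n : ℝ) * a n - x om * (ps a om - ps a b))
    ((x om : ℝ) * (ps a om - ps a b))
  rw [sub_add_cancel] at this
  linarith

/-- if inactive cells keep their values then the upper part hardly moves -/
lemma cellsum (a : ℕ → ℝ) (p : ℕ → ℕ) (e : ℕ → ℤ) (hx : ∀ t n, |chi p e t n| ≤ 1)
    (C : ℕ → ℕ → Prop) (R : ℝ) (hR0 : 0 ≤ R)
    (hC1 : ∀ al om, C al om → al < om ∧ ∃ om', C om om')
    (hC2 : ∀ al om, C al om → ∀ n, al ≤ n → n ≤ om → |ps a n - ps a al| ≤ R)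
    (u v b0 : ℕ)
    (hsame : ∀ al om, C al om → b0 ≤ al → jc (chi p e u) al om = 0 → jc (chi p e v) al om = 0 →
      chi p e u al = chi p e v al)
    (b om : ℕ) (hb : C b om) (hb0 : b0 ≤ b) (m1 m2 : ℕ)
    (h1 : ∀ w, jc (chi p e u) b w ≤ m1) (h2 : ∀ w, jc (chi p e v) b w ≤ m2) :
    |up a p e b v - up a p e b u| ≤ 4 * R * (m1 + m2) := by
  obtain ⟨N, hN⟩ := exists_bound p (max u v)
  have hNu : ∀ i < u, p i < N := fun i hi => hN i (lt_max_of_lt_left hi)
  have hNv : ∀ i < v, p i < N := fun i hi => hN i (lt_max_of_lt_right hi)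
  obtain ⟨k, hk⟩ : ∃ k, N ≤ b + k := ⟨N, by omega⟩
  induction k generalizing b om m1 m2 with
  | zero =>
    rw [up_zero a p e u N b hNu (by omega), up_zero a p e v N b hNv (by omega)]
    simp only [sub_self, abs_zero]
    positivity
  | succ k ih =>
    obtain ⟨hlt, om', hom'⟩ := hC1 b om hb
    have j1 := h1 om
    have j2 := h2 om
    have ih' := ih om om' hom' (by omega) (m1 - jc (chi p e u) b om) (m2 - jc (chi p e v) b om)
      (fun w => by
        by_cases hw : om ≤ w
        · have := jc_add (chi p e u) b om w hlt.le hw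
          have := h1 w
          omega
        · have : jc (chi p e u) om w = 0 := by
            unfold jc; rw [Ico_eq_empty (by omega)]; simp
          omega)
      (fun w => by
        by_cases hw : om ≤ w
        · have := jc_add (chi p e v) b om w hlt.le hw
          have := h2 w
          omega
        · have : jc (chi p e v) om w = 0 := by
            unfold jc; rw [Ico_eq_empty (by omega)]; simp
          omega)
      (by omega)
    rw [Nat.cast_sub j1, Nat.cast_sub j2] at ih'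
    rw [up_split a p e b om u hlt.le, up_split a p e b om v hlt.le]
    have hcell : |∑ n ∈ Ico b om, (chi p e v n : ℝ) * a n - ∑ n ∈ Ico b om, (chi p e u n : ℝ) * a n|
        ≤ 4 * R * (jc (chi p e u) b om + jc (chi p e v) b om) := by
      by_cases h0 : jc (chi p e u) b om = 0 ∧ jc (chi p e v) b om = 0
      · rw [sum_const a _ b om hlt.le h0.1, sum_const a _ b om hlt.le h0.2,
          hsame b om hb hb0 h0.1 h0.2]
        simp only [sub_self, abs_zero]
        positivity
      · have c1 := cell_bound a _ (hx u) b om R hlt.le (hC2 b om hb)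
        have c2 := cell_bound a _ (hx v) b om R hlt.le (hC2 b om hb)
        have c3 : (1 : ℝ) ≤ jc (chi p e u) b om + jc (chi p e v) b om := by
          have : 1 ≤ jc (chi p e u) b om + jc (chi p e v) b om := by omega
          exact_mod_cast this
        have c4 := abs_sub (∑ n ∈ Ico b om, (chi p e v n : ℝ) * a n)
          (∑ n ∈ Ico b om, (chi p e u n : ℝ) * a n)
        nlinarith
    have := abs_add_le (∑ n ∈ Ico b om, (chi p e v n : ℝ) * a n -
      ∑ n ∈ Ico b om, (chi p e u n : ℝ) * a n) (up a p e om v - up a p e om u)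
    have e1 : ∑ n ∈ Ico b om, (chi p e v n : ℝ) * a n + up a p e om v -
        (∑ n ∈ Ico b om, (chi p e u n : ℝ) * a n + up a p e om u) =
        ∑ n ∈ Ico b om, (chi p e v n : ℝ) * a n - ∑ n ∈ Ico b om, (chi p e u n : ℝ) * a n +
          (up a p e om v - up a p e om u) := by ring
    rw [e1]
    linarith

/-- the sweeping lemma, along an abstract time path `φ` -/
lemma sweep (a : ℕ → ℝ) (p : ℕ → ℕ) (e : ℕ → ℤ) (φ : ℕ → ℕ) (D al K : ℕ) (β : ℕ → ℕ)
    (Am err δ V : ℝ) (W : ℕ → ℝ) (γ : ℤ)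
    (hβ : ∀ j < K, β j ≤ β (j + 1)) (hal : al ≤ β 0)
    (hosc : ∀ j < K, Am ≤ |ps a (β (j + 1)) - ps a (β j)|)
    (hstep : ∀ d < D, ∀ b, al ≤ b → |up a p e b (φ (d + 1)) - up a p e b (φ d)| ≤ δ)
    (hδ : 0 ≤ δ) (herr : 0 ≤ err)
    (hfro : ∀ d ≤ D, ∀ j ≤ K, (∀ d' ≤ d, jc (chi p e (φ d')) al (β j) ≠ 0) →
      |up a p e (β j) (φ d) - up a p e (β j) (φ 0)| ≤ err)
    (htrack : ∀ d d', d ≤ d' → d' ≤ D →
      |up a p e al (φ d') - up a p e al (φ d)| ≤ 2 * δ + (W d' - W d))
    (hW : ∀ d d', d ≤ D → d' ≤ D → W d' - W d ≤ V)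
    (hγ : ∀ d ≤ D, chi p e (φ d) al = γ)
    (hend : jc (chi p e (φ D)) al (β K) = 0)
    (hgood : jc (chi p e (φ 0)) (β 0) (β K) = 0)
    (hbig : V < K * (Am - 2 * err - 4 * δ)) :
    chi p e (φ 0) (β 0) = γ := by
  by_contra hne
  have hmono : ∀ j j', j ≤ j' → j' ≤ K → β j ≤ β j' := by
    intro j j' h1 h2
    induction j', h1 using Nat.le_induction with
    | base => exact le_rfl
    | succ n hn ih => exact (ih (by omega)).trans (hβ n (by omega))
  have hex : ∀ j, j ≤ K → ∃ d, jc (chi p e (φ d)) al (β j) = 0 := fun j hj =>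
    ⟨D, by have := jc_mono (chi p e (φ D)) (le_refl al) (hmono j K hj le_rfl); omega⟩
  classical
  let dd : ℕ → ℕ := fun j => if h : j ≤ K then Nat.find (hex j h) else 0
  have dd_spec : ∀ j ≤ K, jc (chi p e (φ (dd j))) al (β j) = 0 := by
    intro j hj; simp only [dd, dif_pos hj]; exact Nat.find_spec (hex j hj)
  have dd_min : ∀ j ≤ K, ∀ d < dd j, jc (chi p e (φ d)) al (β j) ≠ 0 := by
    intro j hj d hd; simp only [dd, dif_pos hj] at hd; exact Nat.find_min (hex j hj) hd
  have dd_le : ∀ j ≤ K, dd j ≤ D := by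
    intro j hj
    by_contra hc
    have := dd_min j hj D (by omega)
    have := jc_mono (chi p e (φ D)) (le_refl al) (hmono j K hj le_rfl)
    omega
  have dd_mono : ∀ j < K, dd j ≤ dd (j + 1) := by
    intro j hj
    by_contra hc
    have h1 := dd_min j hj.le (dd (j + 1)) (by omega)
    have h2 := dd_spec (j + 1) hj
    have := jc_mono (chi p e (φ (dd (j + 1)))) (le_refl al) (hβ j hj)
    omega
  have key : ∀ j ≤ K, |up a p e al (φ (dd j)) - γ * (ps a (β j) - ps a al) -
      up a p e (β j) (φ 0)| ≤ err + δ := by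
    intro j hj
    have hb : al ≤ β j := hal.trans (hmono 0 j (Nat.zero_le _) hj)
    rw [up_split a p e al (β j) _ hb, sum_const a _ al (β j) hb (dd_spec j hj),
      hγ _ (dd_le j hj)]
    have e1 : (γ : ℝ) * (ps a (β j) - ps a al) + up a p e (β j) (φ (dd j)) -
      γ * (ps a (β j) - ps a al) - up a p e (β j) (φ 0) =
      up a p e (β j) (φ (dd j)) - up a p e (β j) (φ 0) := by ring
    rw [e1]
    rcases Nat.eq_zero_or_pos (dd j) with h0 | h0
    · rw [h0]; simp only [sub_self, abs_zero]; linarith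
    · obtain ⟨d, hd⟩ : ∃ d, dd j = d + 1 := ⟨dd j - 1, by omega⟩
      have hD := dd_le j hj
      have s1 := hstep d (by omega) (β j) hb
      have s2 := hfro d (by omega) j hj (fun d' hd' => dd_min j hj d' (by omega))
      rw [hd]
      have := abs_add_le (up a p e (β j) (φ (d + 1)) - up a p e (β j) (φ d))
        (up a p e (β j) (φ d) - up a p e (β j) (φ 0))
      rw [sub_add_sub_cancel] at this
      linarith
  have step : ∀ j < K, Am - 2 * err - 4 * δ ≤ W (dd (j + 1)) - W (dd j) := by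
    intro j hj
    have k1 := key j hj.le
    have k2 := key (j + 1) hj
    have g0 : jc (chi p e (φ 0)) (β j) (β (j + 1)) = 0 := by
      have := jc_mono (chi p e (φ 0)) (hmono 0 j (Nat.zero_le _) hj.le) (hmono (j + 1) K hj le_rfl)
      omega
    have g1 : chi p e (φ 0) (β j) = chi p e (φ 0) (β 0) :=
      const_of_jc _ _ _ hgood _ (hmono 0 j (Nat.zero_le _) hj.le) (hmono j K hj.le le_rfl)
    rw [up_split a p e (β j) (β (j + 1)) (φ 0) (hβ j hj), sum_const a _ _ _ (hβ j hj) g0, g1] at k1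
    have t1 := htrack (dd j) (dd (j + 1)) (dd_mono j hj) (dd_le (j + 1) hj)
    have o1 := hosc j hj
    have hz : (1 : ℝ) ≤ |(γ : ℝ) - (chi p e (φ 0) (β 0) : ℝ)| := by
      have : (1 : ℤ) ≤ |γ - chi p e (φ 0) (β 0)| := Int.one_le_abs (sub_ne_zero.mpr (Ne.symm hne))
      exact_mod_cast this
    have o2 : Am ≤ |((γ : ℝ) - (chi p e (φ 0) (β 0) : ℝ)) * (ps a (β (j + 1)) - ps a (β j))| := by
      rw [abs_mul]
      nlinarith [abs_nonneg (ps a (β (j + 1)) - ps a (β j))]
    rw [abs_le] at k1 k2 t1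
    rcases le_abs'.mp o2 with o3 | o3 <;> nlinarith [k1.1, k1.2, k2.1, k2.2, t1.1, t1.2]
  have tot : ∀ j ≤ K, j * (Am - 2 * err - 4 * δ) ≤ W (dd j) - W (dd 0) := by
    intro j hj
    induction j with
    | zero => simp
    | succ j ih =>
      have := ih (by omega)
      have := step j hj
      push_cast
      linarith
  have := tot K le_rfl
  have := hW (dd 0) (dd K) (dd_le 0 (Nat.zero_le _)) (dd_le K le_rfl)
  linarith

end Pool.Agent.H33.Vel
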