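import Pool.Agent.H33.Vel1

set_option autoImplicit false
open Finset Filter Topology

namespace Pool.Agent.H33.Vel

structure Zig (a : ℕ → ℝ) (A : ℕ → ℝ) (C : ℕ → ℕ → ℕ → ℕ → Prop) : Prop where
  nxt : ∀ l j al om, C l j al om → al < om ∧ ∃ om', C l j om om'
  rng : ∀ l j al om, C l j al om → ∀ n, al ≤ n → n ≤ om → |ps a n - ps a al| ≤ 2 * A l
  osc : ∀ l j al om, C l (j + 1) al om → ∃ (K : ℕ) (β : ℕ → ℕ), 0 < K ∧ 4 * (al : ℝ) < K * A l ∧
    al ≤ β 0 ∧ β (l * K) ≤ om ∧ (∀ i < l * K, A l ≤ |ps a (β (i + 1)) - ps a (β i)|) ∧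
    ∀ i ≤ l * K, ∃ w, C (l + 1) j (β i) w ∧ w ≤ β (i + 1)
  ex : ∀ l j, ∃ al om, C l j al om
  pos : ∀ l, 0 < A l
  le1 : ∀ n, |a n| ≤ 1

structure Dyn (p : ℕ → ℕ) (e : ℕ → ℤ) : Prop where
  e1 : ∀ i, |e i| ≤ 1
  fib : ∀ n t, ((range t).filter (fun i => p i = n)).card ≤ 2
  x1 : ∀ t n, |chi p e t n| ≤ 1

lemma groups_le (x : ℕ → ℤ) (γ : ℕ → ℕ) (G : ℕ) (h : ∀ g < G, γ g ≤ γ (g + 1)) :
    γ 0 ≤ γ G ∧ ((range G).filter (fun g => jc x (γ g) (γ (g + 1)) ≠ 0)).card ≤ jc x (γ 0) (γ G) := by
  induction G with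
  | zero => simp
  | succ G ih =>
    obtain ⟨i1, i2⟩ := ih (fun g hg => h g (by omega))
    refine ⟨i1.trans (h G (by omega)), ?_⟩
    rw [range_add_one, filter_insert, jc_add x (γ 0) (γ G) (γ (G + 1)) i1 (h G (by omega))]
    split_ifs with hc
    · rw [card_insert_of_notMem (by simp)]; omega
    · omega

noncomputable def var (a : ℕ → ℝ) (p : ℕ → ℕ) (al t : ℕ) : ℝ :=
  ∑ i ∈ range t, if p i < al then |a (p i)| else 0

lemma var_nonneg (a : ℕ → ℝ) (p : ℕ → ℕ) (al t : ℕ) : 0 ≤ var a p al t :=
  sum_nonneg fun i _ => by split_ifs <;> simp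

lemma var_le (a : ℕ → ℝ) (p : ℕ → ℕ) (e : ℕ → ℤ) (hd : Dyn p e) (h1 : ∀ n, |a n| ≤ 1)
    (al t : ℕ) : var a p al t ≤ 2 * al := by
  have h2 : var a p al t ≤ ∑ i ∈ range t, if p i < al then (1 : ℝ) else 0 :=
    sum_le_sum fun i _ => by split_ifs; exacts [h1 _, le_rfl]
  rw [sum_boole] at h2
  have h3 : ((range t).filter (fun i => p i < al)).card ≤ 2 * (range al).card := by
    refine card_le_mul_card_image_of_maps_to (f := p) (fun i hi => ?_) 2 (fun b _ => ?_)
    · simpa using (mem_filter.mp hi).2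
    · refine le_trans (card_le_card ?_) (hd.fib b t)
      intro i hi
      simp only [mem_filter] at hi ⊢
      exact ⟨hi.1.1, hi.2⟩
  rw [card_range] at h3
  have : (((range t).filter (fun i => p i < al)).card : ℝ) ≤ 2 * al := by exact_mod_cast h3
  linarith

lemma up_succ (a : ℕ → ℝ) (p : ℕ → ℕ) (e : ℕ → ℤ) (b t : ℕ) :
    up a p e b (t + 1) = up a p e b t + if b ≤ p t then (e t : ℝ) * a (p t) else 0 := by
  simp [up, sum_range_succ]

lemma abs_ea (a : ℕ → ℝ) (p : ℕ → ℕ) (e : ℕ → ℤ) (hd : Dyn p e) (t : ℕ) :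
    |(e t : ℝ) * a (p t)| ≤ |a (p t)| := by
  rw [abs_mul]
  have : |(e t : ℝ)| ≤ 1 := by exact_mod_cast hd.e1 t
  nlinarith [abs_nonneg (a (p t))]

lemma low_var (a : ℕ → ℝ) (p : ℕ → ℕ) (e : ℕ → ℤ) (hd : Dyn p e) (al t t' : ℕ) (h : t ≤ t') :
    |(up a p e 0 t' - up a p e al t') - (up a p e 0 t - up a p e al t)| ≤
      var a p al t' - var a p al t := by
  induction t', h using Nat.le_induction with
  | base => simp
  | succ n hn ih =>
    have hv : var a p al (n + 1) = var a p al n + if p n < al then |a (p n)| else 0 := by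
      simp [var, sum_range_succ]
    rw [up_succ, up_succ, hv, if_pos (Nat.zero_le _)]
    have := abs_ea a p e hd n
    by_cases hc : al ≤ p n
    · rw [if_pos hc, if_neg (by omega)]
      rw [abs_le] at ih ⊢
      constructor <;> linarith [ih.1, ih.2]
    · rw [if_neg hc, if_pos (by omega)]
      rw [abs_le] at ih this ⊢
      constructor <;> linarith [ih.1, ih.2, this.1, this.2]

lemma chi_const (p : ℕ → ℕ) (e : ℕ → ℤ) (n x y : ℕ) (h : x ≤ y)
    (hp : ∀ t, x ≤ t → t < y → p t ≠ n) : chi p e y n = chi p e x n := by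
  induction y, h using Nat.le_induction with
  | base => rfl
  | succ y hy ih =>
    rw [← ih (fun t h1 h2 => hp t h1 (by omega))]
    simp [chi, sum_range_succ, hp y hy (by omega)]

theorem stable (a A : ℕ → ℝ) (C : ℕ → ℕ → ℕ → ℕ → Prop) (p : ℕ → ℕ) (e : ℕ → ℤ)
    (hz : Zig a A C) (hd : Dyn p e) (T0 n0 : ℕ) (δ L : ℝ) (hδ : 0 ≤ δ)
    (hF : ∀ t, T0 ≤ t → |up a p e 0 t - L| ≤ δ) (ha : ∀ n, n0 ≤ n → |a n| ≤ δ)
    (M l0 l1 : ℕ)
    (hl : ∀ l, l0 ≤ l → l ≤ l1 → 6 * M + 11 < l ∧ 64 * M * A (l + 1) + 8 * δ ≤ A l) :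
    ∀ m ≤ M, ∀ l, l0 ≤ l → l + m ≤ l1 → ∀ al om, C l m al om → n0 ≤ al → ∀ u v, T0 ≤ u → u ≤ v →
      (∀ t, u ≤ t → t ≤ v → ∀ w, jc (chi p e t) al w ≤ m) →
      jc (chi p e u) al om = 0 → jc (chi p e v) al om = 0 → chi p e u al = chi p e v al := by
  intro m
  induction m with
  | zero =>
    intro _ l _ _ al om _ _ u v _ huv hj _ _
    have h0 : ∀ t, u ≤ t → t ≤ v → chi p e t al = 0 := by
      intro t h1 h2
      obtain ⟨N, hN⟩ := exists_bound p t
      have h3 := hj t h1 h2 (max N al)
      rw [← const_of_jc (chi p e t) al (max N al) (by omega) (max N al) (le_max_right _ _) le_rfl]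
      exact chi_zero p e t N _ hN (le_max_left _ _)
    rw [h0 u le_rfl huv, h0 v huv le_rfl]
  | succ m ih =>
    intro hm l hl0 hl1 al om hC hn0 u v hu huv hj hju hjv
    obtain ⟨K, β, hK, hKA, hβ0, hβ1, hosc, hcell⟩ := hz.osc l m al om hC
    obtain ⟨hG, hA⟩ := hl l hl0 (by omega)
    have hβs : ∀ i ≤ l * K, β i < β (i + 1) := by
      intro i hi
      obtain ⟨w, h1, h2⟩ := hcell i hi
      exact (hz.nxt _ _ _ _ h1).1.trans_le h2
    have hβm : ∀ i i', i ≤ i' → i' ≤ l * K → β i ≤ β i' := by
      intro i i' h1 h2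
      induction i', h1 using Nat.le_induction with
      | base => exact le_rfl
      | succ n hn ih => exact (ih (by omega)).trans (hβs n (by omega)).le
    have hgK : ∀ g < l, ∀ j ≤ K, g * K + j ≤ l * K := by
      intro g hg j hj
      calc g * K + j ≤ (g + 1) * K := by rw [add_mul, one_mul]; omega
        _ ≤ l * K := Nat.mul_le_mul_right K hg
    have hjb : ∀ t, u ≤ t → t ≤ v → ∀ b, al ≤ b → jc (chi p e t) al b ≠ 0 → ∀ b', b ≤ b' →
        ∀ w, jc (chi p e t) b' w ≤ m := by
      intro t h1 h2 b hb h0 b' hb' w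
      have h3 := jc_mono (chi p e t) hb' (le_max_left w b)
      have h4 := jc_add (chi p e t) al b (max w b) hb (le_max_right _ _)
      have h5 := hj t h1 h2 (max w b)
      omega
    have frozen : ∀ x y, u ≤ x → x ≤ y → y ≤ v → ∀ b, al ≤ b →
        (∀ t, x ≤ t → t ≤ y → jc (chi p e t) al b ≠ 0) → ∀ al' om', C (l + 1) m al' om' →
        b ≤ al' → jc (chi p e x) al' om' = 0 → jc (chi p e y) al' om' = 0 →
        chi p e x al' = chi p e y al' := by
      intro x y hx hxy hy b hb h0 al' om' hC' hb' j1 j2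
      exact ih (by omega) (l + 1) (by omega) (by omega) al' om' hC' (by omega) x y (by omega) hxy
        (fun t h1 h2 w => hjb t (by omega) (by omega) b hb (h0 t h1 h2) al' hb' w) j1 j2
    have hA1 := hz.pos (l + 1)
    have frozen2 : ∀ x y, u ≤ x → x ≤ y → y ≤ v → ∀ i ≤ l * K,
        (∀ t, x ≤ t → t ≤ y → jc (chi p e t) al (β i) ≠ 0) →
        |up a p e (β i) y - up a p e (β i) x| ≤ 16 * m * A (l + 1) := by
      intro x y hx hxy hy i hi h0
      obtain ⟨w, h1, -⟩ := hcell i hi
      have hb : al ≤ β i := hβ0.trans (hβm 0 i (Nat.zero_le _) hi)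
      have := cellsum a p e hd.x1 (C (l + 1) m) (2 * A (l + 1)) (by positivity) (hz.nxt _ _)
        (hz.rng _ _) x y (β i) (frozen x y hx hxy hy (β i) hb h0) (β i) w h1 le_rfl m m
        (hjb x hx (by omega) (β i) hb (h0 x le_rfl hxy) _ le_rfl)
        (hjb y (by omega) hy (β i) hb (h0 y hxy le_rfl) _ le_rfl)
      linarith
    have hstep : ∀ t b, al ≤ b → |up a p e b (t + 1) - up a p e b t| ≤ δ := by
      intro t b hb
      rw [up_succ, add_sub_cancel_left]
      split_ifs with hc
      · exact (abs_ea a p e hd t).trans (ha _ (by omega))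
      · simpa using hδ
    have htr : ∀ t t', u ≤ t → t ≤ t' →
        |up a p e al t' - up a p e al t| ≤ 2 * δ + (var a p al t' - var a p al t) := by
      intro t t' h1 h2
      have f1 := hF t (by omega)
      have f2 := hF t' (by omega)
      have f3 := low_var a p e hd al t t' h2
      rw [abs_le] at f1 f2 f3 ⊢
      constructor <;> linarith [f1.1, f1.2, f2.1, f2.2, f3.1, f3.2]
    have hvar : ∀ t t', var a p al t' - var a p al t ≤ 2 * al := fun t t' => by
      linarith [var_le a p e hd hz.le1 al t', var_nonneg a p al t]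
    have hbig : (2 * al : ℝ) < K * (A l - 2 * (16 * m * A (l + 1)) - 4 * δ) := by
      have h1 : (m : ℝ) ≤ M := by exact_mod_cast (by omega : m ≤ M)
      have h2 : A l / 2 ≤ A l - 2 * (16 * m * A (l + 1)) - 4 * δ := by nlinarith
      have h3 : (0 : ℝ) ≤ K := Nat.cast_nonneg K
      nlinarith
    let Bad : ℕ → ℕ → Finset ℕ := fun x y =>
      (range l).filter (fun g => chi p e x (β (g * K)) ≠ chi p e y (β (g * K)))
    have hcnt : ∀ t, u ≤ t → t ≤ v → ((range l).filter
        (fun g => jc (chi p e t) (β (g * K)) (β ((g + 1) * K)) ≠ 0)).card ≤ m + 1 := by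
      intro t h1 h2
      have := (groups_le (chi p e t) (fun g => β (g * K)) l (fun g hg =>
        hβm _ _ (Nat.mul_le_mul_right K (Nat.le_succ g)) (Nat.mul_le_mul_right K hg))).2
      refine this.trans (le_trans (jc_mono _ ?_ le_rfl) (hj t h1 h2 (β (l * K))))
      simpa using hβ0
    have hconst : ∀ x y, u ≤ x → x ≤ y → y ≤ v → (∀ t, x ≤ t → t < y → p t ≠ al) →
        (Bad x y).card ≤ 2 * m + 3 := by
      intro x y hx hxy hy hp
      have hγ : ∀ t, x ≤ t → t ≤ y → chi p e t al = chi p e x al := fun t h1 h2 =>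
        chi_const p e al x t h1 (fun s s1 s2 => hp s s1 (by omega))
      classical
      let Mid : Finset ℕ := (range l).filter (fun g =>
        (∀ t, x ≤ t → t ≤ y → jc (chi p e t) al (β ((g + 1) * K)) ≠ 0) ∧
        ∃ t, x ≤ t ∧ t ≤ y ∧ jc (chi p e t) al (β (g * K)) = 0)
      have hMid : Mid.card ≤ 1 := by
        rw [card_le_one]
        have aux : ∀ g ∈ Mid, ∀ g' ∈ Mid, ¬ g < g' := by
          intro g hg g' hg' hlt
          simp only [Mid, mem_filter, mem_range] at hg hg'
          obtain ⟨t, t1, t2, t3⟩ := hg'.2.2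
          have := jc_mono (chi p e t) (le_refl al) (hβm ((g + 1) * K) (g' * K)
            (Nat.mul_le_mul_right K hlt) (Nat.mul_le_mul_right K hg'.1.le))
          have := hg.2.1 t t1 t2
          omega
        intro g hg g' hg'
        have := aux g hg g' hg'
        have := aux g' hg' g hg
        omega
      have hsub : Bad x y ⊆ ((range l).filter
          (fun g => jc (chi p e x) (β (g * K)) (β ((g + 1) * K)) ≠ 0) ∪ (range l).filter
          (fun g => jc (chi p e y) (β (g * K)) (β ((g + 1) * K)) ≠ 0)) ∪ Mid := by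
        intro g hg
        simp only [Bad, mem_filter, mem_range] at hg
        obtain ⟨hgl, hne⟩ := hg
        by_contra hc
        simp only [Mid, mem_union, mem_filter, mem_range, hgl, true_and, not_or, not_not,
          not_and] at hc
        obtain ⟨⟨c1, c2⟩, c3⟩ := hc
        have eK : (g + 1) * K = g * K + K := by ring
        apply hne
        by_cases hlow : ∀ t, x ≤ t → t ≤ y → jc (chi p e t) al (β ((g + 1) * K)) ≠ 0
        · have hhigh : ∀ t, x ≤ t → t ≤ y → jc (chi p e t) al (β (g * K)) ≠ 0 :=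
            fun t t1 t2 t3 => c3 hlow ⟨t, t1, t2, t3⟩
          obtain ⟨w, w1, w2⟩ := hcell (g * K) (by simpa using hgK g hgl 0 (Nat.zero_le _))
          have w3 : w ≤ β ((g + 1) * K) := w2.trans (hβm _ _ (by omega) (eK ▸ hgK g hgl K le_rfl))
          refine frozen x y hx hxy hy (β (g * K)) (hβ0.trans (hβm _ _ (Nat.zero_le _)
            (by simpa using hgK g hgl 0 (Nat.zero_le _)))) hhigh _ w w1 le_rfl ?_ ?_
          · have := jc_mono (chi p e x) (le_refl (β (g * K))) w3; omega
          · have := jc_mono (chi p e y) (le_refl (β (g * K))) w3; omega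
        · push Not at hlow
          obtain ⟨τ, τ1, τ2, τ3⟩ := hlow
          have s1 := sweep a p e (fun d => x + d) (τ - x) al K (fun j => β (g * K + j)) (A l)
            (16 * m * A (l + 1)) δ (2 * al) (fun d => var a p al (x + d)) (chi p e x al)
            (fun j hj => (hβs _ (hgK g hgl j hj.le)).le)
            (hβ0.trans (hβm _ _ (Nat.zero_le _) (hgK g hgl 0 (Nat.zero_le _))))
            (fun j hj => hosc _ (hgK g hgl (j + 1) hj))
            (fun d _ b hb => hstep (x + d) b hb) hδ (by positivity)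
            (fun d hd j hj h0 => frozen2 x (x + d) hx (by omega) (by omega) _ (hgK g hgl j hj)
              (fun t t1 t2 => by
                have := h0 (t - x) (by omega)
                rwa [show x + (t - x) = t by omega] at this))
            (fun d d' h1 _ => htr (x + d) (x + d') (by omega) (by omega))
            (fun d d' _ _ => hvar _ _)
            (fun d hd => hγ (x + d) (by omega) (by omega))
            (by rw [show x + (τ - x) = τ by omega, ← eK]; exact τ3)
            (by rw [← eK]; exact c1) hbig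
          have s2 := sweep a p e (fun d => y - d) (y - τ) al K (fun j => β (g * K + j)) (A l)
            (16 * m * A (l + 1)) δ (2 * al) (fun d => - var a p al (y - d)) (chi p e x al)
            (fun j hj => (hβs _ (hgK g hgl j hj.le)).le)
            (hβ0.trans (hβm _ _ (Nat.zero_le _) (hgK g hgl 0 (Nat.zero_le _))))
            (fun j hj => hosc _ (hgK g hgl (j + 1) hj))
            (fun d hd b hb => by
              have := hstep (y - (d + 1)) b hb
              rw [show y - (d + 1) + 1 = y - d by omega, abs_sub_comm] at this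
              exact this) hδ (by positivity)
            (fun d hd j hj h0 => by
              rw [abs_sub_comm]
              exact frozen2 (y - d) y (by omega) (by omega) hy _ (hgK g hgl j hj)
                (fun t t1 t2 => by
                  have := h0 (y - t) (by omega)
                  rwa [show y - (y - t) = t by omega] at this))
            (fun d d' h1 h2 => by
              have := htr (y - d') (y - d) (by omega) (by omega)
              rw [abs_sub_comm]
              linarith)
            (fun d d' _ _ => by linarith [hvar (y - d') (y - d)])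
            (fun d hd => hγ (y - d) (by omega) (by omega))
            (by rw [show y - (y - τ) = τ by omega, ← eK]; exact τ3)
            (by rw [← eK]; exact c2) hbig
          exact s1.trans s2.symm
      have h1 := card_le_card hsub
      have h2 := hcnt x hx (by omega)
      have h3 := hcnt y (by omega) hy
      have h4 := (card_union_le _ _).trans' h1
      have h5 := card_union_le ((range l).filter
          (fun g => jc (chi p e x) (β (g * K)) (β ((g + 1) * K)) ≠ 0)) ((range l).filter
          (fun g => jc (chi p e y) (β (g * K)) (β ((g + 1) * K)) ≠ 0))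
      omega
    have htri : ∀ x y z, (Bad x z).card ≤ (Bad x y).card + (Bad y z).card := by
      intro x y z
      refine le_trans (card_le_card ?_) (card_union_le _ _)
      intro g hg
      simp only [Bad, mem_filter, mem_union] at hg ⊢
      by_cases hc : chi p e x (β (g * K)) = chi p e y (β (g * K))
      · right; exact ⟨hg.1, hc ▸ hg.2⟩
      · left; exact ⟨hg.1, hc⟩
    have hone : ∀ t, (Bad t (t + 1)).card ≤ 1 := by
      intro t
      rw [card_le_one]
      have aux : ∀ g ∈ Bad t (t + 1), p t = β (g * K) := by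
        intro g hg
        simp only [Bad, mem_filter] at hg
        by_contra hc
        exact hg.2 (chi_const p e _ t (t + 1) (Nat.le_succ t)
          (fun s s1 s2 => by rwa [show s = t by omega])).symm
      have aux2 : ∀ g < l, ∀ g' < l, g < g' → β (g * K) < β (g' * K) := by
        intro g hg g' hg' hlt
        have h1 : (g + 1) * K ≤ g' * K := Nat.mul_le_mul_right K hlt
        have h2 : (g + 1) * K = g * K + K := by ring
        have h3 : g' * K ≤ l * K := Nat.mul_le_mul_right K hg'.le
        exact (hβs (g * K) (by omega)).trans_le (hβm _ _ (by omega) h3)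
      intro g hg g' hg'
      have e1 := aux g hg
      have e2 := aux g' hg'
      have l1 : g < l := mem_range.mp (mem_filter.mp hg).1
      have l2 : g' < l := mem_range.mp (mem_filter.mp hg').1
      by_contra hc
      rcases Nat.lt_or_gt_of_ne hc with h | h
      · have := aux2 g l1 g' l2 h; omega
      · have := aux2 g' l2 g l1 h; omega
    have hgen : ∀ n x y, u ≤ x → x ≤ y → y ≤ v →
        ((Ico x y).filter (fun i => p i = al)).card = n →
        (Bad x y).card + 1 ≤ (2 * m + 4) * (n + 1) := by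
      intro n
      induction n using Nat.strong_induction_on with
      | _ n ihn =>
        intro x y hx hxy hy hn
        by_cases hc : ∀ t, x ≤ t → t < y → p t ≠ al
        · have := hconst x y hx hxy hy hc
          nlinarith
        · push Not at hc
          obtain ⟨t, t1, t2, t3⟩ := hc
          have hsplit : ((Ico x y).filter (fun i => p i = al)).card =
              ((Ico x t).filter (fun i => p i = al)).card + 1 +
              ((Ico (t + 1) y).filter (fun i => p i = al)).card := by
            rw [← Ico_union_Ico_eq_Ico (show x ≤ t + 1 by omega) (show t + 1 ≤ y by omega),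
              filter_union, card_union_of_disjoint
                (disjoint_filter_filter (Ico_disjoint_Ico_consecutive _ _ _)),
              Nat.Ico_succ_right_eq_insert_Ico t1, filter_insert, if_pos t3,
              card_insert_of_notMem (by simp)]
          have i1 := ihn _ (by omega) x t hx t1 (by omega) rfl
          have i2 := ihn _ (by omega) (t + 1) y (by omega) (by omega) hy rfl
          have i3 := htri x t y
          have i4 := htri t (t + 1) y
          have i5 := hone t
          rw [← hn, hsplit]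
          nlinarith
    by_contra hne
    have hall : Bad u v = range l := by
      refine filter_true_of_mem fun g hg => ?_
      have hg' := hgK g (mem_range.mp hg) 0 (Nat.zero_le _)
      have b1 : al ≤ β (g * K) := hβ0.trans (hβm _ _ (Nat.zero_le _) hg')
      have b2 : β (g * K) ≤ om := (hβm _ _ hg' le_rfl).trans hβ1
      rw [const_of_jc _ _ _ hju _ b1 b2, const_of_jc _ _ _ hjv _ b1 b2]
      exact hne
    have h1 := hgen _ u v le_rfl huv le_rfl rfl
    have h2 : ((Ico u v).filter (fun i => p i = al)).card ≤ 2 := by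
      refine le_trans (card_le_card (filter_subset_filter _ ?_)) (hd.fib al v)
      intro i hi
      exact mem_range.mpr (mem_Ico.mp hi).2
    rw [hall, card_range] at h1
    nlinarith

theorem core (a A : ℕ → ℝ) (C : ℕ → ℕ → ℕ → ℕ → Prop) (p : ℕ → ℕ) (e : ℕ → ℤ)
    (hz : Zig a A C) (hd : Dyn p e) (ha : Tendsto a atTop (𝓝 0))
    (hA : ∀ l, A l = (l + 2) * A (l + 1)) (hA0 : Tendsto A atTop (𝓝 0))
    (M : ℕ) (hM : ∀ t w, jc (chi p e t) 0 w ≤ M)
    (hfin : ∀ n, ∀ᶠ t in atTop, chi p e t n = 0)
    (L : ℝ) (hL : Tendsto (up a p e 0) atTop (𝓝 L)) : L = 0 := by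
  by_contra hne
  have hLpos : 0 < |L| := abs_pos.mpr hne
  have hanti : Antitone A := antitone_nat_of_succ_le fun l => by
    have := hz.pos (l + 1)
    rw [hA l]
    nlinarith [(Nat.cast_nonneg l : (0 : ℝ) ≤ l)]
  obtain ⟨l, hl1, hl2⟩ : ∃ l : ℕ, 128 * M + 12 ≤ l ∧ 16 * M * A l < |L| / 2 := by
    have h1 : Tendsto (fun l => 16 * (M : ℝ) * A l) atTop (𝓝 (16 * M * 0)) := hA0.const_mul _
    rw [mul_zero] at h1
    exact ((eventually_ge_atTop _).and (h1.eventually (gt_mem_nhds (by linarith)))).exists
  obtain ⟨δ, hδ, hδ1, hδ2⟩ : ∃ δ : ℝ, 0 < δ ∧ δ ≤ A (l + M) / 16 ∧ δ ≤ |L| / 2 :=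
    ⟨min (A (l + M) / 16) (|L| / 2), lt_min (by linarith [hz.pos (l + M)]) (by linarith),
      min_le_left _ _, min_le_right _ _⟩
  obtain ⟨T0, hT0⟩ := Metric.tendsto_atTop.mp hL δ hδ
  obtain ⟨n0, hn0⟩ := Metric.tendsto_atTop.mp ha δ hδ
  have st := stable a A C p e hz hd T0 n0 δ L hδ.le
    (fun t ht => by simpa [Real.dist_eq] using (hT0 t ht).le)
    (fun t ht => by simpa [Real.dist_eq] using (hn0 t ht).le) M l (l + M)
    (fun l' h1 h2 => ⟨by omega, by
      have h3 := hanti h2
      have h4 := hz.pos (l' + 1)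
      have h5 : (128 * M + 12 : ℝ) ≤ l' := by exact_mod_cast hl1.trans h1
      have h6 := hA l'
      nlinarith⟩) M le_rfl l le_rfl le_rfl
  obtain ⟨N, hN⟩ := exists_bound p T0
  obtain ⟨b, om, hb, hbN⟩ : ∃ b om, C l M b om ∧ max N n0 ≤ b := by
    generalize max N n0 = k
    induction k with
    | zero => obtain ⟨al, om, h⟩ := hz.ex l M; exact ⟨al, om, h, Nat.zero_le _⟩
    | succ k ih =>
      obtain ⟨al, om, h, hk⟩ := ih
      obtain ⟨h1, om', h2⟩ := hz.nxt _ _ _ _ h
      exact ⟨om, om', h2, by omega⟩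
  obtain ⟨t, ht1, ht2⟩ : ∃ t, T0 ≤ t ∧ ∀ n ∈ range b, chi p e t n = 0 :=
    ((eventually_ge_atTop T0).and ((eventually_all_finset (range b)).mpr fun n _ => hfin n)).exists
  have hM' : ∀ t b w, jc (chi p e t) b w ≤ M := fun t b w =>
    (jc_mono _ (Nat.zero_le _) le_rfl).trans (hM t w)
  have hu0 : ∀ w, jc (chi p e T0) b w ≤ 0 := by
    intro w
    unfold jc
    rw [filter_false_of_mem, card_empty]
    intro n hn
    have := (mem_Ico.mp hn).1
    rw [chi_zero p e T0 N n hN (by omega), chi_zero p e T0 N (n + 1) hN (by omega)]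
    simp
  have cs := cellsum a p e hd.x1 (C l M) (2 * A l) (by linarith [hz.pos l]) (hz.nxt _ _)
    (hz.rng _ _) T0 t b (fun al om h1 h2 h3 h4 => st al om h1 (by omega) T0 t le_rfl ht1
      (fun s _ _ w => hM' s al w) h3 h4) b om hb le_rfl 0 M hu0 (hM' t b)
  rw [up_zero a p e T0 N b hN (by omega)] at cs
  have f1 := hT0 t ht1
  rw [up_split a p e 0 b t (Nat.zero_le _), sum_eq_zero (fun n hn => by
    rw [ht2 n (mem_range.mpr (mem_Ico.mp hn).2)]; simp), zero_add, Real.dist_eq] at f1
  have f2 := abs_sub_abs_le_abs_sub L (up a p e b t)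
  rw [abs_sub_comm] at f2
  simp only [sub_zero, Nat.cast_zero, zero_add] at cs
  have := hz.pos l
  have hM0 : (0 : ℝ) ≤ M := Nat.cast_nonneg M
  nlinarith

end Pool.Agent.H33.Vel
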