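import Pool.Agent.H33.Vel2

set_option autoImplicit false
open Finset Filter Topology

namespace Pool.Agent.H33.Vel

noncomputable def AA (l : ℕ) : ℝ := 1 / ((l + 1).factorial : ℝ)

def Kn (l al : ℕ) : ℕ := 4 * al * (l + 1).factorial + 1

def rr (l al : ℕ) : ℕ := (l + 2) * (2 * (l * Kn l al) + 1)

def EE : ℕ → ℕ → ℕ → ℕ
  | 0, _, al => al + 1
  | j + 1, l, al => (EE j (l + 1))^[rr l al] al

noncomputable def sg (l i : ℕ) : ℝ := (-1) ^ (i / (l + 2))

def idx (f : ℕ → ℕ) (n : ℕ) : ℕ := Nat.findGreatest (fun i => f i ≤ n) n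

noncomputable def zz : ℕ → ℕ → ℕ → ℕ → ℝ
  | 0, _, _, _ => 1
  | j + 1, l, al, n => sg l (idx (fun i => (EE j (l + 1))^[i] al) n) *
      zz j (l + 1) ((EE j (l + 1))^[idx (fun i => (EE j (l + 1))^[i] al) n] al) n

def TT : ℕ → ℕ
  | 0 => 0
  | k + 1 => EE k 0 (TT k)

noncomputable def aa (n : ℕ) : ℝ := AA (idx TT n) * zz (idx TT n) 0 (TT (idx TT n)) n

inductive St : ℕ → ℕ → ℕ → ℝ → Prop
  | top (k : ℕ) : St k 0 (TT k) 1
  | sub (d l al : ℕ) (ε : ℝ) (i : ℕ) : St (d + 1) l al ε → i < rr l al →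
      St d (l + 1) ((EE d (l + 1))^[i] al) (ε * sg l i)

lemma AA_pos (l : ℕ) : 0 < AA l := by unfold AA; positivity

lemma AA_succ (l : ℕ) : AA l = (l + 2) * AA (l + 1) := by
  unfold AA
  rw [Nat.factorial_succ (l + 1)]
  push_cast
  field_simp
  ring

lemma AA_le (l : ℕ) : AA l ≤ 1 / ((l : ℝ) + 1) := by
  unfold AA
  apply one_div_le_one_div_of_le (by positivity)
  exact_mod_cast Nat.self_le_factorial (l + 1)

lemma AA_lim : Tendsto AA atTop (𝓝 0) :=
  squeeze_zero (fun l => (AA_pos l).le) AA_le tendsto_one_div_add_atTop_nhds_zero_nat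

lemma rr_pos (l al : ℕ) : 0 < rr l al := by unfold rr; positivity

lemma iter_mono (f : ℕ → ℕ) (hf : ∀ x, x < f x) (al : ℕ) : StrictMono (fun i => f^[i] al) :=
  strictMono_nat_of_lt_succ fun i => by
    simp only [Function.iterate_succ_apply']; exact hf _

lemma EE_gt (j : ℕ) : ∀ l al, al < EE j l al := by
  induction j with
  | zero => intro l al; simp [EE]
  | succ j ih =>
    intro l al
    exact iter_mono (EE j (l + 1)) (ih (l + 1)) al (rr_pos l al)

lemma TT_mono : StrictMono TT := strictMono_nat_of_lt_succ fun k => EE_gt k 0 (TT k)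

lemma idx_eq (f : ℕ → ℕ) (hf : StrictMono f) (n i : ℕ) (h1 : f i ≤ n) (h2 : n < f (i + 1)) :
    idx f n = i := by
  unfold idx
  rw [Nat.findGreatest_eq_iff]
  refine ⟨(hf.id_le i).trans h1, fun _ => h1, fun k hk _ hc => ?_⟩
  have := hf.monotone (show i + 1 ≤ k from hk)
  omega

lemma exists_between (f : ℕ → ℕ) (r n : ℕ) (h1 : f 0 ≤ n) (h2 : n < f r) :
    ∃ i < r, f i ≤ n ∧ n < f (i + 1) := by
  induction r with
  | zero => omega
  | succ r ih =>
    by_cases hc : n < f r
    · obtain ⟨i, i1, i2⟩ := ih hc; exact ⟨i, by omega, i2⟩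
    · exact ⟨r, by omega, by omega, h2⟩

lemma idx_TT (n : ℕ) : TT (idx TT n) ≤ n ∧ n < TT (idx TT n + 1) := by
  obtain ⟨i, -, h1, h2⟩ := exists_between TT (n + 1) n (by simp [TT]) (TT_mono.id_le (n + 1))
  rw [idx_eq TT TT_mono n i h1 h2]
  exact ⟨h1, h2⟩

lemma abs_sg (l i : ℕ) : |sg l i| = 1 := by simp [sg]

lemma abs_zz (j : ℕ) : ∀ l al n, |zz j l al n| = 1 := by
  induction j with
  | zero => intro l al n; simp [zz]
  | succ j ih => intro l al n; simp [zz, abs_mul, abs_sg, ih]

lemma abs_aa (n : ℕ) : |aa n| = AA (idx TT n) := by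
  simp [aa, abs_mul, abs_zz, abs_of_pos (AA_pos _)]

lemma idx_lim : Tendsto (idx TT) atTop atTop := by
  refine tendsto_atTop_atTop.mpr fun k => ⟨TT k, fun n hn => ?_⟩
  have := (idx_TT n).2
  have := TT_mono.lt_iff_lt.mp (hn.trans_lt this)
  omega

lemma aa_lim : Tendsto aa atTop (𝓝 0) := by
  rw [tendsto_zero_iff_abs_tendsto_zero]
  refine (AA_lim.comp idx_lim).congr fun n => ?_
  simp [abs_aa]

lemma St_nxt {d l al : ℕ} {ε : ℝ} (h : St d l al ε) :
    ∃ d' ε', d ≤ d' ∧ St d' l (EE d l al) ε' := by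
  induction h with
  | top k => exact ⟨k + 1, 1, by omega, St.top (k + 1)⟩
  | sub d l al ε i h hi ih =>
    by_cases hc : i + 1 < rr l al
    · refine ⟨d, ε * sg l (i + 1), le_rfl, ?_⟩
      have := St.sub d l al ε (i + 1) h hc
      rwa [Function.iterate_succ_apply'] at this
    · obtain ⟨d', ε', h1, h2⟩ := ih
      obtain ⟨d'', rfl⟩ : ∃ d'', d' = d'' + 1 := ⟨d' - 1, by omega⟩
      refine ⟨d'', ε' * sg l 0, by omega, ?_⟩
      have h3 := St.sub d'' l _ ε' 0 h2 (rr_pos _ _)
      have h4 : EE d (l + 1) ((EE d (l + 1))^[i] al) = EE (d + 1) l al := by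
        rw [← Function.iterate_succ_apply' (EE d (l + 1)), show i.succ = rr l al by omega]
        rfl
      rw [h4]
      exact h3

lemma St_val {d l al : ℕ} {ε : ℝ} (h : St d l al ε) :
    |ε| = 1 ∧ ∀ n, al ≤ n → n < EE d l al → aa n = ε * AA (l + d) * zz d l al n := by
  induction h with
  | top k =>
    refine ⟨by simp, fun n h1 h2 => ?_⟩
    have := idx_eq TT TT_mono n k h1 h2
    simp [aa, this]
  | sub d l al ε i h hi ih =>
    refine ⟨by simp [abs_mul, ih.1, abs_sg], fun n h1 h2 => ?_⟩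
    have hm := iter_mono (EE d (l + 1)) (EE_gt d (l + 1)) al
    rw [← Function.iterate_succ_apply' (EE d (l + 1))] at h2
    have h3 : al ≤ n := (hm.monotone (Nat.zero_le i)).trans h1
    have h4 : n < EE (d + 1) l al := h2.trans_le (hm.monotone (show i + 1 ≤ rr l al from hi))
    rw [ih.2 n h3 h4]
    have h5 := idx_eq _ hm n i h1 h2
    simp only [zz, h5]
    rw [show l + (d + 1) = l + 1 + d by ring]
    ring

noncomputable def tri (l i : ℕ) : ℝ := ∑ k ∈ range i, sg l k

lemma tri_add (l h c : ℕ) (hc : c ≤ l + 2) :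
    tri l ((l + 2) * h + c) = tri l ((l + 2) * h) + c * (-1) ^ h := by
  induction c with
  | zero => simp
  | succ c ih =>
    have h1 : ((l + 2) * h + c) / (l + 2) = h := by
      rw [Nat.mul_add_div (by omega), Nat.div_eq_of_lt (by omega)]; rfl
    have h2 : tri l ((l + 2) * h + (c + 1)) = tri l ((l + 2) * h + c) + sg l ((l + 2) * h + c) := by
      simp [tri, ← add_assoc, sum_range_succ]
    rw [h2, ih (by omega), sg, h1]
    push_cast; ring

lemma tri_mul (l h : ℕ) : tri l ((l + 2) * h) = (l + 2) * (1 - (-1) ^ h) / 2 := by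
  induction h with
  | zero => simp [tri]
  | succ h ih =>
    rw [Nat.mul_succ, tri_add l h (l + 2) le_rfl, ih]
    push_cast; ring

lemma tri_bound (l i : ℕ) : |tri l i| ≤ l + 2 := by
  have h1 := tri_add l (i / (l + 2)) (i % (l + 2)) (Nat.mod_lt _ (by omega)).le
  rw [Nat.div_add_mod, tri_mul] at h1
  have h2 : ((i % (l + 2) : ℕ) : ℝ) ≤ l + 2 := by
    exact_mod_cast (Nat.mod_lt i (show 0 < l + 2 by omega)).le
  have h3 : (0 : ℝ) ≤ (i % (l + 2) : ℕ) := Nat.cast_nonneg _
  rw [h1, abs_le]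
  rcases neg_one_pow_eq_or ℝ (i / (l + 2)) with h | h <;> rw [h] <;> constructor <;> linarith

lemma St_iter {d l al : ℕ} {ε : ℝ} (h : St (d + 1) l al ε)
    (ih : ∀ l al ε, St d l al ε → ps aa (EE d l al) - ps aa al = ε * AA l) (i : ℕ)
    (hi : i ≤ rr l al) :
    ps aa ((EE d (l + 1))^[i] al) - ps aa al = ε * AA (l + 1) * tri l i := by
  induction i with
  | zero => simp [tri]
  | succ i ih2 =>
    have h1 := ih _ _ _ (St.sub d l al ε i h hi)
    have h2 := ih2 (by omega)
    rw [Function.iterate_succ_apply']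
    have h3 : tri l (i + 1) = tri l i + sg l i := by simp [tri, sum_range_succ]
    rw [h3]
    linarith

lemma St_net (d : ℕ) : ∀ l al ε, St d l al ε → ps aa (EE d l al) - ps aa al = ε * AA l := by
  induction d with
  | zero =>
    intro l al ε h
    have := (St_val h).2 al le_rfl (EE_gt _ _ _)
    simp only [EE, ps_succ, this, zz]
    simp
  | succ d ih =>
    intro l al ε h
    have := St_iter h ih (rr l al) le_rfl
    rw [show EE (d + 1) l al = (EE d (l + 1))^[rr l al] al from rfl, this, rr, tri_mul, AA_succ l,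
      pow_succ, pow_mul]
    simp
    ring

lemma St_rng (d : ℕ) : ∀ l al ε, St d l al ε → ∀ n, al ≤ n → n ≤ EE d l al →
    |ps aa n - ps aa al| ≤ 2 * AA l := by
  induction d with
  | zero =>
    intro l al ε h n h1 h2
    have hp := AA_pos l
    rcases Nat.eq_or_lt_of_le h1 with h3 | h3
    · subst h3; simp; linarith
    · have : n = EE 0 l al := by simp only [EE] at h2 ⊢; omega
      rw [this, St_net 0 l al ε h, abs_mul, (St_val h).1, abs_of_pos hp]
      linarith
  | succ d ih =>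
    intro l al ε h n h1 h2
    have hp := AA_pos l
    rcases Nat.eq_or_lt_of_le h2 with h3 | h3
    · rw [h3, St_net _ l al ε h, abs_mul, (St_val h).1, abs_of_pos hp]
      linarith
    · obtain ⟨i, i1, i2, i3⟩ := exists_between (fun i => (EE d (l + 1))^[i] al) (rr l al) n h1 h3
      have s1 := St_iter h (St_net d) i i1.le
      have s2 := ih _ _ _ (St.sub d l al ε i h i1) n i2 (by
        rw [← Function.iterate_succ_apply' (EE d (l + 1))]; exact i3.le)
      have hp1 := AA_pos (l + 1)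
      have s3 : |ε * AA (l + 1) * tri l i| ≤ AA l := by
        rw [abs_mul, abs_mul, (St_val h).1, abs_of_pos hp1, AA_succ l]
        nlinarith [tri_bound l i]
      have s4 : 2 * AA (l + 1) ≤ AA l := by
        rw [AA_succ l]; nlinarith [(Nat.cast_nonneg l : (0 : ℝ) ≤ l)]
      rw [← s1] at s3
      have := abs_add_le (ps aa n - ps aa ((EE d (l + 1))^[i] al))
        (ps aa ((EE d (l + 1))^[i] al) - ps aa al)
      rw [sub_add_sub_cancel] at this
      linarith

def CC (l j al om : ℕ) : Prop := ∃ d ε, j ≤ d ∧ St d l al ε ∧ om = EE d l al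

theorem zig : Zig aa AA CC where
  nxt := by
    rintro l j al om ⟨d, ε, h1, h2, rfl⟩
    obtain ⟨d', ε', h3, h4⟩ := St_nxt h2
    exact ⟨EE_gt _ _ _, _, d', ε', by omega, h4, rfl⟩
  rng := by
    rintro l j al om ⟨d, ε, h1, h2, rfl⟩
    exact St_rng d l al ε h2
  osc := by
    rintro l j al om ⟨d, ε, h1, h2, rfl⟩
    obtain ⟨d, rfl⟩ : ∃ d', d = d' + 1 := ⟨d - 1, by omega⟩
    have hm := iter_mono (EE d (l + 1)) (EE_gt d (l + 1)) al
    refine ⟨Kn l al, fun i => (EE d (l + 1))^[(l + 2) * i] al, by unfold Kn; omega, ?_, le_rfl,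
      hm.monotone (Nat.mul_le_mul_left _ (by omega)), fun i hi => ?_, fun i hi => ?_⟩
    · unfold Kn AA
      push_cast
      have : (0 : ℝ) < (l + 1).factorial := by positivity
      rw [add_mul, mul_one_div, mul_div_assoc, div_self this.ne']
      have : (0 : ℝ) < 1 * (1 / (l + 1).factorial) := by positivity
      linarith
    · have s1 := St_iter h2 (St_net d) ((l + 2) * i) (Nat.mul_le_mul_left _ (by omega))
      have s2 := St_iter h2 (St_net d) ((l + 2) * (i + 1)) (Nat.mul_le_mul_left _ (by omega))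
      have s3 : ps aa ((EE d (l + 1))^[(l + 2) * (i + 1)] al) -
          ps aa ((EE d (l + 1))^[(l + 2) * i] al) = ε * AA l * (-1) ^ i := by
        rw [tri_mul] at s1 s2
        rw [AA_succ l]
        linear_combination s2 - s1
      rw [s3, abs_mul, abs_mul, (St_val h2).1, abs_of_pos (AA_pos l)]
      simp
    · have h3 : (l + 2) * i < rr l al := Nat.mul_lt_mul_of_pos_left (by omega) (by omega)
      refine ⟨_, ⟨d, _, by omega, St.sub d l al ε _ h2 h3, rfl⟩, ?_⟩
      rw [← Function.iterate_succ_apply' (EE d (l + 1))]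
      exact hm.monotone (show (l + 2) * i + 1 ≤ (l + 2) * (i + 1) by rw [Nat.mul_succ]; omega)
  ex := by
    intro l j
    have : ∀ l d, ∃ al ε, St d l al ε := by
      intro l
      induction l with
      | zero => intro d; exact ⟨_, _, St.top d⟩
      | succ l ih =>
        intro d
        obtain ⟨al, ε, h⟩ := ih (d + 1)
        exact ⟨_, _, St.sub d l al ε 0 h (rr_pos _ _)⟩
    obtain ⟨al, ε, h⟩ := this l j
    exact ⟨al, _, j, ε, le_rfl, h, rfl⟩
  pos := AA_pos
  le1 := fun n => by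
    rw [abs_aa]
    refine (AA_le _).trans ?_
    rw [div_le_one (by positivity)]
    linarith [(Nat.cast_nonneg (idx TT n) : (0 : ℝ) ≤ _)]

lemma block_net (k : ℕ) : ps aa (TT (k + 1)) - ps aa (TT k) = 1 := by
  have := St_net k 0 _ _ (St.top k)
  simpa [AA, TT] using this

end Pool.Agent.H33.Vel
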