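import Pool.Agent.H33.Vel3

set_option autoImplicit false
open Finset Filter Topology

namespace Pool.Agent.H33.Vel

def uu (n : ℕ) : ℕ := n + TT (idx TT n)
def vv (n : ℕ) : ℕ := n + TT (idx TT n + 1)

lemma idx_mono : Monotone (idx TT) := by
  intro n n' h
  have h1 := (idx_TT n).1
  have h2 := (idx_TT n').2
  have := TT_mono.lt_iff_lt.mp ((h1.trans h).trans_lt h2)
  omega

lemma uu_mono : StrictMono uu := fun n n' h => by
  have := TT_mono.monotone (idx_mono h.le)
  unfold uu; omega

lemma vv_mono : StrictMono vv := fun n n' h => by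
  have := TT_mono.monotone (Nat.succ_le_succ (idx_mono h.le))
  unfold vv; simp only [Nat.succ_eq_add_one] at this; omega

lemma uu_ne_vv (n n' : ℕ) : uu n ≠ vv n' := by
  have h1 := idx_TT n
  have h2 := idx_TT n'
  unfold uu vv
  rcases le_or_gt (idx TT n) (idx TT n') with h | h
  · have := TT_mono.monotone h
    have := TT_mono.monotone (show idx TT n + 1 ≤ idx TT n' + 1 by omega)
    omega
  · have := TT_mono.monotone (show idx TT n' + 1 ≤ idx TT n by omega)
    omega

def tf (i : ℕ) : ℕ := if i % 2 = 0 then uu (i / 2) else vv (i / 2)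

lemma tf_bij : Function.Bijective tf := by
  constructor
  · intro i j h
    unfold tf at h
    split_ifs at h with h1 h2 h2
    · have := uu_mono.injective h; omega
    · exact absurd h (uu_ne_vv _ _)
    · exact absurd h.symm (uu_ne_vv _ _)
    · have := vv_mono.injective h; omega
  · intro m
    obtain ⟨k, -, h1, h2⟩ := exists_between (fun k => 2 * TT k) (m + 1) m (by simp [TT])
      (by have := TT_mono.id_le (m + 1); simp only [id] at this; omega)
    by_cases hc : m < TT k + TT (k + 1)
    · refine ⟨2 * (m - TT k), ?_⟩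
      have := idx_eq TT TT_mono (m - TT k) k (by omega) (by omega)
      unfold tf
      rw [if_pos (by omega), show 2 * (m - TT k) / 2 = m - TT k by omega, uu, this]
      omega
    · refine ⟨2 * (m - TT (k + 1)) + 1, ?_⟩
      have := idx_eq TT TT_mono (m - TT (k + 1)) k (by omega) (by omega)
      unfold tf
      rw [if_neg (by omega), show (2 * (m - TT (k + 1)) + 1) / 2 = m - TT (k + 1) by omega, vv, this]
      omega

noncomputable def tau : Equiv.Perm ℕ := Equiv.ofBijective tf tf_bij

lemma tau_even (n : ℕ) : tau (2 * n) = uu n := by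
  show tf (2 * n) = _
  unfold tf
  rw [if_pos (by omega), show 2 * n / 2 = n by omega]

lemma tau_odd (n : ℕ) : tau (2 * n + 1) = vv n := by
  show tf (2 * n + 1) = _
  unfold tf
  rw [if_neg (by omega), show (2 * n + 1) / 2 = n by omega]

lemma even_sum (b : ℕ → ℝ) (n : ℕ) : ∑ i ∈ range (2 * n), b (tau i) =
    ps b (uu n) + ps b (vv n) - ps b (TT (idx TT n) + TT (idx TT n + 1)) := by
  induction n with
  | zero =>
    have : idx TT 0 = 0 := idx_eq TT TT_mono 0 0 (by simp [TT]) (TT_mono (Nat.zero_lt_succ 0))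
    simp [uu, vv, this, TT, ps]
  | succ n ih =>
    rw [Nat.mul_succ, sum_range_succ, sum_range_succ, ih, tau_even, tau_odd]
    have h1 := idx_TT n
    have e1 := ps_succ b (uu n)
    have e2 := ps_succ b (vv n)
    by_cases hc : n + 1 < TT (idx TT n + 1)
    · have := idx_eq TT TT_mono (n + 1) (idx TT n) (by omega) hc
      have a1 : uu (n + 1) = uu n + 1 := by unfold uu; rw [this]; omega
      have a2 : vv (n + 1) = vv n + 1 := by unfold vv; rw [this]; omega
      rw [a1, a2, this]
      linarith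
    · have h2 := TT_mono (Nat.lt_succ_self (idx TT n + 1))
      have := idx_eq TT TT_mono (n + 1) (idx TT n + 1) (by omega)
        (by simp only [Nat.succ_eq_add_one] at h2; omega)
      have a1 : uu (n + 1) = vv n + 1 := by unfold uu vv; rw [this]; omega
      have a2 : vv (n + 1) = TT (idx TT n + 1) + TT (idx TT n + 1 + 1) := by
        unfold vv; rw [this]; omega
      have a3 : uu n + 1 = TT (idx TT n) + TT (idx TT n + 1) := by unfold uu; omega
      rw [a1, a2, this, ← a3]
      linarith

lemma of_even (c : ℕ → ℝ) (M : ℝ) (h1 : Tendsto (fun n => ∑ i ∈ range (2 * n), c i) atTop (𝓝 M))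
    (h2 : Tendsto (fun n => c (2 * n)) atTop (𝓝 0)) :
    Tendsto (fun n => ∑ i ∈ range n, c i) atTop (𝓝 M) := by
  have hd : Tendsto (fun t : ℕ => t / 2) atTop atTop :=
    tendsto_atTop_atTop.mpr fun k => ⟨2 * k, fun n hn => by omega⟩
  have h3 : Tendsto (fun t : ℕ => if t % 2 = 0 then 0 else c (2 * (t / 2))) atTop (𝓝 0) := by
    refine squeeze_zero_norm (a := fun t => ‖c (2 * (t / 2))‖) (fun t => ?_) ?_
    · split_ifs <;> simp
    · exact tendsto_zero_iff_norm_tendsto_zero.mp (h2.comp hd)
  have h4 := (h1.comp hd).add h3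
  rw [add_zero] at h4
  refine h4.congr fun t => ?_
  simp only [Function.comp]
  split_ifs with hc
  · rw [show 2 * (t / 2) = t by omega, add_zero]
  · rw [← sum_range_succ, show 2 * (t / 2) + 1 = t by omega]

lemma tau_pres (b : ℕ → ℝ) (M : ℝ) (h : Tendsto (ps b) atTop (𝓝 M)) :
    Tendsto (fun n => ∑ i ∈ range n, b (tau i)) atTop (𝓝 M) := by
  have hb : Tendsto b atTop (𝓝 0) := by
    have := ((tendsto_add_atTop_iff_nat 1).mpr h).sub h
    rw [sub_self] at this
    exact this.congr fun n => by simp [ps_succ]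
  refine of_even _ M ?_ ?_
  · have h3 : Tendsto (fun n => TT (idx TT n) + TT (idx TT n + 1)) atTop atTop :=
      tendsto_atTop_mono (fun n => by have := (idx_TT n).2; simp only [id]; omega) tendsto_id
    have := ((h.comp uu_mono.tendsto_atTop).add (h.comp vv_mono.tendsto_atTop)).sub (h.comp h3)
    rw [add_sub_cancel_right] at this
    exact this.congr fun n => (even_sum b n).symm
  · simp only [tau_even]
    exact hb.comp uu_mono.tendsto_atTop

noncomputable def BB (m : ℕ) : ℝ :=
  if tau.symm m % 2 = 0 then aa (tau.symm m / 2) else - aa (tau.symm m / 2)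

lemma BB_uu (n : ℕ) : BB (uu n) = aa n := by
  rw [← tau_even, BB, Equiv.symm_apply_apply, if_pos (by omega), show 2 * n / 2 = n by omega]

lemma BB_vv (n : ℕ) : BB (vv n) = - aa n := by
  rw [← tau_odd, BB, Equiv.symm_apply_apply, if_neg (by omega),
    show (2 * n + 1) / 2 = n by omega]

lemma BB_even (n : ℕ) : ∑ i ∈ range (2 * n), BB (tau i) = 0 := by
  induction n with
  | zero => simp
  | succ n ih =>
    rw [Nat.mul_succ, sum_range_succ, sum_range_succ, ih, tau_even, tau_odd, BB_uu, BB_vv]
    ring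

lemma BB_tau : Tendsto (fun n => ∑ i ∈ range n, BB (tau i)) atTop (𝓝 0) := by
  refine of_even _ 0 ?_ ?_
  · simp only [BB_even]; exact tendsto_const_nhds
  · simp only [tau_even, BB_uu]; exact aa_lim

lemma BB_div : ¬ ∃ L : ℝ, Tendsto (fun n => ∑ i ∈ range n, BB i) atTop (𝓝 L) := by
  rintro ⟨L, hL⟩
  have hk : ∀ k, idx TT (TT k) = k := fun k =>
    idx_eq TT TT_mono _ k le_rfl (TT_mono (Nat.lt_succ_self k))
  have h1 : ∀ k, ps BB (TT k + TT k) = 0 := by
    intro k
    have := even_sum BB (TT k)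
    rw [BB_even, uu, vv, hk] at this
    linarith
  have h2 : ∀ k, ps BB (TT (k + 1) + TT k) = 1 := by
    intro k
    have : ∀ n, TT k ≤ n → n ≤ TT (k + 1) → ps BB (n + TT k) = ps aa n - ps aa (TT k) := by
      intro n hn
      induction n, hn using Nat.le_induction with
      | base => intro _; rw [h1]; simp
      | succ n hn ih =>
        intro h
        have e1 := idx_eq TT TT_mono n k hn (by omega)
        have e2 := BB_uu n
        rw [uu, e1] at e2
        rw [show n + 1 + TT k = n + TT k + 1 by omega, ps_succ, ps_succ, ih (by omega), e2]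
        ring
    rw [this _ (TT_mono.monotone (Nat.le_succ k)) le_rfl, block_net]
  have t1 : Tendsto (fun k => TT k + TT k) atTop atTop :=
    tendsto_atTop_mono (fun n => by have := TT_mono.id_le n; simp only [id] at this ⊢; omega)
      tendsto_id
  have t2 : Tendsto (fun k => TT (k + 1) + TT k) atTop atTop :=
    tendsto_atTop_mono (fun n => by have := TT_mono.id_le n; simp only [id] at this ⊢; omega)
      tendsto_id
  have a1 : L = 0 := tendsto_nhds_unique (hL.comp t1)
    (tendsto_const_nhds.congr fun k => (h1 k).symm)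
  have a2 : L = 1 := tendsto_nhds_unique (hL.comp t2)
    (tendsto_const_nhds.congr fun k => (h2 k).symm)
  linarith

def ind (σ : Equiv.Perm ℕ) (t m : ℕ) : ℤ := if σ.symm m < t then 1 else 0

lemma ind_succ (σ : Equiv.Perm ℕ) (t m : ℕ) :
    ind σ (t + 1) m = ind σ t m + if σ t = m then 1 else 0 := by
  unfold ind
  by_cases h : σ t = m
  · subst h; simp
  · have : σ.symm m ≠ t := fun hc => h (by rw [← hc]; simp)
    rw [if_neg h]
    split_ifs <;> omega

lemma sum_ind (σ : Equiv.Perm ℕ) (f : ℕ → ℝ) (t N : ℕ) (h : ∀ i < t, σ i < N) :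
    ∑ i ∈ range t, f (σ i) = ∑ n ∈ range N, (ind σ t n : ℝ) * f n := by
  induction t with
  | zero => simp [ind]
  | succ t ih =>
    rw [sum_range_succ, ih (fun i hi => h i (by omega))]
    simp only [ind_succ]
    push_cast
    simp only [add_mul, sum_add_distrib, ite_mul, one_mul, zero_mul, sum_ite_eq, mem_range,
      if_pos (h t (by omega))]

noncomputable def ev (n : ℕ) : ZeroAtInftyContinuousMap ℕ ℝ →L[ℝ] ℝ :=
  LinearMap.mkContinuous
    { toFun := fun x => x n
      map_add' := fun _ _ => rfl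
      map_smul' := fun _ _ => rfl } 1 (fun x => by
      rw [one_mul, ← ZeroAtInftyContinuousMap.norm_toBCF_eq_norm]
      exact x.toBCF.norm_coe_le_norm n)

/-- a convergence-preserving permutation has boundedly many blocks -/
lemma blocks (σ : Equiv.Perm ℕ)
    (h : ∀ b : ℕ → ℝ, (∃ M : ℝ, Tendsto (fun n => ∑ i ∈ range n, b i) atTop (𝓝 M)) →
      ∃ M : ℝ, Tendsto (fun n => ∑ i ∈ range n, b (σ i)) atTop (𝓝 M)) :
    ∃ M : ℕ, ∀ t w, jc (ind σ t) 0 w ≤ M := by
  let φ : ℕ → ZeroAtInftyContinuousMap ℕ ℝ →L[ℝ] ℝ := fun t =>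
    ∑ i ∈ range t, (ev (σ i + 1) - ev (σ i))
  have hφ : ∀ t x, φ t x = ∑ i ∈ range t, (x (σ i + 1) - x (σ i)) := by
    intro t x
    simp only [φ, _root_.sum_apply, sub_apply]
    rfl
  obtain ⟨C, hC⟩ := banach_steinhaus (g := φ) (fun x => by
    have hx : Tendsto x atTop (𝓝 0) := by
      have := x.zero_at_infty'
      rwa [Filter.cocompact_eq_cofinite, Nat.cofinite_eq_atTop] at this
    obtain ⟨M, hM⟩ := h (fun n => x (n + 1) - x n) ⟨0 - x 0, by
      simp only [sum_range_sub]
      exact hx.sub_const _⟩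
    obtain ⟨R, hR⟩ := hM.norm.bddAbove_range
    exact ⟨R, fun t => by rw [hφ]; exact hR ⟨t, rfl⟩⟩)
  refine ⟨⌈C⌉₊, fun t w => ?_⟩
  obtain ⟨N, hN⟩ := exists_bound σ t
  have hy0 : ∀ n, N ≤ n → ind σ t n = 0 := by
    intro n hn
    unfold ind
    rw [if_neg]
    intro hc
    have := hN _ hc
    simp at this
    omega
  let x0 : ℕ → ℝ := fun n => if n = 0 then 0 else (ind σ t (n - 1) : ℝ) - ind σ t n
  let x : ZeroAtInftyContinuousMap ℕ ℝ := ⟨⟨x0, continuous_of_discreteTopology⟩, by
    rw [Filter.cocompact_eq_cofinite, Nat.cofinite_eq_atTop]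
    refine tendsto_const_nhds.congr' ?_
    filter_upwards [eventually_ge_atTop (N + 1)] with n hn
    simp [x0, hy0 n (by omega), hy0 (n - 1) (by omega)]⟩
  have hx1 : ‖x‖ ≤ 1 := by
    rw [← ZeroAtInftyContinuousMap.norm_toBCF_eq_norm]
    refine (BoundedContinuousFunction.norm_le zero_le_one).mpr fun n => ?_
    show ‖x0 n‖ ≤ 1
    simp only [x0, ind]
    split_ifs <;> simp
  have hid : ∀ W, ∑ n ∈ range W, (ind σ t n : ℝ) * (x0 (n + 1) - x0 n) =
      jc (ind σ t) 0 W + ind σ t W * x0 W := by
    intro W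
    induction W with
    | zero => simp [jc, x0]
    | succ W ih =>
      rw [sum_range_succ, ih, jc_succ _ _ _ (Nat.zero_le _)]
      have : x0 (W + 1) = (ind σ t W : ℝ) - ind σ t (W + 1) := by simp [x0]
      rw [this]
      unfold ind
      split_ifs <;> simp_all
  have h1 : φ t x = jc (ind σ t) 0 (max N w) := by
    rw [hφ, sum_ind σ (fun n => x (n + 1) - x n) t (max N w)
      (fun i hi => lt_max_of_lt_left (hN i hi))]
    have := hid (max N w)
    rw [hy0 _ (le_max_left _ _), Int.cast_zero, zero_mul, add_zero] at this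
    exact this
  have h2 := (φ t).le_opNorm x
  have h3 : (jc (ind σ t) 0 (max N w) : ℝ) ≤ C := by
    rw [← h1]
    have := hC t
    have h4 := le_abs_self (φ t x)
    rw [Real.norm_eq_abs] at h2
    nlinarith [norm_nonneg (φ t), norm_nonneg x]
  have h5 : jc (ind σ t) 0 (max N w) ≤ ⌈C⌉₊ := by
    exact_mod_cast h3.trans (Nat.le_ceil C)
  exact (jc_mono _ le_rfl (le_max_right _ _)).trans h5

lemma jc_comp (Y : ℕ → ℤ) (f : ℕ → ℕ) (hf : StrictMono f) (w : ℕ) :
    ((range w).filter (fun n => Y (f n) ≠ Y (f (n + 1)))).card ≤ jc Y 0 (f w) := by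
  have h1 := (groups_le Y f w (fun g _ => hf.monotone (Nat.le_succ g))).2
  refine le_trans (card_le_card ?_) (h1.trans (jc_mono _ (Nat.zero_le _) le_rfl))
  intro n hn
  simp only [mem_filter] at hn ⊢
  exact ⟨hn.1, fun hc => hn.2
    (const_of_jc Y _ _ hc _ (hf.monotone (Nat.le_succ n)) le_rfl).symm⟩

theorem only_zero (σ : Equiv.Perm ℕ)
    (h : ∀ b : ℕ → ℝ, (∃ M : ℝ, Tendsto (fun n => ∑ i ∈ range n, b i) atTop (𝓝 M)) →
      ∃ M : ℝ, Tendsto (fun n => ∑ i ∈ range n, b (σ i)) atTop (𝓝 M)) (L : ℝ)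
    (hL : Tendsto (fun n => ∑ i ∈ range n, BB (σ i)) atTop (𝓝 L)) : L = 0 := by
  obtain ⟨M, hM⟩ := blocks σ h
  let p : ℕ → ℕ := fun i => tau.symm (σ i) / 2
  let e : ℕ → ℤ := fun i => if tau.symm (σ i) % 2 = 0 then 1 else -1
  have hchi : ∀ t n, chi p e t n = ind σ t (uu n) - ind σ t (vv n) := by
    intro t n
    induction t with
    | zero => simp [chi, ind]
    | succ t ih =>
      have h1 : chi p e (t + 1) n = chi p e t n + if p t = n then e t else 0 := by
        simp [chi, sum_range_succ]
      rw [h1, ih, ind_succ, ind_succ, ← tau_even, ← tau_odd]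
      simp only [p, e, ← Equiv.symm_apply_eq]
      split_ifs <;> omega
  refine core aa AA CC p e zig ⟨fun i => ?_, fun n t => ?_, fun t n => ?_⟩ aa_lim AA_succ AA_lim
    (M + M) (fun t w => ?_) (fun n => ?_) L (hL.congr fun t => ?_)
  · simp only [e]; split_ifs <;> simp
  · refine le_trans (card_le_card (t := {σ.symm (tau (2 * n)), σ.symm (tau (2 * n + 1))}) ?_)
      card_le_two
    intro i hi
    have := (mem_filter.mp hi).2
    simp only [p] at this
    simp only [mem_insert, mem_singleton, Equiv.eq_symm_apply]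
    simp only [← Equiv.symm_apply_eq]
    omega
  · rw [hchi]; unfold ind; split_ifs <;> simp
  · have j1 := (jc_comp (ind σ t) uu uu_mono w).trans (hM t _)
    have j2 := (jc_comp (ind σ t) vv vv_mono w).trans (hM t _)
    refine le_trans (le_trans (card_le_card ?_) (card_union_le _ _)) (add_le_add j1 j2)
    intro n hn
    simp only [mem_filter, mem_union, mem_range, mem_Ico, hchi] at hn ⊢
    omega
  · filter_upwards [eventually_gt_atTop (σ.symm (uu n)), eventually_gt_atTop (σ.symm (vv n))]
      with t t1 t2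
    rw [hchi]; simp [ind, t1, t2]
  · unfold up
    refine sum_congr rfl fun i _ => ?_
    simp only [BB, p, e, Nat.zero_le, if_true]
    split_ifs <;> simp

end Pool.Agent.H33.Vel
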