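import Mathlib

set_option autoImplicit false

namespace Pool.Agent.H33.YB

/-- A non-degenerate set-theoretic solution r(x,y) = (lam x y, rho y x) of the braid equation. -/
structure Sol : Type 1 where
  Y : Type
  lam : Y → Y → Y
  rho : Y → Y → Y
  lam_bij : ∀ x, Function.Bijective (lam x)
  rho_bij : ∀ y, Function.Bijective (rho y)
  braid : ∀ t : Y × Y × Y,
    let r12 : Y × Y × Y → Y × Y × Y := fun t => (lam t.1 t.2.1, rho t.2.1 t.1, t.2.2)
    let r23 : Y × Y × Y → Y × Y × Y := fun t => (t.1, lam t.2.1 t.2.2, rho t.2.2 t.2.1)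
    r12 (r23 (r12 t)) = r23 (r12 (r23 t))

/-- morphisms of solutions: (f × f) ∘ r = s ∘ (f × f) -/
def IsMor (A B : Sol) (f : A.Y → B.Y) : Prop :=
  ∀ x y, (f (A.lam x y), f (A.rho y x)) = (B.lam (f x) (f y), B.rho (f y) (f x))

/-- the universal property of the free solution on X -/
def IsFree (X : Type) (F : Sol) (i : X → F.Y) : Prop :=
  ∀ (Z : Sol) (h : X → Z.Y), ∃! f : F.Y → Z.Y, IsMor F Z f ∧ f ∘ i = h

/-- the relators x y (lam x y · rho y x)⁻¹ of the structure group -/
def rels (A : Sol) : Set (FreeGroup A.Y) :=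
  {w | ∃ x y, w = FreeGroup.of x * FreeGroup.of y *
    (FreeGroup.of (A.lam x y) * FreeGroup.of (A.rho y x))⁻¹}

/-- the canonical map from a solution to its structure group -/
def gmap (A : Sol) : A.Y → PresentedGroup (rels A) := PresentedGroup.of

end Pool.Agent.H33.YB
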