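import Mathlib

namespace Pool.Agent.H33.Zm

/-- A space is zero-dimensional if the clopen sets form a base of its topology. -/
def ZeroDim (X : Type) [TopologicalSpace X] : Prop :=
  TopologicalSpace.IsTopologicalBasis {s : Set X | IsClopen s}

/-- Every closed zero-dimensional subgroup is discrete. -/
def PropZ (G : Type) [Group G] [TopologicalSpace G] : Prop :=
  ∀ H : Subgroup G, IsClosed (H : Set G) → ZeroDim H → DiscreteTopology H

/-- Every closed zero-dimensional metrizable subgroup is discrete. -/
def PropZm (G : Type) [Group G] [TopologicalSpace G] : Prop :=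
  ∀ H : Subgroup G, IsClosed (H : Set G) → ZeroDim H → TopologicalSpace.MetrizableSpace H →
    DiscreteTopology H

end Pool.Agent.H33.Zm
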